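import Pool.Agent.MP_5f4cdd_gt.CB.Defs

set_option autoImplicit false
open MeasureTheory Matrix Set Filter Topology

namespace Pool.Agent.MP_5f4cdd_gt.CB
variable {N : ℕ} {u w : E N → ℝ} {x : E N}

theorem contDiffAt_dd {k : ℕ} (h : ContDiffAt ℝ (k + 1 : ℕ) u x) (v : E N) :
    ContDiffAt ℝ k (dd v u) x := by
  have h1 : ContDiffAt ℝ k (fderiv ℝ u) x :=
    h.fderiv_right (m := (k : WithTop ℕ∞)) (by push_cast; exact le_rfl)
  exact h1.clm_apply contDiffAt_const
theorem contDiffAt_pd {k : ℕ} (h : ContDiffAt ℝ (k + 1 : ℕ) u x) (i : Fin N) :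
    ContDiffAt ℝ k (pd i u) x := contDiffAt_dd h _
theorem contDiff_dd {k : ℕ} (h : ContDiff ℝ (k + 1 : ℕ) u) (v : E N) :
    ContDiff ℝ k (dd v u) :=
  contDiff_iff_contDiffAt.2 fun _ => contDiffAt_dd h.contDiffAt v
theorem contDiff_pd {k : ℕ} (h : ContDiff ℝ (k + 1 : ℕ) u) (i : Fin N) :
    ContDiff ℝ k (pd i u) := contDiff_dd h _
theorem contDiffAt_hess {k : ℕ} (h : ContDiffAt ℝ (k + 2 : ℕ) u x) (i j : Fin N) :
    ContDiffAt ℝ k (fun y => hess u y i j) x := by
  have h1 : ContDiffAt ℝ (k + 1 : ℕ) (pd j u) x := contDiffAt_pd (k := k + 1) h j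
  exact contDiffAt_pd h1 i
theorem contDiffAt_qf_hess {k : ℕ} (h : ContDiffAt ℝ (k + 2 : ℕ) u x) (v z : E N) :
    ContDiffAt ℝ k (fun y => qf (hess u y) v z) x := by
  have e : (fun y => qf (hess u y) v z) =
      fun y => ∑ i, v i * ∑ j, hess u y i j * z j := by
    funext y; simp [qf, dotProduct, Matrix.mulVec]
  rw [e]
  exact ContDiffAt.sum fun i _ => contDiffAt_const.mul
    (ContDiffAt.sum fun j _ => (contDiffAt_hess h i j).mul contDiffAt_const)
theorem continuousAt_hess (h : ContDiffAt ℝ 2 u x) : ContinuousAt (hess u) x := by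
  refine continuousAt_pi.2 fun i => continuousAt_pi.2 fun j => ?_
  exact (contDiffAt_hess (k := 0) (by simpa using h) i j).continuousAt
theorem continuousAt_grad (h : ContDiffAt ℝ 1 u x) : ContinuousAt (grad u) x := by
  refine continuousAt_pi.2 fun i => ?_
  exact (contDiffAt_pd (k := 0) (by simpa using h) i).continuousAt
theorem continuousAt_d3 (h : ContDiffAt ℝ 3 u x) (v : E N) :
    ContinuousAt (fun p : E N × E N => d3 u p.1 p.2) (x, v) := by
  refine continuousAt_pi.2 fun i => continuousAt_pi.2 fun j => ?_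
  have h1 : ContDiffAt ℝ (1 : ℕ) (pd i (pd j u)) x :=
    contDiffAt_hess (k := 1) (by simpa using h) i j
  have h2 : ContDiffAt ℝ (0 : ℕ) (fderiv ℝ (pd i (pd j u))) x :=
    h1.fderiv_right (m := ((0 : ℕ) : WithTop ℕ∞)) (by simp)
  have h3 : ContinuousAt (fun p : E N × E N => fderiv ℝ (pd i (pd j u)) p.1) (x, v) :=
    ContinuousAt.comp (f := fun p : E N × E N => p.1) h2.continuousAt continuousAt_fst
  exact h3.clm_apply continuousAt_snd

theorem dd_congr (h : u =ᶠ[𝓝 x] w) (v : E N) : dd v u =ᶠ[𝓝 x] dd v w := by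
  filter_upwards [h.fderiv (𝕜 := ℝ)] with y hy
  simp only [dd, hy]
theorem pd_congr (h : u =ᶠ[𝓝 x] w) (i : Fin N) : pd i u =ᶠ[𝓝 x] pd i w := dd_congr h _
theorem grad_congr (h : u =ᶠ[𝓝 x] w) : grad u =ᶠ[𝓝 x] grad w := by
  filter_upwards [h.fderiv (𝕜 := ℝ)] with y hy
  funext i
  simp only [grad, pd, dd, hy]
theorem hess_congr (h : u =ᶠ[𝓝 x] w) : hess u =ᶠ[𝓝 x] hess w := by
  have h1 : ∀ᶠ y in 𝓝 x, ∀ i j, pd i (pd j u) y = pd i (pd j w) y :=
    eventually_all.2 fun i => eventually_all.2 fun j => pd_congr (pd_congr h j) i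
  filter_upwards [h1] with y hy
  ext i j
  exact hy i j
theorem d3_congr (h : u =ᶠ[𝓝 x] w) (v : E N) : d3 u x v = d3 w x v := by
  ext i j
  exact (dd_congr (pd_congr (pd_congr h j) i) v).eq_of_nhds

theorem dd_eq_sum (v : E N) (u : E N → ℝ) (x : E N) : dd v u x = ∑ i, v i * pd i u x := by
  have e : v = ∑ i, v i • (Pi.single i (1 : ℝ) : E N) := by
    ext j; simp [Finset.sum_apply, Pi.single_apply]
  conv_lhs => rw [dd, e, map_sum]
  simp only [map_smul, smul_eq_mul, pd, dd]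
theorem dd_eq_dot (v : E N) (u : E N → ℝ) (x : E N) : dd v u x = v ⬝ᵥ grad u x := by
  rw [dd_eq_sum]; rfl
theorem dd_add_vec (v z : E N) (u : E N → ℝ) (x : E N) :
    dd (v + z) u x = dd v u x + dd z u x := by
  simp only [dd, map_add]
theorem dd_smul_vec (c : ℝ) (v : E N) (u : E N → ℝ) (x : E N) :
    dd (c • v) u x = c * dd v u x := by
  simp only [dd, map_smul, smul_eq_mul]

theorem dd_const (c : ℝ) (v x : E N) : dd v (fun _ : E N => c) x = 0 := by
  simp [dd]
theorem hasFDerivAt_dot_A1a (β x : E N) : HasFDerivAt (fun y : E N => β ⬝ᵥ y)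
    (LinearMap.toContinuousLinearMap (dotProductBilin ℝ ℝ β)) x :=
  (LinearMap.toContinuousLinearMap (dotProductBilin ℝ ℝ β)).hasFDerivAt
theorem dd_dot (β v x : E N) : dd v (fun y : E N => β ⬝ᵥ y) x = β ⬝ᵥ v := by
  rw [dd, (hasFDerivAt_dot_A1a β x).fderiv]; rfl
theorem dd_add (hu : DifferentiableAt ℝ u x) (hw : DifferentiableAt ℝ w x) (v : E N) :
    dd v (fun y => u y + w y) x = dd v u x + dd v w x := by
  rw [dd, (hu.hasFDerivAt.fun_add hw.hasFDerivAt).fderiv]; rfl
theorem dd_sub (hu : DifferentiableAt ℝ u x) (hw : DifferentiableAt ℝ w x) (v : E N) :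
    dd v (fun y => u y - w y) x = dd v u x - dd v w x := by
  rw [dd, (hu.hasFDerivAt.fun_sub hw.hasFDerivAt).fderiv]; rfl
theorem dd_neg (v : E N) (u : E N → ℝ) (x : E N) : dd v (fun y => -u y) x = -dd v u x := by
  rw [dd, fderiv_fun_neg]; rfl
theorem dd_const_mul (c : ℝ) (v : E N) (u : E N → ℝ) (x : E N) :
    dd v (fun y => c * u y) x = c * dd v u x := by
  have e : (fun y => c * u y) = c • u := rfl
  rw [dd, e, fderiv_const_smul_field]; rfl
theorem dd_mul (hu : DifferentiableAt ℝ u x) (hw : DifferentiableAt ℝ w x) (v : E N) :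
    dd v (fun y => u y * w y) x = dd v u x * w x + u x * dd v w x := by
  rw [dd, (hu.hasFDerivAt.fun_mul hw.hasFDerivAt).fderiv]
  simp only [dd, _root_.add_apply, _root_.smul_apply, smul_eq_mul]
  ring
theorem dd_sum {ι : Type} (s : Finset ι) (f : ι → E N → ℝ)
    (hf : ∀ i ∈ s, DifferentiableAt ℝ (f i) x) (v : E N) :
    dd v (fun y => ∑ i ∈ s, f i y) x = ∑ i ∈ s, dd v (f i) x := by
  rw [dd, fderiv_fun_sum hf]
  simp only [dd, _root_.sum_apply]
theorem dd_comp {φ : ℝ → ℝ} {φ' : ℝ} (hφ : HasDerivAt φ φ' (u x)) (hu : DifferentiableAt ℝ u x)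
    (v : E N) : dd v (fun y => φ (u y)) x = φ' * dd v u x := by
  have h1 := hφ.comp_hasFDerivAt x hu.hasFDerivAt
  have e : (fun y => φ (u y)) = φ ∘ u := rfl
  rw [dd, e, h1.fderiv]; rfl
theorem hasDerivAt_line {v : E N} {t : ℝ} (h : DifferentiableAt ℝ u (x + t • v)) :
    HasDerivAt (fun s : ℝ => u (x + s • v)) (dd v u (x + t • v)) t := by
  have h1 : HasDerivAt (fun s : ℝ => x + s • v) v t := by
    simpa using ((hasDerivAt_id t).smul_const v).const_add x
  exact h.hasFDerivAt.comp_hasDerivAt t h1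

theorem dd_dd_A1a (h : ContDiffAt ℝ 2 u x) (v z : E N) :
    dd v (dd z u) x = fderiv ℝ (fderiv ℝ u) x v z := by
  have h1 : DifferentiableAt ℝ (fderiv ℝ u) x :=
    (h.fderiv_right (m := 1) (by norm_num)).differentiableAt (by simp)
  have h2 := h1.hasFDerivAt.clm_apply (hasFDerivAt_const z x)
  have e : dd z u = fun y => fderiv ℝ u y z := rfl
  rw [dd, e, h2.fderiv]
  simp
theorem ev_diff_A1a (h : ContDiffAt ℝ 2 u x) : ∀ᶠ y in 𝓝 x, DifferentiableAt ℝ u y := by
  filter_upwards [h.eventually (by simp)] with y hy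
  exact hy.differentiableAt (by simp)
theorem diff_dd_A1a (h : ContDiffAt ℝ 2 u x) (v : E N) : DifferentiableAt ℝ (dd v u) x :=
  (contDiffAt_dd (k := 1) (by simpa using h) v).differentiableAt (by simp)
theorem dd_comm (h : ContDiffAt ℝ 2 u x) (v z : E N) :
    dd v (dd z u) x = dd z (dd v u) x := by
  rw [dd_dd_A1a h, dd_dd_A1a h]
  exact (h.isSymmSndFDerivAt (by simp)).eq v z
theorem dd_comm_ev (h : ContDiffAt ℝ 2 u x) (v z : E N) :
    dd v (dd z u) =ᶠ[𝓝 x] dd z (dd v u) := by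
  filter_upwards [h.eventually (by simp)] with y hy
  exact dd_comm hy v z
theorem dd_dd_eq_qf (h : ContDiffAt ℝ 2 u x) (v z : E N) :
    dd v (dd z u) x = qf (hess u x) v z := by
  have e : dd z u = fun y => ∑ j, z j * pd j u y := funext fun y => dd_eq_sum z u y
  have hd : ∀ j, DifferentiableAt ℝ (pd j u) x := fun j =>
    (contDiffAt_pd (k := 1) (by simpa using h) j).differentiableAt (by simp)
  rw [e, dd_sum _ _ (fun j _ => (hd j).const_mul (z j))]
  simp only [dd_const_mul]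
  simp only [dd_eq_sum v, qf, dotProduct, Matrix.mulVec, hess, Matrix.of_apply,
    Finset.mul_sum]
  rw [Finset.sum_comm]
  refine Finset.sum_congr rfl fun i _ => Finset.sum_congr rfl fun j _ => ?_
  ring
theorem hess_symm (h : ContDiffAt ℝ 2 u x) : (hess u x).IsSymm := by
  ext i j
  exact dd_comm h _ _
theorem grad_dd (h : ContDiffAt ℝ 2 u x) (v : E N) : grad (dd v u) x = hess u x *ᵥ v := by
  funext i
  change dd (Pi.single i 1) (dd v u) x = _
  rw [dd_dd_eq_qf h, qf, single_one_dotProduct]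
theorem hasFDerivAt_grad (h : ContDiffAt ℝ 2 u x) :
    HasFDerivAt (grad u) (LinearMap.toContinuousLinearMap (Matrix.toLin' (hess u x))) x := by
  refine hasFDerivAt_pi'' fun i => ?_
  have hd : DifferentiableAt ℝ (pd i u) x :=
    (contDiffAt_pd (k := 1) (by simpa using h) i).differentiableAt (by simp)
  have e : (ContinuousLinearMap.proj i).comp
      (LinearMap.toContinuousLinearMap (Matrix.toLin' (hess u x))) = fderiv ℝ (pd i u) x := by
    refine ContinuousLinearMap.ext fun v => ?_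
    change (hess u x *ᵥ v) i = dd v (dd (Pi.single i 1) u) x
    rw [dd_comm h, dd_dd_eq_qf h, qf, single_one_dotProduct]
  rw [e]
  exact hd.hasFDerivAt
theorem grad_add (hu : DifferentiableAt ℝ u x) (hw : DifferentiableAt ℝ w x) :
    grad (fun y => u y + w y) x = grad u x + grad w x := by
  funext i
  exact dd_add hu hw _
theorem hess_add (hu : ContDiffAt ℝ 2 u x) (hw : ContDiffAt ℝ 2 w x) :
    hess (fun y => u y + w y) x = hess u x + hess w x := by
  ext i j
  have e : pd j (fun y => u y + w y) =ᶠ[𝓝 x] fun y => pd j u y + pd j w y := by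
    filter_upwards [ev_diff_A1a hu, ev_diff_A1a hw] with y h1 h2
    exact dd_add h1 h2 _
  change pd i (pd j fun y => u y + w y) x = pd i (pd j u) x + pd i (pd j w) x
  rw [(pd_congr e i).eq_of_nhds]
  exact dd_add (diff_dd_A1a hu _) (diff_dd_A1a hw _) _
theorem hess_sub (hu : ContDiffAt ℝ 2 u x) (hw : ContDiffAt ℝ 2 w x) :
    hess (fun y => u y - w y) x = hess u x - hess w x := by
  ext i j
  have e : pd j (fun y => u y - w y) =ᶠ[𝓝 x] fun y => pd j u y - pd j w y := by
    filter_upwards [ev_diff_A1a hu, ev_diff_A1a hw] with y h1 h2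
    exact dd_sub h1 h2 _
  change pd i (pd j fun y => u y - w y) x = pd i (pd j u) x - pd i (pd j w) x
  rw [(pd_congr e i).eq_of_nhds]
  exact dd_sub (diff_dd_A1a hu _) (diff_dd_A1a hw _) _
theorem hess_const_mul (c : ℝ) (u : E N → ℝ) (x : E N) :
    hess (fun y => c * u y) x = c • hess u x := by
  ext i j
  have e : pd j (fun y => c * u y) = fun y => c * pd j u y :=
    funext fun y => dd_const_mul c _ u y
  change pd i (pd j fun y => c * u y) x = c * pd i (pd j u) x
  rw [e]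
  exact dd_const_mul c _ _ x
theorem hess_const (c : ℝ) (x : E N) : hess (fun _ : E N => c) x = 0 := by
  ext i j
  have e : pd j (fun _ : E N => c) = fun _ => 0 := funext fun y => dd_const c _ y
  change pd i (pd j fun _ : E N => c) x = 0
  rw [e]
  exact dd_const 0 _ x
theorem hess_dot (β x : E N) : hess (fun y : E N => β ⬝ᵥ y) x = 0 := by
  ext i j
  have e : pd j (fun y : E N => β ⬝ᵥ y) = fun _ => β ⬝ᵥ (Pi.single j 1 : E N) :=
    funext fun y => dd_dot β _ y
  change pd i (pd j fun y : E N => β ⬝ᵥ y) x = 0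
  rw [e]
  exact dd_const _ _ x
theorem qf_hess_mul (hu : ContDiffAt ℝ 2 u x) (hw : ContDiffAt ℝ 2 w x) (v z : E N) :
    qf (hess (fun y => u y * w y) x) v z = qf (hess u x) v z * w x + dd v u x * dd z w x
      + dd z u x * dd v w x + u x * qf (hess w x) v z := by
  have e : dd z (fun y => u y * w y) =ᶠ[𝓝 x] fun y => dd z u y * w y + u y * dd z w y := by
    filter_upwards [ev_diff_A1a hu, ev_diff_A1a hw] with y h1 h2
    exact dd_mul h1 h2 _
  have du : DifferentiableAt ℝ u x := hu.differentiableAt (by simp)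
  have dw : DifferentiableAt ℝ w x := hw.differentiableAt (by simp)
  rw [← dd_dd_eq_qf (hu.mul hw), (dd_congr e v).eq_of_nhds,
    dd_add ((diff_dd_A1a hu z).fun_mul dw) (du.fun_mul (diff_dd_A1a hw z)),
    dd_mul (diff_dd_A1a hu z) dw, dd_mul du (diff_dd_A1a hw z), dd_dd_eq_qf hu, dd_dd_eq_qf hw]
  ring
theorem qf_hess_comp {φ φ1 : ℝ → ℝ} {φ2 : ℝ} (hu : ContDiffAt ℝ 2 u x)
    (h1 : ∀ᶠ s in 𝓝 (u x), HasDerivAt φ (φ1 s) s) (h2 : HasDerivAt φ1 φ2 (u x)) (v z : E N) :
    qf (hess (fun y => φ (u y)) x) v z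
      = φ1 (u x) * qf (hess u x) v z + φ2 * (dd v u x * dd z u x) := by
  have du : DifferentiableAt ℝ u x := hu.differentiableAt (by simp)
  have h1' : ∀ᶠ y in 𝓝 x, HasDerivAt φ (φ1 (u y)) (u y) := du.continuousAt.eventually h1
  have e : ∀ a : E N, dd a (fun y => φ (u y)) =ᶠ[𝓝 x] fun y => φ1 (u y) * dd a u y := by
    intro a
    filter_upwards [ev_diff_A1a hu, h1'] with y hy hφ
    exact dd_comp hφ hy a
  have d1 : DifferentiableAt ℝ (fun y => φ1 (u y)) x := h2.differentiableAt.comp x du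
  have key : ∀ i j, hess (fun y => φ (u y)) x i j =
      φ1 (u x) * hess u x i j + φ2 * (pd i u x * pd j u x) := by
    intro i j
    change dd (Pi.single i 1) (dd (Pi.single j 1) fun y => φ (u y)) x =
      φ1 (u x) * dd (Pi.single i 1) (dd (Pi.single j 1) u) x +
        φ2 * (dd (Pi.single i 1) u x * dd (Pi.single j 1) u x)
    rw [(dd_congr (e _) _).eq_of_nhds, dd_mul d1 (diff_dd_A1a hu _), dd_comp h2 du]
    ring
  rw [dd_eq_sum v, dd_eq_sum z, Finset.sum_mul_sum]
  simp only [qf, dotProduct, Matrix.mulVec, key, Finset.mul_sum, ← Finset.sum_add_distrib]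
  refine Finset.sum_congr rfl fun i _ => Finset.sum_congr rfl fun j _ => ?_
  ring
theorem mat_ext_qf {A B : Mat N} (h : ∀ v z, qf A v z = qf B v z) : A = B := by
  ext i j
  have := h (Pi.single i 1) (Pi.single j 1)
  simpa [qf, single_one_dotProduct, Matrix.mulVec_single_one] using this

end Pool.Agent.MP_5f4cdd_gt.CB
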