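import Pool.Agent.MP_5f4cdd_gt.CB.A1a

set_option autoImplicit false
open MeasureTheory Matrix Set Filter Topology

namespace Pool.Agent.MP_5f4cdd_gt.CB
variable {N : ℕ} {u w : E N → ℝ} {x : E N}

theorem ev_A1b (k : ℕ) (h : ContDiffAt ℝ k u x) : ∀ᶠ y in 𝓝 x, ContDiffAt ℝ k u y :=
  h.eventually (by simp)

theorem c21_A1b (h : ContDiffAt ℝ 2 u x) (v : E N) : DifferentiableAt ℝ (dd v u) x :=
  (contDiffAt_dd (k := 1) h v).differentiableAt (by simp)
theorem c32_A1b (h : ContDiffAt ℝ 3 u x) (v : E N) : ContDiffAt ℝ 2 (dd v u) x :=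
  contDiffAt_dd (k := 2) h v
theorem c43_A1b (h : ContDiffAt ℝ 4 u x) (v : E N) : ContDiffAt ℝ 3 (dd v u) x :=
  contDiffAt_dd (k := 3) h v
theorem c54_A1b (h : ContDiffAt ℝ 5 u x) (v : E N) : ContDiffAt ℝ 4 (dd v u) x :=
  contDiffAt_dd (k := 4) h v
theorem l32_A1b (h : ContDiffAt ℝ 3 u x) : ContDiffAt ℝ 2 u x := h.of_le (by norm_num)
theorem l43_A1b (h : ContDiffAt ℝ 4 u x) : ContDiffAt ℝ 3 u x := h.of_le (by norm_num)
theorem l54_A1b (h : ContDiffAt ℝ 5 u x) : ContDiffAt ℝ 4 u x := h.of_le (by norm_num)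

theorem qf_sum_A1b (A : Mat N) (v z : E N) : qf A v z = ∑ i, ∑ j, v i * z j * A i j := by
  unfold qf dotProduct Matrix.mulVec dotProduct
  refine Finset.sum_congr rfl fun i _ => ?_
  rw [Finset.mul_sum]
  exact Finset.sum_congr rfl fun j _ => by ring

theorem qf_single_A1b (A : Mat N) (i : Fin N) (z : E N) :
    qf A (Pi.single i 1) z = (A *ᵥ z) i := by
  rw [qf, single_dotProduct, one_mul]

theorem dd_qf_A1b {A : E N → Mat N} (h : ∀ i j, DifferentiableAt ℝ (fun y => A y i j) x)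
    (v z t : E N) : dd v (fun y => qf (A y) z t) x =
      qf (Matrix.of fun i j => dd v (fun y => A y i j) x) z t := by
  simp only [qf_sum_A1b]
  rw [dd_sum Finset.univ (fun i y => ∑ j, z i * t j * A y i j) fun i _ =>
    DifferentiableAt.fun_sum fun j _ => (h i j).const_mul _]
  refine Finset.sum_congr rfl fun i _ => ?_
  rw [dd_sum Finset.univ (fun j y => z i * t j * A y i j) fun j _ => (h i j).const_mul _]
  exact Finset.sum_congr rfl fun j _ => dd_const_mul _ _ _ _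

theorem hess_ev_A1b (h : ContDiffAt ℝ 2 u x) (v z : E N) :
    (fun y => qf (hess u y) v z) =ᶠ[𝓝 x] dd v (dd z u) :=
  (ev_A1b 2 h).mono fun _ hy => (dd_dd_eq_qf hy v z).symm

theorem t12_A1b (h : ContDiffAt ℝ 3 u x) (v z t : E N) :
    dd v (dd z (dd t u)) x = dd z (dd v (dd t u)) x := dd_comm (c32_A1b h t) v z
theorem t23_A1b (h : ContDiffAt ℝ 3 u x) (v z t : E N) :
    dd v (dd z (dd t u)) x = dd v (dd t (dd z u)) x :=
  (dd_congr (dd_comm_ev (l32_A1b h) z t) v).eq_of_nhds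

theorem q12_A1b (h : ContDiffAt ℝ 4 u x) (v z t s : E N) :
    dd v (dd z (dd t (dd s u))) x = dd z (dd v (dd t (dd s u))) x := t12_A1b (c43_A1b h s) v z t
theorem q23_A1b (h : ContDiffAt ℝ 4 u x) (v z t s : E N) :
    dd v (dd z (dd t (dd s u))) x = dd v (dd t (dd z (dd s u))) x := t23_A1b (c43_A1b h s) v z t
theorem q34_A1b (h : ContDiffAt ℝ 4 u x) (v z t s : E N) :
    dd v (dd z (dd t (dd s u))) x = dd v (dd z (dd s (dd t u))) x :=
  (dd_congr (dd_congr (dd_comm_ev (l32_A1b (l43_A1b h)) t s) z) v).eq_of_nhds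
theorem qp_A1b (h : ContDiffAt ℝ 4 u x) (v z t s : E N) :
    dd v (dd z (dd t (dd s u))) x = dd t (dd s (dd v (dd z u))) x := by
  rw [q23_A1b h v z t s, q12_A1b h v t z s, q34_A1b h t v z s, q23_A1b h t v s z]

theorem p12_A1b (h : ContDiffAt ℝ 5 u x) (v z t s r : E N) :
    dd v (dd z (dd t (dd s (dd r u)))) x = dd z (dd v (dd t (dd s (dd r u)))) x :=
  q12_A1b (c54_A1b h r) v z t s
theorem p23_A1b (h : ContDiffAt ℝ 5 u x) (v z t s r : E N) :
    dd v (dd z (dd t (dd s (dd r u)))) x = dd v (dd t (dd z (dd s (dd r u)))) x :=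
  q23_A1b (c54_A1b h r) v z t s
theorem p34_A1b (h : ContDiffAt ℝ 5 u x) (v z t s r : E N) :
    dd v (dd z (dd t (dd s (dd r u)))) x = dd v (dd z (dd s (dd t (dd r u)))) x :=
  q34_A1b (c54_A1b h r) v z t s
theorem p45_A1b (h : ContDiffAt ℝ 5 u x) (v z t s r : E N) :
    dd v (dd z (dd t (dd s (dd r u)))) x = dd v (dd z (dd t (dd r (dd s u)))) x :=
  (dd_congr (dd_congr (dd_congr (dd_comm_ev (l32_A1b (l43_A1b (l54_A1b h))) s r) t) z)
    v).eq_of_nhds

theorem dd_qf_hess_A1b (h : ContDiffAt ℝ 3 u x) (v z t : E N) :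
    dd v (fun y => qf (hess u y) z t) x = qf (d3 u x v) z t :=
  dd_qf_A1b (A := hess u) (fun _ _ => c21_A1b (c32_A1b h _) _) v z t
theorem dd_qf_d3_A1b (h : ContDiffAt ℝ 4 u x) (v z t s : E N) :
    dd v (fun y => qf (d3 u y z) t s) x = qf (d4 u x v z) t s :=
  dd_qf_A1b (A := fun y => d3 u y z) (fun _ _ => c21_A1b (c32_A1b (c43_A1b h _) _) z) v t s
theorem dd_qf_d4_A1b (h : ContDiffAt ℝ 5 u x) (v z t s r : E N) :
    dd v (fun y => qf (d4 u y z t) s r) x = qf (d5 u x v z t) s r :=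
  dd_qf_A1b (A := fun y => d4 u y z t)
    (fun _ _ => c21_A1b (c32_A1b (c43_A1b (c54_A1b h _) _) t) z) v s r

theorem d3_eq_sum (u : E N → ℝ) (x v : E N) :
    d3 u x v = ∑ i, v i • d3 u x (Pi.single i 1) := by
  ext a b
  rw [Matrix.sum_apply]
  exact dd_eq_sum v _ x
theorem d3_add_vec (u : E N → ℝ) (x v z : E N) : d3 u x (v + z) = d3 u x v + d3 u x z := by
  ext a b
  exact dd_add_vec v z _ x
theorem d3_smul_vec (u : E N → ℝ) (x v : E N) (c : ℝ) : d3 u x (c • v) = c • d3 u x v := by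
  ext a b
  exact dd_smul_vec c v _ x
theorem qf_d3 (h : ContDiffAt ℝ 3 u x) (v z t : E N) :
    qf (d3 u x v) z t = dd v (dd z (dd t u)) x := by
  rw [← dd_qf_hess_A1b h]
  exact (dd_congr (hess_ev_A1b (l32_A1b h) z t) v).eq_of_nhds
theorem d3_symm (h : ContDiffAt ℝ 3 u x) (v : E N) : (d3 u x v).IsSymm :=
  Matrix.IsSymm.ext fun _ _ => t23_A1b h v _ _
theorem d3_swap (h : ContDiffAt ℝ 3 u x) (v z t : E N) :
    qf (d3 u x v) z t = qf (d3 u x z) v t := by
  rw [qf_d3 h, qf_d3 h, t12_A1b h]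
theorem d3_mulVec_swap (h : ContDiffAt ℝ 3 u x) (v z : E N) :
    d3 u x v *ᵥ z = d3 u x z *ᵥ v := by
  funext i
  rw [← qf_single_A1b, ← qf_single_A1b, qf_d3 h, qf_d3 h, t12_A1b h v, t12_A1b h z,
    t23_A1b h _ v z]
theorem hess_dd (h : ContDiffAt ℝ 3 u x) (v : E N) : hess (dd v u) x = d3 u x v := by
  ext a b
  exact (t23_A1b h _ _ v).trans (t12_A1b h _ v _)
theorem dd_qf_hess (h : ContDiffAt ℝ 3 u x) (v z t : E N) :
    dd v (fun y => qf (hess u y) z t) x = qf (d3 u x v) z t := dd_qf_hess_A1b h v z t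
theorem grad_qf_hess (h : ContDiffAt ℝ 3 u x) (v z : E N) :
    grad (fun y => qf (hess u y) v z) x = d3 u x v *ᵥ z := by
  funext i
  rw [← qf_single_A1b, d3_swap h]
  exact dd_qf_hess h _ v z
theorem d3_add (hu : ContDiffAt ℝ 3 u x) (hw : ContDiffAt ℝ 3 w x) (v : E N) :
    d3 (fun y => u y + w y) x v = d3 u x v + d3 w x v := by
  ext a b
  have e : pd a (pd b fun y => u y + w y) =ᶠ[𝓝 x]
      fun y => pd a (pd b u) y + pd a (pd b w) y := by
    filter_upwards [ev_A1b 2 (l32_A1b hu), ev_A1b 2 (l32_A1b hw)] with y h1 h2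
    exact congrFun (congrFun (hess_add h1 h2) a) b
  exact (dd_congr e v).eq_of_nhds.trans
    (dd_add (c21_A1b (c32_A1b hu _) _) (c21_A1b (c32_A1b hw _) _) v)
theorem d3_const_mul (c : ℝ) (u : E N → ℝ) (x v : E N) :
    d3 (fun y => c * u y) x v = c • d3 u x v := by
  ext a b
  have e : pd a (pd b fun y => c * u y) = fun y => c * pd a (pd b u) y :=
    funext fun y => congrFun (congrFun (hess_const_mul c u y) a) b
  exact (congrArg (fun f => dd v f x) e).trans (dd_const_mul c v _ x)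

theorem qf_d4 (h : ContDiffAt ℝ 4 u x) (v z t s : E N) :
    qf (d4 u x v z) t s = dd v (dd z (dd t (dd s u))) x := by
  rw [← dd_qf_d3_A1b h]
  exact (dd_congr ((ev_A1b 3 (l43_A1b h)).mono fun _ hy => qf_d3 hy z t s) v).eq_of_nhds
theorem d4_symm (h : ContDiffAt ℝ 4 u x) (v z : E N) : (d4 u x v z).IsSymm :=
  Matrix.IsSymm.ext fun _ _ => q34_A1b h v z _ _
theorem d4_comm (h : ContDiffAt ℝ 4 u x) (v z : E N) : d4 u x v z = d4 u x z v := by
  ext a b
  exact q12_A1b h v z _ _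
theorem d4_swap (h : ContDiffAt ℝ 4 u x) (v z t s : E N) :
    qf (d4 u x v z) t s = qf (d4 u x v t) z s := by
  rw [qf_d4 h, qf_d4 h, q23_A1b h]
theorem d4_pair (h : ContDiffAt ℝ 4 u x) (v z t s : E N) :
    qf (d4 u x v z) t s = qf (d4 u x t s) v z := by
  rw [qf_d4 h, qf_d4 h, qp_A1b h]
theorem dd_qf_d3 (h : ContDiffAt ℝ 4 u x) (v z t s : E N) :
    dd v (fun y => qf (d3 u y z) t s) x = qf (d4 u x v z) t s := dd_qf_d3_A1b h v z t s
theorem hess_qf_hess (h : ContDiffAt ℝ 4 u x) (v z : E N) :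
    hess (fun y => qf (hess u y) v z) x = d4 u x v z := by
  rw [(hess_congr (hess_ev_A1b (l32_A1b (l43_A1b h)) v z)).eq_of_nhds]
  ext a b
  exact qp_A1b h _ _ v z
theorem d4_eq_sum (h : ContDiffAt ℝ 4 u x) (v z : E N) :
    d4 u x v z = ∑ i, z i • d4 u x v (Pi.single i 1) := by
  ext a b
  rw [Matrix.sum_apply]
  have e : dd z (pd a (pd b u)) = fun y => ∑ i, z i * pd i (pd a (pd b u)) y :=
    funext fun y => dd_eq_sum z _ y
  refine (congrArg (fun f => dd v f x) e).trans ?_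
  refine (dd_sum Finset.univ (fun i y => z i * pd i (pd a (pd b u)) y)
    (fun i _ => (c21_A1b (c32_A1b (c43_A1b h _) _) _).const_mul _) v).trans ?_
  exact Finset.sum_congr rfl fun i _ => dd_const_mul _ v _ x

theorem qf_d5 (h : ContDiffAt ℝ 5 u x) (v z t s r : E N) :
    qf (d5 u x v z t) s r = dd v (dd z (dd t (dd s (dd r u)))) x := by
  rw [← dd_qf_d4_A1b h]
  exact (dd_congr ((ev_A1b 4 (l54_A1b h)).mono fun _ hy => qf_d4 hy z t s r) v).eq_of_nhds
theorem d5_swap12 (h : ContDiffAt ℝ 5 u x) (v z t : E N) : d5 u x v z t = d5 u x z v t := by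
  ext a b
  exact p12_A1b h v z t _ _
theorem d5_swap23 (h : ContDiffAt ℝ 5 u x) (v z t : E N) : d5 u x v z t = d5 u x v t z := by
  ext a b
  exact p23_A1b h v z t _ _
theorem d5_pair (h : ContDiffAt ℝ 5 u x) (v z t s r : E N) :
    qf (d5 u x v z t) s r = qf (d5 u x s r t) v z := by
  rw [qf_d5 h, qf_d5 h, p34_A1b h v z t s r, p23_A1b h v z s t r, p12_A1b h v s z t r,
    p45_A1b h s v z t r, p34_A1b h s v z r t, p23_A1b h s v r z t, p45_A1b h s r v z t,
    p34_A1b h s r v t z]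
theorem dd_qf_d4 (h : ContDiffAt ℝ 5 u x) (v z t s r : E N) :
    dd v (fun y => qf (d4 u y z t) s r) x = qf (d5 u x v z t) s r := dd_qf_d4_A1b h v z t s r

end Pool.Agent.MP_5f4cdd_gt.CB
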