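import Pool.Agent.MP_5f4cdd_gt.CB.A1b

set_option autoImplicit false
open MeasureTheory Matrix Set Filter Topology

namespace Pool.Agent.MP_5f4cdd_gt.CB
variable {N : ℕ} {u w : E N → ℝ} {x : E N}

theorem evDiff_A1c (hu : ContDiffAt ℝ 1 u x) : ∀ᶠ y in 𝓝 x, DifferentiableAt ℝ u y :=
  (hu.eventually (by simp)).mono fun _ h => h.differentiableAt (by simp)

theorem taylor_A1c (hu : ContDiffAt ℝ 2 u x) (hg : grad u x = 0) (v : E N) :
    Tendsto (fun s : ℝ => (u (x + s • v) - u x) / s ^ 2) (𝓝[>] 0)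
      (𝓝 (qf (hess u x) v v / 2)) := by
  have hl : Tendsto (fun s : ℝ => x + s • v) (𝓝 0) (𝓝 x) := by
    have h : Continuous fun s : ℝ => x + s • v := by fun_prop
    simpa using h.tendsto 0
  have h1 : ∀ᶠ s in 𝓝 (0 : ℝ),
      HasDerivAt (fun s : ℝ => u (x + s • v) - u x) (dd v u (x + s • v)) s :=
    (hl.eventually (evDiff_A1c (hu.of_le (by norm_num)))).mono fun s hs =>
      (hasDerivAt_line hs).sub_const _
  have h2 : HasDerivAt (fun s : ℝ => dd v u (x + s • v)) (qf (hess u x) v v) 0 := by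
    have h3 : DifferentiableAt ℝ (dd v u) (x + (0 : ℝ) • v) := by
      rw [zero_smul, add_zero]
      exact (contDiffAt_dd (k := 1) hu v).differentiableAt (by simp)
    have h4 := hasDerivAt_line h3
    rwa [zero_smul, add_zero, dd_dd_eq_qf hu] at h4
  have h0 : dd v u x = 0 := by rw [dd_eq_dot, hg, dotProduct_zero]
  refine HasDerivAt.lhopital_zero_nhdsGT (f' := fun s => dd v u (x + s • v))
    (g' := fun s => 2 * s) (h1.filter_mono nhdsWithin_le_nhds)
    (Eventually.of_forall fun s => by simpa using hasDerivAt_pow 2 s)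
    (eventually_mem_nhdsWithin.mono fun s (hs : 0 < s) => by positivity) ?_ ?_ ?_
  · have h := h1.self_of_nhds.continuousAt.tendsto
    simp only [zero_smul, add_zero, sub_self] at h
    exact h.mono_left nhdsWithin_le_nhds
  · have h : Continuous fun s : ℝ => s ^ 2 := by fun_prop
    simpa using (h.tendsto 0).mono_left nhdsWithin_le_nhds
  · refine (h2.tendsto_slope_zero_right.div_const 2).congr fun s => ?_
    simp only [zero_add, zero_smul, add_zero, h0, sub_zero, smul_eq_mul]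
    ring

theorem localMax_grad (h : IsLocalMax u x) : grad u x = 0 := by
  funext i
  simp [grad, pd, dd, h.fderiv_eq_zero]

theorem localMin_grad (h : IsLocalMin u x) : grad u x = 0 := by
  funext i
  simp [grad, pd, dd, h.fderiv_eq_zero]

theorem localMax_hess (h : IsLocalMax u x) (hu : ContDiffAt ℝ 2 u x) (v : E N) :
    qf (hess u x) v v ≤ 0 := by
  have hl : Tendsto (fun s : ℝ => x + s • v) (𝓝 0) (𝓝 x) := by
    have h : Continuous fun s : ℝ => x + s • v := by fun_prop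
    simpa using h.tendsto 0
  have h1 := le_of_tendsto (taylor_A1c hu (localMax_grad h) v) (b := 0)
    (((hl.eventually h).filter_mono nhdsWithin_le_nhds).mono fun s hs =>
      div_nonpos_of_nonpos_of_nonneg (sub_nonpos.2 hs) (sq_nonneg s))
  linarith

theorem hasFDerivAt_aff_A1c (x0 : E N) (S : Mat N) (z : E N) :
    HasFDerivAt (fun y => x0 + S *ᵥ y) (LinearMap.toContinuousLinearMap (Matrix.toLin' S)) z :=
  (LinearMap.toContinuousLinearMap (Matrix.toLin' S)).hasFDerivAt.const_add x0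

theorem qf_conj_A1c (S H : Mat N) (v z : E N) :
    qf (Sᵀ * H * S) v z = qf H (S *ᵥ v) (S *ᵥ z) := by
  rw [qf, qf, ← mulVec_mulVec, ← mulVec_mulVec, dotProduct_mulVec, vecMul_transpose]

theorem contDiffAt_aff {k : ℕ} (x0 : E N) (S : Mat N) (z : E N)
    (h : ContDiffAt ℝ k u (x0 + S *ᵥ z)) : ContDiffAt ℝ k (fun y => u (x0 + S *ᵥ y)) z :=
  h.comp z (contDiff_const.add
    (LinearMap.toContinuousLinearMap (Matrix.toLin' S)).contDiff).contDiffAt

theorem dd_aff (x0 : E N) (S : Mat N) (z v : E N) (h : DifferentiableAt ℝ u (x0 + S *ᵥ z)) :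
    dd v (fun y => u (x0 + S *ᵥ y)) z = dd (S *ᵥ v) u (x0 + S *ᵥ z) := by
  have h1 : HasFDerivAt (fun y => u (x0 + S *ᵥ y)) _ z :=
    h.hasFDerivAt.comp z (hasFDerivAt_aff_A1c x0 S z)
  rw [dd, h1.fderiv]
  rfl

theorem dd_aff_ev_A1c (x0 : E N) (S : Mat N) (z v : E N) (h : ContDiffAt ℝ 1 u (x0 + S *ᵥ z)) :
    dd v (fun y => u (x0 + S *ᵥ y)) =ᶠ[𝓝 z] fun y => dd (S *ᵥ v) u (x0 + S *ᵥ y) :=
  ((hasFDerivAt_aff_A1c x0 S z).continuousAt.tendsto.eventually (evDiff_A1c h)).mono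
    fun y hy => dd_aff x0 S y v hy

theorem hess_aff (x0 : E N) (S : Mat N) (z : E N) (h : ContDiffAt ℝ 2 u (x0 + S *ᵥ z)) :
    hess (fun y => u (x0 + S *ᵥ y)) z = Sᵀ * hess u (x0 + S *ᵥ z) * S := by
  refine mat_ext_qf fun a b => ?_
  rw [qf_conj_A1c, ← dd_dd_eq_qf h, ← dd_dd_eq_qf (contDiffAt_aff (k := 2) x0 S z h),
    (dd_congr (dd_aff_ev_A1c x0 S z b (h.of_le (by norm_num))) a).self_of_nhds,
    dd_aff x0 S z a ((contDiffAt_dd (k := 1) h _).differentiableAt (by simp))]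

theorem d3_aff (x0 : E N) (S : Mat N) (z v : E N) (h : ContDiffAt ℝ 3 u (x0 + S *ᵥ z)) :
    d3 (fun y => u (x0 + S *ᵥ y)) z v = Sᵀ * d3 u (x0 + S *ᵥ z) (S *ᵥ v) * S := by
  refine mat_ext_qf fun a b => ?_
  have h2 : ContDiffAt ℝ 2 (dd (S *ᵥ b) u) (x0 + S *ᵥ z) := contDiffAt_dd (k := 2) h _
  have h3 := (dd_congr (dd_aff_ev_A1c x0 S z b (h.of_le (by norm_num))) a).trans
    (dd_aff_ev_A1c x0 S z a (h2.of_le (by norm_num)))
  rw [qf_conj_A1c, qf_d3 h, qf_d3 (contDiffAt_aff (k := 3) x0 S z h),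
    (dd_congr h3 v).self_of_nhds,
    dd_aff x0 S z v ((contDiffAt_dd (k := 1) h2 _).differentiableAt (by simp))]

theorem hess_scale (t : ℝ) (z : E N) (h : ContDiffAt ℝ 2 u (t • z)) :
    hess (fun y => u (t • y)) z = (t ^ 2) • hess u (t • z) := by
  have e : ∀ y : E N, 0 + (t • (1 : Mat N)) *ᵥ y = t • y := fun y => by
    rw [zero_add, smul_mulVec, one_mulVec]
  have h1 := hess_aff (u := u) 0 (t • (1 : Mat N)) z (by rwa [e])
  simp only [e] at h1
  rw [h1, transpose_smul, transpose_one, smul_mul_assoc, mul_smul_comm, smul_mul_assoc, one_mul,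
    mul_one, smul_smul, sq]

theorem dd_sq_A1c (v x : E N) : dd v (fun y : E N => y ⬝ᵥ y) x = ((2 : ℝ) • v) ⬝ᵥ x := by
  have h1 : ∀ i, dd v (fun y : E N => y i) x = v i := fun i => by
    have h := dd_dot (Pi.single i 1) v x
    simpa only [single_dotProduct, one_mul] using h
  have h2 : (fun y : E N => y ⬝ᵥ y) = fun y => ∑ i, y i * y i := rfl
  rw [h2, dd_sum _ (fun i (y : E N) => y i * y i) fun i _ => by fun_prop]
  refine Finset.sum_congr rfl fun i _ => ?_
  rw [dd_mul (by fun_prop) (by fun_prop), h1, Pi.smul_apply, smul_eq_mul]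
  ring

theorem dot_nonneg_A1c (v : E N) : 0 ≤ v ⬝ᵥ v :=
  Finset.sum_nonneg fun i _ => mul_self_nonneg (v i)

/-- penalty function -/
theorem exists_pen (N : ℕ) : ∃ p : E N → ℝ, ContDiff ℝ 2 p ∧ (∀ x, 0 ≤ p x) ∧
    Tendsto p (cocompact (E N)) atTop ∧ ∀ x v, qf (hess p x) v v ≤ 2 * (v ⬝ᵥ v) := by
  have hc : ContDiff ℝ 2 fun y : E N => y ⬝ᵥ y := by
    change ContDiff ℝ 2 fun y : E N => ∑ i, y i * y i
    fun_prop
  refine ⟨fun y => y ⬝ᵥ y, hc, dot_nonneg_A1c, ?_, fun x v => ?_⟩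
  · have h : Tendsto (fun y : E N => ‖y‖) (cocompact (E N)) atTop := tendsto_norm_cocompact_atTop
    refine tendsto_atTop_mono (fun y => ?_) (h.atTop_mul_atTop₀ h)
    have h1 : ‖y‖ ≤ √(y ⬝ᵥ y) := (pi_norm_le_iff_of_nonneg (Real.sqrt_nonneg _)).2 fun i =>
      Real.abs_le_sqrt (by
        rw [sq]
        exact Finset.single_le_sum (f := fun j => y j * y j) (fun j _ => mul_self_nonneg _)
          (Finset.mem_univ i))
    exact (mul_self_le_mul_self (norm_nonneg _) h1).trans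
      (Real.mul_self_sqrt (dot_nonneg_A1c y)).le
  · rw [← dd_dd_eq_qf hc.contDiffAt, funext (dd_sq_A1c v), dd_dot, smul_dotProduct, smul_eq_mul]

/-- approximate maximum -/
theorem approxMax (hu : ContDiff ℝ 2 u) (hb : BddAbove (Set.range u)) {ε : ℝ} (hε : 0 < ε) :
    ∃ x, (∀ y, u y ≤ u x + ε) ∧ ∀ v, qf (hess u x) v v ≤ ε * (v ⬝ᵥ v) := by
  obtain ⟨p, hp, hp0, hpt, hph⟩ := exists_pen N
  obtain ⟨_, ⟨y1, rfl⟩, hy1⟩ := Real.add_neg_lt_sSup (range_nonempty u) (ε := -(ε / 2))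
    (by linarith)
  have hM : ∀ y, u y ≤ sSup (Set.range u) := fun y => le_csSup hb ⟨y, rfl⟩
  have hp1 : 0 < p y1 + 1 := by linarith [hp0 y1]
  obtain ⟨d, hd, hd1, hd2⟩ : ∃ d : ℝ, 0 < d ∧ d * 2 ≤ ε ∧ d * p y1 ≤ ε / 2 := by
    refine ⟨ε / 2 / (p y1 + 1), by positivity, ?_, ?_⟩
    · have := div_le_self (by positivity : 0 ≤ ε / 2) (by linarith [hp0 y1] : 1 ≤ p y1 + 1)
      linarith
    · rw [div_mul_eq_mul_div, div_le_iff₀ hp1]
      nlinarith
  have hg : ContDiff ℝ 2 fun y => u y - d * p y := hu.sub (contDiff_const.mul hp)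
  have hlim : Tendsto (fun y => u y - d * p y) (cocompact (E N)) atBot := by
    refine tendsto_atBot_mono (fun y => sub_le_sub_right (hM y) _) ?_
    simp only [sub_eq_add_neg]
    exact tendsto_atBot_add_const_left _ _ (tendsto_neg_atTop_atBot.comp (hpt.const_mul_atTop hd))
  obtain ⟨x, hx⟩ := hg.continuous.exists_forall_ge hlim
  refine ⟨x, fun y => ?_, fun v => ?_⟩
  · have h1 := hx y1
    have h2 := mul_nonneg hd.le (hp0 x)
    linarith [hM y]
  · have h1 := localMax_hess (u := fun y => u y - d * p y) (Eventually.of_forall hx)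
      hg.contDiffAt v
    rw [hess_sub hu.contDiffAt (contDiff_const.mul hp).contDiffAt, hess_const_mul, qf,
      sub_mulVec, smul_mulVec, dotProduct_sub, dotProduct_smul, smul_eq_mul] at h1
    have h2 := mul_le_mul_of_nonneg_left (hph x v) hd.le
    have h3 := mul_le_mul_of_nonneg_right hd1 (dot_nonneg_A1c v)
    rw [qf] at h2 ⊢
    linarith

/-- smooth step -/
theorem exists_step : ∃ (θ : ℝ → ℝ) (C : ℝ), ContDiff ℝ 6 θ ∧ (∀ s, s ≤ 0 → θ s = 1) ∧
    (∀ s, 1 ≤ s → θ s = 0) ∧ (∀ s, 0 ≤ θ s ∧ θ s ≤ 1) ∧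
    (∀ s, |deriv θ s| ≤ C ∧ |deriv (deriv θ) s| ≤ C) := by
  have hc : ContDiff ℝ 6 fun s : ℝ => Real.smoothTransition (1 - s) :=
    Real.smoothTransition.contDiff.comp (contDiff_const.sub contDiff_id)
  have h1 : ∀ s : ℝ, s ≤ 0 → Real.smoothTransition (1 - s) = 1 := fun s hs =>
    Real.smoothTransition.one_of_one_le (by linarith)
  have h0 : ∀ s : ℝ, 1 ≤ s → Real.smoothTransition (1 - s) = 0 := fun s hs =>
    Real.smoothTransition.zero_of_nonpos (by linarith)
  have hs : HasCompactSupport (deriv fun s : ℝ => Real.smoothTransition (1 - s)) := by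
    refine HasCompactSupport.intro (isCompact_Icc (a := 0) (b := 1)) fun s hs => ?_
    rw [mem_Icc, not_and_or, not_le, not_le] at hs
    rcases hs with hs | hs
    · have h : (fun s : ℝ => Real.smoothTransition (1 - s)) =ᶠ[𝓝 s] fun _ => 1 :=
        (eventually_lt_nhds hs).mono fun t ht => h1 t ht.le
      rw [h.deriv_eq, deriv_const]
    · have h : (fun s : ℝ => Real.smoothTransition (1 - s)) =ᶠ[𝓝 s] fun _ => 0 :=
        (eventually_gt_nhds hs).mono fun t ht => h0 t ht.le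
      rw [h.deriv_eq, deriv_const]
  have hc1 : ContDiff ℝ 1 (deriv fun s : ℝ => Real.smoothTransition (1 - s)) :=
    (hc.of_le (m := 1 + 1) (by norm_num)).deriv'
  obtain ⟨C₁, hC₁⟩ := hc1.continuous.bounded_above_of_compact_support hs
  obtain ⟨C₂, hC₂⟩ := (hc1.continuous_deriv le_rfl).bounded_above_of_compact_support hs.deriv
  exact ⟨_, max C₁ C₂, hc, h1, h0,
    fun s => ⟨Real.smoothTransition.nonneg _, Real.smoothTransition.le_one _⟩,
    fun s => ⟨(hC₁ s).trans (le_max_left _ _), (hC₂ s).trans (le_max_right _ _)⟩⟩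

/-- second order expansion along a ray -/
theorem tendsto_taylor2 (hu : ContDiffAt ℝ 2 u x) (hg : grad u x = 0) (v : E N) :
    Tendsto (fun T : ℝ => T * (u (x + (√T)⁻¹ • v) - u x)) atTop (𝓝 (qf (hess u x) v v / 2)) := by
  have h1 : Tendsto (fun T : ℝ => (√T)⁻¹) atTop (𝓝[>] 0) :=
    tendsto_inv_atTop_nhdsGT_zero.comp Real.tendsto_sqrt_atTop
  refine ((taylor_A1c hu hg v).comp h1).congr' ?_
  filter_upwards [eventually_gt_atTop 0] with T hT
  simp only [Function.comp_apply]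
  rw [inv_pow, Real.sq_sqrt hT.le, div_inv_eq_mul, mul_comm]

/-- the integral of a coordinate derivative of a compactly supported function vanishes -/
theorem integral_pd_eq_zero {O K : Set (E N)} (hO : IsOpen O) (hK : IsCompact K) (hKO : K ⊆ O)
    (hu : ∀ y ∈ O, ContDiffAt ℝ 1 u y) (h0 : ∀ y ∈ O, y ∉ K → u y = 0) (i : Fin N) :
    IntegrableOn (pd i u) O ∧ ∫ y in O, pd i u y = 0 := by
  have hin : ∀ y ∈ O, O.indicator u =ᶠ[𝓝 y] u := fun y hy =>
    Filter.Eventually.mono (hO.mem_nhds hy) fun z hz => indicator_of_mem hz u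
  have hz : ∀ y, y ∉ K → O.indicator u y = 0 := fun y hy => by
    by_cases h : y ∈ O
    · rw [indicator_of_mem h, h0 y h hy]
    · exact indicator_of_notMem h u
  have hout : ∀ y, y ∉ O → O.indicator u =ᶠ[𝓝 y] fun _ => 0 := fun y hy =>
    Filter.Eventually.mono (hK.isClosed.isOpen_compl.mem_nhds fun h => hy (hKO h)) hz
  have hc : ContDiff ℝ 1 (O.indicator u) := contDiff_iff_contDiffAt.2 fun y => by
    by_cases h : y ∈ O
    · exact (hu y h).congr_of_eventuallyEq (hin y h)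
    · exact contDiffAt_const.congr_of_eventuallyEq (hout y h)
  have hs : HasCompactSupport (O.indicator u) := HasCompactSupport.intro hK hz
  have he : pd i (O.indicator u) = O.indicator (pd i u) := by
    funext y
    by_cases h : y ∈ O
    · rw [indicator_of_mem h, (pd_congr (hin y h) i).self_of_nhds]
    · rw [indicator_of_notMem h, (pd_congr (hout y h) i).self_of_nhds]
      exact dd_const _ _ _
  have hi : Integrable (pd i (O.indicator u)) :=
    (contDiff_pd (k := 0) hc i).continuous.integrable_of_hasCompactSupport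
      (hs.fderiv_apply ℝ (Pi.single i 1))
  have h1 := integral_mul_fderiv_eq_neg_fderiv_mul_of_integrable (μ := volume)
    (f := fun _ : E N => (1 : ℝ)) (g := O.indicator u) (v := Pi.single i 1) (by simp)
    (by simp only [one_mul]; exact hi)
    (by simpa only [one_mul] using hc.continuous.integrable_of_hasCompactSupport hs)
    (fun _ _ => differentiableAt_const _) (fun y _ => hc.differentiable (by simp) y)
  have h2 : ∫ y, pd i (O.indicator u) y = 0 := by simpa [pd, dd] using h1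
  rw [he] at hi h2
  exact ⟨(integrable_indicator_iff hO.measurableSet).1 hi,
    (integral_indicator hO.measurableSet).symm.trans h2⟩

end Pool.Agent.MP_5f4cdd_gt.CB
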