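import Pool.Agent.MP_5f4cdd_gt.CB.Defs

set_option autoImplicit false
open MeasureTheory Matrix Set Filter Topology

namespace Pool.Agent.MP_5f4cdd_gt.CB
variable {N : ℕ} {A B M X Y Z : Mat N}

theorem qf_eq_sum (A : Mat N) (v w : E N) : qf A v w = ∑ i, ∑ j, v i * A i j * w j := by
  simp only [qf, dotProduct, mulVec, Finset.mul_sum, mul_assoc]
theorem qf_single (A : Mat N) (i j : Fin N) : qf A (Pi.single i 1) (Pi.single j 1) = A i j := by
  simp [qf]
theorem qf_symm (h : A.IsSymm) (v w : E N) : qf A v w = qf A w v := by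
  rw [qf, qf, dotProduct_mulVec, ← mulVec_transpose, h.eq, dotProduct_comm]
theorem qf_add (A B : Mat N) (v w : E N) : qf (A + B) v w = qf A v w + qf B v w := by
  simp only [qf, add_mulVec, dotProduct_add]
theorem qf_sub (A B : Mat N) (v w : E N) : qf (A - B) v w = qf A v w - qf B v w := by
  simp only [qf, sub_mulVec, dotProduct_sub]
theorem qf_smul (c : ℝ) (A : Mat N) (v w : E N) : qf (c • A) v w = c * qf A v w := by
  simp only [qf, smul_mulVec, dotProduct_smul, smul_eq_mul]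
theorem qf_one (v w : E N) : qf (1 : Mat N) v w = v ⬝ᵥ w := by
  simp only [qf, one_mulVec]
theorem qf_add_left (A : Mat N) (v z w : E N) : qf A (v + z) w = qf A v w + qf A z w := by
  simp only [qf, add_dotProduct]
theorem qf_add_right (A : Mat N) (v z w : E N) : qf A v (z + w) = qf A v z + qf A v w := by
  simp only [qf, mulVec_add, dotProduct_add]
theorem qf_smul_left (A : Mat N) (c : ℝ) (v w : E N) : qf A (c • v) w = c * qf A v w := by
  simp only [qf, smul_dotProduct, smul_eq_mul]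
theorem qf_smul_right (A : Mat N) (c : ℝ) (v w : E N) : qf A v (c • w) = c * qf A v w := by
  simp only [qf, mulVec_smul, dotProduct_smul, smul_eq_mul]
theorem qf_conj (A S : Mat N) (v w : E N) : qf (Sᵀ * A * S) v w = qf A (S *ᵥ v) (S *ᵥ w) := by
  rw [qf, qf, ← mulVec_mulVec, ← mulVec_mulVec, dotProduct_mulVec, vecMul_transpose]
theorem continuous_qf : Continuous (fun p : Mat N × E N × E N => qf p.1 p.2.1 p.2.2) := by
  simp only [qf_eq_sum]
  fun_prop
theorem dot_self_nonneg' (v : E N) : 0 ≤ v ⬝ᵥ v :=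
  Finset.sum_nonneg fun i _ => mul_self_nonneg (v i)
theorem norm_sq_le_dot (v : E N) : ‖v‖ ^ 2 ≤ v ⬝ᵥ v := by
  have h : ‖v‖ ≤ √(v ⬝ᵥ v) := (pi_norm_le_iff_of_nonneg (Real.sqrt_nonneg _)).2 fun i => by
    refine Real.abs_le_sqrt ?_
    rw [sq]
    exact Finset.single_le_sum (f := fun j => v j * v j) (fun j _ => mul_self_nonneg (v j))
      (Finset.mem_univ i)
  exact (pow_le_pow_left₀ (norm_nonneg _) h 2).trans_eq (Real.sq_sqrt (dot_self_nonneg' v))
theorem abs_dot_le (v w : E N) : |v ⬝ᵥ w| ≤ N * (‖v‖ * ‖w‖) := by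
  refine (Finset.abs_sum_le_sum_abs _ _).trans ?_
  have := Finset.sum_le_card_nsmul Finset.univ (fun i => |v i * w i|) (‖v‖ * ‖w‖) fun i _ => by
    rw [abs_mul]
    exact mul_le_mul (norm_le_pi_norm v i) (norm_le_pi_norm w i) (abs_nonneg _) (norm_nonneg _)
  simpa using this
theorem dot_le_norm_sq (v : E N) : v ⬝ᵥ v ≤ N * ‖v‖ ^ 2 := by
  rw [sq]
  exact (le_abs_self _).trans (abs_dot_le v v)

theorem posDef_isSymm (h : A.PosDef) : A.IsSymm := by
  have := h.isHermitian.eq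
  rwa [conjTranspose_eq_transpose_of_trivial] at this
theorem herm_A2a (hs : A.IsSymm) : A.IsHermitian := by
  rw [IsHermitian, conjTranspose_eq_transpose_of_trivial]
  exact hs
theorem posDef_of_qf (hs : A.IsSymm) (h : ∀ v, v ≠ 0 → 0 < qf A v v) : A.PosDef :=
  PosDef.of_dotProduct_mulVec_pos (herm_A2a hs) fun v hv => by
    rw [star_trivial]
    exact h v hv
theorem posDef_of_ell {c : ℝ} (hs : A.IsSymm) (hc : 0 < c) (h : ∀ v, c * (v ⬝ᵥ v) ≤ qf A v v) :
    A.PosDef :=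
  posDef_of_qf hs fun v hv => lt_of_lt_of_le
    (mul_pos hc (lt_of_lt_of_le (pow_pos (norm_pos_iff.2 hv) 2) (norm_sq_le_dot v))) (h v)
theorem qf_pos (h : A.PosDef) {v : E N} (hv : v ≠ 0) : 0 < qf A v v := by
  have := h.dotProduct_mulVec_pos hv
  rwa [star_trivial] at this
theorem qf_nonneg (h : A.PosDef) (v : E N) : 0 ≤ qf A v v := by
  have := h.posSemidef.dotProduct_mulVec_nonneg v
  rwa [star_trivial] at this
theorem qf_cs (h : A.PosDef) (v w : E N) : (qf A v w) ^ 2 ≤ qf A v v * qf A w w := by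
  have := discrim_le_zero (a := qf A v v) (b := 2 * qf A v w) (c := qf A w w) fun t => by
    have h1 := qf_nonneg h (t • v + w)
    simp only [qf_add_left, qf_add_right, qf_smul_left, qf_smul_right] at h1
    rw [qf_symm (posDef_isSymm h) w v] at h1
    linarith
  rw [discrim] at this
  linarith
theorem cancel_A2a (h : A.PosDef) (β : E N) : A *ᵥ (A⁻¹ *ᵥ β) = β := by
  rw [mulVec_mulVec, mul_nonsing_inv _ (isUnit_iff_ne_zero.2 h.det_pos.ne'), one_mulVec]
theorem qf_inv_mulVec (h : A.PosDef) (β γ : E N) :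
    qf A (A⁻¹ *ᵥ β) (A⁻¹ *ᵥ γ) = qf A⁻¹ β γ := by
  rw [qf, cancel_A2a h, dotProduct_comm]
  exact qf_symm (posDef_isSymm h.inv) γ β
theorem qf_cs_dual (h : A.PosDef) (β v : E N) : (β ⬝ᵥ v) ^ 2 ≤ qf A⁻¹ β β * qf A v v := by
  have := qf_cs h (A⁻¹ *ᵥ β) v
  rwa [qf_inv_mulVec h, qf_symm (posDef_isSymm h), qf, cancel_A2a h, dotProduct_comm] at this
theorem qf_dual_le (h : A.PosDef) {β : E N} {C : ℝ} (hC : 0 ≤ C)
    (hb : ∀ v, (β ⬝ᵥ v) ^ 2 ≤ C * qf A v v) : qf A⁻¹ β β ≤ C := by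
  have h1 := hb (A⁻¹ *ᵥ β)
  rw [qf_inv_mulVec h] at h1
  change qf A⁻¹ β β ^ 2 ≤ _ at h1
  by_contra hn
  have h2 : C < qf A⁻¹ β β := not_le.1 hn
  nlinarith
open scoped MatrixOrder in
theorem fac_A2a (hs : A.IsSymm) (h : ∀ v, 0 ≤ qf A v v) : ∃ S : Mat N, A = S * Sᵀ := by
  have hp : A.PosSemidef := PosSemidef.of_dotProduct_mulVec_nonneg (herm_A2a hs) fun v => by
    rw [star_trivial]
    exact h v
  obtain ⟨S, hS⟩ := CStarAlgebra.nonneg_iff_eq_mul_star_self.mp hp.nonneg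
  exact ⟨S, by rwa [star_eq_conjTranspose, conjTranspose_eq_transpose_of_trivial] at hS⟩
theorem exists_frame (h : A.PosDef) :
    ∃ S : Mat N, S.det ≠ 0 ∧ Sᵀ * A * S = 1 ∧ S * Sᵀ = A⁻¹ := by
  obtain ⟨S, hS⟩ := fac_A2a (posDef_isSymm h.inv) (qf_nonneg h.inv)
  refine ⟨S, fun h0 => ?_, ?_, hS.symm⟩
  · have := h.inv.det_pos
    rw [hS, det_mul, h0, zero_mul] at this
    exact lt_irrefl _ this
  · rw [mul_eq_one_comm, ← mul_assoc, ← hS]
    exact nonsing_inv_mul _ (isUnit_iff_ne_zero.2 h.det_pos.ne')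
theorem trace_frame (S M : Mat N) :
    (S * Sᵀ * M).trace = ∑ i, qf M (S *ᵥ Pi.single i 1) (S *ᵥ Pi.single i 1) := by
  rw [mul_assoc, trace_mul_comm, trace]
  refine Finset.sum_congr rfl fun i _ => ?_
  rw [← qf_conj, qf_single, diag_apply]
theorem trace_vecMulVec (A : Mat N) (β γ : E N) :
    (A * Matrix.vecMulVec β γ).trace = qf A γ β := by
  rw [mul_vecMulVec, Matrix.trace_vecMulVec, dotProduct_comm, qf]
theorem trace_inv_mul_le (h : A.PosDef) {C : ℝ} (hM : ∀ v, qf M v v ≤ C * qf A v v) :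
    (A⁻¹ * M).trace ≤ N * C := by
  obtain ⟨S, -, h1, h2⟩ := exists_frame h
  rw [← h2, trace_frame]
  have := Finset.sum_le_card_nsmul Finset.univ
    (fun i => qf M (S *ᵥ Pi.single i 1) (S *ᵥ Pi.single i 1)) C fun i _ => by
      have := hM (S *ᵥ Pi.single i 1)
      rwa [← qf_conj A, h1, qf_single, one_apply_eq, mul_one] at this
  rwa [Finset.card_univ, Fintype.card_fin, nsmul_eq_mul] at this
theorem trace_psd_mono (hs : A.IsSymm) (h : ∀ v, 0 ≤ qf A v v) (hM : ∀ v, qf M v v ≤ qf X v v) :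
    (A * M).trace ≤ (A * X).trace := by
  obtain ⟨S, rfl⟩ := fac_A2a hs h
  rw [trace_frame, trace_frame]
  exact Finset.sum_le_sum fun i _ => hM _
theorem trace_inv_mul_mono (h : A.PosDef) (hM : ∀ v, qf M v v ≤ qf X v v) :
    (A⁻¹ * M).trace ≤ (A⁻¹ * X).trace :=
  trace_psd_mono (posDef_isSymm h.inv) (qf_nonneg h.inv) hM
theorem le_trace_inv_mul (h : A.PosDef) (hs : M.IsSymm) (hM : ∀ v, 0 ≤ qf M v v) (v : E N) :
    qf M v v ≤ (A⁻¹ * M).trace * qf A v v := by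
  have h1 := trace_psd_mono (M := vecMulVec v v) (X := qf A v v • A⁻¹) hs hM fun β => by
    have e : qf (vecMulVec v v) β β = (β ⬝ᵥ v) ^ 2 := by
      rw [qf, vecMulVec_mulVec, dotProduct_comm v β]
      simp [sq]
    rw [e, qf_smul, mul_comm]
    exact qf_cs_dual h β v
  rwa [trace_vecMulVec, mul_smul_comm, trace_smul, smul_eq_mul, trace_mul_comm, mul_comm] at h1
theorem exists_ell (h : A.PosDef) : ∃ c : ℝ, 0 < c ∧ ∀ v, c * (v ⬝ᵥ v) ≤ qf A v v := by
  refine ⟨(|(A⁻¹ * 1).trace| + 1)⁻¹, by positivity, fun v => ?_⟩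
  have h1 := le_trace_inv_mul h isSymm_one (fun v => (qf_one v v).symm ▸ dot_self_nonneg' v) v
  rw [qf_one] at h1
  rw [inv_mul_le_iff₀ (by positivity)]
  exact h1.trans (mul_le_mul_of_nonneg_right (by linarith [le_abs_self (A⁻¹ * 1).trace])
    (qf_nonneg h v))
theorem entry_le (hs : A.IsSymm) (h0 : ∀ v, 0 ≤ qf A v v) {C : ℝ}
    (h : ∀ v, qf A v v ≤ C * (v ⬝ᵥ v)) (i j : Fin N) : |A i j| ≤ C := by
  have hd : ∀ k, A k k ≤ C := fun k => by
    have := h (Pi.single k 1)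
    rw [qf_single] at this
    simpa using this
  have h1 := h0 (Pi.single i 1 + Pi.single j 1)
  have h2 := h0 (Pi.single i 1 + (-1 : ℝ) • Pi.single j 1)
  simp only [qf_add_left, qf_add_right, qf_smul_left, qf_smul_right, qf_single] at h1 h2
  rw [hs.apply i j] at h1 h2
  rw [abs_le]
  constructor <;> linarith [hd i, hd j]
theorem abs_qf_le_A2a {K : ℝ} (h : ∀ i j, |A i j| ≤ K) (v w : E N) :
    |qf A v w| ≤ ∑ i, ∑ j, K * (|v i| * |w j|) := by
  rw [qf_eq_sum]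
  refine (Finset.abs_sum_le_sum_abs _ _).trans (Finset.sum_le_sum fun i _ =>
    (Finset.abs_sum_le_sum_abs _ _).trans (Finset.sum_le_sum fun j _ => ?_))
  rw [abs_mul, abs_mul, mul_right_comm, mul_comm]
  exact mul_le_mul_of_nonneg_right (h i j) (by positivity)
theorem abs_qf_le_of_entry {K : ℝ} (h : ∀ i j, |A i j| ≤ K) (v : E N) :
    |qf A v v| ≤ N * K * (v ⬝ᵥ v) := by
  refine (abs_qf_le_A2a h v v).trans ?_
  have h1 : ∑ i, ∑ j, K * (|v i| * |v j|) ≤
      ∑ i, ∑ j, (K / 2 * (v i * v i) + K / 2 * (v j * v j)) :=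
    Finset.sum_le_sum fun i _ => Finset.sum_le_sum fun j _ => by
      have hK : 0 ≤ K := (abs_nonneg _).trans (h i j)
      rw [← abs_mul_abs_self (v i), ← abs_mul_abs_self (v j)]
      nlinarith [mul_nonneg hK (sq_nonneg (|v i| - |v j|))]
  refine h1.trans_eq ?_
  simp only [Finset.sum_add_distrib, Finset.sum_const, Finset.card_univ, Fintype.card_fin,
    nsmul_eq_mul, ← Finset.mul_sum, dotProduct]
  ring
theorem abs_qf_le_of_entry' {K : ℝ} (h : ∀ i j, |A i j| ≤ K) (v w : E N) :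
    |qf A v w| ≤ N ^ 2 * K * (‖v‖ * ‖w‖) := by
  refine (abs_qf_le_A2a h v w).trans ?_
  have h1 : ∑ i, ∑ j, K * (|v i| * |w j|) ≤ ∑ _i : Fin N, ∑ _j : Fin N, K * (‖v‖ * ‖w‖) :=
    Finset.sum_le_sum fun i _ => Finset.sum_le_sum fun j _ =>
      mul_le_mul_of_nonneg_left (mul_le_mul (norm_le_pi_norm v i) (norm_le_pi_norm w j)
        (abs_nonneg _) (norm_nonneg _)) ((abs_nonneg _).trans (h i j))
  refine h1.trans_eq ?_
  simp only [Finset.sum_const, Finset.card_univ, Fintype.card_fin, nsmul_eq_mul]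
  ring

end Pool.Agent.MP_5f4cdd_gt.CB
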