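import Pool.Agent.MP_5f4cdd_gt.CB.A2a

set_option autoImplicit false
open MeasureTheory Matrix Set Filter Topology

namespace Pool.Agent.MP_5f4cdd_gt.CB
variable {N : ℕ} {A B M X Y Z : Mat N}

theorem spec_A2b (hs : A.IsSymm) :
    ∃ (U : Mat N) (d : Fin N → ℝ), U * Uᵀ = 1 ∧ Uᵀ * A * U = diagonal d := by
  have hH : A.IsHermitian := by
    rw [Matrix.IsHermitian, conjTranspose_eq_transpose_of_trivial]
    exact hs
  have h1 := hH.conjStarAlgAut_star_eigenvectorUnitary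
  refine ⟨hH.eigenvectorUnitary, hH.eigenvalues, ?_, ?_⟩
  · have := Unitary.coe_mul_star_self hH.eigenvectorUnitary
    rwa [Unitary.coe_star, star_eq_conjTranspose, conjTranspose_eq_transpose_of_trivial] at this
  · simpa [star_eq_conjTranspose, conjTranspose_eq_transpose_of_trivial] using h1

theorem qf_diag_A2b (d : Fin N → ℝ) (w : E N) : qf (diagonal d) w w = ∑ i, d i * w i ^ 2 := by
  simp only [qf, dotProduct, mulVec_diagonal]
  exact Finset.sum_congr rfl fun i _ => by ring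

theorem simul_A2b (hA : A.PosDef) (hB : B.PosDef) :
    ∃ (S : Mat N) (d : Fin N → ℝ), (∀ i, 0 < d i) ∧ A.det = B.det * ∏ i, d i ∧
      (B⁻¹ * A).trace = ∑ i, d i ∧ (∀ v, ∃ w, v = S *ᵥ w) ∧
      (∀ w, qf A (S *ᵥ w) (S *ᵥ w) = ∑ i, d i * w i ^ 2) ∧
      ∀ w, qf B (S *ᵥ w) (S *ᵥ w) = ∑ i, w i ^ 2 := by
  obtain ⟨T, h0, h1, h2⟩ := exists_frame hB
  have hs : (Tᵀ * A * T).IsSymm := by
    rw [Matrix.IsSymm, transpose_mul, transpose_mul, transpose_transpose, posDef_isSymm hA,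
      Matrix.mul_assoc]
  obtain ⟨U, d, h3, h4⟩ := spec_A2b hs
  have h5 : Uᵀ * U = 1 := mul_eq_one_comm.1 h3
  have e1 : (T * U)ᵀ * A * (T * U) = diagonal d := by
    rw [← h4, transpose_mul]
    simp only [Matrix.mul_assoc]
  have e2 : (T * U)ᵀ * B * (T * U) = 1 := by
    calc _ = Uᵀ * (Tᵀ * B * T) * U := by
          rw [transpose_mul]
          simp only [Matrix.mul_assoc]
      _ = 1 := by rw [h1, Matrix.mul_one, h5]
  have e3 : T * U * (T * U)ᵀ = B⁻¹ := by
    calc _ = T * (U * Uᵀ) * Tᵀ := by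
          rw [transpose_mul]
          simp only [Matrix.mul_assoc]
      _ = _ := by rw [h3, Matrix.mul_one, h2]
  have d1 := congrArg det e1
  have d2 := congrArg det e2
  rw [det_mul, det_mul, det_transpose, det_diagonal] at d1
  rw [det_mul, det_mul, det_transpose, det_one] at d2
  have hd : (T * U).det ≠ 0 := fun c => by simp [c] at d2
  have q1 : ∀ w, qf A ((T * U) *ᵥ w) ((T * U) *ᵥ w) = ∑ i, d i * w i ^ 2 := fun w => by
    rw [← qf_conj, e1, qf_diag_A2b]
  refine ⟨T * U, d, fun i => ?_, ?_, ?_, fun v => ⟨(T * U)⁻¹ *ᵥ v, ?_⟩, q1, fun w => ?_⟩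
  · have h6 : (T * U) *ᵥ Pi.single i 1 ≠ 0 := fun c => by
      have := congrFun (Matrix.eq_zero_of_mulVec_eq_zero hd c) i
      simp at this
    have := qf_pos hA h6
    rw [← qf_conj, e1, qf_single] at this
    simpa using this
  · rw [← d1]
    linear_combination (-A.det) * d2
  · rw [← e3, Matrix.mul_assoc, trace_mul_comm, e1, trace_diagonal]
  · rw [mulVec_mulVec, mul_nonsing_inv _ (Ne.isUnit hd), one_mulVec]
  · rw [← qf_conj, e2, qf_one]
    exact Finset.sum_congr rfl fun i _ => (sq _).symm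

theorem le_A2b {S : Mat N} {d : Fin N → ℝ} {C : ℝ}
    (h1 : ∀ w, qf A (S *ᵥ w) (S *ᵥ w) = ∑ i, d i * w i ^ 2)
    (h2 : ∀ w, qf B (S *ᵥ w) (S *ᵥ w) = ∑ i, w i ^ 2) (h : ∀ v, qf A v v ≤ C * qf B v v)
    (i : Fin N) : d i ≤ C := by
  have := h (S *ᵥ Pi.single i 1)
  rw [h1, h2] at this
  simpa [Pi.single_apply] using this

theorem det_le_A2b (hA : A.PosDef) (hB : B.PosDef) {C : ℝ}
    (h : ∀ v, qf A v v ≤ C * qf B v v) : A.det ≤ C ^ N * B.det := by
  obtain ⟨S, d, h0, h1, -, -, h4, h5⟩ := simul_A2b hA hB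
  rw [h1, mul_comm]
  refine mul_le_mul_of_nonneg_right ?_ hB.det_pos.le
  calc ∏ i, d i ≤ ∏ _i : Fin N, C :=
        Finset.prod_le_prod (fun i _ => (h0 i).le) fun i _ => le_A2b h4 h5 h i
    _ = C ^ N := by simp

theorem abs_le_A2b {x K : ℝ} (h : x ^ 2 ≤ K) : |x| ≤ K + 1 := by
  rw [← sq_abs] at h
  nlinarith [abs_nonneg x]

theorem row_A2b (S : Mat N) (i j : Fin N) : S i j ^ 2 ≤ (S * Sᵀ) i i := by
  rw [Matrix.mul_apply, sq]
  exact Finset.single_le_sum (f := fun k => S i k * Sᵀ k i)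
    (fun k _ => mul_self_nonneg (S i k)) (Finset.mem_univ j)

theorem logdet_concave (hA : A.PosDef) (hB : B.PosDef) :
    Real.log A.det - Real.log B.det ≤ (B⁻¹ * (A - B)).trace := by
  obtain ⟨S, d, h0, h1, h2, -⟩ := simul_A2b hA hB
  rw [Matrix.mul_sub, trace_sub, h2, nonsing_inv_mul _ hB.det_pos.ne'.isUnit, trace_one, h1,
    Real.log_mul hB.det_pos.ne' (Finset.prod_pos fun i _ => h0 i).ne', add_sub_cancel_left,
    Real.log_prod fun i _ => (h0 i).ne']
  calc ∑ i, Real.log (d i) ≤ ∑ i, (d i - 1) :=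
        Finset.sum_le_sum fun i _ => Real.log_le_sub_one_of_pos (h0 i)
    _ = _ := by simp [Finset.sum_sub_distrib]

theorem det_mono (hA : A.PosDef) (hB : B.PosDef) (h : ∀ v, qf A v v ≤ qf B v v) :
    A.det ≤ B.det := by
  simpa using det_le_A2b hA hB (C := 1) fun v => by rw [one_mul]; exact h v

theorem det_le_of_le (hA : A.PosDef) (hB : B.PosDef) {C : ℝ} (hC : 0 < C)
    (h : ∀ v, qf A v v ≤ C * qf B v v) : A.det ≤ C ^ N * B.det := by
  exact det_le_A2b hA hB h

theorem eig_bound (hA : A.PosDef) (hB : B.PosDef) {C : ℝ} (hC : 0 < C)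
    (h : ∀ v, qf A v v ≤ C * qf B v v) (v : E N) :
    qf B v v ≤ C ^ (N - 1) * (B.det / A.det) * qf A v v := by
  obtain ⟨S, d, h0, h1, -, h3, h4, h5⟩ := simul_A2b hA hB
  obtain ⟨w, rfl⟩ := h3 v
  have hp : 0 < ∏ i, d i := Finset.prod_pos fun i _ => h0 i
  rw [h4, h5, h1, Finset.mul_sum, div_mul_cancel_left₀ hB.det_pos.ne']
  refine Finset.sum_le_sum fun i _ => ?_
  rw [← mul_assoc]
  refine le_mul_of_one_le_left (sq_nonneg _) ?_
  rw [mul_right_comm, ← div_eq_mul_inv, one_le_div hp,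
    ← Finset.prod_erase_mul _ _ (Finset.mem_univ i)]
  refine mul_le_mul_of_nonneg_right ?_ (h0 i).le
  calc ∏ j ∈ Finset.univ.erase i, d j ≤ ∏ _j ∈ Finset.univ.erase i, C :=
        Finset.prod_le_prod (fun j _ => (h0 j).le) fun j _ => le_A2b h4 h5 h j
    _ = C ^ (N - 1) := by simp

theorem inv_ell {c K : ℝ} (hs : A.IsSymm) (hc : 0 < c) (h : ∀ v, c * (v ⬝ᵥ v) ≤ qf A v v)
    (hK : ∀ i j, |A i j| ≤ K) :
    A⁻¹.IsSymm ∧ (∀ v, (1 / (N * |K| + 1)) * (v ⬝ᵥ v) ≤ qf A⁻¹ v v) ∧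
      (∀ v, qf A⁻¹ v v ≤ (1 / c) * (v ⬝ᵥ v)) ∧ (∀ i j, |A⁻¹ i j| ≤ 1 / c) ∧ c ^ N ≤ A.det := by
  have hA := posDef_of_ell hs hc h
  have hu : ∀ v, qf A⁻¹ v v ≤ (1 / c) * (v ⬝ᵥ v) := fun β => by
    refine qf_dual_le hA (mul_nonneg (by positivity) (dot_self_nonneg' β)) fun v => ?_
    have h1 := qf_cs (A := (1 : Mat N)) PosDef.one β v
    rw [qf_one, qf_one, qf_one] at h1
    have h2 : v ⬝ᵥ v ≤ 1 / c * qf A v v := by
      rw [one_div, ← div_eq_inv_mul, le_div_iff₀' hc]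
      exact h v
    calc _ ≤ β ⬝ᵥ β * (1 / c * qf A v v) :=
          h1.trans (mul_le_mul_of_nonneg_left h2 (dot_self_nonneg' β))
      _ = _ := by ring
  refine ⟨posDef_isSymm hA.inv, fun v => ?_, hu,
    entry_le (posDef_isSymm hA.inv) (qf_nonneg hA.inv) hu, ?_⟩
  · have h1 := qf_cs_dual hA v v
    have h2 := (le_abs_self _).trans (abs_qf_le_of_entry (fun i j => (hK i j).trans
      (le_abs_self K)) v)
    have h3 := qf_nonneg hA.inv v
    have h4 : (0 : ℝ) ≤ N * |K| := by positivity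
    rw [one_div, ← div_eq_inv_mul, div_le_iff₀ (by positivity)]
    rcases (dot_self_nonneg' v).eq_or_lt with h5 | h5
    · rw [← h5]
      positivity
    · refine le_of_mul_le_mul_right ?_ h5
      have h6 := mul_le_mul_of_nonneg_left h2 h3
      nlinarith [mul_nonneg h3 h5.le]
  · have h1 := det_le_A2b (A := (1 : Mat N)) PosDef.one hA (C := 1 / c) fun v => by
      rw [qf_one, one_div, ← div_eq_inv_mul, le_div_iff₀' hc]
      exact h v
    rwa [det_one, one_div, inv_pow, ← div_eq_inv_mul, one_le_div (by positivity)] at h1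

theorem exists_sqrt {c K : ℝ} (hs : A.IsSymm) (hc : 0 < c) (h : ∀ v, c * (v ⬝ᵥ v) ≤ qf A v v)
    (hK : ∀ i j, |A i j| ≤ K) :
    ∃ S : Mat N, S * Sᵀ = A ∧ S.det ≠ 0 ∧ (∀ i j, |S i j| ≤ K + 1) ∧
      ∀ i j, |S⁻¹ i j| ≤ 1 / c + 1 := by
  have hA := posDef_of_ell hs hc h
  obtain ⟨S, h0, -, h2⟩ := exists_frame hA.inv
  rw [nonsing_inv_nonsing_inv _ hA.det_pos.ne'.isUnit] at h2
  refine ⟨S, h2, h0, fun i j => abs_le_A2b ?_, fun i j => abs_le_A2b ?_⟩
  · refine (row_A2b S i j).trans ?_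
    rw [h2]
    exact (le_abs_self _).trans (hK i i)
  · refine (row_A2b (S⁻¹)ᵀ j i).trans ?_
    rw [transpose_transpose, transpose_nonsing_inv, ← Matrix.mul_inv_rev, h2]
    exact (le_abs_self _).trans ((inv_ell hs hc h hK).2.2.2.1 j j)

theorem eventually_posDef {α : Type} [TopologicalSpace α] {a : α → Mat N} {x : α}
    (hc : ContinuousAt a x) (hs : ∀ᶠ y in 𝓝 x, (a y).IsSymm) (h : (a x).PosDef) :
    ∀ᶠ y in 𝓝 x, (a y).PosDef := by
  obtain ⟨c, h0, h1⟩ := exists_ell h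
  have hδ : 0 < c / (2 * (N + 1)) := by positivity
  have h2 : ∀ᶠ y in 𝓝 x, ∀ i j, |(a y - a x) i j| ≤ c / (2 * (N + 1)) := by
    refine eventually_all.2 fun i => eventually_all.2 fun j => ?_
    have : ContinuousAt (fun y => a y i j) x := (continuous_apply_apply i j).continuousAt.comp hc
    filter_upwards [Metric.tendsto_nhds.1 this _ hδ] with y hy
    exact hy.le
  filter_upwards [hs, h2] with y k1 k2
  refine posDef_of_ell k1 (half_pos h0) fun v => ?_
  have k3 := (abs_le.1 (abs_qf_le_of_entry k2 v)).1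
  rw [qf_sub] at k3
  have k4 : N * (c / (2 * (N + 1))) ≤ c / 2 := by
    rw [← mul_div_assoc, div_le_div_iff₀ (by positivity) two_pos]
    nlinarith
  have := mul_le_mul_of_nonneg_right k4 (dot_self_nonneg' v)
  linarith [h1 v]

theorem compact_ell {K : Set (E N)} (hK : IsCompact K) {a : E N → Mat N}
    (hc : ContinuousOn a K) (h : ∀ y ∈ K, (a y).PosDef) :
    ∃ c C : ℝ, 0 < c ∧ ∀ y ∈ K, ∀ v, c * (v ⬝ᵥ v) ≤ qf (a y) v v ∧ qf (a y) v v ≤ C * (v ⬝ᵥ v) := by
  obtain ⟨M, hM⟩ := hK.exists_bound_of_continuousOn (E := Fin N → Fin N → ℝ) hc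
  obtain ⟨m, h0, hm⟩ := hK.exists_forall_le' (f := fun y => (a y).det)
    (continuous_id.matrix_det.comp_continuousOn hc) fun y hy => (h y hy).det_pos
  have hC : 0 < N * |M| + 1 := by positivity
  have hu : ∀ y ∈ K, ∀ v, qf (a y) v v ≤ (N * |M| + 1) * (v ⬝ᵥ v) := fun y hy v => by
    have h1 : ∀ i j, |a y i j| ≤ |M| := fun i j =>
      ((norm_le_pi_norm (a y i) j).trans (norm_le_pi_norm (ι := Fin N) (G := fun _ => E N) (a y) i)).trans
        ((hM y hy).trans (le_abs_self M))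
    have := (le_abs_self _).trans (abs_qf_le_of_entry h1 v)
    linarith [dot_self_nonneg' v]
  refine ⟨m / (N * |M| + 1) ^ (N - 1), N * |M| + 1, by positivity, fun y hy v => ⟨?_, hu y hy v⟩⟩
  have h1 := eig_bound (h y hy) PosDef.one hC (fun v => by rw [qf_one]; exact hu y hy v) v
  rw [qf_one, det_one] at h1
  have h2 : (N * |M| + 1) ^ (N - 1) * (1 / (a y).det) * qf (a y) v v ≤
      (N * |M| + 1) ^ (N - 1) * (1 / m) * qf (a y) v v :=
    mul_le_mul_of_nonneg_right (mul_le_mul_of_nonneg_left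
      (one_div_le_one_div_of_le h0 (hm y hy)) (by positivity)) (qf_nonneg (h y hy) v)
  calc _ ≤ m / (N * |M| + 1) ^ (N - 1) * ((N * |M| + 1) ^ (N - 1) * (1 / m) * qf (a y) v v) :=
        mul_le_mul_of_nonneg_left (h1.trans h2) (by positivity)
    _ = _ := by field_simp

theorem gauss_qf (h : A.PosDef) : Integrable (fun v : E N => Real.exp (-qf A v v)) ∧
    ∫ v : E N, Real.exp (-qf A v v) = √(Real.pi ^ N / A.det) := by
  obtain ⟨S, h0, h1, -⟩ := exists_frame h
  have hf : Continuous fun v : E N => Real.exp (-qf A v v) :=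
    (continuous_qf.comp (continuous_const.prodMk (continuous_id.prodMk continuous_id))).neg.rexp
  have hm := Real.map_matrix_volume_pi_eq_smul_volume_pi h0
  have hg : AEMeasurable (toLin' S) (volume : Measure (E N)) :=
    (LinearMap.continuous_of_finiteDimensional _).aemeasurable
  have e : ∀ w : E N, Real.exp (-qf A (toLin' S w) (toLin' S w)) =
      ∏ i, Real.exp (-1 * w i ^ 2) := fun w => by
    rw [toLin'_apply, ← qf_conj, h1, qf_one, ← Real.exp_sum, dotProduct, ← Finset.sum_neg_distrib]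
    congr 1
    exact Finset.sum_congr rfl fun i _ => by ring
  have hp : 0 < |S.det| := abs_pos.2 h0
  constructor
  · have h2 : Integrable ((fun v : E N => Real.exp (-qf A v v)) ∘ toLin' S) := by
      have := Integrable.fintype_prod (f := fun (_ : Fin N) (t : ℝ) => Real.exp (-1 * t ^ 2))
        (μ := fun _ => volume) fun _ => integrable_exp_neg_mul_sq one_pos
      exact this.congr (Eventually.of_forall fun w => (e w).symm)
    rw [← integrable_map_measure hf.aestronglyMeasurable hg, hm] at h2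
    refine (integrable_smul_measure ?_ ENNReal.ofReal_ne_top).1 h2
    rw [abs_inv]
    exact (ENNReal.ofReal_pos.2 (inv_pos.2 hp)).ne'
  · have h2 := integral_map hg hf.aestronglyMeasurable
    simp only [e] at h2
    rw [hm, integral_smul_measure, ENNReal.toReal_ofReal (abs_nonneg _), abs_inv, smul_eq_mul,
      integral_fintype_prod_volume_eq_prod fun (_ : Fin N) (t : ℝ) => Real.exp (-1 * t ^ 2),
      integral_gaussian, inv_mul_eq_iff_eq_mul₀ hp.ne'] at h2
    have h3 := congrArg det h1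
    rw [det_mul, det_mul, det_transpose, det_one] at h3
    have h4 : Real.pi ^ N / A.det = (|S.det| * √Real.pi ^ N) ^ 2 := by
      rw [mul_pow, sq_abs, ← pow_mul, mul_comm N, pow_mul, Real.sq_sqrt Real.pi_pos.le,
        div_eq_iff h.det_pos.ne']
      linear_combination (-Real.pi ^ N) * h3
    rw [h2, h4, Real.sqrt_sq (by positivity)]
    simp


end Pool.Agent.MP_5f4cdd_gt.CB
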