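import Pool.Agent.MP_5f4cdd_gt.CB.A2a

set_option autoImplicit false
open MeasureTheory Matrix Set Filter Topology

namespace Pool.Agent.MP_5f4cdd_gt.CB
variable {N : ℕ} {A B M X Y Z : Mat N}

theorem sym_A2c (S : Mat N) (hX : X.IsSymm) : (Sᵀ * X * S).IsSymm := by
  rw [IsSymm, transpose_mul, transpose_mul, transpose_transpose, hX.eq, Matrix.mul_assoc]

theorem fr_A2c {S : Mat N} (h : S * Sᵀ = A⁻¹) (X : Mat N) (hY : Y.IsSymm) :
    (A⁻¹ * X * A⁻¹ * Y).trace =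
      ∑ p : Fin N × Fin N, (Sᵀ * X * S) p.1 p.2 * (Sᵀ * Y * S) p.1 p.2 := by
  have e : (A⁻¹ * X * A⁻¹ * Y).trace = (Sᵀ * X * S * (Sᵀ * Y * S)ᵀ).trace := by
    rw [(sym_A2c S hY).eq, ← h, ← Matrix.mul_assoc _ _ S, trace_mul_comm _ S]
    simp only [Matrix.mul_assoc]
  rw [e, Fintype.sum_prod_type]
  rfl

theorem entry_A2c (h : A.PosDef) (hX : X.IsSymm) (w z : E N) :
    (qf X w z) ^ 2 ≤ (A⁻¹ * X * A⁻¹ * X).trace * (qf A w w * qf A z z) := by
  obtain ⟨S, h0, h1, h2⟩ := exists_frame h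
  have s := Matrix.mulVec_surjective_iff_isUnit.2
    ((Matrix.isUnit_iff_isUnit_det S).2 (isUnit_iff_ne_zero.2 h0))
  obtain ⟨w, rfl⟩ := s w
  obtain ⟨z, rfl⟩ := s z
  rw [fr_A2c h2 X hX, ← qf_conj, ← qf_conj, ← qf_conj, h1, qf_one, qf_one, qf_eq_sum,
    ← Fintype.sum_prod_type', dotProduct, dotProduct, Finset.sum_mul_sum, ← Fintype.sum_prod_type']
  refine le_of_eq_of_le ?_ ((Finset.sum_mul_sq_le_sq_mul_sq Finset.univ
    (fun p : Fin N × Fin N => (Sᵀ * X * S) p.1 p.2) fun p => w p.1 * z p.2).trans_eq ?_)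
  · congr 1
    exact Finset.sum_congr rfl fun p _ => by ring
  · congr 1 <;> exact Finset.sum_congr rfl fun p _ => by ring

theorem tq_nonneg (h : A.PosDef) (hX : X.IsSymm) : 0 ≤ (A⁻¹ * X * A⁻¹ * X).trace := by
  obtain ⟨S, -, -, h2⟩ := exists_frame h
  rw [fr_A2c h2 X hX]
  exact Finset.sum_nonneg fun p _ => mul_self_nonneg _
theorem tq_mulVec (h : A.PosDef) (hX : X.IsSymm) (w : E N) :
    qf A⁻¹ (X *ᵥ w) (X *ᵥ w) ≤ (A⁻¹ * X * A⁻¹ * X).trace * qf A w w := by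
  refine qf_dual_le h (mul_nonneg (tq_nonneg h hX) (qf_nonneg h w)) fun v => ?_
  rw [dotProduct_comm, mul_assoc]
  exact (entry_A2c h hX v w).trans_eq (by rw [mul_comm (qf A v v)])
theorem tq_entry (h : A.PosDef) (hX : X.IsSymm) (w z : E N) :
    (qf X w z) ^ 2 ≤ (A⁻¹ * X * A⁻¹ * X).trace * (qf A w w * qf A z z) :=
  entry_A2c h hX w z
theorem tq_cs (h : A.PosDef) (hX : X.IsSymm) (hY : Y.IsSymm) :
    (A⁻¹ * X * A⁻¹ * Y).trace ^ 2 ≤ (A⁻¹ * X * A⁻¹ * X).trace * (A⁻¹ * Y * A⁻¹ * Y).trace := by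
  obtain ⟨S, -, -, h2⟩ := exists_frame h
  rw [fr_A2c h2 X hX, fr_A2c h2 X hY, fr_A2c h2 Y hY]
  simpa only [sq] using Finset.sum_mul_sq_le_sq_mul_sq Finset.univ
    (fun p : Fin N × Fin N => (Sᵀ * X * S) p.1 p.2) fun p => (Sᵀ * Y * S) p.1 p.2
theorem tq_trace_sq (h : A.PosDef) (hX : X.IsSymm) :
    (A⁻¹ * X).trace ^ 2 ≤ N * (A⁻¹ * X * A⁻¹ * X).trace := by
  have u := Matrix.nonsing_inv_mul A (isUnit_iff_ne_zero.2 h.det_pos.ne')
  have := tq_cs h hX (posDef_isSymm h)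
  rw [Matrix.mul_assoc _ A⁻¹ A, Matrix.mul_assoc _ A⁻¹ A, u, Matrix.mul_one, Matrix.mul_one,
    trace_one, Fintype.card_fin] at this
  rwa [mul_comm]
theorem tq_le_of_entry (h : A.PosDef) (hX : X.IsSymm) {C : ℝ}
    (hb : ∀ w z, (qf X w z) ^ 2 ≤ C * (qf A w w * qf A z z)) :
    (A⁻¹ * X * A⁻¹ * X).trace ≤ N ^ 2 * C := by
  obtain ⟨S, -, h1, h2⟩ := exists_frame h
  have e : ∀ i, qf A (S *ᵥ Pi.single i 1) (S *ᵥ Pi.single i 1) = 1 := fun i => by
    rw [← qf_conj, h1, qf_single, one_apply_eq]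
  rw [fr_A2c h2 X hX]
  refine (Finset.sum_le_card_nsmul _ _ C fun p _ => ?_).trans_eq (by simp [sq])
  have := hb (S *ᵥ Pi.single p.1 1) (S *ᵥ Pi.single p.2 1)
  rwa [e, e, mul_one, mul_one, ← qf_conj, qf_single, sq] at this
theorem tq_legendre (h : A.PosDef) (hX : X.IsSymm) (hZ : Z.IsSymm) :
    2 * (Z * X).trace - (A * Z * A * Z).trace ≤ (A⁻¹ * X * A⁻¹ * X).trace := by
  have d := isUnit_iff_ne_zero.2 h.det_pos.ne'
  have s : (A * Z * A).IsSymm := by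
    have := sym_A2c A hZ
    rwa [(posDef_isSymm h).eq] at this
  have := tq_nonneg h (hX.sub s)
  have e1 : (A⁻¹ * (X * (Z * A))).trace = (Z * X).trace := by
    rw [trace_mul_comm, Matrix.mul_assoc, Matrix.mul_nonsing_inv_cancel_right _ _ d, trace_mul_comm]
  have e2 : (Z * (A * (Z * A))).trace = (A * (Z * (A * Z))).trace := by
    rw [trace_mul_comm A, Matrix.mul_assoc, Matrix.mul_assoc]
  simp only [Matrix.mul_sub, Matrix.sub_mul, Matrix.mul_assoc, trace_sub,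
    Matrix.nonsing_inv_mul_cancel_left _ _ d, Matrix.mul_nonsing_inv_cancel_left _ _ d, e1,
    e2] at this ⊢
  linarith
theorem tq_weight (h : A.PosDef) (hX : X.IsSymm) {K : ℝ} (hM : ∀ v, qf M v v ≤ K * qf A v v) :
    (A⁻¹ * M * A⁻¹ * X * A⁻¹ * X).trace ≤ K * (A⁻¹ * X * A⁻¹ * X).trace := by
  have d := isUnit_iff_ne_zero.2 h.det_pos.ne'
  have s := posDef_isSymm h.inv
  have := trace_psd_mono (M := M) (X := K • A) (sym_A2c (X * A⁻¹) s)
    (fun v => by rw [qf_conj]; exact qf_nonneg h.inv _) fun v => by rw [qf_smul]; exact hM v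
  rw [transpose_mul, s.eq, hX.eq, Matrix.mul_smul, trace_smul, smul_eq_mul,
    ← Matrix.mul_assoc _ X, Matrix.nonsing_inv_mul_cancel_right _ _ d, Matrix.mul_assoc _ _ M,
    trace_mul_comm _ (A⁻¹ * M)] at this
  simpa only [Matrix.mul_assoc] using this
theorem tq_conj {S : Mat N} (hS : S.det ≠ 0) (A X Y : Mat N) :
    ((Sᵀ * A * S)⁻¹ * (Sᵀ * X * S) * (Sᵀ * A * S)⁻¹ * (Sᵀ * Y * S)).trace
      = (A⁻¹ * X * A⁻¹ * Y).trace := by
  have d := isUnit_iff_ne_zero.2 hS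
  have d' := isUnit_iff_ne_zero.2 ((det_transpose S).trans_ne hS)
  simp only [Matrix.mul_inv_rev, Matrix.mul_assoc, Matrix.nonsing_inv_mul_cancel_left _ _ d',
    Matrix.mul_nonsing_inv_cancel_left _ _ d]
  rw [trace_mul_comm]
  simp only [Matrix.mul_assoc, Matrix.mul_nonsing_inv _ d, Matrix.mul_one]
theorem trace_conj {S : Mat N} (hS : S.det ≠ 0) (A X : Mat N) :
    ((Sᵀ * A * S)⁻¹ * (Sᵀ * X * S)).trace = (A⁻¹ * X).trace := by
  have d := isUnit_iff_ne_zero.2 hS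
  have d' := isUnit_iff_ne_zero.2 ((det_transpose S).trans_ne hS)
  simp only [Matrix.mul_inv_rev, Matrix.mul_assoc, Matrix.nonsing_inv_mul_cancel_left _ _ d']
  rw [trace_mul_comm]
  simp only [Matrix.mul_assoc, Matrix.mul_nonsing_inv _ d, Matrix.mul_one]
theorem commutator_nonneg (hX : X.IsSymm) (hY : Y.IsSymm) :
    (X * Y * X * Y).trace ≤ (X * X * Y * Y).trace := by
  have : 0 ≤ ((X * Y - Y * X) * (X * Y - Y * X)ᵀ).trace :=
    Finset.sum_nonneg fun i _ => dot_self_nonneg' ((X * Y - Y * X) i)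
  have e1 : (Y * (X * (Y * X))).trace = (X * (Y * (X * Y))).trace := by
    rw [trace_mul_comm X, Matrix.mul_assoc, Matrix.mul_assoc]
  have e2 : (Y * (X * (X * Y))).trace = (X * (X * (Y * Y))).trace := by
    rw [trace_mul_comm Y, Matrix.mul_assoc, Matrix.mul_assoc]
  have e3 : (X * (Y * (Y * X))).trace = (X * (X * (Y * Y))).trace := by
    rw [← Matrix.mul_assoc Y, ← Matrix.mul_assoc X, trace_mul_comm]
  simp only [transpose_sub, transpose_mul, hX.eq, hY.eq, Matrix.mul_sub, Matrix.sub_mul,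
    Matrix.mul_assoc, trace_sub, e1, e2, e3] at this ⊢
  linarith

end Pool.Agent.MP_5f4cdd_gt.CB
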