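import Pool.Agent.MP_5f4cdd_gt.CB.A1a
import Pool.Agent.MP_5f4cdd_gt.CB.A2a

set_option autoImplicit false
open MeasureTheory Matrix Set Filter Topology

namespace Pool.Agent.MP_5f4cdd_gt.CB
variable {N : ℕ} {k : ℕ} {M M' : ℝ} {u w : E N → ℝ}

theorem HB.bound (h : HB k M u) (x : E N) : |u x| ≤ M := by
  cases k with
  | zero => exact h.1 x
  | succ k => exact h.2.1 x
theorem HB.nonneg (h : HB k M u) : 0 ≤ M := (abs_nonneg _).trans (h.bound 0)
theorem HB.mono (h : HB k M u) (hM : M ≤ M') : HB k M' u := by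
  induction k generalizing u with
  | zero => exact ⟨fun x => (h.1 x).trans hM, fun x y => (h.2 x y).trans
      (mul_le_mul_of_nonneg_right hM (Real.sqrt_nonneg _))⟩
  | succ k ih => exact ⟨h.1, fun x => (h.2.1 x).trans hM, fun i => ih (h.2.2 i)⟩
theorem HB.pd (h : HB (k + 1) M u) (i : Fin N) : HB k M (pd i u) := h.2.2 i
theorem HB.continuous (h : HB k M u) : Continuous u := by
  cases k with
  | zero =>
    refine continuous_iff_continuousAt.2 fun x => tendsto_iff_dist_tendsto_zero.2
      (squeeze_zero (fun _ => dist_nonneg) (fun y => h.2 y x) ?_)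
    have : Continuous fun y : E N => M * √‖y - x‖ := by fun_prop
    simpa using this.tendsto x
  | succ k => exact h.1.continuous
theorem HB.contDiff (h : HB k M u) : ContDiff ℝ k u := by
  induction k generalizing u with
  | zero => exact contDiff_zero.2 h.continuous
  | succ k ih =>
    rw [Nat.cast_succ, contDiff_succ_iff_fderiv_apply]
    refine ⟨h.1, by simp, fun v => ?_⟩
    rw [show (fun x => fderiv ℝ u x v) = fun x => ∑ i, v i * CB.pd i u x from
      funext fun x => dd_eq_sum v u x]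
    exact ContDiff.sum fun i _ => contDiff_const.mul (ih (h.2.2 i))
theorem lip_A3a (hu : Differentiable ℝ u) (h : ∀ i x, |pd i u x| ≤ M) (x y : E N) :
    |u x - u y| ≤ N * M * ‖x - y‖ := by
  have h0 : 0 ≤ N * M := by
    have := Finset.sum_nonneg fun i (_ : i ∈ Finset.univ) => (abs_nonneg _).trans (h i x)
    simpa using this
  refine Convex.norm_image_sub_le_of_norm_fderiv_le (𝕜 := ℝ) (s := univ) (fun z _ => hu z)
    (fun z _ => ContinuousLinearMap.opNorm_le_bound _ h0 fun v => ?_) convex_univ trivial trivial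
  rw [show fderiv ℝ u z v = _ from dd_eq_sum v u z]
  refine (norm_sum_le _ _).trans ((Finset.sum_le_card_nsmul _ _ (M * ‖v‖) fun i _ => ?_).trans_eq
    (by simp [mul_assoc]))
  rw [norm_mul, mul_comm]
  exact mul_le_mul (h i z) (norm_le_pi_norm v i) (norm_nonneg _) ((abs_nonneg _).trans (h i z))
theorem HB.lip (h : HB (k + 1) M u) (x y : E N) : |u x - u y| ≤ N * M * ‖x - y‖ :=
  lip_A3a h.1 (fun i => (h.2.2 i).bound) x y
theorem lip_of_pd (hu : Differentiable ℝ u) (h : ∀ i x, |pd i u x| ≤ M) (x y : E N) :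
    |u x - u y| ≤ N * M * ‖x - y‖ := lip_A3a hu h x y
theorem HB0_of_lip {L : ℝ} (h0 : ∀ x, |u x| ≤ M) (hL : 0 ≤ L)
    (h1 : ∀ x y, |u x - u y| ≤ L * ‖x - y‖) : HB 0 (2 * M + L) u := by
  have hM : 0 ≤ M := (abs_nonneg _).trans (h0 0)
  refine ⟨fun x => (h0 x).trans (by linarith), fun x y => ?_⟩
  have s0 := Real.sqrt_nonneg ‖x - y‖
  rcases le_total ‖x - y‖ 1 with h | h
  · have s1 : ‖x - y‖ ≤ √‖x - y‖ := Real.le_sqrt_of_sq_le (by nlinarith [norm_nonneg (x - y)])
    nlinarith [h1 x y, mul_le_mul_of_nonneg_left s1 hL, mul_nonneg hM s0]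
  · have s1 : 1 ≤ √‖x - y‖ := Real.one_le_sqrt.2 h
    nlinarith [abs_sub (u x) (u y), h0 x, h0 y, mul_nonneg hL s0, mul_le_mul_of_nonneg_left s1 hM]
theorem HB.lower (h : HB (k + 1) M u) : HB k ((N + 2) * M) u := by
  have h0 : 0 ≤ N * M := mul_nonneg (Nat.cast_nonneg _) h.nonneg
  induction k generalizing u with
  | zero => exact (HB0_of_lip h.bound h0 h.lip).mono (by linarith)
  | succ k ih => exact ⟨h.1, fun x => (h.bound x).trans (by linarith [h.nonneg]),
      fun i => ih (h.2.2 i)⟩
theorem HB.lower_le {j : ℕ} (h : HB k M u) (hj : j ≤ k) : HB j ((N + 2) ^ k * M) u := by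
  induction k, hj using Nat.le_induction generalizing M with
  | base => exact h.mono (le_mul_of_one_le_left h.nonneg
      (one_le_pow₀ (by linarith [(Nat.cast_nonneg N : (0 : ℝ) ≤ N)])))
  | succ k _ ih =>
    rw [pow_succ, mul_assoc]
    exact ih h.lower
theorem HB.hessM (h : HB (k + 2) M u) : HBM k M (hess u) := fun i j => (h.pd j).pd i
theorem HB_const (k : ℕ) (c : ℝ) : HB k |c| (fun _ : E N => c) := by
  induction k generalizing c with
  | zero => exact ⟨fun _ => le_rfl, fun x y => by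
      rw [sub_self, abs_zero]
      positivity⟩
  | succ k ih =>
    refine ⟨differentiable_const _, fun _ => le_rfl, fun i => ?_⟩
    rw [show pd i (fun _ : E N => c) = fun _ => 0 from funext fun x => dd_const c _ x]
    exact (ih 0).mono (by simp)
theorem HB.add (h : HB k M u) (h' : HB k M' w) : HB k (M + M') (fun x => u x + w x) := by
  have h0 := fun x => (abs_add_le _ _).trans (add_le_add (h.bound x) (h'.bound x))
  induction k generalizing u w with
  | zero =>
    refine ⟨h0, fun x y => ?_⟩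
    rw [add_sub_add_comm, add_mul]
    exact (abs_add_le _ _).trans (add_le_add (h.2 x y) (h'.2 x y))
  | succ k ih =>
    refine ⟨h.1.add h'.1, h0, fun i => ?_⟩
    rw [show CB.pd i (fun x => u x + w x) = fun x => CB.pd i u x + CB.pd i w x from
      funext fun x => dd_add (h.1 x) (h'.1 x) _]
    exact ih (h.pd i) (h'.pd i) fun x =>
      (abs_add_le _ _).trans (add_le_add ((h.pd i).bound x) ((h'.pd i).bound x))
theorem cmul_A3a (h : HB k M u) (c : ℝ) : HB k (|c| * M) (fun x => c * u x) := by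
  induction k generalizing u with
  | zero =>
    refine ⟨fun x => ?_, fun x y => ?_⟩
    · rw [abs_mul]
      exact mul_le_mul_of_nonneg_left (h.1 x) (abs_nonneg c)
    · rw [← mul_sub, abs_mul, mul_assoc]
      exact mul_le_mul_of_nonneg_left (h.2 x y) (abs_nonneg c)
  | succ k ih =>
    refine ⟨h.1.const_mul c, fun x => ?_, fun i => ?_⟩
    · rw [abs_mul]
      exact mul_le_mul_of_nonneg_left (h.bound x) (abs_nonneg c)
    · rw [show pd i (fun x => c * u x) = fun x => c * pd i u x from
        funext fun x => dd_const_mul c _ u x]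
      exact ih (h.pd i)
theorem HB.neg (h : HB k M u) : HB k M (fun x => -u x) := by
  simpa using cmul_A3a h (-1)
theorem HB.sub (h : HB k M u) (h' : HB k M' w) : HB k (M + M') (fun x => u x - w x) := by
  simpa only [sub_eq_add_neg] using h.add h'.neg
theorem HB.const_mul (h : HB k M u) (c : ℝ) : HB k (|c| * M) (fun x => c * u x) := cmul_A3a h c
theorem HB.sum {ι : Type} (s : Finset ι) (f : ι → E N → ℝ) (m : ι → ℝ)
    (h : ∀ i ∈ s, HB k (m i) (f i)) : HB k (∑ i ∈ s, m i) (fun x => ∑ i ∈ s, f i x) := by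
  classical
  induction s using Finset.induction_on with
  | empty => simpa using HB_const (N := N) k 0
  | insert a s ha ih =>
    simp only [Finset.sum_insert ha]
    exact (h a (Finset.mem_insert_self _ _)).add
      (ih fun i hi => h i (Finset.mem_insert_of_mem hi))
theorem HB0_mul {a b a' b' : ℝ} (h0 : ∀ x, |u x| ≤ a) (h1 : ∀ x y, |u x - u y| ≤ b * √‖x - y‖)
    (h0' : ∀ x, |w x| ≤ a') (h1' : ∀ x y, |w x - w y| ≤ b' * √‖x - y‖) (x y : E N) :
    |u x * w x - u y * w y| ≤ (a * b' + b * a') * √‖x - y‖ := by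
  rw [show u x * w x - u y * w y = u x * (w x - w y) + (u x - u y) * w y by ring]
  refine (abs_add_le _ _).trans ?_
  rw [abs_mul, abs_mul]
  have e1 := mul_le_mul (h0 x) (h1' x y) (abs_nonneg _) ((abs_nonneg _).trans (h0 x))
  have e2 := mul_le_mul (h1 x y) (h0' y) (abs_nonneg _) ((abs_nonneg _).trans (h1 x y))
  linarith
theorem HB_mul (N k : ℕ) : ∃ C : ℝ, 1 ≤ C ∧ ∀ (M M' : ℝ) (u w : E N → ℝ), HB k M u → HB k M' w →
    HB k (C * M * M') (fun x => u x * w x) := by
  have key : ∀ {k : ℕ} {C M M' : ℝ} {u w : E N → ℝ}, 1 ≤ C → HB k M u → HB k M' w →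
      ∀ x, |u x * w x| ≤ C * M * M' := fun hC h h' x => by
    rw [abs_mul, mul_assoc]
    exact (mul_le_mul (h.bound x) (h'.bound x) (abs_nonneg _) h.nonneg).trans
      (le_mul_of_one_le_left (mul_nonneg h.nonneg h'.nonneg) hC)
  induction k with
  | zero => exact ⟨2, one_le_two, fun M M' u w h h' => ⟨key one_le_two h h', fun x y =>
      (HB0_mul h.1 h.2 h'.1 h'.2 x y).trans_eq (by ring)⟩⟩
  | succ k ih =>
    obtain ⟨C, hC, H⟩ := ih
    have h1 : 1 ≤ 2 * (N + 2) * C := by nlinarith [(Nat.cast_nonneg N : (0 : ℝ) ≤ N)]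
    refine ⟨_, h1, fun M M' u w h h' => ⟨h.1.mul h'.1, key h1 h h', fun i => ?_⟩⟩
    rw [show pd i (fun x => u x * w x) = fun x => pd i u x * w x + u x * pd i w x from
      funext fun x => dd_mul (h.1 x) (h'.1 x) _]
    exact ((H _ _ _ _ (h.pd i) h'.lower).add (H _ _ _ _ h.lower (h'.pd i))).mono (le_of_eq (by ring))
theorem HB.translate (h : HB k M u) (a : E N) : HB k M (fun x => u (a + x)) := by
  induction k generalizing u with
  | zero => exact ⟨fun x => h.1 _, fun x y => by simpa using h.2 (a + x) (a + y)⟩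
  | succ k ih =>
    refine ⟨h.1.comp (differentiable_id.const_add a), fun x => h.bound _, fun i => ?_⟩
    rw [show CB.pd i (fun x => u (a + x)) = fun x => CB.pd i u (a + x) from funext fun x => by
      simp only [CB.pd, dd, fderiv_comp_add_left]]
    exact ih (h.pd i)
/-- absorption -/
theorem HB_absorb {C : ℝ} (h0 : ∃ M, HB k M u) (hC : 0 ≤ C)
    (h : ∀ M, HB k M u → HB k (M / 2 + C) u) {ε : ℝ} (hε : 0 < ε) : HB k (2 * C + ε) u := by
  obtain ⟨M, hM⟩ := h0
  have key : ∀ n : ℕ, HB k (2 * C + M / 2 ^ n) u := fun n => by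
    induction n with
    | zero => exact hM.mono (by simpa using hC)
    | succ n ih => exact (h _ ih).mono (le_of_eq (by ring))
  obtain ⟨n, hn⟩ := pow_unbounded_of_one_lt (M / ε) (one_lt_two (α := ℝ))
  refine (key n).mono (add_le_add_right ?_ _)
  rw [div_le_iff₀ (by positivity), mul_comm]
  exact ((div_lt_iff₀ hε).1 hn).le
theorem HB_of_forall_add (h : ∀ ε : ℝ, 0 < ε → HB k (M + ε) u) : HB k M u := by
  induction k generalizing u with
  | zero =>
    refine ⟨fun x => le_of_forall_pos_le_add fun ε hε => (h ε hε).1 x, fun x y =>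
      le_of_forall_pos_le_add fun ε hε => ?_⟩
    have s0 := Real.sqrt_nonneg ‖x - y‖
    refine ((h (ε / (√‖x - y‖ + 1)) (by positivity)).2 x y).trans ?_
    rw [add_mul, div_mul_eq_mul_div]
    exact add_le_add_right ((div_le_iff₀ (by positivity)).2 (by linarith)) _
  | succ k ih => exact ⟨(h 1 one_pos).1, fun x => le_of_forall_pos_le_add fun ε hε =>
      (h ε hε).bound x, fun i => ih fun ε hε => (h ε hε).pd i⟩
theorem HB_of_compact {K : Set (E N)} (hK : IsCompact K) (hu : ContDiff ℝ (k + 1 : ℕ) u)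
    (h0 : ∀ x, x ∉ K → u x = 0) : ∃ M, HB k M u := by
  have bd : ∀ {u : E N → ℝ}, Continuous u → (∀ x, x ∉ K → u x = 0) → ∃ M, ∀ x, |u x| ≤ M :=
    fun hu h0 => hu.bounded_above_of_compact_support (HasCompactSupport.intro hK h0)
  have pz : ∀ {u : E N → ℝ}, (∀ x, x ∉ K → u x = 0) → ∀ i x, x ∉ K → pd i u x = 0 :=
    fun h0 i x hx => (pd_congr (w := fun _ => 0) (Filter.mem_of_superset
      (hK.isClosed.isOpen_compl.mem_nhds hx) h0) i).self_of_nhds.trans (dd_const 0 _ x)
  induction k generalizing u with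
  | zero =>
    obtain ⟨M, hM⟩ := bd hu.continuous h0
    choose m hm using fun i => bd (contDiff_pd hu i).continuous (pz h0 i)
    have m0 : ∀ i, 0 ≤ m i := fun i => (abs_nonneg _).trans (hm i 0)
    exact ⟨_, HB0_of_lip hM (mul_nonneg (Nat.cast_nonneg _) (Finset.sum_nonneg fun i _ => m0 i))
      (lip_of_pd (hu.differentiable (by simp)) fun i x => (hm i x).trans
        (Finset.single_le_sum (fun i _ => m0 i) (Finset.mem_univ i)))⟩
  | succ k ih =>
    obtain ⟨M, hM⟩ := bd hu.continuous h0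
    choose m hm using fun i => ih (contDiff_pd hu i) (pz h0 i)
    have m0 : 0 ≤ ∑ i, m i := Finset.sum_nonneg fun i _ => (hm i).nonneg
    refine ⟨M + ∑ i, m i, hu.differentiable (by simp), fun x => (hM x).trans (by linarith),
      fun i => (hm i).mono ?_⟩
    linarith [Finset.single_le_sum (fun i _ => (hm i).nonneg) (Finset.mem_univ i),
      (abs_nonneg _).trans (hM 0)]

end Pool.Agent.MP_5f4cdd_gt.CB
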