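import Pool.Agent.MP_5f4cdd_gt.CB.A3a
import Pool.Agent.MP_5f4cdd_gt.CB.A1c

set_option autoImplicit false
open MeasureTheory Matrix Set Filter Topology

namespace Pool.Agent.MP_5f4cdd_gt.CB
variable {N : ℕ} {k : ℕ} {M M' : ℝ} {u w : E N → ℝ}

theorem mvt_A3b (hu : Differentiable ℝ u) (x h : E N) :
    ∃ c ∈ Ioo (0 : ℝ) 1, u (x + h) - u x = dd h u (x + c • h) := by
  obtain ⟨c, hc, hc2⟩ := exists_hasDerivAt_eq_slope (fun s : ℝ => u (x + s • h))
    (fun s => dd h u (x + s • h)) zero_lt_one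
    (fun t _ => (hasDerivAt_line (hu _)).continuousAt.continuousWithinAt)
    (fun t _ => hasDerivAt_line (hu _))
  exact ⟨c, hc, by rw [hc2]; simp⟩

theorem taylor_A3b (hu : HB 1 M u) (x h : E N) :
    |u (x + h) - u x - ∑ i, h i * pd i u x| ≤ N * M * (‖h‖ * √‖h‖) := by
  obtain ⟨c, hc, hc2⟩ := mvt_A3b hu.1 x h
  have hM := hu.nonneg
  rw [hc2, dd_eq_sum, ← Finset.sum_sub_distrib]
  refine (Finset.abs_sum_le_sum_abs _ _).trans ?_
  have : ∀ i ∈ Finset.univ, |h i * pd i u (x + c • h) - h i * pd i u x| ≤ M * (‖h‖ * √‖h‖) := by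
    intro i _
    rw [← mul_sub, abs_mul]
    have h1 := (hu.2.2 i).2 (x + c • h) x
    have h2 : ‖x + c • h - x‖ ≤ ‖h‖ := by
      rw [add_sub_cancel_left, norm_smul, Real.norm_eq_abs, abs_of_pos hc.1]
      exact mul_le_of_le_one_left (norm_nonneg _) hc.2.le
    have h3 : |h i| ≤ ‖h‖ := norm_le_pi_norm h i
    have h4 := h1.trans (mul_le_mul_of_nonneg_left (Real.sqrt_le_sqrt h2) hM)
    calc _ ≤ ‖h‖ * (M * √‖h‖) := mul_le_mul h3 h4 (abs_nonneg _) (norm_nonneg _)
      _ = _ := by ring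
  refine (Finset.sum_le_sum this).trans (le_of_eq ?_)
  simp; ring

theorem lim1_A3b {f : ℕ → E N → ℝ} (hf : ∀ n, HB 1 M (f n))
    (hl : ∀ x, Tendsto (fun n => f n x) atTop (𝓝 (u x))) :
    Differentiable ℝ u ∧ ∀ i x, Tendsto (fun n => pd i (f n) x) atTop (𝓝 (pd i u x)) := by
  have hM := (hf 0).nonneg
  have hc : ∀ x i, CauchySeq (fun n => pd i (f n) x) := by
    intro x i
    rw [Metric.cauchySeq_iff]
    intro ε hε
    obtain ⟨s, hs, hs2⟩ : ∃ s : ℝ, 0 < s ∧ 2 * (N * M * √s) < ε / 2 := by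
      have : Tendsto (fun s : ℝ => 2 * (N * M * √s)) (𝓝[>] 0) (𝓝 (2 * (N * M * √0))) :=
        ((by fun_prop : Continuous fun s : ℝ => 2 * (N * M * √s)).tendsto 0).mono_left
          nhdsWithin_le_nhds
      have h2 := this.eventually (gt_mem_nhds (show 2 * (N * M * √0) < ε / 2 by simpa using hε))
      obtain ⟨s, h3, h4⟩ := (h2.and self_mem_nhdsWithin).exists
      exact ⟨s, h4, h3⟩
    have hq : CauchySeq (fun n => (f n (x + s • Pi.single i 1) - f n x) / s) :=
      (((hl _).sub (hl _)).div_const s).cauchySeq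
    obtain ⟨n0, hn0⟩ := Metric.cauchySeq_iff.1 hq (ε / 2) (by positivity)
    have key : ∀ n, |(f n (x + s • Pi.single i 1) - f n x) / s - pd i (f n) x| ≤ N * M * √s := by
      intro n
      have t := taylor_A3b (hf n) x (s • Pi.single i 1)
      have e1 : ∑ j, (s • (Pi.single i 1 : E N)) j * pd j (f n) x = s * pd i (f n) x := by
        simp [Pi.single_apply]
      have e2 : ‖s • (Pi.single i 1 : E N)‖ = s := by
        rw [norm_smul, Pi.norm_single, norm_one, mul_one, Real.norm_eq_abs, abs_of_pos hs]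
      rw [e1, e2] at t
      rw [div_sub' hs.ne', abs_div, abs_of_pos hs, div_le_iff₀ hs]
      linarith
    refine ⟨n0, fun m hm n hn => ?_⟩
    have a := hn0 m hm n hn
    rw [Real.dist_eq] at a ⊢
    have b := abs_le.1 (key m)
    have c := abs_le.1 (key n)
    have d := abs_lt.1 a
    rw [abs_lt]; constructor <;> linarith [b.1, b.2, c.1, c.2, d.1, d.2]
  choose g hg using fun x i => cauchySeq_tendsto_of_complete (hc x i)
  have hd : ∀ x, HasFDerivAt u (∑ i, g x i • ContinuousLinearMap.proj (R := ℝ)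
      (φ := fun _ : Fin N => ℝ) i) x := by
    intro x
    rw [hasFDerivAt_iff_isLittleO_nhds_zero]
    refine Asymptotics.IsLittleO.of_bound fun c hc => ?_
    have : Tendsto (fun h : E N => N * M * √‖h‖) (𝓝 0) (𝓝 (N * M * √‖(0 : E N)‖)) :=
      (by fun_prop : Continuous fun h : E N => N * M * √‖h‖).tendsto 0
    filter_upwards [this.eventually (gt_mem_nhds (show N * M * √‖(0 : E N)‖ < c by simpa using hc))]
      with h hh
    have t : |u (x + h) - u x - ∑ i, h i * g x i| ≤ N * M * (‖h‖ * √‖h‖) :=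
      le_of_tendsto' ((((hl _).sub (hl _)).sub
        (tendsto_finsetSum _ fun i _ => (hg x i).const_mul (h i))).abs)
        fun n => taylor_A3b (hf n) x h
    have e : (∑ i, g x i • ContinuousLinearMap.proj (R := ℝ) (φ := fun _ : Fin N => ℝ) i) h
        = ∑ i, h i * g x i := by simp [mul_comm]
    rw [e, Real.norm_eq_abs]
    nlinarith [norm_nonneg h]
  refine ⟨fun x => (hd x).differentiableAt, fun i x => ?_⟩
  have : pd i u x = g x i := by
    unfold pd dd; rw [(hd x).fderiv]; simp [Pi.single_apply]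
  rw [this]; exact hg x i

theorem HB_lim {f : ℕ → E N → ℝ} (hf : ∀ n, HB k M (f n))
    (hl : ∀ x, Tendsto (fun n => f n x) atTop (𝓝 (u x))) : HB k M u := by
  induction k generalizing f u with
  | zero =>
    exact ⟨fun x => le_of_tendsto' (hl x).abs fun n => (hf n).1 x,
      fun x y => le_of_tendsto' ((hl x).sub (hl y)).abs fun n => (hf n).2 x y⟩
  | succ k ih =>
    have h := lim1_A3b (fun n => (hf n).lower_le (j := 1) (by omega)) hl
    exact ⟨h.1, fun x => le_of_tendsto' (hl x).abs fun n => (hf n).bound x,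
      fun i => ih (fun n => (hf n).pd i) (h.2 i)⟩
theorem HB_lim_pd {f : ℕ → E N → ℝ} (hf : ∀ n, HB (k + 1) M (f n))
    (hl : ∀ x, Tendsto (fun n => f n x) atTop (𝓝 (u x))) (i : Fin N) (x : E N) :
    Tendsto (fun n => pd i (f n) x) atTop (𝓝 (pd i u x)) :=
  (lim1_A3b (fun n => (hf n).lower_le (j := 1) (by omega)) hl).2 i x
theorem HB_lim_hess {f : ℕ → E N → ℝ} (hf : ∀ n, HB (k + 2) M (f n))
    (hl : ∀ x, Tendsto (fun n => f n x) atTop (𝓝 (u x))) (x : E N) :
    Tendsto (fun n => hess (f n) x) atTop (𝓝 (hess u x)) :=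
  tendsto_pi_nhds.2 fun i => tendsto_pi_nhds.2 fun j =>
    HB_lim_pd (fun n => (hf n).pd j) (HB_lim_pd hf hl j) i x
theorem HB_lim_d3 {f : ℕ → E N → ℝ} (hf : ∀ n, HB (k + 3) M (f n))
    (hl : ∀ x, Tendsto (fun n => f n x) atTop (𝓝 (u x))) (x v : E N) :
    Tendsto (fun n => d3 (f n) x v) atTop (𝓝 (d3 u x v)) := by
  refine tendsto_pi_nhds.2 fun i => tendsto_pi_nhds.2 fun j => ?_
  simp only [d3, Matrix.of_apply, dd_eq_sum]
  exact tendsto_finsetSum _ fun l _ => (HB_lim_pd (fun n => ((hf n).pd j).pd i)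
    (HB_lim_pd (fun n => (hf n).pd j) (HB_lim_pd hf hl j) i) l x).const_mul _

theorem HB_cauchy {f : ℕ → E N → ℝ} {a : ℝ} (h0 : HB k M (f 0))
    (hs : ∀ n, HB k (a * (1 / 2) ^ n) (fun x => f (n + 1) x - f n x)) :
    ∃ g : E N → ℝ, HB k (M + 2 * a) g ∧ (∀ n, HB k (M + 2 * a) (f n)) ∧
      ∀ x, Tendsto (fun n => f n x) atTop (𝓝 (g x)) := by
  have ha : 0 ≤ a := by simpa using (hs 0).nonneg
  have h1 : ∀ n, HB k (M + 2 * a - 2 * a * (1 / 2) ^ n) (f n) := by
    intro n
    induction n with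
    | zero => simpa using h0
    | succ n ih =>
      have := ih.add (hs n)
      simp only [add_sub_cancel] at this
      exact this.mono (le_of_eq (by ring))
  have h2 : ∀ n, HB k (M + 2 * a) (f n) := fun n =>
    (h1 n).mono (by have : 0 ≤ 2 * a * (1 / 2) ^ n := by positivity
                    linarith)
  have hc : ∀ x, CauchySeq (fun n => f n x) := fun x =>
    cauchySeq_of_le_geometric (1 / 2) a (by norm_num) fun n => by
      rw [Real.dist_eq, abs_sub_comm]; exact (hs n).bound x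
  choose g hg using fun x => cauchySeq_tendsto_of_complete (hc x)
  exact ⟨g, HB_lim h2 hg, h2, hg⟩

theorem dd_single_A3b (s : ℝ) (i : Fin N) (u : E N → ℝ) (x : E N) :
    dd (s • Pi.single i 1) u x = s * pd i u x := dd_smul_vec _ _ _ _

theorem first_A3b (hu : Differentiable ℝ u) {i : Fin N} (hd : Differentiable ℝ (pd i u))
    {a b s : ℝ} (hs : 0 < s) (h0 : ∀ x, |u x| ≤ a) (h2 : ∀ x, |pd i (pd i u) x| ≤ b) (x : E N) :
    |pd i u x| ≤ 2 * a / s + s * b := by
  obtain ⟨c, hc, e⟩ := mvt_A3b hu x (s • Pi.single i 1)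
  obtain ⟨c', hc', e'⟩ := mvt_A3b hd x (c • s • Pi.single i 1)
  rw [dd_single_A3b] at e
  rw [smul_smul c s, dd_single_A3b] at e'
  rw [smul_smul] at e
  have b0 : 0 ≤ b := (abs_nonneg _).trans (h2 x)
  have h3 : |pd i u (x + (c * s) • Pi.single i 1)| ≤ 2 * a / s := by
    rw [le_div_iff₀ hs, ← abs_of_pos hs, ← abs_mul, mul_comm, abs_of_pos hs, ← e]
    have := abs_sub (u (x + s • Pi.single i 1)) (u x)
    linarith [h0 x, h0 (x + s • Pi.single i 1)]
  have h4 : |pd i u (x + (c * s) • Pi.single i 1) - pd i u x| ≤ s * b := by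
    rw [e', abs_mul, abs_of_pos (mul_pos hc.1 hs)]
    exact mul_le_mul (mul_le_of_le_one_left hs.le hc.2.le) (h2 _) (abs_nonneg _) hs.le
  have := abs_le.1 h3; have := abs_le.1 h4
  rw [abs_le]; constructor <;> linarith

theorem pd_bound_of_second (hu : ContDiff ℝ 2 u) {a b : ℝ} (h0 : ∀ x, |u x| ≤ a)
    (h2 : ∀ i j x, |pd i (pd j u) x| ≤ b) (i : Fin N) (x : E N) : |pd i u x| ≤ 2 * a + b := by
  have := first_A3b (hu.differentiable (by norm_num))
    ((contDiff_pd (k := 1) hu i).differentiable (by norm_num)) one_pos h0 (h2 i i) x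
  simpa using this

theorem HB_interp (N : ℕ) {η : ℝ} (hη : 0 < η) : ∃ C : ℝ, 0 ≤ C ∧ ∀ (M M0 : ℝ) (u : E N → ℝ),
    HB 2 M u → (∀ x, |u x| ≤ M0) →
      (∀ i x, |pd i u x| ≤ η * M + C * M0) ∧ ∀ i j x, |pd i (pd j u) x| ≤ η * M + C * M0 := by
  set s := (η / 2) ^ 2 with hs
  have s0 : 0 < s := by positivity
  set t := s * η / 4 with ht
  have t0 : 0 < t := by positivity
  refine ⟨2 / η + 4 / (t * s), by positivity, fun M M0 u hu h0 => ?_⟩
  have hM := hu.nonneg
  have hM0 : 0 ≤ M0 := (abs_nonneg _).trans (h0 0)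
  have f1 : ∀ (r : ℝ), 0 < r → ∀ i x, |pd i u x| ≤ 2 * M0 / r + r * M := fun r hr i x =>
    first_A3b hu.1 (hu.pd i).1 hr h0 (((hu.pd i).pd i).bound) x
  constructor
  · intro i x
    have := f1 η hη i x
    have h2 : 0 ≤ 4 / (t * s) * M0 := by positivity
    calc _ ≤ _ := this
      _ = η * M + 2 / η * M0 := by ring
      _ ≤ _ := by linarith
  · intro i j x
    obtain ⟨c, hc, e⟩ := mvt_A3b (hu.pd j).1 x (s • Pi.single i 1)
    rw [dd_single_A3b] at e
    have h3 : |pd i (pd j u) (x + c • s • Pi.single i 1)| ≤ 2 * (2 * M0 / t + t * M) / s := by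
      rw [le_div_iff₀ s0, ← abs_of_pos s0, ← abs_mul, mul_comm, abs_of_pos s0, ← e]
      have := abs_sub (pd j u (x + s • Pi.single i 1)) (pd j u x)
      linarith [f1 t t0 j x, f1 t t0 j (x + s • Pi.single i 1)]
    have h4 := ((hu.pd j).pd i).2 (x + c • s • Pi.single i 1) x
    have h5 : ‖x + c • s • (Pi.single i 1 : E N) - x‖ ≤ s := by
      rw [add_sub_cancel_left, norm_smul, norm_smul, Pi.norm_single, norm_one, mul_one,
        Real.norm_eq_abs, Real.norm_eq_abs, abs_of_pos s0, abs_of_pos hc.1]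
      exact mul_le_of_le_one_left s0.le hc.2.le
    have h6 : √‖x + c • s • (Pi.single i 1 : E N) - x‖ ≤ η / 2 := by
      rw [Real.sqrt_le_left (by positivity)]; exact h5
    have h7 := h4.trans (mul_le_mul_of_nonneg_left h6 hM)
    have h8 : 2 * (2 * M0 / t + t * M) / s = 4 / (t * s) * M0 + M * (η / 2) := by
      rw [ht]; field_simp; ring
    have h9 : 0 ≤ 2 / η * M0 := by positivity
    have := abs_le.1 h3; have := abs_le.1 h7
    rw [abs_le]; constructor <;> nlinarith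

theorem HB_lin (N k : ℕ) (K : ℝ) : ∃ C : ℝ, 1 ≤ C ∧ ∀ (S : Mat N) (M : ℝ) (u : E N → ℝ),
    (∀ i j, |S i j| ≤ K) → HB k M u → HB k (C * M) (fun x => u (S *ᵥ x)) := by
  have hn : ∀ (S : Mat N), (∀ i j, |S i j| ≤ K) → ∀ v : E N, ‖S *ᵥ v‖ ≤ N * |K| * ‖v‖ := by
    intro S hS v
    refine (pi_norm_le_iff_of_nonneg (by positivity)).2 fun i => ?_
    show |∑ j, S i j * v j| ≤ _
    refine (Finset.abs_sum_le_sum_abs _ _).trans ?_
    have : ∀ j ∈ Finset.univ, |S i j * v j| ≤ |K| * ‖v‖ := fun j _ => by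
      rw [abs_mul]
      exact mul_le_mul ((hS i j).trans (le_abs_self K)) (norm_le_pi_norm v j) (abs_nonneg _)
        (abs_nonneg _)
    refine (Finset.sum_le_sum this).trans (le_of_eq ?_)
    simp; ring
  induction k with
  | zero =>
    refine ⟨1 + √(N * |K|), le_add_of_nonneg_right (Real.sqrt_nonneg _), fun S M u hS hu => ⟨fun x => ?_, fun x y => ?_⟩⟩
    · have := hu.nonneg
      have h2 := hu.1 (S *ᵥ x)
      nlinarith [Real.sqrt_nonneg (N * |K|)]
    · have hM := hu.nonneg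
      have h2 := hu.2 (S *ᵥ x) (S *ᵥ y)
      rw [← Matrix.mulVec_sub] at h2
      have h3 := Real.sqrt_le_sqrt (hn S hS (x - y))
      rw [Real.sqrt_mul (by positivity)] at h3
      have := mul_le_mul_of_nonneg_left h3 hM
      nlinarith [Real.sqrt_nonneg ‖x - y‖, mul_nonneg hM (Real.sqrt_nonneg ‖x - y‖)]
  | succ k ih =>
    obtain ⟨C, hC, H⟩ := ih
    refine ⟨1 + N * |K| * C, by have : 0 ≤ N * |K| * C := by positivity
                                linarith, fun S M u hS hu => ?_⟩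
    have hM := hu.nonneg
    have hd : Differentiable ℝ (fun x : E N => S *ᵥ x) :=
      (LinearMap.toContinuousLinearMap (Matrix.toLin' S)).differentiable
    have p : 0 ≤ N * |K| * C * M := by positivity
    refine ⟨hu.1.comp hd, fun x => (hu.bound _).trans (by nlinarith), fun i => ?_⟩
    have e : pd i (fun x => u (S *ᵥ x)) = fun x => ∑ l, S l i * pd l u (S *ᵥ x) := by
      funext x
      have := dd_aff (u := u) 0 S x (Pi.single i 1) (hu.1 _)
      simp only [zero_add] at this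
      unfold pd
      rw [this, dd_eq_sum]
      simp [pd]
    rw [e]
    refine (HB.sum Finset.univ _ (fun _ => |K| * (C * M)) fun l _ =>
      ((H S M _ hS (hu.pd l)).const_mul (S l i)).mono ?_).mono ?_
    · exact mul_le_mul_of_nonneg_right ((hS l i).trans (le_abs_self K)) (by positivity)
    · simp; nlinarith

theorem exists_cutoff (N k : ℕ) {r : ℝ} (hr : 0 < r) : ∃ C : ℝ, 0 ≤ C ∧ ∀ a : E N,
    ∃ ζ : E N → ℝ, ContDiff ℝ 7 ζ ∧ HB k C ζ ∧ (∀ x, 0 ≤ ζ x ∧ ζ x ≤ 1) ∧
      (∀ x, ‖x - a‖ ≤ r → ζ x = 1) ∧ (∀ x, 2 * r ≤ ‖x - a‖ → ζ x = 0) := by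
  let b : ContDiffBump (0 : ℝ) := ⟨r, 2 * r, hr, by linarith⟩
  let z : E N → ℝ := fun x => ∏ i, b (x i)
  have hz : ∀ m : ℕ, ContDiff ℝ m z := fun m =>
    contDiff_prod fun i _ => b.contDiff.comp (contDiff_apply ℝ ℝ i)
  have h0 : ∀ x, 2 * r ≤ ‖x‖ → z x = 0 := by
    intro x hx
    by_contra hne
    have : ‖x‖ < 2 * r := (pi_norm_lt_iff (by linarith)).2 fun i => by
      by_contra h
      exact hne (Finset.prod_eq_zero (Finset.mem_univ i)
        (b.zero_of_le_dist (by simpa using h)))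
    linarith
  obtain ⟨C, hC⟩ := HB_of_compact (k := k) (isCompact_closedBall (0 : E N) (2 * r)) (hz (k + 1))
    fun x hx => h0 x (by simpa using le_of_lt (by simpa using hx : 2 * r < ‖x‖))
  refine ⟨C, hC.nonneg, fun a => ⟨fun x => z (-a + x),
    (hz 7).comp (contDiff_const.add contDiff_id), hC.translate (-a), fun x => ⟨?_, ?_⟩,
    fun x hx => ?_, fun x hx => h0 _ (by rwa [neg_add_eq_sub])⟩⟩
  · exact Finset.prod_nonneg fun i _ => b.nonneg
  · exact Finset.prod_le_one (fun i _ => b.nonneg) fun i _ => b.le_one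
  · refine Finset.prod_eq_one fun i _ => b.one_of_mem_closedBall ?_
    rw [neg_add_eq_sub, mem_closedBall_zero_iff]
    exact (norm_le_pi_norm (x - a) i).trans hx

end Pool.Agent.MP_5f4cdd_gt.CB
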