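import Pool.Agent.MP_5f4cdd_gt.CB.A3a
import Pool.Agent.MP_5f4cdd_gt.CB.A2b

set_option autoImplicit false
open MeasureTheory Matrix Set Filter Topology

namespace Pool.Agent.MP_5f4cdd_gt.CB

section Aux

variable {N k : ℕ} {M M' : ℝ} {u w : E N → ℝ}

theorem eq_A3c (h : HB k M u) (hM : M ≤ M') (e : ∀ x, w x = u x) : HB k M' w := by
  rw [show w = u from funext e]
  exact h.mono hM

theorem comp0_A3c {φ φ' : ℝ → ℝ} {S : Set ℝ} {L C : ℝ} (h : HB 0 M u) (hS : Convex ℝ S)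
    (hu : ∀ x, u x ∈ S) (hd : ∀ s ∈ S, HasDerivAt φ (φ' s) s) (hL : ∀ s ∈ S, |φ' s| ≤ L)
    (h0 : ∀ x, |φ (u x)| ≤ C) (hC : L * M ≤ C) : HB 0 C (fun x => φ (u x)) := by
  refine ⟨h0, fun x y => ?_⟩
  have h1 : |φ (u x) - φ (u y)| ≤ L * |u x - u y| :=
    hS.norm_image_sub_le_of_norm_hasDerivWithin_le (fun s hs => (hd s hs).hasDerivWithinAt) hL
      (hu y) (hu x)
  have h2 : 0 ≤ L := (abs_nonneg _).trans (hL _ (hu x))
  refine h1.trans ((mul_le_mul_of_nonneg_left (h.2 x y) h2).trans ?_)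
  rw [← mul_assoc]
  exact mul_le_mul_of_nonneg_right hC (Real.sqrt_nonneg _)

theorem compS_A3c {φ φ' : ℝ → ℝ} {A C Cm : ℝ}
    (hm : ∀ (M M' : ℝ) (u w : E N → ℝ), HB k M u → HB k M' w →
      HB k (Cm * M * M') (fun x => u x * w x))
    (h : HB (k + 1) M u) (hd : ∀ x, HasDerivAt φ (φ' (u x)) (u x))
    (h1 : HB k A (fun x => φ' (u x))) (h0 : ∀ x, |φ (u x)| ≤ C) (hC : Cm * A * M ≤ C) :
    HB (k + 1) C (fun x => φ (u x)) :=
  ⟨fun x => (hd x).differentiableAt.comp x (h.1 x), h0, fun i =>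
    eq_A3c (hm _ _ _ _ h1 (h.pd i)) hC fun x => dd_comp (hd x) (h.1 x) _⟩

theorem exp0_A3c (N k : ℕ) (K : ℝ) : ∃ C : ℝ, 0 ≤ C ∧ ∀ z : E N → ℝ, HB k K z →
    HB k C (fun x => Real.exp (z x)) := by
  have hb : ∀ K s : ℝ, |s| ≤ K → |Real.exp s| ≤ Real.exp K := fun K s hs => by
    rw [Real.abs_exp]
    exact Real.exp_le_exp.2 (le_of_abs_le hs)
  induction k generalizing K with
  | zero =>
    refine ⟨max (Real.exp K) (Real.exp K * K), le_max_of_le_left (Real.exp_pos K).le,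
      fun z h => ?_⟩
    exact comp0_A3c h (convex_Icc (-K) K) (fun x => abs_le.1 (h.bound x))
      (fun s _ => Real.hasDerivAt_exp s) (fun s hs => hb K s (abs_le.2 hs))
      (fun x => le_max_of_le_left (hb K _ (h.bound x))) (le_max_right _ _)
  | succ k ih =>
    obtain ⟨C, -, hC⟩ := ih ((N + 2) * K)
    obtain ⟨Cm, -, hm⟩ := HB_mul N k
    refine ⟨max (Real.exp K) (Cm * C * K), le_max_of_le_left (Real.exp_pos K).le, fun z h => ?_⟩
    exact compS_A3c hm h (fun x => Real.hasDerivAt_exp _) (hC z h.lower)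
      (fun x => le_max_of_le_left (hb K _ (h.bound x))) (le_max_right _ _)

theorem exp1_A3c (N k : ℕ) : ∃ C : ℝ, 0 ≤ C ∧ ∀ (m : ℝ) (z : E N → ℝ), m ≤ 1 → HB k m z →
    HB k (C * m) (fun x => Real.exp (z x) - 1) := by
  have hb : ∀ m s C : ℝ, m ≤ 1 → |s| ≤ m → 2 ≤ C → |Real.exp s - 1| ≤ C * m :=
    fun m s C hm hs hC => (Real.abs_exp_sub_one_le (hs.trans hm)).trans
      (mul_le_mul hC hs (abs_nonneg s) (by linarith))
  cases k with
  | zero =>
    refine ⟨3, by norm_num, fun m z hm h => ?_⟩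
    refine comp0_A3c (φ := fun s => Real.exp s - 1) (L := 3) h (convex_Icc (-m) m)
      (fun x => abs_le.1 (h.bound x)) (fun s _ => (Real.hasDerivAt_exp s).sub_const 1)
      (fun s hs => ?_) (fun x => hb m _ 3 hm (h.bound x) (by norm_num)) le_rfl
    have h1 := le_of_abs_le (hb 1 s 2 le_rfl ((abs_le.2 hs).trans hm) le_rfl)
    rw [Real.abs_exp]
    linarith
  | succ k =>
    obtain ⟨C, -, hC⟩ := exp0_A3c N k (N + 2)
    obtain ⟨Cm, -, hm⟩ := HB_mul N k
    refine ⟨max 2 (Cm * C), le_max_of_le_left zero_le_two, fun m z hm1 h => ?_⟩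
    exact compS_A3c (φ := fun s => Real.exp s - 1) hm h
      (fun x => (Real.hasDerivAt_exp _).sub_const 1)
      (hC z (h.lower.mono (mul_le_of_le_one_right (by positivity) hm1)))
      (fun x => hb m _ _ hm1 (h.bound x) (le_max_left _ _))
      (mul_le_mul_of_nonneg_right (le_max_right _ _) h.nonneg)

theorem exp2_A3c (N k : ℕ) : ∃ C : ℝ, 0 ≤ C ∧ ∀ (m : ℝ) (z : E N → ℝ), m ≤ 1 → HB k m z →
    HB k (C * m ^ 2) (fun x => Real.exp (z x) - 1 - z x) := by
  have hb : ∀ m s C : ℝ, m ≤ 1 → |s| ≤ m → 1 ≤ C → |Real.exp s - 1 - s| ≤ C * m ^ 2 :=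
    fun m s C hm hs hC => (Real.abs_exp_sub_one_sub_id_le (hs.trans hm)).trans
      ((sq_le_sq' (abs_le.1 hs).1 (abs_le.1 hs).2).trans
        (le_mul_of_one_le_left (sq_nonneg m) hC))
  have hd : ∀ s : ℝ, HasDerivAt (fun s => Real.exp s - 1 - s) (Real.exp s - 1) s := fun s =>
    ((Real.hasDerivAt_exp s).sub_const 1).sub (hasDerivAt_id s)
  cases k with
  | zero =>
    refine ⟨2, by norm_num, fun m z hm h => ?_⟩
    refine comp0_A3c (φ := fun s => Real.exp s - 1 - s) (L := 2 * m) h (convex_Icc (-m) m)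
      (fun x => abs_le.1 (h.bound x)) (fun s _ => hd s) (fun s hs => ?_)
      (fun x => hb m _ 2 hm (h.bound x) (by norm_num)) (le_of_eq (by ring))
    have h1 := abs_le.2 hs
    exact (Real.abs_exp_sub_one_le (h1.trans hm)).trans (by linarith)
  | succ k =>
    obtain ⟨C, -, hC⟩ := exp1_A3c N (k + 1)
    obtain ⟨Cm, -, hm⟩ := HB_mul N k
    refine ⟨max 1 (Cm * ((N + 2) * C)), le_max_of_le_left zero_le_one, fun m z hm1 h => ?_⟩
    exact compS_A3c (φ := fun s => Real.exp s - 1 - s) (φ' := fun s => Real.exp s - 1) hm h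
      (fun x => hd _) (hC m z hm1 h).lower (fun x => hb m _ _ hm1 (h.bound x) (le_max_left _ _))
      (le_trans (le_of_eq (by ring)) (mul_le_mul_of_nonneg_right (le_max_right _ _) (sq_nonneg m)))

theorem prod_A3c {ι : Type} {K Cm : ℝ}
    (hm : ∀ (M M' : ℝ) (u w : E N → ℝ), HB k M u → HB k M' w →
      HB k (Cm * M * M') (fun x => u x * w x))
    (s : Finset ι) (f : ι → E N → ℝ) (h : ∀ i, HB k K (f i)) :
    HB k ((Cm * K) ^ s.card) (fun x => ∏ i ∈ s, f i x) := by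
  classical
  induction s using Finset.induction_on with
  | empty => exact eq_A3c (HB_const k 1) (by simp) fun x => Finset.prod_empty
  | insert i s hi ih =>
    refine eq_A3c (hm _ _ _ _ (h i) ih) (le_of_eq ?_) fun x => Finset.prod_insert hi
    rw [Finset.card_insert_of_notMem hi, pow_succ']

theorem rem_A3c (N k : ℕ) (s : Finset (Fin N)) : ∃ C : ℝ, 0 ≤ C ∧ ∀ (r m : ℝ) (a : Fin N → ℝ)
    (b b' : Fin N → E N → ℝ), 0 ≤ r → 0 ≤ m → r ≤ 1 → (∀ i, |a i| ≤ 1) → (∀ i, HB k r (b i)) →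
    (∀ i, HB k r (b' i)) → (∀ i, HB k m fun x => b i x - b' i x) →
    HB k (C * r) (fun x => ∏ i ∈ s, (a i + b i x) - ∏ i ∈ s, a i) ∧
    HB k (C * m) (fun x => ∏ i ∈ s, (a i + b i x) - ∏ i ∈ s, (a i + b' i x)) ∧
    HB k (C * r * m) (fun x =>
      (∏ i ∈ s, (a i + b i x) - ∑ i ∈ s, (∏ j ∈ s.erase i, a j) * b i x) -
        (∏ i ∈ s, (a i + b' i x) - ∑ i ∈ s, (∏ j ∈ s.erase i, a j) * b' i x)) := by
  obtain ⟨Cm, hCm, hm⟩ := HB_mul N k
  induction s using Finset.induction_on with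
  | empty =>
    refine ⟨0, le_rfl, fun r m a b b' _ _ _ _ _ _ _ => ⟨?_, ?_, ?_⟩⟩ <;>
      exact eq_A3c (HB_const k 0) (by simp) fun x => by simp
  | insert i s hi ih =>
    obtain ⟨C, hC, ih⟩ := ih
    have hP : 0 ≤ (Cm * 2) ^ s.card := by positivity
    refine ⟨C + 2 * Cm * C + Cm * (Cm * 2) ^ s.card, by positivity,
      fun r m a b b' hr hm0 hr1 ha hb hb' hd => ?_⟩
    obtain ⟨i1, i2, i3⟩ := ih r m a b b' hr hm0 hr1 ha hb hb' hd
    have f1 : ∀ j, HB k 2 fun x => a j + b j x := fun j =>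
      ((HB_const k (a j)).add (hb j)).mono (by linarith [ha j])
    have f2 : ∀ j, HB k 2 fun x => a j + b' j x := fun j =>
      ((HB_const k (a j)).add (hb' j)).mono (by linarith [ha j])
    have p1 := prod_A3c hm s _ f1
    have p2 := prod_A3c hm s _ f2
    have e : ∀ c : Fin N → ℝ, ∑ l ∈ insert i s, (∏ j ∈ (insert i s).erase l, a j) * c l =
        (∏ j ∈ s, a j) * c i + a i * ∑ l ∈ s, (∏ j ∈ s.erase l, a j) * c l := fun c => by
      rw [Finset.sum_insert hi, Finset.erase_insert hi, Finset.mul_sum]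
      congr 1
      refine Finset.sum_congr rfl fun l hl => ?_
      rw [Finset.erase_insert_of_ne fun e : i = l => hi (e ▸ hl),
        Finset.prod_insert fun e => hi (Finset.mem_of_mem_erase e), mul_assoc]
    generalize (Cm * 2) ^ s.card = P at hP p1 p2
    have hai := ha i
    have q1 : 0 ≤ C * r := mul_nonneg hC hr
    have q2 : 0 ≤ C * m := mul_nonneg hC hm0
    have q3 : 0 ≤ C * r * m := mul_nonneg q1 hm0
    refine ⟨eq_A3c ((i1.const_mul (a i)).add (hm _ _ _ _ (hb i) p1)) ?_ fun x => ?_,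
      eq_A3c ((hm _ _ _ _ (f1 i) i2).add (hm _ _ _ _ (hd i) p2)) ?_ fun x => ?_,
      eq_A3c (((i3.const_mul (a i)).add (hm _ _ _ _ (hd i) i1)).add (hm _ _ _ _ (hb' i) i2)) ?_
        fun x => ?_⟩
    · nlinarith [mul_le_mul_of_nonneg_right hai q1, mul_nonneg (zero_le_one.trans hCm) q1]
    · rw [Finset.prod_insert hi, Finset.prod_insert hi]
      ring
    · nlinarith
    · rw [Finset.prod_insert hi, Finset.prod_insert hi]
      ring
    · nlinarith [mul_le_mul_of_nonneg_right hai q3,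
        mul_nonneg (mul_nonneg (mul_nonneg (zero_le_one.trans hCm) hP) hr) hm0]
    · rw [Finset.prod_insert hi, Finset.prod_insert hi, e fun l => b l x, e fun l => b' l x]
      ring

theorem lin_A3c (b : Mat N) : b.trace = ∑ σ : Equiv.Perm (Fin N), ((Equiv.Perm.sign σ : ℤ) : ℝ) *
    ∑ i, (∏ j ∈ Finset.univ.erase i, (1 : Mat N) (σ j) j) * b (σ i) i := by
  rw [Finset.sum_eq_single_of_mem 1 (Finset.mem_univ _) fun σ _ hσ => ?_]
  · change _ = _ * ∑ i, (∏ j ∈ Finset.univ.erase i, (1 : Mat N) j j) * b i i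
    simp only [Matrix.trace, Matrix.diag_apply, Matrix.one_apply_eq,
      Finset.prod_const_one, one_mul, Equiv.Perm.sign_one, Units.val_one, Int.cast_one]
  · refine mul_eq_zero_of_right _ (Finset.sum_eq_zero fun i _ => mul_eq_zero_of_left ?_ _)
    by_contra h
    have h1 : ∀ j, j ≠ i → σ j = j := fun j hj => by
      by_contra h2
      exact h (Finset.prod_eq_zero (Finset.mem_erase.2 ⟨hj, Finset.mem_univ j⟩) (one_apply_ne h2))
    refine hσ (Equiv.ext fun j => ?_)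
    by_cases h2 : j = i
    · by_contra h3
      exact h3 (σ.injective (h1 (σ j) (h2 ▸ h3)))
    · exact h1 j h2

end Aux

theorem HB_inv (N k : ℕ) (c K : ℝ) (hc : 0 < c) : ∃ C : ℝ, ∀ u : E N → ℝ, HB k K u →
    (∀ x, c ≤ u x) → HB k C (fun x => (u x)⁻¹) := by
  have hd : ∀ s : ℝ, c ≤ s → HasDerivAt (fun s : ℝ => s⁻¹) (-(s⁻¹ * s⁻¹)) s := fun s hs =>
    (hasDerivAt_inv (hc.trans_le hs).ne').congr_deriv (by rw [sq, mul_inv])
  have hb : ∀ s : ℝ, c ≤ s → |s⁻¹| ≤ c⁻¹ := fun s hs => by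
    rw [abs_of_pos (inv_pos.2 (hc.trans_le hs))]
    exact inv_anti₀ hc hs
  induction k generalizing K with
  | zero =>
    refine ⟨max c⁻¹ (c⁻¹ * c⁻¹ * K), fun u h hu => ?_⟩
    refine comp0_A3c (φ := fun s => s⁻¹) h (convex_Ici c) hu hd (fun s hs => ?_)
      (fun x => le_max_of_le_left (hb _ (hu x))) (le_max_right _ _)
    rw [abs_neg, abs_mul]
    exact mul_self_le_mul_self (abs_nonneg _) (hb s hs)
  | succ k ih =>
    obtain ⟨C, hC⟩ := ih ((N + 2) * K)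
    obtain ⟨Cm, -, hm⟩ := HB_mul N k
    refine ⟨max c⁻¹ (Cm * (Cm * C * C) * K), fun u h hu => ?_⟩
    exact compS_A3c (φ := fun s => s⁻¹) (φ' := fun s => -(s⁻¹ * s⁻¹)) hm h (fun x => hd _ (hu x))
      (hm _ _ _ _ (hC u h.lower hu) (hC u h.lower hu)).neg
      (fun x => le_max_of_le_left (hb _ (hu x))) (le_max_right _ _)

theorem HB_log (N k : ℕ) (c K : ℝ) (hc : 0 < c) : ∃ C : ℝ, ∀ u : E N → ℝ, HB k K u →
    (∀ x, c ≤ u x) → HB k C (fun x => Real.log (u x)) := by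
  have hd : ∀ s : ℝ, c ≤ s → HasDerivAt Real.log s⁻¹ s := fun s hs =>
    Real.hasDerivAt_log (hc.trans_le hs).ne'
  have hb : ∀ s : ℝ, c ≤ s → |s| ≤ K → |Real.log s| ≤ max |Real.log c| |Real.log K| :=
    fun s hs hK => abs_le_max_abs_abs (Real.log_le_log hc hs)
      (Real.log_le_log (hc.trans_le hs) (le_of_abs_le hK))
  cases k with
  | zero =>
    refine ⟨max (max |Real.log c| |Real.log K|) (c⁻¹ * K), fun u h hu => ?_⟩
    refine comp0_A3c h (convex_Ici c) hu hd (fun s hs => ?_)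
      (fun x => le_max_of_le_left (hb _ (hu x) (h.bound x))) (le_max_right _ _)
    rw [abs_of_pos (inv_pos.2 (hc.trans_le hs))]
    exact inv_anti₀ hc hs
  | succ k =>
    obtain ⟨C, hC⟩ := HB_inv N k c ((N + 2) * K) hc
    obtain ⟨Cm, -, hm⟩ := HB_mul N k
    refine ⟨max (max |Real.log c| |Real.log K|) (Cm * C * K), fun u h hu => ?_⟩
    exact compS_A3c (φ' := fun s => s⁻¹) hm h (fun x => hd _ (hu x)) (hC u h.lower hu)
      (fun x => le_max_of_le_left (hb _ (hu x) (h.bound x))) (le_max_right _ _)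

theorem HB_exp1 (N k : ℕ) : ∃ C : ℝ, 0 ≤ C ∧ ∀ (m : ℝ) (z : E N → ℝ), m ≤ 1 → HB k m z →
    HB k (C * m) (fun x => Real.exp (z x) - 1) ∧
      HB k (C * m ^ 2) (fun x => Real.exp (z x) - 1 - z x) := by
  obtain ⟨C, hC, h1⟩ := exp1_A3c N k
  obtain ⟨C', hC', h2⟩ := exp2_A3c N k
  exact ⟨max C C', le_max_of_le_left hC, fun m z hm h =>
    ⟨(h1 m z hm h).mono (mul_le_mul_of_nonneg_right (le_max_left _ _) h.nonneg),
      (h2 m z hm h).mono (mul_le_mul_of_nonneg_right (le_max_right _ _) (sq_nonneg m))⟩⟩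

theorem HB_exp_rem (N k : ℕ) : ∃ C : ℝ, 0 ≤ C ∧ ∀ (r m : ℝ) (z z' : E N → ℝ), r ≤ 1 / 2 →
    HB k r z → HB k r z' → HB k m (fun x => z x - z' x) →
    HB k (C * r * m) (fun x => Real.exp (z x) - Real.exp (z' x) - (z x - z' x)) := by
  obtain ⟨C, hC, h1⟩ := HB_exp1 N k
  obtain ⟨Cm, hCm, hm⟩ := HB_mul N k
  refine ⟨Cm * C * C + 2 * C, by positivity, fun r m z z' hr h h' hd => ?_⟩
  obtain ⟨μ, hμ, h2, h3⟩ : ∃ μ, HB k μ (fun x => z x - z' x) ∧ μ ≤ m ∧ μ ≤ r + r := by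
    rcases le_total m (r + r) with e | e
    · exact ⟨m, hd, le_rfl, e⟩
    · exact ⟨r + r, h.sub h', e, le_rfl⟩
  obtain ⟨k1, k2⟩ := h1 μ _ (by linarith) hμ
  refine eq_A3c ((hm _ _ _ _ (h1 r z' (by linarith) h').1 k1).add k2) ?_ fun x => ?_
  · have q1 : 0 ≤ Cm * C * C * r := by
      have := h.nonneg
      positivity
    have q2 : μ ^ 2 ≤ (r + r) * m := by
      rw [sq]
      exact mul_le_mul h3 h2 hμ.nonneg (hμ.nonneg.trans h3)
    nlinarith [mul_le_mul_of_nonneg_left h2 q1, mul_le_mul_of_nonneg_left q2 hC]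
  · have e : Real.exp (z x) = Real.exp (z' x) * Real.exp (z x - z' x) := by
      rw [← Real.exp_add, add_sub_cancel]
    rw [e]
    ring

theorem HBM_mul (N k : ℕ) : ∃ C : ℝ, 1 ≤ C ∧ ∀ (M M' : ℝ) (a b : E N → Mat N), 0 ≤ M → 0 ≤ M' →
    HBM k M a → HBM k M' b → HBM k (C * M * M') (fun x => a x * b x) ∧
      HB k (C * M * M') (fun x => (a x * b x).trace) := by
  obtain ⟨Cm, hCm, hm⟩ := HB_mul N k
  have hN : (0 : ℝ) ≤ N := Nat.cast_nonneg N
  refine ⟨(N + 1) ^ 2 * Cm, one_le_mul_of_one_le_of_one_le (one_le_pow₀ (by linarith)) hCm,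
    fun M M' a b hM hM' ha hb => ?_⟩
  have q : 0 ≤ Cm * M * M' := by positivity
  have h1 : HBM k (N * (Cm * M * M')) (fun x => a x * b x) := fun i j =>
    eq_A3c (HB.sum Finset.univ _ _ fun l _ => hm _ _ _ _ (ha i l) (hb l j)) (by simp)
      fun x => Matrix.mul_apply
  refine ⟨fun i j => (h1 i j).mono (by nlinarith [mul_nonneg hN q, mul_nonneg hN (mul_nonneg hN q)]),
    eq_A3c (HB.sum Finset.univ _ _ fun i _ => h1 i i) ?_ fun x => rfl⟩
  rw [Finset.sum_const, Finset.card_univ, Fintype.card_fin, nsmul_eq_mul]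
  nlinarith [mul_nonneg hN q]

theorem HBM_det (N k : ℕ) (K : ℝ) : ∃ C : ℝ, ∀ a : E N → Mat N, HBM k K a →
    HB k C (fun x => (a x).det) := by
  obtain ⟨Cm, -, hm⟩ := HB_mul N k
  exact ⟨_, fun a ha => eq_A3c (HB.sum Finset.univ _ _ fun (σ : Equiv.Perm (Fin N)) _ =>
    (prod_A3c hm Finset.univ _ fun i => ha (σ i) i).const_mul ((Equiv.Perm.sign σ : ℤ) : ℝ))
    le_rfl fun x => Matrix.det_apply' _⟩

theorem HBM_inv (N k : ℕ) (c K : ℝ) (hc : 0 < c) : ∃ C : ℝ, 0 ≤ C ∧ ∀ a : E N → Mat N,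
    HBM k K a → Ell c a → HBM k C (fun x => (a x)⁻¹) ∧
      HB k C (fun x => Real.log (a x).det) := by
  obtain ⟨Cm, -, hm⟩ := HB_mul N k
  obtain ⟨D, hD⟩ := HBM_det N k (max K 1)
  obtain ⟨C, hC⟩ := HB_inv N k (c ^ N) D (pow_pos hc N)
  obtain ⟨C', hC'⟩ := HB_log N k (c ^ N) D (pow_pos hc N)
  refine ⟨max 0 (max (Cm * C * D) C'), le_max_left _ _, fun a ha he => ?_⟩
  have h1 : ∀ x, c ^ N ≤ (a x).det := fun x =>
    (inv_ell (he x).1 hc (he x).2 fun i j => (ha i j).bound x).2.2.2.2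
  have h2 := hD a fun i j => (ha i j).mono (le_max_left _ _)
  refine ⟨fun i j => ?_, (hC' _ h2 h1).mono (le_max_of_le_right (le_max_right _ _))⟩
  have h3 := hD (fun x => (a x).updateRow j (Pi.single i 1)) fun i' j' => by
    by_cases e : i' = j
    · refine eq_A3c (HB_const k ((Pi.single i 1 : Fin N → ℝ) j')) (le_max_of_le_right ?_)
        fun x => by simp only [e, updateRow_self]
      rw [Pi.single_apply]
      split_ifs <;> simp
    · exact eq_A3c (ha i' j') (le_max_left _ _) fun x => by simp only [updateRow_ne e]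
  refine eq_A3c (hm _ _ _ _ (hC _ h2 h1) h3) (le_max_of_le_right (le_max_left _ _)) fun x => ?_
  simp only [Matrix.inv_def, Matrix.smul_apply, adjugate_apply, Ring.inverse_eq_inv', smul_eq_mul]

theorem HBM_det_rem (N k : ℕ) : ∃ C : ℝ, 0 ≤ C ∧ ∀ (r m : ℝ) (b b' : E N → Mat N),
    0 ≤ r → 0 ≤ m → r ≤ 1 → HBM k r b → HBM k r b' → HBM k m (fun x => b x - b' x) →
    HB k (C * r * m) (fun x => ((1 + b x).det - (b x).trace) - ((1 + b' x).det - (b' x).trace)) := by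
  obtain ⟨C, hC, h⟩ := rem_A3c N k Finset.univ
  refine ⟨(∑ σ : Equiv.Perm (Fin N), |((Equiv.Perm.sign σ : ℤ) : ℝ)|) * C, by positivity,
    fun r m b b' hr hm hr1 hb hb' hd => ?_⟩
  refine eq_A3c (HB.sum Finset.univ _ _ fun (σ : Equiv.Perm (Fin N)) _ =>
    (h r m (fun i => (1 : Mat N) (σ i) i) (fun i x => b x (σ i) i) (fun i x => b' x (σ i) i) hr hm
      hr1 (fun i => ?_) (fun i => hb _ _) (fun i => hb' _ _) fun i => hd _ _).2.2.const_mul
        ((Equiv.Perm.sign σ : ℤ) : ℝ)) (le_of_eq ?_) fun x => ?_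
  · rw [Matrix.one_apply]
    split_ifs <;> simp
  · rw [← Finset.sum_mul]
    ring
  · rw [Matrix.det_apply', Matrix.det_apply', lin_A3c, lin_A3c]
    simp only [mul_sub, Finset.sum_sub_distrib, Matrix.add_apply]


end Pool.Agent.MP_5f4cdd_gt.CB
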