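import Pool.Agent.MP_5f4cdd_gt.CB.A1b
import Pool.Agent.MP_5f4cdd_gt.CB.A2b

set_option autoImplicit false
open MeasureTheory Matrix Set Filter Topology

namespace Pool.Agent.MP_5f4cdd_gt.CB
variable {N : ℕ} {G : E N → ℝ} {x : E N}

/-- entrywise smoothness -/
def CM_A4 (k : ℕ) (a : E N → Mat N) (x : E N) : Prop :=
  ∀ i j, ContDiffAt ℝ k (fun y => a y i j) x

/-- entrywise differentiability -/
def DM_A4 (a : E N → Mat N) (x : E N) : Prop :=
  ∀ i j, DifferentiableAt ℝ (fun y => a y i j) x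

/-- entrywise derivative -/
noncomputable def ddM_A4 (v : E N) (a : E N → Mat N) (x : E N) : Mat N :=
  Matrix.of fun i j => dd v (fun y => a y i j) x

section Aux
variable {a b : E N → Mat N} {k : ℕ}

theorem dm_of_cm_A4 (h : CM_A4 1 a x) : DM_A4 a x := fun i j =>
  (h i j).differentiableAt (by simp)

theorem cm_det_A4 (h : CM_A4 k a x) : ContDiffAt ℝ k (fun y => (a y).det) x := by
  simp only [det_apply']
  exact ContDiffAt.sum fun σ _ => contDiffAt_const.mul (contDiffAt_prod fun i _ => h _ _)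

theorem cm_adj_A4 (h : CM_A4 k a x) : CM_A4 k (fun y => (a y).adjugate) x := by
  intro i j
  simp only [adjugate_apply]
  refine cm_det_A4 (a := fun y => (a y).updateRow j (Pi.single i 1)) fun p q => ?_
  simp only [updateRow_apply]
  split_ifs
  · exact contDiffAt_const
  · exact h p q

theorem cm_inv_A4 (h : CM_A4 k a x) (hd : (a x).det ≠ 0) : CM_A4 k (fun y => (a y)⁻¹) x := by
  intro i j
  simp only [inv_def, Ring.inverse_eq_inv', Matrix.smul_apply, smul_eq_mul]
  exact ((cm_det_A4 h).inv hd).mul (cm_adj_A4 h i j)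

theorem dm_const_A4 (A : Mat N) : DM_A4 (fun _ => A) x := fun _ _ => differentiableAt_const _

theorem ddM_const_A4 (A : Mat N) (v : E N) : ddM_A4 v (fun _ => A) x = 0 := by
  ext i j
  exact dd_const _ _ _

theorem dm_mul_A4 (ha : DM_A4 a x) (hb : DM_A4 b x) : DM_A4 (fun y => a y * b y) x := by
  intro i j
  simp only [Matrix.mul_apply]
  exact DifferentiableAt.fun_sum fun l _ => (ha i l).mul (hb l j)

theorem ddM_mul_A4 (ha : DM_A4 a x) (hb : DM_A4 b x) (v : E N) :
    ddM_A4 v (fun y => a y * b y) x = ddM_A4 v a x * b x + a x * ddM_A4 v b x := by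
  ext i j
  simp only [ddM_A4, of_apply, Matrix.mul_apply, Matrix.add_apply, ← Finset.sum_add_distrib]
  rw [dd_sum Finset.univ (fun l y => a y i l * b y l j) fun l _ => (ha i l).mul (hb l j)]
  exact Finset.sum_congr rfl fun l _ => dd_mul (ha i l) (hb l j) v

theorem diff_trace_A4 (ha : DM_A4 a x) : DifferentiableAt ℝ (fun y => (a y).trace) x := by
  simp only [trace, diag_apply]
  exact DifferentiableAt.fun_sum fun l _ => ha l l

theorem dd_trace_A4 (ha : DM_A4 a x) (v : E N) :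
    dd v (fun y => (a y).trace) x = (ddM_A4 v a x).trace := by
  simp only [trace, diag_apply, ddM_A4, of_apply]
  exact dd_sum Finset.univ (fun l y => a y l l) (fun l _ => ha l l) v

theorem dd_qf_A4 (ha : DM_A4 a x) (v β γ : E N) :
    dd v (fun y => qf (a y) β γ) x = qf (ddM_A4 v a x) β γ := by
  have e : ∀ (A : Mat N), qf A β γ = ∑ i, ∑ j, β i * γ j * A i j := fun A => by
    rw [qf_eq_sum]
    exact Finset.sum_congr rfl fun i _ => Finset.sum_congr rfl fun j _ => by ring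
  simp only [e]
  rw [dd_sum Finset.univ (fun i y => ∑ j, β i * γ j * a y i j) fun i _ =>
    DifferentiableAt.fun_sum fun j _ => (ha i j).const_mul _]
  refine Finset.sum_congr rfl fun i _ => ?_
  rw [dd_sum Finset.univ (fun j y => β i * γ j * a y i j) fun j _ => (ha i j).const_mul _]
  exact Finset.sum_congr rfl fun j _ => dd_const_mul _ _ _ _

theorem diff_det_A4 (ha : DM_A4 a x) : DifferentiableAt ℝ (fun y => (a y).det) x := by
  simp only [det_apply']
  exact DifferentiableAt.fun_sum fun σ _ =>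
    (HasFDerivAt.finsetProd (u := Finset.univ) (g := fun i y => a y (σ i) i)
      fun i _ => (ha _ _).hasFDerivAt).differentiableAt.const_mul _

theorem dd_det_one_A4 (ha : DM_A4 a x) (h1 : a x = 1) (v : E N) :
    dd v (fun y => (a y).det) x = (ddM_A4 v a x).trace := by
  have hp : ∀ σ : Equiv.Perm (Fin N), HasFDerivAt (fun y => ∏ i, a y (σ i) i)
      (∑ i, (∏ j ∈ Finset.univ.erase i, a x (σ j) j) • fderiv ℝ (fun y => a y (σ i) i) x) x :=
    fun σ => HasFDerivAt.finsetProd (u := Finset.univ) (g := fun i y => a y (σ i) i)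
      fun i _ => (ha _ _).hasFDerivAt
  have hq : ∀ σ : Equiv.Perm (Fin N), dd v (fun y => ∏ i, a y (σ i) i) x =
      ∑ i, (∏ j ∈ Finset.univ.erase i, a x (σ j) j) * dd v (fun y => a y (σ i) i) x := by
    intro σ
    rw [dd, (hp σ).fderiv]
    simp [dd]
  simp only [det_apply']
  rw [dd_sum Finset.univ (fun (σ : Equiv.Perm (Fin N)) y =>
    ((Equiv.Perm.sign σ : ℤ) : ℝ) * ∏ i, a y (σ i) i)
    fun σ _ => (hp σ).differentiableAt.const_mul _]
  simp only [dd_const_mul, hq, h1]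
  rw [Finset.sum_eq_single 1]
  · have e1 : ∀ i : Fin N, ∏ j ∈ Finset.univ.erase i,
        (1 : Mat N) ((1 : Equiv.Perm (Fin N)) j) j = 1 :=
      fun i => Finset.prod_eq_one fun j _ => one_apply_eq j
    simp only [e1]
    simp [trace, ddM_A4]
  · intro σ _ hσ
    refine mul_eq_zero_of_right _ (Finset.sum_eq_zero fun i _ => mul_eq_zero_of_left ?_ _)
    by_contra hc
    refine hσ (Equiv.ext fun j => ?_)
    have hj : ∀ j, j ≠ i → σ j = j := fun j hj => by
      by_contra hn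
      exact hc (Finset.prod_eq_zero (Finset.mem_erase.2 ⟨hj, Finset.mem_univ j⟩) (one_apply_ne hn))
    by_cases hji : j = i
    · subst hji
      by_contra hn
      exact hn (σ.injective (hj _ hn))
    · exact hj j hji
  · intro h
    exact absurd (Finset.mem_univ _) h

theorem dd_det_A4 (ha : DM_A4 a x) (hd : (a x).det ≠ 0) (v : E N) :
    dd v (fun y => (a y).det) x = (a x).det * ((a x)⁻¹ * ddM_A4 v a x).trace := by
  have hu : IsUnit (a x).det := isUnit_iff_ne_zero.2 hd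
  have e : (fun y => (a y).det) = fun y => (a x).det * ((a x)⁻¹ * a y).det := by
    funext y
    rw [← det_mul, ← Matrix.mul_assoc, mul_nonsing_inv _ hu, Matrix.one_mul]
  rw [e, dd_const_mul, dd_det_one_A4 (dm_mul_A4 (dm_const_A4 _) ha) (nonsing_inv_mul _ hu),
    ddM_mul_A4 (dm_const_A4 _) ha, ddM_const_A4, Matrix.zero_mul, zero_add]

end Aux

theorem cm_d3_A4 {k : ℕ} (h : ContDiffAt ℝ (k + 3 : ℕ) G x) (v : E N) :
    CM_A4 k (fun y => d3 G y v) x := fun i j =>
  contDiffAt_dd (k := k) (contDiffAt_hess (k := k + 1) h i j) v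

theorem cm_d4_A4 {k : ℕ} (h : ContDiffAt ℝ (k + 4 : ℕ) G x) (v w : E N) :
    CM_A4 k (fun y => d4 G y v w) x := fun i j =>
  contDiffAt_dd (k := k) (cm_d3_A4 (k := k + 1) h w i j) v

theorem eventually_posDef_hess (h : ContDiffAt ℝ 2 G x) (hp : (hess G x).PosDef) :
    ∀ᶠ y in 𝓝 x, (hess G y).PosDef := by
  exact eventually_posDef (continuousAt_hess h)
    ((h.eventually (by simp)).mono fun y hy => hess_symm hy) hp

theorem contDiffAt_ldet {k : ℕ} (h : ContDiffAt ℝ (k + 2 : ℕ) G x) (hp : (hess G x).PosDef) :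
    ContDiffAt ℝ k (ldet G) x := by
  exact (cm_det_A4 (contDiffAt_hess h)).log hp.det_pos.ne'

theorem contDiffAt_inv_hess {k : ℕ} (h : ContDiffAt ℝ (k + 2 : ℕ) G x) (hp : (hess G x).PosDef)
    (i j : Fin N) : ContDiffAt ℝ k (fun y => (hess G y)⁻¹ i j) x := by
  exact cm_inv_A4 (contDiffAt_hess h) hp.det_pos.ne' i j

theorem contDiffAt_qf_inv {k : ℕ} (h : ContDiffAt ℝ (k + 2 : ℕ) G x) (hp : (hess G x).PosDef)
    (β γ : E N) : ContDiffAt ℝ k (fun y => qf (hess G y)⁻¹ β γ) x := by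
  simp only [qf_eq_sum]
  exact ContDiffAt.sum fun i _ => ContDiffAt.sum fun j _ =>
    (contDiffAt_const.mul (contDiffAt_inv_hess h hp i j)).mul contDiffAt_const

theorem continuousAt_inv_hess (h : ContDiffAt ℝ 2 G x) (hp : (hess G x).PosDef) :
    ContinuousAt (fun y => (hess G y)⁻¹) x := by
  exact continuousAt_pi.2 fun i => continuousAt_pi.2 fun j =>
    (contDiffAt_inv_hess (k := 0) h hp i j).continuousAt

theorem continuousAt_cal (h : ContDiffAt ℝ 3 G x) (hp : (hess G x).PosDef) (v : E N) :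
    ContinuousAt (fun p : E N × E N => cal G p.1 p.2) (x, v) := by
  have h1 : ContinuousAt (fun p : E N × E N => (hess G p.1)⁻¹) (x, v) :=
    ContinuousAt.comp (g := fun y => (hess G y)⁻¹)
      (continuousAt_inv_hess (h.of_le (by norm_num)) hp) continuousAt_fst
  have h2 := continuousAt_d3 h v
  exact (continuous_id.matrix_trace.continuousAt).comp (((h1.mul h2).mul h1).mul h2)

theorem cal_smul (G : E N → ℝ) (x v : E N) (c : ℝ) : cal G x (c • v) = c ^ 2 * cal G x v := by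
  simp only [cal, d3_smul_vec, Matrix.mul_smul, Matrix.smul_mul, trace_smul, smul_eq_mul]
  ring

theorem dm_hess_A4 (h : ContDiffAt ℝ 3 G x) : DM_A4 (hess G) x :=
  dm_of_cm_A4 (contDiffAt_hess (k := 1) h)

theorem dm_inv_A4 (h : ContDiffAt ℝ 3 G x) (hp : (hess G x).PosDef) :
    DM_A4 (fun y => (hess G y)⁻¹) x :=
  dm_of_cm_A4 (contDiffAt_inv_hess (k := 1) h hp)

theorem ddM_inv_A4 (h : ContDiffAt ℝ 3 G x) (hp : (hess G x).PosDef) (v : E N) :
    ddM_A4 v (fun y => (hess G y)⁻¹) x = -((hess G x)⁻¹ * d3 G x v * (hess G x)⁻¹) := by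
  have hu : IsUnit (hess G x).det := isUnit_iff_ne_zero.2 hp.det_pos.ne'
  have h0 : ddM_A4 v (fun y => (hess G y)⁻¹ * hess G y) x = 0 := by
    rw [← ddM_const_A4 (x := x) 1 v]
    ext i j
    refine (dd_congr ?_ v).eq_of_nhds
    filter_upwards [eventually_posDef_hess (h.of_le (by norm_num)) hp] with y hy
    rw [nonsing_inv_mul _ (isUnit_iff_ne_zero.2 hy.det_pos.ne')]
  rw [ddM_mul_A4 (dm_inv_A4 h hp) (dm_hess_A4 h)] at h0
  have h1 := congrArg (· * (hess G x)⁻¹) (eq_neg_of_add_eq_zero_left h0)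
  simp only [Matrix.mul_assoc, mul_nonsing_inv _ hu, Matrix.mul_one, Matrix.neg_mul] at h1
  rw [h1, Matrix.mul_assoc]
  rfl

theorem dd_inv_hess (h : ContDiffAt ℝ 3 G x) (hp : (hess G x).PosDef) (v : E N) (i j : Fin N) :
    dd v (fun y => (hess G y)⁻¹ i j) x = -((hess G x)⁻¹ * d3 G x v * (hess G x)⁻¹) i j := by
  exact congrFun (congrFun (ddM_inv_A4 h hp v) i) j

theorem dd_qf_inv (h : ContDiffAt ℝ 3 G x) (hp : (hess G x).PosDef) (v β γ : E N) :
    dd v (fun y => qf (hess G y)⁻¹ β γ) x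
      = -qf (d3 G x v) ((hess G x)⁻¹ *ᵥ β) ((hess G x)⁻¹ *ᵥ γ) := by
  rw [dd_qf_A4 (dm_inv_A4 h hp), ddM_inv_A4 h hp, ← qf_conj, (posDef_isSymm hp.inv).eq,
    ← neg_one_smul ℝ, qf_smul, neg_one_mul]

theorem dd_ldet (h : ContDiffAt ℝ 3 G x) (hp : (hess G x).PosDef) (v : E N) :
    dd v (ldet G) x = ((hess G x)⁻¹ * d3 G x v).trace := by
  have hd := hp.det_pos.ne'
  have e := dd_comp (u := fun y => (hess G y).det) (Real.hasDerivAt_log hd)
    (diff_det_A4 (dm_hess_A4 h)) v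
  rw [dd_det_A4 (dm_hess_A4 h) hd, ← mul_assoc, inv_mul_cancel₀ hd, one_mul] at e
  exact e

theorem dd2_ldet (h : ContDiffAt ℝ 4 G x) (hp : (hess G x).PosDef) (v w : E N) :
    dd v (dd w (ldet G)) x = ((hess G x)⁻¹ * d4 G x v w).trace
      - ((hess G x)⁻¹ * d3 G x v * (hess G x)⁻¹ * d3 G x w).trace := by
  have h3 : ContDiffAt ℝ 3 G x := h.of_le (by norm_num)
  have e : dd w (ldet G) =ᶠ[𝓝 x] fun y => ((hess G y)⁻¹ * d3 G y w).trace := by
    filter_upwards [eventually_posDef_hess (h.of_le (by norm_num)) hp, h3.eventually (by simp)]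
      with y hy hy'
    exact dd_ldet hy' hy w
  have d1 := dm_inv_A4 h3 hp
  have d2 := dm_of_cm_A4 (cm_d3_A4 (k := 1) h w)
  have e2 : ddM_A4 v (fun y => d3 G y w) x = d4 G x v w := rfl
  rw [(dd_congr e v).eq_of_nhds, dd_trace_A4 (dm_mul_A4 d1 d2), ddM_mul_A4 d1 d2,
    ddM_inv_A4 h3 hp, e2, trace_add, Matrix.neg_mul, trace_neg]
  ring

theorem dd3_ldet (h : ContDiffAt ℝ 5 G x) (hp : (hess G x).PosDef) (u v w : E N) :
    dd u (dd v (dd w (ldet G))) x = ((hess G x)⁻¹ * d5 G x u v w).trace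
      - ((hess G x)⁻¹ * d3 G x u * (hess G x)⁻¹ * d4 G x v w).trace
      - ((hess G x)⁻¹ * d4 G x u v * (hess G x)⁻¹ * d3 G x w).trace
      - ((hess G x)⁻¹ * d3 G x v * (hess G x)⁻¹ * d4 G x u w).trace
      + ((hess G x)⁻¹ * d3 G x u * (hess G x)⁻¹ * d3 G x v * (hess G x)⁻¹ * d3 G x w).trace
      + ((hess G x)⁻¹ * d3 G x v * (hess G x)⁻¹ * d3 G x u * (hess G x)⁻¹ * d3 G x w).trace := by
  have h4 : ContDiffAt ℝ 4 G x := h.of_le (by norm_num)
  have h3 : ContDiffAt ℝ 3 G x := h.of_le (by norm_num)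
  have e : dd v (dd w (ldet G)) =ᶠ[𝓝 x] fun y => ((hess G y)⁻¹ * d4 G y v w).trace
      - ((hess G y)⁻¹ * d3 G y v * (hess G y)⁻¹ * d3 G y w).trace := by
    filter_upwards [eventually_posDef_hess (h.of_le (by norm_num)) hp, h4.eventually (by simp)]
      with y hy hy'
    exact dd2_ldet hy' hy v w
  have d1 := dm_inv_A4 h3 hp
  have d2 := dm_of_cm_A4 (cm_d3_A4 (k := 1) h4 w)
  have d3' := dm_of_cm_A4 (cm_d3_A4 (k := 1) h4 v)
  have d4' := dm_of_cm_A4 (cm_d4_A4 (k := 1) h v w)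
  have e2 : ∀ z, ddM_A4 u (fun y => d3 G y z) x = d4 G x u z := fun _ => rfl
  have e3 : ddM_A4 u (fun y => d4 G y v w) x = d5 G x u v w := rfl
  have m1 := dm_mul_A4 d1 d4'
  have m2 := dm_mul_A4 d1 d3'
  have m3 := dm_mul_A4 m2 d1
  have m4 := dm_mul_A4 m3 d2
  rw [(dd_congr e u).eq_of_nhds, dd_sub (diff_trace_A4 m1) (diff_trace_A4 m4), dd_trace_A4 m1,
    dd_trace_A4 m4, ddM_mul_A4 m3 d2, ddM_mul_A4 m2 d1, ddM_mul_A4 d1 d3', ddM_mul_A4 d1 d4',
    ddM_inv_A4 h3 hp, e2, e2, e3]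
  simp only [Matrix.add_mul, Matrix.neg_mul, Matrix.mul_neg, trace_add, trace_neg,
    Matrix.mul_assoc]
  ring


end Pool.Agent.MP_5f4cdd_gt.CB
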