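import Pool.Agent.MP_5f4cdd_gt.CB.A1a
import Pool.Agent.MP_5f4cdd_gt.CB.A2a

set_option autoImplicit false
set_option linter.unusedVariables false
open MeasureTheory Matrix Set Filter Topology

namespace Pool.Agent.MP_5f4cdd_gt.CB
variable {N : ℕ} {S : Set (E N)} {p q : E N → ℝ} {y : E N}

theorem PolyW.exists_A5a (hp : PolyW p) :
    ∃ (C : ℝ) (d : ℕ), 0 ≤ C ∧ ∀ η, |p η| ≤ C * (1 + ‖η‖) ^ d := by
  obtain ⟨-, C, d, h⟩ := hp
  exact ⟨|C|, d, abs_nonneg C, fun η => (h η).trans
    (mul_le_mul_of_nonneg_right (le_abs_self C) (by positivity))⟩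

theorem polyW_const (c : ℝ) : PolyW (fun _ : E N => c) :=
  ⟨continuous_const, |c|, 0, fun _ => by simp⟩

theorem polyW_dot (v : E N) : PolyW (fun η : E N => v ⬝ᵥ η) := by
  refine ⟨by fun_prop, N * ‖v‖, 1, fun η => (abs_dot_le v η).trans ?_⟩
  rw [pow_one, mul_assoc]
  gcongr
  linarith

theorem PolyW.add (hp : PolyW p) (hq : PolyW q) : PolyW (fun η => p η + q η) := by
  obtain ⟨C, d, hC, h⟩ := hp.exists_A5a
  obtain ⟨C', d', hC', h'⟩ := hq.exists_A5a
  refine ⟨hp.1.add hq.1, C + C', d + d', fun η => (abs_add_le _ _).trans ?_⟩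
  have h1 : 1 ≤ 1 + ‖η‖ := le_add_of_nonneg_right (norm_nonneg η)
  rw [add_mul]
  exact add_le_add ((h η).trans (by gcongr; omega)) ((h' η).trans (by gcongr; omega))

theorem PolyW.sub (hp : PolyW p) (hq : PolyW q) : PolyW (fun η => p η - q η) := by
  obtain ⟨hc, C, d, h⟩ := hq
  simpa only [sub_eq_add_neg] using
    hp.add (q := fun η => -q η) ⟨hc.neg, C, d, fun η => by rw [abs_neg]; exact h η⟩

theorem PolyW.mul (hp : PolyW p) (hq : PolyW q) : PolyW (fun η => p η * q η) := by
  obtain ⟨C, d, hC, h⟩ := hp.exists_A5a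
  obtain ⟨C', d', hC', h'⟩ := hq.exists_A5a
  refine ⟨hp.1.mul hq.1, C * C', d + d', fun η => ?_⟩
  rw [abs_mul, pow_add, mul_mul_mul_comm]
  exact mul_le_mul (h η) (h' η) (abs_nonneg _) (by positivity)

theorem PolyW.pow (hp : PolyW p) (n : ℕ) : PolyW (fun η => p η ^ n) := by
  induction n with
  | zero => simpa using polyW_const (N := N) 1
  | succ n ih => simpa only [pow_succ] using ih.mul hp

theorem PolyW.abs (hp : PolyW p) : PolyW (fun η => |p η|) := by
  obtain ⟨hc, C, d, h⟩ := hp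
  exact ⟨hc.abs, C, d, fun η => by rw [abs_abs]; exact h η⟩

theorem room_of_compact (hS : IsCompact S) (y : E N) : Room S y :=
  ⟨1, one_pos, ContinuousOn.integrableOn_compact hS (by fun_prop)⟩

theorem near_A5a (y : E N) {δ : ℝ} (hδ : 0 < δ) :
    ∀ᶠ z in 𝓝 y, ∀ η : E N, -(z ⬝ᵥ η) ≤ -(y ⬝ᵥ η) + δ * ‖η‖ := by
  filter_upwards [Metric.ball_mem_nhds y (ε := δ / (N + 1)) (by positivity)] with z hz η
  rw [Metric.mem_ball, dist_eq_norm, lt_div_iff₀ (by positivity)] at hz
  have h1 := (neg_le_abs _).trans (abs_dot_le (z - y) η)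
  rw [sub_dotProduct, ← mul_assoc] at h1
  have h2 : N * ‖z - y‖ * ‖η‖ ≤ δ * ‖η‖ :=
    mul_le_mul_of_nonneg_right (by nlinarith [norm_nonneg (z - y)]) (norm_nonneg _)
  linarith

theorem pow_le_exp_A5a (d : ℕ) {δ : ℝ} (hδ : 0 < δ) :
    ∃ C : ℝ, ∀ t : ℝ, 0 ≤ t → (1 + t) ^ d ≤ C * Real.exp (δ * t) := by
  refine ⟨d.factorial * Real.exp δ / δ ^ d, fun t ht => ?_⟩
  have h := Real.pow_div_factorial_le_exp (δ * (1 + t)) (by positivity) d
  rw [div_le_iff₀ (by positivity), mul_pow, mul_add, mul_one, Real.exp_add] at h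
  rw [div_mul_eq_mul_div, le_div_iff₀ (by positivity)]
  linarith

theorem int_A5a {δ c : ℝ} (hc : c < δ)
    (hI : IntegrableOn (fun η => Real.exp (-(y ⬝ᵥ η) + δ * ‖η‖)) S) (hp : PolyW p) :
    IntegrableOn (fun η => p η * Real.exp (-(y ⬝ᵥ η) + c * ‖η‖)) S := by
  obtain ⟨C, d, hC, h⟩ := hp.exists_A5a
  obtain ⟨C', h'⟩ := pow_le_exp_A5a d (sub_pos.2 hc)
  have hc := hp.1
  refine (hI.const_mul (C * C')).mono' (Continuous.aestronglyMeasurable (by fun_prop))
    (.of_forall fun η => ?_)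
  rw [Real.norm_eq_abs, abs_mul, Real.abs_exp]
  calc |p η| * Real.exp (-(y ⬝ᵥ η) + c * ‖η‖)
      ≤ C * (C' * Real.exp ((δ - c) * ‖η‖)) * Real.exp (-(y ⬝ᵥ η) + c * ‖η‖) :=
        mul_le_mul_of_nonneg_right ((h η).trans
          (mul_le_mul_of_nonneg_left (h' _ (norm_nonneg η)) hC)) (Real.exp_nonneg _)
    _ = C * C' * Real.exp (-(y ⬝ᵥ η) + δ * ‖η‖) := by
        rw [mul_assoc, mul_assoc, mul_assoc, ← Real.exp_add]
        congr 3
        ring

theorem Room.eventually (hS : MeasurableSet S) (h : Room S y) : ∀ᶠ z in 𝓝 y, Room S z := by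
  obtain ⟨δ, hδ, hI⟩ := h
  filter_upwards [near_A5a y (half_pos hδ)] with z hz
  refine ⟨δ / 2, half_pos hδ, hI.mono' (Continuous.aestronglyMeasurable (by fun_prop))
    (.of_forall fun η => ?_)⟩
  rw [Real.norm_eq_abs, Real.abs_exp]
  exact Real.exp_le_exp.2 (by linarith [hz η])

theorem Room.integrableOn (hS : MeasurableSet S) (h : Room S y) (hp : PolyW p) :
    IntegrableOn (fun η => p η * Real.exp (-(y ⬝ᵥ η))) S := by
  obtain ⟨δ, hδ, hI⟩ := h
  simpa only [zero_mul, add_zero] using int_A5a hδ hI hp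

theorem polyW_coord_A5a (i : Fin N) : PolyW (fun η : E N => η i) := by
  simpa using polyW_dot (Pi.single i 1 : E N)

theorem polyW_sum_A5a {ι : Type} (s : Finset ι) {f : ι → E N → ℝ} (hf : ∀ i, PolyW (f i)) :
    PolyW (fun η => ∑ i ∈ s, f i η) := by
  classical
  induction s using Finset.induction_on with
  | empty => simpa using polyW_const (N := N) 0
  | insert a s ha ih => simpa only [Finset.sum_insert ha] using (hf a).add ih

theorem hasFDerivAt_LapW_A5a (hS : MeasurableSet S) (h : Room S y) (hp : PolyW p) :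
    HasFDerivAt (LapW S p) (∑ i, (-LapW S (fun η => η i * p η) y) •
      (ContinuousLinearMap.proj i : E N →L[ℝ] ℝ)) y := by
  have hi : ∀ i : Fin N, IntegrableOn (fun η => η i * p η * Real.exp (-(y ⬝ᵥ η))) S := fun i =>
    h.integrableOn hS ((polyW_coord_A5a i).mul hp)
  have h0 := h.integrableOn hS hp
  obtain ⟨δ, hδ, hI⟩ := h
  have hc := hp.1
  have key := hasFDerivAt_integral_of_dominated_of_fderiv_le (𝕜 := ℝ) (μ := volume.restrict S)
    (F := fun (z : E N) (η : E N) => p η * Real.exp (-(z ⬝ᵥ η)))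
    (F' := fun (z : E N) (η : E N) => ∑ i, (-(η i * p η * Real.exp (-(z ⬝ᵥ η)))) •
      (ContinuousLinearMap.proj i : E N →L[ℝ] ℝ))
    (bound := fun η => (∑ i, |η i * p η|) * Real.exp (-(y ⬝ᵥ η) + δ / 2 * ‖η‖))
    (near_A5a y (half_pos hδ))
    (.of_forall fun z => Continuous.aestronglyMeasurable (by fun_prop)) h0
    (Continuous.aestronglyMeasurable (by fun_prop))
    (.of_forall fun η z hz => by
      rw [Finset.sum_mul]
      refine (norm_sum_le _ _).trans (Finset.sum_le_sum fun i _ => ?_)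
      have h1 : ‖(ContinuousLinearMap.proj i : E N →L[ℝ] ℝ)‖ ≤ 1 :=
        ContinuousLinearMap.opNorm_le_bound _ zero_le_one fun w => by
          simpa using norm_le_pi_norm w i
      rw [norm_smul, norm_neg, Real.norm_eq_abs, abs_mul, Real.abs_exp]
      refine (mul_le_of_le_one_right (by positivity) h1).trans ?_
      exact mul_le_mul_of_nonneg_left (Real.exp_le_exp.2 (hz η)) (abs_nonneg _))
    (int_A5a (half_lt_self hδ) hI
      (polyW_sum_A5a _ fun i => ((polyW_coord_A5a i).mul hp).abs))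
    (.of_forall fun η z _ => by
      have h1 : HasFDerivAt (fun w : E N => w ⬝ᵥ η)
          (∑ i, η i • (ContinuousLinearMap.proj i : E N →L[ℝ] ℝ)) z := by
        have h2 := (∑ i, η i • (ContinuousLinearMap.proj i : E N →L[ℝ] ℝ)).hasFDerivAt (x := z)
        refine h2.congr_of_eventuallyEq (.of_forall fun w => ?_)
        simp [dotProduct, mul_comm]
      refine (h1.neg.exp.const_mul (p η)).congr_fderiv ?_
      ext w
      simp [Finset.mul_sum, mul_comm]
      exact Finset.sum_congr rfl fun i _ => by ring)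
  refine key.congr_fderiv ?_
  refine (integral_finsetSum _ fun i _ => (hi i).neg.smul_const _).trans ?_
  refine Finset.sum_congr rfl fun i _ => ?_
  simp only [Pi.neg_apply]
  rw [integral_smul_const, integral_neg]
  rfl

theorem dd_LapW (hS : MeasurableSet S) (h : Room S y) (hp : PolyW p) (v : E N) :
    DifferentiableAt ℝ (LapW S p) y ∧
      dd v (LapW S p) y = -LapW S (fun η => (v ⬝ᵥ η) * p η) y := by
  have h1 := hasFDerivAt_LapW_A5a hS h hp
  refine ⟨h1.differentiableAt, ?_⟩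
  have e : LapW S (fun η => (v ⬝ᵥ η) * p η) y = ∑ i, v i * LapW S (fun η => η i * p η) y := by
    simp only [LapW, ← integral_const_mul]
    rw [← integral_finsetSum _ fun i _ =>
      (h.integrableOn hS ((polyW_coord_A5a i).mul hp)).const_mul (v i)]
    refine integral_congr_ae (.of_forall fun η => ?_)
    simp only [dotProduct, Finset.sum_mul, mul_assoc]
  rw [dd, h1.fderiv, e]
  simp [mul_comm]

theorem zero_A5a (hS : MeasurableSet S) (h : Room S y) (hp : PolyW p) :
    ContDiffAt ℝ 0 (LapW S p) y :=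
  contDiffAt_zero.2 ⟨_, h.eventually hS, fun _ hz =>
    (hasFDerivAt_LapW_A5a hS hz hp).continuousAt.continuousWithinAt⟩

theorem contDiffAt_LapW (hS : MeasurableSet S) (h : Room S y) (hp : PolyW p) (k : ℕ) :
    ContDiffAt ℝ k (LapW S p) y := by
  induction k generalizing p with
  | zero => exact zero_A5a hS h hp
  | succ k ih =>
    refine contDiffAt_succ_iff_hasFDerivAt.2 ⟨fun z => ∑ i, (-LapW S (fun η => η i * p η) z) •
      (ContinuousLinearMap.proj i : E N →L[ℝ] ℝ), ⟨_, h.eventually hS, fun z hz =>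
        hasFDerivAt_LapW_A5a hS hz hp⟩, ?_⟩
    exact ContDiffAt.sum fun i _ => (ih ((polyW_coord_A5a i).mul hp)).neg.smul contDiffAt_const

theorem Phi_pos (hS : MeasurableSet S) (h : Room S y) (hi : (interior S).Nonempty) :
    0 < Phi S y := by
  refine (setIntegral_pos_iff_support_of_nonneg_ae (.of_forall fun η => by positivity)
    (h.integrableOn hS (polyW_const 1))).2 ?_
  refine (Measure.measure_pos_of_nonempty_interior volume hi).trans_le
    (measure_mono fun η hη => ⟨?_, hη⟩)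
  simp

theorem contDiffAt_Ey (hS : MeasurableSet S) (h : Room S y) (hi : (interior S).Nonempty)
    (hp : PolyW p) (k : ℕ) : ContDiffAt ℝ k (Ey S p) y :=
  (contDiffAt_LapW hS h hp k).div (contDiffAt_LapW hS h (polyW_const 1) k) (Phi_pos hS h hi).ne'

theorem dd_Phi_A5a (hS : MeasurableSet S) (h : Room S y) (v : E N) :
    DifferentiableAt ℝ (Phi S) y ∧ dd v (Phi S) y = -LapW S (fun η => v ⬝ᵥ η) y := by
  have h1 := dd_LapW hS h (polyW_const 1) v
  simp only [mul_one] at h1
  exact h1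

theorem dd_Ey (hS : MeasurableSet S) (h : Room S y) (hi : (interior S).Nonempty)
    (hp : PolyW p) (v : E N) : dd v (Ey S p) y
      = -Ey S (fun η => (v ⬝ᵥ η) * p η) y + Ey S (fun η => v ⬝ᵥ η) y * Ey S p y := by
  have h0 := (Phi_pos hS h hi).ne'
  have h1 := dd_LapW hS h hp v
  have h2 := dd_Phi_A5a hS h v
  have h3 := dd_comp (u := Phi S) (x := y) (hasDerivAt_inv h0) h2.1 v
  have h4 := dd_mul (w := fun z => (Phi S z)⁻¹) h1.1 (h2.1.inv h0) v
  have e : Ey S p = fun z => LapW S p z * (Phi S z)⁻¹ := funext fun z => div_eq_mul_inv _ _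
  rw [e, h4, h3, h1.2, h2.2]
  simp only [Ey]
  field_simp

theorem dd_logPhi (hS : MeasurableSet S) (h : Room S y) (hi : (interior S).Nonempty) (v : E N) :
    dd v (fun z => Real.log (Phi S z)) y = -Ey S (fun η => v ⬝ᵥ η) y := by
  have h0 := (Phi_pos hS h hi).ne'
  have h2 := dd_Phi_A5a hS h v
  rw [dd_comp (u := Phi S) (x := y) (Real.hasDerivAt_log h0) h2.1 v, h2.2, Ey]
  field_simp

theorem Ey_const (hS : MeasurableSet S) (h : Room S y) (hi : (interior S).Nonempty) (c : ℝ) :
    Ey S (fun _ => c) y = c := by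
  have e : LapW S (fun _ => c) y = c * Phi S y := by
    simp only [Phi, LapW, one_mul, integral_const_mul]
  rw [Ey, e, mul_div_assoc, div_self (Phi_pos hS h hi).ne', mul_one]

theorem Ey_add (hS : MeasurableSet S) (h : Room S y) (hp : PolyW p) (hq : PolyW q) :
    Ey S (fun η => p η + q η) y = Ey S p y + Ey S q y := by
  simp only [Ey, LapW, add_mul]
  rw [integral_add (h.integrableOn hS hp) (h.integrableOn hS hq), add_div]

theorem Ey_sub (hS : MeasurableSet S) (h : Room S y) (hp : PolyW p) (hq : PolyW q) :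
    Ey S (fun η => p η - q η) y = Ey S p y - Ey S q y := by
  simp only [Ey, LapW, sub_mul]
  rw [integral_sub (h.integrableOn hS hp) (h.integrableOn hS hq), sub_div]

theorem Ey_const_mul (S : Set (E N)) (p : E N → ℝ) (y : E N) (c : ℝ) :
    Ey S (fun η => c * p η) y = c * Ey S p y := by
  simp only [Ey, LapW, mul_assoc, integral_const_mul, mul_div_assoc]

theorem Ey_mono (hS : MeasurableSet S) (h : Room S y) (hp : PolyW p) (hq : PolyW q)
    (hle : ∀ η ∈ S, p η ≤ q η) : Ey S p y ≤ Ey S q y :=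
  div_le_div_of_nonneg_right (setIntegral_mono_on (h.integrableOn hS hp) (h.integrableOn hS hq) hS
    fun η hη => mul_le_mul_of_nonneg_right (hle η hη) (Real.exp_nonneg _))
    (integral_nonneg fun _ => by positivity)

theorem Ey_cs (hS : MeasurableSet S) (h : Room S y) (hp : PolyW p) (hq : PolyW q) :
    (Ey S (fun η => p η * q η) y) ^ 2
      ≤ Ey S (fun η => p η ^ 2) y * Ey S (fun η => q η ^ 2) y := by
  have key : ∀ t : ℝ, 0 ≤ Ey S (fun η => p η ^ 2) y * (t * t) +
      2 * Ey S (fun η => p η * q η) y * t + Ey S (fun η => q η ^ 2) y := fun t => by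
    have h1 := Ey_mono hS h (polyW_const 0) ((((polyW_const t).mul hp).add hq).pow 2)
      fun η _ => sq_nonneg _
    have e0 : Ey S (fun _ => 0) y = 0 := by simp [Ey, LapW]
    have e1 : (fun η => (t * p η + q η) ^ 2) =
        fun η => t * t * p η ^ 2 + 2 * t * (p η * q η) + q η ^ 2 := funext fun η => by ring
    rw [e0, e1, Ey_add hS h (((polyW_const _).mul (hp.pow 2)).add ((polyW_const _).mul (hp.mul hq)))
      (hq.pow 2), Ey_add hS h ((polyW_const _).mul (hp.pow 2)) ((polyW_const _).mul (hp.mul hq)),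
      Ey_const_mul, Ey_const_mul] at h1
    linarith
  have h2 := discrim_le_zero key
  rw [discrim] at h2
  linarith


end Pool.Agent.MP_5f4cdd_gt.CB
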