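import Pool.Agent.MP_5f4cdd_gt.CB.A5a
import Pool.Agent.MP_5f4cdd_gt.CB.A2b

set_option autoImplicit false
open MeasureTheory Matrix Set Filter Topology

namespace Pool.Agent.MP_5f4cdd_gt.CB
variable {N : ℕ} {W : Set (E N)} {b0 y z β : E N}

theorem cont_dot_A5b (v : E N) : Continuous fun η : E N => v ⬝ᵥ η :=
  continuous_const.dotProduct continuous_id

theorem cont_dot_left_A5b (v : E N) : Continuous fun η : E N => η ⬝ᵥ v :=
  continuous_id.dotProduct continuous_const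

theorem neg_le_dot_A5b (v w : E N) : -(N * (‖v‖ * ‖w‖)) ≤ v ⬝ᵥ w :=
  (abs_le.1 (abs_dot_le v w)).1

theorem dot_le_A5b (v w : E N) : v ⬝ᵥ w ≤ N * (‖v‖ * ‖w‖) :=
  (abs_le.1 (abs_dot_le v w)).2

/-- a perturbation smaller than c / (2 (N + 1)) costs at most half of c -/
theorem small_A5b {c a r : ℝ} (hc : 0 < c) (hr : 0 ≤ r) (ha : a < c / (2 * (N + 1))) :
    N * (a * r) ≤ c / 2 * r := by
  have hN : (0 : ℝ) ≤ N := Nat.cast_nonneg N
  have h1 : a * (2 * (N + 1)) < c := (lt_div_iff₀ (by positivity)).1 ha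
  have h2 : N * a ≤ c / 2 := by
    rcases le_total 0 a with h | h
    · nlinarith
    · nlinarith
  rw [← mul_assoc]
  exact mul_le_mul_of_nonneg_right h2 hr

theorem loc_oV_A5b (hy : y ∈ oV W) :
    ∃ c : ℝ, 0 < c ∧ ∀ᶠ z in 𝓝 y, ∀ η ∈ W, c * ‖η‖ ≤ z ⬝ᵥ η := by
  obtain ⟨c, hc, h⟩ := hy
  refine ⟨c / 2, by positivity, ?_⟩
  filter_upwards [Metric.ball_mem_nhds y (show 0 < c / (2 * (N + 1)) by positivity)] with z hz
  intro η hη
  rw [Metric.mem_ball, dist_eq_norm] at hz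
  have e : z ⬝ᵥ η = y ⬝ᵥ η + (z - y) ⬝ᵥ η := by
    rw [sub_dotProduct]
    ring
  have h1 := neg_le_dot_A5b (z - y) η
  have h2 := small_A5b (N := N) hc (norm_nonneg η) hz
  have h3 := h η hη
  linarith

theorem isOpen_oV (W : Set (E N)) : IsOpen (oV W) := by
  refine isOpen_iff_mem_nhds.2 fun y hy => ?_
  obtain ⟨c, hc, h⟩ := loc_oV_A5b hy
  filter_upwards [h] with z hz
  exact ⟨c, hc, hz⟩
theorem convex_oV (W : Set (E N)) : Convex ℝ (oV W) := by
  rintro y ⟨c, hc, h⟩ z ⟨c', hc', h'⟩ a b ha hb hab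
  refine ⟨min c c', lt_min hc hc', fun η hη => ?_⟩
  rw [add_dotProduct, smul_dotProduct, smul_dotProduct, smul_eq_mul, smul_eq_mul]
  have h1 : min c c' * ‖η‖ ≤ y ⬝ᵥ η :=
    (mul_le_mul_of_nonneg_right (min_le_left _ _) (norm_nonneg _)).trans (h η hη)
  have h2 : min c c' * ‖η‖ ≤ z ⬝ᵥ η :=
    (mul_le_mul_of_nonneg_right (min_le_right _ _) (norm_nonneg _)).trans (h' η hη)
  have h3 := mul_le_mul_of_nonneg_left h1 ha
  have h4 := mul_le_mul_of_nonneg_left h2 hb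
  have e : min c c' * ‖η‖ = a * (min c c' * ‖η‖) + b * (min c c' * ‖η‖) := by
    rw [← add_mul, hab, one_mul]
  linarith
theorem isClosed_cV (W : Set (E N)) : IsClosed (cV W) := by
  have e : cV W = ⋂ ζ ∈ W, {v : E N | 0 ≤ v ⬝ᵥ ζ} := by
    ext v
    simp [cV]
  rw [e]
  exact isClosed_biInter fun ζ _ => isClosed_le continuous_const (cont_dot_left_A5b ζ)
theorem oV_subset_cV (W : Set (E N)) : oV W ⊆ cV W := by
  rintro y ⟨c, hc, h⟩ η hη
  exact (by positivity : 0 ≤ c * ‖η‖).trans (h η hη)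
theorem oV_add (hy : y ∈ oV W) (hz : z ∈ cV W) : y + z ∈ oV W := by
  obtain ⟨c, hc, h⟩ := hy
  refine ⟨c, hc, fun η hη => ?_⟩
  rw [add_dotProduct]
  linarith [h η hη, hz η hη]
theorem oV_smul (hy : y ∈ oV W) {t : ℝ} (ht : 0 < t) : t • y ∈ oV W := by
  obtain ⟨c, hc, h⟩ := hy
  refine ⟨t * c, by positivity, fun η hη => ?_⟩
  rw [smul_dotProduct, smul_eq_mul, mul_assoc]
  exact mul_le_mul_of_nonneg_left (h η hη) ht.le
theorem cV_smul (hy : y ∈ cV W) {t : ℝ} (ht : 0 ≤ t) : t • y ∈ cV W := by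
  intro η hη
  rw [smul_dotProduct, smul_eq_mul]
  exact mul_nonneg ht (hy η hη)
theorem cV_add (hy : y ∈ cV W) (hz : z ∈ cV W) : y + z ∈ cV W := by
  intro η hη
  rw [add_dotProduct]
  exact add_nonneg (hy η hη) (hz η hη)
theorem PC.b0_mem (h : PC W b0) : b0 ∈ oV W :=
  ⟨1, one_pos, fun η hη => by rw [one_mul]; exact h.pointed η hη⟩
theorem PC.add (h : PC W b0) {η ζ : E N} (hη : η ∈ W) (hζ : ζ ∈ W) : η + ζ ∈ W :=
  h.bidual _ fun v hv => by rw [dotProduct_add]; exact add_nonneg (hv η hη) (hv ζ hζ)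
theorem PC.zero_mem (h : PC W b0) : (0 : E N) ∈ W :=
  h.bidual _ fun v _ => by rw [dotProduct_zero]

theorem iW_of_int_A5b (hβ : β ∈ interior W) : β ∈ iW W := by
  refine ⟨interior_subset hβ, ?_⟩
  obtain ⟨r, hr, hb⟩ := Metric.mem_nhds_iff.1 (mem_interior_iff_mem_nhds.1 hβ)
  refine ⟨r / 2, by positivity, fun y hy => ?_⟩
  rcases eq_or_ne y 0 with rfl | h0
  · simp
  have hn : 0 < ‖y‖ := norm_pos_iff.2 h0
  have hm : β - (r / 2 / ‖y‖) • y ∈ W := by
    refine hb ?_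
    rw [Metric.mem_ball, dist_eq_norm, sub_sub_cancel_left, norm_neg, norm_smul,
      Real.norm_of_nonneg (by positivity), div_mul_cancel₀ _ hn.ne']
    linarith
  have h1 := hy _ hm
  rw [dotProduct_sub, dotProduct_smul, smul_eq_mul, dotProduct_comm y β] at h1
  have h2 : r / 2 / ‖y‖ * ‖y‖ ^ 2 ≤ r / 2 / ‖y‖ * (y ⬝ᵥ y) :=
    mul_le_mul_of_nonneg_left (norm_sq_le_dot y) (by positivity)
  have e : r / 2 / ‖y‖ * ‖y‖ ^ 2 = r / 2 * ‖y‖ := by field_simp
  linarith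

theorem int_of_iW_A5b (h : PC W b0) (hβ : β ∈ iW W) : β ∈ interior W := by
  obtain ⟨-, c, hc, hb⟩ := hβ
  refine mem_interior_iff_mem_nhds.2 ?_
  filter_upwards [Metric.ball_mem_nhds β (show 0 < c / (2 * (N + 1)) by positivity)] with η hη
  rw [Metric.mem_ball, dist_eq_norm] at hη
  refine h.bidual η fun v hv => ?_
  have e : v ⬝ᵥ η = β ⬝ᵥ v + (η - β) ⬝ᵥ v := by
    rw [sub_dotProduct, dotProduct_comm v η]
    ring
  have h1 := neg_le_dot_A5b (η - β) v
  have h2 := small_A5b (N := N) hc (norm_nonneg v) hη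
  have h3 := hb v hv
  have h4 : 0 ≤ c / 2 * ‖v‖ := by positivity
  linarith

theorem PC.exists_iW (h : PC W b0) : (iW W).Nonempty :=
  h.int.mono fun _ hβ => iW_of_int_A5b hβ
theorem iW_add (h : PC W b0) (hβ : β ∈ iW W) {γ : E N} (hγ : γ ∈ W) : β + γ ∈ iW W := by
  obtain ⟨h1, c, hc, hb⟩ := hβ
  refine ⟨h.add h1 hγ, c, hc, fun y hy => ?_⟩
  rw [add_dotProduct, dotProduct_comm γ y]
  linarith [hb y hy, hy γ hγ]
theorem iW_smul (h : PC W b0) (hβ : β ∈ iW W) {t : ℝ} (ht : 0 < t) : t • β ∈ iW W := by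
  obtain ⟨h1, c, hc, hb⟩ := hβ
  refine ⟨h.smul β h1 t ht.le, t * c, by positivity, fun y hy => ?_⟩
  rw [smul_dotProduct, smul_eq_mul, mul_assoc]
  exact mul_le_mul_of_nonneg_left (hb y hy) ht.le

theorem int_exp_A5b {a : ℝ} (ha : 0 < a) :
    Integrable (fun η : E N => Real.exp (-(a * ‖η‖))) := by
  have h1 : Integrable (fun η : E N => (1 + ‖η‖) ^ (-((N + 1 : ℕ) : ℝ))) := by
    refine integrable_one_add_norm ?_
    simp
  refine (h1.const_mul (Real.exp a * (N + 1).factorial / a ^ (N + 1))).mono'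
    (by fun_prop : Continuous fun η : E N => Real.exp (-(a * ‖η‖))).aestronglyMeasurable
    (Eventually.of_forall fun η => ?_)
  have p1 : 0 < 1 + ‖η‖ := by positivity
  have h2 := Real.pow_div_factorial_le_exp (a * (1 + ‖η‖)) (by positivity) (N + 1)
  rw [Real.norm_of_nonneg (Real.exp_pos _).le, Real.rpow_neg p1.le, Real.rpow_natCast,
    Real.exp_neg, ← div_eq_mul_inv, div_div, ← mul_pow, ← one_div,
    div_le_div_iff₀ (Real.exp_pos _) (by positivity)]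
  rw [div_le_iff₀ (by positivity), mul_add, mul_one, Real.exp_add] at h2
  rw [mul_add, mul_one]
  linarith

theorem intOn_exp_A5b {S : Set (E N)} (hS : MeasurableSet S) {f : E N → ℝ} (hf : Continuous f)
    {a : ℝ} (ha : 0 < a) (h : ∀ η ∈ S, f η ≤ -(a * ‖η‖)) :
    IntegrableOn (fun η => Real.exp (f η)) S := by
  refine Integrable.mono' (int_exp_A5b ha).integrableOn
    (Real.continuous_exp.comp hf).aestronglyMeasurable ?_
  refine (ae_restrict_iff' hS).2 (Eventually.of_forall fun η hη => ?_)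
  rw [Real.norm_of_nonneg (Real.exp_pos _).le]
  exact Real.exp_le_exp.2 (h η hη)

theorem PC.room (h : PC W b0) (hy : y ∈ oV W) : Room W y := by
  obtain ⟨c, hc, hy⟩ := hy
  refine ⟨c / 2, by positivity, intOn_exp_A5b h.closed.measurableSet
    ((cont_dot_A5b y).neg.add (continuous_const.mul continuous_norm))
    (show 0 < c / 2 by positivity) fun η hη => ?_⟩
  linarith [hy η hη]
theorem PC.Phi_pos (h : PC W b0) (hy : y ∈ oV W) : 0 < Phi W y :=
  CB.Phi_pos h.closed.measurableSet (h.room hy) h.int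
theorem PC.Phi_anti (h : PC W b0) (hy : y ∈ oV W) (hz : z ∈ cV W) : Phi W (y + z) ≤ Phi W y := by
  have hm := h.closed.measurableSet
  refine setIntegral_mono_on ((h.room (oV_add hy hz)).integrableOn hm (polyW_const 1))
    ((h.room hy).integrableOn hm (polyW_const 1)) hm fun η hη => ?_
  rw [one_mul, one_mul, add_dotProduct]
  exact Real.exp_le_exp.2 (by linarith [hz η hη])

theorem smul_iff_A5b (h : PC W b0) (η : E N) {t : ℝ} (ht : 0 < t) : t • η ∈ W ↔ η ∈ W := by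
  refine ⟨fun h1 => ?_, fun h1 => h.smul η h1 t ht.le⟩
  have := h.smul _ h1 t⁻¹ (inv_nonneg.2 ht.le)
  rwa [smul_smul, inv_mul_cancel₀ ht.ne', one_smul] at this

theorem PC.Phi_smul (h : PC W b0) (y : E N) {t : ℝ} (ht : 0 < t) :
    Phi W (t • y) = (t ^ N)⁻¹ * Phi W y := by
  have hm := h.closed.measurableSet
  have h1 := Measure.integral_comp_smul (volume : Measure (E N))
    (W.indicator fun η => 1 * Real.exp (-(y ⬝ᵥ η))) t
  rw [Module.finrank_fin_fun, abs_of_pos (by positivity), smul_eq_mul,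
    integral_indicator hm] at h1
  rw [Phi, Phi, LapW, LapW, ← h1, ← integral_indicator hm]
  congr 1
  funext η
  by_cases h2 : η ∈ W
  · rw [indicator_of_mem h2, indicator_of_mem ((smul_iff_A5b h η ht).2 h2), smul_dotProduct,
      dotProduct_smul]
  · rw [indicator_of_notMem h2, indicator_of_notMem fun h3 => h2 ((smul_iff_A5b h η ht).1 h3)]
theorem lintegral_cone_smul {C : Set (E N)} (hC : ∀ η, ∀ t : ℝ, 0 < t → (t • η ∈ C ↔ η ∈ C))
    (hm : MeasurableSet C) (y : E N) {t : ℝ} (ht : 0 < t) :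
    ∫⁻ η in C, ENNReal.ofReal (Real.exp (-((t • y) ⬝ᵥ η)))
      = ENNReal.ofReal (t ^ N)⁻¹ * ∫⁻ η in C, ENNReal.ofReal (Real.exp (-(y ⬝ᵥ η))) := by
  have hf : Measurable (C.indicator fun η : E N => ENNReal.ofReal (Real.exp (-(y ⬝ᵥ η)))) :=
    (ENNReal.measurable_ofReal.comp
      (Real.continuous_exp.comp (cont_dot_A5b y).neg).measurable).indicator hm
  have h1 := lintegral_map (μ := (volume : Measure (E N))) hf (measurable_const_smul t)
  rw [Measure.map_addHaar_smul _ ht.ne', Module.finrank_fin_fun, abs_of_pos (by positivity),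
    lintegral_smul_measure, smul_eq_mul, lintegral_indicator hm] at h1
  rw [h1, ← lintegral_indicator hm]
  congr 1
  funext η
  by_cases h2 : η ∈ C
  · rw [indicator_of_mem h2, indicator_of_mem ((hC η t ht).2 h2), smul_dotProduct,
      dotProduct_smul]
  · rw [indicator_of_notMem h2, indicator_of_notMem fun h3 => h2 ((hC η t ht).1 h3)]
theorem integrableOn_exp_iW (hβ : β ∈ iW W) :
    IntegrableOn (fun y => Real.exp (-(β ⬝ᵥ y))) (oV W) := by
  obtain ⟨-, c, hc, hb⟩ := hβ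
  exact intOn_exp_A5b (isOpen_oV W).measurableSet (cont_dot_A5b β).neg hc fun y hy =>
    neg_le_neg (hb y (oV_subset_cV W hy))

theorem dom_A5b {C c a r s u : ℝ} (hc : 0 < c) (hr : 0 ≤ r) (hC : N * a / c ≤ C)
    (h1 : c * r ≤ s) (h2 : u ≤ N * (a * r)) (ha : 0 ≤ a) : 0 ≤ C * s - u := by
  have h3 : 0 ≤ N * a / c := by positivity
  have h4 : N * a / c * (c * r) ≤ C * s := mul_le_mul hC h1 (by positivity) (h3.trans hC)
  have e : N * a / c * (c * r) = N * (a * r) := by field_simp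
  linarith

theorem exists_dom (h : PC W b0) {b1 b2 β1 β2 : E N} (hb1 : b1 ∈ oV W) (hβ1 : β1 ∈ iW W) :
    ∃ C : ℝ, 0 < C ∧ C • b1 - b2 ∈ cV W ∧ C • β1 - β2 ∈ W := by
  obtain ⟨c, hc, hb⟩ := hb1
  obtain ⟨-, c', hc', hb'⟩ := hβ1
  have p1 : 0 ≤ N * ‖b2‖ / c := by positivity
  have p2 : 0 ≤ N * ‖β2‖ / c' := by positivity
  refine ⟨N * ‖b2‖ / c + N * ‖β2‖ / c' + 1, by positivity, fun η hη => ?_,
    h.bidual _ fun v hv => ?_⟩
  · rw [sub_dotProduct, smul_dotProduct, smul_eq_mul]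
    exact dom_A5b hc (norm_nonneg η) (by linarith) (hb η hη) (dot_le_A5b b2 η) (norm_nonneg _)
  · rw [dotProduct_comm, sub_dotProduct, smul_dotProduct, smul_eq_mul]
    exact dom_A5b hc' (norm_nonneg v) (by linarith) (hb' v hv) (dot_le_A5b β2 v) (norm_nonneg _)

theorem PC.trunc (h : PC W b0) {c : ℝ} (hc : 0 < c) :
    IsCompact {η | η ∈ W ∧ b0 ⬝ᵥ η ≤ c} ∧ Convex ℝ {η | η ∈ W ∧ b0 ⬝ᵥ η ≤ c} ∧
      (interior {η | η ∈ W ∧ b0 ⬝ᵥ η ≤ c}).Nonempty := by
  refine ⟨Metric.isCompact_of_isClosed_isBounded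
    (h.closed.inter (isClosed_le (cont_dot_A5b b0) continuous_const))
    (isBounded_iff_forall_norm_le.2 ⟨c, fun η hη => (h.pointed η hη.1).trans hη.2⟩), ?_, ?_⟩
  · intro η hη ζ hζ a b ha hb hab
    refine ⟨h.convex hη.1 hζ.1 ha hb hab, ?_⟩
    rw [dotProduct_add, dotProduct_smul, dotProduct_smul, smul_eq_mul, smul_eq_mul]
    have h1 := mul_le_mul_of_nonneg_left hη.2 ha
    have h2 := mul_le_mul_of_nonneg_left hζ.2 hb
    have e : a * c + b * c = c := by rw [← add_mul, hab, one_mul]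
    linarith
  · obtain ⟨β, hβ⟩ := h.exists_iW
    have p0 : 0 ≤ b0 ⬝ᵥ β := (norm_nonneg β).trans (h.pointed β hβ.1)
    have ht : 0 < c / (b0 ⬝ᵥ β + 1) := by positivity
    have h1 := mem_interior_iff_mem_nhds.1 (int_of_iW_A5b h (iW_smul h hβ ht))
    have h2 : b0 ⬝ᵥ (c / (b0 ⬝ᵥ β + 1)) • β < c := by
      rw [dotProduct_smul, smul_eq_mul, div_mul_eq_mul_div, div_lt_iff₀ (by positivity)]
      nlinarith
    refine ⟨(c / (b0 ⬝ᵥ β + 1)) • β, mem_interior_iff_mem_nhds.2 ?_⟩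
    filter_upwards [h1, (cont_dot_A5b b0).continuousAt.eventually (gt_mem_nhds h2)] with η e1 e2
    exact ⟨e1, e2.le⟩

/-- translation by a unit vector of the cone leaves out the tip of the cone -/
theorem tip_A5b (h : PC W b0) (hy : y ∈ oV W) {η0 : E N} (h0 : η0 ∈ W) (h1 : ‖η0‖ = 1) :
    Real.exp (-(N * ‖y‖)) * volume.real {η | η ∈ W ∧ b0 ⬝ᵥ η ≤ 1 / 2} ≤
      (y ⬝ᵥ η0) * Phi W y := by
  have hm := h.closed.measurableSet
  have hI := (h.room hy).integrableOn hm (polyW_const 1)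
  have hT := (h.trunc (c := 1 / 2) (by norm_num)).1
  have hm' : MeasurableSet {η : E N | η - η0 ∈ W} := measurable_sub_const η0 hm
  have s1 : {η : E N | η - η0 ∈ W} ⊆ W := fun η hη => by
    have := h.add hη h0
    rwa [sub_add_cancel] at this
  have s2 : {η | η ∈ W ∧ b0 ⬝ᵥ η ≤ 1 / 2} ⊆ W := fun η hη => hη.1
  have hd : Disjoint {η : E N | η - η0 ∈ W} {η | η ∈ W ∧ b0 ⬝ᵥ η ≤ 1 / 2} := by
    refine disjoint_left.2 fun η e1 e2 => ?_
    have a1 := h.pointed _ e1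
    have a2 := h.pointed _ h0
    rw [dotProduct_sub] at a1
    linarith [norm_nonneg (η - η0), e2.2]
  have i1 := setIntegral_union hd hT.measurableSet (hI.mono_set s1) (hI.mono_set s2)
  have i2 := setIntegral_mono_set hI (Eventually.of_forall fun η => by positivity)
    (union_subset s1 s2).eventuallyLE
  have i3 : Real.exp (-(N * ‖y‖)) * volume.real {η | η ∈ W ∧ b0 ⬝ᵥ η ≤ 1 / 2} ≤
      ∫ η in {η | η ∈ W ∧ b0 ⬝ᵥ η ≤ 1 / 2}, 1 * Real.exp (-(y ⬝ᵥ η)) := by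
    refine setIntegral_ge_of_const_le_real hT.measurableSet hT.measure_lt_top.ne
      (fun η hη => ?_) (hI.mono_set s2)
    rw [one_mul]
    refine Real.exp_le_exp.2 (neg_le_neg ((dot_le_A5b y η).trans ?_))
    have : ‖η‖ ≤ 1 := by linarith [h.pointed η hη.1, hη.2]
    have : ‖y‖ * ‖η‖ ≤ ‖y‖ := mul_le_of_le_one_right (norm_nonneg _) this
    exact mul_le_mul_of_nonneg_left this (Nat.cast_nonneg N)
  have i4 : ∫ η in {η : E N | η - η0 ∈ W}, 1 * Real.exp (-(y ⬝ᵥ η)) =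
      Real.exp (-(y ⬝ᵥ η0)) * Phi W y := by
    rw [Phi, LapW, ← integral_const_mul, ← integral_indicator hm, ← integral_indicator hm',
      ← integral_add_right_eq_self _ η0]
    congr 1
    funext η
    by_cases h2 : η ∈ W
    · rw [indicator_of_mem h2, indicator_of_mem (by simpa using h2), dotProduct_add, neg_add,
        Real.exp_add]
      ring
    · rw [indicator_of_notMem h2, indicator_of_notMem (by simpa using h2)]
  have i5 : ∫ η in W, 1 * Real.exp (-(y ⬝ᵥ η)) = Phi W y := rfl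
  have i6 := mul_le_mul_of_nonneg_right (Real.add_one_le_exp (-(y ⬝ᵥ η0))) (h.Phi_pos hy).le
  linarith

theorem PC.contDiffAt_rho (h : PC W b0) (hβ : β ∈ iW W) (hy : y ∈ oV W) (k : ℕ) :
    ContDiffAt ℝ k (rho W β) y := by
  obtain ⟨-, c, hc, hb⟩ := hβ
  have h1 : ContDiff ℝ k fun y : E N => β ⬝ᵥ y := by
    unfold dotProduct
    fun_prop
  have h2 := contDiffAt_LapW h.closed.measurableSet (h.room hy) (polyW_const 1) k
  have h3 : 0 ≤ β ⬝ᵥ y := (by positivity : 0 ≤ c * ‖y‖).trans (hb y (oV_subset_cV W hy))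
  exact (h1.contDiffAt.add h2).log (add_pos_of_nonneg_of_pos h3 (h.Phi_pos hy)).ne'

/-- sublevel sets of rho are compact subsets of the open cone -/
theorem PC.rho_compact (h : PC W b0) (hN : 0 < N) (hβ : β ∈ iW W) (R : ℝ) :
    IsCompact {y | y ∈ oV W ∧ rho W β y ≤ R} := by
  obtain ⟨hβ1, c, hc, hb⟩ := hβ
  obtain ⟨hT, -, hT'⟩ := h.trunc (c := 1 / 2) (by norm_num)
  have v0 : 0 < volume.real {η | η ∈ W ∧ b0 ⬝ᵥ η ≤ 1 / 2} :=
    ENNReal.toReal_pos (Measure.measure_pos_of_nonempty_interior _ hT').ne' hT.measure_lt_top.ne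
  obtain ⟨v, hv⟩ : ∃ v, v = volume.real {η | η ∈ W ∧ b0 ⬝ᵥ η ≤ 1 / 2} := ⟨_, rfl⟩
  rw [← hv] at v0
  obtain ⟨a, ha⟩ : ∃ a, a = Real.exp (-(N * (Real.exp R / c))) * v / Real.exp R := ⟨_, rfl⟩
  have a0 : 0 < a := by
    rw [ha]
    positivity
  obtain ⟨K, hK⟩ : ∃ K : Set (E N), K = Metric.closedBall 0 (Real.exp R / c) ∩
    ⋂ η ∈ W, {y : E N | a * ‖η‖ ≤ y ⬝ᵥ η} := ⟨_, rfl⟩
  have k1 : IsCompact K := by
    rw [hK]
    exact (isCompact_closedBall _ _).inter_right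
      (isClosed_biInter fun η _ => isClosed_le continuous_const (cont_dot_left_A5b η))
  have k2 : K ⊆ oV W := by
    rw [hK]
    exact fun y hy => ⟨a, a0, fun η hη => mem_iInter₂.1 hy.2 η hη⟩
  have k3 : ∀ y ∈ oV W, rho W β y ≤ R → y ∈ K := by
    intro y hy hr
    have b1 := hb y (oV_subset_cV W hy)
    have b2 : 0 ≤ c * ‖y‖ := by positivity
    have b3 := h.Phi_pos hy
    have b4 : β ⬝ᵥ y + Phi W y ≤ Real.exp R := (Real.log_le_iff_le_exp (by linarith)).1 hr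
    have b5 : ‖y‖ ≤ Real.exp R / c := by
      rw [le_div_iff₀ hc]
      linarith
    rw [hK]
    refine ⟨mem_closedBall_zero_iff.2 b5, mem_iInter₂.2 fun η hη => ?_⟩
    change a * ‖η‖ ≤ y ⬝ᵥ η
    rcases eq_or_ne η 0 with rfl | h0
    · simp
    have hn : 0 < ‖η‖ := norm_pos_iff.2 h0
    have m1 : ‖η‖⁻¹ • η ∈ W := h.smul η hη _ (inv_nonneg.2 hn.le)
    have b6 := tip_A5b h hy m1 (by rw [norm_smul, norm_inv, norm_norm, inv_mul_cancel₀ hn.ne'])
    have b7 := oV_subset_cV W hy _ m1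
    rw [← hv] at b6
    have b8 : Real.exp (-(N * (Real.exp R / c))) * v ≤ Real.exp (-(N * ‖y‖)) * v := by gcongr
    have b9 : (y ⬝ᵥ ‖η‖⁻¹ • η) * Phi W y ≤ (y ⬝ᵥ ‖η‖⁻¹ • η) * Real.exp R :=
      mul_le_mul_of_nonneg_left (by linarith) b7
    have b10 : a ≤ y ⬝ᵥ ‖η‖⁻¹ • η := by
      rw [ha, div_le_iff₀ (Real.exp_pos R)]
      linarith
    rw [dotProduct_smul, smul_eq_mul, ← div_eq_inv_mul, le_div_iff₀ hn] at b10
    exact b10
  have e : {y | y ∈ oV W ∧ rho W β y ≤ R} = K ∩ rho W β ⁻¹' Iic R := by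
    ext y
    exact ⟨fun hy => ⟨k3 y hy.1 hy.2, hy.2⟩, fun hy => ⟨k2 hy.1, hy.2⟩⟩
  rw [e]
  have hc' : ContinuousOn (rho W β) K := fun y hy =>
    (h.contDiffAt_rho ⟨hβ1, c, hc, hb⟩ (k2 hy) 0).continuousAt.continuousWithinAt
  exact k1.of_isClosed_subset (hc'.preimage_isClosed_of_isClosed k1.isClosed isClosed_Iic)
    inter_subset_left
theorem PC.exh (h : PC W b0) (hN : 0 < N) (hβ : β ∈ iW W) (R : ℝ) :
    Exh {y | y ∈ oV W ∧ rho W β y ≤ R} (rho W β) R := by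
  refine ⟨h.rho_compact hN hβ R, fun y hy => hy.2, fun y hy hr => ?_⟩
  filter_upwards [(isOpen_oV W).mem_nhds hy.1,
    (h.contDiffAt_rho hβ hy.1 0).continuousAt.eventually (gt_mem_nhds hr)] with z e1 e2
  exact ⟨e1, e2.le⟩

theorem polyW_apply_A5b (i : Fin N) : PolyW (fun η : E N => η i) := by
  have := polyW_dot (Pi.single i (1 : ℝ) : E N)
  simpa using this

theorem Ey_sum_A5b {ι : Type} {S : Set (E N)} (hS : MeasurableSet S) (h : Room S y)
    (s : Finset ι) (p : ι → E N → ℝ) (hp : ∀ i, PolyW (p i)) :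
    PolyW (fun η => ∑ i ∈ s, p i η) ∧
      Ey S (fun η => ∑ i ∈ s, p i η) y = ∑ i ∈ s, Ey S (p i) y := by
  classical
  induction s using Finset.induction_on with
  | empty =>
    refine ⟨by simpa using polyW_const (N := N) 0, ?_⟩
    simp [Ey, LapW]
  | insert a s ha ih =>
    simp only [Finset.sum_insert ha]
    exact ⟨(hp a).add ih.1, by rw [Ey_add hS h (hp a) ih.1, ih.2]⟩

theorem sm_eq_A5b (h : PC W b0) (hy : y ∈ oV W) (v : E N) :
    sm W y v = qf (Matrix.of fun i j => Ey W (fun η => η i * η j) y) v v := by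
  have hm := h.closed.measurableSet
  have hp : ∀ i j : Fin N, PolyW fun η : E N => v i * v j * (η i * η j) := fun i j =>
    (polyW_const _).mul ((polyW_apply_A5b i).mul (polyW_apply_A5b j))
  have e : (fun η : E N => (v ⬝ᵥ η) ^ 2) =
      fun η => ∑ i, ∑ j, v i * v j * (η i * η j) := by
    funext η
    rw [sq, dotProduct, Finset.sum_mul_sum]
    exact Finset.sum_congr rfl fun i _ => Finset.sum_congr rfl fun j _ => by ring
  rw [sm, e, qf_eq_sum, (Ey_sum_A5b hm (h.room hy) _ _ fun i =>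
    (Ey_sum_A5b hm (h.room hy) _ _ (hp i)).1).2]
  refine Finset.sum_congr rfl fun i _ => ?_
  rw [(Ey_sum_A5b hm (h.room hy) _ _ (hp i)).2]
  refine Finset.sum_congr rfl fun j _ => ?_
  rw [Ey_const_mul, Matrix.of_apply]
  ring

theorem sm_pos_A5b (h : PC W b0) (hy : y ∈ oV W) {v : E N} (hv : v ≠ 0) : 0 < sm W y v := by
  have hm := h.closed.measurableSet
  refine div_pos ?_ (h.Phi_pos hy)
  have hI := (h.room hy).integrableOn hm ((polyW_dot v).pow 2)
  refine (setIntegral_pos_iff_support_of_nonneg_ae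
    (Eventually.of_forall fun η => by positivity) hI).2 ?_
  have ho : IsOpen (interior W ∩ {η : E N | v ⬝ᵥ η ≠ 0}) :=
    isOpen_interior.inter (isOpen_ne_fun (cont_dot_A5b v) continuous_const)
  have hne : (interior W ∩ {η : E N | v ⬝ᵥ η ≠ 0}).Nonempty := by
    obtain ⟨β, hβ⟩ := h.int
    by_cases h0 : v ⬝ᵥ β = 0
    · have hc : Continuous fun t : ℝ => β + t • v := by fun_prop
      have h1 : ∀ᶠ t : ℝ in 𝓝 0, β + t • v ∈ interior W :=
        hc.continuousAt.eventually (isOpen_interior.mem_nhds (by simpa using hβ))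
      obtain ⟨t, h2, h3⟩ := ((h1.filter_mono (nhdsWithin_le_nhds (s := {0}ᶜ))).and
        self_mem_nhdsWithin).exists
      refine ⟨_, h2, ?_⟩
      change v ⬝ᵥ (β + t • v) ≠ 0
      rw [dotProduct_add, h0, zero_add, dotProduct_smul, smul_eq_mul]
      exact mul_ne_zero h3 fun h4 => hv (dotProduct_self_eq_zero.1 h4)
    · exact ⟨β, hβ, h0⟩
  refine (ho.measure_pos volume hne).trans_le (measure_mono fun η hη => ⟨?_, interior_subset hη.1⟩)
  exact mul_ne_zero (pow_ne_zero 2 hη.2) (Real.exp_pos _).ne'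

/-- the second moment form is uniformly elliptic on compact subsets -/
theorem PC.sm_compact (h : PC W b0) {K : Set (E N)} (hK : IsCompact K) (hKV : K ⊆ oV W) :
    ∃ c C : ℝ, 0 < c ∧ ∀ y ∈ K, ∀ v, c * (v ⬝ᵥ v) ≤ sm W y v ∧ sm W y v ≤ C * (v ⬝ᵥ v) := by
  have hm := h.closed.measurableSet
  obtain ⟨c, C, hc, hb⟩ := compact_ell hK
    (a := fun y => Matrix.of fun i j => Ey W (fun η => η i * η j) y)
    (continuousOn_pi.2 fun i => continuousOn_pi.2 fun j y hy =>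
      (contDiffAt_Ey hm (h.room (hKV hy)) h.int ((polyW_apply_A5b i).mul (polyW_apply_A5b j))
        0).continuousAt.continuousWithinAt)
    (fun y hy => posDef_of_qf (Matrix.IsSymm.ext fun i j => by simp only [Matrix.of_apply, mul_comm])
      fun v hv => by rw [← sm_eq_A5b h (hKV hy)]; exact sm_pos_A5b h (hKV hy) hv)
  refine ⟨c, C, hc, fun y hy v => ?_⟩
  rw [sm_eq_A5b h (hKV hy)]
  exact hb y hy v
theorem PC.depth_compact (h : PC W b0) {K : Set (E N)} (hK : IsCompact K) (hKV : K ⊆ oV W) :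
    ∃ c : ℝ, 0 < c ∧ ∀ y ∈ K, ∀ η ∈ W, y ⬝ᵥ η ≤ 1 → b0 ⬝ᵥ η ≤ c := by
  have h1 : ∃ c : ℝ, 0 < c ∧ ∀ y ∈ K, ∀ η ∈ W, c * ‖η‖ ≤ y ⬝ᵥ η := by
    refine hK.induction_on (p := fun s => ∃ c : ℝ, 0 < c ∧ ∀ y ∈ s, ∀ η ∈ W, c * ‖η‖ ≤ y ⬝ᵥ η)
      ⟨1, one_pos, fun y hy => absurd hy (notMem_empty y)⟩ ?_ ?_ ?_
    · rintro s t hst ⟨c, hc, hb⟩
      exact ⟨c, hc, fun y hy => hb y (hst hy)⟩
    · rintro s t ⟨c, hc, hb⟩ ⟨c', hc', hb'⟩
      refine ⟨min c c', lt_min hc hc', fun y hy η hη => ?_⟩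
      rcases hy with hy | hy
      · exact (mul_le_mul_of_nonneg_right (min_le_left _ _) (norm_nonneg _)).trans (hb y hy η hη)
      · exact (mul_le_mul_of_nonneg_right (min_le_right _ _) (norm_nonneg _)).trans
          (hb' y hy η hη)
    · intro y hy
      obtain ⟨c, hc, hb⟩ := loc_oV_A5b (hKV hy)
      exact ⟨_, mem_nhdsWithin_of_mem_nhds hb, c, hc, fun z hz => hz⟩
  obtain ⟨c, hc, hb⟩ := h1
  refine ⟨N * (‖b0‖ * (1 / c)) + 1, by positivity, fun y hy η hη h2 => ?_⟩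
  have h3 : ‖η‖ ≤ 1 / c := by
    rw [le_div_iff₀ hc]
    linarith [hb y hy η hη]
  have h4 : (N : ℝ) * (‖b0‖ * ‖η‖) ≤ N * (‖b0‖ * (1 / c)) := by gcongr
  linarith [dot_le_A5b b0 η]

end Pool.Agent.MP_5f4cdd_gt.CB
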