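import Pool.Agent.MP_5f4cdd_gt.CB.If
import Pool.Agent.MP_5f4cdd_gt.CB.A1c
import Pool.Agent.MP_5f4cdd_gt.CB.A2c
import Pool.Agent.MP_5f4cdd_gt.CB.A3b
import Pool.Agent.MP_5f4cdd_gt.CB.A3c
import Pool.Agent.MP_5f4cdd_gt.CB.A4
import Pool.Agent.MP_5f4cdd_gt.CB.A5b
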