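import Mathlib

set_option autoImplicit false
open MeasureTheory Matrix Set Filter Topology

namespace Pool.Agent.MP_5f4cdd_gt.CB

abbrev E (N : ℕ) := Fin N → ℝ
abbrev Mat (N : ℕ) := Matrix (Fin N) (Fin N) ℝ

variable {N : ℕ}

/-- directional derivative -/
noncomputable def dd (v : E N) (u : E N → ℝ) (x : E N) : ℝ := fderiv ℝ u x v
/-- derivative in the coordinate direction i -/
noncomputable def pd (i : Fin N) (u : E N → ℝ) : E N → ℝ := dd (Pi.single i 1) u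
noncomputable def grad (u : E N → ℝ) (x : E N) : E N := fun i => pd i u x
noncomputable def hess (u : E N → ℝ) (x : E N) : Mat N :=
  Matrix.of fun i j => pd i (pd j u) x
/-- third derivative, one slot filled with v -/
noncomputable def d3 (u : E N → ℝ) (x v : E N) : Mat N :=
  Matrix.of fun i j => dd v (pd i (pd j u)) x
/-- fourth derivative, two slots filled -/
noncomputable def d4 (u : E N → ℝ) (x v w : E N) : Mat N :=
  Matrix.of fun i j => dd v (dd w (pd i (pd j u))) x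
/-- fifth derivative, three slots filled -/
noncomputable def d5 (u : E N → ℝ) (x v w z : E N) : Mat N :=
  Matrix.of fun i j => dd v (dd w (dd z (pd i (pd j u)))) x
def qf (A : Mat N) (v w : E N) : ℝ := v ⬝ᵥ (A *ᵥ w)

/-- Hoelder bounds: all derivatives up to order k bounded by M, those of order k are
one-half Hoelder with constant M. -/
def HB : ℕ → ℝ → (E N → ℝ) → Prop
  | 0, M, u => (∀ x, |u x| ≤ M) ∧ ∀ x y, |u x - u y| ≤ M * √‖x - y‖
  | k + 1, M, u => Differentiable ℝ u ∧ (∀ x, |u x| ≤ M) ∧ ∀ i, HB k M (pd i u)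

def HBM (k : ℕ) (M : ℝ) (a : E N → Mat N) : Prop := ∀ i j, HB k M (fun x => a x i j)

def Ell (c : ℝ) (a : E N → Mat N) : Prop :=
  ∀ x, (a x).IsSymm ∧ ∀ v, c * (v ⬝ᵥ v) ≤ qf (a x) v v

noncomputable def op (a : E N → Mat N) (u : E N → ℝ) (x : E N) : ℝ :=
  (a x * hess u x).trace - 2 * u x

noncomputable def ldet (G : E N → ℝ) (x : E N) : ℝ := Real.log (hess G x).det

/-- linearised operator tr (g⁻¹ D² v) -/
noncomputable def Lop (G v : E N → ℝ) (x : E N) : ℝ := ((hess G x)⁻¹ * hess v x).trace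

/-- Calabi quantity tr (g⁻¹ X g⁻¹ X), X = D³G[v] -/
noncomputable def cal (G : E N → ℝ) (x v : E N) : ℝ :=
  ((hess G x)⁻¹ * d3 G x v * (hess G x)⁻¹ * d3 G x v).trace

/-- background potential -/
structure Bg (B ε K : ℝ) (Gt : E N → ℝ) : Prop where
  smooth : ContDiff ℝ 6 Gt
  ell : Ell ε (hess Gt)
  hb : HBM 3 K (hess Gt)
  four : ∀ x v w, |qf (d4 Gt x v v) w w| ≤ B * qf (hess Gt x) v v * qf (hess Gt x) w w
  three : ∀ x v, cal Gt x v ≤ B * qf (hess Gt x) v v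

/-- admissible right-hand side -/
structure Rhs (B K : ℝ) (Gt H : E N → ℝ) : Prop where
  hb : HB 3 K H
  zero : ∀ x, |H x - ldet Gt x| ≤ B
  two : ∀ x v, -(B * qf (hess Gt x) v v) ≤ qf (hess H x) v v

/-- solution of the truncated Monge-Ampere equation on the whole space -/
structure Sol (Gt H u : E N → ℝ) : Prop where
  hb : ∃ M, HB 5 M u
  ell : ∃ c, 0 < c ∧ Ell c (fun x => hess Gt x + hess u x)
  eqn : ∀ x, Real.log (hess Gt x + hess u x).det = 2 * u x + H x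

/-- proper convex cone -/
structure PC (W : Set (E N)) (b0 : E N) : Prop where
  closed : IsClosed W
  convex : Convex ℝ W
  smul : ∀ η ∈ W, ∀ t : ℝ, 0 ≤ t → t • η ∈ W
  int : (interior W).Nonempty
  pointed : ∀ η ∈ W, ‖η‖ ≤ b0 ⬝ᵥ η
  bidual : ∀ η : E N, (∀ v : E N, (∀ ζ ∈ W, 0 ≤ v ⬝ᵥ ζ) → 0 ≤ v ⬝ᵥ η) → η ∈ W

/-- closed dual cone -/
def cV (W : Set (E N)) : Set (E N) := {v | ∀ ζ ∈ W, 0 ≤ v ⬝ᵥ ζ}
/-- open dual cone -/
def oV (W : Set (E N)) : Set (E N) := {y | ∃ c : ℝ, 0 < c ∧ ∀ η ∈ W, c * ‖η‖ ≤ y ⬝ᵥ η}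
/-- strictly interior points of W -/
def iW (W : Set (E N)) : Set (E N) :=
  {β | β ∈ W ∧ ∃ c : ℝ, 0 < c ∧ ∀ y ∈ cV W, c * ‖y‖ ≤ β ⬝ᵥ y}

noncomputable def LapW (S : Set (E N)) (p : E N → ℝ) (y : E N) : ℝ :=
  ∫ η in S, p η * Real.exp (-(y ⬝ᵥ η))
noncomputable def Phi (S : Set (E N)) (y : E N) : ℝ := LapW S (fun _ => 1) y
/-- mean of p under the exponential law on S tilted by y -/
noncomputable def Ey (S : Set (E N)) (p : E N → ℝ) (y : E N) : ℝ := LapW S p y / Phi S y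
/-- second moment form -/
noncomputable def sm (W : Set (E N)) (y v : E N) : ℝ := Ey W (fun η => (v ⬝ᵥ η) ^ 2) y
noncomputable def rho (W : Set (E N)) (β y : E N) : ℝ := Real.log (β ⬝ᵥ y + Phi W y)
/-- regularised universal barrier of a compact set -/
noncomputable def bgF (Q : Set (E N)) (ε : ℝ) (y : E N) : ℝ :=
  Real.log (Phi Q y) + ε / 2 * (y ⬝ᵥ y)
/-- polynomially bounded continuous weight -/
def PolyW (p : E N → ℝ) : Prop :=
  Continuous p ∧ ∃ (C : ℝ) (d : ℕ), ∀ η, |p η| ≤ C * (1 + ‖η‖) ^ d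
/-- exponential integrability with room -/
def Room (S : Set (E N)) (y : E N) : Prop :=
  ∃ δ : ℝ, 0 < δ ∧ IntegrableOn (fun η => Real.exp (-(y ⬝ᵥ η) + δ * ‖η‖)) S
/-- affine normalisation of (S, y) at the base point η0 -/
structure Nrm (S : Set (E N)) (y η0 : E N) (A : Mat N) : Prop where
  det : A.det ≠ 0
  nonneg : ∀ η ∈ S, 0 ≤ y ⬝ᵥ (η - η0)
  inner : ∀ ζ : E N, (∀ i, 0 ≤ ζ i) → ∑ i, ζ i ≤ 1 →
    η0 + A *ᵥ ζ ∈ S ∧ y ⬝ᵥ (A *ᵥ ζ) ≤ 1
  outer : ∀ η ∈ S, ‖A⁻¹ *ᵥ (η - η0)‖ ≤ max 1 (y ⬝ᵥ (η - η0))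

/-- Monge-Ampere equation at a point -/
structure MAat (k : ℕ) (G : E N → ℝ) (y : E N) : Prop where
  smooth : ContDiffAt ℝ k G y
  pos : (hess G y).PosDef
  eqn : ldet G y = 2 * G y

/-- rho has bounded gradient and Hessian for the metric of G at y -/
def RhoB (B : ℝ) (G ρ : E N → ℝ) (y : E N) : Prop :=
  ContDiffAt ℝ 2 ρ y ∧ ∀ v, (dd v ρ y) ^ 2 ≤ B * qf (hess G y) v v ∧
    qf (hess ρ y) v v ≤ B * qf (hess G y) v v

/-- exhaustion piece: compact set on which rho is at most R, interior where rho is below R -/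
structure Exh (K : Set (E N)) (ρ : E N → ℝ) (R : ℝ) : Prop where
  compact : IsCompact K
  le : ∀ y ∈ K, ρ y ≤ R
  nhds : ∀ y ∈ K, ρ y < R → K ∈ 𝓝 y

/-- approximate barrier on the piece rho below R -/
structure Apx (W : Set (E N)) (β : E N) (D B R : ℝ) (G : E N → ℝ) : Prop where
  smooth : ContDiff ℝ 5 G
  ma : ∀ y ∈ oV W, rho W β y < R → MAat 5 G y
  near : ∀ y ∈ oV W, rho W β y < R → |G y - Real.log (Phi W y)| ≤ D
  cmp : ∀ y ∈ oV W, rho W β y < R → ∀ v,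
    sm W y v ≤ B * qf (hess G y) v v ∧ qf (hess G y) v v ≤ B * sm W y v

/-- barrier before homogeneity -/
structure PreBar (W : Set (E N)) (G : E N → ℝ) : Prop where
  ma : ∀ y ∈ oV W, MAat 4 G y
  calabi : ∀ y ∈ oV W, ∀ v, cal G y v ≤ 4 * qf (hess G y) v v
  near : ∃ D, ∀ y ∈ oV W, |G y - Real.log (Phi W y)| ≤ D
  cmp : ∃ B, ∀ y ∈ oV W, ∀ v, sm W y v ≤ B * qf (hess G y) v v

/-- canonical barrier -/
structure Bar (W : Set (E N)) (G : E N → ℝ) : Prop where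
  ma : ∀ y ∈ oV W, MAat 4 G y
  calabi : ∀ y ∈ oV W, ∀ v, cal G y v ≤ 4 * qf (hess G y) v v
  near : ∃ D, ∀ y ∈ oV W, |G y - Real.log (Phi W y)| ≤ D
  hom : ∀ y ∈ oV W, ∀ t : ℝ, 0 < t → G (t • y) = G y - N * Real.log t

noncomputable def eta (G : E N → ℝ) (y : E N) : E N := -grad G y
/-- the potential b.eta + beta.y -/
noncomputable def PP (G : E N → ℝ) (b β y : E N) : ℝ := b ⬝ᵥ eta G y + β ⬝ᵥ y
/-- g(b,b) + g⁻¹(beta,beta) -/
noncomputable def QQ (G : E N → ℝ) (b β y : E N) : ℝ :=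
  qf (hess G y) b b + qf (hess G y)⁻¹ β β
/-- Laplace-Beltrami operator of the Hessian metric -/
noncomputable def LB (G v : E N → ℝ) (y : E N) : ℝ := Lop G v y + dd y v y
/-- inner product of gradients -/
noncomputable def ip (G u v : E N → ℝ) (y : E N) : ℝ := qf (hess G y)⁻¹ (grad u y) (grad v y)
noncomputable def wt (G : E N → ℝ) (b β y : E N) : ℝ := Real.exp (G y - PP G b β y)
noncomputable def ZZ (W : Set (E N)) (G : E N → ℝ) (b β : E N) : ℝ :=
  ∫ y in oV W, wt G b β y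
noncomputable def Ex (W : Set (E N)) (G : E N → ℝ) (b β : E N) (φ : E N → ℝ) : ℝ :=
  (∫ y in oV W, φ y * wt G b β y) / ZZ W G b β
/-- polynomial growth with respect to the potential -/
def PolyP (W : Set (E N)) (G : E N → ℝ) (b β : E N) (φ : E N → ℝ) : Prop :=
  ∃ (C : ℝ) (d : ℕ), ∀ y ∈ oV W, |φ y| ≤ C * (1 + PP G b β y) ^ d

end Pool.Agent.MP_5f4cdd_gt.CB
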