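import Pool.Agent.MP_5f4cdd_gt.CB.Api

set_option autoImplicit false
open MeasureTheory Matrix Set Filter Topology

namespace Pool.Agent.MP_5f4cdd_gt.CB

theorem bg_mono_Apr {N : ℕ} {B ε K K' : ℝ} {Gt : E N → ℝ} (h : Bg B ε K Gt) (hK : K ≤ K') :
    Bg B ε K' Gt :=
  ⟨h.smooth, h.ell, fun i j => (h.hb i j).mono hK, h.four, h.three⟩

theorem sApr (hC0 : C0Stmt) (hC2 : C2Stmt) (hC3 : C3Stmt) (hBoot : BootStmt) : AprStmt := by
  intro N B ε K hε
  obtain ⟨C, hC, h2⟩ := hC2 N B
  have hc : 0 < ε / C := div_pos hε hC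
  obtain ⟨C3, h3⟩ := hC3 N (ε / C) (max K (C * (N * K))) hc
  obtain ⟨C5, h5⟩ := hBoot N (ε / C) (max (max K (C * (N * K) + K)) (max (B / 2) C3)) hc
  refine ⟨ε / C, C5, hc, fun Gt H u hB hR hS => ?_⟩
  have hsym : ∀ x, (hess Gt x + hess u x).IsSymm := fun x => by
    obtain ⟨c, -, hell⟩ := hS.ell
    exact (hell x).1
  have hlow : ∀ x v, ε / C * (v ⬝ᵥ v) ≤ qf (hess Gt x + hess u x) v v := fun x v => by
    have a1 := (hB.ell x).2 v
    have a2 := (h2 ε K Gt H u hε hB hR hS x v).2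
    rw [div_mul_eq_mul_div, div_le_iff₀ hC]
    linarith
  have hEll : Ell (ε / C) (fun x => hess Gt x + hess u x) := fun x => ⟨hsym x, hlow x⟩
  have hGt : ∀ x i j, |hess Gt x i j| ≤ K := fun x i j => (hB.hb i j).bound x
  have hg : ∀ x i j, |(hess Gt x + hess u x) i j| ≤ C * (N * K) := fun x i j => by
    refine entry_le (hsym x) (fun v => ?_) (fun v => ?_) i j
    · exact le_trans (mul_nonneg hc.le (dot_self_nonneg' v)) (hlow x v)
    · have a1 := (h2 ε K Gt H u hε hB hR hS x v).1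
      have a2 := (le_abs_self _).trans (abs_qf_le_of_entry (hGt x) v)
      have a3 := mul_le_mul_of_nonneg_left a2 hC.le
      calc _ ≤ _ := a1
        _ ≤ _ := a3
        _ = _ := by ring
  have hu3 := h3 B ε Gt H u (bg_mono_Apr hB (le_max_left _ _)) (hR.hb.mono (le_max_left _ _)) hS
    hEll (fun x i j => (hg x i j).trans (le_max_right _ _))
  refine ⟨hEll, h5 B ε Gt H u (bg_mono_Apr hB ((le_max_left _ _).trans (le_max_left _ _)))
    (hR.hb.mono ((le_max_left _ _).trans (le_max_left _ _))) hS hEll (fun x => ?_)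
    (fun i j x => ?_) (fun i j k x => ?_)⟩
  · exact (hC0 N B ε K Gt H u hε hB hR hS x).trans ((le_max_left _ _).trans (le_max_right _ _))
  · have a1 := hg x i j
    have a2 := hGt x i j
    have e : pd i (pd j u) x = (hess Gt x + hess u x) i j - hess Gt x i j := by
      simp [hess]
    have a3 : |pd i (pd j u) x| ≤ C * (N * K) + K := by
      rw [e]
      exact (abs_sub _ _).trans (add_le_add a1 a2)
    exact a3.trans ((le_max_right _ _).trans (le_max_left _ _))
  · exact (hu3 i j k x).trans ((le_max_right _ _).trans (le_max_right _ _))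

end Pool.Agent.MP_5f4cdd_gt.CB
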