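import Pool.Agent.MP_5f4cdd_gt.CB.Api

set_option autoImplicit false
open MeasureTheory Matrix Set Filter Topology

namespace Pool.Agent.MP_5f4cdd_gt.CB

theorem sApx (hData : DataStmt) (hEx : ExStmt) (hC0 : C0Stmt) (hC2 : C2Stmt) : ApxStmt := by
  intro N W b0 β hN hW hβ
  obtain ⟨B, hB, h⟩ := hData N W b0 β hN hW hβ
  obtain ⟨C, hC, h2⟩ := hC2 N B
  refine ⟨B / 2 + B, C * B, by positivity, fun R => ?_⟩
  obtain ⟨ε, K, Gt, H, hε, hBg, hR1, hR2, h3⟩ := h R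
  obtain ⟨u, hu⟩ := hEx N B ε K Gt H hε hBg hR1 hR2
  have h0 := hC0 N B ε K Gt H u hε hBg hR2 hu
  have h4 := h2 ε K Gt H u hε hBg hR2 hu
  obtain ⟨M, hM⟩ := hu.hb
  obtain ⟨c, hc, he⟩ := hu.ell
  have s1 : ContDiff ℝ 5 Gt := hBg.smooth.of_le (by norm_num)
  have s2 : ContDiff ℝ 5 u := hM.contDiff
  have s3 : ContDiff ℝ 5 fun x => Gt x + u x := s1.add s2
  have eh : ∀ x, hess (fun x => Gt x + u x) x = hess Gt x + hess u x := fun x =>
    hess_add (s1.contDiffAt.of_le (by norm_num)) (s2.contDiffAt.of_le (by norm_num))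
  refine ⟨fun x => Gt x + u x, s3, fun y hy hr => ⟨s3.contDiffAt, ?_, ?_⟩, fun y hy hr => ?_,
    fun y hy hr v => ?_⟩
  · rw [eh]
    exact posDef_of_ell (he y).1 hc (he y).2
  · rw [ldet, eh, hu.eqn, (h3 y hy hr).1]
    ring
  · have h5 := abs_le.1 (h3 y hy hr).2.1
    have h6 := abs_le.1 (h0 y)
    rw [abs_le]
    constructor <;> linarith [h5.1, h5.2, h6.1, h6.2]
  · rw [eh]
    obtain ⟨h5, h6⟩ := (h3 y hy hr).2.2 v
    obtain ⟨h7, h8⟩ := h4 y v
    constructor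
    · have := mul_le_mul_of_nonneg_left h8 hB.le
      linarith
    · have := mul_le_mul_of_nonneg_left h6 hC.le
      linarith

end Pool.Agent.MP_5f4cdd_gt.CB
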