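import Pool.Agent.MP_5f4cdd_gt.CB.Api

set_option autoImplicit false
open MeasureTheory Matrix Set Filter Topology

namespace Pool.Agent.MP_5f4cdd_gt.CB

theorem scale_Bar {N : ℕ} {G : E N → ℝ} {y : E N} {t : ℝ} (ht : 0 < t) (h : MAat 4 G (t • y)) :
    MAat 2 (fun z => G (t • z) + N * Real.log t) y := by
  have h2 : ContDiffAt ℝ 2 G (t • y) := h.smooth.of_le (by norm_num)
  have h3 : ContDiffAt ℝ 2 (fun z : E N => G (t • z)) y :=
    ContDiffAt.comp (g := G) (f := fun z : E N => t • z) y h2 (contDiffAt_id.const_smul t)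
  have h4 : hess (fun z => G (t • z) + N * Real.log t) y = (t ^ 2) • hess G (t • y) := by
    rw [hess_add h3 contDiffAt_const, hess_const, add_zero, hess_scale t y h2]
  refine ⟨h3.add contDiffAt_const, ?_, ?_⟩
  · rw [h4]
    exact h.pos.smul (by positivity)
  · have h5 := h.eqn
    unfold ldet at h5 ⊢
    rw [h4, Matrix.det_smul, Fintype.card_fin, Real.log_mul (by positivity) h.pos.det_pos.ne', h5,
      Real.log_pow, Real.log_pow]
    push_cast
    ring

theorem le_Bar (hCmp : CmpStmt) (hRho : RhoStmt) {N : ℕ} {W : Set (E N)} {b0 : E N}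
    {G : E N → ℝ} (hN : 0 < N) (hW : PC W b0) (hG : PreBar W G) {t : ℝ} (ht : 0 < t) {y : E N}
    (hy : y ∈ oV W) : G (t • y) + N * Real.log t ≤ G y := by
  obtain ⟨β, hβ⟩ := hW.exists_iW
  obtain ⟨D, hD⟩ := hG.near
  obtain ⟨B, hB⟩ := hG.cmp
  obtain ⟨B', hB', hr⟩ := hRho N
  obtain ⟨δ, hδ, hc⟩ := hCmp N (B' * B)
  have hD0 : 0 ≤ D := (abs_nonneg _).trans (hD y hy)
  have h1 : ∀ R : ℝ, rho W β y ≤ R → G (t • y) + N * Real.log t - G y ≤
      2 * D * Real.exp (δ * (rho W β y - R)) := fun R hR => by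
    refine hc _ (rho W β) (fun z => G (t • z) + N * Real.log t) G R (2 * D) (hW.exh hN hβ R)
      (fun z hz => ⟨scale_Bar ht (hG.ma _ (oV_smul hz.1 ht)),
        ⟨(hG.ma z hz.1).smooth.of_le (by norm_num), (hG.ma z hz.1).pos, (hG.ma z hz.1).eqn⟩,
        hW.contDiffAt_rho hβ hz.1 2, fun v => ?_⟩) (fun z hz => ?_) (by positivity) y ⟨hy, hR⟩
    · obtain ⟨e1, e2⟩ := hr W b0 β z hW hβ hz.1 v
      have e3 := mul_le_mul_of_nonneg_left (hB z hz.1 v) hB'.le
      rw [mul_assoc]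
      exact ⟨e1.trans e3, ((le_abs_self _).trans e2).trans e3⟩
    · have e1 := (abs_le.1 (hD _ (oV_smul hz.1 ht))).2
      have e2 := (abs_le.1 (hD z hz.1)).1
      rw [hW.Phi_smul z ht, Real.log_mul (by positivity) (hW.Phi_pos hz.1).ne', Real.log_inv,
        Real.log_pow] at e1
      linarith
  have h2 : Tendsto (fun R : ℝ => 2 * D * Real.exp (δ * (rho W β y - R))) atTop
      (𝓝 (2 * D * 0)) := by
    refine Tendsto.const_mul _ (Real.tendsto_exp_atBot.comp ?_)
    refine Tendsto.const_mul_atBot hδ ?_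
    exact tendsto_atBot_add_const_left _ _ tendsto_neg_atTop_atBot
  have h3 := ge_of_tendsto h2 ((eventually_ge_atTop (rho W β y)).mono h1)
  linarith

theorem sBar (hPreBar : PreBarStmt) (hCmp : CmpStmt) (hRho : RhoStmt) : BarStmt := by
  intro N W b0 hN hW
  obtain ⟨G, hG⟩ := hPreBar N W b0 hN hW
  refine ⟨G, hG.ma, hG.calabi, hG.near, fun y hy t ht => ?_⟩
  have h1 := le_Bar hCmp hRho hN hW hG ht hy
  have h2 := le_Bar hCmp hRho hN hW hG (inv_pos.2 ht) (oV_smul hy ht)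
  rw [smul_smul, inv_mul_cancel₀ ht.ne', one_smul, Real.log_inv] at h2
  linarith

end Pool.Agent.MP_5f4cdd_gt.CB
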