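import Pool.Agent.MP_5f4cdd_gt.CB.Api

set_option autoImplicit false
open MeasureTheory Matrix Set Filter Topology

namespace Pool.Agent.MP_5f4cdd_gt.CB

theorem dd_sq_Bg {N : ℕ} (z y : E N) : dd z (fun y : E N => y ⬝ᵥ y) y = 2 * (z ⬝ᵥ y) := by
  unfold dotProduct
  rw [dd_sum _ (fun i (y : E N) => y i * y i) (fun i _ => by fun_prop), Finset.mul_sum]
  refine Finset.sum_congr rfl fun i _ => ?_
  have h : dd z (fun y : E N => y i) y = z i := by
    simpa using dd_dot (Pi.single i 1) z y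
  rw [dd_mul (u := fun y : E N => y i) (w := fun y : E N => y i) (by fun_prop) (by fun_prop), h]
  ring

theorem smooth_sq_Bg {N : ℕ} (k : ℕ) : ContDiff ℝ k (fun y : E N => y ⬝ᵥ y) := by
  unfold dotProduct
  fun_prop

theorem hess_sq_Bg {N : ℕ} (ε : ℝ) (x : E N) :
    hess (fun y : E N => ε / 2 * (y ⬝ᵥ y)) x = ε • (1 : Mat N) := by
  rw [hess_const_mul]
  refine mat_ext_qf fun v z => ?_
  rw [qf_smul, qf_smul, qf_one, ← dd_dd_eq_qf (smooth_sq_Bg 2).contDiffAt,
    show dd z (fun y : E N => y ⬝ᵥ y) = fun y => 2 * (z ⬝ᵥ y) from funext (dd_sq_Bg z),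
    dd_const_mul, dd_dot, dotProduct_comm z v]
  ring

theorem dd_add_const_Bg {N : ℕ} (v : E N) (f : E N → ℝ) (c : ℝ) :
    dd v (fun x => f x + c) = dd v f := by
  funext x
  unfold dd
  rw [fderiv_add_const]

theorem sBg (hCum : CumStmt) (hKurt : KurtStmt) (hEyHB : EyHBStmt) : BgStmt := by
  intro N
  obtain ⟨C, hC, hK⟩ := hKurt N
  refine ⟨C + 3 + N ^ 2 * C, by positivity, fun Q ε hQ hcv hi hε => ?_⟩
  have hm : MeasurableSet Q := hQ.measurableSet
  have hr : ∀ y, Room Q y := room_of_compact hQ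
  obtain ⟨F, hF⟩ : ∃ F : E N → ℝ, F = fun z => Real.log (Phi Q z) := ⟨_, rfl⟩
  have hFs : ∀ k : ℕ, ContDiff ℝ k F := fun k => by
    rw [hF]
    exact contDiff_iff_contDiffAt.2 fun y =>
      (contDiffAt_LapW hm (hr y) (polyW_const 1) k).log (Phi_pos hm (hr y) hi).ne'
  have hG : bgF Q ε = fun y => F y + ε / 2 * (y ⬝ᵥ y) := by
    rw [hF]
    rfl
  have hGs : ∀ k : ℕ, ContDiff ℝ k (bgF Q ε) := fun k => by
    rw [hG]
    exact (hFs k).add (contDiff_const.mul (smooth_sq_Bg k))
  have hH : ∀ x, hess (bgF Q ε) x = hess F x + ε • (1 : Mat N) := fun x => by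
    rw [hG, hess_add (hFs 2).contDiffAt (contDiff_const.mul (smooth_sq_Bg 2)).contDiffAt,
      hess_sq_Bg]
  have hE : ∀ i j, pd i (pd j (bgF Q ε)) = fun x => pd i (pd j F) x + (ε • (1 : Mat N)) i j :=
    fun i j => funext fun x => congrFun (congrFun (hH x) i) j
  have h3 : ∀ x v, d3 (bgF Q ε) x v = d3 F x v := fun x v => by
    ext i j
    simp only [d3, Matrix.of_apply]
    rw [hE, dd_add_const_Bg]
  have h4 : ∀ x v w, d4 (bgF Q ε) x v w = d4 F x v w := fun x v w => by
    ext i j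
    simp only [d4, Matrix.of_apply]
    rw [hE, dd_add_const_Bg]
  have hp : ∀ y v, PolyW (cen Q y v) := fun y v => (polyW_dot v).sub (polyW_const _)
  have hcum := fun y => hCum N Q y hm (hr y) hi
  rw [← hF] at hcum
  obtain ⟨var, hvar⟩ : ∃ var : E N → E N → ℝ,
    ∀ y v, var y v = Ey Q (fun η => cen Q y v η ^ 2) y := ⟨_, fun _ _ => rfl⟩
  have hnn : ∀ (y : E N) (p : E N → ℝ), PolyW p → (∀ η, 0 ≤ p η) → 0 ≤ Ey Q p y := by
    intro y p h1 h2
    have := Ey_mono hm (hr y) (polyW_const 0) h1 fun η _ => h2 η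
    rwa [Ey_const hm (hr y) hi] at this
  have hv0 : ∀ y v, 0 ≤ var y v := fun y v => by
    rw [hvar]
    exact hnn y _ ((hp y v).pow 2) fun _ => sq_nonneg _
  have hv1 : ∀ y v, qf (hess (bgF Q ε) y) v v = var y v + ε * (v ⬝ᵥ v) := fun y v => by
    rw [hH, qf_add, qf_smul, qf_one, (hcum y v v v).1, hvar]
    simp only [sq]
  have hv2 : ∀ y v, var y v ≤ qf (hess (bgF Q ε) y) v v := fun y v => by
    rw [hv1]
    exact le_add_of_nonneg_right (mul_nonneg hε.le (dot_self_nonneg' v))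
  have hell : Ell ε (hess (bgF Q ε)) := fun x => ⟨hess_symm (hGs 2).contDiffAt, fun v => by
    rw [hv1]
    exact le_add_of_nonneg_left (hv0 x v)⟩
  have hsq : ∀ y v w, Ey Q (fun η => cen Q y v η ^ 2 * cen Q y w η ^ 2) y ≤
      C * (var y v * var y w) := by
    intro y v w
    have a1 := Ey_cs hm (hr y) ((hp y v).pow 2) ((hp y w).pow 2)
    simp only [← pow_mul] at a1
    have a2 := hK Q y v hQ hcv hi
    have a3 := hK Q y w hQ hcv hi
    rw [← hvar] at a2 a3
    have b1 := hv0 y v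
    have b2 := hv0 y w
    refine le_of_sq_le_sq (a1.trans ((mul_le_mul a2 a3
      (hnn y _ ((hp y w).pow 4) fun _ => by positivity) (by positivity)).trans_eq (by ring)))
      (by positivity)
  choose K hKb using fun j : Fin N => hEyHB N 4 Q _ hQ hi (polyW_dot (Pi.single j 1))
  refine ⟨∑ j, K j + ε, hGs 6, hell, fun i j => ?_, fun x v w => ?_, fun x v => ?_⟩
  · have e1 : pd j F = fun y => -Ey Q (fun η => (Pi.single j 1 : E N) ⬝ᵥ η) y := by
      rw [hF]
      exact funext fun y => dd_logPhi hm (hr y) hi _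
    have e2 : HB 3 (K j) (pd i (pd j F)) := by
      rw [e1]
      exact (hKb j).neg.pd i
    change HB 3 _ (pd i (pd j (bgF Q ε)))
    rw [hE]
    refine (e2.add (HB_const 3 _)).mono (add_le_add
      (Finset.single_le_sum (fun j _ => (hKb j).nonneg) (Finset.mem_univ j)) ?_)
    rw [Matrix.smul_apply, Matrix.one_apply]
    split_ifs
    · rw [smul_eq_mul, mul_one, abs_of_pos hε]
    · rw [smul_zero, abs_zero]
      exact hε.le
  · rw [h4, (hcum x v v w).2.2, ← hvar, ← hvar]
    have a1 := hsq x v w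
    have a2 := hnn x _ (((hp x v).pow 2).mul ((hp x w).pow 2)) fun _ => by positivity
    have a3 := Ey_cs hm (hr x) (hp x v) (hp x w)
    rw [← hvar, ← hvar] at a3
    have b1 := hv0 x v
    have b2 := hv0 x w
    have a4 : var x v * var x w ≤ qf (hess (bgF Q ε) x) v v * qf (hess (bgF Q ε) x) w w :=
      mul_le_mul (hv2 x v) (hv2 x w) b2 (b1.trans (hv2 x v))
    have a5 : 0 ≤ var x v * var x w := mul_nonneg b1 b2
    have a6 : (C + 3) * (var x v * var x w) ≤ (C + 3 + N ^ 2 * C) *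
        (qf (hess (bgF Q ε) x) v v * qf (hess (bgF Q ε) x) w w) :=
      mul_le_mul (le_add_of_nonneg_right (by positivity)) a4 a5 (by positivity)
    have a7 := mul_nonneg hC.le a5
    have a8 := sq_nonneg (Ey Q (fun η => cen Q x v η * cen Q x w η) x)
    rw [mul_assoc (C + 3 + N ^ 2 * C), abs_le]
    constructor <;> linarith
  · have hpd : (hess (bgF Q ε) x).PosDef := posDef_of_ell (hell x).1 hε (hell x).2
    have b1 := hv0 x v
    refine (tq_le_of_entry hpd (d3_symm (hGs 3).contDiffAt v) (C := C * var x v)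
      fun w z => ?_).trans ?_
    · rw [h3, (hcum x v w z).2.1, neg_sq]
      have a1 := Ey_cs hm (hr x) (hp x v) ((hp x w).mul (hp x z))
      simp only [mul_pow, ← mul_assoc] at a1
      rw [← hvar] at a1
      have b2 := hv0 x w
      have b3 := hv0 x z
      have a4 : var x w * var x z ≤ qf (hess (bgF Q ε) x) w w * qf (hess (bgF Q ε) x) z z :=
        mul_le_mul (hv2 x w) (hv2 x z) b3 (b2.trans (hv2 x w))
      calc _ ≤ _ := a1
        _ ≤ var x v * (C * (var x w * var x z)) := mul_le_mul_of_nonneg_left (hsq x w z) b1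
        _ = C * var x v * (var x w * var x z) := by ring
        _ ≤ _ := mul_le_mul_of_nonneg_left a4 (by positivity)
    · rw [← mul_assoc]
      exact mul_le_mul (le_add_of_nonneg_left (by positivity)) (hv2 x v) b1 (by positivity)

end Pool.Agent.MP_5f4cdd_gt.CB
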