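import Pool.Agent.MP_5f4cdd_gt.CB.Api

set_option autoImplicit false
open MeasureTheory Matrix Set Filter Topology

namespace Pool.Agent.MP_5f4cdd_gt.CB
variable {N : ℕ}

theorem sq_BgV (A : Mat N) (v : E N) : (Aᵀ *ᵥ v) ⬝ᵥ (Aᵀ *ᵥ v) = qf (A * Aᵀ) v v := by
  have := qf_conj (1 : Mat N) Aᵀ v v
  rw [transpose_transpose, Matrix.mul_one, qf_one] at this
  exact this.symm

theorem pos_BgV {A : Mat N} (h : A.det ≠ 0) : (A * Aᵀ).PosDef := by
  refine posDef_of_qf (isSymm_mul_transpose_self A) fun v hv => ?_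
  rw [← sq_BgV]
  refine (dot_self_nonneg' _).lt_of_ne fun c => hv ?_
  exact Matrix.eq_zero_of_mulVec_eq_zero (by rwa [det_transpose]) (dotProduct_self_eq_zero.1 c.symm)

theorem var_BgV {S : Set (E N)} {y : E N} (hS : MeasurableSet S) (h : Room S y)
    (hi : (interior S).Nonempty) (v : E N) :
    Ey S (fun η => cen S y v η * cen S y v η) y =
      sm S y v - Ey S (fun ζ => v ⬝ᵥ ζ) y ^ 2 := by
  obtain ⟨m, hm⟩ : ∃ m, m = Ey S (fun ζ => v ⬝ᵥ ζ) y := ⟨_, rfl⟩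
  have e : (fun η => cen S y v η * cen S y v η) =
      fun η => ((v ⬝ᵥ η) ^ 2 - 2 * m * (v ⬝ᵥ η)) + m ^ 2 := by
    funext η
    rw [cen, ← hm]
    ring
  have p1 := (polyW_dot v).pow 2
  have p2 := (polyW_const (N := N) (2 * m)).mul (polyW_dot v)
  rw [e, Ey_add hS h (p1.sub p2) (polyW_const _), Ey_sub hS h p1 p2, Ey_const_mul,
    Ey_const hS h hi, ← hm, sm]
  ring

theorem log_BgV {c C a x : ℝ} (k : ℕ) (hc : 0 < c) (ha : 0 < a) (h1 : c ^ k * a ≤ x)
    (h2 : x ≤ C ^ k * a) (hC : 0 < C) :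
    |Real.log x - Real.log a| ≤ k * (|Real.log c| + |Real.log C|) := by
  have h0 : 0 < c ^ k * a := by positivity
  have h3 := Real.log_le_log h0 h1
  have h4 := Real.log_le_log (h0.trans_le h1) h2
  rw [Real.log_mul (by positivity) ha.ne', Real.log_pow] at h3 h4
  have k0 : (0 : ℝ) ≤ k := Nat.cast_nonneg k
  have a1 := mul_le_mul_of_nonneg_left (neg_abs_le (Real.log c)) k0
  have a2 := mul_le_mul_of_nonneg_left (le_abs_self (Real.log C)) k0
  have a3 := mul_nonneg k0 (abs_nonneg (Real.log c))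
  have a4 := mul_nonneg k0 (abs_nonneg (Real.log C))
  rw [abs_le]
  constructor <;> linarith

theorem sBgV (hNorm : NormStmt) (hMom : MomStmt) (hCum : CumStmt) : BgVStmt := by
  intro N
  obtain ⟨c, C, hc, hC, hM⟩ := hMom N
  obtain ⟨L, hL⟩ : ∃ L, L = |Real.log c| + |Real.log C| := ⟨_, rfl⟩
  have L0 : 0 ≤ L := by
    rw [hL]
    positivity
  have B0 : 0 < C / c := div_pos hC hc
  have B1 : 0 ≤ (N + 2) * L := by positivity
  refine ⟨C / c + (N + 2) * L, by linarith, fun W b0 y c1 hW hy hc1 hb => ?_⟩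
  intro Q F
  obtain ⟨c0, h0, h1⟩ := hy
  have hn : ∀ η ∈ W, 0 ≤ y ⬝ᵥ (η - 0) := fun η hη => by
    rw [sub_zero]
    exact (mul_nonneg h0.le (norm_nonneg η)).trans (h1 η hη)
  obtain ⟨A, hA⟩ := hNorm N W y 0 hW.closed hW.convex hW.int hW.zero_mem hn
    (isBounded_iff_forall_norm_le.2 ⟨1 / c0, fun η hη => by
      have := hη.2
      rw [sub_zero] at this
      rw [le_div_iff₀' h0]
      exact (h1 η hη.1).trans this⟩)
  have hAQ : Nrm Q y 0 A := by
    refine ⟨hA.det, fun η hη => hA.nonneg η hη.1, fun ζ k1 k2 => ?_, fun η hη => hA.outer η hη.1⟩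
    obtain ⟨k3, k4⟩ := hA.inner ζ k1 k2
    exact ⟨⟨k3, hb _ k3 (by rwa [zero_add])⟩, k4⟩
  have hQm : MeasurableSet Q := (hW.trunc hc1).1.measurableSet
  obtain ⟨-, -, w1, w2, w3, -, w4⟩ := hM W y 0 A hW.closed.measurableSet hA
  obtain ⟨r1, r2, q1, q2, q3, -, q4⟩ := hM Q y 0 A hQm hAQ
  simp only [dotProduct_zero, Real.exp_zero, mul_one, sub_zero, sq_BgV] at w1 w2 w3 w4 q1 q2 q3 q4
  have hP := pos_BgV hA.det
  have hq : ∀ v w, qf (hess F y) v w = Ey Q (fun η => cen Q y v η * cen Q y w η) y :=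
    fun v w => (hCum N Q y hQm r1 r2 v v w).1
  have s1 : ∀ v, c * qf (A * Aᵀ) v v ≤ sm W y v := fun v => by
    have := w4 v 0
    simpa only [sub_zero, sm] using this
  have f1 : ∀ v, c * qf (A * Aᵀ) v v ≤ qf (hess F y) v v := fun v => by
    rw [hq]
    simpa only [sq, cen] using q4 v (Ey Q (fun ζ => v ⬝ᵥ ζ) y)
  have f0 : ∀ v, 0 ≤ c * qf (A * Aᵀ) v v := fun v => mul_nonneg hc.le (qf_nonneg hP v)
  have f2 : ∀ v, qf (hess F y) v v + dd v F y ^ 2 ≤ C * qf (A * Aᵀ) v v := fun v => by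
    rw [hq, var_BgV hQm r1 r2, dd_logPhi hQm r1 r2, neg_sq, sub_add_cancel]
    exact q3 v
  have key : ∀ v x z, x ≤ C * qf (A * Aᵀ) v v → c * qf (A * Aᵀ) v v ≤ z →
      x ≤ (C / c + (N + 2) * L) * z := fun v x z k1 k2 => by
    calc x ≤ C / c * (c * qf (A * Aᵀ) v v) := k1.trans_eq (by field_simp)
      _ ≤ C / c * z := mul_le_mul_of_nonneg_left k2 B0.le
      _ ≤ _ := mul_le_mul_of_nonneg_right (by linarith) ((f0 v).trans k2)
  have f3 : ∀ v, qf (hess F y) v v ≤ C * qf (A * Aᵀ) v v := fun v => by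
    linarith [f2 v, sq_nonneg (dd v F y)]
  have hH : (hess F y).PosDef := by
    refine posDef_of_qf (Matrix.IsSymm.ext fun i j => ?_) fun v hv =>
      (mul_pos hc (qf_pos hP hv)).trans_le (f1 v)
    rw [← qf_single (hess F y) j i, ← qf_single (hess F y) i j, hq, hq]
    simp only [mul_comm]
  have a0 : 0 < |A.det| := abs_pos.2 hA.det
  have l1 := log_BgV 1 hc a0 (by rwa [pow_one]) (by rwa [pow_one]) hC (x := Phi W y)
  have l2 := log_BgV 1 hc a0 (by rwa [pow_one]) (by rwa [pow_one]) hC (x := Phi Q y)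
  have l3 := log_BgV N hc hP.det_pos (x := (hess F y).det) (by
    have := det_le_of_le hP hH (C := 1 / c) (by positivity) fun v => by
      rw [one_div, ← div_eq_inv_mul, le_div_iff₀' hc]
      exact f1 v
    rwa [one_div, inv_pow, ← div_eq_inv_mul, le_div_iff₀' (by positivity)] at this)
    (det_le_of_le hH hP hC f3) hC
  rw [det_mul, det_transpose, ← sq, ← sq_abs, Real.log_pow] at l3
  rw [← hL, abs_le] at l1 l2 l3
  have hF : F y = Real.log (Phi Q y) := rfl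
  have N0 : 0 ≤ (N : ℝ) * L := by positivity
  push_cast at l1 l2 l3
  refine ⟨fun v => ⟨key v _ _ (w3 v) (f1 v), key v _ _ (f3 v) (s1 v), key v _ _ ?_ (s1 v)⟩,
    ?_, hH, ?_⟩
  · linarith [f2 v, f1 v, f0 v]
  · rw [hF, abs_le]
    constructor <;> linarith [l1.1, l1.2, l2.1, l2.2]
  · rw [hF, ldet, abs_le]
    constructor <;> linarith [l3.1, l3.2, l2.1, l2.2]

end Pool.Agent.MP_5f4cdd_gt.CB
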