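import Pool.Agent.MP_5f4cdd_gt.CB.Api

set_option autoImplicit false
open MeasureTheory Matrix Set Filter Topology

namespace Pool.Agent.MP_5f4cdd_gt.CB

lemma eqn_Boot {N : ℕ} {c : ℝ} {Gt H u : E N → ℝ} (hc : 0 < c) (hG : ContDiff ℝ 3 Gt)
    (hu : ContDiff ℝ 3 u) (hH : Differentiable ℝ H)
    (he : Ell c fun x => hess Gt x + hess u x)
    (hq : ∀ x, Real.log (hess Gt x + hess u x).det = 2 * u x + H x) (k : Fin N) :
    op (fun x => (hess Gt x + hess u x)⁻¹) (pd k u) = fun x =>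
      pd k H x - ((hess Gt x + hess u x)⁻¹ * d3 Gt x (Pi.single k 1)).trace := by
  have h1 : ∀ y, hess (fun y => Gt y + u y) y = hess Gt y + hess u y := fun y =>
    hess_add (hG.of_le (by norm_num)).contDiffAt (hu.of_le (by norm_num)).contDiffAt
  have h2 : ldet (fun y => Gt y + u y) = fun y => 2 * u y + H y := by
    funext y
    rw [ldet, h1, hq]
  have hd : Differentiable ℝ u := hu.differentiable (by norm_num)
  funext x
  have h3 := dd_ldet (G := fun y => Gt y + u y) (x := x) (hG.add hu).contDiffAt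
    (by rw [h1]; exact posDef_of_ell (he x).1 hc (he x).2) (Pi.single k 1)
  rw [h2, h1, d3_add hG.contDiffAt hu.contDiffAt, dd_add ((hd x).const_mul 2) (hH x),
    dd_const_mul, Matrix.mul_add, Matrix.trace_add, ← hess_dd hu.contDiffAt] at h3
  simp only [op, pd]
  linarith

lemma step_Boot (hSch : SchStmt) (N j : ℕ) (hj : j ≤ 2) (c K C0 : ℝ) (hc : 0 < c) :
    ∃ C : ℝ, ∀ (B ε : ℝ) (Gt H u : E N → ℝ), Bg B ε K Gt → HB 3 K H → Sol Gt H u →
      Ell c (fun x => hess Gt x + hess u x) → HB (j + 2) C0 u → HB (j + 3) C u := by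
  obtain ⟨Ci, hCi, hi⟩ := HBM_inv N j c ((N + 2) ^ 3 * K + C0) hc
  obtain ⟨Cm, -, hm⟩ := HBM_mul N j
  obtain ⟨Cs, -, hs⟩ := hSch j N (1 / (N * |(N + 2) ^ 3 * K + C0| + 1)) Ci (by positivity)
  refine ⟨max C0 (Cs * ((N + 2) ^ 2 * K + Cm * Ci * ((N + 2) ^ 2 * K))), ?_⟩
  intro B ε Gt H u hB hH hS he h0
  have hK := hH.nonneg
  obtain ⟨M, hM⟩ := hS.hb
  have hg : HBM j ((N + 2) ^ 3 * K + C0) fun x => hess Gt x + hess u x := fun i l =>
    ((hB.hb i l).lower_le (by omega)).add (h0.hessM i l)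
  have ha := (hi _ hg he).1
  have hea : Ell (1 / (N * |(N + 2) ^ 3 * K + C0| + 1)) fun x => (hess Gt x + hess u x)⁻¹ := by
    intro x
    have := inv_ell (he x).1 hc (he x).2 fun i l => (hg i l).bound x
    exact ⟨this.1, this.2.1⟩
  refine ⟨h0.1, fun x => (h0.bound x).trans (le_max_left _ _), fun k => ?_⟩
  refine HB.mono (hs _ _ _ hea ha ⟨_, (hM.pd k).lower_le (by omega)⟩ ?_) (le_max_right _ _)
  rw [eqn_Boot hc (hB.smooth.of_le (by norm_num)) (hM.contDiff.of_le (by norm_num)) hH.1 he hS.eqn]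
  have hd : HBM j ((N + 2) ^ 2 * K) fun x => d3 Gt x (Pi.single k 1) := fun i l =>
    ((hB.hb i l).pd k).lower_le hj
  exact ((hH.pd k).lower_le hj).sub (hm _ _ _ _ hCi (by positivity) ha hd).2

theorem sBoot (hSch : SchStmt) : BootStmt := by
  intro N c K hc
  obtain ⟨C1, h1⟩ := step_Boot hSch N 0 (by norm_num) c K (3 * K + N * K) hc
  obtain ⟨C2, h2⟩ := step_Boot hSch N 1 (by norm_num) c K C1 hc
  obtain ⟨C3, h3⟩ := step_Boot hSch N 2 (by norm_num) c K C2 hc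
  refine ⟨C3, fun B ε Gt H u hB hH hS he b0 b2 b3 => ?_⟩
  refine h3 B ε Gt H u hB hH hS he (h2 B ε Gt H u hB hH hS he (h1 B ε Gt H u hB hH hS he ?_))
  have hK := hH.nonneg
  have hN : 0 ≤ N * K := by positivity
  obtain ⟨M, hM⟩ := hS.hb
  refine ⟨hM.1, fun x => (b0 x).trans (by linarith), fun i => ⟨(hM.pd i).1, fun x => ?_,
    fun l => ?_⟩⟩
  · exact (pd_bound_of_second (hM.contDiff.of_le (by norm_num)) b0 b2 i x).trans (by linarith)
  · refine (HB0_of_lip (b2 l i) hN ?_).mono (by linarith)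
    exact lip_of_pd ((hM.pd i).pd l).1 fun k x => b3 k l i x

end Pool.Agent.MP_5f4cdd_gt.CB
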