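import Pool.Agent.MP_5f4cdd_gt.CB.Api

set_option autoImplicit false
open MeasureTheory Matrix Set Filter Topology

namespace Pool.Agent.MP_5f4cdd_gt.CB

theorem max_C0 {N : ℕ} {a : E N → Mat N} {w : E N → ℝ} {c B M : ℝ} (hc : 0 < c) (ha : Ell c a)
    (hw : HB 5 M w) (h : ∀ x, 2 * w x - B ≤ ((a x)⁻¹ * hess w x).trace) (y : E N) :
    w y ≤ B / 2 := by
  refine le_of_forall_pos_le_add fun δ hδ => ?_
  have h0 : 0 < N / c + 1 := by positivity
  obtain ⟨x, h1, h2⟩ := approxMax (hw.contDiff.of_le (by norm_num))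
    ⟨M, by rintro _ ⟨z, rfl⟩; exact (le_abs_self _).trans (hw.bound z)⟩ (div_pos hδ h0)
  have h3 := trace_inv_mul_le (posDef_of_ell (ha x).1 hc (ha x).2) (C := δ / (N / c + 1) / c)
    fun v => (h2 v).trans (by
      rw [div_mul_eq_mul_div _ c, mul_div_assoc]
      exact mul_le_mul_of_nonneg_left ((le_div_iff₀' hc).2 ((ha x).2 v)) (div_pos hδ h0).le)
  have h4 : N * (δ / (N / c + 1) / c) + δ / (N / c + 1) = δ := by field_simp
  have h5 : 0 ≤ N * (δ / (N / c + 1) / c) := by positivity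
  linarith [h x, h1 y]

theorem sC0 : C0Stmt := by
  intro N B ε K Gt H u hε hB hR hS x
  obtain ⟨M, hM⟩ := hS.hb
  obtain ⟨c, hc, he⟩ := hS.ell
  have p1 := fun x => posDef_of_ell (hB.ell x).1 hε (hB.ell x).2
  have p2 := fun x => posDef_of_ell (he x).1 hc (he x).2
  refine abs_le.2 ⟨neg_le.1 (max_C0 hc he hM.neg (fun z => ?_) x), max_C0 hε hB.ell hM (fun z => ?_) x⟩
  · have h1 := logdet_concave (p1 z) (p2 z)
    have h2 : hess (fun x => -u x) z = hess Gt z - (hess Gt z + hess u z) := by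
      simpa using hess_const_mul (-1) u z
    rw [hS.eqn z, ← h2] at h1
    linarith [(abs_le.1 (hR.zero z)).2, show ldet Gt z = Real.log (hess Gt z).det from rfl]
  · have h1 := logdet_concave (p2 z) (p1 z)
    rw [hS.eqn z, add_sub_cancel_left] at h1
    linarith [(abs_le.1 (hR.zero z)).1, show ldet Gt z = Real.log (hess Gt z).det from rfl]

end Pool.Agent.MP_5f4cdd_gt.CB
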