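import Pool.Agent.MP_5f4cdd_gt.CB.Api

set_option autoImplicit false
open MeasureTheory Matrix Set Filter Topology

namespace Pool.Agent.MP_5f4cdd_gt.CB

variable {N : ℕ}

theorem qf_log_C2 {f : E N → ℝ} {x : E N} (h : ContDiffAt ℝ 2 f x) (hp : 0 < f x) (v z : E N) :
    qf (hess (fun y => Real.log (f y)) x) v z
      = (f x)⁻¹ * qf (hess f x) v z + -(f x ^ 2)⁻¹ * (dd v f x * dd z f x) :=
  qf_hess_comp (φ1 := fun s => s⁻¹) h
    ((eventually_gt_nhds hp).mono fun _ hs => Real.hasDerivAt_log hs.ne') (hasDerivAt_inv hp.ne') v z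

theorem lower_C2 {G : E N → ℝ} {x v : E N} (h : ContDiffAt ℝ 4 G x) (hp : (hess G x).PosDef)
    (hv : v ≠ 0) : qf (hess (ldet G) x) v v / qf (hess G x) v v
      ≤ ((hess G x)⁻¹ * hess (fun y => Real.log (qf (hess G y) v v)) x).trace := by
  have h3 : ContDiffAt ℝ 3 G x := h.of_le (by norm_num)
  have a0 := qf_pos hp hv
  have e : hess (fun y => Real.log (qf (hess G y) v v)) x = (qf (hess G x) v v)⁻¹ • d4 G x v v +
      -(qf (hess G x) v v ^ 2)⁻¹ • vecMulVec (d3 G x v *ᵥ v) (d3 G x v *ᵥ v) := by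
    refine mat_ext_qf fun w z => ?_
    rw [qf_log_C2 (contDiffAt_qf_hess (k := 2) h v v) a0, qf_add, qf_smul, qf_smul,
      hess_qf_hess h, dd_eq_dot, dd_eq_dot, grad_qf_hess h3]
    congr 2
    rw [qf, vecMulVec_mulVec, dotProduct_smul, dotProduct_comm z]
    simp
  have h1 := dd2_ldet h hp v v
  have h2 := tq_mulVec hp (d3_symm h3 v) v
  rw [dd_dd_eq_qf (contDiffAt_ldet (k := 2) h hp)] at h1
  rw [e, Matrix.mul_add, Matrix.mul_smul, Matrix.mul_smul, trace_add, trace_smul, trace_smul,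
    trace_vecMulVec, h1, smul_eq_mul, smul_eq_mul, div_le_iff₀ a0]
  field_simp
  linarith

theorem upper_C2 {B ε K : ℝ} {Gt : E N → ℝ} (hε : 0 < ε) (h : Bg B ε K Gt) {v : E N} (hv : v ≠ 0)
    (x w : E N) :
    qf (hess (fun y => Real.log (qf (hess Gt y) v v)) x) w w ≤ B * qf (hess Gt x) w w := by
  have h4 : ContDiffAt ℝ 4 Gt x := h.smooth.contDiffAt.of_le (by norm_num)
  have a0 := qf_pos (posDef_of_ell (h.ell x).1 hε (h.ell x).2) hv
  rw [qf_log_C2 (contDiffAt_qf_hess (k := 2) h4 v v) a0, hess_qf_hess h4]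
  have h1 : (qf (hess Gt x) v v)⁻¹ * qf (d4 Gt x v v) w w ≤ B * qf (hess Gt x) w w := by
    rw [inv_mul_le_iff₀ a0]
    linarith [(le_abs_self _).trans (h.four x v w)]
  have h2 := mul_nonneg (inv_nonneg.2 (sq_nonneg (qf (hess Gt x) v v)))
    (mul_self_nonneg (dd w (fun y => qf (hess Gt y) v v) x))
  linarith

theorem eig_C2 {A A' : Mat N} (hA : A.PosDef) (hB : A'.PosDef) {C D : ℝ} (hC : 0 < C)
    (h : ∀ v, qf A v v ≤ C * qf A' v v) (hD : Real.log A'.det - Real.log A.det ≤ D) (v : E N) :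
    qf A' v v ≤ C ^ (N - 1) * Real.exp D * qf A v v := by
  refine (eig_bound hA hB hC h v).trans (mul_le_mul_of_nonneg_right
    (mul_le_mul_of_nonneg_left ?_ (by positivity)) (qf_nonneg hA v))
  rwa [← Real.log_div hB.det_pos.ne' hA.det_pos.ne',
    Real.log_le_iff_le_exp (div_pos hB.det_pos hA.det_pos)] at hD

/-- the estimate at an approximate maximum -/
theorem point_C2 {B ε K : ℝ} {Gt G : E N → ℝ} (hε : 0 < ε) (h : Bg B ε K Gt) (hB : 0 ≤ B)
    {x v : E N} (hv : v ≠ 0) (hG : ContDiffAt ℝ 4 G x) (hp : (hess G x).PosDef)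
    (h1 : 2 * qf (hess G x) v v - (B + 2) * qf (hess Gt x) v v ≤ qf (hess (ldet G) x) v v)
    (h2 : ∀ w, qf (hess (fun y => Real.log (qf (hess G y) v v)) x) w w
      - qf (hess (fun y => Real.log (qf (hess Gt y) v v)) x) w w
      ≤ (B + 2) * qf (hess G x) w w - (B + 1) * qf (hess Gt x) w w)
    (h3 : Real.log (hess G x).det - Real.log (hess Gt x).det ≤ 2 * B) :
    qf (hess G x) v v
      ≤ ((N * (B + 2) + B + 1) ^ (N - 1) * Real.exp (2 * B) + 1) * qf (hess Gt x) v v := by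
  have pt := posDef_of_ell (h.ell x).1 hε (h.ell x).2
  have a0 := qf_pos hp hv
  have t0 := qf_pos pt hv
  have c0 : (0 : ℝ) < N * (B + 2) + B + 1 := by positivity
  have c1 : 0 ≤ (N * (B + 2) + B + 1) ^ (N - 1) * Real.exp (2 * B) * qf (hess Gt x) v v := by
    positivity
  rcases le_total (qf (hess G x) v v) (qf (hess Gt x) v v) with c | c
  · linarith
  have b1 := trace_inv_mul_le (C := B + 2) hp
    (M := hess (fun y => Real.log (qf (hess G y) v v)) x + hess Gt x) fun w => by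
      rw [qf_add]
      linarith [h2 w, upper_C2 hε h hv x w]
  rw [Matrix.mul_add, trace_add] at b1
  have b2 : -B ≤ qf (hess (ldet G) x) v v / qf (hess G x) v v := by
    rw [le_div_iff₀ a0]
    nlinarith
  have b3 := eig_C2 pt hp c0 (fun w => (le_trace_inv_mul hp (h.ell x).1 (qf_nonneg pt) w).trans
    (mul_le_mul_of_nonneg_right (by linarith [lower_C2 hG hp hv]) (qf_nonneg hp w))) h3 v
  linarith

theorem sC2 (hC0 : C0Stmt) : C2Stmt := by
  intro N B
  obtain ⟨C, hC⟩ : ∃ C : ℝ, C = (N * (B + 2) + B + 1) ^ (N - 1) * Real.exp (2 * B) + 1 := ⟨_, rfl⟩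
  obtain ⟨L, hL⟩ : ∃ L : ℝ, L = Real.exp (Real.log C + (B + 1) * B + 1) := ⟨_, rfl⟩
  have L0 : 0 < L := hL ▸ Real.exp_pos _
  have L1 : 0 < L ^ (N - 1) * Real.exp (2 * B) := by positivity
  refine ⟨L + L ^ (N - 1) * Real.exp (2 * B), by positivity, fun ε K Gt H u hε hg hr hs => ?_⟩
  have hu := fun x => abs_le.1 (hC0 N B ε K Gt H u hε hg hr hs x)
  have hH := fun x => abs_le.1 (hr.zero x)
  have hB : 0 ≤ B := (abs_nonneg _).trans (hr.zero 0)
  obtain ⟨M, hM⟩ := hs.hb
  obtain ⟨c, c0, hc⟩ := hs.ell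
  have u5 : ContDiff ℝ 5 u := hM.contDiff
  have u2 : ContDiff ℝ 2 u := u5.of_le (by norm_num)
  have H3 : ContDiff ℝ 3 H := hr.hb.contDiff
  have t4 : ContDiff ℝ 4 Gt := hg.smooth.of_le (by norm_num)
  obtain ⟨G, hG⟩ : ∃ G : E N → ℝ, G = fun y => Gt y + u y := ⟨_, rfl⟩
  have G4 : ContDiff ℝ 4 G := hG ▸ t4.add (u5.of_le (by norm_num))
  have e1 : ∀ x, hess G x = hess Gt x + hess u x := fun x =>
    hG ▸ hess_add (t4.of_le (by norm_num)).contDiffAt u2.contDiffAt
  have e2 : ldet G = fun x => 2 * u x + H x := funext fun x => by rw [ldet, e1, hs.eqn]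
  have pt := fun x => posDef_of_ell (hg.ell x).1 hε (hg.ell x).2
  have pg : ∀ x, (hess G x).PosDef := fun x => e1 x ▸ posDef_of_ell (hc x).1 c0 (hc x).2
  have hd : ∀ x, |Real.log (hess G x).det - Real.log (hess Gt x).det| ≤ 2 * B := fun x => by
    have := congrFun e2 x
    have k := hH x
    rw [ldet] at this k
    exact abs_le.2 ⟨by linarith [hu x], by linarith [hu x]⟩
  have key : ∀ x v, qf (hess G x) v v ≤ L * qf (hess Gt x) v v := fun x v => by
    rcases eq_or_ne v 0 with rfl | hv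
    · simp [qf]
    have v0 : 0 < v ⬝ᵥ v := (qf_one v v).symm ▸ qf_pos PosDef.one hv
    have s1 : ContDiff ℝ 2 fun y => Real.log (qf (hess G y) v v) := contDiff_iff_contDiffAt.2
      fun y => (contDiffAt_qf_hess (k := 2) G4.contDiffAt v v).log (qf_pos (pg y) hv).ne'
    have s2 : ContDiff ℝ 2 fun y => Real.log (qf (hess Gt y) v v) := contDiff_iff_contDiffAt.2
      fun y => (contDiffAt_qf_hess (k := 2) t4.contDiffAt v v).log (qf_pos (pt y) hv).ne'
    have s3 : ContDiff ℝ 2 fun y => (B + 1) * u y := contDiff_const.mul u2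
    obtain ⟨y, y1, y2⟩ := approxMax ((s1.sub s2).sub s3) (ε := min 1 c)
      ⟨Real.log (N * (K + M) * (v ⬝ᵥ v)) - Real.log (ε * (v ⬝ᵥ v)) + (B + 1) * (B / 2), by
        rintro _ ⟨y, rfl⟩
        have k1 := Real.log_le_log (qf_pos (pg y) hv) ((le_abs_self _).trans
          (abs_qf_le_of_entry (K := K + M) (fun i j => by
            rw [e1]
            exact (abs_add_le _ _).trans (add_le_add ((hg.hb i j).bound y)
              ((HB.hessM (k := 3) hM i j).bound y))) v))
        have k2 := Real.log_le_log (mul_pos hε v0) ((hg.ell y).2 v)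
        have k3 := mul_le_mul_of_nonneg_left (hu y).1 (show 0 ≤ B + 1 by linarith)
        linarith⟩ (lt_min one_pos c0)
    have b1 := point_C2 hε hg hB hv G4.contDiffAt (pg y) (x := y)
      (by
        rw [e2, hess_add (contDiff_const.mul u2).contDiffAt (H3.of_le (by norm_num)).contDiffAt,
          hess_const_mul, e1, qf_add, qf_add, qf_smul]
        linarith [hr.two y v])
      (fun w => by
        have k1 := y2 w
        have k2 := (hc y).2 w
        have k3 := mul_le_mul_of_nonneg_right (min_le_right 1 c) (dot_self_nonneg' w)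
        rw [hess_sub (s1.sub s2).contDiffAt s3.contDiffAt, hess_sub s1.contDiffAt s2.contDiffAt,
          hess_const_mul, qf_sub, qf_sub, qf_smul] at k1
        rw [e1 y]
        rw [qf_add] at k2 ⊢
        linarith) (abs_le.1 (hd y)).2
    have C0 : 0 < C := by
      rw [hC]
      positivity
    rw [← hC] at b1
    have b2 := Real.log_le_log (qf_pos (pg y) hv) b1
    rw [Real.log_mul C0.ne' (qf_pos (pt y) hv).ne'] at b2
    have b3 := mul_le_mul_of_nonneg_left (hu y).1 (show 0 ≤ B + 1 by linarith)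
    have b4 := mul_le_mul_of_nonneg_left (hu x).2 (show 0 ≤ B + 1 by linarith)
    rw [← div_le_iff₀ (qf_pos (pt x) hv), hL,
      ← Real.log_le_iff_le_exp (div_pos (qf_pos (pg x) hv) (qf_pos (pt x) hv)),
      Real.log_div (qf_pos (pg x) hv).ne' (qf_pos (pt x) hv).ne']
    linarith [y1 x, min_le_left 1 c]
  intro x v
  have k1 := key x v
  have k2 := eig_C2 (D := 2 * B) (pg x) (pt x) L0 (key x) (by linarith [(abs_le.1 (hd x)).1]) v
  have k3 := mul_nonneg L1.le (qf_nonneg (pt x) v)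
  have k4 := mul_nonneg L0.le (qf_nonneg (pg x) v)
  rw [← e1]
  exact ⟨by linarith, by linarith⟩

end Pool.Agent.MP_5f4cdd_gt.CB
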