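import Pool.Agent.MP_5f4cdd_gt.CB.Api

set_option autoImplicit false
open MeasureTheory Matrix Set Filter Topology

namespace Pool.Agent.MP_5f4cdd_gt.CB
variable {N : ℕ}

theorem tq_C3 {A : Mat N} {c M : ℝ} {f : E N → ℝ} {x : E N} (hA : A.PosDef) (hc : 0 < c)
    (he : ∀ v, c * (v ⬝ᵥ v) ≤ qf A v v) (hf : ContDiffAt ℝ 3 f x)
    (h : ∀ k i j, |d3 f x (Pi.single k 1) i j| ≤ M) (v : E N) :
    (A⁻¹ * d3 f x v * A⁻¹ * d3 f x v).trace ≤ N ^ 8 * M ^ 2 / c ^ 3 * qf A v v := by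
  have h1 : ∀ i j, |d3 f x v i j| ≤ N * (‖v‖ * M) := fun i j => by
    rw [d3_eq_sum, Matrix.sum_apply]
    refine (Finset.abs_sum_le_sum_abs _ _).trans
      ((Finset.sum_le_card_nsmul _ _ (‖v‖ * M) fun k _ => ?_).trans (by simp))
    rw [Matrix.smul_apply, smul_eq_mul, abs_mul]
    exact mul_le_mul (norm_le_pi_norm v k) (h k i j) (abs_nonneg _) (norm_nonneg _)
  have h2 : ∀ w, ‖w‖ ^ 2 ≤ qf A w w / c := fun w => by
    rw [le_div_iff₀ hc]
    nlinarith [he w, norm_sq_le_dot w]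
  refine (tq_le_of_entry hA (d3_symm hf v) (C := N ^ 6 * M ^ 2 / c ^ 3 * qf A v v)
    fun w z => ?_).trans (le_of_eq (by ring))
  have h3 := pow_le_pow_left₀ (abs_nonneg _) (abs_qf_le_of_entry' h1 w z) 2
  rw [sq_abs] at h3
  have h4 : ‖v‖ ^ 2 * (‖w‖ ^ 2 * ‖z‖ ^ 2) ≤ qf A v v / c * (qf A w w / c * (qf A z z / c)) :=
    mul_le_mul (h2 v) (mul_le_mul (h2 w) (h2 z) (by positivity) ((sq_nonneg _).trans (h2 w)))
      (by positivity) ((sq_nonneg _).trans (h2 v))
  calc _ ≤ _ := h3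
    _ = N ^ 6 * M ^ 2 * (‖v‖ ^ 2 * (‖w‖ ^ 2 * ‖z‖ ^ 2)) := by ring
    _ ≤ N ^ 6 * M ^ 2 * (qf A v v / c * (qf A w w / c * (qf A z z / c))) :=
        mul_le_mul_of_nonneg_left h4 (by positivity)
    _ = _ := by ring

/-- a touching point -/
theorem touch_C3 {G p : E N → ℝ} {L : ℝ} (i : Fin N) (hG : ContDiff ℝ 3 G)
    (hp : ∀ x, (hess G x).PosDef) (hb : ∀ x v, cal G x v ≤ L * qf (hess G x) v v)
    (hc : Continuous p) (ht : Tendsto p (cocompact (E N)) atTop) :
    ∃ (m : ℝ) (y x : E N), (∀ z v, cal G z v ≤ 4 * (m + p z) * qf (hess G z) v v) ∧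
      qf (hess G y) x x = 1 ∧ cal G y x = 4 * (m + p y) := by
  let F : E N × E N → ℝ := fun q => cal G q.1 q.2 / (4 * qf (hess G q.1) q.2 q.2) - p q.1
  let s : Set (E N × E N) := univ ×ˢ Metric.sphere 0 1
  have h0 : ∀ q ∈ s, 0 < qf (hess G q.1) q.2 q.2 := fun q hq =>
    qf_pos (hp _) (ne_zero_of_mem_unit_sphere ⟨q.2, hq.2⟩)
  have h1 : ContinuousOn F s := fun q hq => by
    have k1 : ContinuousAt (fun q : E N × E N => hess G q.1) q :=
      (continuousAt_hess (hG.of_le (by norm_num)).contDiffAt).comp continuousAt_fst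
    have k2 : ContinuousAt (fun q : E N × E N => qf (hess G q.1) q.2 q.2) q :=
      continuous_qf.continuousAt.comp (k1.prodMk (continuousAt_snd.prodMk continuousAt_snd))
    exact (((continuousAt_cal hG.contDiffAt (hp q.1) q.2).div (k2.const_mul 4)
      (mul_pos four_pos (h0 q hq)).ne').sub
      (hc.continuousAt.comp continuousAt_fst)).continuousWithinAt
  have h2 : ((0 : E N), (Pi.single i 1 : E N)) ∈ s := ⟨trivial, by simp [Pi.norm_single]⟩
  obtain ⟨q, hq, hm⟩ := h1.exists_isMaxOn' (isClosed_univ.prod Metric.isClosed_sphere) h2 (by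
    obtain ⟨T, hT, k⟩ := mem_cocompact.1 (ht.eventually_ge_atTop (L / 4 - F (0, Pi.single i 1)))
    rw [eventually_inf_principal]
    refine mem_cocompact.2 ⟨_, hT.prod (isCompact_sphere (0 : E N) 1), fun q hq hs => ?_⟩
    have k1 : L / 4 - F (0, Pi.single i 1) ≤ p q.1 := k fun h => hq ⟨h, hs.2⟩
    have k2 : cal G q.1 q.2 / (4 * qf (hess G q.1) q.2 q.2) ≤ L / 4 := by
      rw [div_le_iff₀ (mul_pos four_pos (h0 q hs))]
      linarith [hb q.1 q.2]
    change cal G q.1 q.2 / (4 * qf (hess G q.1) q.2 q.2) - p q.1 ≤ _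
    linarith)
  have h3 := h0 q hq
  have h4 : (√(qf (hess G q.1) q.2 q.2))⁻¹ ^ 2 = (qf (hess G q.1) q.2 q.2)⁻¹ := by
    rw [inv_pow, Real.sq_sqrt h3.le]
  refine ⟨F q, q.1, (√(qf (hess G q.1) q.2 q.2))⁻¹ • q.2, fun z v => ?_, ?_, ?_⟩
  · rcases eq_or_ne v 0 with rfl | hv
    · have k1 := cal_smul G z 0 0
      have k2 := qf_smul_left (hess G z) 0 0 0
      rw [zero_smul] at k1 k2
      rw [k1, k2]
      simp
    · have k0 : ‖v‖ ≠ 0 := norm_ne_zero_iff.2 hv
      have k1 : (z, ‖v‖⁻¹ • v) ∈ s := ⟨trivial, by simp [norm_smul, k0]⟩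
      have k2 := isMaxOn_iff.1 hm _ k1
      rw [show F (z, ‖v‖⁻¹ • v) = cal G z (‖v‖⁻¹ • v) /
        (4 * qf (hess G z) (‖v‖⁻¹ • v) (‖v‖⁻¹ • v)) - p z from rfl, sub_le_iff_le_add,
        div_le_iff₀ (mul_pos four_pos (h0 _ k1)), cal_smul, qf_smul_left, qf_smul_right] at k2
      refine le_of_mul_le_mul_left (a := ‖v‖⁻¹ ^ 2) ?_ (by positivity)
      linarith
  · rw [qf_smul_left, qf_smul_right, ← mul_assoc, ← sq, h4, inv_mul_cancel₀ h3.ne']
  · rw [cal_smul, h4]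
    change _ = 4 * (cal G q.1 q.2 / (4 * qf (hess G q.1) q.2 q.2) - p q.1 + p q.1)
    field_simp
    ring

theorem num_C3 {m a b d : ℝ} (ha : 0 ≤ a) (hb : 0 ≤ b) (hd : 0 ≤ d)
    (h : 2 * m ^ 2 - 2 * m ≤ a + 3 * b * m + d * √m) : m ≤ 2 + a + 3 * b + d := by
  rcases le_or_gt m 1 with h1 | h1
  · linarith
  · have h2 : √m ≤ m := Real.sqrt_le_self_iff.2 (Or.inr h1.le)
    have h3 := mul_le_mul_of_nonneg_left h2 hd
    have h4 := mul_le_mul_of_nonneg_left h1.le ha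
    refine le_of_mul_le_mul_right (a := m) ?_ (by linarith)
    nlinarith

/-- the global bound for the Calabi quantity -/
theorem glob_C3 (hCal : CalStmt) {G H : E N → ℝ} {L c K1 K2 : ℝ} (i : Fin N) (hc : 0 < c)
    (h1 : 0 ≤ K1) (h2 : 0 ≤ K2) (hG : ContDiff ℝ 5 G) (hH : ContDiff ℝ 3 H)
    (hp : ∀ x, (hess G x).PosDef) (he : ∀ x v, c * (v ⬝ᵥ v) ≤ qf (hess G x) v v)
    (hq : ∀ x, ldet G x = 2 * G x + H x) (hb : ∀ x v, cal G x v ≤ L * qf (hess G x) v v)
    (h3 : ∀ x v, qf (hess H x) v v ≤ K1 * qf (hess G x) v v)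
    (h4 : ∀ x v, ((hess G x)⁻¹ * d3 H x v * (hess G x)⁻¹ * d3 H x v).trace ≤
      K2 * qf (hess G x) v v) (z v : E N) :
    cal G z v ≤ 4 * (2 + N * (2 / c) + 3 * K1 + (K2 + 1)) * qf (hess G z) v v := by
  obtain ⟨p, p1, p2, p3, p4⟩ := exists_pen N
  have key : ∀ δ ∈ Ioc (0 : ℝ) 1, cal G z v ≤
      4 * (2 + N * (2 / c) + 3 * K1 + (K2 + 1) + δ * p z) * qf (hess G z) v v := by
    rintro δ ⟨d0, d1⟩
    have k0 : ContDiff ℝ 2 fun x => δ * p x := contDiff_const.mul p1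
    obtain ⟨m, y, x, k1, k2, k3⟩ := touch_C3 (p := fun x => δ * p x) i (hG.of_le (by norm_num))
      hp hb k0.continuous (p3.const_mul_atTop d0)
    have k4 := hCal N G H (fun x => m + δ * p x) y x K1 (K2 + 1) h1 (by linarith) hG.contDiffAt
      (hp y) hH.contDiffAt (contDiff_const.add k0).contDiffAt (Eventually.of_forall hq)
      (Eventually.of_forall k1) k2 k3 (h3 y) (by nlinarith [h4 y x])
    have k5 : Lop G (fun x => m + δ * p x) y ≤ N * (2 / c) := by
      refine trace_inv_mul_le (hp y) fun w => ?_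
      rw [hess_add contDiffAt_const k0.contDiffAt, hess_const, hess_const_mul, zero_add, qf_smul,
        div_mul_eq_mul_div, le_div_iff₀ hc]
      have l1 := mul_le_mul_of_nonneg_left (p4 y w) d0.le
      have l2 := mul_le_mul_of_nonneg_right d1 (dot_self_nonneg' w)
      nlinarith [he y w]
    have k6 := num_C3 (m := m + δ * p y) (a := N * (2 / c)) (by positivity) h1
      (show 0 ≤ K2 + 1 by linarith) (by linarith)
    refine (k1 z v).trans (mul_le_mul_of_nonneg_right ?_ (qf_nonneg (hp z) v))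
    linarith [mul_nonneg d0.le (p2 y)]
  have hl : Continuous fun δ : ℝ =>
      4 * (2 + N * (2 / c) + 3 * K1 + (K2 + 1) + δ * p z) * qf (hess G z) v v := by fun_prop
  have := ge_of_tendsto ((hl.tendsto 0).mono_left (nhdsWithin_le_nhds (s := Ioi 0)))
    (eventually_of_mem (Ioc_mem_nhdsGT one_pos) key)
  rwa [zero_mul, add_zero] at this

theorem sC3 (hCal : CalStmt) : C3Stmt := by
  intro N c K hc
  refine ⟨4 * (2 + N * (2 / c) + 3 * (N * (3 * K) / c) + (N ^ 8 * (3 * K) ^ 2 / c ^ 3 + 1)) * K *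
    (K * K) + 1 + K, fun B ε Gt H u hB hH hS hE hK i j k x => ?_⟩
  obtain ⟨M, hM⟩ := hS.hb
  have K0 : 0 ≤ K := hH.nonneg
  have t5 : ContDiff ℝ 5 Gt := hB.smooth.of_le (by norm_num)
  have t3 : ContDiff ℝ 3 Gt := hB.smooth.of_le (by norm_num)
  have t2 : ContDiff ℝ 2 Gt := hB.smooth.of_le (by norm_num)
  have u5 : ContDiff ℝ 5 u := hM.contDiff
  have u3 : ContDiff ℝ 3 u := u5.of_le (by norm_num)
  have H3 : ContDiff ℝ 3 H := hH.contDiff
  have s3 : ContDiff ℝ 3 fun y => -2 * Gt y := contDiff_const.mul t3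
  have e2 : ∀ x, hess (fun y => Gt y + u y) x = hess Gt x + hess u x := fun x =>
    hess_add t2.contDiffAt (u5.of_le (by norm_num)).contDiffAt
  have e3 : ∀ x v, d3 (fun y => Gt y + u y) x v = d3 Gt x v + d3 u x v := fun x =>
    d3_add t3.contDiffAt u3.contDiffAt
  have he : ∀ x v, c * (v ⬝ᵥ v) ≤ qf (hess (fun y => Gt y + u y) x) v v := fun x => by
    rw [e2]
    exact (hE x).2
  have hp : ∀ x, (hess (fun y => Gt y + u y) x).PosDef := fun x =>
    posDef_of_ell (by rw [e2]; exact (hE x).1) hc (he x)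
  have b1 : ∀ x k i j, |d3 Gt x (Pi.single k 1) i j| ≤ K := fun x k i j =>
    (HB.pd (k := 2) (hB.hb i j) k).bound x
  have b2 : ∀ x k i j, |d3 u x (Pi.single k 1) i j| ≤ M := fun x k i j =>
    (HB.pd (k := 2) (HB.pd (k := 3) (HB.pd (k := 4) hM j) i) k).bound x
  have b3 : ∀ x k i j, |d3 H x (Pi.single k 1) i j| ≤ K := fun x k i j =>
    (HB.pd (k := 0) (HB.pd (k := 1) (HB.pd (k := 2) hH j) i) k).bound x
  have hg := glob_C3 hCal (G := fun y => Gt y + u y) (H := fun y => H y + -2 * Gt y)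
    (L := N ^ 8 * (K + M) ^ 2 / c ^ 3) (K1 := N * (3 * K) / c) (K2 := N ^ 8 * (3 * K) ^ 2 / c ^ 3)
    i hc (by positivity) (by positivity) (t5.add u5) (H3.add s3) hp he
    (fun x => by rw [ldet, e2, hS.eqn]; ring)
    (fun x => tq_C3 (hp x) hc (he x) (t3.add u3).contDiffAt
      fun k i j => by
        rw [e3, Matrix.add_apply]
        exact (abs_add_le _ _).trans (add_le_add (b1 x k i j) (b2 x k i j)))
    (fun x v => by
      have k1 : ∀ i j, |hess (fun y => H y + -2 * Gt y) x i j| ≤ 3 * K := fun i j => by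
        rw [hess_add (H3.of_le (by norm_num)).contDiffAt (s3.of_le (by norm_num)).contDiffAt,
          hess_const_mul, Matrix.add_apply, Matrix.smul_apply, smul_eq_mul]
        have l1 : |hess H x i j| ≤ K := (HB.pd (k := 1) (HB.pd (k := 2) hH j) i).bound x
        have l2 := abs_le.1 ((hB.hb i j).bound x)
        have l3 := abs_le.1 l1
        exact abs_le.2 ⟨by linarith, by linarith⟩
      refine (le_abs_self _).trans ((abs_qf_le_of_entry k1 v).trans ?_)
      rw [div_mul_eq_mul_div, le_div_iff₀ hc]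
      linarith [mul_le_mul_of_nonneg_left (he x v) (show 0 ≤ N * (3 * K) by positivity)])
    (fun x => tq_C3 (hp x) hc (he x) (H3.add s3).contDiffAt
      fun k i j => by
        rw [d3_add H3.contDiffAt s3.contDiffAt, d3_const_mul, Matrix.add_apply, Matrix.smul_apply,
          smul_eq_mul]
        have l2 := abs_le.1 (b1 x k i j)
        have l3 := abs_le.1 (b3 x k i j)
        exact abs_le.2 ⟨by linarith, by linarith⟩) x (Pi.single i 1)
  have g1 : ∀ i, 0 ≤ qf (hess (fun y => Gt y + u y) x) (Pi.single i 1) (Pi.single i 1) ∧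
      qf (hess (fun y => Gt y + u y) x) (Pi.single i 1) (Pi.single i 1) ≤ K := fun i =>
    ⟨qf_nonneg (hp x) _, by rw [qf_single, e2]; exact (le_abs_self _).trans (hK x i i)⟩
  have g2 := (tq_entry (hp x) (d3_symm (t3.add u3).contDiffAt (Pi.single i 1)) (Pi.single j 1)
    (Pi.single k 1)).trans (mul_le_mul (hg.trans (mul_le_mul_of_nonneg_left (g1 i).2
      (by positivity))) (mul_le_mul (g1 j).2 (g1 k).2 (g1 k).1 K0)
      (mul_nonneg (g1 j).1 (g1 k).1) (by positivity))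
  rw [qf_single, e3, Matrix.add_apply] at g2
  have g3 := abs_le.1 (b1 x i j k)
  change |d3 u x (Pi.single i 1) j k| ≤ _
  generalize d3 u x (Pi.single i 1) j k = a at g2 ⊢
  generalize d3 Gt x (Pi.single i 1) j k = b at g2 g3
  exact abs_le.2 ⟨by nlinarith [sq_nonneg (b + a + 1)], by nlinarith [sq_nonneg (b + a - 1)]⟩

end Pool.Agent.MP_5f4cdd_gt.CB
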