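import Pool.Agent.MP_5f4cdd_gt.CB.Api

set_option autoImplicit false
open MeasureTheory Matrix Set Filter Topology

namespace Pool.Agent.MP_5f4cdd_gt.CB

theorem op_lin_CC {N : ℕ} (S : Mat N) (u : E N → ℝ) (hu : ContDiff ℝ 2 u) (z : E N) :
    op (fun _ => (1 : Mat N)) (fun y => u (S *ᵥ y)) z = op (fun _ => S * Sᵀ) u (S *ᵥ z) := by
  have h := hess_aff (u := u) 0 S z hu.contDiffAt
  simp only [zero_add] at h
  unfold op
  rw [h, Matrix.one_mul, Matrix.trace_mul_cycle]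

theorem ell_one_CC (N : ℕ) : Ell 0 (fun _ : E N => (1 : Mat N)) := by
  intro x
  refine ⟨Matrix.isSymm_one, fun v => ?_⟩
  rw [qf_one, zero_mul]
  exact dot_self_nonneg' v

theorem uniq_CC (hMP : MPStmt) {N : ℕ} {w w' : E N → ℝ} {M M' : ℝ} (h : HB 2 M w)
    (h' : HB 2 M' w')
    (he : ∀ x, op (fun _ => (1 : Mat N)) w' x = op (fun _ => (1 : Mat N)) w x) : w = w' := by
  have hs := h.sub h'
  have hw : ContDiff ℝ 2 w := h.contDiff
  have hw' : ContDiff ℝ 2 w' := h'.contDiff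
  have key := hMP N (fun _ => (1 : Mat N)) (fun x => w x - w' x) 1 0 (M + M') (ell_one_CC N)
    (fun _ i j => by
      rw [Matrix.one_apply]
      split_ifs <;> simp)
    (hw.sub hw') (fun x => hs.bound x)
    (fun x => by
      have h1 := he x
      unfold op at h1 ⊢
      rw [hess_sub hw.contDiffAt hw'.contDiffAt, Matrix.mul_sub, Matrix.trace_sub]
      have : (1 * hess w x).trace - (1 * hess w' x).trace - 2 * (w x - w' x) = 0 := by
        linarith
      rw [this, abs_zero])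
  funext x
  have h2 := key x
  rw [zero_div] at h2
  have h3 : w x - w' x = 0 := abs_nonpos_iff.mp h2
  linarith

theorem sCC (hRes : ResStmt) (hMP : MPStmt) : CCStmt := by
  intro N c K hc
  obtain ⟨C1, hC1, H1⟩ := HB_lin N 0 (K + 1)
  obtain ⟨C1', -, H1'⟩ := HB_lin N 2 (K + 1)
  obtain ⟨C2, hC2, H2⟩ := hRes N 0
  obtain ⟨C3, hC3, H3⟩ := HB_lin N 2 (1 / c + 1)
  refine ⟨C3 * (C2 * C1), by positivity, ?_⟩
  rintro A u M hE hK ⟨M', hu⟩ hop
  obtain ⟨S, hS, hdet, hSK, hSi⟩ := exists_sqrt (hE 0).1 hc (hE 0).2 hK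
  have hu2 : ContDiff ℝ 2 u := hu.contDiff
  have hw : HB 2 (C1' * M') (fun x => u (S *ᵥ x)) := H1' S M' u hSK hu
  have hf : HB 0 (C1 * M) (fun x => op (fun _ => A) u (S *ᵥ x)) := H1 S M _ hSK hop
  obtain ⟨w', hw', he⟩ := H2 _ _ hf
  have hww : (fun x => u (S *ᵥ x)) = w' := by
    refine uniq_CC hMP hw hw' fun x => ?_
    rw [he x, op_lin_CC S u hu2 x, hS]
  rw [← hww] at hw'
  have h4 := H3 S⁻¹ _ _ hSi hw'
  have hunit : IsUnit S.det := isUnit_iff_ne_zero.mpr hdet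
  have h5 : (fun x => u (S *ᵥ (S⁻¹ *ᵥ x))) = u := by
    funext x
    rw [Matrix.mulVec_mulVec, Matrix.mul_nonsing_inv S hunit, Matrix.one_mulVec]
  rw [h5] at h4
  have h6 : C3 * (C2 * C1) * M = C3 * (C2 * (C1 * M)) := by ring
  rw [h6]
  exact h4

end Pool.Agent.MP_5f4cdd_gt.CB
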