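import Pool.Agent.MP_5f4cdd_gt.CB.Api

set_option autoImplicit false
open MeasureTheory Matrix Set Filter Topology

namespace Pool.Agent.MP_5f4cdd_gt.CB

lemma d3_const_Cal {N : ℕ} (c : ℝ) (x v : E N) : d3 (fun _ : E N => c) x v = 0 := by
  rw [← hess_dd contDiffAt_const v, show dd v (fun _ : E N => c) = fun _ => 0 from
    funext fun y => dd_const c v y, hess_const]

lemma norm_Cal (hCal1 : Cal1Stmt) {N : ℕ} {G H μ : E N → ℝ} {x : E N} {K1 K2 c : ℝ}
    (hK2 : 0 ≤ K2) (hG : ContDiffAt ℝ 5 G 0) (h1 : hess G 0 = 1) (hH : ContDiffAt ℝ 3 H 0)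
    (hμ : ContDiffAt ℝ 2 μ 0) (he : ∀ᶠ z in 𝓝 (0 : E N), ldet G z = 2 * G z + (H z + c))
    (hc : ∀ᶠ z in 𝓝 (0 : E N), ∀ v, cal G z v ≤ 4 * μ z * qf (hess G z) v v)
    (hx : x ⬝ᵥ x = 1) (hm : cal G 0 x = 4 * μ 0)
    (h2 : ∀ v, qf (hess H 0) v v ≤ K1 * (v ⬝ᵥ v))
    (h3 : (d3 H 0 x * d3 H 0 x).trace ≤ K2 ^ 2) :
    2 * μ 0 ^ 2 - 2 * μ 0 ≤ (hess μ 0).trace + 3 * K1 * μ 0 + K2 * √(μ 0) := by
  have hG3 : ContDiffAt ℝ 3 G 0 := hG.of_le (by norm_num)
  have hG2 : ContDiffAt ℝ 2 G 0 := hG.of_le (by norm_num)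
  have hH2 : ContDiffAt ℝ 2 H 0 := hH.of_le (by norm_num)
  have he' : ldet G =ᶠ[𝓝 0] fun z => 2 * G z + (H z + c) := he
  have e2 : hess (ldet G) 0 = (2 : ℝ) • (1 : Mat N) + hess H 0 := by
    rw [(hess_congr he').eq_of_nhds,
      hess_add (contDiffAt_const.mul hG2) (hH2.add contDiffAt_const), hess_const_mul, h1,
      hess_add hH2 contDiffAt_const, hess_const, add_zero]
  have e3 : d3 (ldet G) 0 x = (2 : ℝ) • d3 G 0 x + d3 H 0 x := by
    rw [d3_congr he', d3_add (contDiffAt_const.mul hG3) (hH.add contDiffAt_const), d3_const_mul,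
      d3_add hH contDiffAt_const, d3_const_Cal, add_zero]
  have h := hCal1 N G μ x hG h1 hμ hc hx hm
  have hX := d3_symm hG3 x
  have hY := d3_symm hH x
  have p1 : (1 : Mat N).PosDef := Matrix.PosDef.one
  have k0 := tq_nonneg p1 hX
  have k1 := tq_weight p1 hX (M := hess H 0) (K := K1) fun v => by rw [qf_one]; exact h2 v
  have k2 := tq_cs p1 hY hX
  have k3 := h2 x
  rw [cal, h1] at hm
  rw [e2, e3, qf_add, qf_smul, qf_one] at h
  simp only [inv_one, Matrix.one_mul, Matrix.mul_one] at hm k0 k1 k2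
  simp only [Matrix.add_mul, Matrix.smul_mul, Matrix.one_mul, trace_add, trace_smul,
    smul_eq_mul] at h
  rw [hm] at h k0 k1 k2
  rw [hx] at h k3
  have hm0 : 0 ≤ μ 0 := by linarith
  have k4 : (d3 H 0 x * d3 G 0 x).trace ^ 2 ≤ (2 * (K2 * √(μ 0))) ^ 2 := by
    refine k2.trans ((mul_le_mul_of_nonneg_right h3 k0).trans_eq ?_)
    rw [mul_pow, mul_pow, Real.sq_sqrt hm0]
    ring
  have k5 := (abs_le_of_sq_le_sq' k4 (by positivity)).1
  nlinarith [mul_le_mul_of_nonneg_left k3 hm0]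

theorem sCal (hCal1 : Cal1Stmt) : CalStmt := by
  intro N G H μ y x K1 K2 _ hK2 hG hp hH hμ he hc hx hm h2 h3
  obtain ⟨S, hS, h1, -⟩ := exists_frame hp
  have h0 : y + S *ᵥ (0 : E N) = y := by rw [mulVec_zero, add_zero]
  have ht : Tendsto (fun z : E N => y + S *ᵥ z) (𝓝 0) (𝓝 y) := by
    have hcont : Continuous fun z : E N => y + S *ᵥ z :=
      continuous_const.add (continuous_const.matrix_mulVec continuous_id)
    have h := hcont.tendsto 0
    rwa [h0] at h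
  have hxx : S *ᵥ (S⁻¹ *ᵥ x) = x := by
    rw [mulVec_mulVec, mul_nonsing_inv S (isUnit_iff_ne_zero.2 hS), one_mulVec]
  have hG2 : ContDiffAt ℝ 2 G y := hG.of_le (by norm_num)
  have hG3 : ContDiffAt ℝ 3 G y := hG.of_le (by norm_num)
  have hH2 : ContDiffAt ℝ 2 H y := hH.of_le (by norm_num)
  have ev := ht.eventually (hG3.eventually (by simp))
  have hcal : ∀ z v : E N, ContDiffAt ℝ 3 G (y + S *ᵥ z) →
      cal (fun w => G (y + S *ᵥ w)) z v = cal G (y + S *ᵥ z) (S *ᵥ v) := fun z v hz => by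
    rw [cal, cal, hess_aff y S z (hz.of_le (by norm_num)), d3_aff y S z v hz, tq_conj hS]
  have hdot : ∀ v : E N, v ⬝ᵥ v = qf (hess G y) (S *ᵥ v) (S *ᵥ v) := fun v => by
    rw [← qf_conj, h1, qf_one]
  have h := norm_Cal hCal1 (G := fun w => G (y + S *ᵥ w)) (H := fun w => H (y + S *ᵥ w))
    (μ := fun w => μ (y + S *ᵥ w)) (x := S⁻¹ *ᵥ x) (K1 := K1) (c := Real.log (S.det * S.det)) hK2
    (contDiffAt_aff (k := 5) y S 0 (h0.symm ▸ hG))
    (by rw [hess_aff y S 0 (h0.symm ▸ hG2), h0, h1])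
    (contDiffAt_aff (k := 3) y S 0 (h0.symm ▸ hH))
    (contDiffAt_aff (k := 2) y S 0 (h0.symm ▸ hμ)) ?_ ?_ (by rw [hdot, hxx, hx])
    (by rw [hcal 0 _ (h0.symm ▸ hG3), hxx, h0, hm])
    (fun v => by rw [hess_aff y S 0 (h0.symm ▸ hH2), h0, qf_conj, hdot]; exact h2 _) ?_
  · have k := trace_conj hS (hess G y) (hess μ y)
    rw [h1, inv_one, Matrix.one_mul] at k
    rw [hess_aff y S 0 (h0.symm ▸ hμ), h0, k] at h
    exact h
  · filter_upwards [ev, ht.eventually he, ht.eventually (eventually_posDef_hess hG2 hp)]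
      with z k1 k2 k3
    rw [ldet, hess_aff y S z (k1.of_le (by norm_num)), det_mul, det_mul, det_transpose,
      mul_right_comm, Real.log_mul (mul_ne_zero hS hS) k3.det_pos.ne', ← add_assoc, ← k2, ldet,
      add_comm]
  · filter_upwards [ev, ht.eventually hc] with z k1 k2 v
    rw [hcal z v k1, hess_aff y S z (k1.of_le (by norm_num)), qf_conj]
    exact k2 _
  · have k := tq_conj hS (hess G y) (d3 H y x) (d3 H y x)
    rw [h1, inv_one, Matrix.one_mul, Matrix.mul_one] at k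
    rw [d3_aff y S 0 _ (h0.symm ▸ hH), h0, hxx, k]
    exact h3

end Pool.Agent.MP_5f4cdd_gt.CB
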