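import Pool.Agent.MP_5f4cdd_gt.CB.Api

set_option autoImplicit false
open MeasureTheory Matrix Set Filter Topology

namespace Pool.Agent.MP_5f4cdd_gt.CB

variable {N : ℕ}

theorem tr_mul_Cal1 (X M : Mat N) : (X * M).trace = ∑ i, ∑ j, X i j * M j i := by
  simp only [Matrix.trace, Matrix.diag_apply, Matrix.mul_apply]

theorem tr_qf_Cal1 (M : Mat N) :
    M.trace = ∑ m, qf M (Pi.single m 1) (Pi.single m 1) := by
  simp only [qf_single, Matrix.trace, Matrix.diag_apply]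

theorem tr_comb_Cal1 (P : Mat N) (c : Fin N → ℝ) (A : Fin N → Mat N) :
    (P * ∑ k, c k • A k).trace = ∑ k, c k * (P * A k).trace := by
  simp only [Finset.mul_sum, Matrix.trace_sum, Matrix.mul_smul, Matrix.trace_smul, smul_eq_mul]

theorem sCal1 (hCal1a : Cal1aStmt) (hCalAlg : CalAlgStmt) : Cal1Stmt := by
  intro N G μ x hG h1 hμ hev hx hc
  have h4 : ContDiffAt ℝ 4 G 0 := hG.of_le (by norm_num)
  have h3 : ContDiffAt ℝ 3 G 0 := hG.of_le (by norm_num)
  have hp : (hess G 0).PosDef := h1 ▸ Matrix.PosDef.one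
  have hF2 : ContDiffAt ℝ 2 (ldet G) 0 := contDiffAt_ldet (k := 2) h4 hp
  have hXs : (d3 G 0 x).IsSymm := d3_symm h3 x
  have hXe : ∀ i j, d3 G 0 x i j = d3 G 0 x j i := fun i j => (hXs.apply i j).symm
  have hAlg := hCalAlg N (fun i j k => d3 G 0 (Pi.single i 1) j k)
    (fun i j k => d4 G 0 (Pi.single i 1) x j k) (d3 G 0 x)
    (fun i j k => by rw [← qf_single (d3 G 0 (Pi.single i 1)), d3_swap h3, qf_single])
    (fun i j k => ((d3_symm h3 _).apply j k).symm)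
    (fun i j k => by
      rw [← qf_single (d4 G 0 (Pi.single i 1) x), d4_comm h4, d4_swap h4, d4_comm h4, qf_single])
    (fun i j k => ((d4_symm h4 _ _).apply j k).symm) hXs
  have hA := fun m : Fin N => hCal1a N G μ x (Pi.single m 1) hG h1 hμ hev hx hc
  have f1 : ∀ m : Fin N, d3 G 0 (Pi.single m 1) *ᵥ x = fun k => d3 G 0 x m k := fun m => by
    rw [d3_mulVec_swap h3]
    funext k
    rw [Matrix.mulVec_single_one]
    exact hXe k m
  have f2 : ∀ m : Fin N, d3 G 0 (fun k => d3 G 0 x m k) =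
      ∑ k, d3 G 0 x m k • d3 G 0 (Pi.single k 1) := fun m => d3_eq_sum G 0 _
  have f2' : ∀ m : Fin N, d4 G 0 (Pi.single m 1) (fun k => d3 G 0 x m k) =
      ∑ k, d3 G 0 x m k • d4 G 0 (Pi.single m 1) (Pi.single k 1) := fun m => d4_eq_sum h4 _ _
  have f0 : (d3 G 0 x * d3 G 0 x).trace = 4 * μ 0 := by
    rw [← hc, cal, h1, inv_one, Matrix.one_mul, Matrix.mul_one]
  have f3 : ∑ m : Fin N, ((fun k => d3 G 0 x m k) ⬝ᵥ fun k => d3 G 0 x m k) = 4 * μ 0 := by
    rw [← f0, tr_mul_Cal1]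
    exact Finset.sum_congr rfl fun m _ => Finset.sum_congr rfl fun k _ => by rw [hXe k m]
  have f4 : ∀ v w, ∑ m : Fin N, qf (d4 G 0 (Pi.single m 1) (Pi.single m 1)) v w =
      qf (hess (ldet G) 0) v w + (d3 G 0 v * d3 G 0 w).trace := fun v w => by
    have h := dd2_ldet h4 hp v w
    rw [h1, inv_one, Matrix.one_mul, Matrix.one_mul, Matrix.mul_one, dd_dd_eq_qf hF2,
      tr_qf_Cal1 (d4 G 0 v w)] at h
    rw [h, sub_add_cancel]
    exact Finset.sum_congr rfl fun m _ => d4_pair h4 _ _ _ _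
  have f5 : ∑ m : Fin N, (d4 G 0 (Pi.single m 1) (Pi.single m 1) * d3 G 0 x * d3 G 0 x).trace =
      (hess (ldet G) 0 * d3 G 0 x * d3 G 0 x).trace +
      ∑ m : Fin N, ((∑ k, d3 G 0 x m k • d3 G 0 (Pi.single k 1)) *
        ∑ k, d3 G 0 x m k • d3 G 0 (Pi.single k 1)).trace := by
    have e1 : ∑ m : Fin N, d4 G 0 (Pi.single m 1) (Pi.single m 1) = hess (ldet G) 0 +
        Matrix.of fun i j => (d3 G 0 (Pi.single i 1) * d3 G 0 (Pi.single j 1)).trace := by
      ext i j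
      have h := f4 (Pi.single i 1) (Pi.single j 1)
      simp only [qf_single] at h
      rw [Matrix.sum_apply, h, Matrix.add_apply, Matrix.of_apply]
    rw [← Matrix.trace_sum, ← Finset.sum_mul, ← Finset.sum_mul, e1, add_mul, add_mul,
      Matrix.trace_add, Matrix.mul_assoc (Matrix.of _), tr_mul_Cal1 (Matrix.of _)]
    congr 1
    simp only [tr_comb_Cal1]
    simp only [Matrix.trace_mul_comm (∑ k, _ • _), tr_comb_Cal1]
    simp only [Matrix.of_apply, Matrix.mul_apply, Finset.mul_sum]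
    symm
    rw [Finset.sum_comm]
    refine Finset.sum_congr rfl fun i _ => ?_
    rw [Finset.sum_comm]
    refine Finset.sum_congr rfl fun j _ => Finset.sum_congr rfl fun m _ => ?_
    rw [hXe j m]
    ring
  have f6 : ∀ i j : Fin N,
      ∑ m : Fin N, d5 G 0 (Pi.single m 1) (Pi.single m 1) x j i = d3 (ldet G) 0 x i j +
        (d3 G 0 x * d4 G 0 (Pi.single i 1) (Pi.single j 1)).trace +
        (d4 G 0 (Pi.single i 1) x * d3 G 0 (Pi.single j 1)).trace +
        (d4 G 0 (Pi.single j 1) x * d3 G 0 (Pi.single i 1)).trace -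
        (d3 G 0 x * d3 G 0 (Pi.single i 1) * d3 G 0 (Pi.single j 1)).trace -
        (d3 G 0 (Pi.single i 1) * d3 G 0 x * d3 G 0 (Pi.single j 1)).trace := fun i j => by
    have h := dd3_ldet hG hp x (Pi.single i 1) (Pi.single j 1)
    simp only [h1, inv_one, Matrix.one_mul, Matrix.mul_one] at h
    have e1 : ∑ m : Fin N, d5 G 0 (Pi.single m 1) (Pi.single m 1) x j i =
        (d5 G 0 x (Pi.single i 1) (Pi.single j 1)).trace := by
      rw [tr_qf_Cal1]
      refine Finset.sum_congr rfl fun m _ => ?_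
      rw [← qf_single (d5 G 0 _ _ x), d5_pair hG, d5_swap23 hG, d5_swap12 hG, d5_swap23 hG]
    have e2 : d3 (ldet G) 0 x i j =
      dd x (dd (Pi.single i 1) (dd (Pi.single j 1) (ldet G))) 0 := rfl
    rw [e1, e2, h, d4_comm h4 x, d4_comm h4 x,
      Matrix.trace_mul_comm (d3 G 0 (Pi.single i 1)) (d4 G 0 (Pi.single j 1) x)]
    ring
  have f7 : ∑ m : Fin N, (d3 G 0 x * (d5 G 0 (Pi.single m 1) (Pi.single m 1) x -
        ∑ k, d3 G 0 x m k • d4 G 0 (Pi.single m 1) (Pi.single k 1))).trace =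
      (d3 (ldet G) 0 x * d3 G 0 x).trace +
      2 * ∑ m : Fin N, (d4 G 0 (Pi.single m 1) x *
        ∑ k, d3 G 0 x m k • d3 G 0 (Pi.single k 1)).trace -
      ∑ m : Fin N, ((d3 G 0 (Pi.single m 1) * d3 G 0 x *
          ∑ k, d3 G 0 x m k • d3 G 0 (Pi.single k 1)).trace +
        (d3 G 0 x * d3 G 0 (Pi.single m 1) *
          ∑ k, d3 G 0 x m k • d3 G 0 (Pi.single k 1)).trace) := by
    have e1 : ∑ m : Fin N, (d3 G 0 x * d5 G 0 (Pi.single m 1) (Pi.single m 1) x).trace =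
        ∑ i, ∑ j, d3 G 0 x i j * ∑ m : Fin N, d5 G 0 (Pi.single m 1) (Pi.single m 1) x j i := by
      rw [← Matrix.trace_sum, ← Finset.mul_sum, tr_mul_Cal1]
      simp only [Matrix.sum_apply]
    have e2 : (d3 (ldet G) 0 x * d3 G 0 x).trace =
        ∑ i, ∑ j, d3 G 0 x i j * d3 (ldet G) 0 x i j := by
      rw [tr_mul_Cal1]
      refine Finset.sum_congr rfl fun i _ => Finset.sum_congr rfl fun j _ => ?_
      rw [hXe j i, mul_comm]
    have e3 : ∑ i, ∑ j, d3 G 0 x i j *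
        (d4 G 0 (Pi.single j 1) x * d3 G 0 (Pi.single i 1)).trace =
        ∑ i, ∑ j, d3 G 0 x i j * (d4 G 0 (Pi.single i 1) x * d3 G 0 (Pi.single j 1)).trace := by
      rw [Finset.sum_comm]
      exact Finset.sum_congr rfl fun i _ => Finset.sum_congr rfl fun j _ => by rw [hXe j i]
    simp only [mul_sub, Matrix.trace_sub, Finset.sum_sub_distrib, e1, f6, tr_comb_Cal1, e2,
      mul_add, Finset.sum_add_distrib, e3]
    ring
  have hs := Finset.sum_le_sum fun m (_ : m ∈ Finset.univ) => hA m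
  simp only [f1, f2, f2'] at hs
  rw [Finset.sum_sub_distrib, Finset.sum_add_distrib, ← Finset.mul_sum, ← Finset.mul_sum,
    ← Finset.mul_sum, f5, f7, Finset.sum_add_distrib (f := fun m =>
      qf (hess μ 0) (Pi.single m 1) (Pi.single m 1)), ← tr_qf_Cal1, ← Finset.mul_sum,
    Finset.sum_sub_distrib (f := fun m => qf (d4 G 0 (Pi.single m 1) (Pi.single m 1)) x x),
    ← Finset.mul_sum, f3, f4, f0] at hs
  change 0 ≤ ∑ m : Fin N, (4 * (-((1 / 2 : ℝ) • (d3 G 0 (Pi.single m 1) * d3 G 0 x +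
      d3 G 0 x * d3 G 0 (Pi.single m 1))) * (d4 G 0 (Pi.single m 1) x -
        (1 / 2 : ℝ) • ∑ k, d3 G 0 x m k • d3 G 0 (Pi.single k 1))).trace -
      2 * (-((1 / 2 : ℝ) • (d3 G 0 (Pi.single m 1) * d3 G 0 x +
        d3 G 0 x * d3 G 0 (Pi.single m 1))) * -((1 / 2 : ℝ) • (d3 G 0 (Pi.single m 1) * d3 G 0 x +
        d3 G 0 x * d3 G 0 (Pi.single m 1)))).trace -
      4 * (d3 G 0 (Pi.single m 1) * -((1 / 2 : ℝ) • (d3 G 0 (Pi.single m 1) * d3 G 0 x +
        d3 G 0 x * d3 G 0 (Pi.single m 1))) * d3 G 0 x).trace -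
      4 * (d3 G 0 (Pi.single m 1) * d3 G 0 x * -((1 / 2 : ℝ) • (d3 G 0 (Pi.single m 1) *
        d3 G 0 x + d3 G 0 x * d3 G 0 (Pi.single m 1)))).trace -
      2 * (d3 G 0 (Pi.single m 1) * d3 G 0 x * d3 G 0 (Pi.single m 1) * d3 G 0 x).trace) -
    2 * ∑ m : Fin N, ((∑ k, d3 G 0 x m k • d3 G 0 (Pi.single k 1)) *
        ∑ k, d3 G 0 x m k • d3 G 0 (Pi.single k 1)).trace +
    4 * ∑ m : Fin N, (d4 G 0 (Pi.single m 1) x *
        ∑ k, d3 G 0 x m k • d3 G 0 (Pi.single k 1)).trace -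
    2 * ∑ m : Fin N, ((d3 G 0 (Pi.single m 1) * d3 G 0 x *
          ∑ k, d3 G 0 x m k • d3 G 0 (Pi.single k 1)).trace +
        (d3 G 0 x * d3 G 0 (Pi.single m 1) *
          ∑ k, d3 G 0 x m k • d3 G 0 (Pi.single k 1)).trace) at hAlg
  linarith

end Pool.Agent.MP_5f4cdd_gt.CB
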