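import Pool.Agent.MP_5f4cdd_gt.CB.SCal1aA

set_option autoImplicit false
open MeasureTheory Matrix Set Filter Topology

namespace Pool.Agent.MP_5f4cdd_gt.CB

theorem tr_alg_Cal1a {N : ℕ} (A X Z C : Mat N) :
    ((C * X + (2 : ℝ) • (A * Z) + 1 * 0) * (1 * X)
      + (2 : ℝ) • ((A * X + 1 * Z) * (A * X + 1 * Z))
      + 1 * X * (C * X + (2 : ℝ) • (A * Z) + 1 * 0)).trace
    = 2 * (A * X * A * X).trace + 4 * (A * X * Z).trace + 2 * (Z * Z).trace
      + 4 * (A * Z * X).trace + 2 * (C * X * X).trace := by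
  have h1 : (X * (C * X)).trace = (C * X * X).trace := by rw [trace_mul_comm]
  have h2 : (X * (A * Z)).trace = (A * Z * X).trace := by rw [trace_mul_comm]
  have h3 : (Z * (A * X)).trace = (A * X * Z).trace := by rw [trace_mul_comm]
  have h4 : (A * X * (A * X)).trace = (A * X * A * X).trace := by simp only [Matrix.mul_assoc]
  simp only [Matrix.one_mul, Matrix.mul_zero, add_zero, Matrix.add_mul, Matrix.mul_add,
    Matrix.smul_mul, Matrix.mul_smul, trace_add, trace_smul, smul_eq_mul, h1, h2, h3, h4]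
  ring

theorem sCal1a : Cal1aStmt := by
  intro N G μ x e hG hI hμ hev hx h0 X A Z Y U C
  have hG2 : ContDiffAt ℝ 2 G 0 := hG.of_le (by norm_num)
  have hG3 : ContDiffAt ℝ 3 G 0 := hG.of_le (by norm_num)
  have hG4 : ContDiffAt ℝ 4 G 0 := hG.of_le (by norm_num)
  have hA : A.IsSymm := d3_symm hG3 e
  have hX : X.IsSymm := d3_symm hG3 x
  have hZ : Z.IsSymm := by
    show (-((1 / 2 : ℝ) • (A * X + X * A)))ᵀ = -((1 / 2 : ℝ) • (A * X + X * A))
    rw [transpose_neg, transpose_smul, transpose_add, transpose_mul, transpose_mul, hA.eq, hX.eq,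
      add_comm]
  set w : E N := A *ᵥ x with hw
  have jg : JetM (fun t : ℝ => hess G (t • e)) 1 A C := (jetM_hess hG4 e).congr hI rfl rfl
  have jX : JetM (fun t : ℝ => d3 G (t • e) x + (-(1 / 2) * t) • d3 G (t • e) w) X Y U := by
    refine ((jetM_d3 hG e x).add ((jetM_d3 hG e w).tsmul (-(1 / 2)))).congr (add_zero _) ?_ ?_
    · show _ = d4 G 0 e x - (1 / 2 : ℝ) • d3 G 0 w
      rw [neg_smul, sub_eq_add_neg]
    · show _ = d5 G 0 e e x - d4 G 0 e w
      rw [show (2 * -(1 / 2) : ℝ) = -1 by norm_num, neg_one_smul, sub_eq_add_neg]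
  have jZ : JetM (fun t : ℝ => X + (1 * t) • Z) X Z 0 :=
    ((JetM.const X).add ((JetM.const Z).tsmul 1)).congr (add_zero _) (by simp) (by simp)
  have j1 := (jZ.mul jX).trace
  have j2 := ((jg.mul jZ).mul (jg.mul jZ)).trace
  have jμ := jet_line hμ e
  have jn : Jet (fun t : ℝ => qf (hess G (t • e)) x x + (-1 * t) * qf (hess G (t • e)) x w
      + (1 / 4 * (t * t)) * qf (hess G (t • e)) w w) 1 0 (qf C x x - 3 / 2 * (w ⬝ᵥ w)) := by
    have a := ((jg.qf x x).add ((Jet.id'.const_mul (-1)).mul (jg.qf x w))).add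
      (((Jet.id'.mul Jet.id').const_mul (1 / 4)).mul (jg.qf w w))
    have e1 : qf A x x = x ⬝ᵥ w := rfl
    have e2 : qf A x w = w ⬝ᵥ w := by rw [qf_symm hA]; rfl
    refine a.congr ?_ ?_ ?_
    · rw [qf_one, hx]; ring
    · rw [e1, qf_one x w]; ring
    · rw [e2, qf_one w w]; ring
  have J := ((j1.const_mul 2).sub j2).sub ((jμ.mul jn).const_mul 4)
  have hc : Tendsto (fun t : ℝ => t • e) (𝓝 0) (𝓝 0) := by
    have : Continuous (fun t : ℝ => t • e) := by fun_prop
    simpa using this.tendsto 0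
  have hpos : (hess G 0).PosDef := by rw [hI]; exact PosDef.one
  have hcal : (X * X).trace = 4 * μ 0 := by
    rw [← h0]; unfold cal; rw [hI, inv_one, Matrix.one_mul, Matrix.mul_one]
  have hmax := J.nonpos_of_max (by
    have hv := J.1
    unfold IsLocalMax IsMaxFilter
    rw [hv]
    filter_upwards [hc.eventually hev, hc.eventually (eventually_posDef_hess hG2 hpos),
      hc.eventually (hG3.eventually (by simp))] with t h1 h2 h3
    have hxt : d3 G (t • e) x + (-(1 / 2) * t) • d3 G (t • e) w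
        = d3 G (t • e) (x + (-(1 / 2) * t) • w) := by rw [d3_add_vec, d3_smul_vec]
    have hZt : (X + (1 * t) • Z).IsSymm := hX.add (hZ.smul _)
    have l := tq_legendre h2 (d3_symm h3 (x + (-(1 / 2) * t) • w)) hZt
    have c := h1 (x + (-(1 / 2) * t) • w)
    have hq : qf (hess G (t • e)) (x + (-(1 / 2) * t) • w) (x + (-(1 / 2) * t) • w)
        = qf (hess G (t • e)) x x + (-1 * t) * qf (hess G (t • e)) x w
          + (1 / 4 * (t * t)) * qf (hess G (t • e)) w w := by
      rw [qf_add_left, qf_add_right, qf_add_right, qf_smul_left, qf_smul_right, qf_smul_left,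
        qf_smul_right, qf_symm (posDef_isSymm h2) w x]
      ring
    rw [hxt, ← hq]
    unfold cal at c
    simp only [Matrix.one_mul, hcal]
    rw [← Matrix.mul_assoc]
    linarith)
  rw [tr_alg_Cal1a, dd_dd_eq_qf hμ] at hmax
  simp only [Matrix.zero_mul, zero_add, trace_add, trace_smul, smul_eq_mul] at hmax
  linarith

end Pool.Agent.MP_5f4cdd_gt.CB
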