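import Pool.Agent.MP_5f4cdd_gt.CB.Api

set_option autoImplicit false
open MeasureTheory Matrix Set Filter Topology

namespace Pool.Agent.MP_5f4cdd_gt.CB

lemma four_CalAlg {ι : Type} [Fintype ι] (F : ι → ι → ι → ι → ℝ) :
    ∑ m, ∑ c, ∑ b, ∑ k, F m c b k = ∑ b, ∑ c, ∑ k, ∑ m, F m c b k :=
  calc ∑ m, ∑ c, ∑ b, ∑ k, F m c b k = ∑ c, ∑ m, ∑ b, ∑ k, F m c b k := Finset.sum_comm
    _ = ∑ c, ∑ b, ∑ m, ∑ k, F m c b k := Finset.sum_congr rfl fun _ _ => Finset.sum_comm
    _ = ∑ c, ∑ b, ∑ k, ∑ m, F m c b k :=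
      Finset.sum_congr rfl fun _ _ => Finset.sum_congr rfl fun _ _ => Finset.sum_comm
    _ = _ := Finset.sum_comm

lemma con_CalAlg {N : ℕ} {A B : Fin N → Mat N} (hA1 : ∀ i j k, A i j k = A j i k)
    (hA2 : ∀ i j k, A i j k = A i k j) (hB1 : ∀ i j k, B i j k = B j i k)
    (hB2 : ∀ i j k, B i j k = B i k j) (P Q : Mat N) :
    ∑ m, (A m * Q * ∑ k, P m k • B k).trace = ∑ a, (A a * P * B a * Qᵀ).trace := by
  simp only [Matrix.trace, Matrix.diag, Matrix.mul_apply, Matrix.sum_apply, Matrix.smul_apply,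
    smul_eq_mul, Matrix.transpose_apply, Finset.sum_mul_sum]
  simp only [Finset.sum_mul]
  rw [Finset.sum_comm]
  refine Finset.sum_congr rfl fun a _ => ?_
  rw [four_CalAlg]
  refine Finset.sum_congr rfl fun b _ => Finset.sum_congr rfl fun c _ =>
    Finset.sum_congr rfl fun k _ => Finset.sum_congr rfl fun m _ => ?_
  rw [hA1 m a b, hA2 a m b, hB2 k c a, hB1 k a c]
  ring

lemma rev_CalAlg {N : ℕ} {a b X : Mat N} (ha : a.IsSymm) (hb : b.IsSymm) (hX : X.IsSymm) :
    (X * a * b).trace = (a * X * b).trace := by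
  rw [← Matrix.trace_transpose, Matrix.transpose_mul, Matrix.transpose_mul, ha.eq, hb.eq, hX.eq,
    Matrix.trace_mul_comm]

lemma one_CalAlg {N : ℕ} {a b c X : Mat N} (ha : a.IsSymm) (hb : b.IsSymm) (hc : c.IsSymm)
    (hX : X.IsSymm) :
    4 * (-((1 / 2 : ℝ) • (a * X + X * a)) * (b - (1 / 2 : ℝ) • c)).trace -
      2 * (-((1 / 2 : ℝ) • (a * X + X * a)) * -((1 / 2 : ℝ) • (a * X + X * a))).trace -
      4 * (a * -((1 / 2 : ℝ) • (a * X + X * a)) * X).trace -
      4 * (a * X * -((1 / 2 : ℝ) • (a * X + X * a))).trace - 2 * (a * X * a * X).trace =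
    3 * (a * a * X * X).trace + (a * X * a * X).trace - 4 * (a * X * b).trace +
      2 * (a * X * c).trace := by
  have e1 := rev_CalAlg ha hb hX
  have e2 := rev_CalAlg ha hc hX
  have e3 : (a * X * X * a).trace = (a * a * X * X).trace := by
    rw [Matrix.trace_mul_comm]
    simp only [Matrix.mul_assoc]
  have e4 : (X * a * a * X).trace = (a * a * X * X).trace := by
    rw [Matrix.trace_mul_comm, ← Matrix.mul_assoc, ← Matrix.mul_assoc,
      Matrix.mul_assoc (X * X), Matrix.trace_mul_comm]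
    simp only [Matrix.mul_assoc]
  have e5 : (X * a * X * a).trace = (a * X * a * X).trace := by
    rw [Matrix.trace_mul_comm]
    simp only [Matrix.mul_assoc]
  simp only [Matrix.neg_mul, Matrix.mul_neg, Matrix.smul_mul, Matrix.mul_smul, Matrix.mul_sub,
    Matrix.add_mul, Matrix.mul_add, Matrix.trace_neg, Matrix.trace_sub, Matrix.trace_add,
    Matrix.trace_smul, smul_eq_mul, ← Matrix.mul_assoc]
  rw [e1, e2, e3, e4, e5]
  ring

lemma main_CalAlg {N : ℕ} {A B : Fin N → Mat N} {X : Mat N} (hA1 : ∀ i j k, A i j k = A j i k)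
    (hA2 : ∀ i j k, A i j k = A i k j) (hB1 : ∀ i j k, B i j k = B j i k)
    (hB2 : ∀ i j k, B i j k = B i k j) (hX : X.IsSymm) {C : Fin N → Mat N}
    (hC : ∀ m, C m = ∑ k, X m k • A k) :
    0 ≤ ∑ m, (4 * (-((1 / 2 : ℝ) • (A m * X + X * A m)) * (B m - (1 / 2 : ℝ) • C m)).trace -
      2 * (-((1 / 2 : ℝ) • (A m * X + X * A m)) * -((1 / 2 : ℝ) • (A m * X + X * A m))).trace -
      4 * (A m * -((1 / 2 : ℝ) • (A m * X + X * A m)) * X).trace -
      4 * (A m * X * -((1 / 2 : ℝ) • (A m * X + X * A m))).trace - 2 * (A m * X * A m * X).trace)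
      - 2 * ∑ m, (C m * C m).trace + 4 * ∑ m, (B m * C m).trace
      - 2 * ∑ m, ((A m * X * C m).trace + (X * A m * C m).trace) := by
  have sA : ∀ m, (A m).IsSymm := fun m => Matrix.IsSymm.ext fun i j => hA2 m j i
  have sB : ∀ m, (B m).IsSymm := fun m => Matrix.IsSymm.ext fun i j => hB2 m j i
  have sC : ∀ m, (C m).IsSymm := fun m => Matrix.IsSymm.ext fun i j => by
    simp only [hC, Matrix.sum_apply, Matrix.smul_apply, hA2 _ j i]
  have e1 : ∑ m, (B m * C m).trace = ∑ m, (A m * X * B m).trace := by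
    have := con_CalAlg hB1 hB2 hA1 hA2 X 1
    simp only [Matrix.mul_one, Matrix.transpose_one, ← hC] at this
    rw [this]
    refine Finset.sum_congr rfl fun m _ => ?_
    rw [← rev_CalAlg (sA m) (sB m) hX, Matrix.trace_mul_comm (X * A m), Matrix.mul_assoc]
  have e2 : ∑ m, (A m * X * C m).trace = ∑ m, (A m * X * A m * X).trace := by
    have := con_CalAlg hA1 hA2 hA1 hA2 X X
    simpa only [hX.eq, ← hC] using this
  have e3 : ∑ m, (C m * C m).trace = ∑ m, (A m * A m * X * X).trace := by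
    have := con_CalAlg hA1 hA2 hA1 hA2 (X * X) 1
    simp only [Matrix.mul_one, Matrix.transpose_one] at this
    have e : ∑ m, (A m * (X * X) * A m).trace = ∑ m, (A m * A m * X * X).trace := by
      refine Finset.sum_congr rfl fun m _ => ?_
      rw [Matrix.trace_mul_comm]
      simp only [Matrix.mul_assoc]
    rw [← e, ← this]
    simp only [hC, Matrix.trace_sum, Matrix.smul_mul,
      Matrix.mul_smul, Matrix.trace_smul, smul_eq_mul, Matrix.mul_apply, Finset.sum_mul,
      Finset.mul_sum]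
    rw [Finset.sum_comm]
    refine Finset.sum_congr rfl fun y _ => ?_
    rw [Finset.sum_comm]
    refine Finset.sum_congr rfl fun z _ => Finset.sum_congr rfl fun x _ => ?_
    rw [Matrix.trace_mul_comm, hX.apply y x, mul_assoc]
  have e4 : ∑ m, (A m * X * A m * X).trace ≤ ∑ m, (A m * A m * X * X).trace :=
    Finset.sum_le_sum fun m _ => commutator_nonneg (sA m) hX
  simp only [fun m => one_CalAlg (sA m) (sB m) (sC m) hX, fun m => rev_CalAlg (sA m) (sC m) hX,
    Finset.sum_add_distrib, Finset.sum_sub_distrib, ← Finset.mul_sum]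
  rw [e1, e2, e3]
  linarith

theorem sCalAlg : CalAlgStmt := by
  intro N A B X hA1 hA2 hB1 hB2 hX
  exact main_CalAlg (A := fun m => Matrix.of (A m)) (B := fun m => Matrix.of (B m))
    hA1 hA2 hB1 hB2 hX fun _ => rfl

end Pool.Agent.MP_5f4cdd_gt.CB
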