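import Pool.Agent.MP_5f4cdd_gt.CB.Api

set_option autoImplicit false
open MeasureTheory Matrix Set Filter Topology

namespace Pool.Agent.MP_5f4cdd_gt.CB

variable {N : ℕ}

theorem cd_Cmp {ρ : E N → ℝ} {y : E N} (h : ContDiffAt ℝ 2 ρ y) (D δ R : ℝ) :
    ContDiffAt ℝ 2 (fun z => D * Real.exp (δ * (ρ z - R))) y :=
  contDiffAt_const.mul (contDiffAt_const.mul (h.sub contDiffAt_const)).exp

theorem der_Cmp (D δ R s : ℝ) : HasDerivAt (fun s => D * Real.exp (δ * (s - R)))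
    (D * δ * Real.exp (δ * (s - R))) s := by
  have h := (((hasDerivAt_id s).sub_const R).const_mul δ).exp.const_mul D
  refine h.congr_deriv ?_
  simp only [id]
  ring

theorem hess_Cmp {B D δ R : ℝ} {G ρ : E N → ℝ} {y : E N} (hp : (hess G y).PosDef)
    (h : RhoB B G ρ y) (hD : 0 ≤ D) (hδ : 0 ≤ δ) (v : E N) :
    qf (hess (fun z => D * Real.exp (δ * (ρ z - R))) y) v v ≤
      D * Real.exp (δ * (ρ y - R)) * ((δ + δ ^ 2) * |B|) * qf (hess G y) v v := by
  rw [qf_hess_comp (φ := fun s => D * Real.exp (δ * (s - R))) h.1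
    (Eventually.of_forall (der_Cmp D δ R)) (der_Cmp (D * δ) δ R (ρ y)), ← sq]
  have h0 := mul_le_mul_of_nonneg_right (le_abs_self B) (qf_nonneg hp v)
  have e0 := (Real.exp_pos (δ * (ρ y - R))).le
  have h1 := mul_le_mul_of_nonneg_left ((h.2 v).2.trans h0)
    (show 0 ≤ D * δ * Real.exp (δ * (ρ y - R)) by positivity)
  have h2 := mul_le_mul_of_nonneg_left ((h.2 v).1.trans h0)
    (show 0 ≤ D * δ * δ * Real.exp (δ * (ρ y - R)) by positivity)
  refine (add_le_add h1 h2).trans_eq ?_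
  ring

theorem sCmp : CmpStmt := by
  intro N B
  have n0 : (0 : ℝ) < N * |B| + 1 := by positivity
  refine ⟨1 / (N * |B| + 1), by positivity, fun K ρ G1 G2 R D hK h hle hD y hy => ?_⟩
  set δ : ℝ := 1 / (N * |B| + 1) with hδ
  have d0 : 0 < δ := by positivity
  have d1 : N * |B| * δ + δ = 1 := by
    rw [hδ]
    field_simp
  have d2 : 0 ≤ N * |B| * δ := by positivity
  have d3 : N * ((δ + δ ^ 2) * |B|) ≤ 2 := by nlinarith
  have cd : ∀ z ∈ K, ContDiffAt ℝ 2 G1 z ∧ ContDiffAt ℝ 2 G2 z := fun z hz =>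
    ⟨(h z hz).1.smooth, (h z hz).2.1.smooth⟩
  have cw : ∀ z ∈ K,
      ContDiffAt ℝ 2 (fun z => G1 z - G2 z - D * Real.exp (δ * (ρ z - R))) z := fun z hz =>
    ((cd z hz).1.sub (cd z hz).2).sub (cd_Cmp (h z hz).2.2.1 D δ R)
  obtain ⟨y0, hy0, hmax⟩ := hK.compact.exists_isMaxOn ⟨y, hy⟩
    fun z hz => (cw z hz).continuousAt.continuousWithinAt
  refine sub_nonpos.1 ((hmax hy).trans (not_lt.1 fun hpos => ?_))
  have hpos' : D * Real.exp (δ * (ρ y0 - R)) < G1 y0 - G2 y0 := sub_pos.1 hpos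
  have r0 : ρ y0 < R := by
    refine (hK.le y0 hy0).lt_of_ne fun e => ?_
    rw [e, sub_self, mul_zero, Real.exp_zero, mul_one] at hpos'
    linarith [hle y0 hy0]
  obtain ⟨m1, m2, m3⟩ := h y0 hy0
  have a1 := logdet_concave m1.pos m2.pos
  have a2 := trace_inv_mul_le (M := hess G1 y0 - hess G2 y0) m2.pos fun v => by
    have b := localMax_hess (hmax.isLocalMax (hK.nhds y0 hy0 r0)) (cw y0 hy0) v
    rw [hess_sub ((cd y0 hy0).1.sub (cd y0 hy0).2) (cd_Cmp m3.1 D δ R),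
      hess_sub (cd y0 hy0).1 (cd y0 hy0).2, qf_sub, sub_nonpos] at b
    exact b.trans (hess_Cmp m2.pos m3 hD d0.le v)
  have a3 : Real.log (hess G1 y0).det = 2 * G1 y0 := m1.eqn
  have a4 : Real.log (hess G2 y0).det = 2 * G2 y0 := m2.eqn
  have a5 := mul_le_mul_of_nonneg_left d3
    (show 0 ≤ D * Real.exp (δ * (ρ y0 - R)) by positivity)
  rw [mul_left_comm] at a2
  linarith

end Pool.Agent.MP_5f4cdd_gt.CB
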