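import Pool.Agent.MP_5f4cdd_gt.CB.Api

set_option autoImplicit false
open MeasureTheory Matrix Set Filter Topology

namespace Pool.Agent.MP_5f4cdd_gt.CB

/-- Cauchy-Schwarz inequality for positive real functions -/
theorem cs_Cs {α : Type} [MeasurableSpace α] (μ : Measure α) (f g : α → ℝ)
    (hf : AEMeasurable f μ) (hg : AEMeasurable g μ) :
    (∫⁻ a, ENNReal.ofReal (Real.exp (f a + g a)) ∂μ) ^ 2 ≤
      (∫⁻ a, ENNReal.ofReal (Real.exp (2 * f a)) ∂μ) *
        ∫⁻ a, ENNReal.ofReal (Real.exp (2 * g a)) ∂μ := by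
  have hF : AEMeasurable (fun a => ENNReal.ofReal (Real.exp (f a))) μ :=
    ENNReal.measurable_ofReal.comp_aemeasurable (Real.measurable_exp.comp_aemeasurable hf)
  have hG : AEMeasurable (fun a => ENNReal.ofReal (Real.exp (g a))) μ :=
    ENNReal.measurable_ofReal.comp_aemeasurable (Real.measurable_exp.comp_aemeasurable hg)
  have h := ENNReal.lintegral_mul_le_Lp_mul_Lq μ Real.HolderConjugate.two_two hF hG
  have e1 : ∀ t : ℝ, ENNReal.ofReal (Real.exp t) ^ (2 : ℝ) = ENNReal.ofReal (Real.exp (2 * t)) := by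
    intro t
    rw [ENNReal.ofReal_rpow_of_nonneg (Real.exp_pos t).le (by norm_num), ← Real.exp_mul, mul_comm]
  have e2 : (fun a => ((fun a => ENNReal.ofReal (Real.exp (f a))) *
      fun a => ENNReal.ofReal (Real.exp (g a))) a) =
      fun a => ENNReal.ofReal (Real.exp (f a + g a)) := by
    funext a
    rw [Pi.mul_apply, ← ENNReal.ofReal_mul (Real.exp_pos _).le, Real.exp_add]
  simp only [e1] at h
  rw [e2] at h
  have h2 := pow_le_pow_left' h 2
  have e3 : ∀ x : ENNReal, (x ^ (1 / (2 : ℝ))) ^ 2 = x := by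
    intro x
    rw [← ENNReal.rpow_natCast, ← ENNReal.rpow_mul]
    norm_num
  rwa [mul_pow, e3, e3] at h2

theorem det_Cs {N : ℕ} {G : E N → ℝ} {y : E N} (h : MAat 4 G y) :
    |(-(LinearMap.toContinuousLinearMap (Matrix.toLin' (hess G y)))).det| =
      Real.exp (2 * G y) := by
  have e : -(LinearMap.toContinuousLinearMap (Matrix.toLin' (hess G y))) =
      LinearMap.toContinuousLinearMap (Matrix.toLin' (-hess G y)) := by
    rw [map_neg, map_neg]
  have hp : 0 < (hess G y).det := h.pos.det_pos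
  have e2 : (LinearMap.toContinuousLinearMap (Matrix.toLin' (-hess G y))).det =
      (-hess G y).det := by
    rw [ContinuousLinearMap.det, LinearMap.coe_toContinuousLinearMap, LinearMap.det_toLin']
  rw [e, e2, Matrix.det_neg, abs_mul, abs_pow, abs_neg, abs_one, one_pow, one_mul, abs_of_pos hp,
    ← h.eqn, ldet, Real.exp_log hp]

theorem sCs (hGeo1 : Geo1Stmt) (hGeo3 : Geo3Stmt) : CsStmt := by
  intro N W b0 G hN hPC hBar b hb β hβ
  have hV : MeasurableSet (oV W) := (isOpen_oV W).measurableSet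
  obtain ⟨-, -, hint, hZ, -⟩ := hGeo3 N W b0 G hN hPC hBar b hb β hβ
  have hi : IntegrableOn (wt G b β) (oV W) := by
    have h1 := hint (fun _ => 1) continuousOn_const ⟨1, 0, fun y _ => by simp⟩
    simpa only [one_mul] using h1
  have hsm : ∀ y ∈ oV W, ContDiffAt ℝ 2 G y := fun y hy =>
    (hBar.ma y hy).smooth.of_le (by exact_mod_cast (by norm_num : (2 : ℕ) ≤ 4))
  have hZe : ENNReal.ofReal (ZZ W G b β) =
      ∫⁻ y in oV W, ENNReal.ofReal (Real.exp ((G y - b ⬝ᵥ eta G y) + -(β ⬝ᵥ y))) := by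
    rw [ZZ, ofReal_integral_eq_lintegral_ofReal hi
      (Eventually.of_forall fun y => (Real.exp_pos _).le)]
    refine lintegral_congr fun y => ?_
    rw [wt, PP, show G y - (b ⬝ᵥ eta G y + β ⬝ᵥ y) = G y - b ⬝ᵥ eta G y + -(β ⬝ᵥ y) by ring]
  have hc1 : ContinuousOn (fun y => G y - b ⬝ᵥ eta G y) (oV W) := by
    intro y hy
    have h1 : ContinuousAt (grad G) y := (hasFDerivAt_grad (hsm y hy)).continuousAt
    have h2 : ContinuousAt (fun y => b ⬝ᵥ eta G y) y :=
      ((continuous_const.dotProduct continuous_id).continuousAt (x := eta G y)).comp h1.neg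
    exact ((hsm y hy).continuousAt.sub h2).continuousWithinAt
  have hc2 : Continuous (fun y : E N => -(β ⬝ᵥ y)) :=
    (continuous_const.dotProduct continuous_id).neg
  have hcs := cs_Cs (volume.restrict (oV W)) _ _ (hc1.aemeasurable hV) hc2.aemeasurable
  rw [ENNReal.ofReal_pow hZ.le, hZe]
  refine hcs.trans (mul_le_mul' ?_ (le_of_eq ?_))
  · have hinj : InjOn (eta G) (oV W) := fun z hz y hy h =>
      (hGeo1 N W b0 G hPC hBar y hy).2.2.2.2.2.1 z hz h
    have hd : ∀ y ∈ oV W, HasFDerivWithinAt (eta G)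
        (-(LinearMap.toContinuousLinearMap (Matrix.toLin' (hess G y)))) (oV W) y := fun y hy =>
      (hasFDerivAt_grad (hsm y hy)).neg.hasFDerivWithinAt
    have hcv := lintegral_image_eq_lintegral_abs_det_fderiv_mul volume hV hd hinj
      (fun η => ENNReal.ofReal (Real.exp (-(((2 : ℝ) • b) ⬝ᵥ η))))
    have hsub : eta G '' oV W ⊆ W := by
      rintro _ ⟨y, hy, rfl⟩
      exact (hGeo1 N W b0 G hPC hBar y hy).2.2.2.1
    refine le_trans (le_of_eq ?_) (lintegral_mono_set hsub)
    rw [hcv]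
    refine setLIntegral_congr_fun hV fun y hy => ?_
    rw [det_Cs (hBar.ma y hy), ← ENNReal.ofReal_mul (Real.exp_pos _).le, ← Real.exp_add,
      smul_dotProduct, smul_eq_mul]
    congr 2
    ring
  · refine lintegral_congr fun y => ?_
    rw [smul_dotProduct, smul_eq_mul]
    congr 2
    ring

end Pool.Agent.MP_5f4cdd_gt.CB
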