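import Pool.Agent.MP_5f4cdd_gt.CB.Api

set_option autoImplicit false
open MeasureTheory Matrix Set Filter Topology

namespace Pool.Agent.MP_5f4cdd_gt.CB

theorem alg_Data {g a t0 t1 t2 rv rvv p lv lvv gv B B' C P : ℝ} (hg : 0 ≤ g) (hB : 0 ≤ B)
    (hP : 0 ≤ P) (h0 : 0 ≤ t0) (h0' : t0 ≤ 1) (h1 : |t1| ≤ C) (h2 : |t2| ≤ C)
    (r1 : rv ^ 2 ≤ P * g) (r2 : |rvv| ≤ P * g) (hp : |p| ≤ B) (l1 : lv ^ 2 ≤ B' * g)
    (l2 : |lvv| ≤ B' * g) (g1 : gv ^ 2 ≤ B * g)
    (ha : a = lvv - ((t1 * rvv + t2 * (rv * rv)) * p + t1 * rv * (lv - 2 * gv) +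
      t1 * rv * (lv - 2 * gv) + t0 * (lvv - 2 * g))) :
    -((4 * B' + 2 * C * P * B + C ^ 2 * P + 8 * B + 2) * g) ≤ a := by
  have hC : 0 ≤ C := (abs_nonneg _).trans h1
  have hPg : 0 ≤ P * g := mul_nonneg hP hg
  have a1 : |t1 * rvv| ≤ C * (P * g) := by
    rw [abs_mul]
    exact mul_le_mul h1 r2 (abs_nonneg _) hC
  have a2 : |t2 * (rv * rv)| ≤ C * (P * g) := by
    rw [abs_mul, abs_mul_self, ← sq]
    exact mul_le_mul h2 r1 (sq_nonneg _) hC
  have a3 : (t1 * rvv + t2 * (rv * rv)) * p ≤ (C * (P * g) + C * (P * g)) * B := by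
    refine (le_abs_self _).trans ?_
    rw [abs_mul]
    exact mul_le_mul ((abs_add_le _ _).trans (add_le_add a1 a2)) hp (abs_nonneg _) (by positivity)
  have a4 : (t1 * rv) ^ 2 ≤ C ^ 2 * (P * g) := by
    rw [mul_pow]
    exact mul_le_mul (sq_le_sq' (abs_le.1 h1).1 (abs_le.1 h1).2) r1 (sq_nonneg _) (sq_nonneg _)
  have a5 : (lv - 2 * gv) ^ 2 ≤ 2 * (B' * g) + 8 * (B * g) := by
    nlinarith [sq_nonneg (lv + 2 * gv)]
  have a6 : t0 * (lvv - 2 * g) ≤ B' * g + 2 * g := by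
    have b1 : lvv - 2 * g ≤ B' * g + 2 * g := by linarith [(abs_le.1 l2).2]
    have b2 : 0 ≤ B' * g + 2 * g := by linarith [(abs_nonneg _).trans l2]
    exact (mul_le_mul_of_nonneg_left b1 h0).trans (mul_le_of_le_one_left b2 h0')
  have a7 := (abs_le.1 l2).1
  rw [ha]
  nlinarith [sq_nonneg (t1 * rv - (lv - 2 * gv))]

theorem hess_Data {N : ℕ} {θ : ℝ → ℝ} {ρ L Gt : E N → ℝ} {x : E N} (R : ℝ) (hθ : ContDiff ℝ 6 θ)
    (hρ : ContDiffAt ℝ 2 ρ x) (hL : ContDiffAt ℝ 2 L x) (hG : ContDiffAt ℝ 2 Gt x) (v : E N) :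
    qf (hess (fun y => L y - θ (ρ y - R) * (L y - 2 * Gt y)) x) v v = qf (hess L x) v v -
      ((deriv θ (ρ x - R) * qf (hess ρ x) v v + deriv (deriv θ) (ρ x - R) *
          (dd v ρ x * dd v ρ x)) * (L x - 2 * Gt x) +
        deriv θ (ρ x - R) * dd v ρ x * (dd v L x - 2 * dd v Gt x) +
        deriv θ (ρ x - R) * dd v ρ x * (dd v L x - 2 * dd v Gt x) +
        θ (ρ x - R) * (qf (hess L x) v v - 2 * qf (hess Gt x) v v)) := by
  have d1 : Differentiable ℝ θ := hθ.differentiable (by norm_num)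
  have d2 : Differentiable ℝ (deriv θ) :=
    (hθ.of_le (m := 1 + 1) (by norm_num)).deriv'.differentiable (by norm_num)
  have k1 : ∀ s, HasDerivAt (fun s => θ (s - R)) (deriv θ (s - R)) s := fun s =>
    (d1 (s - R)).hasDerivAt.comp_sub_const s R
  have k2 : HasDerivAt (fun s => deriv θ (s - R)) (deriv (deriv θ) (ρ x - R)) (ρ x) :=
    (d2 (ρ x - R)).hasDerivAt.comp_sub_const (ρ x) R
  have c1 : ContDiffAt ℝ 2 (fun y => θ (ρ y - R)) x :=
    (hθ.of_le (by norm_num)).contDiffAt.comp x (hρ.sub contDiffAt_const)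
  have c2 : ContDiffAt ℝ 2 (fun y => 2 * Gt y) x := contDiffAt_const.mul hG
  have c3 : ContDiffAt ℝ 2 (fun y => L y - 2 * Gt y) x := hL.sub c2
  have e1 := qf_hess_comp (φ := fun s => θ (s - R)) hρ (Eventually.of_forall k1) k2 v v
  have e2 := dd_comp (φ := fun s => θ (s - R)) (k1 (ρ x)) (hρ.differentiableAt (by norm_num)) v
  rw [hess_sub hL (c1.mul c3), qf_sub, qf_hess_mul c1 c3, e1, e2, hess_sub hL c2, qf_sub,
    hess_const_mul, qf_smul,
    dd_sub (hL.differentiableAt (by norm_num)) (c2.differentiableAt (by norm_num)), dd_const_mul]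

theorem g_nonneg_Data {N : ℕ} {B ε K : ℝ} {Gt : E N → ℝ} (hε : 0 < ε) (h : Bg B ε K Gt)
    (x v : E N) : 0 ≤ qf (hess Gt x) v v :=
  (mul_nonneg hε.le (dot_self_nonneg' v)).trans ((h.ell x).2 v)

theorem bg_mono_Data {N : ℕ} {B B' ε K K' : ℝ} {Gt : E N → ℝ} (hε : 0 < ε) (h : Bg B ε K Gt)
    (hB : B ≤ B') (hK : K ≤ K') : Bg B' ε K' Gt where
  smooth := h.smooth
  ell := h.ell
  hb i j := (h.hb i j).mono hK
  four x v w := (h.four x v w).trans (mul_le_mul_of_nonneg_right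
    (mul_le_mul_of_nonneg_right hB (g_nonneg_Data hε h x v)) (g_nonneg_Data hε h x w))
  three x v := (h.three x v).trans (mul_le_mul_of_nonneg_right hB (g_nonneg_Data hε h x v))

theorem sData (hDataA : DataAStmt) (hRho : RhoStmt) (hLd : LdStmt) : DataStmt := by
  classical
  intro N W b0 β hN hW hβ
  obtain ⟨B, hB, hA⟩ := hDataA N W b0 β hN hW hβ
  obtain ⟨Br, hBr, hR⟩ := hRho N
  obtain ⟨B', hBB, hB', hL⟩ := hLd N B
  obtain ⟨θ, C, hθ, θ1, θ0, θb, θd⟩ := exists_step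
  have hC : 0 ≤ C := (abs_nonneg _).trans (θd 0).1
  have hS : B' ≤ 4 * B' + 2 * C * (Br * B) * B + C ^ 2 * (Br * B) + 8 * B + 2 := by
    have : 0 ≤ 3 * B' + 2 * C * (Br * B) * B + C ^ 2 * (Br * B) + 8 * B + 2 := by positivity
    linarith
  refine ⟨_, hB'.trans_le hS, fun R => ?_⟩
  obtain ⟨ε, K, Gt, hε, hG, hin⟩ := hA R
  obtain ⟨⟨K', hK'⟩, hl⟩ := hL ε K Gt hε hG
  have gn := g_nonneg_Data hε hG
  have sL : ∀ x, ContDiffAt ℝ (4 : ℕ) (ldet Gt) x := fun x =>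
    contDiffAt_ldet (hG.smooth.contDiffAt.of_le (by norm_num))
      (posDef_of_ell (hG.ell x).1 hε (hG.ell x).2)
  have sG : ∀ x, ContDiffAt ℝ (4 : ℕ) Gt x := fun x => hG.smooth.contDiffAt.of_le (by norm_num)
  let u : E N → ℝ := fun y =>
    if y ∈ oV W then θ (rho W β y - R) * (ldet Gt y - 2 * Gt y) else 0
  have u1 : ∀ y ∈ oV W, u y = θ (rho W β y - R) * (ldet Gt y - 2 * Gt y) := fun y hy => if_pos hy
  have u0 : ∀ y, y ∉ {y | y ∈ oV W ∧ rho W β y ≤ R + 1} → u y = 0 := by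
    intro y hy
    by_cases h : y ∈ oV W
    · rw [u1 y h, θ0 _ (by linarith [not_le.1 fun k => hy ⟨h, k⟩]), zero_mul]
    · exact if_neg h
  have hK1 := hW.rho_compact hN hβ (R + 1)
  have ev1 : ∀ x ∈ oV W, u =ᶠ[𝓝 x] fun y => θ (rho W β y - R) * (ldet Gt y - 2 * Gt y) :=
    fun x hx => Filter.mem_of_superset ((isOpen_oV W).mem_nhds hx) u1
  have ev0 : ∀ x, x ∉ {y | y ∈ oV W ∧ rho W β y ≤ R + 1} → u =ᶠ[𝓝 x] fun _ => 0 :=
    fun x hx => Filter.mem_of_superset (hK1.isClosed.isOpen_compl.mem_nhds hx) u0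
  have su : ContDiff ℝ (3 + 1 : ℕ) u := by
    refine contDiff_iff_contDiffAt.2 fun x => ?_
    by_cases h : x ∈ oV W
    · refine ContDiffAt.congr_of_eventuallyEq ?_ (ev1 x h)
      exact ((hθ.of_le (by norm_num)).contDiffAt.comp x
        ((hW.contDiffAt_rho hβ h 4).sub contDiffAt_const)).mul
        ((sL x).sub (contDiffAt_const.mul (sG x)))
    · exact contDiffAt_const.congr_of_eventuallyEq (ev0 x fun k => h k.1)
  obtain ⟨M, hM⟩ := HB_of_compact hK1 su u0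
  have two0 : ∀ x v, -((4 * B' + 2 * C * (Br * B) * B + C ^ 2 * (Br * B) + 8 * B + 2) *
      qf (hess Gt x) v v) ≤ qf (hess (ldet Gt) x) v v := fun x v =>
    (neg_le_neg (mul_le_mul_of_nonneg_right hS (gn x v))).trans (abs_le.1 (hl x v).2).1
  refine ⟨ε, max K (K' + M), Gt, fun y => ldet Gt y - u y, hε,
    bg_mono_Data hε hG (hBB.trans hS) (le_max_left _ _),
    ⟨hK'.mono (le_max_of_le_right (le_add_of_nonneg_right hM.nonneg)), fun x => ?_, two0⟩,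
    ⟨(hK'.sub hM).mono (le_max_right _ _), fun x => ?_, fun x v => ?_⟩, fun y hy hy' => ?_⟩
  · rw [sub_self, abs_zero]
    exact (hB'.trans_le hS).le
  · rw [sub_sub_cancel_left, abs_neg]
    refine le_trans ?_ (hBB.trans hS)
    by_cases h : x ∈ {y | y ∈ oV W ∧ rho W β y ≤ R + 1}
    · rw [u1 x h.1, abs_mul, abs_of_nonneg (θb _).1]
      exact (mul_le_of_le_one_left (abs_nonneg _) (θb _).2).trans (hin x h.1 h.2).2.1
    · rw [u0 x h, abs_zero]
      exact hB.le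
  · by_cases h : x ∈ {y | y ∈ oV W ∧ rho W β y ≤ R + 1}
    · have e : (fun y => ldet Gt y - u y) =ᶠ[𝓝 x]
          fun y => ldet Gt y - θ (rho W β y - R) * (ldet Gt y - 2 * Gt y) :=
        (ev1 x h.1).mono fun y hy => congrArg (ldet Gt y - ·) hy
      rw [(hess_congr e).self_of_nhds]
      obtain ⟨-, a1, a2⟩ := hin x h.1 h.2
      obtain ⟨r1, r2⟩ := hR W b0 β x hW hβ h.1 v
      have s1 : Br * sm W x v ≤ Br * B * qf (hess Gt x) v v := by
        rw [mul_assoc]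
        exact mul_le_mul_of_nonneg_left (a2 v).1 hBr.le
      exact alg_Data (gn x v) hB.le (by positivity) (θb _).1 (θb _).2 (θd _).1 (θd _).2
        (r1.trans s1) (r2.trans s1) a1 (hl x v).1 (hl x v).2 (a2 v).2.2
        (hess_Data R hθ (hW.contDiffAt_rho hβ h.1 2) ((sL x).of_le (by norm_num))
          ((sG x).of_le (by norm_num)) v)
    · have e : (fun y => ldet Gt y - u y) =ᶠ[𝓝 x] ldet Gt :=
        (ev0 x h).mono fun y hy => (congrArg (ldet Gt y - ·) hy).trans (sub_zero _)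
      rw [(hess_congr e).self_of_nhds]
      exact two0 x v
  · obtain ⟨a0, -, a2⟩ := hin y hy (by linarith)
    refine ⟨?_, a0.trans (hBB.trans hS), fun v => ⟨(a2 v).1.trans
      (mul_le_mul_of_nonneg_right (hBB.trans hS) (gn y v)), (a2 v).2.1.trans
        (mul_le_mul_of_nonneg_right (hBB.trans hS) ?_)⟩⟩
    · show ldet Gt y - u y = 2 * Gt y
      rw [u1 y hy, θ1 _ (by linarith), one_mul, sub_sub_cancel]
    · exact nonneg_of_mul_nonneg_right ((gn y v).trans (a2 v).2.1) hB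

end Pool.Agent.MP_5f4cdd_gt.CB
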