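import Pool.Agent.MP_5f4cdd_gt.CB.Api

set_option autoImplicit false
open MeasureTheory Matrix Set Filter Topology

namespace Pool.Agent.MP_5f4cdd_gt.CB

theorem dd_coord_DataA {N : ℕ} (i : Fin N) (v x : E N) : dd v (fun y : E N => y i) x = v i := by
  have h : (fun y : E N => y i) = (ContinuousLinearMap.proj i : E N →L[ℝ] ℝ) := rfl
  rw [dd, h, ContinuousLinearMap.fderiv]
  rfl

theorem dd_sq_DataA {N : ℕ} (ε : ℝ) (v x : E N) :
    dd v (fun y : E N => ε / 2 * (y ⬝ᵥ y)) x = ε * (x ⬝ᵥ v) := by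
  rw [dd_const_mul]
  unfold dotProduct
  rw [dd_sum Finset.univ (fun i (y : E N) => y i * y i) (fun i _ => by fun_prop), Finset.mul_sum,
    Finset.mul_sum]
  refine Finset.sum_congr rfl fun i _ => ?_
  rw [dd_mul (u := fun y : E N => y i) (w := fun y : E N => y i) (by fun_prop) (by fun_prop),
    dd_coord_DataA]
  ring

theorem hess_sq_DataA {N : ℕ} (ε : ℝ) (x : E N) :
    hess (fun y : E N => ε / 2 * (y ⬝ᵥ y)) x = ε • (1 : Mat N) := by
  ext i j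
  have h : pd j (fun y : E N => ε / 2 * (y ⬝ᵥ y)) = fun y => ε * y j := by
    funext y
    rw [pd, dd_sq_DataA, dotProduct_single, mul_one]
  rw [hess, Matrix.of_apply, h, pd, dd_const_mul ε _ fun y : E N => y j, dd_coord_DataA]
  simp [Matrix.one_apply, Pi.single_apply, eq_comm]

theorem cd_sq_DataA {N : ℕ} (ε : ℝ) : ContDiff ℝ 2 fun y : E N => ε / 2 * (y ⬝ᵥ y) := by
  unfold dotProduct
  fun_prop

theorem mono_DataA {N : ℕ} {B B' ε K : ℝ} {Gt : E N → ℝ} (h : Bg B ε K Gt) (hε : 0 < ε)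
    (hB : B ≤ B') : Bg B' ε K Gt := by
  have h0 : ∀ x v, 0 ≤ qf (hess Gt x) v v := fun x =>
    qf_nonneg (posDef_of_ell (h.ell x).1 hε (h.ell x).2)
  exact ⟨h.smooth, h.ell, h.hb, fun x v w => (h.four x v w).trans
    (mul_le_mul_of_nonneg_right (mul_le_mul_of_nonneg_right hB (h0 x v)) (h0 x w)),
    fun x v => (h.three x v).trans (mul_le_mul_of_nonneg_right hB (h0 x v))⟩

theorem sDataA (hBg : BgStmt) (hBgV : BgVStmt) : DataAStmt := by
  intro N W b0 β hN hW hβ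
  obtain ⟨B0, hB0, hBg⟩ := hBg N
  obtain ⟨B1, hB1, hV⟩ := hBgV N
  have n1 : 0 ≤ (N : ℝ) * B1 := by positivity
  have n2 : 0 ≤ (2 * B1 + 2) * B1 := by positivity
  refine ⟨B0 + (B1 + 1) + N * B1 + (2 * B1 + 2) * B1, by positivity, fun R => ?_⟩
  generalize hB : B0 + (B1 + 1) + N * B1 + (2 * B1 + 2) * B1 = B
  have hK := hW.rho_compact hN hβ (R + 1)
  obtain ⟨c, hc, hcd⟩ := hW.depth_compact hK fun y hy => hy.1
  obtain ⟨c1, C1, hc1, hsm⟩ := hW.sm_compact hK fun y hy => hy.1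
  obtain ⟨L, hL⟩ := hK.exists_bound_of_continuousOn (f := fun y : E N => y ⬝ᵥ y)
    (Continuous.continuousOn (by fun_prop))
  obtain ⟨q1, q2, q3⟩ := hW.trunc hc
  have L1 : 1 ≤ |L| + 1 := le_add_of_nonneg_left (abs_nonneg L)
  have m0 : 0 < min c1 1 := lt_min hc1 one_pos
  obtain ⟨ε, hε, e1, e2⟩ : ∃ ε : ℝ, 0 < ε ∧ ε ≤ c1 ∧ ε * (|L| + 1) ≤ 1 :=
    ⟨min c1 1 / (|L| + 1), by positivity, (div_le_self m0.le L1).trans (min_le_left _ _), by
      rw [div_mul_cancel₀ _ (by positivity)]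
      exact min_le_right _ _⟩
  obtain ⟨K, hG⟩ := hBg _ ε q1 q2 q3 hε
  refine ⟨ε, K, _, hε, mono_DataA hG hε (by linarith), fun y hy hρ => ?_⟩
  obtain ⟨v1, v2, v3, v4⟩ := hV W b0 y c hW hy hc (hcd y ⟨hy, hρ⟩)
  set Q : Set (E N) := {η | η ∈ W ∧ b0 ⬝ᵥ η ≤ c}
  have hF : ContDiffAt ℝ 2 (fun z => Real.log (Phi Q z)) y :=
    (contDiffAt_LapW q1.measurableSet (room_of_compact q1 y) (polyW_const 1) 2).log
      (Phi_pos q1.measurableSet (room_of_compact q1 y) q3).ne'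
  set F : E N → ℝ := fun z => Real.log (Phi Q z)
  have hH : hess (bgF Q ε) y = hess F y + ε • (1 : Mat N) := by
    rw [← hess_sq_DataA ε y]
    exact hess_add hF (cd_sq_DataA ε).contDiffAt
  have hq : ∀ v, qf (hess (bgF Q ε) y) v v = qf (hess F y) v v + ε * (v ⬝ᵥ v) := fun v => by
    rw [hH, qf_add, qf_smul, qf_one]
  have hd : ∀ v, dd v (bgF Q ε) y = dd v F y + ε * (y ⬝ᵥ v) := fun v => by
    rw [← dd_sq_DataA]
    exact dd_add (hF.differentiableAt (by norm_num))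
      ((cd_sq_DataA ε).contDiffAt.differentiableAt (by norm_num)) v
  have hv : bgF Q ε y = F y + ε / 2 * (y ⬝ᵥ y) := rfl
  have hp := posDef_of_ell (hG.ell y).1 hε (hG.ell y).2
  have y0 := dot_self_nonneg' y
  have y1 : ε * (y ⬝ᵥ y) ≤ 1 := by
    refine le_trans (mul_le_mul_of_nonneg_left ?_ hε.le) e2
    linarith [le_abs_self L, le_abs_self (y ⬝ᵥ y), show |y ⬝ᵥ y| ≤ L from hL y ⟨hy, hρ⟩]
  have y2 : 0 ≤ ε * (y ⬝ᵥ y) := by positivity
  have s1 : ∀ v, ε * (v ⬝ᵥ v) ≤ sm W y v := fun v =>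
    (mul_le_mul_of_nonneg_right e1 (dot_self_nonneg' v)).trans (hsm y ⟨hy, hρ⟩ v).1
  have s0 : ∀ v : E N, 0 ≤ ε * (v ⬝ᵥ v) := fun v => mul_nonneg hε.le (dot_self_nonneg' v)
  have d1 : ldet F y ≤ ldet (bgF Q ε) y :=
    Real.log_le_log v3.det_pos (det_mono v3 hp fun v => by linarith [hq v, s0 v])
  have d2 : ldet (bgF Q ε) y ≤ N * B1 + ldet F y := by
    have h1 := det_le_of_le hp v3 (C := 1 + B1) (by positivity) fun v => by
      linarith [hq v, s1 v, (v1 v).1]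
    refine (Real.log_le_log hp.det_pos h1).trans ?_
    rw [Real.log_mul (by positivity) v3.det_pos.ne', Real.log_pow]
    have h2 := Real.log_le_sub_one_of_pos (show 0 < 1 + B1 by positivity)
    have h3 : (N : ℝ) * Real.log (1 + B1) ≤ N * B1 :=
      mul_le_mul_of_nonneg_left (by linarith) (Nat.cast_nonneg N)
    exact add_le_add h3 le_rfl
  rw [abs_le] at v2 v4
  refine ⟨abs_le.2 ⟨by linarith, by linarith⟩, abs_le.2 ⟨by linarith, by linarith⟩, fun v => ?_⟩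
  obtain ⟨w1, w2, w3⟩ := v1 v
  have g0 := qf_nonneg hp v
  have s2 : 0 ≤ sm W y v := (s0 v).trans (s1 v)
  have a1 : sm W y v ≤ B1 * qf (hess (bgF Q ε) y) v v :=
    w1.trans (mul_le_mul_of_nonneg_left (by linarith [hq v, s0 v]) hB1.le)
  refine ⟨a1.trans (mul_le_mul_of_nonneg_right (by linarith) g0), ?_, ?_⟩
  · calc _ ≤ (B1 + 1) * sm W y v := by linarith [hq v, s1 v]
      _ ≤ _ := mul_le_mul_of_nonneg_right (by linarith) s2
  · have a2 := qf_cs (Matrix.PosDef.one : (1 : Mat N).PosDef) y v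
    rw [qf_one, qf_one, qf_one] at a2
    have a3 : (ε * (y ⬝ᵥ v)) ^ 2 ≤ sm W y v := by
      calc (ε * (y ⬝ᵥ v)) ^ 2 = ε ^ 2 * (y ⬝ᵥ v) ^ 2 := by ring
        _ ≤ ε ^ 2 * (y ⬝ᵥ y * v ⬝ᵥ v) := by gcongr
        _ = ε * (y ⬝ᵥ y) * (ε * (v ⬝ᵥ v)) := by ring
        _ ≤ 1 * sm W y v := mul_le_mul y1 (s1 v) (s0 v) zero_le_one
        _ = _ := one_mul _
    calc _ ≤ (2 * B1 + 2) * sm W y v := by
          rw [hd]
          nlinarith [sq_nonneg (dd v F y - ε * (y ⬝ᵥ v))]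
      _ ≤ (2 * B1 + 2) * (B1 * qf (hess (bgF Q ε) y) v v) := by gcongr
      _ = (2 * B1 + 2) * B1 * qf (hess (bgF Q ε) y) v v := by ring
      _ ≤ _ := mul_le_mul_of_nonneg_right (by linarith) g0

end Pool.Agent.MP_5f4cdd_gt.CB
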