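import Pool.Agent.MP_5f4cdd_gt.CB.Api

set_option autoImplicit false
open MeasureTheory Matrix Set Filter Topology

namespace Pool.Agent.MP_5f4cdd_gt.CB

lemma wt_Der {N : ℕ} (G : E N → ℝ) (b1 β1 b2 β2 y : E N) (s : ℝ) :
    wt G (b1 + s • b2) (β1 + s • β2) y = Real.exp (G y - PP G b1 β1 y - s * PP G b2 β2 y) := by
  simp only [wt, PP, add_dotProduct, smul_dotProduct, smul_eq_mul]
  congr 1
  ring

theorem sDer (hGeo1 : Geo1Stmt) (hGeo3 : Geo3Stmt) : DerStmt := by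
  intro N W b0 G hN hW hG b1 hb1 β1 hβ1 b2 hb2 β2 hβ2 t ht
  have m1 : ∀ s : ℝ, 0 < s → b1 + s • b2 ∈ oV W := fun s hs => by
    rw [add_comm]
    exact oV_add (oV_smul hb2 hs) hb1
  have m2 : ∀ s : ℝ, 0 < s → β1 + s • β2 ∈ iW W := fun s hs => by
    rw [add_comm]
    exact iW_add hW (iW_smul hW hβ2 hs) hβ1
  have g2 := (hGeo3 N W b0 G hN hW hG b2 hb2 β2 hβ2).1
  have hI : ∀ (k : ℕ) (s : ℝ), 0 < s → IntegrableOn
      (fun y => PP G b2 β2 y ^ k * wt G (b1 + s • b2) (β1 + s • β2) y) (oV W) := fun k s hs => by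
    obtain ⟨g1, -, g3, -, g5, -⟩ := hGeo3 N W b0 G hN hW hG _ (m1 s hs) _ (m2 s hs)
    obtain ⟨C, hC⟩ := g5 b2 (oV_subset_cV W hb2) β2 hβ2.1
    refine g3 _ (fun y hy => ((g2 y hy).2.continuousAt.pow k).continuousWithinAt)
      ⟨|C| ^ k, k, fun y hy => ?_⟩
    rw [abs_of_nonneg (pow_nonneg (hC y hy).1 k), ← mul_pow]
    refine pow_le_pow_left₀ (hC y hy).1 ((hC y hy).2.trans ?_) k
    exact mul_le_mul (le_abs_self C) (by linarith) (g1 y hy).1.le (abs_nonneg C)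
  have hD : ∀ k : ℕ, HasDerivAt
      (fun s : ℝ => ∫ y in oV W, PP G b2 β2 y ^ k * wt G (b1 + s • b2) (β1 + s • β2) y)
      (-∫ y in oV W, PP G b2 β2 y ^ (k + 1) * wt G (b1 + t • b2) (β1 + t • β2) y) t := fun k => by
    rw [← integral_neg]
    refine (hasDerivAt_integral_of_dominated_loc_of_deriv_le (μ := volume.restrict (oV W))
      (F := fun (s : ℝ) y => PP G b2 β2 y ^ k * wt G (b1 + s • b2) (β1 + s • β2) y)
      (F' := fun (s : ℝ) y => -(PP G b2 β2 y ^ (k + 1) * wt G (b1 + s • b2) (β1 + s • β2) y))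
      (Ioi_mem_nhds (half_lt_self ht)) ?_ (hI k t ht) (hI (k + 1) t ht).neg.aestronglyMeasurable ?_
      (hI (k + 1) (t / 2) (half_pos ht)) (.of_forall fun y s _ => ?_)).2
    · filter_upwards [Ioi_mem_nhds ht] with s hs using (hI k s hs).aestronglyMeasurable
    · filter_upwards [ae_restrict_mem (isOpen_oV W).measurableSet] with y hy s hs
      have p := (g2 y hy).1
      rw [norm_neg, wt_Der, wt_Der, Real.norm_of_nonneg (by positivity)]
      have : t / 2 * PP G b2 β2 y ≤ s * PP G b2 β2 y := mul_le_mul_of_nonneg_right hs.le p.le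
      gcongr
    · simp only [wt_Der]
      refine ((((hasDerivAt_mul_const (x := s) (PP G b2 β2 y)).const_sub
        (G y - PP G b1 β1 y)).exp).const_mul (PP G b2 β2 y ^ k)).congr_deriv ?_
      ring
  have hZ := (hGeo3 N W b0 G hN hW hG _ (m1 t ht) _ (m2 t ht)).2.2.2.1.ne'
  have d0 := hD 0
  have d1 := hD 1
  simp only [pow_zero, one_mul, zero_add, pow_one, Nat.reduceAdd] at d0 d1
  refine ⟨?_, ?_⟩
  · refine (d0.log hZ).congr_deriv ?_
    rw [Ex, ZZ, neg_div]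
  · refine (d1.div d0 hZ).congr_deriv ?_
    simp only [Ex, ZZ] at hZ ⊢
    field_simp
    ring

end Pool.Agent.MP_5f4cdd_gt.CB
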