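import Pool.Agent.MP_5f4cdd_gt.CB.Api

set_option autoImplicit false
open MeasureTheory Matrix Set Filter Topology

namespace Pool.Agent.MP_5f4cdd_gt.CB

variable {N : ℕ}

theorem qf_comb_Ex (A B : Mat N) (a b : ℝ) (v w : E N) :
    qf (a • A + b • B) v w = a * qf A v w + b * qf B v w := by
  simp only [qf, Matrix.add_mulVec, Matrix.smul_mulVec, dotProduct_add, dotProduct_smul,
    smul_eq_mul]

theorem rhs_Ex {B K : ℝ} {Gt H : E N → ℝ} (h0 : Rhs B K Gt (ldet Gt)) (h1 : Rhs B K Gt H)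
    {s : ℝ} (hs0 : 0 ≤ s) (hs1 : s ≤ 1) :
    Rhs B K Gt (fun x => (1 - s) * ldet Gt x + s * H x) := by
  have hs' : 0 ≤ 1 - s := by linarith
  refine ⟨?_, ?_, ?_⟩
  · refine ((h0.hb.const_mul (1 - s)).add (h1.hb.const_mul s)).mono ?_
    rw [abs_of_nonneg hs', abs_of_nonneg hs0]
    linarith
  · intro x
    have hB : 0 ≤ B := (abs_nonneg _).trans (h1.zero x)
    have e : (1 - s) * ldet Gt x + s * H x - ldet Gt x = s * (H x - ldet Gt x) := by ring
    rw [e, abs_mul, abs_of_nonneg hs0]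
    have := h1.zero x
    nlinarith [abs_nonneg (H x - ldet Gt x)]
  · intro x v
    have c0 : ContDiffAt ℝ 2 (fun y => (1 - s) * ldet Gt y) x :=
      (((h0.hb.const_mul (1 - s)).contDiff).of_le (by norm_num)).contDiffAt
    have c1 : ContDiffAt ℝ 2 (fun y => s * H y) x :=
      (((h1.hb.const_mul s).contDiff).of_le (by norm_num)).contDiffAt
    rw [hess_add c0 c1, hess_const_mul, hess_const_mul, qf_comb_Ex]
    have a0 := mul_le_mul_of_nonneg_left (h0.two x v) hs'
    have a1 := mul_le_mul_of_nonneg_left (h1.two x v) hs0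
    nlinarith

theorem sEx (hApr : AprStmt) (hStep : StepStmt) : ExStmt := by
  intro N B ε K Gt H hε hBg h0 h1
  obtain ⟨c, C, hc, hA⟩ := hApr N B ε K hε
  obtain ⟨δ, hδ, hS⟩ := hStep N c (K + C) hc
  have hK : 0 ≤ K := h1.hb.nonneg
  have step : ∀ s s' : ℝ, 0 ≤ s → s ≤ 1 → s ≤ s' → (s' - s) * (2 * K + 1) ≤ δ →
      (∃ u, Sol Gt (fun x => (1 - s) * ldet Gt x + s * H x) u) →
      ∃ u, Sol Gt (fun x => (1 - s') * ldet Gt x + s' * H x) u := by
    intro s s' hs0 hs1 hss hd ⟨u, hu⟩
    obtain ⟨hE, hH⟩ := hA Gt _ u hBg (rhs_Ex h0 h1 hs0 hs1) hu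
    have hg : HBM 3 (K + C) (fun x => hess Gt x + hess u x) := fun i j =>
      (hBg.hb i j).add (HB.hessM (k := 3) hH i j)
    have hh : HB 3 δ (fun x => (s' - s) * (H x - ldet Gt x)) := by
      refine ((h1.hb.sub h0.hb).const_mul (s' - s)).mono ?_
      rw [abs_of_nonneg (by linarith)]
      nlinarith
    obtain ⟨v, hv, hE', heq⟩ := hS _ _ hE hg hh
    have hadd : ∀ x, hess Gt x + hess (fun y => u y + v y) x
        = hess Gt x + hess u x + hess v x := by
      intro x
      rw [hess_add ((hH.contDiff.of_le (by norm_num)).contDiffAt)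
        ((hv.contDiff.of_le (by norm_num)).contDiffAt), add_assoc]
    refine ⟨fun y => u y + v y, ⟨_, hH.add hv⟩, ⟨c / 2, by linarith, ?_⟩, ?_⟩
    · intro x
      have := hE' x
      simpa only [hadd] using this
    · intro x
      rw [hadd, heq x, hu.eqn x]
      ring
  have hp : 0 < 2 * K + 1 := by linarith
  set t : ℝ := δ / (2 * K + 1) with ht
  have ht0 : 0 < t := div_pos hδ hp
  have htd : t * (2 * K + 1) = δ := div_mul_cancel₀ _ hp.ne'
  have main : ∀ n : ℕ, ∀ s : ℝ, 0 ≤ s → s ≤ 1 → s ≤ n * t →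
      ∃ u, Sol Gt (fun x => (1 - s) * ldet Gt x + s * H x) u := by
    intro n
    induction n with
    | zero =>
      intro s hs0 _ hs
      have hs' : s = 0 := by
        have : s ≤ 0 := by simpa using hs
        linarith
      subst hs'
      refine ⟨fun _ => 0, ⟨_, HB_const 5 0⟩, ⟨ε, hε, ?_⟩, ?_⟩
      · intro x
        simpa only [hess_const, add_zero] using hBg.ell x
      · intro x
        simp only [hess_const, add_zero, ldet]
        ring
    | succ n ih =>
      intro s hs0 hs1 hs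
      by_cases hle : s ≤ n * t
      · exact ih s hs0 hs1 hle
      · have hlt : n * t ≤ s := (not_le.mp hle).le
        have hn : 0 ≤ (n : ℝ) * t := by positivity
        refine step (n * t) s hn (hlt.trans hs1) hlt ?_ (ih _ hn (hlt.trans hs1) le_rfl)
        rw [← htd]
        push_cast at hs
        exact mul_le_mul_of_nonneg_right (by linarith) hp.le
  obtain ⟨n, hn⟩ := exists_nat_ge (1 / t)
  obtain ⟨u, hu⟩ := main n 1 zero_le_one le_rfl (by rwa [div_le_iff₀ ht0] at hn)
  refine ⟨u, ?_⟩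
  have e : (fun x => (1 - 1) * ldet Gt x + 1 * H x) = H := by
    funext x
    ring
  rwa [e] at hu

end Pool.Agent.MP_5f4cdd_gt.CB
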