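import Pool.Agent.MP_5f4cdd_gt.CB.Api

set_option autoImplicit false
open MeasureTheory Matrix Set Filter Topology

namespace Pool.Agent.MP_5f4cdd_gt.CB

variable {N : ℕ} {Q : Set (E N)} {p : E N → ℝ}

theorem bd_EyHB (hQ : IsCompact Q) (hi : (interior Q).Nonempty) (hp : PolyW p) :
    ∃ L, 0 ≤ L ∧ ∀ y, |Ey Q p y| ≤ L := by
  obtain ⟨L, hL⟩ := hQ.exists_bound_of_continuousOn hp.1.continuousOn
  have hm := hQ.measurableSet
  have key : ∀ y, |Ey Q p y| ≤ L := fun y => by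
    have hr := room_of_compact hQ y
    have h1 := Ey_mono hm hr hp (polyW_const L) fun η hη => (abs_le.1 (hL η hη)).2
    have h2 := Ey_mono hm hr (polyW_const (-L)) hp fun η hη => (abs_le.1 (hL η hη)).1
    rw [Ey_const hm hr hi] at h1 h2
    exact abs_le.2 ⟨h2, h1⟩
  exact ⟨L, (abs_nonneg _).trans (key 0), key⟩

theorem diff_EyHB (hQ : IsCompact Q) (hi : (interior Q).Nonempty) (hp : PolyW p) :
    Differentiable ℝ (Ey Q p) := fun y =>
  (contDiffAt_Ey hQ.measurableSet (room_of_compact hQ y) hi hp 1).differentiableAt (by simp)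

theorem pd_EyHB (hQ : IsCompact Q) (hi : (interior Q).Nonempty) (hp : PolyW p) (i : Fin N) :
    pd i (Ey Q p) = fun y => -Ey Q (fun η => (Pi.single i 1 ⬝ᵥ η) * p η) y +
      Ey Q (fun η => Pi.single i 1 ⬝ᵥ η) y * Ey Q p y :=
  funext fun y => dd_Ey hQ.measurableSet (room_of_compact hQ y) hi hp _

theorem zero_EyHB (hQ : IsCompact Q) (hi : (interior Q).Nonempty) (hp : PolyW p) :
    ∃ K, HB 0 K (Ey Q p) := by
  obtain ⟨L, hL0, hL⟩ := bd_EyHB hQ hi hp
  have h : ∀ i : Fin N, ∃ m, 0 ≤ m ∧ ∀ y, |pd i (Ey Q p) y| ≤ m := fun i => by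
    obtain ⟨a, ha0, ha⟩ := bd_EyHB hQ hi ((polyW_dot (Pi.single i 1)).mul hp)
    obtain ⟨b, hb0, hb⟩ := bd_EyHB hQ hi (polyW_dot (Pi.single i 1))
    refine ⟨a + b * L, by positivity, fun y => ?_⟩
    rw [pd_EyHB hQ hi hp i]
    refine (abs_add_le _ _).trans (add_le_add ?_ ?_)
    · rw [abs_neg]
      exact ha y
    · rw [abs_mul]
      exact mul_le_mul (hb y) (hL y) (abs_nonneg _) hb0
  choose m hm0 hm using h
  have hs : 0 ≤ ∑ i, m i := Finset.sum_nonneg fun i _ => hm0 i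
  exact ⟨_, HB0_of_lip hL (by positivity) (lip_of_pd (M := ∑ i, m i) (diff_EyHB hQ hi hp)
    fun i y => (hm i y).trans (Finset.single_le_sum (fun j _ => hm0 j) (Finset.mem_univ i)))⟩

theorem sEyHB : EyHBStmt := by
  intro N k Q p hQ hi hp
  induction k generalizing p with
  | zero => exact zero_EyHB hQ hi hp
  | succ k ih =>
    obtain ⟨L, hL0, hL⟩ := bd_EyHB hQ hi hp
    obtain ⟨C, -, hC⟩ := HB_mul N k
    obtain ⟨K, hK⟩ := ih p hp
    have h : ∀ i : Fin N, ∃ m, HB k m (pd i (Ey Q p)) := fun i => by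
      obtain ⟨a, ha⟩ := ih _ ((polyW_dot (Pi.single i 1)).mul hp)
      obtain ⟨b, hb⟩ := ih _ (polyW_dot (Pi.single i 1))
      rw [pd_EyHB hQ hi hp i]
      exact ⟨_, ha.neg.add (hC _ _ _ _ hb hK)⟩
    choose m hm using h
    have hs : 0 ≤ ∑ i, m i := Finset.sum_nonneg fun i _ => (hm i).nonneg
    refine ⟨L + ∑ i, m i, diff_EyHB hQ hi hp, fun y => (hL y).trans (by linarith), fun i =>
      (hm i).mono ?_⟩
    have := Finset.single_le_sum (fun j _ => (hm j).nonneg) (Finset.mem_univ i)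
    linarith

end Pool.Agent.MP_5f4cdd_gt.CB
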