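import Pool.Agent.MP_5f4cdd_gt.CB.Api

set_option autoImplicit false
open MeasureTheory Matrix Set Filter Topology

namespace Pool.Agent.MP_5f4cdd_gt.CB

variable {N : ℕ}

theorem mul0_Freeze {a b : ℝ} {f g : E N → ℝ} (hf : HB 0 a f) (hg : HB 0 b g) :
    HB 0 (2 * a * b) (fun x => f x * g x) := by
  refine ⟨fun x => ?_, fun x y => (HB0_mul hf.1 hf.2 hg.1 hg.2 x y).trans_eq (by ring)⟩
  have h := mul_le_mul (hf.1 x) (hg.1 x) (abs_nonneg _) hf.nonneg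
  have h2 := mul_nonneg hf.nonneg hg.nonneg
  rw [abs_mul]
  linarith

theorem op_Freeze (A : Mat N) (a : E N → Mat N) {ζ u : E N → ℝ} (hζ : ContDiff ℝ 2 ζ)
    (hu : ContDiff ℝ 2 u) : op (fun _ => A) (fun y => ζ y * u y) = fun x => ζ x * op a u x +
      ∑ i, ∑ j, (ζ x * (A i j - a x i j) * pd j (pd i u) x + A i j * (pd j (pd i ζ) x * u x +
        pd j ζ x * pd i u x + pd i ζ x * pd j u x)) := by
  funext x
  have h : ∀ i j, hess (fun y => ζ y * u y) x j i = pd j (pd i ζ) x * u x +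
      pd j ζ x * pd i u x + pd i ζ x * pd j u x + ζ x * pd j (pd i u) x := fun i j => by
    have := qf_hess_mul (x := x) hζ.contDiffAt hu.contDiffAt (Pi.single j 1) (Pi.single i 1)
    rw [qf_single, qf_single, qf_single] at this
    exact this
  have h2 : ∀ i j, hess u x j i = pd j (pd i u) x := fun _ _ => rfl
  simp only [op, Matrix.trace, Matrix.diag_apply, Matrix.mul_apply, h, h2, mul_sub, Finset.mul_sum]
  rw [sub_add_eq_add_sub, ← Finset.sum_add_distrib, mul_left_comm]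
  congr 1
  refine Finset.sum_congr rfl fun i _ => ?_
  rw [← Finset.sum_add_distrib]
  exact Finset.sum_congr rfl fun j _ => by ring

theorem top_Freeze {K D s m M' r : ℝ} {ζ a v : E N → ℝ} {x0 : E N} (hζ : HB 0 D ζ)
    (h1 : ∀ x, 0 ≤ ζ x ∧ ζ x ≤ 1) (h2 : ∀ x, 2 * r ≤ ‖x - x0‖ → ζ x = 0) (hs : √(2 * r) ≤ s)
    (ha : HB 0 K a) (hv : HB 0 M' v) (hm : ∀ x, |v x| ≤ m) :
    HB 0 (K * s * M' + 3 * D * K * m) (fun x => ζ x * (a x0 - a x) * v x) := by
  have hK := ha.nonneg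
  have hs0 : 0 ≤ s := (Real.sqrt_nonneg _).trans hs
  have b1 : ∀ x, |ζ x * (a x0 - a x)| ≤ K * s := fun x => by
    rcases le_total (2 * r) ‖x - x0‖ with c | c
    · rw [h2 x c, zero_mul, abs_zero]
      positivity
    · rw [abs_mul, abs_of_nonneg (h1 x).1, abs_sub_comm]
      exact (mul_le_of_le_one_left (abs_nonneg _) (h1 x).2).trans ((ha.2 x x0).trans
        (mul_le_mul_of_nonneg_left ((Real.sqrt_le_sqrt c).trans hs) hK))
  have b2 := HB0_mul (w := fun x => a x0 - a x) (a' := 2 * K) (b' := K) hζ.1 hζ.2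
    (fun x => (abs_sub _ _).trans (by linarith [ha.1 x0, ha.1 x])) fun x y => by
      rw [sub_sub_sub_cancel_left, abs_sub_comm]
      exact ha.2 x y
  refine ⟨fun x => ?_, fun x y => (HB0_mul b1 b2 hm hv.2 x y).trans_eq (by ring)⟩
  have c1 := mul_le_mul (b1 x) (hv.1 x) (abs_nonneg _) (by positivity)
  have c2 : 0 ≤ 3 * D * K * m := by
    have := hζ.nonneg
    have := (abs_nonneg _).trans (hm x)
    positivity
  rw [abs_mul]
  linarith

theorem half_Freeze {P η : ℝ} (hP : 0 ≤ P) (hη : 0 < η) : ∃ s, 0 < s ∧ P * s ≤ η / 2 :=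
  ⟨η / (2 * (P + 1)), by positivity, by
    rw [mul_div_assoc', div_le_div_iff₀ (by positivity) two_pos]
    nlinarith⟩

theorem sFreeze (hCC : CCStmt) : FreezeStmt := by
  intro N c K0 η hc hη
  obtain ⟨K, hK0, hK⟩ : ∃ K, K0 ≤ K ∧ 0 ≤ K := ⟨|K0|, le_abs_self _, abs_nonneg _⟩
  obtain ⟨C1, hC1, hCC⟩ := hCC N c K hc
  obtain ⟨s, hs, hs1⟩ := half_Freeze (P := C1 * (N * (N * K))) (by positivity) hη
  obtain ⟨Cz, hCz, hcut⟩ := exists_cutoff N 2 (r := s ^ 2 / 2) (by positivity)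
  obtain ⟨D, hD⟩ : ∃ D : ℝ, D = ((N : ℝ) + 2) ^ 2 * Cz := ⟨_, rfl⟩
  have hN : (0 : ℝ) ≤ N := Nat.cast_nonneg N
  have hD1 : ((N : ℝ) + 2) * Cz ≤ D := hD ▸ mul_le_mul_of_nonneg_right (by nlinarith) hCz
  have hD2 : Cz ≤ D := le_trans (by nlinarith) hD1
  have hD0 : 0 ≤ D := hCz.trans hD2
  obtain ⟨β, hβ⟩ : ∃ β : ℝ, β = C1 * (N * (N * (K * D * (11 + 6 * N)))) := ⟨_, rfl⟩
  have hβ0 : 0 ≤ β := by rw [hβ]; positivity
  obtain ⟨η', hη', hη1⟩ := half_Freeze hβ0 hη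
  obtain ⟨C', hC', hI⟩ := HB_interp N hη'
  obtain ⟨C2, -, hmul⟩ := HB_mul N 2
  refine ⟨s ^ 2 / 2, C1 * (2 * D + N * (N * (K * D * 4))) + β * C', by positivity, by positivity,
    fun a u M M' ha hK1 hu hop hM x0 => ?_⟩
  obtain ⟨ζ, -, z1, z2, z3, z4⟩ := hcut x0
  refine ⟨fun y => ζ y * u y, ?_, fun x hx => by simp only [z3 x hx, one_mul]⟩
  obtain ⟨i1, i2⟩ := hI M' M u hu hM
  obtain ⟨m, hm⟩ : ∃ m, m = η' * M' + C' * M := ⟨_, rfl⟩
  rw [← hm] at i1 i2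
  have hM0 := hop.nonneg
  have hM' := hu.nonneg
  have hm0 : 0 ≤ m := by rw [hm]; positivity
  have ha0 : ∀ i j, HB 0 K fun x => a x i j := fun i j => (hK1 i j).mono hK0
  have u0 : HB 0 (2 * M + N * m) u := HB0_of_lip hM (by positivity) (lip_of_pd hu.1 i1)
  have u1 : ∀ j, HB 0 (2 * m + N * m) (pd j u) := fun j =>
    HB0_of_lip (i1 j) (by positivity) (lip_of_pd (hu.pd j).1 fun i => i2 i j)
  have y0 : HB 0 D ζ := hD ▸ z1.lower_le (Nat.zero_le 2)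
  have y1 : ∀ j, HB 0 D (pd j ζ) := fun j => (z1.pd j).lower.mono hD1
  have y2 : ∀ i j, HB 0 D (pd j (pd i ζ)) := fun i j => ((z1.pd i).pd j).mono hD2
  have key : HB 0 (2 * D * M + ∑ _i : Fin N, ∑ _j : Fin N, (K * s * M' + 3 * D * K * m +
      K * (2 * D * (2 * M + N * m) + 2 * D * (2 * m + N * m) + 2 * D * (2 * m + N * m))))
      (op (fun _ => a x0) fun y => ζ y * u y) := by
    rw [op_Freeze (a x0) a z1.contDiff hu.contDiff]
    refine (mul0_Freeze y0 hop).add (HB.sum _ _ _ fun i _ => HB.sum _ _ _ fun j _ => HB.add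
      (top_Freeze y0 z2 z4 ?_ (ha0 i j) ((hu.pd i).pd j) (i2 j i)) ?_)
    · rw [show 2 * (s ^ 2 / 2) = s ^ 2 by ring, Real.sqrt_sq hs.le]
    · exact ((((mul0_Freeze (y2 i j) u0).add (mul0_Freeze (y1 j) (u1 i))).add
        (mul0_Freeze (y1 i) (u1 j))).const_mul (a x0 i j)).mono
        (mul_le_mul_of_nonneg_right ((ha0 i j).1 x0) (by positivity))
  refine (hCC (a x0) _ _ (fun _ => ha x0) (fun i j => (ha0 i j).1 x0) ⟨_, hmul _ _ _ _ z1 hu⟩
    key).mono ?_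
  simp only [Finset.sum_const, Finset.card_univ, Fintype.card_fin, nsmul_eq_mul]
  have e1 := mul_le_mul_of_nonneg_right hs1 hM'
  have e2 := mul_le_mul_of_nonneg_right hη1 hM'
  calc _ = C1 * (N * (N * K)) * s * M' + C1 * (2 * D + N * (N * (K * D * 4))) * M + β * m := by
        rw [hβ]; ring
    _ ≤ _ := by rw [hm]; linarith

end Pool.Agent.MP_5f4cdd_gt.CB
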