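import Pool.Agent.MP_5f4cdd_gt.CB.Api

set_option autoImplicit false
open MeasureTheory Matrix Set Filter Topology

namespace Pool.Agent.MP_5f4cdd_gt.CB
variable {N : ℕ} {W : Set (E N)} {b0 y z : E N} {G : E N → ℝ}

lemma euler_Geo1 {u : E N → ℝ} {φ : ℝ → ℝ} {φ' : ℝ} (hu : DifferentiableAt ℝ u y)
    (h : ∀ s : ℝ, 0 < s → u (s • y) = φ s) (hφ : HasDerivAt φ φ' 1) : dd y u y = φ' := by
  have h1 := hasDerivAt_line (u := u) (x := 0) (v := y) (t := 1) (by simpa using hu)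
  simp only [zero_add, one_smul] at h1
  refine h1.unique (hφ.congr_of_eventuallyEq ?_)
  filter_upwards [lt_mem_nhds (zero_lt_one' ℝ)] with s hs using h s hs

lemma c4_Geo1 (hG : Bar W G) (hy : y ∈ oV W) : ContDiffAt ℝ 4 G y := (hG.ma y hy).smooth

lemma c3_Geo1 (hG : Bar W G) (hy : y ∈ oV W) : ContDiffAt ℝ 3 G y :=
  (c4_Geo1 hG hy).of_le (by norm_num)

lemma c2_Geo1 (hG : Bar W G) (hy : y ∈ oV W) : ContDiffAt ℝ 2 G y :=
  (c4_Geo1 hG hy).of_le (by norm_num)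

lemma c1_Geo1 (hG : Bar W G) (hy : y ∈ oV W) : DifferentiableAt ℝ G y :=
  (c4_Geo1 hG hy).differentiableAt (by norm_num)

lemma cd_Geo1 (hG : Bar W G) (hy : y ∈ oV W) (v : E N) : DifferentiableAt ℝ (dd v G) y :=
  (contDiffAt_dd (k := 1) (c2_Geo1 hG hy) v).differentiableAt (by norm_num)

lemma ev_Geo1 (hG : Bar W G) (hy : y ∈ oV W) {t : ℝ} (ht : 0 < t) :
    (fun x => G (t • x)) =ᶠ[𝓝 y] fun x => G x - N * Real.log t := by
  filter_upwards [(isOpen_oV W).mem_nhds hy] with x hx using hG.hom x hx t ht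

lemma dot_eta_Geo1 (v y : E N) (G : E N → ℝ) : v ⬝ᵥ eta G y = -dd v G y := by
  rw [eta, dotProduct_neg, dd_eq_dot]

lemma e0_Geo1 (hG : Bar W G) (hy : y ∈ oV W) : y ⬝ᵥ eta G y = N := by
  have h1 : HasDerivAt (fun s : ℝ => G y - N * Real.log s) (-(N * (1 : ℝ)⁻¹)) 1 :=
    ((Real.hasDerivAt_log one_ne_zero).const_mul (N : ℝ)).const_sub (G y)
  rw [dot_eta_Geo1, euler_Geo1 (c1_Geo1 hG hy) (fun s hs => hG.hom y hy s hs) h1]
  simp

lemma sc1_Geo1 (hG : Bar W G) (hy : y ∈ oV W) (v : E N) {t : ℝ} (ht : 0 < t) :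
    dd v G (t • y) = t⁻¹ * dd v G y := by
  have e : ∀ x : E N, 0 + (t • (1 : Mat N)) *ᵥ x = t • x := fun x => by
    rw [zero_add, smul_mulVec, one_mulVec]
  have h1 := dd_aff (u := G) 0 (t • (1 : Mat N)) y v
    (by rw [e]; exact c1_Geo1 hG (oV_smul hy ht))
  simp only [e] at h1
  rw [(dd_congr (ev_Geo1 hG hy ht) v).self_of_nhds,
    dd_sub (c1_Geo1 hG hy) (differentiableAt_const _), dd_const, sub_zero, smul_mulVec, one_mulVec,
    dd_smul_vec] at h1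
  rw [h1]
  field_simp

lemma e1_Geo1 (hG : Bar W G) (hy : y ∈ oV W) : hess G y *ᵥ y = eta G y := by
  have h : ∀ v, v ⬝ᵥ (hess G y *ᵥ y) = v ⬝ᵥ eta G y := fun v => by
    have h1 : HasDerivAt (fun s : ℝ => s⁻¹ * dd v G y) (-((1 : ℝ) ^ 2)⁻¹ * dd v G y) 1 :=
      (hasDerivAt_inv one_ne_zero).mul_const _
    have h2 := euler_Geo1 (cd_Geo1 hG hy v) (fun s hs => sc1_Geo1 hG hy v hs) h1
    rw [dd_comm (c2_Geo1 hG hy), dd_dd_eq_qf (c2_Geo1 hG hy)] at h2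
    rw [dot_eta_Geo1, ← qf, h2]
    simp
  funext i
  simpa using h (Pi.single i 1)

lemma sc2_Geo1 (hG : Bar W G) (hy : y ∈ oV W) (v w : E N) {t : ℝ} (ht : 0 < t) :
    qf (hess G (t • y)) v w = (t ^ 2)⁻¹ * qf (hess G y) v w := by
  have h1 := hess_scale (u := G) t y (c2_Geo1 hG (oV_smul hy ht))
  rw [(hess_congr (ev_Geo1 hG hy ht)).self_of_nhds,
    hess_sub (c2_Geo1 hG hy) contDiffAt_const, hess_const, sub_zero] at h1
  rw [h1, qf_smul]
  field_simp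

lemma e2_Geo1 (hG : Bar W G) (hy : y ∈ oV W) : d3 G y y = (-2 : ℝ) • hess G y := by
  refine mat_ext_qf fun v w => ?_
  have h0 : HasDerivAt (fun s : ℝ => (s ^ 2)⁻¹) (-(((2 : ℕ) : ℝ) * (1 : ℝ) ^ (2 - 1)) /
      ((1 : ℝ) ^ 2) ^ 2) 1 := (hasDerivAt_pow 2 (1 : ℝ)).fun_inv (by norm_num)
  have h2 := euler_Geo1 (u := fun x => qf (hess G x) v w)
    ((contDiffAt_qf_hess (k := 1) (c3_Geo1 hG hy) v w).differentiableAt (by norm_num))
    (fun s hs => sc2_Geo1 hG hy v w hs) (h0.mul_const (qf (hess G y) v w))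
  rw [dd_qf_hess (c3_Geo1 hG hy)] at h2
  rw [h2, qf_smul]
  norm_num

lemma seg_Geo1 (hy : y ∈ oV W) (hz : z ∈ oV W) {s : ℝ} (h0 : 0 ≤ s) (h1 : s ≤ 1) :
    y + s • (z - y) ∈ oV W := (convex_oV W).add_smul_sub_mem hy hz ⟨h0, h1⟩

lemma mono_Geo1 (hG : Bar W G) (hy : y ∈ oV W) (hz : z ∈ oV W) (hne : z ≠ y) {c : ℝ}
    (h0 : 0 < c) (h1 : c ≤ 1) : dd (z - y) G y < dd (z - y) G (y + c • (z - y)) := by
  have hd : ∀ s ∈ Icc (0 : ℝ) c, HasDerivAt (fun s : ℝ => dd (z - y) G (y + s • (z - y)))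
      (dd (z - y) (dd (z - y) G) (y + s • (z - y))) s := fun s hs =>
    hasDerivAt_line (cd_Geo1 hG (seg_Geo1 hy hz hs.1 (hs.2.trans h1)) _)
  obtain ⟨s, hs, e⟩ := exists_hasDerivAt_eq_slope _ _ h0
    (fun s hs => (hd s hs).continuousAt.continuousWithinAt)
    (fun s hs => hd s (Ioo_subset_Icc_self hs))
  have hm := seg_Geo1 hy hz hs.1.le (hs.2.le.trans h1)
  have hp := qf_pos (hG.ma _ hm).pos (sub_ne_zero.2 hne)
  rw [← dd_dd_eq_qf (c2_Geo1 hG hm), e, sub_zero, zero_smul, add_zero, div_pos_iff_of_pos_right h0,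
    sub_pos] at hp
  exact hp

lemma tan_Geo1 (hG : Bar W G) (hy : y ∈ oV W) (hz : z ∈ oV W) :
    G y - eta G y ⬝ᵥ (z - y) ≤ G z := by
  by_cases hne : z = y
  · simp [hne]
  have hd : ∀ s ∈ Icc (0 : ℝ) 1, HasDerivAt (fun s : ℝ => G (y + s • (z - y)))
      (dd (z - y) G (y + s • (z - y))) s := fun s hs =>
    hasDerivAt_line (c1_Geo1 hG (seg_Geo1 hy hz hs.1 hs.2))
  obtain ⟨s, hs, e⟩ := exists_hasDerivAt_eq_slope _ _ (zero_lt_one' ℝ)
    (fun s hs => (hd s hs).continuousAt.continuousWithinAt)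
    (fun s hs => hd s (Ioo_subset_Icc_self hs))
  have hm := mono_Geo1 hG hy hz hne hs.1 hs.2.le
  rw [e, sub_zero, zero_smul, add_zero, one_smul, add_sub_cancel, div_one] at hm
  rw [dotProduct_comm, dot_eta_Geo1]
  linarith

lemma inj_Geo1 (hG : Bar W G) (hy : y ∈ oV W) (hz : z ∈ oV W) (h : eta G z = eta G y) :
    z = y := by
  by_contra hne
  have hm := mono_Geo1 hG hy hz hne one_pos le_rfl
  rw [one_smul, add_sub_cancel] at hm
  have h1 := dot_eta_Geo1 (z - y) y G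
  have h2 := dot_eta_Geo1 (z - y) z G
  rw [h] at h2
  linarith

lemma mem_Geo1 (hW : PC W b0) (hG : Bar W G) (hy : y ∈ oV W) : eta G y ∈ W := by
  refine hW.bidual _ fun v hv => ?_
  obtain ⟨D, hD⟩ := hG.near
  by_contra hn
  have ha : 0 < -(v ⬝ᵥ eta G y) := by linarith [not_le.1 hn]
  set s : ℝ := (2 * |D| + 1) / -(v ⬝ᵥ eta G y) with hs
  have hs0 : 0 ≤ s := by positivity
  have hc : s • v ∈ cV W := cV_smul hv hs0
  have hm := oV_add hy hc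
  have h1 := tan_Geo1 hG hy hm
  have h2 := Real.log_le_log (hW.Phi_pos hm) (hW.Phi_anti hy hc)
  have h3 := abs_le.1 (hD _ hm)
  have h4 := abs_le.1 (hD _ hy)
  have h5 : s * -(v ⬝ᵥ eta G y) = 2 * |D| + 1 := div_mul_cancel₀ _ ha.ne'
  rw [add_sub_cancel_left, dotProduct_smul, smul_eq_mul, dotProduct_comm] at h1
  linarith [le_abs_self D]

lemma pos_Geo1 (hW : PC W b0) (hG : Bar W G) (hN : 0 < N) (hy : y ∈ oV W) (hz : z ∈ oV W) :
    0 < z ⬝ᵥ eta G y := by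
  obtain ⟨c, hc, h⟩ := hz
  refine lt_of_lt_of_le (mul_pos hc (norm_pos_iff.2 fun h0 => ?_)) (h _ (mem_Geo1 hW hG hy))
  have := e0_Geo1 hG hy
  rw [h0, dotProduct_zero] at this
  exact hN.ne (by exact_mod_cast this)

lemma half_Geo1 (hW : PC W b0) (hG : Bar W G) (hN : 0 < N) (hy : y ∈ oV W) (hz : z ∈ oV W) :
    G y ≤ G z - N * Real.log (N / (z ⬝ᵥ eta G y)) := by
  have ha := pos_Geo1 hW hG hN hy hz
  have ht : 0 < (N : ℝ) / (z ⬝ᵥ eta G y) := div_pos (by exact_mod_cast hN) ha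
  have h1 := tan_Geo1 hG hy (oV_smul hz ht)
  rw [hG.hom z hz _ ht, dotProduct_sub, dotProduct_smul, smul_eq_mul, dotProduct_comm _ z,
    dotProduct_comm _ y, e0_Geo1 hG hy, div_mul_cancel₀ _ ha.ne'] at h1
  linarith

lemma last_Geo1 (hW : PC W b0) (hG : Bar W G) (hy : y ∈ oV W) (hz : z ∈ oV W) :
    (N : ℝ) ^ 2 ≤ (z ⬝ᵥ eta G y) * (y ⬝ᵥ eta G z) := by
  rcases Nat.eq_zero_or_pos N with hN | hN
  · have := mul_nonneg (oV_subset_cV W hz _ (mem_Geo1 hW hG hy))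
      (oV_subset_cV W hy _ (mem_Geo1 hW hG hz))
    simpa [hN] using this
  have hN' : (0 : ℝ) < N := by exact_mod_cast hN
  have ha := pos_Geo1 hW hG hN hy hz
  have hb := pos_Geo1 hW hG hN hz hy
  have h1 := half_Geo1 hW hG hN hy hz
  have h2 := half_Geo1 hW hG hN hz hy
  have h3 : Real.log (N / (z ⬝ᵥ eta G y)) + Real.log (N / (y ⬝ᵥ eta G z)) ≤ 0 := by
    by_contra hn
    nlinarith [mul_pos hN' (not_le.1 hn)]
  rw [← Real.log_mul (by positivity) (by positivity), Real.log_nonpos_iff (by positivity),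
    div_mul_div_comm, div_le_one (by positivity)] at h3
  rwa [sq]

theorem sGeo1 : Geo1Stmt := fun _ _ _ _ hW hG _ hy =>
  ⟨e1_Geo1 hG hy, e0_Geo1 hG hy, e2_Geo1 hG hy, mem_Geo1 hW hG hy,
    fun _ hz => tan_Geo1 hG hy hz, fun _ hz => inj_Geo1 hG hy hz,
    fun _ hz => last_Geo1 hW hG hy hz⟩

end Pool.Agent.MP_5f4cdd_gt.CB
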