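import Pool.Agent.MP_5f4cdd_gt.CB.Api

set_option autoImplicit false
open MeasureTheory Matrix Set Filter Topology

namespace Pool.Agent.MP_5f4cdd_gt.CB

theorem mono_Geo2a {F F' : ℝ → ℝ} (h : ∀ s, 0 ≤ s → HasDerivAt F (F' s) s)
    (h0 : ∀ s, 0 ≤ s → 0 ≤ F' s) {s : ℝ} (hs : 0 ≤ s) : F 0 ≤ F s := by
  have hm : MonotoneOn F (Ici 0) := by
    refine monotoneOn_of_deriv_nonneg (convex_Ici 0)
      (fun t ht => (h t ht).continuousAt.continuousWithinAt)
      (fun t ht => (h t (interior_subset ht)).differentiableAt.differentiableWithinAt)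
      fun t ht => ?_
    rw [(h t (interior_subset ht)).deriv]
    exact h0 t (interior_subset ht)
  exact hm (mem_Ici.2 le_rfl) hs hs

theorem ode_Geo2a {f g k : ℝ → ℝ} (hf : ∀ s, 0 ≤ s → HasDerivAt f (g s) s)
    (hg : ∀ s, 0 ≤ s → HasDerivAt g (k s) s) (f0 : ∀ s, 0 ≤ s → f s ≤ 0)
    (gp : ∀ s, 0 ≤ s → 0 < g s) (hk : ∀ s, 0 ≤ s → k s ^ 2 ≤ 4 * g s ^ 3) : g 0 ≤ f 0 ^ 2 := by
  have sp : ∀ s, 0 ≤ s → 0 < √(g s) := fun s hs => Real.sqrt_pos.2 (gp s hs)
  have h1 : ∀ s, 0 ≤ s → (√(g s))⁻¹ ≤ (√(g 0))⁻¹ + s := fun s hs => by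
    have := mono_Geo2a (F := fun t => t - (√(g t))⁻¹)
      (F' := fun t => 1 - -(k t / (2 * √(g t))) / √(g t) ^ 2)
      (fun t ht => (hasDerivAt_id' t).sub (((hg t ht).sqrt (gp t ht).ne').inv (sp t ht).ne'))
      (fun t ht => by
        have hp := sp t ht
        have e : g t ^ 3 = (√(g t) ^ 3) ^ 2 := by
          rw [← pow_mul, mul_comm, pow_mul, Real.sq_sqrt (gp t ht).le]
        have h2 : |k t| ≤ 2 * √(g t) ^ 3 := by
          refine abs_le_of_sq_le_sq ?_ (by positivity)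
          rw [mul_pow, ← e]
          linarith [hk t ht]
        have h3 : -k t ≤ 2 * √(g t) ^ 3 := (neg_le_abs _).trans h2
        rw [sub_nonneg, div_le_one (by positivity), ← neg_div, div_le_iff₀ (by positivity)]
        linarith) hs
    linarith
  have p0 : 0 < (√(g 0))⁻¹ := inv_pos.2 (sp 0 le_rfl)
  have h2 : ∀ s, 0 ≤ s → f 0 + √(g 0) ≤ ((√(g 0))⁻¹ + s)⁻¹ := fun s hs => by
    have := mono_Geo2a (F := fun t => f t + ((√(g 0))⁻¹ + t)⁻¹)
      (F' := fun t => g t + -1 / ((√(g 0))⁻¹ + t) ^ 2)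
      (fun t ht => (hf t ht).add (((hasDerivAt_id' t).const_add _).inv (by positivity)))
      (fun t ht => by
        have hp := sp t ht
        have h3 : 1 ≤ √(g t) * ((√(g 0))⁻¹ + t) := by
          have := mul_le_mul_of_nonneg_left (h1 t ht) hp.le
          rwa [mul_inv_cancel₀ hp.ne'] at this
        have h4 : 1 ≤ g t * ((√(g 0))⁻¹ + t) ^ 2 := by
          have := one_le_pow₀ (n := 2) h3
          rwa [mul_pow, Real.sq_sqrt (gp t ht).le] at this
        rw [neg_div, ← sub_eq_add_neg, sub_nonneg, div_le_iff₀ (by positivity)]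
        exact h4) hs
    simp only [add_zero, inv_inv] at this
    linarith [f0 s hs]
  have h3 : f 0 + √(g 0) ≤ 0 :=
    ge_of_tendsto (tendsto_inv_atTop_zero.comp (tendsto_atTop_add_const_left _ _ tendsto_id))
      ((eventually_ge_atTop 0).mono h2)
  calc g 0 = √(g 0) ^ 2 := (Real.sq_sqrt (gp 0 le_rfl).le).symm
    _ ≤ (-f 0) ^ 2 := pow_le_pow_left₀ (Real.sqrt_nonneg _) (by linarith) 2
    _ = f 0 ^ 2 := neg_sq _

theorem sGeo2a (hGeo1 : Geo1Stmt) : Geo2aStmt := by
  intro N W b0 G _ hW hG y hy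
  have hdd : ∀ v z : E N, dd v G z = -(v ⬝ᵥ eta G z) := fun v z => by
    rw [dd_eq_dot, eta, dotProduct_neg, neg_neg]
  have key : ∀ v ∈ cV W, qf (hess G y) v v ≤ (v ⬝ᵥ eta G y) ^ 2 := by
    intro v hv
    by_cases h0 : v = 0
    · rw [h0, qf, zero_dotProduct]
      exact sq_nonneg _
    have hm : ∀ s : ℝ, 0 ≤ s → y + s • v ∈ oV W := fun s hs => oV_add hy (cV_smul hv hs)
    have c3 : ∀ s : ℝ, 0 ≤ s → ContDiffAt ℝ 3 G (y + s • v) := fun s hs =>
      (hG.ma _ (hm s hs)).smooth.of_le (by norm_cast)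
    have c2 : ∀ s : ℝ, 0 ≤ s → ContDiffAt ℝ 2 G (y + s • v) := fun s hs =>
      (c3 s hs).of_le (by norm_cast)
    have := ode_Geo2a (f := fun s => dd v G (y + s • v))
      (g := fun s => qf (hess G (y + s • v)) v v) (k := fun s => qf (d3 G (y + s • v) v) v v)
      (fun s hs => by
        have h := hasDerivAt_line (u := dd v G) (x := y) (v := v) (t := s)
          ((contDiffAt_dd (k := 1) (c2 s hs) v).differentiableAt (by norm_cast))
        rwa [dd_dd_eq_qf (c2 s hs)] at h)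
      (fun s hs => by
        have h := hasDerivAt_line (u := fun z => qf (hess G z) v v) (x := y) (v := v) (t := s)
          ((contDiffAt_qf_hess (k := 1) (c3 s hs) v v).differentiableAt (by norm_cast))
        rwa [dd_qf_hess (c3 s hs)] at h)
      (fun s hs => by
        rw [hdd]
        exact neg_nonpos.2 (hv _ (hGeo1 N W b0 G hW hG _ (hm s hs)).2.2.2.1))
      (fun s hs => qf_pos (hG.ma _ (hm s hs)).pos h0)
      (fun s hs => by
        have h1 := tq_entry (hG.ma _ (hm s hs)).pos (d3_symm (c3 s hs) v) v v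
        have h2 := hG.calabi _ (hm s hs) v
        have h3 := mul_le_mul_of_nonneg_right h2
          (mul_self_nonneg (qf (hess G (y + s • v)) v v))
        refine h1.trans (h3.trans (le_of_eq ?_))
        ring)
    simpa only [zero_smul, add_zero, hdd, neg_sq] using this
  have hη := (hGeo1 N W b0 G hW hG y hy).2.2.2.1
  obtain ⟨c, hc, hcv⟩ := exists_ell (hG.ma y hy).pos
  refine ⟨key, hη, √c, Real.sqrt_pos.2 hc, fun v hv => ?_⟩
  rw [dotProduct_comm]
  refine (le_abs_self _).trans (abs_le_of_sq_le_sq ?_ (hv _ hη))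
  rw [mul_pow, Real.sq_sqrt hc.le]
  exact (mul_le_mul_of_nonneg_left (norm_sq_le_dot v) hc.le).trans ((hcv v).trans (key v hv))

end Pool.Agent.MP_5f4cdd_gt.CB
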