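import Pool.Agent.MP_5f4cdd_gt.CB.Api

set_option autoImplicit false
open MeasureTheory Matrix Set Filter Topology

namespace Pool.Agent.MP_5f4cdd_gt.CB

theorem mvt_Geo2b {f f' : ℝ → ℝ} {t C : ℝ} (hf : ∀ s ∈ Icc 0 t, HasDerivAt f (f' s) s)
    (hC : ∀ s ∈ Icc 0 t, f' s ≤ C) : ∀ s ∈ Icc 0 t, f s ≤ f 0 + C * s := fun _ hs =>
  image_le_of_deriv_right_le_deriv_boundary (f' := f') (B := fun s => f 0 + C * s)
    (B' := fun _ => C) (fun s hs => (hf s hs).continuousAt.continuousWithinAt)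
    (fun s hs => (hf s (Ico_subset_Icc_self hs)).hasDerivWithinAt) (by simp) (by fun_prop)
    (fun s _ => by simpa using (((hasDerivAt_id s).const_mul C).const_add (f 0)).hasDerivWithinAt)
    (fun s hs => hC s (Ico_subset_Icc_self hs)) hs

theorem line_Geo2b {f0 f1 f2 f3 : ℝ → ℝ} {t : ℝ} (ht0 : 0 ≤ t) (ht : t ≤ 1) (h1 : f2 0 < 1)
    (h : ∀ s ∈ Icc 0 t, HasDerivAt f0 (f1 s) s ∧ HasDerivAt f1 (f2 s) s ∧ HasDerivAt f2 (f3 s) s ∧
      0 < f2 s ∧ f3 s ^ 2 ≤ 4 * f2 s * (f2 s * f2 s)) :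
    f0 t ≤ f0 0 + (|f1 0| + (((√(f2 0))⁻¹ - 1)⁻¹) ^ 2) := by
  have p0 := (h 0 ⟨le_rfl, ht0⟩).2.2.2.1
  have m0 : 0 < (√(f2 0))⁻¹ - 1 :=
    sub_pos.2 ((one_lt_inv₀ (Real.sqrt_pos.2 p0)).2 ((Real.sqrt_lt' one_pos).2 (by simpa using h1)))
  have a1 := mvt_Geo2b (f := fun s => -(√(f2 s))⁻¹)
    (f' := fun s => -(-(f3 s / (2 * √(f2 s))) / √(f2 s) ^ 2)) (t := t) (C := 1)
    (fun s hs => (((h s hs).2.2.1.sqrt (h s hs).2.2.2.1.ne').inv
      (Real.sqrt_pos.2 (h s hs).2.2.2.1).ne').neg) fun s hs => by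
      obtain ⟨-, -, -, p, q⟩ := h s hs
      have r := Real.sqrt_pos.2 p
      have r2 := Real.sq_sqrt p.le
      rw [neg_div, neg_neg, div_div, div_le_one (by positivity)]
      refine (abs_le_of_sq_le_sq' (q.trans_eq ?_) (by positivity)).2
      rw [mul_pow, mul_pow, r2]
      ring
  have a2 : ∀ s ∈ Icc 0 t, f2 s ≤ (((√(f2 0))⁻¹ - 1)⁻¹) ^ 2 := fun s hs => by
    have p := (h s hs).2.2.2.1
    have b1 : (√(f2 0))⁻¹ - 1 ≤ (√(f2 s))⁻¹ := by linarith [a1 s hs, hs.2]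
    rw [← Real.sq_sqrt p.le]
    exact pow_le_pow_left₀ (Real.sqrt_nonneg _) ((le_inv_comm₀ m0 (Real.sqrt_pos.2 p)).1 b1) 2
  have l0 := sq_nonneg ((√(f2 0))⁻¹ - 1)⁻¹
  generalize (((√(f2 0))⁻¹ - 1)⁻¹) ^ 2 = L at a2 l0 ⊢
  have a3 := mvt_Geo2b (fun s hs => (h s hs).2.1) a2
  have a4 := mvt_Geo2b (C := |f1 0| + L) (fun s hs => (h s hs).1) (fun s hs => by
    have := mul_le_of_le_one_right l0 (hs.2.trans ht)
    linarith [a3 s hs, le_abs_self (f1 0)]) t ⟨ht0, le_rfl⟩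
  have := mul_le_of_le_one_right (add_nonneg (abs_nonneg (f1 0)) l0) ht
  linarith

theorem dikin_Geo2b {N : ℕ} {W : Set (E N)} {b0 y v : E N} {G : E N → ℝ} (hN : 0 < N)
    (hW : PC W b0) (hG : Bar W G) (hy : y ∈ oV W) (hv : qf (hess G y) v v < 1) :
    y + v ∈ oV W := by
  by_cases v0 : v = 0
  · rwa [v0, add_zero]
  obtain ⟨β, hβ⟩ := hW.exists_iW
  obtain ⟨D, hD⟩ := hG.near
  obtain ⟨M, hM⟩ : ∃ M, ∀ t ∈ Icc (0 : ℝ) 1, y + t • v ∈ oV W → G (y + t • v) ≤ M := by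
    refine ⟨_, fun t ht hz => line_Geo2b (f0 := fun s => G (y + s • v))
      (f1 := fun s => dd v G (y + s • v)) (f2 := fun s => qf (hess G (y + s • v)) v v)
      (f3 := fun s => qf (d3 G (y + s • v) v) v v) ht.1 ht.2 (by simpa using hv) fun s hs => ?_⟩
    have hz' : y + s • v ∈ oV W := by
      rcases hs.1.eq_or_lt with rfl | h0
      · simpa using hy
      have t0 : 0 < t := h0.trans_le hs.2
      have := (convex_oV W).add_smul_mem hy hz (t := s / t)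
        ⟨by positivity, (div_le_one t0).2 hs.2⟩
      rwa [smul_smul, div_mul_cancel₀ _ t0.ne'] at this
    obtain ⟨m1, m2, -⟩ := hG.ma _ hz'
    have c3 : ContDiffAt ℝ 3 G (y + s • v) := m1.of_le (by norm_num)
    have c2 : ContDiffAt ℝ 2 G (y + s • v) := m1.of_le (by norm_num)
    refine ⟨hasDerivAt_line (c2.differentiableAt (by norm_num)), ?_, ?_, qf_pos m2 v0, ?_⟩
    · rw [← dd_dd_eq_qf c2]
      exact hasDerivAt_line ((contDiffAt_dd (k := 1) c2 v).differentiableAt (by norm_num))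
    · rw [← dd_qf_hess c3]
      exact hasDerivAt_line (u := fun z => qf (hess G z) v v)
        ((contDiffAt_qf_hess (k := 1) c3 v v).differentiableAt (by norm_num))
    · exact (tq_entry m2 (d3_symm c3 v) v v).trans (mul_le_mul_of_nonneg_right (hG.calabi _ hz' v)
        (mul_self_nonneg _))
  have hc : Continuous fun t : ℝ => y + t • v := by fun_prop
  have hK := ((hW.rho_compact hN hβ
    (Real.log (β ⬝ᵥ y + |β ⬝ᵥ v| + Real.exp (M + D)))).isClosed.preimage hc).inter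
    (isClosed_Icc (a := (0 : ℝ)) (b := 1))
  have h1 : Icc (0 : ℝ) 1 ⊆ (fun t : ℝ => y + t • v) ⁻¹' oV W := by
    refine IsClosed.Icc_subset_of_forall_mem_nhdsWithin ?_ (by simpa using hy) fun t ht =>
      mem_nhdsWithin_of_mem_nhds (((isOpen_oV W).preimage hc).mem_nhds ht.1)
    convert hK using 1
    refine Subset.antisymm (fun t ht => ⟨⟨ht.1, ?_⟩, ht.2⟩) fun t ht => ⟨ht.1.1, ht.2⟩
    have p1 := hW.Phi_pos ht.1
    have p2 : 0 ≤ β ⬝ᵥ (y + t • v) := dotProduct_comm β _ ▸ oV_subset_cV W ht.1 β hβ.1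
    have p3 : Phi W (y + t • v) ≤ Real.exp (M + D) := (Real.log_le_iff_le_exp p1).1 (by
      linarith [(abs_le.1 (hD _ ht.1)).1, hM t ht.2 ht.1])
    have p4 : β ⬝ᵥ (y + t • v) ≤ β ⬝ᵥ y + |β ⬝ᵥ v| := by
      rw [dotProduct_add, dotProduct_smul, smul_eq_mul]
      have := mul_le_mul_of_nonneg_left (le_abs_self (β ⬝ᵥ v)) ht.2.1
      have := mul_le_of_le_one_left (abs_nonneg (β ⬝ᵥ v)) ht.2.2
      linarith
    exact Real.log_le_log (by linarith) (add_le_add p4 p3)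
  simpa using h1 (right_mem_Icc.2 zero_le_one)

theorem sGeo2b (hGeo1 : Geo1Stmt) : Geo2bStmt := by
  intro N W b0 G hN hW hG y hy β hβ
  have hp := (hG.ma y hy).pos
  have h1 : ∀ v, qf (hess G y) v v < 1 → 0 ≤ β ⬝ᵥ y + β ⬝ᵥ v := fun v hv => by
    rw [← dotProduct_add, dotProduct_comm]
    exact oV_subset_cV W (dikin_Geo2b hN hW hG hy hv) β hβ
  refine qf_dual_le hp (sq_nonneg _) fun v => le_of_forall_pos_le_add fun ε hε => ?_
  have q0 := qf_nonneg hp v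
  obtain ⟨δ, d0, d1⟩ : ∃ δ : ℝ, 0 < δ ∧ (β ⬝ᵥ y) ^ 2 * δ ≤ ε :=
    ⟨ε / ((β ⬝ᵥ y) ^ 2 + 1), by positivity, by
      rw [← mul_div_assoc, div_le_iff₀ (by positivity)]
      nlinarith⟩
  have r0 : 0 < qf (hess G y) v v + δ := by linarith
  have s0 := Real.sqrt_pos.2 r0
  have s2 := Real.sq_sqrt r0.le
  generalize √(qf (hess G y) v v + δ) = c at s0 s2
  have h2 : ∀ e : ℝ, e * e = 1 → 0 ≤ β ⬝ᵥ y * c + e * (β ⬝ᵥ v) := fun e he => by
    have := h1 ((e / c) • v) (by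
      rw [qf_smul_left, qf_smul_right, ← mul_assoc, div_mul_div_comm, he, ← sq, one_div,
        inv_mul_lt_iff₀ (by positivity)]
      linarith)
    rw [dotProduct_smul, smul_eq_mul] at this
    have h3 := mul_nonneg this s0.le
    rwa [add_mul, mul_right_comm, div_mul_cancel₀ _ s0.ne'] at h3
  have h3 : (β ⬝ᵥ v) ^ 2 ≤ (β ⬝ᵥ y * c) ^ 2 :=
    sq_le_sq' (by linarith [h2 1 (by norm_num)]) (by linarith [h2 (-1) (by norm_num)])
  rw [mul_pow, s2] at h3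
  linarith

end Pool.Agent.MP_5f4cdd_gt.CB
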