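import Pool.Agent.MP_5f4cdd_gt.CB.Api

set_option autoImplicit false
open MeasureTheory Matrix Set Filter Topology

namespace Pool.Agent.MP_5f4cdd_gt.CB

theorem contDiffAt_PP_Geo3a {N : ℕ} {G : E N → ℝ} {y : E N} (h : ContDiffAt ℝ 4 G y)
    (b β : E N) : ContDiffAt ℝ 3 (PP G b β) y := by
  have e : PP G b β = fun z => ∑ i, b i * -pd i G z + ∑ i, β i * z i := rfl
  rw [e]
  refine ContDiffAt.add (ContDiffAt.sum fun i _ => contDiffAt_const.mul ?_)
    (ContDiffAt.sum fun i _ => contDiffAt_const.mul (contDiffAt_apply ℝ ℝ i y))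
  exact (contDiffAt_pd (k := 3) h i).neg

theorem sGeo3a (hGeo1 : Geo1Stmt) : Geo3aStmt := by
  intro N W b0 G hN hW hG b hb β hβ
  have hN' : (0 : ℝ) < N := Nat.cast_pos.2 hN
  have h1 : ∀ y ∈ oV W, 0 < b ⬝ᵥ eta G y := fun y hy => by
    obtain ⟨-, e1, -, e2, -⟩ := hGeo1 N W b0 G hW hG y hy
    obtain ⟨c, hc, hc'⟩ := hb
    refine lt_of_lt_of_le (mul_pos hc (norm_pos_iff.2 fun h => ?_)) (hc' _ e2)
    rw [h, dotProduct_zero] at e1
    exact hN'.ne e1
  have h2 : ∀ y ∈ oV W, 0 ≤ β ⬝ᵥ y := fun y hy => by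
    rw [dotProduct_comm]
    exact oV_subset_cV W hy β hβ.1
  have h3 : ∀ y ∈ oV W, ContDiffAt ℝ 3 (PP G b β) y := fun y hy =>
    contDiffAt_PP_Geo3a (hG.ma y hy).smooth b β
  have h4 : ∀ r : ℝ, IsCompact {y | y ∈ oV W ∧ PP G b β y ≤ r} := fun r => by
    obtain ⟨D, hD⟩ := hG.near
    have hC := hW.rho_compact hN hβ (Real.log (r + Real.exp (G b + r + D)))
    have hsub : {y | y ∈ oV W ∧ PP G b β y ≤ r} ⊆
        {y | y ∈ oV W ∧ rho W β y ≤ Real.log (r + Real.exp (G b + r + D))} := by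
      rintro y ⟨hy, hr⟩
      refine ⟨hy, ?_⟩
      obtain ⟨-, e1, -, -, e3, -⟩ := hGeo1 N W b0 G hW hG y hy
      have a1 := e3 b hb
      rw [dotProduct_sub, dotProduct_comm _ b, dotProduct_comm _ y, e1] at a1
      have a2 := h1 y hy
      have a3 := h2 y hy
      have a4 := hW.Phi_pos hy
      have a5 := (abs_le.1 (hD y hy)).1
      have a6 : b ⬝ᵥ eta G y + β ⬝ᵥ y ≤ r := hr
      have a7 : Phi W y ≤ Real.exp (G b + r + D) :=
        (Real.log_le_iff_le_exp a4).1 (by linarith)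
      exact Real.log_le_log (by linarith) (by linarith)
    have hcl : IsClosed ({y | y ∈ oV W ∧ rho W β y ≤ Real.log (r + Real.exp (G b + r + D))} ∩
        PP G b β ⁻¹' Iic r) :=
      ContinuousOn.preimage_isClosed_of_isClosed
        (fun y hy => (h3 y hy.1).continuousAt.continuousWithinAt) hC.isClosed isClosed_Iic
    have e : {y | y ∈ oV W ∧ PP G b β y ≤ r} =
        {y | y ∈ oV W ∧ rho W β y ≤ Real.log (r + Real.exp (G b + r + D))} ∩
          PP G b β ⁻¹' Iic r :=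
      Set.Subset.antisymm (fun y hy => ⟨hsub hy, hy.2⟩) fun y hy => ⟨hy.1.1, hy.2⟩
    rw [e]
    exact hC.of_isClosed_subset hcl inter_subset_left
  refine ⟨fun y hy => ⟨add_pos_of_pos_of_nonneg (h1 y hy) (h2 y hy), h3 y hy⟩, h4, fun hbβ => ?_⟩
  obtain ⟨y0, hy0, hmin⟩ := (h4 (PP G b β b)).exists_isMinOn (f := PP G b β) ⟨b, hb, le_rfl⟩
    fun y hy => (h3 y hy.1).continuousAt.continuousWithinAt
  refine ⟨y0, hy0.1, fun y hy => ?_, hy0.2.trans (le_of_eq ?_)⟩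
  · rcases le_total (PP G b β y) (PP G b β b) with h | h
    · exact hmin ⟨hy, h⟩
    · exact hy0.2.trans h
  · rw [PP, (hGeo1 N W b0 G hW hG b hb).2.1, dotProduct_comm, hbβ]
    ring

end Pool.Agent.MP_5f4cdd_gt.CB
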