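import Pool.Agent.MP_5f4cdd_gt.CB.Api

set_option autoImplicit false
open MeasureTheory Matrix Set Filter Topology

namespace Pool.Agent.MP_5f4cdd_gt.CB

theorem pow_le_Geo3b (d : ℕ) (P : ℝ) (hP : 0 ≤ P) :
    (1 + P) ^ d ≤ 2 ^ d * (d.factorial : ℝ) * Real.exp ((1 + P) / 2) := by
  have h0 : (0 : ℝ) ≤ (1 + P) / 2 := by linarith
  have h1 := Real.pow_div_factorial_le_exp ((1 + P) / 2) h0 d
  have hf : (0 : ℝ) < (d.factorial : ℝ) := by exact_mod_cast d.factorial_pos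
  rw [div_le_iff₀ hf] at h1
  have h2 : (1 + P) ^ d = 2 ^ d * ((1 + P) / 2) ^ d := by
    rw [← mul_pow]; congr 1; ring
  rw [h2, mul_assoc]
  refine mul_le_mul_of_nonneg_left ?_ (by positivity)
  linarith

theorem wt_le_Geo3b (hGeo1 : Geo1Stmt) {N : ℕ} {W : Set (E N)} {b0 : E N} {G : E N → ℝ}
    (hPC : PC W b0) (hB : Bar W G) {b : E N} (hb : b ∈ oV W) (β : E N) {y : E N}
    (hy : y ∈ oV W) :
    wt G b β y ≤ Real.exp (G ((1 / 2 : ℝ) • b) - N - PP G b β y / 2)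
      * Real.exp (-(((1 / 2 : ℝ) • β) ⬝ᵥ y)) := by
  obtain ⟨-, h2, -, -, h5, -⟩ := hGeo1 N W b0 G hPC hB y hy
  have h := h5 _ (oV_smul hb (by norm_num : (0 : ℝ) < 1 / 2))
  rw [dotProduct_sub, dotProduct_smul, dotProduct_comm (eta G y) y, h2,
    dotProduct_comm (eta G y) b, smul_eq_mul] at h
  rw [← Real.exp_add, wt, smul_dotProduct, smul_eq_mul]
  apply Real.exp_le_exp.mpr
  unfold PP
  linarith

theorem contOn_wt_Geo3b (hGeo3a : Geo3aStmt) {N : ℕ} {W : Set (E N)} {b0 : E N} {G : E N → ℝ}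
    (hN : 0 < N) (hPC : PC W b0) (hB : Bar W G) {b : E N} (hb : b ∈ oV W) {β : E N}
    (hβ : β ∈ iW W) : ContinuousOn (wt G b β) (oV W) := by
  intro y hy
  have h1 : ContinuousAt G y := (hB.ma y hy).smooth.continuousAt
  have h2 : ContinuousAt (PP G b β) y :=
    ((hGeo3a N W b0 G hN hPC hB b hb β hβ).1 y hy).2.continuousAt
  exact (Real.continuous_exp.continuousAt.comp (h1.sub h2)).continuousWithinAt

theorem int_Geo3b (hGeo1 : Geo1Stmt) (hGeo3a : Geo3aStmt) {N : ℕ} {W : Set (E N)} {b0 : E N}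
    {G : E N → ℝ} (hN : 0 < N) (hPC : PC W b0) (hB : Bar W G) {b : E N} (hb : b ∈ oV W)
    {β : E N} (hβ : β ∈ iW W) (φ : E N → ℝ) (hφ : ContinuousOn φ (oV W))
    (hp : PolyP W G b β φ) : IntegrableOn (fun y => φ y * wt G b β y) (oV W) := by
  obtain ⟨C, d, hC⟩ := hp
  have hm : MeasurableSet (oV W) := (isOpen_oV W).measurableSet
  have hI := integrableOn_exp_iW (iW_smul hPC hβ (by norm_num : (0 : ℝ) < 1 / 2))
  have hK := hI.const_mul
    (|C| * (2 ^ d * (d.factorial : ℝ)) * Real.exp (G ((1 / 2 : ℝ) • b) - N + 1 / 2))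
  refine Integrable.mono' hK
    ((hφ.mul (contOn_wt_Geo3b hGeo3a hN hPC hB hb hβ)).aestronglyMeasurable hm) ?_
  refine (ae_restrict_iff' hm).mpr (Eventually.of_forall fun y hy => ?_)
  have hP : 0 ≤ PP G b β y := ((hGeo3a N W b0 G hN hPC hB b hb β hβ).1 y hy).1.le
  have hw := wt_le_Geo3b hGeo1 hPC hB hb β hy
  have hw0 : 0 ≤ wt G b β y := (Real.exp_pos _).le
  have h1 : |φ y| ≤ |C| * (2 ^ d * (d.factorial : ℝ) * Real.exp ((1 + PP G b β y) / 2)) :=
    (hC y hy).trans ((mul_le_mul_of_nonneg_right (le_abs_self C) (by positivity)).trans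
      (mul_le_mul_of_nonneg_left (pow_le_Geo3b d _ hP) (abs_nonneg C)))
  rw [Real.norm_eq_abs, abs_mul, abs_of_nonneg hw0]
  refine (mul_le_mul h1 hw hw0 (by positivity)).trans (le_of_eq ?_)
  have he : Real.exp (G ((1 / 2 : ℝ) • b) - N + 1 / 2)
      = Real.exp ((1 + PP G b β y) / 2) * Real.exp (G ((1 / 2 : ℝ) • b) - N - PP G b β y / 2) := by
    rw [← Real.exp_add]; congr 1; ring
  rw [he]; ring

theorem sGeo3b (hGeo1 : Geo1Stmt) (hGeo3a : Geo3aStmt) : Geo3bStmt := by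
  intro N W b0 G hN hPC hB b hb β hβ
  have hm : MeasurableSet (oV W) := (isOpen_oV W).measurableSet
  refine ⟨int_Geo3b hGeo1 hGeo3a hN hPC hB hb hβ, ?_, ?_⟩
  · have h1 := int_Geo3b hGeo1 hGeo3a hN hPC hB hb hβ (fun _ => 1) continuousOn_const
      ⟨1, 0, fun y _ => by simp⟩
    have h2 : IntegrableOn (wt G b β) (oV W) := by simpa using h1
    unfold ZZ
    have h0 : ∀ y, 0 ≤ wt G b β y := fun y => (Real.exp_pos _).le
    rw [setIntegral_pos_iff_support_of_nonneg_ae (Eventually.of_forall h0) h2]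
    have hs : Function.support (wt G b β) = univ :=
      eq_univ_of_forall fun y => (Real.exp_pos _).ne'
    rw [hs, univ_inter]
    exact (isOpen_oV W).measure_pos _ ⟨b, hb⟩
  · intro b2 hb2 β2 hβ2
    obtain ⟨C, -, hC1, hC2⟩ := exists_dom (b2 := b2) (β2 := β2) hPC hb hβ
    refine ⟨C, fun y hy => ?_⟩
    have he : eta G y ∈ W := (hGeo1 N W b0 G hPC hB y hy).2.2.2.1
    have hyc := oV_subset_cV W hy
    have a1 := hb2 _ he
    have a2 := hyc _ hβ2
    have a3 := hC1 _ he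
    have a4 := hyc _ hC2
    rw [sub_dotProduct, smul_dotProduct, smul_eq_mul] at a3
    rw [dotProduct_sub, dotProduct_smul, smul_eq_mul, dotProduct_comm y β,
      dotProduct_comm y β2] at a4
    rw [dotProduct_comm y β2] at a2
    unfold PP
    constructor
    · linarith
    · rw [mul_add]; linarith

end Pool.Agent.MP_5f4cdd_gt.CB
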