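import Pool.Agent.MP_5f4cdd_gt.CB.Api

set_option autoImplicit false
open MeasureTheory Matrix Set Filter Topology

namespace Pool.Agent.MP_5f4cdd_gt.CB

variable {N : ℕ} {p : E N → ℝ}

/-- polynomial functions -/
inductive Pl_Gk : (E N → ℝ) → Prop
  | c (a : ℝ) : Pl_Gk fun _ => a
  | add {p q : E N → ℝ} : Pl_Gk p → Pl_Gk q → Pl_Gk fun z => p z + q z
  | neg {p : E N → ℝ} : Pl_Gk p → Pl_Gk fun z => -p z
  | mulX {p : E N → ℝ} (j : Fin N) : Pl_Gk p → Pl_Gk fun z => p z * z j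

theorem smooth_Gk (h : Pl_Gk p) : ContDiff ℝ 1 p := by
  induction h with
  | c a => exact contDiff_const
  | add _ _ h1 h2 => exact h1.add h2
  | neg _ h1 => exact h1.neg
  | mulX j _ h1 => exact h1.mul (contDiff_apply ℝ ℝ j)

theorem diff_Gk (h : Pl_Gk p) (z : E N) : DifferentiableAt ℝ p z :=
  (smooth_Gk h).differentiable one_ne_zero z

theorem coord_Gk (i j : Fin N) (z : E N) :
    pd i (fun y : E N => y j) z = if j = i then 1 else 0 := by
  have h := dd_dot (Pi.single j 1) (Pi.single i 1) z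
  simp only [single_dotProduct, one_mul, Pi.single_apply] at h
  exact h

theorem pd_Gk (h : Pl_Gk p) (i : Fin N) : Pl_Gk (pd i p) := by
  induction h with
  | c a => exact (funext fun z => dd_const a _ z : pd i _ = fun _ => 0) ▸ .c 0
  | @add p q a b h1 h2 =>
    exact (funext fun z => dd_add (diff_Gk a z) (diff_Gk b z) _ :
      pd i _ = fun z => pd i p z + pd i q z) ▸ h1.add h2
  | @neg p a h1 => exact (funext fun z => dd_neg _ p z : pd i _ = fun z => -pd i p z) ▸ h1.neg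
  | @mulX p j a h1 =>
    have e : pd i (fun z => p z * z j) = fun z => pd i p z * z j + if j = i then p z else 0 :=
      funext fun z => (dd_mul (diff_Gk a z) (differentiableAt_apply j z) _).trans (by
        congr 1
        change p z * pd i (fun y : E N => y j) z = _
        rw [coord_Gk, mul_ite, mul_one, mul_zero])
    rw [e]
    split_ifs
    exacts [(h1.mulX j).add a, (h1.mulX j).add (.c 0)]

theorem growth_Gk (h : Pl_Gk p) :
    ∃ C d : ℝ, 0 ≤ C ∧ 0 ≤ d ∧ ∀ z, |p z| ≤ C * Real.exp (d * ‖z‖) := by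
  induction h with
  | c a => exact ⟨|a|, 0, abs_nonneg _, le_rfl, fun z => by simp⟩
  | add _ _ h1 h2 =>
    obtain ⟨C, d, a1, a2, a3⟩ := h1
    obtain ⟨C', d', b1, b2, b3⟩ := h2
    refine ⟨C + C', d + d', by positivity, by positivity, fun z => (abs_add_le _ _).trans ?_⟩
    rw [add_mul]
    refine add_le_add ((a3 z).trans ?_) ((b3 z).trans ?_) <;> gcongr <;> linarith
  | neg _ h1 => simpa only [abs_neg] using h1
  | mulX j _ h1 =>
    obtain ⟨C, d, a1, a2, a3⟩ := h1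
    refine ⟨C, d + 1, a1, by positivity, fun z => ?_⟩
    rw [abs_mul, add_mul, one_mul, Real.exp_add, ← mul_assoc]
    refine mul_le_mul (a3 z) ((norm_le_pi_norm z j).trans ?_) (abs_nonneg _) (by positivity)
    linarith [Real.add_one_le_exp ‖z‖]

theorem gk_eq_Gk : (gk : E N → ℝ) =
    fun z => (√(2 * Real.pi))⁻¹ ^ N * Real.exp (∑ i, (-(1 / 2)) * (z i * z i)) := by
  funext z
  rw [gk, Finset.prod_mul_distrib, Finset.prod_const, Finset.card_univ, Fintype.card_fin,
    Real.exp_sum]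
  congr 1
  exact Finset.prod_congr rfl fun i _ => by congr 1; ring

theorem gk_smooth_Gk : ContDiff ℝ 1 (gk : E N → ℝ) := by
  rw [gk_eq_Gk]
  fun_prop

theorem gk_pd_Gk (i : Fin N) (z : E N) : pd i gk z = -(z i) * gk z := by
  have h : ∀ j, pd i (fun y : E N => (-(1 / 2) : ℝ) * (y j * y j)) z =
      if j = i then -z j else 0 := fun j => by
    refine (dd_const_mul _ _ _ z).trans ?_
    rw [dd_mul (differentiableAt_apply j z) (differentiableAt_apply j z)]
    change _ * (pd i (fun y : E N => y j) z * _ + _ * pd i (fun y : E N => y j) z) = _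
    rw [coord_Gk]
    split_ifs <;> ring
  rw [gk_eq_Gk]
  refine (dd_const_mul _ _ _ z).trans ?_
  rw [dd_comp (u := fun z : E N => ∑ i, (-(1 / 2) : ℝ) * (z i * z i)) (Real.hasDerivAt_exp _)
    (by fun_prop), dd_sum _ _ (fun j _ => by fun_prop)]
  change _ * (_ * ∑ j, pd i (fun y : E N => (-(1 / 2) : ℝ) * (y j * y j)) z) = _
  simp only [h, Finset.sum_ite_eq', Finset.mem_univ, if_true]
  ring

theorem step_Gk (h : Pl_Gk p) (i : Fin N) :
    pd i (fun z => p z * gk z) = fun z => (pd i p z + -(p z * z i)) * gk z :=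
  funext fun z => (dd_mul (diff_Gk h z) (gk_smooth_Gk.differentiable one_ne_zero z) _).trans (by
    change pd i p z * _ + _ * pd i gk z = _
    rw [gk_pd_Gk]
    ring)

theorem bound_Gk (h : Pl_Gk p) : ∃ C, 0 ≤ C ∧ ∀ z, |p z * gk z| ≤ C * Real.exp (-‖z‖) := by
  obtain ⟨C, d, a1, -, a3⟩ := growth_Gk h
  refine ⟨C * ((√(2 * Real.pi))⁻¹ ^ N * Real.exp ((d + 1) ^ 2 / 2)), by positivity, fun z => ?_⟩
  have h1 : ∑ i, (-(1 / 2)) * (z i * z i) ≤ -(1 / 2) * ‖z‖ ^ 2 := by
    rw [← Finset.mul_sum]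
    exact mul_le_mul_of_nonpos_left (norm_sq_le_dot z) (by norm_num)
  have h2 : Real.exp (d * ‖z‖) * Real.exp (∑ i, (-(1 / 2)) * (z i * z i)) ≤
      Real.exp ((d + 1) ^ 2 / 2) * Real.exp (-‖z‖) := by
    rw [← Real.exp_add, ← Real.exp_add]
    exact Real.exp_le_exp.2 (by nlinarith [sq_nonneg (d + 1 - ‖z‖)])
  rw [gk_eq_Gk, abs_mul, abs_of_nonneg (a := _ * Real.exp _) (by positivity)]
  calc _ ≤ C * Real.exp (d * ‖z‖) * ((√(2 * Real.pi))⁻¹ ^ N *
        Real.exp (∑ i, (-(1 / 2)) * (z i * z i))) := mul_le_mul_of_nonneg_right (a3 z) (by positivity)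
    _ = C * (√(2 * Real.pi))⁻¹ ^ N *
        (Real.exp (d * ‖z‖) * Real.exp (∑ i, (-(1 / 2)) * (z i * z i))) := by ring
    _ ≤ C * (√(2 * Real.pi))⁻¹ ^ N * (Real.exp ((d + 1) ^ 2 / 2) * Real.exp (-‖z‖)) :=
        mul_le_mul_of_nonneg_left h2 (by positivity)
    _ = _ := by ring

theorem dec_Gk (h : Pl_Gk p) : Dec fun z => p z * gk z := by
  obtain ⟨C, a1, a2⟩ := bound_Gk h
  choose D b1 b2 using fun i => bound_Gk ((pd_Gk h i).add (h.mulX i).neg)
  have h1 : 0 ≤ ∑ i, D i := Finset.sum_nonneg fun i _ => b1 i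
  refine ⟨(smooth_Gk h).mul gk_smooth_Gk, C + ∑ i, D i, fun z => ⟨(a2 z).trans ?_, fun i => ?_⟩⟩
  · exact mul_le_mul_of_nonneg_right (by linarith) (Real.exp_nonneg _)
  · rw [step_Gk h]
    exact (b2 i z).trans (mul_le_mul_of_nonneg_right
      (by linarith [Finset.single_le_sum (fun i _ => b1 i) (Finset.mem_univ i)])
      (Real.exp_nonneg _))

theorem sGk : GkStmt := by
  intro N
  have h0 : (gk : E N → ℝ) = fun z => 1 * gk z := funext fun z => (one_mul _).symm
  have h1 : ∀ i : Fin N, Pl_Gk fun z : E N => -(1 * z i) := fun i => ((Pl_Gk.c 1).mulX i).neg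
  have h2 : ∀ i : Fin N, pd i gk = fun z : E N => -(1 * z i) * gk z := fun i =>
    funext fun z => by rw [gk_pd_Gk, one_mul]
  refine ⟨?_, fun z => Finset.prod_nonneg fun i _ => by positivity, h0 ▸ dec_Gk (.c 1),
    fun i => ⟨h2 i ▸ dec_Gk (h1 i), gk_pd_Gk i⟩, fun i j => ?_⟩
  · have h3 : ∫ x : ℝ, (√(2 * Real.pi))⁻¹ * Real.exp (-x ^ 2 / 2) = 1 := by
      have h4 : ∀ x : ℝ, -x ^ 2 / 2 = -(1 / 2) * x ^ 2 := fun x => by ring
      simp only [h4]
      rw [integral_const_mul, integral_gaussian, show Real.pi / (1 / 2) = 2 * Real.pi by ring]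
      exact inv_mul_cancel₀ (by positivity)
    unfold gk
    rw [integral_fintype_prod_volume_eq_prod
      fun (_ : Fin N) (x : ℝ) => (√(2 * Real.pi))⁻¹ * Real.exp (-x ^ 2 / 2), h3,
      Finset.prod_const_one]
  · rw [h2 j, step_Gk (h1 j)]
    exact dec_Gk ((pd_Gk (h1 j) i).add ((h1 j).mulX i).neg)

end Pool.Agent.MP_5f4cdd_gt.CB
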