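import Pool.Agent.MP_5f4cdd_gt.CB.Api

set_option autoImplicit false
open MeasureTheory Matrix Set Filter Topology

namespace Pool.Agent.MP_5f4cdd_gt.CB

variable {N : ℕ} {W : Set (E N)} {G : E N → ℝ} {b β : E N}

theorem polyP_le_Ibp {φ ψ χ : E N → ℝ} (hP : ∀ y ∈ oV W, 0 < PP G b β y)
    (h1 : PolyP W G b β φ) (h2 : PolyP W G b β ψ) (h : ∀ y ∈ oV W, |χ y| ≤ |φ y| + |ψ y|) :
    PolyP W G b β χ := by
  obtain ⟨C1, d1, h1⟩ := h1
  obtain ⟨C2, d2, h2⟩ := h2
  refine ⟨|C1| + |C2|, d1 + d2, fun y hy => (h y hy).trans ?_⟩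
  have h3 : 1 ≤ 1 + PP G b β y := by linarith [hP y hy]
  rw [add_mul]
  refine add_le_add ((h1 y hy).trans ?_) ((h2 y hy).trans ?_)
  · exact mul_le_mul (le_abs_self _) (pow_le_pow_right₀ h3 (Nat.le_add_right _ _))
      (by positivity) (abs_nonneg _)
  · exact mul_le_mul (le_abs_self _) (pow_le_pow_right₀ h3 (Nat.le_add_left _ _))
      (by positivity) (abs_nonneg _)

theorem polyP_mul_Ibp {φ ψ : E N → ℝ} (h1 : PolyP W G b β φ) (h2 : PolyP W G b β ψ) :
    PolyP W G b β fun y => φ y * ψ y := by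
  obtain ⟨C1, d1, h1⟩ := h1
  obtain ⟨C2, d2, h2⟩ := h2
  refine ⟨C1 * C2, d1 + d2, fun y hy => ?_⟩
  rw [abs_mul, pow_add, mul_mul_mul_comm]
  exact mul_le_mul (h1 y hy) (h2 y hy) (abs_nonneg _) ((abs_nonneg _).trans (h1 y hy))

theorem ip_cs_Ibp {u v : E N → ℝ} {y : E N} (hp : (hess G y).PosDef) :
    |ip G u v y| ≤ |ip G u u y| + |ip G v v y| := by
  have h := qf_cs hp.inv (grad u y) (grad v y)
  have h1 := qf_nonneg hp.inv (grad u y)
  have h2 := qf_nonneg hp.inv (grad v y)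
  unfold ip
  rw [abs_of_nonneg h1, abs_of_nonneg h2]
  refine abs_le_of_sq_le_sq' ?_ (add_nonneg h1 h2) |> abs_le.2
  nlinarith [mul_nonneg h1 h2]

theorem cont_ip_Ibp {u v : E N → ℝ} {y : E N} (hG : MAat 4 G y) (hu : ContDiffAt ℝ 1 u y)
    (hv : ContDiffAt ℝ 1 v y) : ContinuousAt (ip G u v) y :=
  continuous_qf.continuousAt.comp
    ((continuousAt_inv_hess (hG.smooth.of_le (by norm_num)) hG.pos).prodMk
      ((continuousAt_grad hu).prodMk (continuousAt_grad hv)))

theorem cont_LB_Ibp {v : E N → ℝ} {y : E N} (hG : MAat 4 G y) (hv : ContDiffAt ℝ 2 v y) :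
    ContinuousAt (LB G v) y := by
  have e : LB G v = fun z => ((hess G z)⁻¹ * hess v z).trace + z ⬝ᵥ grad v z := by
    funext z
    rw [LB, Lop, dd_eq_dot]
  rw [e]
  have h1 : ContinuousAt (fun z => (hess G z)⁻¹ * hess v z) y :=
    (continuousAt_inv_hess (hG.smooth.of_le (by norm_num)) hG.pos).mul (continuousAt_hess hv)
  have h2 : ContinuousAt (fun z => (z, grad v z)) y :=
    continuousAt_id.prodMk (continuousAt_grad (hv.of_le (by norm_num)))
  exact ((continuous_id.matrix_trace).continuousAt.comp h1).add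
    ((continuous_fst.dotProduct continuous_snd).continuousAt.comp h2)

theorem lim_Ibp {O : Set (E N)} {P a c : E N → ℝ} {θ θ' : ℝ → ℝ} {C : ℝ}
    (h1 : ∀ s, s ≤ 0 → θ s = 1) (h2 : ∀ s, 0 ≤ θ s ∧ θ s ≤ 1) (h3 : ∀ s, |θ' s| ≤ C)
    (ha : IntegrableOn a O) (hc : IntegrableOn c O)
    (h : ∀ r : ℝ, 1 ≤ r →
      IntegrableOn (fun y => θ (P y / r - 1) * a y + θ' (P y / r - 1) / r * c y) O ∧
        ∫ y in O, (θ (P y / r - 1) * a y + θ' (P y / r - 1) / r * c y) = 0) :
    ∫ y in O, a y = 0 := by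
  have key : Tendsto (fun r : ℝ => ∫ y in O, (θ (P y / r - 1) * a y + θ' (P y / r - 1) / r * c y))
      atTop (𝓝 (∫ y in O, a y)) := by
    refine tendsto_integral_filter_of_dominated_convergence (fun y => |a y| + C * |c y|) ?_ ?_
      (ha.abs.add (hc.abs.const_mul C)) (Eventually.of_forall fun y => ?_)
    · filter_upwards [eventually_ge_atTop (1 : ℝ)] with r hr using (h r hr).1.aestronglyMeasurable
    · filter_upwards [eventually_ge_atTop (1 : ℝ)] with r hr
      refine Eventually.of_forall fun y => (abs_add_le _ _).trans (add_le_add ?_ ?_)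
      · rw [abs_mul, abs_of_nonneg (h2 _).1]
        exact mul_le_of_le_one_left (abs_nonneg _) (h2 _).2
      · rw [abs_mul, abs_div, abs_of_nonneg (zero_le_one.trans hr)]
        exact mul_le_mul_of_nonneg_right ((div_le_self (abs_nonneg _) hr).trans (h3 _))
          (abs_nonneg _)
    · have t1 : Tendsto (fun r : ℝ => θ (P y / r - 1)) atTop (𝓝 1) := by
        refine tendsto_const_nhds.congr' ?_
        filter_upwards [eventually_ge_atTop (P y), eventually_gt_atTop (0 : ℝ)] with r hr hr0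
        exact (h1 _ (sub_nonpos.2 ((div_le_one hr0).2 hr))).symm
      have t2 : Tendsto (fun r : ℝ => θ' (P y / r - 1) / r) atTop (𝓝 0) := by
        refine squeeze_zero_norm' ?_ (tendsto_const_nhds.div_atTop (a := C) tendsto_id)
        filter_upwards [eventually_gt_atTop (0 : ℝ)] with r hr0
        rw [Real.norm_eq_abs, abs_div, abs_of_pos hr0]
        exact div_le_div_of_nonneg_right (h3 _) hr0.le
      simpa using (t1.mul_const (a y)).add (t2.mul_const (c y))
  refine tendsto_nhds_unique key (tendsto_const_nhds.congr' ?_)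
  filter_upwards [eventually_ge_atTop (1 : ℝ)] with r hr using (h r hr).2.symm

theorem ip_cut_Ibp {u v P : E N → ℝ} {y : E N} {φ : ℝ → ℝ} {φ' : ℝ}
    (hu : DifferentiableAt ℝ u y) (hP : DifferentiableAt ℝ P y) (hφ : HasDerivAt φ φ' (P y)) :
    ip G (fun z => u z * φ (P z)) v y = φ (P y) * ip G u v y + u y * φ' * ip G P v y := by
  have e : grad (fun z => u z * φ (P z)) y = φ (P y) • grad u y + (u y * φ') • grad P y := by
    funext i
    have h1 : DifferentiableAt ℝ (fun z => φ (P z)) y := hφ.differentiableAt.comp y hP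
    show dd _ (fun z => u z * φ (P z)) y = φ (P y) * dd _ u y + u y * φ' * dd _ P y
    rw [dd_mul hu h1, dd_comp hφ hP]
    ring
  unfold ip
  rw [e, qf_add_left, qf_smul_left, qf_smul_left]

theorem deriv_cut_Ibp {θ : ℝ → ℝ} (hθ : ContDiff ℝ 6 θ) (r s : ℝ) :
    HasDerivAt (fun t => Real.exp (-t) * θ (t / r - 1))
      (-Real.exp (-s) * θ (s / r - 1) + Real.exp (-s) * (deriv θ (s / r - 1) / r)) s := by
  have h1 : HasDerivAt (fun t : ℝ => Real.exp (-t)) (-Real.exp (-s)) s := by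
    simpa using (hasDerivAt_neg s).exp
  have h2 : HasDerivAt (fun t : ℝ => t / r - 1) (1 / r) s :=
    ((hasDerivAt_id s).div_const r).sub_const 1
  have h3 : HasDerivAt (fun t => θ (t / r - 1)) (deriv θ (s / r - 1) * (1 / r)) s :=
    (hθ.differentiable (by norm_num) _).hasDerivAt.comp s h2
  rw [mul_one_div] at h3
  exact h1.mul h3

theorem step_Ibp (hDiv : DivStmt) {b0 : E N} (hW : PC W b0) (hG : Bar W G) {u v : E N → ℝ}
    (huv : ∀ y ∈ oV W, ContDiffAt ℝ 1 u y ∧ ContDiffAt ℝ 2 v y)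
    (hP : ∀ y ∈ oV W, ContDiffAt ℝ 3 (PP G b β) y)
    (hK : ∀ r : ℝ, IsCompact {y | y ∈ oV W ∧ PP G b β y ≤ r}) {θ : ℝ → ℝ}
    (hθ : ContDiff ℝ 6 θ) (h0 : ∀ s, 1 ≤ s → θ s = 0) (r : ℝ) (hr : 1 ≤ r) :
    IntegrableOn (fun y => θ (PP G b β y / r - 1) *
        ((u y * (LB G v y - ip G (PP G b β) v y) + ip G u v y) * wt G b β y) +
      deriv θ (PP G b β y / r - 1) / r * (u y * ip G (PP G b β) v y * wt G b β y)) (oV W) ∧
    ∫ y in oV W, (θ (PP G b β y / r - 1) *
        ((u y * (LB G v y - ip G (PP G b β) v y) + ip G u v y) * wt G b β y) +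
      deriv θ (PP G b β y / r - 1) / r * (u y * ip G (PP G b β) v y * wt G b β y)) = 0 := by
  have hφ : ContDiff ℝ 1 fun t : ℝ => Real.exp (-t) * θ (t / r - 1) :=
    contDiff_neg.exp.mul ((hθ.of_le (by norm_num)).comp
      ((contDiff_id.div_const r).sub contDiff_const))
  have hu : ∀ y ∈ oV W, ContDiffAt ℝ 1
      (fun z => u z * (Real.exp (-PP G b β z) * θ (PP G b β z / r - 1))) y := fun y hy =>
    (huv y hy).1.mul (hφ.contDiffAt.comp y ((hP y hy).of_le (by norm_num)))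
  have hD := fun y hy => hDiv N W b0 G hW hG _ v y hy (hu y hy) (huv y hy).2
  have hI := fun i : Fin N => integral_pd_eq_zero (isOpen_oV W) (hK (2 * r)) (fun y hy => hy.1)
    (fun y hy => (hD y hy).1 i) (fun y hy hn => by
      have h1 : 2 * r < PP G b β y := not_le.1 fun k => hn ⟨hy, k⟩
      have h2 : 1 ≤ PP G b β y / r - 1 := by
        rw [le_sub_iff_add_le, le_div_iff₀ (by linarith)]
        linarith
      simp only [h0 _ h2, mul_zero, zero_mul]) i
  have hm := (isOpen_oV W).measurableSet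
  have e : ∀ y ∈ oV W, ∑ i, pd i (fun z => u z * (Real.exp (-PP G b β z) *
      θ (PP G b β z / r - 1)) * Real.exp (G z) * ((hess G z)⁻¹ *ᵥ grad v z) i) y =
      θ (PP G b β y / r - 1) *
        ((u y * (LB G v y - ip G (PP G b β) v y) + ip G u v y) * wt G b β y) +
      deriv θ (PP G b β y / r - 1) / r * (u y * ip G (PP G b β) v y * wt G b β y) := by
    intro y hy
    rw [(hD y hy).2, ip_cut_Ibp ((huv y hy).1.differentiableAt one_ne_zero)
      ((hP y hy).differentiableAt (by norm_num)) (deriv_cut_Ibp hθ r _), wt, sub_eq_add_neg (G y),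
      Real.exp_add]
    ring
  refine ⟨IntegrableOn.congr_fun (integrable_finsetSum _ fun i _ => (hI i).1) e hm, ?_⟩
  rw [← setIntegral_congr_fun hm e, integral_finsetSum _ fun i _ => (hI i).1]
  exact Finset.sum_eq_zero fun i _ => (hI i).2

theorem polyP_PP_Ibp (hGeo2 : Geo2Stmt) (hPt : PtStmt) {b0 : E N} (hN : 0 < N) (hW : PC W b0)
    (hG : Bar W G) (hb : b ∈ oV W) (hβ : β ∈ iW W) :
    PolyP W G b β (ip G (PP G b β) (PP G b β)) := by
  refine ⟨1, 2, fun y hy => ?_⟩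
  obtain ⟨g1, g2, g3⟩ := hGeo2 N W b0 G hN hW hG y hy
  have h1 := g1 b (oV_subset_cV W hb)
  have h2 := g2 β hβ.1
  have h3 : 0 ≤ b ⬝ᵥ eta G y := oV_subset_cV W hb _ g3.1
  have h4 : 0 ≤ β ⬝ᵥ y := by
    rw [dotProduct_comm]
    exact oV_subset_cV W hy _ hβ.1
  have h5 : 0 ≤ b ⬝ᵥ β := oV_subset_cV W hb _ hβ.1
  have h6 : 0 ≤ ip G (PP G b β) (PP G b β) y := qf_nonneg (hG.ma y hy).pos.inv _
  rw [abs_of_nonneg h6, (hPt N W b0 G hW hG b β y hy).2.2.2.1, QQ, PP]
  nlinarith [mul_nonneg h3 h4]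

theorem sIbp (hGeo1 : Geo1Stmt) (hGeo2 : Geo2Stmt) (hGeo3 : Geo3Stmt) (hPt : PtStmt) (hDiv : DivStmt) : IbpStmt := by
  intro N W b0 G hN hW hG b hb β hβ u v huv pu puu pvv pL
  obtain ⟨g1, g2, g3, -⟩ := hGeo3 N W b0 G hN hW hG b hb β hβ
  have hP : ∀ y ∈ oV W, 0 < PP G b β y := fun y hy => (g1 y hy).1
  have pPP := polyP_PP_Ibp hGeo2 hPt hN hW hG hb hβ
  have puv : PolyP W G b β (ip G u v) :=
    polyP_le_Ibp hP puu pvv fun y hy => ip_cs_Ibp (hG.ma y hy).pos
  have pPv : PolyP W G b β (ip G (PP G b β) v) :=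
    polyP_le_Ibp hP pPP pvv fun y hy => ip_cs_Ibp (hG.ma y hy).pos
  have pS : PolyP W G b β fun y => LB G v y - ip G (PP G b β) v y :=
    polyP_le_Ibp hP pL pPv fun y _ => abs_sub _ _
  have cu : ContinuousOn u (oV W) := fun y hy => (huv y hy).1.continuousAt.continuousWithinAt
  have cuv : ContinuousOn (ip G u v) (oV W) := fun y hy =>
    (cont_ip_Ibp (hG.ma y hy) (huv y hy).1 ((huv y hy).2.of_le (by norm_num))).continuousWithinAt
  have cPv : ContinuousOn (ip G (PP G b β) v) (oV W) := fun y hy =>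
    (cont_ip_Ibp (hG.ma y hy) ((g1 y hy).2.of_le (by norm_num))
      ((huv y hy).2.of_le (by norm_num))).continuousWithinAt
  have cL : ContinuousOn (LB G v) (oV W) := fun y hy =>
    (cont_LB_Ibp (hG.ma y hy) (huv y hy).2).continuousWithinAt
  have i1 := g3 (fun y => u y * (LB G v y - ip G (PP G b β) v y)) (cu.mul (cL.sub cPv))
    (polyP_mul_Ibp pu pS)
  have i2 := g3 _ cuv puv
  have i3 := g3 (fun y => u y * ip G (PP G b β) v y) (cu.mul cPv) (polyP_mul_Ibp pu pPv)
  have i4 : IntegrableOn (fun y => (u y * (LB G v y - ip G (PP G b β) v y) + ip G u v y) *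
      wt G b β y) (oV W) := by
    simp only [add_mul]
    exact i1.add i2
  obtain ⟨θ, C, t1, t2, t3, t4, t5⟩ := exists_step
  have key := lim_Ibp t2 t4 (fun s => (t5 s).1) i4 i3
    (step_Ibp hDiv hW hG huv (fun y hy => (g1 y hy).2) g2 t1 t3)
  simp only [add_mul] at key
  rw [integral_add i1 i2] at key
  unfold Ex
  rw [← neg_div, eq_neg_of_add_eq_zero_left key]

end Pool.Agent.MP_5f4cdd_gt.CB
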