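import Pool.Agent.MP_5f4cdd_gt.CB.Api

set_option autoImplicit false
open MeasureTheory Matrix Set Filter Topology

namespace Pool.Agent.MP_5f4cdd_gt.CB

theorem int_Ker (N : ℕ) : Integrable fun z : E N => Real.exp (-‖z‖) := by
  have h := (integrable_one_add_norm (E := E N) (μ := volume) (r := ((N + 1 : ℕ) : ℝ))
    (by simp)).const_mul (Real.exp 1 * (N + 1).factorial)
  refine h.mono' (by fun_prop) (Eventually.of_forall fun z => ?_)
  have h0 : 0 < 1 + ‖z‖ := by positivity
  have h1 := Real.pow_div_factorial_le_exp (1 + ‖z‖) h0.le (N + 1)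
  rw [div_le_iff₀ (by positivity), Real.exp_add] at h1
  rw [Real.norm_of_nonneg (Real.exp_pos _).le, Real.rpow_neg h0.le, Real.rpow_natCast,
    ← div_eq_mul_inv, le_div_iff₀ (by positivity), Real.exp_neg, inv_mul_le_iff₀ (Real.exp_pos _)]
  linarith

theorem cv_Ker {N : ℕ} (ψ f : E N → ℝ) {s : ℝ} (hs : 0 < s) (x : E N) :
    KS ψ s f x = |(s ^ Module.finrank ℝ (E N))⁻¹| * ∫ w, f w * ψ (s⁻¹ • (w - x)) := by
  rw [← integral_add_left_eq_self _ x, ← smul_eq_mul, ← Measure.integral_comp_smul]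
  simp only [KS, add_sub_cancel_left, inv_smul_smul₀ hs.ne']

theorem sKer : KerStmt := by
  intro N ψ f M s ⟨hψ, C, hC⟩ hf hM hs
  have C0 : 0 ≤ C := nonneg_of_mul_nonneg_left ((abs_nonneg _).trans (hC 0).1) (Real.exp_pos _)
  have M0 : 0 ≤ M := (abs_nonneg _).trans (hM 0)
  have dψ := hψ.differentiable one_ne_zero
  have cψ := hψ.continuous
  have cψ' := hψ.continuous_fderiv one_ne_zero
  have b1 : ∀ z, ‖fderiv ℝ ψ z‖ ≤ N * (C * Real.exp (-‖z‖)) := fun z => by
    refine ContinuousLinearMap.opNorm_le_bound _ (by positivity) fun v => ?_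
    rw [show fderiv ℝ ψ z v = _ from dd_eq_sum v ψ z]
    refine (norm_sum_le _ _).trans ((Finset.sum_le_card_nsmul _ _ (C * Real.exp (-‖z‖) * ‖v‖)
      fun i _ => ?_).trans_eq (by simp [mul_assoc]))
    rw [norm_mul, mul_comm]
    exact mul_le_mul ((hC z).2 i) (norm_le_pi_norm v i) (norm_nonneg _) (by positivity)
  have i0 : ∀ x : E N, Integrable fun w : E N => Real.exp (-‖s⁻¹ • (w - x)‖) := fun x =>
    ((int_Ker N).comp_smul (inv_ne_zero hs.ne')).comp_sub_right x
  have b2 : ∀ x y w : E N, y ∈ Metric.ball x 1 →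
      ‖(f w * -s⁻¹) • fderiv ℝ ψ (s⁻¹ • (w - y))‖ ≤
        M * s⁻¹ * (N * (C * Real.exp s⁻¹)) * Real.exp (-‖s⁻¹ • (w - x)‖) := fun x y w hy => by
    have e : Real.exp (-‖s⁻¹ • (w - y)‖) ≤ Real.exp s⁻¹ * Real.exp (-‖s⁻¹ • (w - x)‖) := by
      rw [← Real.exp_add, Real.exp_le_exp, norm_smul, norm_smul, Real.norm_of_nonneg (by positivity)]
      have := norm_sub_le_norm_sub_add_norm_sub w y x
      rw [mem_ball_iff_norm] at hy
      nlinarith [inv_pos.2 hs]
    rw [norm_smul, norm_mul, norm_neg, Real.norm_of_nonneg (inv_pos.2 hs).le]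
    calc _ ≤ M * s⁻¹ * (N * (C * (Real.exp s⁻¹ * Real.exp (-‖s⁻¹ • (w - x)‖)))) := by
          gcongr
          exacts [hM w, (b1 _).trans (by gcongr)]
      _ = _ := by ring
  have m1 : ∀ x : E N, Continuous fun w => (f w * -s⁻¹) • fderiv ℝ ψ (s⁻¹ • (w - x)) :=
    fun x => by fun_prop
  have key : ∀ x : E N, HasFDerivAt (fun y => ∫ w, f w * ψ (s⁻¹ • (w - y)))
      (∫ w, (f w * -s⁻¹) • fderiv ℝ ψ (s⁻¹ • (w - x))) x := fun x => by
    refine hasFDerivAt_integral_of_dominated_of_fderiv_le (Metric.ball_mem_nhds x one_pos)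
      (F' := fun y w => (f w * -s⁻¹) • fderiv ℝ ψ (s⁻¹ • (w - y)))
      (Eventually.of_forall fun y => Continuous.aestronglyMeasurable (by fun_prop))
      (((i0 x).const_mul (M * C)).mono' (Continuous.aestronglyMeasurable (by fun_prop))
        (Eventually.of_forall fun w => ?_)) (m1 x).aestronglyMeasurable
      (Eventually.of_forall fun w y hy => b2 x y w hy) ((i0 x).const_mul _)
      (Eventually.of_forall fun w y _ => ?_)
    · rw [norm_mul, mul_assoc]
      exact mul_le_mul (hM w) (hC _).1 (norm_nonneg _) M0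
    · have := ((dψ (s⁻¹ • (w - y))).hasFDerivAt.comp y
        (((hasFDerivAt_id y).const_sub w).const_smul s⁻¹)).const_mul (f w)
      refine this.congr_fderiv (ContinuousLinearMap.ext fun v => ?_)
      simp [mul_assoc]
  have e : KS ψ s f = fun y => _ * ∫ w, f w * ψ (s⁻¹ • (w - y)) := funext (cv_Ker ψ f hs)
  refine ⟨e ▸ fun x => ((key x).const_mul _).differentiableAt, fun i x => ?_⟩
  rw [cv_Ker (pd i ψ) f hs, e, pd, dd, ((key x).const_mul _).fderiv,
    ContinuousLinearMap.smul_apply, ContinuousLinearMap.integral_apply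
      (((i0 x).const_mul _).mono' (m1 x).aestronglyMeasurable
        (Eventually.of_forall fun w => b2 x x w (Metric.mem_ball_self one_pos))),
    smul_eq_mul, mul_left_comm, ← integral_const_mul (-s⁻¹)]
  refine congrArg _ (integral_congr_ae (Eventually.of_forall fun w => ?_))
  simp only [ContinuousLinearMap.smul_apply, smul_eq_mul, pd, dd]
  ring

end Pool.Agent.MP_5f4cdd_gt.CB
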