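import Pool.Agent.MP_5f4cdd_gt.CB.Api

set_option autoImplicit false
open MeasureTheory Matrix Set Filter Topology

namespace Pool.Agent.MP_5f4cdd_gt.CB

lemma four_Kurt (a b : ℝ) : (a - b) ^ 4 ≤ 8 * a ^ 4 + 8 * b ^ 4 := by
  have h1 : (a - b) ^ 2 ≤ 2 * a ^ 2 + 2 * b ^ 2 := by nlinarith [sq_nonneg (a + b)]
  have h2 := pow_le_pow_left₀ (sq_nonneg _) h1 2
  nlinarith [sq_nonneg (a ^ 2 - b ^ 2)]

theorem sKurt (hNorm : NormStmt) (hMom : MomStmt) : KurtStmt := by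
  intro N
  obtain ⟨c, C, hc, hC, h⟩ := hMom N
  refine ⟨8 * (C + C ^ 2) / c ^ 2, by positivity, fun Q y v hQ hV hi => ?_⟩
  have hS := hQ.isClosed.measurableSet
  obtain ⟨η0, h0, hm⟩ := hQ.exists_isMinOn (hi.mono interior_subset)
    (polyW_dot y).1.continuousOn
  obtain ⟨A, hA⟩ := hNorm N Q y η0 hQ.isClosed hV hi h0
    (fun η hη => by rw [dotProduct_sub]; exact sub_nonneg.2 (hm hη))
    (hQ.isBounded.subset fun _ hη => hη.1)
  obtain ⟨hR, -, -, -, m2, m4, m3⟩ := h Q y η0 A hS hA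
  have k2 := m2 v
  have k4 := m4 v
  have k3 : c * _ ≤ Ey Q (fun η => cen Q y v η ^ 2) y := m3 v _
  have s0 := dot_self_nonneg' (Aᵀ *ᵥ v)
  generalize (Aᵀ *ᵥ v) ⬝ᵥ (Aᵀ *ᵥ v) = s at k2 k3 k4 s0
  simp only [dotProduct_sub] at k2 k4
  have pl : PolyW fun η : E N => v ⬝ᵥ η - v ⬝ᵥ η0 := (polyW_dot v).sub (polyW_const _)
  have cs := Ey_cs hS hR pl (polyW_const 1)
  simp only [mul_one, one_pow] at cs
  rw [Ey_const hS hR hi, mul_one, Ey_sub hS hR (polyW_dot v) (polyW_const _),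
    Ey_const hS hR hi] at cs
  set m := Ey Q (fun η => v ⬝ᵥ η) y - v ⬝ᵥ η0 with hm'
  have k5 : Ey Q (fun η => cen Q y v η ^ 4) y ≤
      Ey Q (fun η => 8 * (v ⬝ᵥ η - v ⬝ᵥ η0) ^ 4 + 8 * m ^ 4) y := by
    refine Ey_mono hS hR (((polyW_dot v).sub (polyW_const _)).pow 4)
      (((polyW_const 8).mul (pl.pow 4)).add (polyW_const _)) fun η _ => ?_
    rw [show cen Q y v η = (v ⬝ᵥ η - v ⬝ᵥ η0) - m by rw [cen, hm']; ring]
    exact four_Kurt _ _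
  rw [Ey_add hS hR ((polyW_const 8).mul (pl.pow 4)) (polyW_const _), Ey_const hS hR hi,
    Ey_const_mul] at k5
  have k6 := pow_le_pow_left₀ (sq_nonneg m) (cs.trans k2) 2
  have k7 := pow_le_pow_left₀ (by positivity) k3 2
  calc _ ≤ 8 * (C + C ^ 2) / c ^ 2 * (c * s) ^ 2 := by
        rw [show 8 * (C + C ^ 2) / c ^ 2 * (c * s) ^ 2 = 8 * (C * s ^ 2) + 8 * (C * s) ^ 2 by
          field_simp]
        nlinarith
    _ ≤ _ := mul_le_mul_of_nonneg_left k7 (by positivity)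

end Pool.Agent.MP_5f4cdd_gt.CB
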