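import Pool.Agent.MP_5f4cdd_gt.CB.Api

set_option autoImplicit false
open MeasureTheory Matrix Set Filter Topology

namespace Pool.Agent.MP_5f4cdd_gt.CB

theorem fatou_Lapl {N : ℕ} {F : ℝ → E N → ℝ} {g : E N → ℝ} (hF : ∀ T, 0 < T → Integrable (F T))
    (h0 : ∀ T v, 0 ≤ F T v) (hg : Integrable g) (hg0 : ∀ v, 0 ≤ g v)
    (hl : ∀ v, Tendsto (fun T => F T v) atTop (𝓝 (g v))) {c : ℝ} (hc0 : 0 ≤ c)
    (hc : c < ∫ v, g v) : ∀ᶠ T : ℝ in atTop, c ≤ ∫ v, F T v := by
  have hm : ∀ T : ℝ, 0 < max T 1 := fun T => lt_max_of_lt_right one_pos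
  have h1 := lintegral_liminf_le' (μ := (volume : Measure (E N))) (u := (atTop : Filter ℝ))
    (f := fun T v => ENNReal.ofReal (F (max T 1) v))
    (fun T => (hF _ (hm T)).aemeasurable.ennreal_ofReal)
  have h2 : ∀ v, liminf (fun T : ℝ => ENNReal.ofReal (F (max T 1) v)) atTop =
      ENNReal.ofReal (g v) := fun v => by
    refine Tendsto.liminf_eq ((ENNReal.continuous_ofReal.tendsto _).comp ?_)
    exact (hl v).comp (tendsto_atTop_mono (fun T => le_max_left T 1) tendsto_id)
  simp only [h2] at h1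
  rw [← ofReal_integral_eq_lintegral_ofReal hg (Eventually.of_forall hg0)] at h1
  have h3 := eventually_lt_of_lt_liminf
    (((ENNReal.ofReal_lt_ofReal_iff_of_nonneg hc0).2 hc).trans_le h1)
  filter_upwards [h3, eventually_ge_atTop (1 : ℝ)] with T hT hT1
  rw [← ofReal_integral_eq_lintegral_ofReal (hF _ (hm T)) (Eventually.of_forall (h0 _)),
    max_eq_left hT1] at hT
  exact ((ENNReal.ofReal_lt_ofReal_iff_of_nonneg hc0).1 hT).le

theorem scale_Lapl {N : ℕ} {f : E N → ℝ} (hf : Integrable f) (y0 : E N) {R : ℝ} (hR : 0 < R) :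
    Integrable (fun v => f (y0 + R⁻¹ • v)) ∧ ∫ v, f (y0 + R⁻¹ • v) = R ^ N * ∫ y, f y := by
  refine ⟨(hf.comp_add_left y0).comp_smul (inv_ne_zero hR.ne'), ?_⟩
  rw [Measure.integral_comp_inv_smul_of_nonneg volume (fun y => f (y0 + y)) hR.le,
    integral_add_left_eq_self, Module.finrank_fin_fun, smul_eq_mul]

theorem PP_add_Lapl {N : ℕ} (G : E N → ℝ) (b β b' β' y : E N) (T : ℝ) :
    PP G (b + T • b') (β + T • β') y = PP G b β y + T * PP G b' β' y := by
  simp only [PP, add_dotProduct, smul_dotProduct, smul_eq_mul]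
  ring

theorem sLapl (hGeo1 : Geo1Stmt) (hGeo2 : Geo2Stmt) (hGeo3 : Geo3Stmt) (hPt : PtStmt) :
    LaplStmt := by
  intro N W b0 G hN hW hB b1 hb1 β1 hβ1 y0 hy0 ε hε
  obtain ⟨g1, g2, g3, g4, -⟩ := hGeo1 N W b0 G hW hB y0 hy0
  have hη := (hGeo2 N W b0 G hN hW hB y0 hy0).2.2
  have hc1 := ((hGeo3 N W b0 G hN hW hB b1 hb1 β1 hβ1).1 y0 hy0).2
  have hc2 := ((hGeo3 N W b0 G hN hW hB y0 hy0 _ hη).1 y0 hy0).2
  obtain ⟨p1, p2, -⟩ := hPt N W b0 G hW hB y0 (eta G y0) y0 hy0
  rw [g1, sub_self] at p1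
  rw [g3, neg_smul, neg_neg] at p2
  have p0 : PP G y0 (eta G y0) y0 = 2 * N := by
    rw [PP, dotProduct_comm (eta G y0), g2]
    ring
  have hma := hB.ma y0 hy0
  have hT3 : ∀ T : ℝ, 0 < T →
      IntegrableOn (wt G (b1 + T • y0) (β1 + T • eta G y0)) (oV W) ∧
        0 < ZZ W G (b1 + T • y0) (β1 + T • eta G y0) := fun T hT => by
    obtain ⟨-, -, a1, a2, -⟩ := hGeo3 N W b0 G hN hW hB _
      (oV_add hb1 (cV_smul (oV_subset_cV W hy0) hT.le)) _
      (iW_add hW hβ1 (hW.smul _ g4 T hT.le))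
    refine ⟨?_, a2⟩
    simpa using a1 (fun _ => 1) continuousOn_const ⟨1, 0, fun y _ => by simp⟩
  have hmeas : MeasurableSet (oV W) := (isOpen_oV W).measurableSet
  have hsc := fun (T : ℝ) (hT : 0 < T) =>
    scale_Lapl ((integrable_indicator_iff hmeas).2 (hT3 T hT).1) y0 (Real.sqrt_pos.2 hT)
  have hray : ∀ v : E N, Tendsto (fun T : ℝ => y0 + (√T)⁻¹ • v) atTop (𝓝 y0) := fun v => by
    have h1 := (tendsto_inv_atTop_zero.comp Real.tendsto_sqrt_atTop).smul_const v
    simpa using h1.const_add y0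
  have hdet : (hess G y0).det = Real.exp (2 * G y0) := by
    rw [← hma.eqn, ldet, Real.exp_log hma.pos.det_pos]
  have hint : ∫ v : E N, Real.exp (G y0 - PP G b1 β1 y0) * Real.exp (-qf (hess G y0) v v) =
      Real.exp (-PP G b1 β1 y0 + N / 2 * Real.log Real.pi) := by
    have e : Real.pi ^ N / Real.exp (2 * G y0) =
        Real.exp (N / 2 * Real.log Real.pi - G y0) ^ 2 := by
      rw [← Real.exp_nat_mul, div_eq_iff (Real.exp_pos _).ne', ← Real.exp_add]
      nth_rewrite 1 [← Real.exp_log Real.pi_pos]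
      rw [← Real.exp_nat_mul]
      congr 1
      push_cast
      ring
    rw [integral_const_mul, (gauss_qf hma.pos).2, hdet, e, Real.sqrt_sq (Real.exp_pos _).le,
      ← Real.exp_add]
    congr 1
    ring
  have key := fatou_Lapl
    (F := fun T v => (oV W).indicator (wt G (b1 + T • y0) (β1 + T • eta G y0))
      (y0 + (√T)⁻¹ • v) * Real.exp (2 * T * N))
    (g := fun v => Real.exp (G y0 - PP G b1 β1 y0) * Real.exp (-qf (hess G y0) v v))
    (fun T hT => (hsc T hT).1.mul_const _)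
    (fun T v => mul_nonneg (Set.indicator_nonneg (fun y _ => (Real.exp_pos _).le) _)
      (Real.exp_pos _).le)
    ((gauss_qf hma.pos).1.const_mul _) (fun v => by positivity)
    (fun v => by
      have t1 := tendsto_taylor2 (hc2.of_le (by norm_num)) p1 v
      rw [p2, qf_smul, p0] at t1
      have t2 := (hma.smooth.continuousAt.tendsto.comp (hray v)).sub
        (hc1.continuousAt.tendsto.comp (hray v))
      have t3 := (Real.continuous_exp.tendsto _).comp (t2.sub t1)
      rw [← Real.exp_add, show G y0 - PP G b1 β1 y0 + -qf (hess G y0) v v =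
        G y0 - PP G b1 β1 y0 - 2 * qf (hess G y0) v v / 2 by ring]
      refine t3.congr' ?_
      filter_upwards [(hray v).eventually ((isOpen_oV W).mem_nhds hy0)] with T hT
      have hT' : y0 + (√T)⁻¹ • v ∈ oV W := hT
      rw [Set.indicator_of_mem hT', wt, PP_add_Lapl, ← Real.exp_add]
      simp only [Function.comp_apply]
      congr 1
      ring)
    (c := Real.exp (-PP G b1 β1 y0 + N / 2 * Real.log Real.pi - ε)) (Real.exp_pos _).le
    (by
      rw [hint]
      exact Real.exp_lt_exp.2 (by linarith))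
  filter_upwards [key, eventually_gt_atTop (0 : ℝ)] with T hk hT
  rw [integral_mul_const, (hsc T hT).2, integral_indicator hmeas] at hk
  have hZ := (hT3 T hT).2
  have hs := Real.sqrt_pos.2 hT
  have h1 := Real.log_le_log (Real.exp_pos _) hk
  change _ ≤ Real.log (√T ^ N * ZZ W G (b1 + T • y0) (β1 + T • eta G y0) *
    Real.exp (2 * T * N)) at h1
  rw [Real.log_exp, Real.log_mul (by positivity) (Real.exp_pos _).ne',
    Real.log_mul (by positivity) hZ.ne', Real.log_exp, Real.log_pow, Real.log_sqrt hT.le] at h1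
  linarith

end Pool.Agent.MP_5f4cdd_gt.CB
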