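import Pool.Agent.MP_5f4cdd_gt.CB.Api

set_option autoImplicit false
open MeasureTheory Matrix Set Filter Topology

namespace Pool.Agent.MP_5f4cdd_gt.CB

variable {N j : ℕ} {c K t : ℝ} {a : E N → Mat N}

theorem one_Lin (j : ℕ) (i l : Fin N) : HB j 1 (fun _ : E N => (1 : Mat N) i l) := by
  refine (HB_const j _).mono ?_
  rw [Matrix.one_apply]
  split_ifs <;> simp

theorem sub_Lin (h : HBM j K a) : HBM j (|K| + 1) (fun y => a y - 1) := fun i l =>
  ((h i l).mono (le_abs_self K)).sub (one_Lin j i l)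

theorem hbm_Lin (h : HBM j K a) (h0 : 0 ≤ t) (h1 : t ≤ 1) :
    HBM j (1 + (|K| + 1)) (fun y => 1 + t • (a y - 1)) := fun i l =>
  (one_Lin j i l).add (((sub_Lin h i l).const_mul t).mono
    (mul_le_of_le_one_left (by positivity) (abs_le.2 ⟨by linarith, h1⟩)))

theorem ell_Lin (h : Ell c a) (h0 : 0 ≤ t) (h1 : t ≤ 1) :
    Ell (min 1 c) (fun y => 1 + t • (a y - 1)) := fun y => by
  refine ⟨Matrix.isSymm_one.add (((h y).1.sub Matrix.isSymm_one).smul t), fun v => ?_⟩
  rw [qf_add, qf_smul, qf_sub, qf_one]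
  have d := dot_self_nonneg' v
  have a1 := mul_le_mul_of_nonneg_right (min_le_left 1 c) d
  have a2 := (mul_le_mul_of_nonneg_right (min_le_right 1 c) d).trans ((h y).2 v)
  have a3 := mul_le_mul_of_nonneg_left a1 (sub_nonneg.2 h1)
  have a4 := mul_le_mul_of_nonneg_left a2 h0
  linarith

theorem sLin (hLinA : LinAStmt) (hSch : SchStmt) (hRes : ResStmt) : LinStmt := by
  intro N j c K hc
  obtain ⟨C, hC, hS⟩ := hSch j N (min 1 c) (1 + (|K| + 1)) (lt_min one_pos hc)
  obtain ⟨δ, hδ, hL⟩ := hLinA N j C (|K| + 1) hC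
  obtain ⟨C1, -, hR⟩ := hRes N j
  refine ⟨C, hC, fun a f M he ha => ?_⟩
  have up : ∀ t : ℝ, 0 ≤ t → t ≤ 1 → ∀ (f u : E N → ℝ) (M M' : ℝ), HB j M f → HB (j + 2) M' u →
      (∀ x, op (fun y => 1 + t • (a y - 1)) u x = f x) → HB (j + 2) (C * M) u :=
    fun t h0 h1 f u M M' hf hu e => hS _ u M (ell_Lin he h0 h1) (hbm_Lin ha h0 h1) ⟨M', hu⟩
      (by rwa [show op (fun y => 1 + t • (a y - 1)) u = f from funext e])
  have key : ∀ (n : ℕ) (t : ℝ), 0 ≤ t → t ≤ 1 → t ≤ n * δ → ∀ (f : E N → ℝ) (M : ℝ), HB j M f →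
      ∃ u, HB (j + 2) (C * M) u ∧ ∀ x, op (fun y => 1 + t • (a y - 1)) u x = f x := by
    intro n
    induction n with
    | zero =>
      intro t h0 h1 h2 f M hf
      obtain rfl : t = 0 := le_antisymm (by simpa using h2) h0
      obtain ⟨u, hu, e⟩ := hR M f hf
      have e' : ∀ x, op (fun y => 1 + (0 : ℝ) • (a y - 1)) u x = f x := by
        simpa only [zero_smul, add_zero] using e
      exact ⟨u, up 0 h0 h1 f u M _ hf hu e', e'⟩
    | succ n ih =>
      intro t h0 h1 h2 f M hf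
      push_cast at h2
      have n0 : 0 ≤ n * δ := by positivity
      have s1 : max 0 (t - δ) ≤ t := max_le h0 (by linarith)
      have s2 := le_max_right 0 (t - δ)
      obtain ⟨u, M', hu, e⟩ := hL _ _ (t - max 0 (t - δ)) (sub_Lin ha)
        (abs_le.2 ⟨by linarith, by linarith⟩)
        (ih (max 0 (t - δ)) (le_max_left _ _) (s1.trans h1) (max_le n0 (by linarith))) f M hf
      have e' : ∀ x, op (fun y => 1 + t • (a y - 1)) u x = f x := by
        simpa only [add_assoc, ← add_smul, add_sub_cancel] using e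
      exact ⟨u, up t h0 h1 f u M _ hf hu e', e'⟩
  obtain ⟨n, hn⟩ := exists_nat_ge (1 / δ)
  simpa only [one_smul, add_sub_cancel] using
    key n 1 zero_le_one le_rfl ((div_le_iff₀ hδ).1 hn) f M

end Pool.Agent.MP_5f4cdd_gt.CB
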