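import Pool.Agent.MP_5f4cdd_gt.CB.Api

set_option autoImplicit false
open MeasureTheory Matrix Set Filter Topology

namespace Pool.Agent.MP_5f4cdd_gt.CB

theorem c2_LinA {N j : ℕ} {M : ℝ} {u : E N → ℝ} (h : HB (j + 2) M u) (x : E N) :
    ContDiffAt ℝ 2 u x :=
  (h.contDiff.of_le (by exact_mod_cast Nat.le_add_left 2 j)).contDiffAt

theorem op_add_LinA {N : ℕ} (a : E N → Mat N) {u w : E N → ℝ} {x : E N}
    (hu : ContDiffAt ℝ 2 u x) (hw : ContDiffAt ℝ 2 w x) :
    op a (fun y => u y + w y) x = op a u x + op a w x := by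
  simp only [op]
  rw [hess_add hu hw, Matrix.mul_add, Matrix.trace_add]
  ring

theorem tr_lim_LinA {N : ℕ} (A : Mat N) {X : ℕ → Mat N} {Y : Mat N}
    (h : Tendsto X atTop (𝓝 Y)) : Tendsto (fun n => (A * X n).trace) atTop (𝓝 (A * Y).trace) := by
  have hc : Continuous fun Z : Mat N => (A * Z).trace :=
    (continuous_const.matrix_mul continuous_id).matrix_trace
  exact (hc.tendsto Y).comp h

theorem sLinA : LinAStmt := by
  intro N j C0 K hC0
  obtain ⟨C1, hC1, hmul⟩ := HBM_mul N j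
  refine ⟨1 / (2 * (C0 + 1) * C1 * (|K| + 1)), by positivity, fun a b θ hb hθ hs f M hf => ?_⟩
  have hθ' : C0 * (|θ| * (C1 * |K|)) ≤ 1 / 2 := by
    rw [le_div_iff₀ (by positivity)] at hθ
    have h1 : C0 * (|θ| * (C1 * |K|)) ≤ (C0 + 1) * (|θ| * (C1 * (|K| + 1))) := by
      gcongr <;> linarith
    nlinarith
  have step : ∀ (m : ℝ) (d : E N → ℝ), HB (j + 2) m d → ∃ d' : E N → ℝ,
      HB (j + 2) (m * (1 / 2)) d' ∧ ∀ x, op a d' x = -θ * (b x * hess d x).trace := by
    intro m d hd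
    have h1 := (hmul |K| m b (hess d) (abs_nonneg _) hd.nonneg
      (fun i k => (hb i k).mono (le_abs_self K)) hd.hessM).2
    obtain ⟨d', h2, h3⟩ := hs _ _ (h1.const_mul (-θ))
    refine ⟨d', h2.mono ?_, h3⟩
    rw [abs_neg]
    have h4 := mul_le_mul_of_nonneg_left hθ' hd.nonneg
    linarith
  choose! T hT using step
  obtain ⟨d0, hd0, hd0'⟩ := hs f M hf
  let d : ℕ → E N → ℝ := fun n => Nat.rec d0 (fun n dn => T (C0 * M * (1 / 2) ^ n) dn) n
  have hd : ∀ n, HB (j + 2) (C0 * M * (1 / 2) ^ n) (d n) := by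
    intro n
    induction n with
    | zero =>
      rw [pow_zero, mul_one]
      exact hd0
    | succ n ih =>
      rw [pow_succ, ← mul_assoc]
      exact (hT _ _ ih).1
  have hd' : ∀ n x, op a (d (n + 1)) x = -θ * (b x * hess (d n) x).trace :=
    fun n => (hT _ _ (hd n)).2
  let s : ℕ → E N → ℝ := fun n => Nat.rec d0 (fun n sn x => sn x + d (n + 1) x) n
  have hs1 : ∀ n, s (n + 1) = fun x => s n x + d (n + 1) x := fun _ => rfl
  obtain ⟨u, hu, hsn, hlim⟩ := HB_cauchy (f := s) (a := C0 * M) (k := j + 2) hd0 fun n => by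
    have e : (fun x => s (n + 1) x - s n x) = d (n + 1) := by
      funext x
      rw [hs1]
      ring
    rw [e]
    refine (hd (n + 1)).mono ?_
    have := (hd n).nonneg
    rw [pow_succ, ← mul_assoc]
    linarith
  refine ⟨u, _, hu, fun x => ?_⟩
  have heq : ∀ n, op a (s (n + 1)) x = f x - θ * (b x * hess (s n) x).trace := by
    intro n
    induction n with
    | zero =>
      rw [hs1, op_add_LinA a (c2_LinA (hsn 0) x) (c2_LinA (hd (0 + 1)) x), hd']
      have e : op a (s 0) x = f x := hd0' x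
      rw [e]
      show _ + -θ * (b x * hess (s 0) x).trace = _
      ring
    | succ n ih =>
      rw [hs1 (n + 1), op_add_LinA a (c2_LinA (hsn (n + 1)) x) (c2_LinA (hd (n + 1 + 1)) x), hd',
        ih, hs1 n, hess_add (c2_LinA (hsn n) x) (c2_LinA (hd (n + 1)) x), Matrix.mul_add,
        Matrix.trace_add]
      ring
  have hH := HB_lim_hess hsn hlim x
  have l1 : Tendsto (fun n => op a (s n) x) atTop (𝓝 (op a u x)) :=
    (tr_lim_LinA (a x) hH).sub ((hlim x).const_mul 2)
  have l2 : Tendsto (fun n => op a (s (n + 1)) x) atTop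
      (𝓝 (f x - θ * (b x * hess u x).trace)) := by
    simp only [heq]
    exact tendsto_const_nhds.sub ((tr_lim_LinA (b x) hH).const_mul θ)
  have e := tendsto_nhds_unique ((tendsto_add_atTop_iff_nat 1).2 l1) l2
  simp only [op] at e ⊢
  rw [Matrix.add_mul, Matrix.trace_add, Matrix.smul_mul, Matrix.trace_smul, smul_eq_mul]
  linarith

end Pool.Agent.MP_5f4cdd_gt.CB
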