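import Pool.Agent.MP_5f4cdd_gt.CB.Api

set_option autoImplicit false
open MeasureTheory Matrix Set Filter Topology

namespace Pool.Agent.MP_5f4cdd_gt.CB

theorem d3_zero_LocCal {N : ℕ} (y x : E N) : d3 (fun _ : E N => (0 : ℝ)) y x = 0 := by
  ext i j
  have h1 : pd j (fun _ : E N => (0 : ℝ)) = fun _ => 0 := funext fun z => dd_const 0 _ z
  have h2 : pd i (fun _ : E N => (0 : ℝ)) = fun _ => 0 := funext fun z => dd_const 0 _ z
  simp only [d3, Matrix.of_apply, h1, h2, dd_const, Matrix.zero_apply]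

theorem num_LocCal {n b M s L : ℝ} (hM : 0 < M) (hs : 0 < s)
    (h1 : 2 * (1 + M * s ^ 2) ^ 2 - 2 * (1 + M * s ^ 2) ≤ L)
    (h2 : L ≤ n * (2 * M * s ^ 3 * b + 6 * M * s ^ 4 * b)) : M ≤ 3 * n * b + n ^ 2 * b ^ 2 / 4 := by
  have h3 : 0 < M * s ^ 2 := by positivity
  have h4 : 1 + M * s ^ 2 ≤ n * b * s + 3 * n * b * s ^ 2 := by
    refine le_of_mul_le_mul_left ?_ h3
    nlinarith
  have h5 : M * s ^ 2 ≤ (3 * n * b + n ^ 2 * b ^ 2 / 4) * s ^ 2 := by
    nlinarith [sq_nonneg (n * b * s / 2 - 1)]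
  exact le_of_mul_le_mul_right h5 (by positivity)

/-- the maximum point -/
theorem key_LocCal (hCal : CalStmt) {N : ℕ} {B M R : ℝ} {ρ G : E N → ℝ} {y x : E N} (hM : 0 < M)
    (hR : ρ y < R) (hG : MAat 5 G y) (hρ : RhoB B G ρ y)
    (h1 : ∀ᶠ z in 𝓝 y, ldet G z = 2 * G z)
    (h2 : ∀ᶠ z in 𝓝 y, ∀ v, cal G z v ≤ 4 * (1 + M / (R - ρ z) ^ 2) * qf (hess G z) v v)
    (h3 : qf (hess G y) x x = 1) (h4 : cal G y x = 4 * (1 + M / (R - ρ y) ^ 2)) :
    M ≤ 3 * N * |B| + N ^ 2 * |B| ^ 2 / 4 := by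
  have hd : 0 < R - ρ y := sub_pos.2 hR
  have hμ : ContDiffAt ℝ 2 (fun z => 1 + M / (R - ρ z) ^ 2) y :=
    contDiffAt_const.add (contDiffAt_const.div ((contDiffAt_const.sub hρ.1).pow 2) (by positivity))
  have h5 := hCal N G (fun _ => 0) (fun z => 1 + M / (R - ρ z) ^ 2) y x 0 0 le_rfl le_rfl
    hG.smooth hG.pos contDiffAt_const hμ (h1.mono fun z hz => by rw [hz, add_zero]) h2 h3 h4
    (fun v => by rw [hess_const]; simp [qf]) (by rw [d3_zero_LocCal]; simp)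
  have e1 : ∀ᶠ t in 𝓝 (ρ y),
      HasDerivAt (fun t : ℝ => 1 + M / (R - t) ^ 2) (2 * M / (R - t) ^ 3) t := by
    filter_upwards [Iio_mem_nhds hR] with t ht
    have ht' : R - t ≠ 0 := (sub_pos.2 ht).ne'
    have h := ((hasDerivAt_const t M).fun_div (((hasDerivAt_id' t).const_sub R).fun_pow 2)
      (pow_ne_zero 2 ht')).const_add 1
    refine h.congr_deriv ?_
    field_simp
    norm_num
    ring
  have e2 : HasDerivAt (fun t : ℝ => 2 * M / (R - t) ^ 3) (6 * M / (R - ρ y) ^ 4) (ρ y) := by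
    have h := (hasDerivAt_const (ρ y) (2 * M)).fun_div
      (((hasDerivAt_id' (ρ y)).const_sub R).fun_pow 3) (pow_ne_zero 3 hd.ne')
    refine h.congr_deriv ?_
    field_simp
    norm_num
    ring
  have h6 : Lop G (fun z => 1 + M / (R - ρ z) ^ 2) y ≤
      N * (2 * M * (R - ρ y)⁻¹ ^ 3 * |B| + 6 * M * (R - ρ y)⁻¹ ^ 4 * |B|) := by
    refine trace_inv_mul_le hG.pos fun v => ?_
    rw [qf_hess_comp (φ := fun t : ℝ => 1 + M / (R - t) ^ 2) hρ.1 e1 e2]
    have hq := qf_nonneg hG.pos v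
    have hb : B * qf (hess G y) v v ≤ |B| * qf (hess G y) v v :=
      mul_le_mul_of_nonneg_right (le_abs_self B) hq
    have a1 := mul_le_mul_of_nonneg_left ((hρ.2 v).2.trans hb)
      (show 0 ≤ 2 * M / (R - ρ y) ^ 3 by positivity)
    have a2 := mul_le_mul_of_nonneg_left ((hρ.2 v).1.trans hb)
      (show 0 ≤ 6 * M / (R - ρ y) ^ 4 by positivity)
    rw [inv_pow, inv_pow, ← div_eq_mul_inv, ← div_eq_mul_inv, ← sq]
    linarith
  refine num_LocCal hM (inv_pos.2 hd) ?_ h6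
  rw [inv_pow, ← div_eq_mul_inv]
  linarith

theorem sLocCal (hCal : CalStmt) : LocCalStmt := by
  intro N B
  refine ⟨3 * N * |B| + N ^ 2 * |B| ^ 2 / 4 + 1, by positivity, ?_⟩
  intro K ρ G R hK hG y hy hR v
  have hz : ∀ z, cal G z 0 = 0 := fun z => by simpa using cal_smul G z 0 0
  by_cases hv : v = 0
  · rw [hv, hz]; simp [qf]
  have hsph : ∀ w : E N, w ≠ 0 → ‖w‖⁻¹ • w ∈ Metric.sphere (0 : E N) 1 := fun w hw => by
    rw [mem_sphere_zero_iff_norm, norm_smul, norm_inv, norm_norm,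
      inv_mul_cancel₀ (norm_ne_zero_iff.2 hw)]
  have hne : ∀ w ∈ Metric.sphere (0 : E N) 1, w ≠ 0 := fun w hw h => by
    rw [mem_sphere_zero_iff_norm, h, norm_zero] at hw
    exact zero_ne_one hw
  have hc : ContinuousOn (fun p : E N × E N =>
      (cal G p.1 p.2 / (4 * qf (hess G p.1) p.2 p.2) - 1) * (R - ρ p.1) ^ 2)
      (K ×ˢ Metric.sphere (0 : E N) 1) := by
    rintro ⟨z, w⟩ ⟨hz1, hw⟩
    obtain ⟨h1, h2⟩ := hG z hz1
    have c1 := continuousAt_cal (h1.smooth.of_le (by norm_cast)) h1.pos w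
    have c2 : ContinuousAt (fun p : E N × E N => hess G p.1) (z, w) :=
      ContinuousAt.comp (f := Prod.fst) (continuousAt_hess (h1.smooth.of_le (by norm_cast)))
        continuousAt_fst
    have c3 : ContinuousAt (fun p : E N × E N => qf (hess G p.1) p.2 p.2) (z, w) :=
      continuous_qf.continuousAt.comp (c2.prodMk (continuousAt_snd.prodMk continuousAt_snd))
    have c4 : ContinuousAt (fun p : E N × E N => ρ p.1) (z, w) :=
      ContinuousAt.comp (f := Prod.fst) h2.1.continuousAt continuousAt_fst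
    have hq := qf_pos h1.pos (hne w hw)
    exact (((c1.div (continuousAt_const.mul c3) (mul_pos four_pos hq).ne').sub
      continuousAt_const).mul
      ((continuousAt_const.sub c4).pow 2)).continuousWithinAt
  obtain ⟨⟨y0, v0⟩, ⟨hy0, hv0⟩, hmax⟩ :=
    (hK.compact.prod (isCompact_sphere (0 : E N) 1)).exists_isMaxOn ⟨(y, _), hy, hsph v hv⟩ hc
  obtain ⟨M, hM⟩ : ∃ M, M = (cal G y0 v0 / (4 * qf (hess G y0) v0 v0) - 1) * (R - ρ y0) ^ 2 :=
    ⟨_, rfl⟩
  have hall : ∀ z ∈ K, ρ z < R → ∀ w,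
      cal G z w ≤ 4 * (1 + M / (R - ρ z) ^ 2) * qf (hess G z) w w := by
    intro z hz1 hzR w
    by_cases hw : w = 0
    · rw [hw, hz]; simp [qf]
    have h1 : (cal G z (‖w‖⁻¹ • w) / (4 * qf (hess G z) (‖w‖⁻¹ • w) (‖w‖⁻¹ • w)) - 1) *
        (R - ρ z) ^ 2 ≤ M := by
      rw [hM]
      exact isMaxOn_iff.1 hmax (z, ‖w‖⁻¹ • w) ⟨hz1, hsph w hw⟩
    have hq := qf_pos (hG z hz1).1.pos hw
    have hn : ‖w‖ ≠ 0 := norm_ne_zero_iff.2 hw
    have hd : 0 < (R - ρ z) ^ 2 := pow_pos (sub_pos.2 hzR) 2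
    have e : cal G z (‖w‖⁻¹ • w) / (4 * qf (hess G z) (‖w‖⁻¹ • w) (‖w‖⁻¹ • w)) =
        cal G z w / (4 * qf (hess G z) w w) := by
      rw [cal_smul, qf_smul_left, qf_smul_right]
      field_simp
    rw [e, ← le_div_iff₀ hd, sub_le_iff_le_add', div_le_iff₀ (by positivity)] at h1
    linarith
  have hMA : M ≤ 3 * N * |B| + N ^ 2 * |B| ^ 2 / 4 + 1 := by
    by_contra hlt
    have hpos : 0 < M := lt_of_lt_of_le (by positivity) (not_le.1 hlt).le
    have hR0 : ρ y0 < R := by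
      refine lt_of_le_of_ne (hK.le y0 hy0) fun h => ?_
      rw [h, sub_self] at hM
      simp only [ne_eq, OfNat.ofNat_ne_zero, not_false_eq_true, zero_pow, mul_zero] at hM
      exact hpos.ne' hM
    have hn := hK.nhds y0 hy0 hR0
    have hq := qf_pos (hG y0 hy0).1.pos (hne v0 hv0)
    have hs : √(qf (hess G y0) v0 v0) ≠ 0 := (Real.sqrt_pos.2 hq).ne'
    have hs2 := Real.sq_sqrt hq.le
    have hd : R - ρ y0 ≠ 0 := (sub_pos.2 hR0).ne'
    have h := key_LocCal hCal (x := (√(qf (hess G y0) v0 v0))⁻¹ • v0) hpos hR0 (hG y0 hy0).1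
      (hG y0 hy0).2 (Filter.mem_of_superset hn fun z hz1 => (hG z hz1).1.eqn)
      (by
        filter_upwards [hn, (hG y0 hy0).2.1.continuousAt.eventually_lt continuousAt_const hR0]
          with z hz1 hz2 using hall z hz1 hz2)
      (by
        rw [qf_smul_left, qf_smul_right, ← mul_assoc, ← sq, inv_pow, hs2]
        exact inv_mul_cancel₀ hq.ne')
      (by
        rw [cal_smul, inv_pow, hs2, hM]
        field_simp
        ring)
    linarith
  refine (hall y hy hR v).trans ?_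
  have hq := qf_nonneg (hG y hy).1.pos v
  gcongr

end Pool.Agent.MP_5f4cdd_gt.CB
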