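import Pool.Agent.MP_5f4cdd_gt.CB.Api

set_option autoImplicit false
open MeasureTheory Matrix Set Filter Topology

namespace Pool.Agent.MP_5f4cdd_gt.CB

/-- uniform Hoelder bounds for a family of functions -/
def UB_LocStep {N : ℕ} {ι : Type} (k : ℕ) (F : ι → E N → ℝ) : Prop :=
  ∃ C : ℝ, 0 ≤ C ∧ ∀ d, HB k C (F d)

section UBsec
variable {N : ℕ} {ι : Type} {k : ℕ} {F F' : ι → E N → ℝ}

theorem ub_of_LocStep {C : ℝ} (h : ∀ d, HB k C (F d)) : UB_LocStep k F :=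
  ⟨|C|, abs_nonneg _, fun d => (h d).mono (le_abs_self _)⟩

theorem ub_add_LocStep (h : UB_LocStep k F) (h' : UB_LocStep k F') :
    UB_LocStep k (fun d x => F d x + F' d x) := by
  obtain ⟨C, -, hC⟩ := h
  obtain ⟨C', -, hC'⟩ := h'
  exact ub_of_LocStep (fun d => (hC d).add (hC' d))

theorem ub_sub_LocStep (h : UB_LocStep k F) (h' : UB_LocStep k F') :
    UB_LocStep k (fun d x => F d x - F' d x) := by
  obtain ⟨C, -, hC⟩ := h
  obtain ⟨C', -, hC'⟩ := h'
  exact ub_of_LocStep (fun d => (hC d).sub (hC' d))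

theorem ub_mul_LocStep (h : UB_LocStep k F) (h' : UB_LocStep k F') :
    UB_LocStep k (fun d x => F d x * F' d x) := by
  obtain ⟨C, -, hC⟩ := h
  obtain ⟨C', -, hC'⟩ := h'
  obtain ⟨D, -, hD⟩ := HB_mul N k
  exact ub_of_LocStep (fun d => hD _ _ _ _ (hC d) (hC' d))

theorem ub_const_LocStep (c : ℝ) : UB_LocStep k (fun (_ : ι) (_ : E N) => c) :=
  ub_of_LocStep (fun _ => HB_const k c)

theorem ub_lower_LocStep {j : ℕ} (h : UB_LocStep k F) (hj : j ≤ k) : UB_LocStep j F := by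
  obtain ⟨C, -, hC⟩ := h
  exact ub_of_LocStep (fun d => (hC d).lower_le hj)

theorem ub_pd_LocStep (h : UB_LocStep (k + 1) F) (i : Fin N) :
    UB_LocStep k (fun d => pd i (F d)) := by
  obtain ⟨C, -, hC⟩ := h
  exact ub_of_LocStep (fun d => (hC d).pd i)

theorem ub_sum_LocStep {f : Fin N → ι → E N → ℝ} (h : ∀ i, UB_LocStep k (f i)) :
    UB_LocStep k (fun d x => ∑ i, f i d x) := by
  choose C _ hC using h
  exact ub_of_LocStep (fun d => HB.sum Finset.univ (fun i => f i d) C (fun i _ => hC i d))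

theorem ub_fin_LocStep {κ : Type} [Fintype κ] {f : κ → ι → E N → ℝ}
    (h : ∀ i, UB_LocStep k (f i)) : ∃ C : ℝ, 0 ≤ C ∧ ∀ i d, HB k C (f i d) := by
  choose C h0 hC using h
  exact ⟨∑ i, C i, Finset.sum_nonneg (fun i _ => h0 i), fun i d =>
    (hC i d).mono (Finset.single_le_sum (fun i _ => h0 i) (Finset.mem_univ i))⟩

theorem ub_succ_LocStep (hd : ∀ d, Differentiable ℝ (F d)) (h0 : UB_LocStep 0 F)
    (h : ∀ i, UB_LocStep k (fun d => pd i (F d))) : UB_LocStep (k + 1) F := by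
  obtain ⟨C, hC0, hC⟩ := h0
  obtain ⟨D, hD0, hD⟩ := ub_fin_LocStep h
  refine ⟨C + D, by positivity, fun d => ⟨hd d, fun x => ?_, fun i => ?_⟩⟩
  · exact ((hC d).bound x).trans (by linarith)
  · exact (hD i d).mono (by linarith)

end UBsec

theorem ev_ball_LocStep {N : ℕ} {a x : E N} {r : ℝ} (hx : ‖x - a‖ < r) :
    ∀ᶠ y in 𝓝 x, ‖y - a‖ ≤ r := by
  have hc : Continuous (fun y : E N => ‖y - a‖) := by fun_prop
  exact (hc.continuousAt.eventually (gt_mem_nhds hx)).mono (fun y hy => le_of_lt hy)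

theorem ev_out_LocStep {N : ℕ} {a x : E N} {r : ℝ} (hx : r < ‖x - a‖) :
    ∀ᶠ y in 𝓝 x, r ≤ ‖y - a‖ := by
  have hc : Continuous (fun y : E N => ‖y - a‖) := by fun_prop
  exact (hc.continuousAt.eventually (lt_mem_nhds hx)).mono (fun y hy => le_of_lt hy)

theorem hess_mul_LocStep {N : ℕ} {z p : E N → ℝ} {x : E N} (hz : ContDiffAt ℝ 2 z x)
    (hp : ContDiffAt ℝ 2 p x) (l i : Fin N) :
    hess (fun y => z y * p y) x l i = pd l (pd i z) x * p x + pd l z x * pd i p x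
      + pd i z x * pd l p x + z x * hess p x l i := by
  have h := qf_hess_mul hz hp (Pi.single l 1) (Pi.single i 1)
  rw [qf_single, qf_single, qf_single] at h
  exact h

/-- the differentiated equation -/
theorem diff_eq_LocStep {N : ℕ} {G : E N → ℝ} {x : E N} (hG : ContDiffAt ℝ 3 G x)
    (hp : (hess G x).PosDef) (he : ∀ᶠ y in 𝓝 x, ldet G y = 2 * G y) (k : Fin N) :
    ((hess G x)⁻¹ * hess (pd k G) x).trace = 2 * pd k G x := by
  have h1 : hess (pd k G) x = d3 G x (Pi.single k 1) := hess_dd hG _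
  have h2 : ldet G =ᶠ[𝓝 x] (fun y => 2 * G y) := he
  rw [h1, ← dd_ldet hG hp, (dd_congr h2 _).eq_of_nhds, dd_const_mul]
  rfl

/-- the equation satisfied by the localised derivative -/
theorem op_eq_LocStep {N : ℕ} {r c : ℝ} (hr : 0 < r) (hc : 0 < c) {a : E N} {G u z : E N → ℝ}
    {b : E N → Mat N} (hG : ContDiff ℝ 5 G) (hz : ContDiff ℝ 7 z)
    (he : ∀ x, ‖x - a‖ ≤ r → ldet G x = 2 * G x ∧ ∀ v, c * (v ⬝ᵥ v) ≤ qf (hess G x) v v)
    (hu : ∀ x, ‖x - a‖ ≤ r → u x = G x) (hz0 : ∀ x, 2 * (r / 7) ≤ ‖x - a‖ → z x = 0)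
    (hb : ∀ x, ‖x - a‖ ≤ r / 3 → b x = (hess G x)⁻¹) (k : Fin N) (x : E N) :
    op b (fun y => z y * pd k G y) x = ∑ i, ∑ l, b x i l * (pd l (pd i z) x * pd k u x
      + pd l z x * pd i (pd k u) x + pd i z x * pd l (pd k u) x) := by
  have hz2 : ContDiffAt ℝ 2 z x := (hz.of_le (by norm_num)).contDiffAt
  have hp4 : ContDiff ℝ (4 : ℕ) (pd k G) := contDiff_pd (k := 4) hG k
  have hp2 : ContDiffAt ℝ 2 (pd k G) x := (hp4.of_le (by norm_num)).contDiffAt
  have htr : (b x * hess (fun y => z y * pd k G y) x).trace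
      = ∑ i, ∑ l, b x i l * (pd l (pd i z) x * pd k G x
        + pd l z x * pd i (pd k G) x + pd i z x * pd l (pd k G) x)
        + z x * (b x * hess (pd k G) x).trace := by
    simp only [Matrix.trace, Matrix.diag, Matrix.mul_apply, hess_mul_LocStep hz2 hp2,
      Finset.mul_sum, ← Finset.sum_add_distrib]
    refine Finset.sum_congr rfl (fun i _ => Finset.sum_congr rfl (fun l _ => ?_))
    ring
  unfold op
  rw [htr]
  rcases le_or_gt ‖x - a‖ (r / 3) with hx | hx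
  · have hxr : ‖x - a‖ < r := by linarith
    have hev := ev_ball_LocStep hxr
    have huG : u =ᶠ[𝓝 x] G := hev.mono (fun y hy => hu y hy)
    have hG3 : ContDiffAt ℝ 3 G x := (hG.of_le (by norm_num)).contDiffAt
    have hG2 : ContDiffAt ℝ 2 G x := (hG.of_le (by norm_num)).contDiffAt
    have hp : (hess G x).PosDef := posDef_of_ell (hess_symm hG2) hc (he x hxr.le).2
    have h1 := diff_eq_LocStep hG3 hp (hev.mono (fun y hy => (he y hy).1)) k
    have h2 : pd k u x = pd k G x := (pd_congr huG k).eq_of_nhds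
    have h3 : ∀ i, pd i (pd k u) x = pd i (pd k G) x := fun i =>
      (pd_congr (pd_congr huG k) i).eq_of_nhds
    simp only [h2, h3]
    rw [← hb x hx] at h1
    rw [h1]
    ring
  · have hxr : 2 * (r / 7) < ‖x - a‖ := by linarith
    have hev : z =ᶠ[𝓝 x] (fun _ => 0) := (ev_out_LocStep hxr).mono (fun y hy => hz0 y hy)
    have h0 : z x = 0 := hev.eq_of_nhds
    have h1' : ∀ i, pd i z =ᶠ[𝓝 x] (fun _ => 0) := fun i =>
      (pd_congr hev i).trans (Eventually.of_forall (fun y => dd_const 0 _ y))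
    have h1 : ∀ i, pd i z x = 0 := fun i => (h1' i).eq_of_nhds
    have h2 : ∀ l i, pd l (pd i z) x = 0 := fun l i =>
      ((pd_congr (h1' i) l).eq_of_nhds).trans (dd_const 0 _ x)
    simp [h0, h1, h2]

/-- the glued coefficient matrix is elliptic -/
theorem ell_LocStep {N : ℕ} {r c : ℝ} (hr : 0 < r) {a : E N} {G u z : E N → ℝ}
    (hu2 : ContDiff ℝ 2 u)
    (he : ∀ x, ‖x - a‖ ≤ r → ∀ v, c * (v ⬝ᵥ v) ≤ qf (hess G x) v v)
    (hu : ∀ x, ‖x - a‖ ≤ r → u x = G x) (hz : ∀ x, 0 ≤ z x ∧ z x ≤ 1)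
    (hz0 : ∀ x, 2 * (r / 3) ≤ ‖x - a‖ → z x = 0) :
    Ell (min c 1) (fun x => z x • hess u x + (1 - z x) • (1 : Mat N)) := by
  intro x
  refine ⟨((hess_symm hu2.contDiffAt).smul _).add (Matrix.isSymm_one.smul _), fun v => ?_⟩
  have hv := dot_self_nonneg' v
  have hm1 : min c 1 * (v ⬝ᵥ v) ≤ v ⬝ᵥ v := by
    have := mul_le_mul_of_nonneg_right (min_le_right c 1) hv
    linarith
  rw [qf_add, qf_smul, qf_smul, qf_one]
  rcases lt_or_ge ‖x - a‖ r with hx | hx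
  · have huG : u =ᶠ[𝓝 x] G := (ev_ball_LocStep hx).mono (fun y hy => hu y hy)
    rw [(hess_congr huG).eq_of_nhds]
    have h1 := he x hx.le v
    have hm2 : min c 1 * (v ⬝ᵥ v) ≤ c * (v ⬝ᵥ v) :=
      mul_le_mul_of_nonneg_right (min_le_left c 1) hv
    have h2 := mul_le_mul_of_nonneg_left (hm2.trans h1) (hz x).1
    have h3 := mul_le_mul_of_nonneg_left hm1 (sub_nonneg.2 (hz x).2)
    nlinarith
  · rw [hz0 x (by linarith)]
    simpa using hm1

theorem sLocStep (hSch : SchStmt) : LocStepStmt := by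
  intro N j r c K hj hr hc
  obtain ⟨C1, -, hC1⟩ := exists_cutoff N j (r := r / 3) (by positivity)
  obtain ⟨C2, -, hC2⟩ := exists_cutoff N (j + 3) (r := r / 7) (by positivity)
  choose z1 _ hz1b hz1m hz11 hz10 using hC1
  choose z2 hz2s hz2b _ hz21 hz20 using hC2
  let ι : Type := {d : E N × (E N → ℝ) × (E N → ℝ) // ContDiff ℝ 5 d.2.1 ∧
    (∀ x, ‖x - d.1‖ ≤ r → ldet d.2.1 x = 2 * d.2.1 x ∧
      ∀ v, c * (v ⬝ᵥ v) ≤ qf (hess d.2.1 x) v v) ∧ HB (j + 2) K d.2.2 ∧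
      ∀ x, ‖x - d.1‖ ≤ r → d.2.2 x = d.2.1 x}
  have hU : UB_LocStep (j + 2) (fun d : ι => d.1.2.2) := ub_of_LocStep (fun d => d.2.2.2.1)
  have hZ1 : UB_LocStep j (fun d : ι => z1 d.1.1) := ub_of_LocStep (fun d => hz1b _)
  have hZ2 : UB_LocStep (j + 3) (fun d : ι => z2 d.1.1) := ub_of_LocStep (fun d => hz2b _)
  have hu2 : ∀ d : ι, ContDiff ℝ 2 d.1.2.2 := fun d =>
    d.2.2.2.1.contDiff.of_le (by exact_mod_cast Nat.le_add_left 2 j)
  let g : ι → E N → Mat N := fun d x =>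
    z1 d.1.1 x • hess d.1.2.2 x + (1 - z1 d.1.1 x) • (1 : Mat N)
  have hgE : ∀ d, Ell (min c 1) (g d) := fun d =>
    ell_LocStep hr (hu2 d) (fun x hx => (d.2.2.1 x hx).2) d.2.2.2.2 (hz1m _) (hz10 _)
  have hgU : ∀ p : Fin N × Fin N, UB_LocStep j (fun d x => g d x p.1 p.2) := fun p =>
    ub_add_LocStep (ub_mul_LocStep hZ1 (ub_pd_LocStep (ub_pd_LocStep hU p.2) p.1))
      (ub_mul_LocStep (ub_sub_LocStep (ub_const_LocStep 1) hZ1)
        (ub_const_LocStep ((1 : Mat N) p.1 p.2)))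
  obtain ⟨Kg, -, hKg⟩ := ub_fin_LocStep hgU
  have hc1 : 0 < min c 1 := lt_min hc one_pos
  obtain ⟨Ki, -, hKi⟩ := HBM_inv N j (min c 1) Kg hc1
  have hbH : ∀ d, HBM j Ki (fun x => (g d x)⁻¹) := fun d =>
    (hKi (g d) (fun i l => hKg (i, l) d) (hgE d)).1
  have hbE : ∀ d, Ell (1 / (N * |Kg| + 1)) (fun x => (g d x)⁻¹) := fun d x => by
    have h := inv_ell (hgE d x).1 hc1 (hgE d x).2 (fun i l => (hKg (i, l) d).bound x)
    exact ⟨h.1, h.2.1⟩
  have hbU : ∀ i l, UB_LocStep j (fun d x => (g d x)⁻¹ i l) := fun i l =>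
    ub_of_LocStep (fun d => hbH d i l)
  have hbG : ∀ (d : ι) x, ‖x - d.1.1‖ ≤ r / 3 → (g d x)⁻¹ = (hess d.1.2.1 x)⁻¹ := by
    intro d x hx
    have huG : d.1.2.2 =ᶠ[𝓝 x] d.1.2.1 :=
      (ev_ball_LocStep (show ‖x - d.1.1‖ < r by linarith)).mono (fun y hy => d.2.2.2.2 y hy)
    simp only [g, hz11 _ x hx, (hess_congr huG).eq_of_nhds, one_smul, sub_self, zero_smul,
      add_zero]
  obtain ⟨CS, -, hCS⟩ := hSch j N (1 / (N * |Kg| + 1)) Ki (by positivity)
  have hwe : ∀ (d : ι) (k : Fin N), (fun x => z2 d.1.1 x * pd k d.1.2.2 x)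
      = fun x => z2 d.1.1 x * pd k d.1.2.1 x := by
    intro d k
    funext x
    rcases lt_or_ge ‖x - d.1.1‖ r with hx | hx
    · have huG : d.1.2.2 =ᶠ[𝓝 x] d.1.2.1 :=
        (ev_ball_LocStep hx).mono (fun y hy => d.2.2.2.2 y hy)
      rw [(pd_congr huG k).eq_of_nhds]
    · rw [hz20 _ x (by linarith), zero_mul, zero_mul]
  have hW : ∀ k : Fin N, UB_LocStep (j + 2) (fun (d : ι) x => z2 d.1.1 x * pd k d.1.2.2 x) := by
    intro k
    have hP := ub_pd_LocStep hU k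
    have hF : UB_LocStep j (fun (d : ι) x => ∑ i, ∑ l, (g d x)⁻¹ i l *
        (pd l (pd i (z2 d.1.1)) x * pd k d.1.2.2 x + pd l (z2 d.1.1) x * pd i (pd k d.1.2.2) x
          + pd i (z2 d.1.1) x * pd l (pd k d.1.2.2) x)) :=
      ub_sum_LocStep (fun i => ub_sum_LocStep (fun l => ub_mul_LocStep (hbU i l)
        (ub_add_LocStep (ub_add_LocStep
          (ub_mul_LocStep (ub_lower_LocStep (ub_pd_LocStep (ub_pd_LocStep hZ2 i) l) (by omega))
            (ub_lower_LocStep hP (by omega)))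
          (ub_mul_LocStep (ub_lower_LocStep (ub_pd_LocStep hZ2 l) (by omega))
            (ub_pd_LocStep hP i)))
          (ub_mul_LocStep (ub_lower_LocStep (ub_pd_LocStep hZ2 i) (by omega))
            (ub_pd_LocStep hP l)))))
    obtain ⟨M, -, hM⟩ := hF
    refine ub_of_LocStep (C := CS * M) (fun d => ?_)
    rw [hwe d k]
    refine hCS _ _ M (hbE d) (hbH d) ?_ ?_
    · have hp4 : ContDiff ℝ (4 : ℕ) (pd k d.1.2.1) := contDiff_pd (k := 4) d.2.1 k
      obtain ⟨M', hM'⟩ := HB_of_compact (k := 3) (K := Metric.closedBall d.1.1 r)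
        (u := fun x => z2 d.1.1 x * pd k d.1.2.1 x) (isCompact_closedBall _ _)
        (((hz2s _).of_le (by norm_num)).mul hp4) (fun x hx => by
          rw [mem_closedBall_iff_norm, not_le] at hx
          rw [hz20 _ x (by linarith), zero_mul])
      exact ⟨_, hM'.lower_le (by omega)⟩
    · have h := funext (op_eq_LocStep hr hc d.2.1 (hz2s _) d.2.2.1 d.2.2.2.2 (hz20 _) (hbG d) k)
      rw [h]
      exact hM d
  have hzd : ∀ d : ι, Differentiable ℝ (z2 d.1.1) := fun d =>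
    (hz2s _).differentiable (by norm_num)
  have hud : ∀ d : ι, Differentiable ℝ d.1.2.2 := fun d => (hu2 d).differentiable (by norm_num)
  have hfin : UB_LocStep (j + 2 + 1) (fun (d : ι) x => z2 d.1.1 x * d.1.2.2 x) := by
    refine ub_succ_LocStep (fun d => (hzd d).mul (hud d))
      (ub_mul_LocStep (ub_lower_LocStep hZ2 (by omega)) (ub_lower_LocStep hU (by omega)))
      (fun k => ?_)
    have h : (fun d : ι => pd k (fun x => z2 d.1.1 x * d.1.2.2 x))
        = fun (d : ι) x => pd k (z2 d.1.1) x * d.1.2.2 x + z2 d.1.1 x * pd k d.1.2.2 x := by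
      funext d x
      exact dd_mul (hzd d x) (hud d x) _
    rw [h]
    exact ub_add_LocStep (ub_mul_LocStep (ub_pd_LocStep hZ2 k) hU) (hW k)
  obtain ⟨C, -, hC⟩ := hfin
  refine ⟨C, fun a G hG he hL => ?_⟩
  obtain ⟨u, hu, huG⟩ := hL
  refine ⟨fun x => z2 a x * u x, hC ⟨(a, G, u), hG, he, hu, huG⟩, fun x hx => ?_⟩
  show z2 a x * u x = G x
  rw [hz21 a x (by linarith), one_mul, huG x (by linarith)]

end Pool.Agent.MP_5f4cdd_gt.CB
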