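import Pool.Agent.MP_5f4cdd_gt.CB.Api

set_option autoImplicit false
open MeasureTheory Matrix Set Filter Topology

namespace Pool.Agent.MP_5f4cdd_gt.CB

theorem up_MP {N : ℕ} {a : E N → Mat N} {u : E N → ℝ} {K M B : ℝ} (ha : Ell 0 a)
    (hK : ∀ x i j, |a x i j| ≤ K) (hu : ContDiff ℝ 2 u) (hB : ∀ x, |u x| ≤ B)
    (hM : ∀ x, |op a u x| ≤ M) (y : E N) : u y ≤ M / 2 := by
  refine le_of_forall_pos_le_add fun δ hδ => ?_
  have hc : 0 < 1 + N * |K| := by positivity
  obtain ⟨x, h1, h2⟩ := approxMax hu ⟨B, by rintro _ ⟨z, rfl⟩; exact (le_abs_self _).trans (hB z)⟩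
    (div_pos hδ hc)
  have h3 := trace_psd_mono (M := hess u x) (X := (δ / (1 + N * |K|)) • (1 : Mat N)) (ha x).1
    (fun v => by simpa using (ha x).2 v) fun v => by rw [qf_smul, qf_one]; exact h2 v
  rw [Matrix.mul_smul, Matrix.mul_one, Matrix.trace_smul, smul_eq_mul] at h3
  have h4 : (a x).trace ≤ N * |K| := by
    refine (Finset.sum_le_card_nsmul _ _ |K| fun i _ =>
      (le_abs_self _).trans ((hK x i i).trans (le_abs_self K))).trans_eq ?_
    simp
  have h5 := (abs_le.1 (hM x)).1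
  have h6 := h1 y
  have h7 : δ / (1 + N * |K|) * (1 + N * |K|) = δ := div_mul_cancel₀ _ hc.ne'
  have h8 := mul_le_mul_of_nonneg_left h4 (div_pos hδ hc).le
  have h9 : 0 ≤ δ / (1 + N * |K|) * (N * |K|) := by positivity
  unfold op at h5
  linarith

theorem sMP : MPStmt := by
  intro N a u K M B ha hK hu hB hM x
  refine abs_le.2 ⟨?_, up_MP ha hK hu hB hM x⟩
  have h := up_MP (u := fun y => -1 * u y) (M := M) (B := B) ha hK (contDiff_const.mul hu)
    (fun y => by simpa using hB y) (fun y => ?_) x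
  · linarith
  · have e : op a (fun y => -1 * u y) y = -op a u y := by
      unfold op
      rw [hess_const_mul, Matrix.mul_smul, Matrix.trace_smul, smul_eq_mul]
      ring
    rw [e, abs_neg]
    exact hM y

end Pool.Agent.MP_5f4cdd_gt.CB
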