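import Pool.Agent.MP_5f4cdd_gt.CB.Api

set_option autoImplicit false
open MeasureTheory Matrix Set Filter Topology

namespace Pool.Agent.MP_5f4cdd_gt.CB

variable {N : ℕ} {W : Set (E N)} {b0 b β : E N} {G : E N → ℝ}

theorem PP_smul_Main (G : E N → ℝ) (b β y : E N) (a : ℝ) :
    PP G (a • b) (a • β) y = a * PP G b β y := by
  rw [PP, PP, smul_dotProduct, smul_dotProduct, smul_eq_mul, smul_eq_mul, mul_add]

theorem Ex_mul_Main (W : Set (E N)) (G : E N → ℝ) (b β : E N) (φ : E N → ℝ) (a : ℝ) :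
    Ex W G b β (fun y => a * φ y) = a * Ex W G b β φ := by
  simp only [Ex, mul_assoc, integral_const_mul, mul_div_assoc]

theorem le_Ex_Main (hGeo3 : Geo3Stmt) (hN : 0 < N) (hW : PC W b0) (hG : Bar W G) (hb : b ∈ oV W)
    (hβ : β ∈ iW W) {a c : ℝ} (ha : 0 < a) (hc : ∀ y ∈ oV W, c ≤ PP G b β y) :
    c ≤ Ex W G (a • b) (a • β) (PP G b β) := by
  obtain ⟨h1, -⟩ := hGeo3 N W b0 G hN hW hG b hb β hβ
  obtain ⟨-, -, h3, h4, -⟩ := hGeo3 N W b0 G hN hW hG _ (oV_smul hb ha) _ (iW_smul hW hβ ha)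
  have i1 := h3 (fun _ => c) continuousOn_const ⟨|c|, 0, fun y _ => by simp⟩
  have i2 := h3 (PP G b β) (fun y hy => (h1 y hy).2.continuousAt.continuousWithinAt)
    ⟨a⁻¹, 1, fun y hy => by
      rw [abs_of_pos (h1 y hy).1, pow_one, PP_smul_Main, mul_add, inv_mul_cancel_left₀ ha.ne']
      have : 0 < a⁻¹ * 1 := by positivity
      linarith⟩
  rw [Ex, le_div_iff₀ h4, ZZ, ← integral_const_mul]
  exact setIntegral_mono_on i1 i2 (isOpen_oV W).measurableSet fun y hy =>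
    mul_le_mul_of_nonneg_right (hc y hy) (Real.exp_pos _).le

theorem fin_Main (hCs : CsStmt) (hN : 0 < N) (hW : PC W b0) (hG : Bar W G) (hb : b ∈ oV W)
    (hβ : β ∈ iW W) {a r : ℝ} (ha : 0 < a)
    (h : r ≤ (2 * a) ^ N * (2 * a) ^ N * ZZ W G (a • b) (a • β) ^ 2) :
    ENNReal.ofReal r ≤ (∫⁻ η in W, ENNReal.ofReal (Real.exp (-(b ⬝ᵥ η))))
      * ∫⁻ y in oV W, ENNReal.ofReal (Real.exp (-(β ⬝ᵥ y))) := by
  have h2 : 0 < 2 * a := by positivity
  have h1 := hCs N W b0 G hN hW hG _ (oV_smul hb ha) _ (iW_smul hW hβ ha)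
  have cone : ∀ C : Set (E N), (∀ η ∈ C, ∀ t : ℝ, 0 < t → t • η ∈ C) →
      ∀ η, ∀ t : ℝ, 0 < t → (t • η ∈ C ↔ η ∈ C) := fun C hC η t ht =>
    ⟨fun k => by simpa [smul_smul, inv_mul_cancel₀ ht.ne'] using hC _ k t⁻¹ (inv_pos.2 ht),
      fun k => hC η k t ht⟩
  rw [smul_smul, smul_smul, lintegral_cone_smul (cone W fun η k t ht => hW.smul η k t ht.le)
    hW.closed.measurableSet b h2, lintegral_cone_smul (cone _ fun η k t ht => oV_smul k ht)
    (isOpen_oV W).measurableSet β h2] at h1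
  have h3 : 0 < (2 * a) ^ N := pow_pos h2 N
  have h4 : ENNReal.ofReal ((2 * a) ^ N) * ENNReal.ofReal ((2 * a) ^ N)⁻¹ = 1 := by
    rw [← ENNReal.ofReal_mul h3.le, mul_inv_cancel₀ h3.ne', ENNReal.ofReal_one]
  refine (ENNReal.ofReal_le_ofReal h).trans ?_
  rw [ENNReal.ofReal_mul (by positivity), ENNReal.ofReal_mul h3.le]
  refine (mul_le_mul_right h1 _).trans_eq ?_
  have h5 : ∀ x : ENNReal, ENNReal.ofReal ((2 * a) ^ N) * (ENNReal.ofReal ((2 * a) ^ N)⁻¹ * x) = x :=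
    fun x => by rw [← mul_assoc, h4, one_mul]
  rw [mul_mul_mul_comm, h5, h5]

theorem sMain (hBar : BarStmt) (hGeo1 : Geo1Stmt) (hGeo3 : Geo3Stmt) (hStage1 : Stage1Stmt)
    (hNum1 : Num1Stmt) (hNum2 : Num2Stmt) (hVar : VarStmt) (hDer : DerStmt) (hCs : CsStmt) :
    MainStmt := by
  have _ := hGeo1
  intro N W b0 hN hW b hb β hβ hbβ
  obtain ⟨G, hG⟩ := hBar N W b0 hN hW
  obtain ⟨h1, -, -, -, -, h6⟩ := hGeo3 N W b0 G hN hW hG b hb β hβ
  obtain ⟨y0, hy0, hmin, hle⟩ := h6 hbβ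
  have n0 : (0 : ℝ) < N := Nat.cast_pos.2 hN
  have p0 := (h1 y0 hy0).1
  have e0 : 2 * (PP G b β y0 / (2 * N)) = PP G b β y0 / N := by field_simp
  obtain ⟨a, ha, h⟩ := hNum2 (fun a => Real.log (ZZ W G (a • b) (a • β)) / N)
    (fun a => Ex W G (a • b) (a • β) (PP G b β) / N)
    (fun a => (Ex W G (a • b) (a • β) (fun y => PP G b β y ^ 2)
      - Ex W G (a • b) (a • β) (PP G b β) ^ 2) / N) (PP G b β y0 / (2 * N)) (by positivity)
    ((div_le_one (by positivity)).2 hle)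
    (fun a ha => by
      obtain ⟨d1, d2⟩ := hDer N W b0 G hN hW hG 0 (fun ζ _ => by simp) 0 hW.zero_mem b hb β hβ a ha
      simp only [zero_add] at d1 d2
      refine ⟨by rw [← neg_div]; exact d1.div_const _, by rw [← neg_div]; exact d2.div_const _,
        ?_, ?_⟩
      · rw [e0]
        exact div_le_div_of_nonneg_right (le_Ex_Main hGeo3 hN hW hG hb hβ ha hmin) n0.le
      · have v := (hVar N W b0 G hN hW hG _ (oV_smul hb ha) _ (iW_smul hW hβ ha)).2.2 b
          (oV_subset_cV W hb) β hβ.1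
        rw [show PP G (a • b) (a • β) = fun y => a * PP G b β y from
          funext fun y => PP_smul_Main G b β y a, Ex_mul_Main, smul_dotProduct, dotProduct_smul,
          hbβ, smul_eq_mul, smul_eq_mul] at v
        rw [div_pow]
        refine (div_le_div_of_nonneg_right v (sq_nonneg (N : ℝ))).trans_eq ?_
        field_simp)
    (fun lam v hl hv => by
      rw [e0, mul_comm]
      exact hStage1 N W b0 G hN hW hG b hb β hβ hbβ y0 hy0 hle lam _ hl (hNum1 lam v hl hv))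
  refine fin_Main hCs hN hW hG hb hβ ha ?_
  have z0 := (hGeo3 N W b0 G hN hW hG _ (oV_smul hb ha) _ (iW_smul hW hβ ha)).2.2.2.1
  rw [← Real.log_le_log_iff (by positivity) (by positivity), Real.log_mul (by positivity)
    (by positivity), Real.log_mul (by positivity) (by positivity), Real.log_pow, Real.log_pow,
    Real.log_pow]
  refine (mul_le_mul_of_nonneg_left h n0.le).trans_eq ?_
  push_cast
  field_simp
  ring

end Pool.Agent.MP_5f4cdd_gt.CB
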