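import Pool.Agent.MP_5f4cdd_gt.CB.Api

set_option autoImplicit false
open MeasureTheory Matrix Set Filter Topology

namespace Pool.Agent.MP_5f4cdd_gt.CB
variable {N : ℕ}

lemma cont_Mom1 (A : Mat N) (η0 : E N) : Continuous fun η : E N => A⁻¹ *ᵥ (η - η0) := by
  fun_prop

lemma map_Mom1 {A : Mat N} (hA : A.det ≠ 0) (η0 : E N) :
    Measure.map (fun η : E N => A⁻¹ *ᵥ (η - η0)) volume
      = ENNReal.ofReal |A.det| • (volume : Measure (E N)) := by
  have h1 : A⁻¹.det = A.det⁻¹ := by rw [Matrix.det_nonsing_inv, Ring.inverse_eq_inv']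
  have h2 := Real.map_matrix_volume_pi_eq_smul_volume_pi (M := A⁻¹) (by rw [h1]; exact inv_ne_zero hA)
  rw [h1, inv_inv] at h2
  have h3 : Measure.map (fun η : E N => η - η0) volume = volume :=
    (measurePreserving_sub_right volume η0).map_eq
  have h4 : Measurable (Matrix.toLin' A⁻¹ : E N → E N) :=
    (LinearMap.continuous_of_finiteDimensional _).measurable
  rw [← h2]
  conv_rhs => rw [← h3, Measure.map_map h4 (by fun_prop)]
  rfl

/-- affine change of variables -/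
lemma cov_Mom1 {A : Mat N} (hA : A.det ≠ 0) (η0 : E N) {φ : E N → ℝ} (hφ : Integrable φ) :
    Integrable (fun η : E N => φ (A⁻¹ *ᵥ (η - η0))) ∧
      ∫ η : E N, φ (A⁻¹ *ᵥ (η - η0)) = |A.det| * ∫ ζ, φ ζ := by
  have hm := (cont_Mom1 A η0).measurable.aemeasurable (μ := volume)
  have h1 : Integrable φ (Measure.map (fun η : E N => A⁻¹ *ᵥ (η - η0)) volume) := by
    rw [map_Mom1 hA]; exact hφ.smul_measure ENNReal.ofReal_ne_top
  refine ⟨(integrable_map_measure h1.1 hm).1 h1, ?_⟩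
  rw [← integral_map hm h1.1, map_Mom1 hA, integral_smul_measure,
    ENNReal.toReal_ofReal (abs_nonneg _), smul_eq_mul]

lemma int_exp_Mom1 (N : ℕ) : Integrable fun ζ : E N => Real.exp (-(‖ζ‖ / 2)) := by
  have h := (integrable_one_add_norm (E := E N) (μ := volume) (r := ((N + 1 : ℕ) : ℝ))
    (by simp)).const_mul (Real.exp (1 / 2) * ((N + 1).factorial * 2 ^ (N + 1)))
  refine h.mono' (by fun_prop) (Eventually.of_forall fun ζ => ?_)
  have h0 : 0 < 1 + ‖ζ‖ := by positivity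
  have h1 := Real.pow_div_factorial_le_exp ((1 + ‖ζ‖) / 2) (by positivity) (N + 1)
  rw [Real.norm_eq_abs, abs_of_pos (Real.exp_pos _), Real.rpow_neg h0.le, Real.rpow_natCast,
    ← div_eq_mul_inv, le_div_iff₀ (by positivity)]
  rw [div_le_iff₀ (by positivity), div_pow, div_le_iff₀ (by positivity)] at h1
  calc _ ≤ Real.exp (-(‖ζ‖ / 2)) * (Real.exp ((1 + ‖ζ‖) / 2) * (N + 1).factorial * 2 ^ (N + 1)) := by
        gcongr
    _ = Real.exp (-(‖ζ‖ / 2)) * Real.exp ((1 + ‖ζ‖) / 2) * ((N + 1).factorial * 2 ^ (N + 1)) := by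
        ring
    _ = _ := by rw [← Real.exp_add]; congr 2; ring

lemma back_Mom1 {A : Mat N} (hA : A.det ≠ 0) (η0 η : E N) :
    η0 + A *ᵥ (A⁻¹ *ᵥ (η - η0)) = η := by
  rw [Matrix.mulVec_mulVec, Matrix.mul_nonsing_inv _ (Ne.isUnit hA), Matrix.one_mulVec]
  abel

lemma cube_Mom1 {S : Set (E N)} {y η0 : E N} {A : Mat N} (h : Nrm S y η0 A) {η : E N}
    (hη : A⁻¹ *ᵥ (η - η0) ∈ Icc (0 : E N) fun _ => 1 / ((N : ℝ) + 1)) :
    η ∈ S ∧ y ⬝ᵥ (η - η0) ≤ 1 := by
  have h1 : ∑ i, (A⁻¹ *ᵥ (η - η0)) i ≤ 1 := by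
    refine (Finset.sum_le_sum fun i _ => hη.2 i).trans ?_
    simp only [Finset.sum_const, Finset.card_univ, Fintype.card_fin, nsmul_eq_mul]
    rw [mul_one_div, div_le_one (by positivity)]
    linarith
  have h2 := h.inner _ hη.1 h1
  have h3 := back_Mom1 h.det η0 η
  rw [h3, eq_sub_of_add_eq' h3] at h2
  exact h2

lemma outer_Mom1 {S : Set (E N)} {y η0 : E N} {A : Mat N} (h : Nrm S y η0 A) {η : E N}
    (hη : η ∈ S) : ‖A⁻¹ *ᵥ (η - η0)‖ ≤ y ⬝ᵥ (η - η0) + 1 :=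
  (h.outer η hη).trans (max_le (by linarith [h.nonneg η hη]) (by linarith))

lemma room_Mom1 {S : Set (E N)} {y η0 : E N} {A : Mat N} (hS : MeasurableSet S)
    (h : Nrm S y η0 A) : Room S y := by
  obtain ⟨L, hL, hb⟩ := (LinearMap.toContinuousLinearMap (Matrix.toLin' A)).bound
  refine ⟨1 / (2 * L), by positivity, ?_⟩
  have hi := ((cov_Mom1 h.det η0 (int_exp_Mom1 N)).1.const_mul
    (Real.exp (-(y ⬝ᵥ η0) + 1 / (2 * L) * ‖η0‖ + 1))).integrableOn (s := S)
  refine hi.mono' (by fun_prop) ((ae_restrict_iff' hS).2 (Eventually.of_forall fun η hη => ?_))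
  rw [Real.norm_eq_abs, abs_of_pos (Real.exp_pos _), ← Real.exp_add]
  refine Real.exp_le_exp.2 ?_
  have h1 := outer_Mom1 h hη
  have h2 : ‖η‖ ≤ ‖η0‖ + L * ‖A⁻¹ *ᵥ (η - η0)‖ := by
    conv_lhs => rw [← back_Mom1 h.det η0 η]
    exact (norm_add_le _ _).trans (add_le_add le_rfl (hb _))
  have h3 : 1 / (2 * L) * ‖η‖ ≤ 1 / (2 * L) * ‖η0‖ + ‖A⁻¹ *ᵥ (η - η0)‖ / 2 :=
    calc _ ≤ 1 / (2 * L) * (‖η0‖ + L * ‖A⁻¹ *ᵥ (η - η0)‖) := by gcongr
      _ = _ := by field_simp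
  rw [dotProduct_sub] at h1
  linarith

theorem sMom1 : Mom1Stmt := by
  intro N
  have hI : 0 ≤ ∫ ζ : E N, Real.exp (-(‖ζ‖ / 2)) := integral_nonneg fun _ => (Real.exp_pos _).le
  refine ⟨Real.exp (-1) * (1 / ((N : ℝ) + 1)) ^ N,
    Real.exp 1 * (∫ ζ : E N, Real.exp (-(‖ζ‖ / 2))) + 1, by positivity, by positivity, ?_⟩
  intro S y η0 A hS h
  have hP : Phi S y * Real.exp (y ⬝ᵥ η0) = ∫ η in S, Real.exp (-(y ⬝ᵥ (η - η0))) := by
    rw [Phi, LapW, ← integral_mul_const]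
    refine integral_congr_ae (Eventually.of_forall fun η => ?_)
    simp only [one_mul]
    rw [← Real.exp_add, dotProduct_sub]; congr 1; ring
  have hc := cov_Mom1 h.det η0 (int_exp_Mom1 N)
  have hb : ∀ η ∈ S, Real.exp (-(y ⬝ᵥ (η - η0)))
      ≤ Real.exp 1 * Real.exp (-(‖A⁻¹ *ᵥ (η - η0)‖ / 2)) := fun η hη => by
    rw [← Real.exp_add]
    refine Real.exp_le_exp.2 ?_
    linarith [outer_Mom1 h hη, norm_nonneg (A⁻¹ *ᵥ (η - η0))]
  have hi2 := (hc.1.const_mul (Real.exp 1)).integrableOn (s := S)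
  have hi : IntegrableOn (fun η => Real.exp (-(y ⬝ᵥ (η - η0)))) S :=
    hi2.mono' (by fun_prop) ((ae_restrict_iff' hS).2 (Eventually.of_forall fun η hη => by
      rw [Real.norm_eq_abs, abs_of_pos (Real.exp_pos _)]; exact hb η hη))
  refine ⟨room_Mom1 hS h, ?_, ?_, ?_⟩
  · have ho : IsOpen {η : E N | ∀ i, (A⁻¹ *ᵥ (η - η0)) i ∈ Ioo (0 : ℝ) (1 / ((N : ℝ) + 1))} := by
      rw [Set.ofPred_forall]
      exact isOpen_iInter_of_finite fun i =>
        isOpen_Ioo.preimage ((continuous_apply i).comp (cont_Mom1 A η0))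
    refine ⟨η0 + A *ᵥ fun _ => 1 / ((N : ℝ) + 1) / 2, interior_maximal (fun η hη =>
      (cube_Mom1 h ⟨fun i => (hη i).1.le, fun i => (hη i).2.le⟩).1) ho fun i => ?_⟩
    rw [add_sub_cancel_left, Matrix.mulVec_mulVec, Matrix.nonsing_inv_mul _ (Ne.isUnit h.det),
      Matrix.one_mulVec]
    have : (0 : ℝ) < 1 / ((N : ℝ) + 1) := by positivity
    exact ⟨by positivity, by linarith⟩
  · have hq : Integrable ((Icc (0 : E N) fun _ => 1 / ((N : ℝ) + 1)).indicator
        fun _ => Real.exp (-1)) :=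
      (integrable_indicator_iff measurableSet_Icc).2 (integrableOn_const measure_Icc_lt_top.ne)
    have h2 := cov_Mom1 h.det η0 hq
    have hpos : (0 : ℝ) ≤ 1 / ((N : ℝ) + 1) := by positivity
    rw [integral_indicator_const _ measurableSet_Icc, Measure.real,
      Real.volume_Icc_pi_toReal (a := 0) (fun _ => hpos)] at h2
    simp only [Pi.zero_apply, sub_zero, Finset.prod_const, Finset.card_univ, Fintype.card_fin,
      smul_eq_mul] at h2
    rw [hP, ← integral_indicator hS, show Real.exp (-1) * (1 / ((N : ℝ) + 1)) ^ N * |A.det|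
      = |A.det| * ((1 / ((N : ℝ) + 1)) ^ N * Real.exp (-1)) by ring, ← h2.2]
    refine integral_mono h2.1 ((integrable_indicator_iff hS).2 hi) fun η => ?_
    by_cases hη : A⁻¹ *ᵥ (η - η0) ∈ Icc (0 : E N) fun _ => 1 / ((N : ℝ) + 1)
    · have h3 := cube_Mom1 h hη
      simp only [indicator_of_mem hη, indicator_of_mem h3.1]
      exact Real.exp_le_exp.2 (by linarith [h3.2])
    · simp only [indicator_of_notMem hη]
      exact indicator_nonneg (fun _ _ => (Real.exp_pos _).le) _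
  · rw [hP]
    refine (setIntegral_mono_on hi hi2 hS hb).trans ?_
    refine (setIntegral_le_integral (hc.1.const_mul _)
      (Eventually.of_forall fun _ => by positivity)).trans ?_
    rw [integral_const_mul, hc.2]
    nlinarith [abs_nonneg A.det]

end Pool.Agent.MP_5f4cdd_gt.CB
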