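import Pool.Agent.MP_5f4cdd_gt.CB.Api

set_option autoImplicit false
open MeasureTheory Matrix Set Filter Topology

namespace Pool.Agent.MP_5f4cdd_gt.CB

theorem half_Mom2 {N : ℕ} {S : Set (E N)} {y η0 : E N} {A : Mat N} (hA : Nrm S y η0 A) :
    ∃ T : Set (E N), IsClosed T ∧ Nrm (S ∪ T) ((1 / 2 : ℝ) • y) η0 ((2 : ℝ) • A) := by
  have hu : IsUnit A.det := isUnit_iff_ne_zero.2 hA.det
  have hinv : ((2 : ℝ) • A)⁻¹ = (1 / 2 : ℝ) • A⁻¹ := by
    refine Matrix.inv_eq_right_inv ?_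
    rw [smul_mul_smul_comm, Matrix.mul_nonsing_inv _ hu]
    norm_num
  have hc : Continuous fun η : E N => ((2 : ℝ) • A)⁻¹ *ᵥ (η - η0) :=
    continuous_const.matrix_mulVec (continuous_id.sub continuous_const)
  have e1 : ∀ ζ : E N, ((1 / 2 : ℝ) • y) ⬝ᵥ (((2 : ℝ) • A) *ᵥ ζ) = y ⬝ᵥ (A *ᵥ ζ) := fun ζ => by
    rw [smul_mulVec, smul_dotProduct, dotProduct_smul, smul_eq_mul, smul_eq_mul]
    ring
  have hd : ((2 : ℝ) • A).det ≠ 0 := by
    rw [Matrix.det_smul]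
    exact mul_ne_zero (by positivity) hA.det
  have hu2 : IsUnit ((2 : ℝ) • A).det := isUnit_iff_ne_zero.2 hd
  refine ⟨{η | (∀ i, 0 ≤ (((2 : ℝ) • A)⁻¹ *ᵥ (η - η0)) i) ∧
    ∑ i, (((2 : ℝ) • A)⁻¹ *ᵥ (η - η0)) i ≤ 1}, ?_, hd, ?_, ?_, ?_⟩
  · refine IsClosed.inter ?_ (isClosed_le (continuous_finsetSum _ fun i _ =>
      (continuous_apply i).comp hc) continuous_const)
    have : {η : E N | ∀ i, 0 ≤ (((2 : ℝ) • A)⁻¹ *ᵥ (η - η0)) i} =
        ⋂ i, {η : E N | 0 ≤ (((2 : ℝ) • A)⁻¹ *ᵥ (η - η0)) i} := by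
      ext η
      simp only [mem_ofPred_eq, mem_iInter]
    change IsClosed {η : E N | ∀ i, 0 ≤ (((2 : ℝ) • A)⁻¹ *ᵥ (η - η0)) i}
    rw [this]
    exact isClosed_iInter fun i => isClosed_le continuous_const ((continuous_apply i).comp hc)
  · rintro η (h | ⟨h1, h2⟩)
    · rw [smul_dotProduct, smul_eq_mul]
      exact mul_nonneg (by norm_num) (hA.nonneg η h)
    · have e2 : η - η0 = ((2 : ℝ) • A) *ᵥ (((2 : ℝ) • A)⁻¹ *ᵥ (η - η0)) := by
        rw [mulVec_mulVec, Matrix.mul_nonsing_inv _ hu2, one_mulVec]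
      have h3 := hA.nonneg _ (hA.inner _ h1 h2).1
      rw [add_sub_cancel_left] at h3
      rw [e2, e1]
      exact h3
  · intro ζ h1 h2
    have e2 : ((2 : ℝ) • A)⁻¹ *ᵥ (η0 + ((2 : ℝ) • A) *ᵥ ζ - η0) = ζ := by
      rw [add_sub_cancel_left, mulVec_mulVec, Matrix.nonsing_inv_mul _ hu2, one_mulVec]
    refine ⟨Or.inr ?_, ?_⟩
    · rw [mem_ofPred_eq, e2]
      exact ⟨h1, h2⟩
    · rw [e1]
      exact (hA.inner ζ h1 h2).2
  · rintro η (h | ⟨h1, h2⟩)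
    · have h3 := hA.outer η h
      rw [hinv, smul_mulVec, norm_smul, smul_dotProduct, smul_eq_mul, Real.norm_eq_abs,
        abs_of_pos (by norm_num : (0 : ℝ) < 1 / 2)]
      rcases le_max_iff.1 h3 with h4 | h4
      · exact le_max_of_le_left (by linarith)
      · exact le_max_of_le_right (by linarith)
    · refine le_max_of_le_left ((pi_norm_le_iff_of_nonneg zero_le_one).2 fun i => ?_)
      rw [Real.norm_eq_abs, abs_of_nonneg (h1 i)]
      exact (Finset.single_le_sum (fun j _ => h1 j) (Finset.mem_univ i)).trans h2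

theorem pow_Mom2 {τ : ℝ} (h : 0 ≤ τ) : (1 + τ) ^ 4 ≤ 4096 * Real.exp (τ / 2) := by
  have h1 : 1 + τ ≤ 8 * Real.exp (τ / 8) := by linarith [Real.add_one_le_exp (τ / 8)]
  refine (pow_le_pow_left₀ (by linarith) h1 4).trans (le_of_eq ?_)
  rw [mul_pow, ← Real.exp_nat_mul]
  congr 1
  · norm_num
  · congr 1
    push_cast
    ring

theorem sq_Mom2 {N : ℕ} {S : Set (E N)} {y η0 : E N} {A : Mat N} (hA : Nrm S y η0 A) (v : E N)
    {η : E N} (h : η ∈ S) : (v ⬝ᵥ (η - η0)) ^ 2 ≤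
      (N + 1) * ((Aᵀ *ᵥ v) ⬝ᵥ (Aᵀ *ᵥ v)) * (1 + y ⬝ᵥ (η - η0)) ^ 2 := by
  have hu : IsUnit A.det := isUnit_iff_ne_zero.2 hA.det
  have e : v ⬝ᵥ (η - η0) = (Aᵀ *ᵥ v) ⬝ᵥ (A⁻¹ *ᵥ (η - η0)) := by
    rw [mulVec_transpose, ← dotProduct_mulVec, mulVec_mulVec, Matrix.mul_nonsing_inv _ hu,
      one_mulVec]
  have h1 := qf_cs (Matrix.PosDef.one (n := Fin N) (R := ℝ)) (Aᵀ *ᵥ v) (A⁻¹ *ᵥ (η - η0))
  simp only [qf_one] at h1
  have h0 := hA.nonneg η h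
  have h2 : ‖A⁻¹ *ᵥ (η - η0)‖ ≤ 1 + y ⬝ᵥ (η - η0) :=
    (hA.outer η h).trans (max_le (by linarith) (by linarith))
  have h3 : (A⁻¹ *ᵥ (η - η0)) ⬝ᵥ (A⁻¹ *ᵥ (η - η0)) ≤ (N + 1) * (1 + y ⬝ᵥ (η - η0)) ^ 2 :=
    (dot_le_norm_sq _).trans (by gcongr; linarith)
  rw [e]
  refine h1.trans ((mul_le_mul_of_nonneg_left h3 (dot_self_nonneg' _)).trans (le_of_eq ?_))
  ring

theorem sMom2 (hMom1 : Mom1Stmt) : Mom2Stmt := by
  intro N
  obtain ⟨c, C, hc, hC, h1⟩ := hMom1 N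
  refine ⟨(N + 1) ^ 2 * (4096 * (C * 2 ^ N) / c), by positivity, fun S y η0 A hS hA => ?_⟩
  obtain ⟨hroom, hint, hlow, -⟩ := h1 S y η0 A hS hA
  obtain ⟨T, hT, hB⟩ := half_Mom2 hA
  have hST := hS.union hT.measurableSet
  obtain ⟨hroom', -, -, hup⟩ := h1 _ _ η0 _ hST hB
  have hΦ := Phi_pos hS hroom hint
  have hI := hroom'.integrableOn hST (polyW_const 1)
  have key : ∀ (p : E N → ℝ) (D : ℝ), PolyW p → 0 ≤ D →
      (∀ η ∈ S, p η ≤ D * (1 + y ⬝ᵥ (η - η0)) ^ 4) →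
      Ey S p y ≤ D * (4096 * (C * 2 ^ N) / c) := fun p D hp hD hle => by
    have h2 : LapW S p y ≤ ∫ η in S, D * 4096 * Real.exp (-(y ⬝ᵥ η0) / 2) *
        (1 * Real.exp (-(((1 / 2 : ℝ) • y) ⬝ᵥ η))) := by
      refine setIntegral_mono_on (hroom.integrableOn hS hp)
        ((hI.mono_set subset_union_left).const_mul _) hS fun η hη => ?_
      have h3 := (hle η hη).trans (mul_le_mul_of_nonneg_left (pow_Mom2 (hA.nonneg η hη)) hD)
      refine (mul_le_mul_of_nonneg_right h3 (Real.exp_pos _).le).trans (le_of_eq ?_)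
      rw [one_mul, mul_assoc (D * 4096), ← Real.exp_add, ← mul_assoc D, mul_assoc (D * 4096),
        ← Real.exp_add, smul_dotProduct, dotProduct_sub, smul_eq_mul]
      congr 2
      ring
    rw [integral_const_mul] at h2
    have h4 : ∫ η in S, 1 * Real.exp (-(((1 / 2 : ℝ) • y) ⬝ᵥ η)) ≤
        Phi (S ∪ T) ((1 / 2 : ℝ) • y) :=
      setIntegral_mono_set hI (Eventually.of_forall fun η => by positivity)
        subset_union_left.eventuallyLE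
    rw [Matrix.det_smul, Fintype.card_fin, abs_mul, abs_of_pos (by positivity : (0 : ℝ) < 2 ^ N),
      ← le_div_iff₀ (Real.exp_pos _), smul_dotProduct, smul_eq_mul] at hup
    have h5 : |A.det| ≤ Phi S y * Real.exp (y ⬝ᵥ η0) / c := by
      rw [le_div_iff₀ hc, mul_comm]
      exact hlow
    have h6 : Real.exp (-(y ⬝ᵥ η0) / 2) * Real.exp (y ⬝ᵥ η0) /
        Real.exp (1 / 2 * (y ⬝ᵥ η0)) = 1 := by
      rw [← Real.exp_add, div_eq_one_iff_eq (Real.exp_pos _).ne']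
      congr 1
      ring
    rw [Ey, div_le_iff₀ hΦ]
    calc LapW S p y ≤ D * 4096 * Real.exp (-(y ⬝ᵥ η0) / 2) *
          (C * (2 ^ N * (Phi S y * Real.exp (y ⬝ᵥ η0) / c)) /
            Real.exp (1 / 2 * (y ⬝ᵥ η0))) := by
          refine h2.trans (mul_le_mul_of_nonneg_left ((h4.trans hup).trans ?_) (by positivity))
          gcongr
      _ = D * (4096 * (C * 2 ^ N) / c) * Phi S y * (Real.exp (-(y ⬝ᵥ η0) / 2) *
          Real.exp (y ⬝ᵥ η0) / Real.exp (1 / 2 * (y ⬝ᵥ η0))) := by ring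
      _ = _ := by rw [h6, mul_one]
  have hpw : ∀ v : E N, PolyW fun η => v ⬝ᵥ (η - η0) := fun v => by
    simpa only [dotProduct_sub] using (polyW_dot v).sub (polyW_const (v ⬝ᵥ η0))
  have hN : (1 : ℝ) ≤ N + 1 := by linarith [Nat.cast_nonneg (α := ℝ) N]
  refine ⟨fun v => ?_, fun v => ?_⟩
  · have h0 := dot_self_nonneg' (Aᵀ *ᵥ v)
    refine (key _ ((N + 1) ^ 2 * ((Aᵀ *ᵥ v) ⬝ᵥ (Aᵀ *ᵥ v))) ((hpw v).pow 2) (by positivity)
      fun η hη => (sq_Mom2 hA v hη).trans ?_).trans (le_of_eq (by ring))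
    have h2 := hA.nonneg η hη
    refine mul_le_mul (mul_le_mul_of_nonneg_right (by nlinarith) h0)
      (pow_le_pow_right₀ (by linarith) (by norm_num)) (by positivity) (by positivity)
  · refine (key _ ((N + 1) ^ 2 * ((Aᵀ *ᵥ v) ⬝ᵥ (Aᵀ *ᵥ v)) ^ 2) ((hpw v).pow 4) (by positivity)
      fun η hη => ?_).trans (le_of_eq (by ring))
    have h2 := pow_le_pow_left₀ (sq_nonneg _) (sq_Mom2 hA v hη) 2
    refine le_of_eq_of_le (by ring) (h2.trans (le_of_eq (by ring)))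

end Pool.Agent.MP_5f4cdd_gt.CB
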