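import Pool.Agent.MP_5f4cdd_gt.CB.Api

set_option autoImplicit false
open MeasureTheory Matrix Set Filter Topology

namespace Pool.Agent.MP_5f4cdd_gt.CB

theorem centre_Mom3 {N : ℕ} (w : E N) (t ρ : ℝ) : ∃ z : E N, (∀ j, ρ ≤ z j) ∧
    ∑ j, z j ≤ N * ρ + 1 / 2 ∧ ‖w‖ / 4 ≤ |w ⬝ᵥ z - t| := by
  have h0 : ∑ _j : Fin N, ρ = N * ρ := by simp
  by_cases h : ‖w‖ / 4 ≤ |w ⬝ᵥ (fun _ => ρ) - t|
  · exact ⟨fun _ => ρ, fun _ => le_rfl, by rw [h0]; linarith, h⟩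
  rw [not_le] at h
  rcases isEmpty_or_nonempty (Fin N) with hN | hN
  · rw [Subsingleton.elim w 0, norm_zero] at h
    linarith [abs_nonneg ((0 : E N) ⬝ᵥ (fun _ => ρ) - t)]
  obtain ⟨i, hi⟩ := Finite.exists_max fun j => |w j|
  have h1 : ‖w‖ ≤ |w i| := (pi_norm_le_iff_of_nonneg (abs_nonneg _)).2 hi
  refine ⟨(fun _ => ρ) + Pi.single i (1 / 2), fun j => ?_, ?_, ?_⟩
  · rw [Pi.add_apply, Pi.single_apply]
    split_ifs <;> linarith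
  · simp only [Pi.add_apply, Finset.sum_add_distrib, h0, Finset.sum_pi_single', Finset.mem_univ,
      if_true, le_refl]
  · rw [dotProduct_add, dotProduct_single]
    have h2 := abs_sub_abs_le_abs_sub (w i * (1 / 2)) (-(w ⬝ᵥ (fun _ => ρ) - t))
    rw [abs_neg, abs_mul, abs_of_pos (by norm_num : (0 : ℝ) < 1 / 2),
      show w i * (1 / 2) - -(w ⬝ᵥ (fun _ => ρ) - t) = w ⬝ᵥ (fun _ => ρ) + w i * (1 / 2) - t by
        ring] at h2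
    linarith

theorem vol_Mom3 {N : ℕ} (η0 z : E N) (A : Mat N) {ρ : ℝ} (hρ : 0 ≤ ρ) :
    volume.real ((fun ζ => η0 + A *ᵥ ζ) '' Metric.closedBall z ρ) = |A.det| * (2 * ρ) ^ N := by
  have e : (fun ζ => η0 + A *ᵥ ζ) '' Metric.closedBall z ρ =
      (fun η => η0 + η) '' (Matrix.toLin' A '' Metric.closedBall z ρ) := by
    rw [image_image]
    rfl
  rw [Measure.real, e, image_add_left, measure_preimage_add, Measure.addHaar_image_linearMap,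
    LinearMap.det_toLin', Real.volume_pi_closedBall z hρ, Fintype.card_fin,
    ← ENNReal.ofReal_mul (abs_nonneg _), ENNReal.toReal_ofReal (by positivity)]

theorem sMom3 (hMom1 : Mom1Stmt) : Mom3Stmt := by
  intro N
  obtain ⟨c, C, -, hC, h1⟩ := hMom1 N
  obtain ⟨ρ, hρ, hρN⟩ : ∃ ρ : ℝ, 0 < ρ ∧ N * ρ ≤ 1 / 8 := by
    refine ⟨1 / (8 * (N + 1)), by positivity, ?_⟩
    rw [mul_one_div, div_le_iff₀ (by positivity)]
    linarith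
  refine ⟨(2 * ρ) ^ N * Real.exp (-1) / (64 * (N + 1) * C), by positivity,
    fun S y η0 A hS hA v t => ?_⟩
  obtain ⟨hroom, hint, -, hup⟩ := h1 S y η0 A hS hA
  have hΦ := Phi_pos hS hroom hint
  obtain ⟨z, hz1, hz2, hz3⟩ := centre_Mom3 (Aᵀ *ᵥ v) (t - v ⬝ᵥ η0) ρ
  have hin : ∀ ζ ∈ Metric.closedBall z ρ, η0 + A *ᵥ ζ ∈ S ∧ y ⬝ᵥ (A *ᵥ ζ) ≤ 1 := fun ζ hζ => by
    have h2 : ∀ j, |ζ j - z j| ≤ ρ := fun j =>
      (dist_le_pi_dist ζ z j).trans (Metric.mem_closedBall.1 hζ)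
    refine hA.inner ζ (fun j => by linarith [hz1 j, (abs_le.1 (h2 j)).1]) ?_
    have h3 : ∑ j, ζ j ≤ ∑ j, (z j + ρ) :=
      Finset.sum_le_sum fun j _ => by linarith [(abs_le.1 (h2 j)).2]
    rw [Finset.sum_add_distrib, Finset.sum_const, Finset.card_univ, Fintype.card_fin,
      nsmul_eq_mul] at h3
    linarith
  have hI : IntegrableOn (fun η => (v ⬝ᵥ η - t) ^ 2 * Real.exp (-(y ⬝ᵥ η))) S :=
    hroom.integrableOn hS (((polyW_dot v).sub (polyW_const t)).pow 2)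
  have hTS : (fun ζ => η0 + A *ᵥ ζ) '' Metric.closedBall z ρ ⊆ S := by
    rintro _ ⟨ζ, hζ, rfl⟩
    exact (hin ζ hζ).1
  have hT : IsCompact ((fun ζ => η0 + A *ᵥ ζ) '' Metric.closedBall z ρ) :=
    (isCompact_closedBall z ρ).image
      (continuous_const.add (continuous_const.matrix_mulVec continuous_id))
  have h4 := setIntegral_ge_of_const_le_real hT.measurableSet hT.measure_lt_top.ne
    (c := ‖Aᵀ *ᵥ v‖ ^ 2 / 64 * (Real.exp (-1) * Real.exp (-(y ⬝ᵥ η0)))) (by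
      rintro _ ⟨ζ, hζ, rfl⟩
      have e1 : v ⬝ᵥ (η0 + A *ᵥ ζ) - t =
          (Aᵀ *ᵥ v) ⬝ᵥ z - (t - v ⬝ᵥ η0) + (Aᵀ *ᵥ v) ⬝ᵥ (ζ - z) := by
        rw [dotProduct_add, dotProduct_mulVec, mulVec_transpose, dotProduct_sub]
        ring
      have h5 : |(Aᵀ *ᵥ v) ⬝ᵥ (ζ - z)| ≤ ‖Aᵀ *ᵥ v‖ / 8 := by
        have h6 : ‖ζ - z‖ ≤ ρ := by rwa [Metric.mem_closedBall, dist_eq_norm] at hζ
        have h7 := norm_nonneg (Aᵀ *ᵥ v)
        refine (abs_dot_le _ _).trans ?_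
        calc (N : ℝ) * (‖Aᵀ *ᵥ v‖ * ‖ζ - z‖) ≤ N * (‖Aᵀ *ᵥ v‖ * ρ) := by gcongr
          _ = ‖Aᵀ *ᵥ v‖ * (N * ρ) := by ring
          _ ≤ ‖Aᵀ *ᵥ v‖ * (1 / 8) := by gcongr
          _ = ‖Aᵀ *ᵥ v‖ / 8 := by ring
      have h8 : ‖Aᵀ *ᵥ v‖ / 8 ≤ |v ⬝ᵥ (η0 + A *ᵥ ζ) - t| := by
        have h9 := abs_sub (v ⬝ᵥ (η0 + A *ᵥ ζ) - t) ((Aᵀ *ᵥ v) ⬝ᵥ (ζ - z))
        rw [e1, add_sub_cancel_right, ← e1] at h9
        linarith
      refine mul_le_mul ?_ ?_ (by positivity) (sq_nonneg _)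
      · have h9 := pow_le_pow_left₀ (by positivity) h8 2
        rw [sq_abs] at h9
        linarith
      · rw [← Real.exp_add, Real.exp_le_exp, dotProduct_add]
        linarith [(hin ζ hζ).2]) (hI.mono_set hTS)
  have h5 := setIntegral_mono_set hI (Eventually.of_forall fun η => by positivity) hTS.eventuallyLE
  rw [vol_Mom3 η0 z A hρ.le] at h4
  have h6 : Phi S y ≤ C * |A.det| * Real.exp (-(y ⬝ᵥ η0)) := by
    rw [Real.exp_neg, ← div_eq_mul_inv, le_div_iff₀ (Real.exp_pos _)]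
    exact hup
  have h7 : (Aᵀ *ᵥ v) ⬝ᵥ (Aᵀ *ᵥ v) ≤ (N + 1) * ‖Aᵀ *ᵥ v‖ ^ 2 :=
    (dot_le_norm_sq _).trans (by gcongr; linarith)
  rw [Ey, le_div_iff₀ hΦ]
  refine le_trans ?_ (h4.trans h5)
  calc (2 * ρ) ^ N * Real.exp (-1) / (64 * (N + 1) * C) * ((Aᵀ *ᵥ v) ⬝ᵥ (Aᵀ *ᵥ v)) * Phi S y
      ≤ (2 * ρ) ^ N * Real.exp (-1) / (64 * (N + 1) * C) * ((N + 1) * ‖Aᵀ *ᵥ v‖ ^ 2) *
        (C * |A.det| * Real.exp (-(y ⬝ᵥ η0))) := by gcongr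
    _ = _ := by field_simp

end Pool.Agent.MP_5f4cdd_gt.CB
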