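import Pool.Agent.MP_5f4cdd_gt.CB.Api

set_option autoImplicit false
open MeasureTheory Matrix Set Filter Topology

namespace Pool.Agent.MP_5f4cdd_gt.CB

/-- a spanning set contains the rows of an invertible matrix -/
theorem rows_Norm {N : ℕ} (T : Set (E N)) (hT : Submodule.span ℝ T = ⊤) :
    ∃ a : Fin N → E N, (∀ i, a i ∈ T) ∧ (Matrix.of a).det ≠ 0 := by
  obtain ⟨f, hf, -, hli⟩ := Submodule.exists_fun_fin_finrank_span_eq ℝ T
  have hr : N = Module.finrank ℝ (Submodule.span ℝ T) := by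
    rw [hT]; simp
  refine ⟨fun i => f (Fin.cast hr i), fun i => hf _, ?_⟩
  have h2 : LinearIndependent ℝ (Matrix.of fun i => f (Fin.cast hr i)).row :=
    hli.comp _ (Fin.cast_injective hr)
  have h3 := Matrix.linearIndependent_rows_iff_isUnit.1 h2
  exact ((Matrix.isUnit_iff_isUnit_det _).1 h3).ne_zero

/-- maximal determinant simplex -/
theorem maxdet_Norm {N : ℕ} (T : Set (E N)) (hc : IsCompact T)
    (hT : Submodule.span ℝ T = ⊤) :
    ∃ a : Fin N → E N, (∀ i, a i ∈ T) ∧ (Matrix.of a).det ≠ 0 ∧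
      ∀ w ∈ T, ‖((Matrix.of a)ᵀ)⁻¹ *ᵥ w‖ ≤ 1 := by
  obtain ⟨a0, ha0, hd0⟩ := rows_Norm T hT
  have hK : IsCompact (Set.pi univ fun _ : Fin N => T) := isCompact_univ_pi fun _ => hc
  have hcont : Continuous fun a : Fin N → E N => |(Matrix.of a).det| := by
    have h1 : Continuous fun a : Fin N → E N => (Matrix.of a : Mat N) := continuous_id
    exact (h1.matrix_det).abs
  obtain ⟨a, ha, hmax⟩ := hK.exists_isMaxOn ⟨a0, fun i _ => ha0 i⟩ hcont.continuousOn
  have hle : ∀ b : Fin N → E N, (∀ i, b i ∈ T) → |(Matrix.of b).det| ≤ |(Matrix.of a).det| :=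
    fun b hb => hmax (fun i _ => hb i)
  have hpos : 0 < |(Matrix.of a).det| := lt_of_lt_of_le (abs_pos.2 hd0) (hle a0 ha0)
  have hd : (Matrix.of a).det ≠ 0 := abs_pos.1 hpos
  refine ⟨a, fun i => ha i (mem_univ _), hd, fun w hw => ?_⟩
  rw [pi_norm_le_iff_of_nonneg zero_le_one]
  intro i
  have hu : IsUnit ((Matrix.of a)ᵀ).det := by
    rw [Matrix.det_transpose]; exact hd.isUnit
  have h1 := congrFun (Matrix.det_smul_inv_mulVec_eq_cramer ((Matrix.of a)ᵀ) w hu) i
  rw [Matrix.cramer_transpose_apply, Matrix.det_transpose, Pi.smul_apply, smul_eq_mul] at h1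
  have h2 : |((Matrix.of a).updateRow i w).det| ≤ |(Matrix.of a).det| := by
    refine hle (Function.update a i w) fun j => ?_
    by_cases hj : j = i
    · subst hj; simpa using hw
    · rw [Function.update_of_ne hj]; exact ha j (mem_univ _)
  rw [← h1, abs_mul] at h2
  rw [Real.norm_eq_abs]
  exact (mul_le_iff_le_one_right hpos).1 h2

theorem comb_Norm {N : ℕ} (T : Set (E N)) (hT : Convex ℝ T) (h0 : (0 : E N) ∈ T)
    (a : Fin N → E N) (ha : ∀ i, a i ∈ T) (ζ : E N) (hζ : ∀ i, 0 ≤ ζ i)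
    (hs : ∑ i, ζ i ≤ 1) : (Matrix.of a)ᵀ *ᵥ ζ ∈ T := by
  have h1 : (Matrix.of a)ᵀ *ᵥ ζ =
      ∑ o : Option (Fin N), (o.elim (1 - ∑ i, ζ i) ζ) • (o.elim (0 : E N) a) := by
    rw [Fintype.sum_option]
    ext j
    simp [Matrix.mulVec, dotProduct, Finset.sum_apply, mul_comm]
  rw [h1]
  refine hT.sum_mem (fun o _ => ?_) ?_ (fun o _ => ?_)
  · cases o with
    | none => simpa using hs
    | some i => exact hζ i
  · rw [Fintype.sum_option]; simp
  · cases o with
    | none => exact h0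
    | some i => exact ha i

theorem sNorm : NormStmt := by
  intro N S y η0 hcl hcv hint h0 hnn hb
  set T : Set (E N) := {w | η0 + w ∈ S ∧ y ⬝ᵥ w ≤ 1} with hTdef
  have hT0 : (0 : E N) ∈ T := ⟨by simpa using h0, by simp⟩
  have hTcl : IsClosed T := by
    refine IsClosed.inter (hcl.preimage (f := fun w => η0 + w) (by fun_prop)) ?_
    exact isClosed_le (f := fun w : E N => y ⬝ᵥ w) (by fun_prop) continuous_const
  have hTb : Bornology.IsBounded T := by
    obtain ⟨C, hC⟩ := hb.exists_norm_le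
    refine (isBounded_iff_forall_norm_le).2 ⟨C + ‖η0‖, fun w hw => ?_⟩
    have h1 := hC (η0 + w) ⟨hw.1, by simpa using hw.2⟩
    have h2 : ‖w‖ ≤ ‖η0 + w‖ + ‖η0‖ := by
      simpa using norm_sub_le (η0 + w) η0
    linarith
  have hTc : IsCompact T := Metric.isCompact_of_isClosed_isBounded hTcl hTb
  have hTcv : Convex ℝ T := by
    intro u hu v hv s t hs ht hst
    refine ⟨?_, ?_⟩
    · have h1 := hcv hu.1 hv.1 hs ht hst
      have h2 : η0 + (s • u + t • v) = s • (η0 + u) + t • (η0 + v) := by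
        rw [smul_add, smul_add, add_add_add_comm, ← add_smul, hst, one_smul]
      rw [h2]; exact h1
    · rw [dotProduct_add, dotProduct_smul, dotProduct_smul, smul_eq_mul, smul_eq_mul]
      have h1 := mul_le_mul_of_nonneg_left hu.2 hs
      have h2 := mul_le_mul_of_nonneg_left hv.2 ht
      linarith
  -- rescaling into T
  have hsc : ∀ η ∈ S, (max 1 (y ⬝ᵥ (η - η0)))⁻¹ • (η - η0) ∈ T := by
    intro η hη
    set τ : ℝ := max 1 (y ⬝ᵥ (η - η0)) with hτ
    have h1 : 1 ≤ τ := le_max_left _ _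
    have h2 : y ⬝ᵥ (η - η0) ≤ τ := le_max_right _ _
    have hp : 0 < τ := by linarith
    have hi : 0 ≤ τ⁻¹ := inv_nonneg.2 hp.le
    have hi1 : τ⁻¹ ≤ 1 := inv_le_one_of_one_le₀ h1
    refine ⟨hcv.add_smul_sub_mem h0 hη ⟨hi, hi1⟩, ?_⟩
    rw [dotProduct_smul, smul_eq_mul, inv_mul_le_iff₀ hp]
    simpa using h2
  have hspan : Submodule.span ℝ T = ⊤ := by
    obtain ⟨p, hp⟩ := hint
    refine Submodule.eq_top_of_nonempty_interior' _ ⟨p - η0, ?_⟩
    rw [mem_interior_iff_mem_nhds] at hp ⊢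
    have h1 : (fun w : E N => η0 + w) ⁻¹' S ∈ 𝓝 (p - η0) := by
      refine ContinuousAt.preimage_mem_nhds (by fun_prop) ?_
      simpa using hp
    refine mem_of_superset h1 fun w hw => ?_
    have h2 := Submodule.subset_span (R := ℝ) (hsc (η0 + w) hw)
    have hp : (0 : ℝ) < max 1 (y ⬝ᵥ (η0 + w - η0)) := lt_of_lt_of_le one_pos (le_max_left _ _)
    have h3 := (Submodule.span ℝ T).smul_mem (max 1 (y ⬝ᵥ (η0 + w - η0))) h2
    rw [smul_smul, mul_inv_cancel₀ hp.ne', one_smul] at h3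
    simpa using h3
  obtain ⟨a, ha, hd, hout⟩ := maxdet_Norm T hTc hspan
  refine ⟨(Matrix.of a)ᵀ, ?_, hnn, fun ζ hζ hs => comb_Norm T hTcv hT0 a ha ζ hζ hs,
    fun η hη => ?_⟩
  · rw [Matrix.det_transpose]; exact hd
  · have h1 := hout _ (hsc η hη)
    have hp : (0 : ℝ) < max 1 (y ⬝ᵥ (η - η0)) := lt_of_lt_of_le one_pos (le_max_left _ _)
    rw [Matrix.mulVec_smul, norm_smul, Real.norm_eq_abs, abs_of_pos (inv_pos.2 hp),
      inv_mul_le_iff₀ hp, mul_one] at h1
    exact h1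

end Pool.Agent.MP_5f4cdd_gt.CB
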