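import Pool.Agent.MP_5f4cdd_gt.CB.Api

set_option autoImplicit false
open MeasureTheory Matrix Set Filter Topology

namespace Pool.Agent.MP_5f4cdd_gt.CB

theorem le_of_deriv_Num1 {g g' : ℝ → ℝ} {x y : ℝ} (hxy : x ≤ y)
    (h : ∀ w ∈ Icc x y, HasDerivAt g (g' w) w) (h' : ∀ w ∈ Icc x y, 0 ≤ g' w) : g x ≤ g y :=
  monotoneOn_of_deriv_nonneg (convex_Icc x y)
    (fun w hw => (h w hw).continuousAt.continuousWithinAt)
    (fun w hw => (h w (interior_subset hw)).differentiableAt.differentiableWithinAt)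
    (fun w hw => by
      rw [(h w (interior_subset hw)).deriv]
      exact h' w (interior_subset hw)) (left_mem_Icc.2 hxy) (right_mem_Icc.2 hxy) hxy

theorem ge_of_deriv_Num1 {g g' : ℝ → ℝ} {x y : ℝ} (hxy : x ≤ y)
    (h : ∀ w ∈ Icc x y, HasDerivAt g (g' w) w) (h' : ∀ w ∈ Icc x y, g' w ≤ 0) : g y ≤ g x :=
  neg_le_neg_iff.1 (le_of_deriv_Num1 (g := fun w => -g w) (g' := fun w => -g' w) hxy
    (fun w hw => (h w hw).neg) fun w hw => neg_nonneg.2 (h' w hw))

/-- the parameter -/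
noncomputable def aa_Num1 (w : ℝ) : ℝ := (w - 1 / w) / 8

/-- the remainder -/
noncomputable def RR_Num1 (w : ℝ) : ℝ := Real.log (w + 1) - Real.log w / 2 - 1 / (2 * w)

theorem aa_deriv_Num1 {w : ℝ} (hw : 0 < w) :
    HasDerivAt aa_Num1 ((w ^ 2 + 1) / (8 * w ^ 2)) w := by
  have h := ((hasDerivAt_id w).sub ((hasDerivAt_const w (1 : ℝ)).div (hasDerivAt_id w)
    hw.ne')).div_const 8
  refine HasDerivAt.congr_deriv h ?_
  simp only [id]
  field_simp
  ring

theorem RR_deriv_Num1 {w : ℝ} (hw : 0 < w) :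
    HasDerivAt RR_Num1 (4 / (w + 1) * ((w ^ 2 + 1) / (8 * w ^ 2))) w := by
  have h1 : HasDerivAt (fun w : ℝ => Real.log (w + 1)) (1 / (w + 1)) w :=
    ((hasDerivAt_id w).add_const 1).log (by positivity : w + 1 ≠ 0)
  have h2 : HasDerivAt (fun w : ℝ => 1 / (2 * w)) ((0 * (2 * w) - 1 * (2 * 1)) / (2 * w) ^ 2) w :=
    (hasDerivAt_const w (1 : ℝ)).div ((hasDerivAt_id w).const_mul 2) (by positivity : 2 * w ≠ 0)
  have h := (h1.sub ((Real.hasDerivAt_log hw.ne').div_const 2)).sub h2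
  refine HasDerivAt.congr_deriv h ?_
  field_simp
  ring

theorem aa_lt_Num1 {x y : ℝ} (hx : 0 < x) (h : x < y) : aa_Num1 x < aa_Num1 y := by
  have := one_div_lt_one_div_of_lt hx h
  unfold aa_Num1
  linarith

theorem aa_le_Num1 {x y : ℝ} (hx : 0 < x) (h : x ≤ y) : aa_Num1 x ≤ aa_Num1 y := by
  have := one_div_le_one_div_of_le hx h
  unfold aa_Num1
  linarith

theorem q1_eq_Num1 {w : ℝ} (hw : 0 < w) (lam : ℝ) :
    q1 w lam = Real.log 8 / 2 - RR_Num1 w - 4 / (w + 1) * (lam - aa_Num1 w) := by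
  unfold q1 RR_Num1 aa_Num1
  rw [Real.log_div (by positivity) (by positivity), Real.log_mul (by norm_num) hw.ne',
    Real.log_pow]
  push_cast
  ring

theorem q1_le_Num1 {v v0 : ℝ} (hv : 0 < v) (h0 : 0 < v0) :
    q1 v (aa_Num1 v0) ≤ Real.log 8 / 2 - RR_Num1 v0 := by
  have hd : ∀ w, 0 < w → HasDerivAt
      (fun w => Real.log 8 / 2 - RR_Num1 w - 4 / (w + 1) * (aa_Num1 v0 - aa_Num1 w))
      (4 / (w + 1) ^ 2 * (aa_Num1 v0 - aa_Num1 w)) w := fun w hw => by
    have h1 : HasDerivAt (fun w : ℝ => 4 / (w + 1)) ((0 * (w + 1) - 4 * 1) / (w + 1) ^ 2) w :=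
      (hasDerivAt_const w (4 : ℝ)).div ((hasDerivAt_id w).add_const 1) (by positivity : w + 1 ≠ 0)
    have h := ((RR_deriv_Num1 hw).const_sub (Real.log 8 / 2)).sub
      (h1.mul ((aa_deriv_Num1 hw).const_sub (aa_Num1 v0)))
    refine HasDerivAt.congr_deriv h ?_
    ring
  rw [q1_eq_Num1 hv]
  rcases le_total v v0 with h | h
  · refine (le_of_deriv_Num1 h (fun w hw => hd w (hv.trans_le hw.1)) fun w hw =>
      mul_nonneg (by positivity) (sub_nonneg.2 (aa_le_Num1 (hv.trans_le hw.1) hw.2))).trans_eq ?_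
    simp
  · refine (ge_of_deriv_Num1 h (fun w hw => hd w (h0.trans_le hw.1)) fun w hw =>
      mul_nonpos_of_nonneg_of_nonpos (by positivity)
        (sub_nonpos.2 (aa_le_Num1 h0 hw.1))).trans_eq ?_
    simp

theorem exists_v0_Num1 {lam : ℝ} (h : 0 < lam) : ∃ v0, 0 < v0 ∧ aa_Num1 v0 = lam := by
  have h1 : 0 < √(16 * lam ^ 2 + 1) := by positivity
  have h2 : √(16 * lam ^ 2 + 1) ^ 2 = 16 * lam ^ 2 + 1 := Real.sq_sqrt (by positivity)
  generalize √(16 * lam ^ 2 + 1) = r at h1 h2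
  refine ⟨4 * lam + r, by positivity, ?_⟩
  unfold aa_Num1
  field_simp
  linear_combination h2

theorem var_Num1 {w p m V : ℝ} (hw : 0 < w) (hm : 2 ≤ m) (hp : 0 ≤ p)
    (h1 : p ^ 2 ≤ p + 4 * aa_Num1 w ^ 2) (h2 : m ^ 2 ≤ V * (3 * p + 8 * aa_Num1 w ^ 2)) :
    m ^ 2 ≤ V * ((w ^ 2 + 1) / (8 * w ^ 2)) * (w + 3) ^ 2 := by
  have e1 : ((w + 1) ^ 2 / (4 * w)) ^ 2 = (w + 1) ^ 2 / (4 * w) + 4 * aa_Num1 w ^ 2 := by
    unfold aa_Num1
    field_simp
    ring
  have e2 : 1 ≤ (w + 1) ^ 2 / (4 * w) := by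
    rw [le_div_iff₀ (by positivity)]
    nlinarith [sq_nonneg (w - 1)]
  have e3 : 3 * ((w + 1) ^ 2 / (4 * w)) + 8 * aa_Num1 w ^ 2 + 1 / w ^ 2 =
      (w ^ 2 + 1) / (8 * w ^ 2) * (w + 3) ^ 2 := by
    unfold aa_Num1
    field_simp
    ring
  have h3 : p ≤ (w + 1) ^ 2 / (4 * w) := by
    by_contra hc
    rw [not_le] at hc
    nlinarith
  have hV : 0 ≤ V := by
    by_contra hc
    rw [not_le] at hc
    have : 0 ≤ 3 * p + 8 * aa_Num1 w ^ 2 := by positivity
    nlinarith
  rw [mul_assoc, ← e3]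
  refine h2.trans (mul_le_mul_of_nonneg_left ?_ hV)
  have : 0 ≤ 1 / w ^ 2 := by positivity
  linarith

theorem sNum1 : Num1Stmt := by
  intro lam v hlam hv f M V c0 f0 h hT
  obtain ⟨v0, h0, rfl⟩ := exists_v0_Num1 hlam
  refine le_trans (add_le_add le_rfl (q1_le_Num1 hv h0)) ?_
  have ht : ∀ w, v0 < w → 0 < aa_Num1 w - aa_Num1 v0 := fun w hw => sub_pos.2 (aa_lt_Num1 h0 hw)
  have hd : ∀ w, v0 < w → HasDerivAt (fun w => aa_Num1 w - aa_Num1 v0)
      ((w ^ 2 + 1) / (8 * w ^ 2)) w := fun w hw => (aa_deriv_Num1 (h0.trans hw)).sub_const _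
  have hM : ∀ w, v0 < w → 2 + 4 / (w + 1) ≤ M (aa_Num1 w - aa_Num1 v0) := by
    intro w hw
    have hw0 := h0.trans hw
    have k1 : ∀ W, w ≤ W → 2 / M (aa_Num1 w - aa_Num1 v0) + 2 / (w + 3) ≤ 1 + 2 / (W + 3) := by
      intro W hW
      refine (le_of_deriv_Num1 (g := fun u => 2 / M (aa_Num1 u - aa_Num1 v0) + 2 / (u + 3))
        (g' := fun u => 2 * (V (aa_Num1 u - aa_Num1 v0) * ((u ^ 2 + 1) / (8 * u ^ 2))) /
          M (aa_Num1 u - aa_Num1 v0) ^ 2 - 2 / (u + 3) ^ 2) hW (fun u hu => ?_)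
        fun u hu => ?_).trans ?_
      · have hu' := hw.trans_le hu.1
        have hu0 := h0.trans hu'
        obtain ⟨-, a1, a2, -⟩ := h _ (ht u hu')
        have b1 := (hasDerivAt_const u (2 : ℝ)).div (a1.comp u (hd u hu'))
          (by simp only [Function.comp]; linarith)
        have b2 : HasDerivAt (fun u : ℝ => 2 / (u + 3)) ((0 * (u + 3) - 2 * 1) / (u + 3) ^ 2) u :=
          (hasDerivAt_const u (2 : ℝ)).div ((hasDerivAt_id u).add_const 3)
            (by positivity : u + 3 ≠ 0)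
        refine HasDerivAt.congr_deriv (b1.add b2) ?_
        simp only [Function.comp]
        ring
      · have hu' := hw.trans_le hu.1
        have hu0 := h0.trans hu'
        obtain ⟨-, -, a2, -, p, hp, a3, a4⟩ := h _ (ht u hu')
        rw [add_sub_cancel] at a3 a4
        have b := var_Num1 hu0 a2 hp a3 a4
        rw [sub_nonneg, div_le_div_iff₀ (by positivity) (by positivity)]
        linarith
      · have a2 := (h _ (ht W (hw.trans_le hW))).2.2.1
        exact add_le_add ((div_le_one (by linarith)).2 a2) le_rfl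
    have k2 : Tendsto (fun W : ℝ => 1 + 2 / (W + 3)) atTop (𝓝 (1 + 0)) :=
      (tendsto_const_nhds.div_atTop (tendsto_atTop_add_const_right _ 3 tendsto_id)).const_add 1
    have k3 := ge_of_tendsto k2 ((eventually_ge_atTop w).mono k1)
    have a2 := (h _ (ht w hw)).2.2.1
    rw [add_zero, div_add_div _ _ (by linarith) (by positivity), div_le_one (by positivity)] at k3
    rw [add_div' _ _ _ (by positivity), div_le_iff₀ (by positivity)]
    linarith
  have hk : ∀ w, v0 < w → c0 + Real.log 8 / 2 ≤ f0 + 2 * (aa_Num1 w - aa_Num1 v0) + RR_Num1 w := by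
    intro w hw
    refine le_of_forall_pos_le_add fun ε hε => ?_
    have k0 : Tendsto (fun W => aa_Num1 W - aa_Num1 v0) atTop atTop := by
      refine tendsto_atTop_mono' _ ((eventually_ge_atTop 1).mono fun W hW => ?_)
        (tendsto_atTop_add_const_right _ (-(1 / 8) - aa_Num1 v0)
          (tendsto_id.atTop_div_const (by norm_num : (0 : ℝ) < 8)))
      have : 1 / W ≤ 1 := (div_le_one (by linarith)).2 hW
      simp only [aa_Num1, id]
      linarith
    have k2 : Tendsto (fun W : ℝ => c0 + Real.log 8 / 2 - 1 / (2 * W)) atTop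
        (𝓝 (c0 + Real.log 8 / 2 - 0)) :=
      (tendsto_const_nhds.div_atTop (tendsto_id.const_mul_atTop two_pos)).const_sub _
    rw [sub_zero] at k2
    refine le_of_tendsto k2 ?_
    filter_upwards [eventually_ge_atTop w, k0.eventually (hT ε hε)] with W hW hW2
    have hW' := hw.trans_le hW
    have hW0 := h0.trans hW'
    have k1 := ge_of_deriv_Num1
      (g := fun u => f (aa_Num1 u - aa_Num1 v0) + 2 * (aa_Num1 u - aa_Num1 v0) + RR_Num1 u)
      (g' := fun u => (2 + 4 / (u + 1) - M (aa_Num1 u - aa_Num1 v0)) *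
        ((u ^ 2 + 1) / (8 * u ^ 2))) hW
      (fun u hu => by
        have hu' := hw.trans_le hu.1
        refine HasDerivAt.congr_deriv ((((h _ (ht u hu')).1.comp u (hd u hu')).add
          ((hd u hu').const_mul 2)).add (RR_deriv_Num1 (h0.trans hu'))) ?_
        ring)
      fun u hu => mul_nonpos_of_nonpos_of_nonneg (sub_nonpos.2 (hM u (hw.trans_le hu.1)))
        (by positivity)
    have k3 := (h _ (ht w hw)).2.2.2.1
    have k4 : Real.log (aa_Num1 W - aa_Num1 v0) ≤ Real.log W - Real.log 8 := by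
      rw [← Real.log_div hW0.ne' (by norm_num)]
      refine Real.log_le_log (ht W hW') ?_
      have : 0 < 1 / W := by positivity
      have e : aa_Num1 W = (W - 1 / W) / 8 := rfl
      linarith
    have k5 : Real.log W ≤ Real.log (W + 1) := Real.log_le_log hW0 (by linarith)
    have e : RR_Num1 W = Real.log (W + 1) - Real.log W / 2 - 1 / (2 * W) := rfl
    linarith
  have hc : ContinuousAt (fun w => f0 + 2 * (aa_Num1 w - aa_Num1 v0) + RR_Num1 w) v0 :=
    (continuousAt_const.add (continuousAt_const.mul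
      ((aa_deriv_Num1 h0).continuousAt.sub continuousAt_const))).add
      (RR_deriv_Num1 h0).continuousAt
  have hl := ge_of_tendsto (hc.tendsto.mono_left (nhdsWithin_le_nhds (s := Ioi v0)))
    (eventually_nhdsWithin_of_forall hk)
  simp only [sub_self, mul_zero, add_zero] at hl
  linarith

end Pool.Agent.MP_5f4cdd_gt.CB
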