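import Pool.Agent.MP_5f4cdd_gt.CB.Api

set_option autoImplicit false
open MeasureTheory Matrix Set Filter Topology

namespace Pool.Agent.MP_5f4cdd_gt.CB

theorem lt_Num2a {a x y : ℝ} (ha : 0 < a) (hx : 0 < x) (h : x < y) :
    x ^ 4 * (2 * a + y) < y ^ 4 * (2 * a + x) := by
  have h1 : x ^ 4 < y ^ 4 := pow_lt_pow_left₀ h hx.le (by norm_num)
  have h2 : x ^ 3 < y ^ 3 := pow_lt_pow_left₀ h hx.le (by norm_num)
  have h3 := mul_pos ha (sub_pos.2 h1)
  have h4 := mul_pos (mul_pos hx (hx.trans h)) (sub_pos.2 h2)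
  nlinarith

theorem one_Num2a {M V : ℝ → ℝ} {μ : ℝ} (hμ : 0 < μ)
    (h : ∀ a, 0 < a → HasDerivAt M (-V a) a ∧ 2 * μ ≤ M a ∧
      M a ^ 2 ≤ V a * (3 * a * M a + 8 * a ^ 2)) {a : ℝ} (ha : 0 < a) :
    8 * μ ^ 4 * (2 * a + M a) ≤ a * M a ^ 4 := by
  have hM : ∀ b, 0 < b → 0 < M b := fun b hb => by linarith [(h b hb).2.1]
  have hD : ∀ b, 0 < b → 0 < 2 * b + M b := fun b hb => by linarith [hM b hb]
  have hd : ∀ b, 0 < b → HasDerivAt (fun b => b * M b ^ 4 / (2 * b + M b))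
      (M b ^ 3 * (M b ^ 2 - V b * (3 * b * M b + 8 * b ^ 2)) / (2 * b + M b) ^ 2) b := by
    intro b hb
    have h1 := ((hasDerivAt_id' b).fun_mul ((h b hb).1.fun_pow 4)).fun_div
      (((hasDerivAt_id' b).const_mul 2).fun_add (h b hb).1) (hD b hb).ne'
    refine h1.congr_deriv ?_
    congr 1
    push_cast
    ring
  have hA : AntitoneOn (fun b => b * M b ^ 4 / (2 * b + M b)) (Ioi 0) := by
    refine antitoneOn_of_deriv_nonpos (convex_Ioi 0)
      (fun b hb => (hd b hb).continuousAt.continuousWithinAt) (fun b hb => ?_) fun b hb => ?_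
    · rw [interior_Ioi] at hb
      exact (hd b hb).differentiableAt.differentiableWithinAt
    · rw [interior_Ioi] at hb
      rw [(hd b hb).deriv]
      exact div_nonpos_of_nonpos_of_nonneg (mul_nonpos_of_nonneg_of_nonpos
        (pow_pos (hM b hb) 3).le (sub_nonpos.2 (h b hb).2.2)) (sq_nonneg _)
  rw [← le_div_iff₀ (hD a ha)]
  refine le_of_forall_pos_le_add fun ε hε => ?_
  obtain ⟨b, hab, hb⟩ : ∃ b, a ≤ b ∧ 8 * μ ^ 5 ≤ ε * b := by
    refine ⟨a + 8 * μ ^ 5 / ε, le_add_of_nonneg_right (by positivity), ?_⟩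
    rw [mul_add, mul_div_cancel₀ _ hε.ne']
    exact le_add_of_nonneg_left (by positivity)
  have hb0 := ha.trans_le hab
  have h1 : b * M b ^ 4 / (2 * b + M b) ≤ a * M a ^ 4 / (2 * a + M a) := hA ha hb0 hab
  have h2 : (2 * μ) ^ 4 * (2 * b + M b) ≤ M b ^ 4 * (2 * b + 2 * μ) := by
    rcases (h b hb0).2.1.eq_or_lt with e | e
    · rw [← e]
    · exact (lt_Num2a hb0 (by positivity) e).le
  have h3 : 8 * μ ^ 4 - ε ≤ b * M b ^ 4 / (2 * b + M b) := by
    rw [le_div_iff₀ (hD b hb0)]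
    refine le_of_mul_le_mul_right ?_ (by positivity : 0 < 2 * b + 2 * μ)
    have h4 := mul_le_mul_of_nonneg_left h2 hb0.le
    have h5 : (8 * μ ^ 4 - ε) * (2 * b + 2 * μ) ≤ b * (2 * μ) ^ 4 := by
      nlinarith [mul_pos hε hμ]
    have h6 := mul_le_mul_of_nonneg_right h5 (hD b hb0).le
    nlinarith
  linarith

theorem sNum2a : Num2aStmt := by
  intro L M V μ hμ h k1 k hk1 hk
  have h4 : ∀ t : ℝ, 1 < t → 0 < t ^ 4 - 1 := fun t ht =>
    sub_pos.2 (one_lt_pow₀ ht (by norm_num))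
  have h2 : ∀ t : ℝ, 1 < t → 0 < t ^ 2 - 1 := fun t ht =>
    sub_pos.2 (one_lt_pow₀ ht (by norm_num))
  have ha : ∀ t : ℝ, 1 < t → 0 < μ * alk t := fun t ht =>
    mul_pos hμ (div_pos (by linarith) (h4 t ht))
  have hM : ∀ t : ℝ, 1 < t → 2 * μ * t ≤ M (μ * alk t) := by
    intro t ht
    by_contra hc
    have h5 := one_Num2a hμ (fun a h0 => (h a h0).2) (ha t ht)
    have h6 : 0 < M (μ * alk t) := by linarith [(h _ (ha t ht)).2.2.1]
    have h7 := lt_Num2a (ha t ht) h6 (not_le.1 hc)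
    have h8 : μ * alk t * (2 * μ * t) ^ 4 = 8 * μ ^ 4 * (2 * (μ * alk t) + 2 * μ * t) := by
      have := (h4 t ht).ne'
      unfold alk
      field_simp
      ring
    have h9 := mul_lt_mul_of_pos_left h7 (ha t ht)
    have h10 : 0 < 2 * (μ * alk t) + 2 * μ * t := by
      have := ha t ht
      have : 0 < t := by linarith
      positivity
    have h11 := mul_le_mul_of_nonneg_right h5 h10.le
    rw [← mul_assoc, ← mul_assoc _ (_ ^ 4), h8] at h9
    linarith
  have hd : ∀ t : ℝ, 1 < t → HasDerivAt (fun t => L (μ * alk t) + 2 * μ ^ 2 * Sk t)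
      (μ * ((3 * t ^ 4 + 1) / (t ^ 4 - 1) ^ 2) * (M (μ * alk t) - 2 * μ * t)) t := by
    intro t ht
    have n4 := (h4 t ht).ne'
    have n2 := (h2 t ht).ne'
    have n3 : t ^ 2 + 1 ≠ 0 := by positivity
    have d4 := (hasDerivAt_pow 4 t).sub_const 1
    have d1 : HasDerivAt alk (-((3 * t ^ 4 + 1) / (t ^ 4 - 1) ^ 2)) t := by
      refine ((hasDerivAt_id' t).fun_div d4 n4).congr_deriv ?_
      push_cast
      ring
    have d2 : HasDerivAt Sk (-(t * ((3 * t ^ 4 + 1) / (t ^ 4 - 1) ^ 2))) t := by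
      refine (((hasDerivAt_pow 2 t).fun_div d4 n4).fun_sub
        (((((hasDerivAt_pow 2 t).sub_const 1).fun_div ((hasDerivAt_pow 2 t).add_const 1) n3).log
          (div_ne_zero n2 n3)).div_const 4)).congr_deriv ?_
      have e : t ^ 4 - 1 = (t ^ 2 - 1) * (t ^ 2 + 1) := by ring
      rw [e]
      push_cast
      field_simp
      ring
    refine ((((h _ (ha t ht)).1.comp t (d1.const_mul μ))).fun_add
      (d2.const_mul (2 * μ ^ 2))).congr_deriv ?_
    ring
  have hm : MonotoneOn (fun t => L (μ * alk t) + 2 * μ ^ 2 * Sk t) (Ioi 1) := by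
    refine monotoneOn_of_deriv_nonneg (convex_Ioi 1)
      (fun b hb => (hd b hb).continuousAt.continuousWithinAt) (fun b hb => ?_) fun b hb => ?_
    · rw [interior_Ioi] at hb
      exact (hd b hb).differentiableAt.differentiableWithinAt
    · rw [interior_Ioi] at hb
      rw [(hd b hb).deriv]
      exact mul_nonneg (by positivity) (sub_nonneg.2 (hM b hb))
  have h5 : L (μ * alk k1) + 2 * μ ^ 2 * Sk k1 ≤ L (μ * alk k) + 2 * μ ^ 2 * Sk k :=
    hm hk1 (hk1.trans_le hk) hk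
  linarith

end Pool.Agent.MP_5f4cdd_gt.CB
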