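import Pool.Agent.MP_5f4cdd_gt.CB.Api

/-!
The numerical check.
-/

set_option autoImplicit false

open MeasureTheory Matrix Set Filter Topology

namespace Pool.Agent.MP_5f4cdd_gt.CB

theorem cmp_Num2b {x y : ℝ} (hx : 0 < x) (hy : 0 < y) : Real.log x ≤ Real.log y + (x / y - 1) := by
  have h := Real.log_le_sub_one_of_pos (div_pos hx hy)
  rw [Real.log_div hx.ne' hy.ne'] at h
  linarith

theorem smooth_Num2b (a b c : ℤ) : Real.log ((2 : ℝ) ^ a * 3 ^ b * 5 ^ c) =
    a * Real.log 2 + b * Real.log 3 + c * Real.log 5 := by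
  rw [Real.log_mul (by positivity) (by positivity), Real.log_mul (by positivity) (by positivity),
    Real.log_zpow, Real.log_zpow, Real.log_zpow]

theorem up_Num2b {x : ℝ} (hx : 0 < x) (a b c : ℤ) : Real.log x ≤
    a * Real.log 2 + b * Real.log 3 + c * Real.log 5 + (x / (2 ^ a * 3 ^ b * 5 ^ c) - 1) := by
  rw [← smooth_Num2b]
  exact cmp_Num2b hx (by positivity)

theorem lo_Num2b {x : ℝ} (hx : 0 < x) (a b c : ℤ) :
    a * Real.log 2 + b * Real.log 3 + c * Real.log 5 ≤
      Real.log x + (2 ^ a * 3 ^ b * 5 ^ c / x - 1) := by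
  rw [← smooth_Num2b]
  exact cmp_Num2b (by positivity) hx

theorem sNum2b : Num2bStmt := by
  intro μ h0 h1
  have a2 := Real.log_two_gt_d9
  have b2 := Real.log_two_lt_d9
  have a3 := Real.log_three_gt_d9
  have b3 := Real.log_three_lt_d9
  have a5 := Real.log_five_gt_d9
  have b5 := Real.log_five_lt_d9
  have l1 : Real.log (788 / 1000) ≤ -0.23825 := by
    have := up_Num2b (x := 788 / 1000) (by norm_num) 6 (-4) 0
    norm_num at this ⊢
    linarith
  have l2 : 1.1447 ≤ Real.log Real.pi := by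
    have := lo_Num2b (x := 3.141592) (by norm_num) (-3) 0 2
    have h := Real.log_le_log (by norm_num) Real.pi_gt_d6.le
    norm_num at this h ⊢
    linarith
  rcases le_total μ (49 / 50) with h | h
  · left
    have l3 := lo_Num2b (x := 2 * (1 / 3)) (by norm_num) 1 (-1) 0
    have l4 := lo_Num2b (x := 8 * 3 / (3 + 1) ^ 2) (by norm_num) (-1) 1 0
    unfold q1
    generalize Real.log (2 * (1 / 3)) = u at *
    generalize Real.log (8 * 3 / (3 + 1) ^ 2) = v at *
    norm_num at l3 l4 ⊢
    norm_num at l1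
    linarith
  · right
    have e1 : alk (9 / 7) = 3087 / 4160 := by norm_num [alk]
    have e2 : alk (14 / 9) = 10206 / 31855 := by norm_num [alk]
    have l3 : -0.02063 ≤ Real.log (8 * 6 / (6 + 1) ^ 2) := by
      have := lo_Num2b (x := 8 * 6 / (6 + 1) ^ 2) (by norm_num) (-7) 0 3
      generalize Real.log (8 * 6 / (6 + 1) ^ 2) = u at *
      norm_num at this ⊢
      linarith
    have l4 : -0.44508 ≤ Real.log (20412 / 31855) := by
      have := lo_Num2b (x := 20412 / 31855) (by norm_num) 4 0 (-2)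
      norm_num at this ⊢
      linarith
    have l5 : 0.58637 ≤ Sk (9 / 7) - Sk (14 / 9) := by
      have k1 := up_Num2b (x := 16 / 65) (by norm_num) 2 (-4) 1
      have k2 := lo_Num2b (x := 115 / 277) (by norm_num) (-2) (-1) 1
      norm_num [Sk] at k1 k2 ⊢
      linarith
    have l6 : 50 / 49 * (μ - 1) ≤ Real.log μ := by
      refine le_trans ?_ (Real.one_sub_inv_le_log_of_pos h0)
      have : μ⁻¹ ≤ 1 - 50 / 49 * (μ - 1) := by
        rw [inv_le_iff_one_le_mul₀ h0]
        nlinarith
      linarith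
    have l7 := mul_le_mul_of_nonneg_left l5 (sq_nonneg μ)
    rw [e1, e2, show 2 * (μ * (10206 / 31855)) = μ * (20412 / 31855) by ring,
      Real.log_mul h0.ne' (by norm_num)]
    unfold q1
    nlinarith [mul_nonneg (sub_nonneg.2 h) (sub_nonneg.2 h1)]

end Pool.Agent.MP_5f4cdd_gt.CB
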