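import Pool.Agent.MP_5f4cdd_gt.CB.Api

set_option autoImplicit false
open MeasureTheory Matrix Set Filter Topology

namespace Pool.Agent.MP_5f4cdd_gt.CB

theorem sMom (h1 : Mom1Stmt) (h2 : Mom2Stmt) (h3 : Mom3Stmt) : MomStmt := by
  intro N
  obtain ⟨c1, C1, hc1, hC1, H1⟩ := h1 N
  obtain ⟨C2, hC2, H2⟩ := h2 N
  obtain ⟨c3, hc3, H3⟩ := h3 N
  refine ⟨min c1 c3, max C1 C2, lt_min hc1 hc3, lt_max_of_lt_left hC1, ?_⟩
  intro S y η0 A hS hA
  obtain ⟨a1, a2, a3, a4⟩ := H1 S y η0 A hS hA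
  obtain ⟨b1, b2⟩ := H2 S y η0 A hS hA
  have d := H3 S y η0 A hS hA
  refine ⟨a1, a2, ?_, ?_, fun v => ?_, fun v => ?_, fun v t => ?_⟩
  · exact (mul_le_mul_of_nonneg_right (min_le_left _ _) (abs_nonneg _)).trans a3
  · exact a4.trans (mul_le_mul_of_nonneg_right (le_max_left _ _) (abs_nonneg _))
  · exact (b1 v).trans (mul_le_mul_of_nonneg_right (le_max_right _ _) (dot_self_nonneg' _))
  · exact (b2 v).trans (mul_le_mul_of_nonneg_right (le_max_right _ _) (sq_nonneg _))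
  · exact (mul_le_mul_of_nonneg_right (min_le_right _ _) (dot_self_nonneg' _)).trans (d v t)

theorem sGeo2 (h1 : Geo2aStmt) (h2 : Geo2bStmt) : Geo2Stmt :=
  fun N W b0 G hN hW hG y hy =>
    ⟨(h1 N W b0 G hN hW hG y hy).1, h2 N W b0 G hN hW hG y hy, (h1 N W b0 G hN hW hG y hy).2⟩

theorem sGeo3 (h1 : Geo3aStmt) (h2 : Geo3bStmt) : Geo3Stmt := by
  intro N W b0 G hN hW hG b hb β hβ
  obtain ⟨a1, a2, a3⟩ := h1 N W b0 G hN hW hG b hb β hβ
  obtain ⟨b1, b2, b3⟩ := h2 N W b0 G hN hW hG b hb β hβ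
  exact ⟨a1, a2, b1, b2, b3, a3⟩

theorem sPt (h1 : Pt1Stmt) (h2 : Pt2Stmt) : PtStmt := by
  intro N W b0 G hW hG b β y hy
  obtain ⟨a1, a2, a3, a4, a5⟩ := h1 N W b0 G hW hG b β y hy
  exact ⟨a1, a2, a3, a4, a5, h2 N W b0 G hW hG b β y hy⟩

theorem alk_pos {k : ℝ} (hk : 1 < k) : 0 < alk k := by
  unfold alk
  have : 1 < k ^ 4 := one_lt_pow₀ hk (by norm_num)
  exact div_pos (by linarith) (by linarith)

theorem sNum2 (h1 : Num2aStmt) (h2 : Num2bStmt) : Num2Stmt := by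
  intro L M V μ h0 h1' hd hL
  rcases h2 μ h0 h1' with h | h
  · refine ⟨1 / 3, by norm_num, h.trans ?_⟩
    have := hL (1 / 3) 3 (by norm_num) (by norm_num)
    linarith
  · refine ⟨μ * alk (14 / 9), mul_pos h0 (alk_pos (by norm_num)), h.trans ?_⟩
    have a := hL (μ * alk (9 / 7)) 6 (mul_pos h0 (alk_pos (by norm_num))) (by norm_num)
    have b := h1 L M V μ h0 hd (9 / 7) (14 / 9) (by norm_num) (by norm_num)
    linarith

end Pool.Agent.MP_5f4cdd_gt.CB
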