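import Pool.Agent.MP_5f4cdd_gt.CB.Api

set_option autoImplicit false
open MeasureTheory Matrix Set Filter Topology

namespace Pool.Agent.MP_5f4cdd_gt.CB

theorem ma_PreA {N : ℕ} {G : E N → ℝ} {y : E N} (h : MAat 5 G y) : MAat 2 G y :=
  ⟨h.smooth.of_le (by norm_num), h.pos, h.eqn⟩

theorem sPreA (hRho : RhoStmt) (hCmp : CmpStmt) : PreAStmt := by
  intro N W b0 β D B Gs hN hW hβ hB hA y hy
  obtain ⟨B1, hB1, hR⟩ := hRho N
  obtain ⟨δ, hδ, hC⟩ := hCmp N (B1 * B)
  have key : ∀ n m k : ℕ, k ≤ n → k ≤ m → rho W β y ≤ (k : ℝ) - 1 →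
      Gs n y - Gs m y ≤ 2 * |D| * Real.exp (δ * (rho W β y - ((k : ℝ) - 1))) := by
    intro n m k hn hm hk
    have hn' : (k : ℝ) ≤ n := by exact_mod_cast hn
    have hm' : (k : ℝ) ≤ m := by exact_mod_cast hm
    refine hC _ (rho W β) (Gs n) (Gs m) ((k : ℝ) - 1) (2 * |D|) (hW.exh hN hβ _)
      (fun z hz => ?_) (fun z hz => ?_) (by positivity) y ⟨hy, hk⟩
    · have h1 : rho W β z < n := by linarith only [hz.2, hn']
      have h2 : rho W β z < m := by linarith only [hz.2, hm']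
      refine ⟨ma_PreA ((hA n).ma z hz.1 h1), ma_PreA ((hA m).ma z hz.1 h2),
        hW.contDiffAt_rho hβ hz.1 2, fun v => ?_⟩
      have h3 := mul_le_mul_of_nonneg_left ((hA m).cmp z hz.1 h2 v).1 hB1.le
      have h4 := hR W b0 β z hW hβ hz.1 v
      rw [mul_assoc]
      exact ⟨h4.1.trans h3, ((le_abs_self _).trans h4.2).trans h3⟩
    · have h1 : rho W β z < n := by linarith only [hz.2, hn']
      have h2 : rho W β z < m := by linarith only [hz.2, hm']
      have h3 := abs_le.1 ((hA n).near z hz.1 h1)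
      have h4 := abs_le.1 ((hA m).near z hz.1 h2)
      linarith only [h3.2, h4.1, le_abs_self D]
  have hlim : Tendsto (fun k : ℕ => 2 * |D| * Real.exp (δ * (rho W β y - ((k : ℝ) - 1)))) atTop
      (𝓝 (2 * |D| * 0)) := by
    refine Tendsto.const_mul _ (Real.tendsto_exp_atBot.comp ?_)
    refine Tendsto.const_mul_atBot hδ ?_
    simp only [sub_eq_add_neg]
    exact tendsto_atBot_add_const_left _ _ (tendsto_neg_atTop_atBot.comp
      (tendsto_atTop_add_const_right _ _ tendsto_natCast_atTop_atTop))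
  rw [mul_zero] at hlim
  refine Metric.cauchySeq_iff.2 fun ε hε => ?_
  obtain ⟨k, hk1, hk2⟩ := ((hlim.eventually (gt_mem_nhds hε)).and
    (tendsto_natCast_atTop_atTop.eventually_ge_atTop (rho W β y + 1))).exists
  have hk3 : rho W β y ≤ (k : ℝ) - 1 := by linarith only [hk2]
  refine ⟨k, fun m hm n hn => ?_⟩
  rw [Real.dist_eq, abs_lt]
  have h1 := key m n k hm hn hk3
  have h2 := key n m k hn hm hk3
  constructor <;> linarith only [h1, h2, hk1]

end Pool.Agent.MP_5f4cdd_gt.CB
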