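import Pool.Agent.MP_5f4cdd_gt.CB.Api

set_option autoImplicit false
open MeasureTheory Matrix Set Filter Topology

namespace Pool.Agent.MP_5f4cdd_gt.CB

theorem sPreB (hRho : RhoStmt) (hLocCal : LocCalStmt) : PreBStmt := by
  intro N W b0 β B hN hW hβ _
  obtain ⟨Br, hBr, hr⟩ := hRho N
  obtain ⟨A, hA, hc⟩ := hLocCal N (Br * B)
  refine ⟨A, hA, fun D R G hG y hy hyR v => ?_⟩
  refine hc _ (rho W β) G (R - 1) (hW.exh hN hβ (R - 1)) (fun z hz => ?_) y ⟨hy, hyR.le⟩ hyR v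
  have hz' : rho W β z < R := by linarith [hz.2]
  refine ⟨hG.ma z hz.1 hz', hW.contDiffAt_rho hβ hz.1 2, fun w => ?_⟩
  obtain ⟨h1, h2⟩ := hr W b0 β z hW hβ hz.1 w
  have h3 : Br * sm W z w ≤ Br * B * qf (hess G z) w w := by
    rw [mul_assoc]
    exact mul_le_mul_of_nonneg_left (hG.cmp z hz.1 hz' w).1 hBr.le
  exact ⟨h1.trans h3, (le_abs_self _).trans (h2.trans h3)⟩

end Pool.Agent.MP_5f4cdd_gt.CB
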