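import Pool.Agent.MP_5f4cdd_gt.CB.Api

set_option autoImplicit false
open MeasureTheory Matrix Set Filter Topology

namespace Pool.Agent.MP_5f4cdd_gt.CB

theorem qf_lim_PreBar {N : ℕ} {a : ℕ → Mat N} {A : Mat N} (h : Tendsto a atTop (𝓝 A))
    (v : E N) : Tendsto (fun n => qf (a n) v v) atTop (𝓝 (qf A v v)) :=
  (continuous_qf.tendsto (A, v, v)).comp (h.prodMk_nhds tendsto_const_nhds)

theorem inv_lim_PreBar {N : ℕ} {a : ℕ → Mat N} {A : Mat N} (h : Tendsto a atTop (𝓝 A))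
    (hA : A.PosDef) : Tendsto (fun n => (a n)⁻¹) atTop (𝓝 A⁻¹) := by
  refine (continuousAt_matrix_inv A ?_).tendsto.comp h
  rw [Ring.inverse_eq_inv']
  exact continuousAt_inv₀ hA.det_pos.ne'

theorem loc_PreBar {N : ℕ} {Gs : ℕ → E N → ℝ} {G ζ : E N → ℝ} {V : Set (E N)} {a : E N}
    {r c C : ℝ} {n0 : ℕ} (hr : 0 < r) (hc : 0 < c) (h1 : ∀ x, ‖x - a‖ ≤ r → ζ x = 1)
    (h0 : ∀ x, ζ x ≠ 0 → x ∈ V) (hl : ∀ y ∈ V, Tendsto (fun n => Gs n y) atTop (𝓝 (G y)))
    (hb : ∀ n, HB 4 C (fun x => ζ x * Gs (n + n0) x) ∧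
      ∀ v, c * (v ⬝ᵥ v) ≤ qf (hess (Gs (n + n0)) a) v v) :
    ContDiffAt ℝ 4 G a ∧ (hess G a).PosDef ∧
      Tendsto (fun n => hess (Gs n) a) atTop (𝓝 (hess G a)) ∧
      ∀ v, Tendsto (fun n => d3 (Gs n) a v) atTop (𝓝 (d3 G a v)) := by
  have hl' : ∀ x, Tendsto (fun n => ζ x * Gs (n + n0) x) atTop (𝓝 (ζ x * G x)) := fun x => by
    by_cases hx : ζ x = 0
    · simp only [hx, zero_mul]
      exact tendsto_const_nhds
    · exact ((tendsto_add_atTop_iff_nat (f := fun n => Gs n x) n0).2 (hl x (h0 x hx))).const_mul _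
  have hev : ∀ u : E N → ℝ, (fun x => ζ x * u x) =ᶠ[𝓝 a] u := fun u => by
    filter_upwards [Metric.closedBall_mem_nhds a hr] with x hx
    rw [h1 x (by rwa [Metric.mem_closedBall, dist_eq_norm] at hx), one_mul]
  have hH : HB 4 C (fun x => ζ x * G x) := HB_lim (fun n => (hb n).1) hl'
  have hs : ContDiffAt ℝ 4 G a := (HB.contDiff hH).contDiffAt.congr_of_eventuallyEq (hev G).symm
  have h2 := HB_lim_hess (k := 2) (fun n => (hb n).1) hl' a
  rw [(hess_congr (hev G)).eq_of_nhds] at h2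
  have h3 : Tendsto (fun n => hess (Gs (n + n0)) a) atTop (𝓝 (hess G a)) :=
    h2.congr fun n => (hess_congr (hev (Gs (n + n0)))).eq_of_nhds
  refine ⟨hs, posDef_of_ell (hess_symm (hs.of_le (by norm_num))) hc fun v =>
    ge_of_tendsto' (qf_lim_PreBar h3 v) fun n => (hb n).2 v,
    (tendsto_add_atTop_iff_nat (f := fun n => hess (Gs n) a) n0).1 h3, fun v => ?_⟩
  have h4 := HB_lim_d3 (k := 1) (fun n => (hb n).1) hl' a v
  rw [d3_congr (hev G) v] at h4
  exact (tendsto_add_atTop_iff_nat (f := fun n => d3 (Gs n) a v) n0).1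
    (h4.congr fun n => d3_congr (hev (Gs (n + n0))) v)

theorem sPreBar (hApx : ApxStmt) (hPreA : PreAStmt) (hPreB : PreBStmt) (hPreC : PreCStmt) :
    PreBarStmt := by
  intro N W b0 hN hW
  obtain ⟨β, hβ⟩ := hW.exists_iW
  obtain ⟨D, B, hB, hG⟩ := hApx N W b0 β hN hW hβ
  choose Gs hGs using fun n : ℕ => hG (n : ℝ)
  obtain ⟨A, hA, hcal⟩ := hPreB N W b0 β B hN hW hβ hB
  obtain ⟨G, hlim⟩ : ∃ G : E N → ℝ, ∀ y ∈ oV W, Tendsto (fun n => Gs n y) atTop (𝓝 (G y)) :=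
    ⟨fun y => limUnder atTop fun n => Gs n y, fun y hy =>
      (hPreA N W b0 β D B Gs hN hW hβ hB hGs y hy).tendsto_limUnder⟩
  have key : ∀ a ∈ oV W, ContDiffAt ℝ 4 G a ∧ (hess G a).PosDef ∧
      Tendsto (fun n => hess (Gs n) a) atTop (𝓝 (hess G a)) ∧
      ∀ v, Tendsto (fun n => d3 (Gs n) a v) atTop (𝓝 (d3 G a v)) := fun a ha => by
    obtain ⟨r, c, C, R0, ζ, hr, hc, h1, h0, hb⟩ := hPreC N W b0 β D B hN hW hβ hB a ha
    refine loc_PreBar (C := C) (n0 := ⌈R0⌉₊) hr hc h1 h0 hlim fun n => hb _ _ ?_ (hGs _)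
    have h2 := Nat.le_ceil R0
    have h3 : (0 : ℝ) ≤ n := Nat.cast_nonneg n
    push_cast
    linarith
  have hev : ∀ t : ℝ, ∀ᶠ n : ℕ in atTop, t < (n : ℝ) - 1 := fun t => by
    filter_upwards [(tendsto_natCast_atTop_atTop (R := ℝ)).eventually_gt_atTop (t + 1)] with n hn
    linarith
  refine ⟨G, fun y hy => ⟨(key y hy).1, (key y hy).2.1, ?_⟩, fun y hy v => ?_,
    ⟨D, fun y hy => ?_⟩, ⟨B, fun y hy v => ?_⟩⟩
  · obtain ⟨_, hp, h2, _⟩ := key y hy
    have h3 : Tendsto (fun n => ldet (Gs n) y) atTop (𝓝 (ldet G y)) :=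
      (((continuous_id.matrix_det).tendsto _).comp h2).log hp.det_pos.ne'
    refine tendsto_nhds_unique_of_eventuallyEq h3 ((hlim y hy).const_mul 2) ?_
    filter_upwards [hev (rho W β y)] with n hn
    exact ((hGs n).ma y hy (by linarith)).eqn
  · obtain ⟨_, hp, h2, h3⟩ := key y hy
    have h4 := inv_lim_PreBar h2 hp
    have h5 : Tendsto (fun n => cal (Gs n) y v) atTop (𝓝 (cal G y v)) :=
      ((continuous_id.matrix_trace).tendsto _).comp (((h4.mul (h3 v)).mul h4).mul (h3 v))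
    have h6 : Tendsto (fun n : ℕ => A / ((n : ℝ) - 1 - rho W β y) ^ 2) atTop (𝓝 0) := by
      refine Tendsto.const_div_atTop ((tendsto_pow_atTop two_ne_zero).comp ?_) A
      exact tendsto_atTop_add_const_right _ _
        (tendsto_atTop_add_const_right _ _ tendsto_natCast_atTop_atTop)
    have h7 := ((h6.const_add 1).const_mul 4).mul (qf_lim_PreBar h2 v)
    rw [add_zero, mul_one] at h7
    refine le_of_tendsto_of_tendsto h5 h7 ?_
    filter_upwards [hev (rho W β y)] with n hn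
    exact hcal D n (Gs n) (hGs n) y hy hn v
  · refine le_of_tendsto ((hlim y hy).sub_const _).abs ?_
    filter_upwards [hev (rho W β y)] with n hn
    exact (hGs n).near y hy (by linarith)
  · refine ge_of_tendsto ((qf_lim_PreBar (key y hy).2.2.1 v).const_mul B) ?_
    filter_upwards [hev (rho W β y)] with n hn
    exact ((hGs n).cmp y hy (by linarith) v).1

end Pool.Agent.MP_5f4cdd_gt.CB
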