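import Pool.Agent.MP_5f4cdd_gt.CB.Api

set_option autoImplicit false
open MeasureTheory Matrix Set Filter Topology

namespace Pool.Agent.MP_5f4cdd_gt.CB

theorem third_PreC {N : ℕ} {G : E N → ℝ} {x : E N} {M T : ℝ} (hG : ContDiffAt ℝ 3 G x)
    (hpos : (hess G x).PosDef) (hT : 0 ≤ T)
    (hM : ∀ v, qf (hess G x) v v ≤ M * (v ⬝ᵥ v))
    (hcal : ∀ v, cal G x v ≤ T * qf (hess G x) v v) (i j k : Fin N) :
    |pd i (pd j (pd k G)) x| ≤ 1 + T * M ^ 3 := by
  have hd : ∀ m : Fin N, 0 ≤ qf (hess G x) (Pi.single m 1) (Pi.single m 1) ∧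
      qf (hess G x) (Pi.single m 1) (Pi.single m 1) ≤ M := fun m =>
    ⟨qf_nonneg hpos _, by simpa using hM (Pi.single m 1)⟩
  have h1 := tq_entry hpos (d3_symm hG (Pi.single i 1)) (Pi.single j 1) (Pi.single k 1)
  rw [qf_single] at h1
  have e : d3 G x (Pi.single i 1) j k = pd i (pd j (pd k G)) x := rfl
  rw [e] at h1
  have h2 : ((hess G x)⁻¹ * d3 G x (Pi.single i 1) * (hess G x)⁻¹ *
      d3 G x (Pi.single i 1)).trace ≤ T * M :=
    (hcal (Pi.single i 1)).trans (mul_le_mul_of_nonneg_left (hd i).2 hT)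
  have hM0 : 0 ≤ M := (hd i).1.trans (hd i).2
  have h3 : qf (hess G x) (Pi.single j 1) (Pi.single j 1) *
      qf (hess G x) (Pi.single k 1) (Pi.single k 1) ≤ M * M :=
    mul_le_mul (hd j).2 (hd k).2 (hd k).1 hM0
  have h4 : (pd i (pd j (pd k G)) x) ^ 2 ≤ T * M ^ 3 := by
    refine h1.trans ?_
    calc _ ≤ (T * M) * (qf (hess G x) (Pi.single j 1) (Pi.single j 1) *
          qf (hess G x) (Pi.single k 1) (Pi.single k 1)) :=
          mul_le_mul_of_nonneg_right h2 (mul_nonneg (hd j).1 (hd k).1)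
      _ ≤ (T * M) * (M * M) := mul_le_mul_of_nonneg_left h3 (mul_nonneg hT hM0)
      _ = T * M ^ 3 := by ring
  rw [abs_le]
  constructor <;> nlinarith [sq_nonneg (pd i (pd j (pd k G)) x - 1),
    sq_nonneg (pd i (pd j (pd k G)) x + 1), sq_nonneg (pd i (pd j (pd k G)) x)]

theorem sPreC (hPreB : PreBStmt) (hLocSch : LocSchStmt) : PreCStmt := by
  intro N W b0 β D B hN hW hβ hB a ha
  obtain ⟨A, hA, hcalA⟩ := hPreB N W b0 β B hN hW hβ hB
  obtain ⟨r1, hr1, hball⟩ := Metric.nhds_basis_closedBall.mem_iff.1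
    ((isOpen_oV W).mem_nhds ha)
  have hK : IsCompact (Metric.closedBall a r1) := isCompact_closedBall a r1
  have hrho : ContinuousOn (rho W β) (Metric.closedBall a r1) := fun y hy =>
    (hW.contDiffAt_rho hβ (hball hy) 0).continuousAt.continuousWithinAt
  have hlog : ContinuousOn (fun y => Real.log (Phi W y)) (Metric.closedBall a r1) := fun y hy => by
    have h1 : ContinuousAt (Phi W) y :=
      (contDiffAt_LapW hW.closed.measurableSet (hW.room (hball hy)) (polyW_const 1) 0).continuousAt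
    exact (h1.log (hW.Phi_pos (hball hy)).ne').continuousWithinAt
  obtain ⟨R1, hR1⟩ := hK.exists_bound_of_continuousOn hrho
  obtain ⟨L, hL⟩ := hK.exists_bound_of_continuousOn hlog
  obtain ⟨c1, C1, hc1, hsm⟩ := hW.sm_compact hK hball
  have hmem : ∀ x, ‖x - a‖ ≤ r1 → x ∈ Metric.closedBall a r1 := fun x hx => by
    rwa [Metric.mem_closedBall, dist_eq_norm]
  set K : ℝ := max (D + L) (max (B * C1) (1 + 4 * (1 + A) * (B * C1) ^ 3)) with hKdef
  obtain ⟨ζ, C, hζ1, hζ0, hHB⟩ := hLocSch N r1 (c1 / B) K hr1 (div_pos hc1 hB) a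
  refine ⟨r1 / 256, c1 / B, C, R1 + 2, ζ, by positivity, div_pos hc1 hB, hζ1, fun x hx => ?_,
    fun R G hR hG => ?_⟩
  · by_contra hxV
    refine hx (hζ0 x ?_)
    by_contra hlt
    exact hxV (hball (hmem x (le_of_lt (not_le.1 hlt))))
  have hlt : ∀ x ∈ Metric.closedBall a r1, rho W β x ≤ R - 2 := fun x hx => by
    have := (abs_le.1 (show |rho W β x| ≤ R1 from hR1 x hx)).2
    linarith
  have hlow : ∀ x ∈ Metric.closedBall a r1, ∀ v, c1 / B * (v ⬝ᵥ v) ≤ qf (hess G x) v v := by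
    intro x hx v
    have h1 := (hG.cmp x (hball hx) (by linarith [hlt x hx]) v).1
    have h2 := (hsm x hx v).1
    rw [div_mul_eq_mul_div, div_le_iff₀ hB]
    linarith
  refine ⟨hHB G hG.smooth fun x hx' => ?_, hlow a (Metric.mem_closedBall_self hr1.le)⟩
  have hx := hmem x hx'
  have hxV := hball hx
  have hxR : rho W β x < R := by linarith [hlt x hx]
  have hma := hG.ma x hxV hxR
  have hup : ∀ v, qf (hess G x) v v ≤ B * C1 * (v ⬝ᵥ v) := fun v => by
    have h1 := (hG.cmp x hxV hxR v).2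
    have h2 := mul_le_mul_of_nonneg_left (hsm x hx v).2 hB.le
    linarith
  have hcal : ∀ v, cal G x v ≤ 4 * (1 + A) * qf (hess G x) v v := fun v => by
    refine (hcalA D R G hG x hxV (by linarith [hlt x hx]) v).trans ?_
    refine mul_le_mul_of_nonneg_right ?_ (qf_nonneg hma.pos v)
    have h1 : 1 ≤ R - 1 - rho W β x := by linarith [hlt x hx]
    have h2 : A / (R - 1 - rho W β x) ^ 2 ≤ A :=
      div_le_self hA.le (one_le_pow₀ h1)
    linarith
  refine ⟨hma.eqn, ?_, hlow x hx, fun i j => ?_, fun i j k => ?_⟩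
  · have h1 := hG.near x hxV hxR
    have h2 : |Real.log (Phi W x)| ≤ L := hL x hx
    refine le_trans ?_ (le_max_left _ _)
    calc |G x| = |(G x - Real.log (Phi W x)) + Real.log (Phi W x)| := by ring_nf
      _ ≤ |G x - Real.log (Phi W x)| + |Real.log (Phi W x)| := abs_add_le _ _
      _ ≤ D + L := add_le_add h1 h2
  · exact (entry_le (posDef_isSymm hma.pos) (qf_nonneg hma.pos) hup i j).trans
      ((le_max_left _ _).trans (le_max_right _ _))
  · exact (third_PreC (hG.smooth.contDiffAt.of_le (by norm_num)) hma.pos (by positivity) hup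
      hcal i j k).trans ((le_max_right _ _).trans (le_max_right _ _))

end Pool.Agent.MP_5f4cdd_gt.CB
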