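import Pool.Agent.MP_5f4cdd_gt.CB.Api

set_option autoImplicit false
open MeasureTheory Matrix Set Filter Topology

namespace Pool.Agent.MP_5f4cdd_gt.CB
variable {N : ℕ}

theorem PP_eq_Pt1 (G : E N → ℝ) (b β : E N) : PP G b β = fun z => β ⬝ᵥ z - dd b G z := by
  funext z
  rw [PP, eta, dd_eq_dot, dotProduct_neg]
  ring

theorem contDiff_dot_Pt1 (β : E N) : ContDiff ℝ 2 fun z : E N => β ⬝ᵥ z := by
  simp only [dotProduct]
  fun_prop

theorem dual_Pt1 {g : Mat N} (h : g.PosDef) (b β : E N) (t : ℝ) :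
    qf g⁻¹ (β + t • g *ᵥ b) (β + t • g *ᵥ b) =
      t ^ 2 * qf g b b + qf g⁻¹ β β + 2 * t * (b ⬝ᵥ β) := by
  have e : g⁻¹ *ᵥ (g *ᵥ b) = b := by
    rw [mulVec_mulVec, nonsing_inv_mul _ h.det_pos.ne'.isUnit, one_mulVec]
  have e1 : ∀ v, qf g⁻¹ v (g *ᵥ b) = b ⬝ᵥ v := fun v => by rw [qf, e, dotProduct_comm]
  rw [qf_add_left, qf_add_right, qf_add_right, qf_smul_left, qf_smul_left, qf_smul_right,
    qf_smul_right, e1, e1, qf_symm (posDef_isSymm h.inv) (g *ᵥ b) β, e1, qf]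
  rw [qf]
  ring

theorem sPt1 (hGeo1 : Geo1Stmt) : Pt1Stmt := by
  intro N W b0 G hW hG b β y hy
  obtain ⟨g1, g2, -⟩ := hGeo1 N W b0 G hW hG y hy
  have hm := hG.ma y hy
  have c3 : ContDiffAt ℝ 3 G y := hm.smooth.of_le (by norm_num)
  have c2 : ContDiffAt ℝ 2 G y := hm.smooth.of_le (by norm_num)
  have d2 : ContDiffAt ℝ 2 (dd b G) y := contDiffAt_dd (k := 2) c3 b
  have l2 : ContDiffAt ℝ 2 (fun z : E N => β ⬝ᵥ z) y := (contDiff_dot_Pt1 β).contDiffAt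
  have hs := posDef_isSymm hm.pos
  have e1 : grad (PP G b β) y = β - hess G y *ᵥ b := by
    funext i
    rw [PP_eq_Pt1, Pi.sub_apply, ← grad_dd c2, grad, pd,
      dd_sub (l2.differentiableAt two_ne_zero) (d2.differentiableAt two_ne_zero), dd_dot,
      dotProduct_single, mul_one]
    rfl
  have e2 : hess (PP G b β) y = -d3 G y b := by
    rw [PP_eq_Pt1, hess_sub l2 d2, hess_dot, hess_dd c3, zero_sub]
  have e3 : y ⬝ᵥ (hess G y *ᵥ b) = b ⬝ᵥ eta G y := by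
    rw [← g1]
    exact qf_symm hs y b
  have e4 : ((hess G y)⁻¹ * d3 G y b).trace = -2 * (b ⬝ᵥ eta G y) := by
    have hev : ldet G =ᶠ[𝓝 y] fun z => 2 * G z := by
      filter_upwards [(isOpen_oV W).mem_nhds hy] with z hz
      exact (hG.ma z hz).eqn
    rw [← dd_ldet c3 hm.pos, (dd_congr hev b).eq_of_nhds, dd_const_mul, dd_eq_dot, eta,
      dotProduct_neg]
    ring
  refine ⟨e1, e2, ?_, ?_, ?_⟩
  · rw [LB, Lop, e2, Matrix.mul_neg, trace_neg, e4, dd_eq_dot, e1, dotProduct_sub, e3, PP,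
      dotProduct_comm y β]
    ring
  · have := dual_Pt1 hm.pos b β (-1)
    rw [neg_one_smul, ← sub_eq_add_neg] at this
    rw [ip, e1, this, QQ]
    ring
  · have h1 := qf_cs_dual hm.pos (β + (1 : ℝ) • hess G y *ᵥ b) y
    rw [dual_Pt1 hm.pos, one_smul, add_dotProduct, dotProduct_comm _ y, dotProduct_comm _ y, e3,
      qf, qf, qf, g1, g2] at h1
    rw [PP, QQ, qf, qf, dotProduct_comm β y]
    linarith

end Pool.Agent.MP_5f4cdd_gt.CB
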