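import Pool.Agent.MP_5f4cdd_gt.CB.Api

set_option autoImplicit false
open MeasureTheory Matrix Set Filter Topology

namespace Pool.Agent.MP_5f4cdd_gt.CB

variable {N : ℕ} {G : E N → ℝ} {y : E N}

lemma ddqf_Pt2 {M : E N → Mat N} {a : E N → E N}
    (hM : ∀ i j, DifferentiableAt ℝ (fun z => M z i j) y)
    (ha : ∀ i, DifferentiableAt ℝ (fun z => a z i) y) (v : E N) :
    dd v (fun z => qf (M z) (a z) (a z)) y =
      qf (M y) (fun i => dd v (fun z => a z i) y) (a y)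
        + qf (Matrix.of fun i j => dd v (fun z => M z i j) y) (a y) (a y)
        + qf (M y) (a y) (fun i => dd v (fun z => a z i) y) := by
  simp only [qf_eq_sum, ← Finset.sum_add_distrib, of_apply]
  rw [dd_sum _ (fun i z => ∑ j, a z i * M z i j * a z j) fun i _ =>
    DifferentiableAt.fun_sum fun j _ => ((ha i).mul (hM i j)).mul (ha j)]
  refine Finset.sum_congr rfl fun i _ => ?_
  rw [dd_sum _ (fun j z => a z i * M z i j * a z j) fun j _ => ((ha i).mul (hM i j)).mul (ha j)]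
  refine Finset.sum_congr rfl fun j _ => ?_
  rw [dd_mul (u := fun z => a z i * M z i j) ((ha i).mul (hM i j)) (ha j), dd_mul (ha i) (hM i j)]
  ring

lemma om_Pt2 (h : ContDiffAt ℝ 3 G y) (hp : (hess G y).PosDef) (β : E N) :
    (∀ i, DifferentiableAt ℝ (fun z => ((hess G z)⁻¹ *ᵥ β) i) y) ∧ ∀ v,
      (fun i => dd v (fun z => ((hess G z)⁻¹ *ᵥ β) i) y) =
        -((hess G y)⁻¹ *ᵥ (d3 G y ((hess G y)⁻¹ *ᵥ β) *ᵥ v)) := by
  have d : ∀ i j, DifferentiableAt ℝ (fun z => (hess G z)⁻¹ i j) y := fun i j =>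
    (contDiffAt_inv_hess (k := 1) h hp i j).differentiableAt (by simp)
  have e : ∀ i, (fun z => ((hess G z)⁻¹ *ᵥ β) i) = fun z => ∑ j, β j * (hess G z)⁻¹ i j :=
    fun i => funext fun z => by simp only [mulVec, dotProduct, mul_comm]
  refine ⟨fun i => ?_, fun v => funext fun i => ?_⟩
  · rw [e]
    exact DifferentiableAt.fun_sum fun j _ => (d i j).const_mul _
  · rw [e, dd_sum _ (fun j z => β j * (hess G z)⁻¹ i j) fun j _ => (d i j).const_mul _,
      ← d3_mulVec_swap h v, mulVec_mulVec, mulVec_mulVec, ← neg_mulVec]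
    refine Finset.sum_congr rfl fun j _ => ?_
    rw [dd_const_mul, dd_inv_hess h hp, mul_comm]
    rfl

lemma hess2_Pt2 (h : ContDiffAt ℝ 4 G y) (hp : (hess G y).PosDef) (β : E N) :
    hess (fun z => qf (hess G z)⁻¹ β β) y =
      (2 : ℝ) • (d3 G y ((hess G y)⁻¹ *ᵥ β) * (hess G y)⁻¹ * d3 G y ((hess G y)⁻¹ *ᵥ β))
        - d4 G y ((hess G y)⁻¹ *ᵥ β) ((hess G y)⁻¹ *ᵥ β) := by
  have h3 : ContDiffAt ℝ 3 G y := h.of_le (by norm_num)
  have hs := d3_symm h3 ((hess G y)⁻¹ *ᵥ β)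
  have hi := posDef_isSymm hp.inv
  refine mat_ext_qf fun v w => ?_
  have ev : dd w (fun z => qf (hess G z)⁻¹ β β) =ᶠ[𝓝 y]
      fun z => -qf (d3 G z w) ((hess G z)⁻¹ *ᵥ β) ((hess G z)⁻¹ *ᵥ β) := by
    filter_upwards [h3.eventually (by simp), eventually_posDef_hess (h.of_le (by norm_num)) hp]
      with z z1 z2 using dd_qf_inv z1 z2 w β β
  have d : ∀ i j, DifferentiableAt ℝ (fun z => d3 G z w i j) y := fun i j =>
    (contDiffAt_dd (k := 1) (contDiffAt_pd (k := 2) (contDiffAt_pd (k := 3) h j) i)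
      w).differentiableAt (by simp)
  have c := qf_conj (hess G y)⁻¹ (d3 G y ((hess G y)⁻¹ *ᵥ β)) v w
  rw [hs.eq] at c
  rw [← dd_dd_eq_qf (contDiffAt_qf_inv (k := 2) h hp β β), (dd_congr ev v).eq_of_nhds, dd_neg,
    ddqf_Pt2 d (om_Pt2 h3 hp β).1, (om_Pt2 h3 hp β).2, qf_sub, qf_smul, c,
    ← d4_pair h v w, qf_symm (d3_symm h3 w) ((hess G y)⁻¹ *ᵥ β), qf_symm hi]
  have e1 : (Matrix.of fun i j => dd v (fun z => d3 G z w i j) y) = d4 G y v w := rfl
  rw [e1, qf, d3_mulVec_swap h3 w, neg_dotProduct, dotProduct_comm]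
  simp only [qf]
  ring

theorem sPt2 (hGeo1 : Geo1Stmt) : Pt2Stmt := by
  intro N W b0 G hW hG b β y hy
  have h : ContDiffAt ℝ 4 G y := (hG.ma y hy).smooth
  have hp := (hG.ma y hy).pos
  have h3 : ContDiffAt ℝ 3 G y := h.of_le (by norm_num)
  have h2 : ContDiffAt ℝ 2 G y := h.of_le (by norm_num)
  have e3 := (hGeo1 N W b0 G hW hG y hy).2.2.1
  have c1 : ContDiffAt ℝ 2 (fun z => qf (hess G z) b b) y := contDiffAt_qf_hess (k := 2) h b b
  have c2 : ContDiffAt ℝ 2 (fun z => qf (hess G z)⁻¹ β β) y := contDiffAt_qf_inv (k := 2) h hp β β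
  have d1 := c1.differentiableAt (by simp)
  have d2 := c2.differentiableAt (by simp)
  have eQ : QQ G b β = fun z => qf (hess G z) b b + qf (hess G z)⁻¹ β β := rfl
  have t4 : ∀ v, ((hess G y)⁻¹ * d4 G y v v).trace = 2 * qf (hess G y) v v + cal G y v := by
    intro v
    have ev : ldet G =ᶠ[𝓝 y] fun z => 2 * G z := by
      filter_upwards [(isOpen_oV W).mem_nhds hy] with z hz using (hG.ma z hz).eqn
    have k := dd2_ldet h hp v v
    rw [(dd_congr (dd_congr ev v) v).eq_of_nhds, dd_dd_eq_qf (contDiffAt_const.mul h2),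
      hess_const_mul, qf_smul] at k
    rw [cal]
    linarith
  have eo := qf_inv_mulVec hp β β
  have g2 : grad (fun z => qf (hess G z)⁻¹ β β) y =
      -(d3 G y ((hess G y)⁻¹ *ᵥ β) *ᵥ ((hess G y)⁻¹ *ᵥ β)) := by
    funext i
    rw [grad, pd, dd_qf_inv h3 hp, d3_swap h3, qf, single_one_dotProduct]
    rfl
  have hL : LB G (QQ G b β) y = cal G y b + cal G y ((hess G y)⁻¹ *ᵥ β) := by
    rw [LB, Lop, eQ, hess_add c1 c2, dd_add d1 d2, hess_qf_hess h, hess2_Pt2 h hp, dd_qf_hess h3,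
      dd_qf_inv h3 hp, e3, qf_smul, qf_smul, Matrix.mul_add, Matrix.mul_sub, Matrix.mul_smul,
      trace_add, trace_sub, trace_smul, t4, t4, ← Matrix.mul_assoc, ← Matrix.mul_assoc, ← cal,
      smul_eq_mul]
    ring
  have p1 := qf_nonneg hp b
  have p2 := qf_nonneg hp.inv β
  have k1 := hG.calabi y hy b
  have k2 := hG.calabi y hy ((hess G y)⁻¹ *ᵥ β)
  have n1 : 0 ≤ cal G y b := tq_nonneg hp (d3_symm h3 _)
  have n2 : 0 ≤ cal G y ((hess G y)⁻¹ *ᵥ β) := tq_nonneg hp (d3_symm h3 _)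
  have m1 := tq_mulVec hp (d3_symm h3 b) b
  have m2 := tq_mulVec hp (d3_symm h3 ((hess G y)⁻¹ *ᵥ β)) ((hess G y)⁻¹ *ᵥ β)
  rw [← cal] at m1 m2
  rw [eo] at k2 m2
  refine ⟨c1.add c2, add_nonneg p1 p2, ?_, ?_, ?_⟩
  · rw [hL]
    exact add_nonneg n1 n2
  · rw [hL, QQ]
    linarith
  · rw [ip, QQ, eQ, grad_add d1 d2, grad_qf_hess h3, g2, ← neg_one_smul ℝ (d3 G y _ *ᵥ _)]
    have p3 := qf_nonneg hp.inv
      (d3 G y b *ᵥ b + d3 G y ((hess G y)⁻¹ *ᵥ β) *ᵥ ((hess G y)⁻¹ *ᵥ β))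
    simp only [qf_add_left, qf_add_right, qf_smul_left, qf_smul_right] at p3 ⊢
    nlinarith [mul_le_mul_of_nonneg_right k1 p1, mul_le_mul_of_nonneg_right k2 p2,
      mul_nonneg p1 p2, mul_nonneg p1 p1, mul_nonneg p2 p2]

end Pool.Agent.MP_5f4cdd_gt.CB
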