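import Pool.Agent.MP_5f4cdd_gt.CB.Api

set_option autoImplicit false
open MeasureTheory Matrix Set Filter Topology

namespace Pool.Agent.MP_5f4cdd_gt.CB

theorem sRed (hMain : MainStmt) (hRedA : RedAStmt) (hRedB : RedBStmt) (hRedC : RedCStmt)
    (hRedD : RedDStmt) : RedStmt := by
  intro n K hc hK hi
  have hne : K.Nonempty := hi.mono interior_subset
  by_cases h0 : (0 : Fin n → ℝ) ∈ interior K
  · obtain ⟨⟨b0, hPC⟩, hb, hβ⟩ := hRedA n K hK h0
    have hdot : (Pi.single 0 (n + 1 : ℝ) : E (n + 1)) ⬝ᵥ (Pi.single 0 (1 : ℝ) : E (n + 1))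
        = ((n + 1 : ℕ) : ℝ) := by
      rw [single_dotProduct]
      simp
    have h1 := hMain (n + 1) (coneW K) b0 (Nat.succ_pos n) hPC _ hb _ hβ hdot
    rw [hRedB n K hK hne] at h1
    have h2 := hRedC n K hc hK hne
    set I := ∫⁻ y : Fin n → ℝ, ENNReal.ofReal
        (Real.exp (-(sSup ((fun x : Fin n → ℝ => ∑ i, x i * y i) '' K)))) with hI
    have h3 : ENNReal.ofReal ((788 / 1000 : ℝ) ^ (n + 1))
        ≤ ENNReal.ofReal ((n + 1 : ℝ) ^ (n + 1))⁻¹ * I
          * (ENNReal.ofReal n.factorial * volume K) :=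
      h1.trans (mul_le_mul_right h2 _)
    have hN : (0 : ℝ) < (n + 1 : ℝ) ^ (n + 1) := by positivity
    have hF : (0 : ℝ) < (n.factorial : ℝ) := by exact_mod_cast n.factorial_pos
    have h4 : ENNReal.ofReal ((n + 1 : ℝ) ^ (n + 1))⁻¹ * ENNReal.ofReal n.factorial
        * ENNReal.ofReal ((n + 1 : ℝ) ^ (n + 1) / n.factorial) = 1 := by
      rw [← ENNReal.ofReal_mul (by positivity), ← ENNReal.ofReal_mul (by positivity)]
      have : ((n + 1 : ℝ) ^ (n + 1))⁻¹ * (n.factorial : ℝ)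
          * ((n + 1 : ℝ) ^ (n + 1) / n.factorial) = 1 := by
        field_simp
      rw [this, ENNReal.ofReal_one]
    rw [ENNReal.ofReal_mul (by positivity)]
    calc ENNReal.ofReal ((788 / 1000 : ℝ) ^ (n + 1))
          * ENNReal.ofReal ((n + 1 : ℝ) ^ (n + 1) / n.factorial)
        ≤ ENNReal.ofReal ((n + 1 : ℝ) ^ (n + 1))⁻¹ * I
          * (ENNReal.ofReal n.factorial * volume K)
          * ENNReal.ofReal ((n + 1 : ℝ) ^ (n + 1) / n.factorial) := mul_le_mul_left h3 _
      _ = (ENNReal.ofReal ((n + 1 : ℝ) ^ (n + 1))⁻¹ * ENNReal.ofReal n.factorial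
          * ENNReal.ofReal ((n + 1 : ℝ) ^ (n + 1) / n.factorial)) * (volume K * I) := by
          ring
      _ = volume K * I := by rw [h4, one_mul]
  · rw [hRedD n K hc hK hi h0]
    have hv : volume K ≠ 0 := (Measure.measure_pos_of_nonempty_interior volume hi).ne'
    rw [ENNReal.mul_top hv]
    exact le_top

end Pool.Agent.MP_5f4cdd_gt.CB
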