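import Pool.Agent.MP_5f4cdd_gt.CB.Api

set_option autoImplicit false
open MeasureTheory Matrix Set Filter Topology

namespace Pool.Agent.MP_5f4cdd_gt.CB

/-- the support function -/
noncomputable def hs_RedB {n : ℕ} (K : Set (Fin n → ℝ)) (y : Fin n → ℝ) : ℝ :=
  sSup ((fun x : Fin n → ℝ => ∑ i, x i * y i) '' K)

variable {n : ℕ} {K : Set (Fin n → ℝ)}

theorem cont_RedB (hK : IsCompact K) : Continuous (hs_RedB K) :=
  hK.continuous_sSup (f := fun (y x : Fin n → ℝ) => ∑ i, x i * y i) (by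
    show Continuous fun p : (Fin n → ℝ) × (Fin n → ℝ) => ∑ i, p.2 i * p.1 i
    fun_prop)

theorem le_iff_RedB (hK : IsCompact K) (hne : K.Nonempty) (y : Fin n → ℝ) (s : ℝ) :
    hs_RedB K y ≤ s ↔ ∀ x ∈ K, ∑ i, x i * y i ≤ s := by
  have hc : ContinuousOn (fun x : Fin n → ℝ => ∑ i, x i * y i) K := by fun_prop
  rw [hs_RedB, csSup_le_iff (hK.bddAbove_image hc) (hne.image _), forall_mem_image]

theorem smul_RedB (hK : IsCompact K) (hne : K.Nonempty) (y : Fin n → ℝ) {c : ℝ} (hc : 0 < c) :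
    hs_RedB K (c • y) = c * hs_RedB K y := by
  refine eq_of_forall_ge_iff fun s => ?_
  rw [← le_div_iff₀' hc, le_iff_RedB hK hne, le_iff_RedB hK hne]
  refine forall₂_congr fun x _ => ?_
  rw [le_div_iff₀' hc, Finset.mul_sum]
  refine Iff.of_eq (congrArg (· ≤ s) (Finset.sum_congr rfl fun i _ => ?_))
  rw [Pi.smul_apply, smul_eq_mul, mul_left_comm]

theorem mem_RedB (hK : IsCompact K) (hne : K.Nonempty) (ζ : E (n + 1)) :
    ζ ∈ coneW K ↔ hs_RedB K (-fun i => ζ i.succ) ≤ ζ 0 := by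
  rw [le_iff_RedB hK hne]
  refine forall₂_congr fun x _ => ?_
  simp only [Pi.neg_apply, mul_neg, Finset.sum_neg_distrib]
  constructor <;> intro h <;> linarith

theorem inner_RedB {c : ℝ} (hc : 0 < c) (t : ℝ) :
    ∫⁻ s in Ici t, ENNReal.ofReal (Real.exp (-c * s)) =
      ENNReal.ofReal c⁻¹ * ENNReal.ofReal (Real.exp (-(c * t))) := by
  rw [← setLIntegral_congr Ioi_ae_eq_Ici, ← ofReal_integral_eq_lintegral_ofReal
    (integrableOn_exp_mul_Ioi (neg_lt_zero.2 hc) t)
    (Eventually.of_forall fun s => (Real.exp_pos _).le),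
    integral_exp_mul_Ioi (neg_lt_zero.2 hc), ← ENNReal.ofReal_mul (inv_nonneg.2 hc.le),
    neg_div_neg_eq, neg_mul, div_eq_inv_mul]

theorem scale_RedB {g : (Fin n → ℝ) → ENNReal} (hg : Measurable g) {c : ℝ} (hc : 0 < c) :
    ∫⁻ w, g (c • -w) = ENNReal.ofReal (c ^ n)⁻¹ * ∫⁻ y, g y := by
  have h := Measure.map_addHaar_smul (volume : Measure (Fin n → ℝ)) (neg_ne_zero.2 hc.ne')
  have e : ∫⁻ w, g (c • -w) = ∫⁻ y, g y ∂(Measure.map ((-c) • ·) volume) := by
    rw [lintegral_map hg (measurable_const_smul _)]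
    simp only [smul_neg, neg_smul]
  rw [e, h, lintegral_smul_measure, Module.finrank_fin_fun, abs_inv, abs_pow, abs_neg,
    abs_of_pos hc, smul_eq_mul]

theorem sRedB : RedBStmt := by
  intro n K hK hne
  have hc : (0 : ℝ) < n + 1 := by positivity
  have hh := cont_RedB hK
  have hS : MeasurableSet {p : ℝ × (Fin n → ℝ) | hs_RedB K (-p.2) ≤ p.1} :=
    (isClosed_le (hh.comp continuous_snd.neg) continuous_fst).measurableSet
  have hW : MeasurableSet (coneW K) := by
    have e : coneW K = {ζ : E (n + 1) | hs_RedB K (-fun i => ζ i.succ) ≤ ζ 0} :=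
      Set.ext (mem_RedB hK hne)
    rw [e]
    exact (isClosed_le (hh.comp (by fun_prop)) (continuous_apply 0)).measurableSet
  let F : ℝ × (Fin n → ℝ) → ENNReal := {p : ℝ × (Fin n → ℝ) | hs_RedB K (-p.2) ≤ p.1}.indicator
    fun p => ENNReal.ofReal (Real.exp (-(n + 1 : ℝ) * p.1))
  have hF : Measurable F := Measurable.indicator (by fun_prop) hS
  have e1 : ∫⁻ η in coneW K,
      ENNReal.ofReal (Real.exp (-((Pi.single 0 (n + 1 : ℝ) : E (n + 1)) ⬝ᵥ η))) =
      ∫⁻ η, F (MeasurableEquiv.piFinSuccAbove (fun _ => ℝ) 0 η) := by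
    rw [← lintegral_indicator hW]
    refine lintegral_congr fun η => ?_
    by_cases h : η ∈ coneW K
    · rw [indicator_of_mem h, single_dotProduct, ← neg_mul]
      have h' : (η 0, fun i : Fin n => η i.succ) ∈
        {p : ℝ × (Fin n → ℝ) | hs_RedB K (-p.2) ≤ p.1} := (mem_RedB hK hne η).1 h
      exact (indicator_of_mem h'
        (fun p => ENNReal.ofReal (Real.exp (-(n + 1 : ℝ) * p.1)))).symm
    · rw [indicator_of_notMem h]
      exact (indicator_of_notMem (s := {p : ℝ × (Fin n → ℝ) | hs_RedB K (-p.2) ≤ p.1})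
        (fun k => h ((mem_RedB hK hne η).2 k)) _).symm
  have e2 : ∀ w : Fin n → ℝ, ∫⁻ s, F (s, w) = ENNReal.ofReal (n + 1 : ℝ)⁻¹ *
      ENNReal.ofReal (Real.exp (-hs_RedB K ((n + 1 : ℝ) • -w))) := by
    intro w
    rw [smul_RedB hK hne _ hc, ← inner_RedB hc, ← lintegral_indicator measurableSet_Ici]
    rfl
  have hg : Measurable fun y => ENNReal.ofReal (Real.exp (-hs_RedB K y)) :=
    hh.neg.rexp.measurable.ennreal_ofReal
  rw [e1, (volume_preserving_piFinSuccAbove (fun _ : Fin (n + 1) => ℝ) 0).lintegral_comp_emb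
    (MeasurableEquiv.measurableEmbedding _) F, Measure.volume_eq_prod,
    lintegral_prod_symm F hF.aemeasurable, lintegral_congr e2,
    lintegral_const_mul' _ _ ENNReal.ofReal_ne_top, scale_RedB hg hc, ← mul_assoc,
    ← ENNReal.ofReal_mul (inv_nonneg.2 hc.le), ← mul_inv, ← pow_succ']
  rfl

end Pool.Agent.MP_5f4cdd_gt.CB
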