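import Pool.Agent.MP_5f4cdd_gt.CB.Api

set_option autoImplicit false
open MeasureTheory Matrix Set Filter Topology

namespace Pool.Agent.MP_5f4cdd_gt.CB

theorem sub_RedC {n : ℕ} {K : Set (Fin n → ℝ)} (hc : Convex ℝ K) (hK : IsCompact K)
    {y : E (n + 1)} (hy : y ∈ oV (coneW K)) :
    0 < y 0 ∧ (y 0)⁻¹ • (fun i : Fin n => y i.succ) ∈ K := by
  obtain ⟨c, hc0, hy⟩ := hy
  have h0 : 0 < y 0 := by
    have hm : (Pi.single 0 (1 : ℝ) : E (n + 1)) ∈ coneW K := by
      intro x _
      simp
    have h1 := hy _ hm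
    rw [dotProduct_single, mul_one] at h1
    have h2 : 0 < ‖(Pi.single 0 (1 : ℝ) : E (n + 1))‖ := by
      rw [norm_pos_iff]
      intro h
      have := congrFun h 0
      simp at this
    exact lt_of_lt_of_le (mul_pos hc0 h2) h1
  refine ⟨h0, ?_⟩
  by_contra hn
  obtain ⟨f, s, hf, hs⟩ := geometric_hahn_banach_point_closed hc hK.isClosed hn
  have hfx : ∀ x : Fin n → ℝ, f x = ∑ i, x i * f (Pi.single i 1) := by
    intro x
    have e : x = ∑ i, x i • (Pi.single i (1 : ℝ) : Fin n → ℝ) := by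
      ext j; simp [Finset.sum_apply, Pi.single_apply]
    conv_lhs => rw [e, map_sum]
    simp only [map_smul, smul_eq_mul]
  set ζ : E (n + 1) := Fin.cons (-s) fun i => f (Pi.single i 1) with hζ
  have hm : ζ ∈ coneW K := by
    intro x hx
    have := hs x hx
    rw [hfx] at this
    simp only [hζ, Fin.cons_zero, Fin.cons_succ]
    linarith
  have h1 := hy _ hm
  have h2 : y ⬝ᵥ ζ = y 0 * (f ((y 0)⁻¹ • fun i : Fin n => y i.succ) - s) := by
    rw [map_smul, hfx, dotProduct, Fin.sum_univ_succ]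
    simp only [hζ, Fin.cons_zero, Fin.cons_succ, smul_eq_mul]
    field_simp
    ring
  have h3 : 0 ≤ c * ‖ζ‖ := mul_nonneg hc0.le (norm_nonneg _)
  have h4 : y 0 * (f ((y 0)⁻¹ • fun i : Fin n => y i.succ) - s) < 0 :=
    mul_neg_of_pos_of_neg h0 (by linarith)
  linarith

theorem gamma_RedC (n : ℕ) : ∫⁻ t in Ioi (0 : ℝ), ENNReal.ofReal (Real.exp (-t) * t ^ n)
    = ENNReal.ofReal n.factorial := by
  have hs : (0 : ℝ) < n + 1 := by positivity
  have h1 := Real.GammaIntegral_convergent hs
  have h2 := Real.Gamma_eq_integral hs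
  rw [Real.Gamma_nat_eq_factorial] at h2
  simp only [add_sub_cancel_right, Real.rpow_natCast] at h1 h2
  rw [h2, ofReal_integral_eq_lintegral_ofReal h1]
  filter_upwards [ae_restrict_mem measurableSet_Ioi] with t ht
  exact mul_nonneg (Real.exp_pos _).le (pow_nonneg (le_of_lt ht) n)

theorem sRedC : RedCStmt := by
  intro n K hc hK _
  have hKm : MeasurableSet K := hK.isClosed.measurableSet
  set D : Set (ℝ × (Fin n → ℝ)) := {p | 0 < p.1 ∧ p.1⁻¹ • p.2 ∈ K} with hD
  have hDm : MeasurableSet D :=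
    (measurableSet_lt measurable_const measurable_fst).inter
      ((measurable_fst.inv.smul measurable_snd) hKm)
  set g : ℝ × (Fin n → ℝ) → ENNReal :=
    D.indicator fun p => ENNReal.ofReal (Real.exp (-p.1)) with hg
  have hgm : Measurable g :=
    Measurable.indicator (by fun_prop) hDm
  have hmp := volume_preserving_piFinSuccAbove (fun _ : Fin (n + 1) => ℝ) 0
  set e := MeasurableEquiv.piFinSuccAbove (fun _ : Fin (n + 1) => ℝ) 0 with he
  have he1 : ∀ y : E (n + 1), e y = (y 0, fun i : Fin n => y i.succ) := fun y => by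
    simp only [he, MeasurableEquiv.piFinSuccAbove_apply, Fin.insertNthEquiv_symm_apply]
    rfl
  have step1 : ∫⁻ y in oV (coneW K),
      ENNReal.ofReal (Real.exp (-((Pi.single 0 (1 : ℝ) : E (n + 1)) ⬝ᵥ y)))
      ≤ ∫⁻ y : E (n + 1), g (e y) := by
    have hsub : oV (coneW K) ⊆ e ⁻¹' D := fun y hy => by
      rw [mem_preimage, he1]
      exact sub_RedC hc hK hy
    refine (lintegral_mono_set hsub).trans (le_of_eq ?_)
    rw [← lintegral_indicator (e.measurable hDm)]
    refine lintegral_congr fun y => ?_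
    rw [hg]
    by_cases hy : e y ∈ D
    · rw [indicator_of_mem hy, indicator_of_mem (show y ∈ e ⁻¹' D from hy), he1,
        single_one_dotProduct]
    · rw [indicator_of_notMem hy, indicator_of_notMem (show y ∉ e ⁻¹' D from hy)]
  refine step1.trans (le_of_eq ?_)
  rw [hmp.lintegral_comp hgm, Measure.volume_eq_prod, lintegral_prod _ hgm.aemeasurable,
    ← gamma_RedC, ← lintegral_mul_const _ (by fun_prop),
    ← lintegral_indicator measurableSet_Ioi]
  refine lintegral_congr fun t => ?_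
  by_cases ht : 0 < t
  · rw [indicator_of_mem (show t ∈ Ioi (0 : ℝ) from ht)]
    have e1 : (fun x : Fin n → ℝ => g (t, x)) =
        ((t⁻¹ • ·) ⁻¹' K).indicator fun _ => ENNReal.ofReal (Real.exp (-t)) := by
      funext x
      rw [hg]
      by_cases hx : t⁻¹ • x ∈ K
      · rw [indicator_of_mem (show (t, x) ∈ D from ⟨ht, hx⟩),
          indicator_of_mem (show x ∈ (t⁻¹ • ·) ⁻¹' K from hx)]
      · rw [indicator_of_notMem (show (t, x) ∉ D from fun h => hx h.2),
          indicator_of_notMem (show x ∉ (t⁻¹ • ·) ⁻¹' K from hx)]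
    rw [e1, lintegral_indicator_const ((measurable_const_smul _) hKm),
      Measure.addHaar_preimage_smul _ (inv_ne_zero ht.ne'), ← mul_assoc,
      ← ENNReal.ofReal_mul (Real.exp_pos _).le]
    simp [abs_of_pos (pow_pos ht n)]
  · rw [indicator_of_notMem (show t ∉ Ioi (0 : ℝ) from ht)]
    have e1 : (fun x : Fin n → ℝ => g (t, x)) = fun _ => 0 := by
      funext x
      rw [hg, indicator_of_notMem (show (t, x) ∉ D from fun h => ht h.1)]
    rw [e1, lintegral_zero]

end Pool.Agent.MP_5f4cdd_gt.CB
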