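import Pool.Agent.MP_5f4cdd_gt.CB.Api

set_option autoImplicit false
open MeasureTheory Matrix Set Filter Topology

namespace Pool.Agent.MP_5f4cdd_gt.CB

lemma sep_RedD {n : ℕ} {K : Set (Fin n → ℝ)} (hc : Convex ℝ K) (hi : (interior K).Nonempty)
    (h0 : 0 ∉ interior K) : ∃ w : Fin n → ℝ, w ≠ 0 ∧ ∀ x ∈ K, ∑ i, x i * w i ≤ 0 := by
  obtain ⟨f, hf⟩ := geometric_hahn_banach_open_point hc.interior isOpen_interior h0
  rw [map_zero] at hf
  have hfu : ∀ x : Fin n → ℝ, ∑ i, x i * f (Pi.single i 1) = f x := fun x => by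
    conv_rhs => rw [← Finset.univ_sum_single x, map_sum]
    refine Finset.sum_congr rfl fun i _ => ?_
    rw [← smul_eq_mul, ← map_smul]
    congr 1
    ext j
    by_cases h : j = i
    · subst h; simp
    · simp [h]
  refine ⟨fun i => f (Pi.single i 1), fun h => ?_, fun x hx => ?_⟩
  · obtain ⟨x, hx⟩ := hi
    have h1 := hf x hx
    rw [← hfu] at h1
    have h2 : ∀ i, f (Pi.single i 1) = 0 := fun i => congrFun h i
    simp [h2] at h1
  · have h1 : x ∈ closure (interior K) := by
      rw [hc.closure_interior_eq_closure_of_nonempty_interior hi]; exact subset_closure hx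
    rw [hfu]
    exact closure_minimal (t := {x | f x ≤ 0}) (fun x hx => (hf x hx).le)
      (isClosed_le f.continuous continuous_const) h1

lemma vol_RedD {n : ℕ} {u : Fin n → ℝ} (hu : u ≠ 0) :
    volume (⋃ k : ℕ, Metric.ball ((2 * k / ‖u‖) • u) 1) = ⊤ := by
  have hun : 0 < ‖u‖ := norm_pos_iff.2 hu
  have hdisj : Pairwise (Function.onFun Disjoint
      fun k : ℕ => Metric.ball ((2 * k / ‖u‖) • u) 1) := by
    intro k l hkl
    refine Metric.ball_disjoint_ball ?_
    rw [dist_eq_norm, ← sub_smul, norm_smul, ← sub_div, Real.norm_eq_abs, abs_div,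
      abs_of_pos hun, div_mul_cancel₀ _ hun.ne', ← mul_sub, abs_mul]
    have : (1 : ℝ) ≤ |(k : ℝ) - l| := by
      have : (1 : ℤ) ≤ |(k : ℤ) - l| := Int.one_le_abs (sub_ne_zero.2 (by exact_mod_cast hkl))
      exact_mod_cast this
    rw [abs_two]; linarith
  rw [measure_iUnion hdisj fun k => measurableSet_ball]
  simp only [Measure.addHaar_ball_center]
  exact ENNReal.tsum_const_eq_top_of_ne_zero (Metric.measure_ball_pos volume 0 one_pos).ne'

theorem sRedD : RedDStmt := by
  intro n K hc hK hi h0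
  have hne : K.Nonempty := hi.mono interior_subset
  obtain ⟨u, hu0, hK0⟩ := sep_RedD hc hi h0
  obtain ⟨R, hR⟩ := hK.isBounded.exists_norm_le
  have hun : 0 < ‖u‖ := norm_pos_iff.2 hu0
  refine top_le_iff.1 ?_
  calc ⊤ = ∫⁻ _ in ⋃ k : ℕ, Metric.ball ((2 * k / ‖u‖) • u) 1,
        ENNReal.ofReal (Real.exp (-(n * |R|))) := by
        rw [setLIntegral_const, vol_RedD hu0, ENNReal.mul_top (by simp [Real.exp_pos])]
    _ ≤ ∫⁻ y in ⋃ k : ℕ, Metric.ball ((2 * k / ‖u‖) • u) 1, ENNReal.ofReal
        (Real.exp (-(sSup ((fun x : Fin n → ℝ => ∑ i, x i * y i) '' K)))) := by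
        refine setLIntegral_mono' (MeasurableSet.iUnion fun k => measurableSet_ball)
          fun y hy => ENNReal.ofReal_le_ofReal (Real.exp_le_exp.2 (neg_le_neg ?_))
        obtain ⟨k, hk⟩ := mem_iUnion.1 hy
        rw [Metric.mem_ball, dist_eq_norm] at hk
        refine csSup_le (hne.image _) ?_
        rintro _ ⟨x, hx, rfl⟩
        set t : ℝ := 2 * k / ‖u‖ with ht
        have ht0 : 0 ≤ t := by positivity
        have e : ∑ i, x i * y i = ∑ i, x i * (y - t • u) i + t * ∑ i, x i * u i := by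
          rw [Finset.mul_sum, ← Finset.sum_add_distrib]
          refine Finset.sum_congr rfl fun i _ => ?_
          simp only [Pi.sub_apply, Pi.smul_apply, smul_eq_mul]
          ring
        have a1 : t * ∑ i, x i * u i ≤ 0 := mul_nonpos_of_nonneg_of_nonpos ht0 (hK0 x hx)
        have a2 : ∑ i, x i * (y - t • u) i ≤ ∑ _i : Fin n, |R| := by
          refine Finset.sum_le_sum fun i _ => (le_abs_self _).trans ?_
          rw [abs_mul]
          have b1 : |x i| ≤ |R| := ((norm_le_pi_norm x i).trans (hR x hx)).trans (le_abs_self R)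
          have b2 : |(y - t • u) i| ≤ 1 := (norm_le_pi_norm (y - t • u) i).trans hk.le
          calc |x i| * |(y - t • u) i| ≤ |R| * 1 :=
                mul_le_mul b1 b2 (abs_nonneg _) (abs_nonneg _)
            _ = _ := mul_one _
        rw [Finset.sum_const, Finset.card_univ, Fintype.card_fin, nsmul_eq_mul] at a2
        show ∑ i, x i * y i ≤ _
        linarith
    _ ≤ _ := setLIntegral_le_lintegral _ _

end Pool.Agent.MP_5f4cdd_gt.CB
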