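import Pool.Agent.MP_5f4cdd_gt.CB.Api

set_option autoImplicit false
open MeasureTheory Matrix Set Filter Topology

namespace Pool.Agent.MP_5f4cdd_gt.CB

theorem meas_Res (hSm : SmStmt) {N : ℕ} {M : ℝ} {f : E N → ℝ} (hf : HB 0 M f) (x : E N) :
    AEStronglyMeasurable (fun s : ℝ => s * Real.exp (-s ^ 2) * KS gk s f x)
      (volume.restrict (Ioi 0)) := by
  obtain ⟨C, -, h⟩ := hSm N
  have h1 := (h M f hf 1 one_pos).2.2.2.2.2.2.2.2.1 x
  exact (ContinuousOn.mul (by fun_prop) h1).aestronglyMeasurable measurableSet_Ioi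

theorem bound_Res (hSm : SmStmt) {N : ℕ} {M : ℝ} {f : E N → ℝ} (hf : HB 0 M f) (x : E N) {s : ℝ}
    (hs : 0 < s) : ‖s * Real.exp (-s ^ 2) * KS gk s f x‖ ≤ s * Real.exp (-1 * s ^ 2) * M := by
  obtain ⟨C, -, h⟩ := hSm N
  rw [Real.norm_eq_abs, abs_mul, abs_of_pos (by positivity), neg_one_mul]
  exact mul_le_mul_of_nonneg_left ((h M f hf s hs).1.bound x) (by positivity)

theorem int_Res (c : ℝ) : Integrable (fun s : ℝ => s * Real.exp (-1 * s ^ 2) * c)
    (volume.restrict (Ioi 0)) :=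
  ((integrable_mul_exp_neg_mul_sq one_pos).mul_const c).integrableOn

theorem line_Res (hSm : SmStmt) {N : ℕ} {M M' : ℝ} {f g : E N → ℝ} (h0 : HB 0 M f)
    (h1 : HB 0 M' g) (x v : E N)
    (h : ∀ s t : ℝ, HasDerivAt (fun t : ℝ => KS gk s f (x + t • v)) (KS gk s g (x + t • v)) t) :
    HasDerivAt (fun t : ℝ => Res f (x + t • v)) (Res g (x + (0 : ℝ) • v)) 0 := by
  have hs : ∀ᵐ s ∂(volume.restrict (Ioi (0 : ℝ))), s ∈ Ioi (0 : ℝ) :=
    ae_restrict_mem measurableSet_Ioi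
  unfold Res
  exact (hasDerivAt_integral_of_dominated_loc_of_deriv_le (μ := volume.restrict (Ioi 0))
    (F := fun (t s : ℝ) => s * Real.exp (-s ^ 2) * KS gk s f (x + t • v))
    (F' := fun (t s : ℝ) => s * Real.exp (-s ^ 2) * KS gk s g (x + t • v))
    (x₀ := 0) (s := univ) (bound := fun s => s * Real.exp (-1 * s ^ 2) * M') univ_mem
    (Eventually.of_forall fun t => meas_Res hSm h0 _)
    ((int_Res M).mono' (meas_Res hSm h0 _) (hs.mono fun s hs => bound_Res hSm h0 _ hs))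
    (meas_Res hSm h1 _) (hs.mono fun s hs t _ => bound_Res hSm h1 _ hs) (int_Res M')
    (Eventually.of_forall fun s t _ => (h s t).const_mul _)).2

theorem pd_Res (hSm : SmStmt) (hHeat : HeatStmt) {N : ℕ} {M : ℝ} {f : E N → ℝ} (hf : HB 1 M f)
    (hd : Differentiable ℝ (Res f)) (i : Fin N) : pd i (Res f) = Res (pd i f) := by
  funext x
  have key := line_Res hSm hf.lower (hf.pd i) x (Pi.single i 1) fun s t => by
    obtain ⟨k1, k2⟩ := (hHeat N M f hf).1 s
    rw [← k2]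
    exact hasDerivAt_line (k1 _)
  have h2 := (hasDerivAt_line (x := x) (v := Pi.single i 1) (t := 0) (hd _)).unique key
  rw [zero_smul, add_zero] at h2
  exact h2

theorem hb_Res (hSm : SmStmt) (hHeat : HeatStmt) (hRes0 : Res0Stmt) (N k : ℕ) :
    ∃ C : ℝ, 0 ≤ C ∧ ∀ (M : ℝ) (f : E N → ℝ), HB k M f → HB (k + 2) (C * M) (Res f) := by
  obtain ⟨C0, hC0, h0⟩ := hRes0 N
  induction k with
  | zero => exact ⟨C0, hC0, fun M f hf => (h0 M f hf).1⟩
  | succ k ih =>
    obtain ⟨C, hC, ih⟩ := ih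
    refine ⟨C0 * (N + 2) ^ (k + 1) + C, by positivity, fun M f hf => ?_⟩
    have hM := hf.nonneg
    have h1 := (h0 _ f (hf.lower_le (Nat.zero_le _))).1
    have h2 : 0 ≤ C0 * (N + 2) ^ (k + 1) * M := by positivity
    have h3 : 0 ≤ C * M := by positivity
    refine ⟨h1.1, fun x => (h1.bound x).trans ?_, fun i => ?_⟩
    · rw [add_mul, mul_assoc]
      linarith
    · rw [pd_Res hSm hHeat (hf.lower_le (Nat.le_add_left 1 k)) h1.1]
      refine (ih M _ (hf.pd i)).mono ?_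
      rw [add_mul]
      linarith

theorem sRes (hGk : GkStmt) (hSm : SmStmt) (hHeat : HeatStmt) (hRes0 : Res0Stmt)
    (hResEq : ResEqStmt) : ResStmt := by
  intro N k
  obtain ⟨C, hC, h⟩ := hb_Res hSm hHeat hRes0 N k
  refine ⟨C, hC, fun M f hf => ⟨fun x => -Res f x, (h M f hf).neg, fun x => ?_⟩⟩
  have h1 := hResEq N _ f (hf.lower_le (Nat.zero_le _)) x
  have h2 := hess_const_mul (-1) (Res f) x
  simp only [neg_one_mul] at h2
  rw [op] at h1 ⊢
  rw [h2, mul_smul_comm, trace_smul, smul_eq_mul]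
  linarith

end Pool.Agent.MP_5f4cdd_gt.CB
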