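import Pool.Agent.MP_5f4cdd_gt.CB.Api

set_option autoImplicit false
open MeasureTheory Matrix Set Filter Topology

namespace Pool.Agent.MP_5f4cdd_gt.CB

lemma rpA_Res0 {s : ℝ} (hs : 0 < s) : s ^ (-(1 / 2) : ℝ) = (√s)⁻¹ := by
  rw [Real.rpow_neg hs.le, Real.sqrt_eq_rpow]

lemma rpB_Res0 {s : ℝ} (hs : 0 < s) : s ^ (-(3 / 2) : ℝ) = (s * √s)⁻¹ := by
  rw [Real.rpow_neg hs.le, Real.sqrt_eq_rpow, show (3 / 2 : ℝ) = 1 + 1 / 2 by norm_num,
    Real.rpow_add hs, Real.rpow_one]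

lemma int_Res0 {a : ℝ} (ha : -1 < a) :
    IntegrableOn (fun s : ℝ => s ^ a * Real.exp (-s ^ 2)) (Ioi 0) := by
  have h := integrableOn_rpow_mul_exp_neg_mul_sq (b := 1) one_pos ha
  simpa only [neg_mul, one_mul] using h

lemma ptw_Res0 {a B s t : ℝ} (h : |s * t| ≤ B * s ^ a) :
    ‖s * Real.exp (-s ^ 2) * t‖ ≤ B * (s ^ a * Real.exp (-s ^ 2)) := by
  have e : s * Real.exp (-s ^ 2) * t = s * t * Real.exp (-s ^ 2) := by ring
  rw [e, Real.norm_eq_abs, abs_mul, abs_of_pos (Real.exp_pos _), ← mul_assoc]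
  exact mul_le_mul_of_nonneg_right h (Real.exp_pos _).le

lemma sup_Res0 {a : ℝ} (ha : -1 < a) : ∃ I : ℝ, 0 ≤ I ∧ ∀ (g : ℝ → ℝ) (B : ℝ),
    (∀ s, 0 < s → |s * g s| ≤ B * s ^ a) →
    |∫ s in Ioi (0 : ℝ), s * Real.exp (-s ^ 2) * g s| ≤ I * B := by
  refine ⟨∫ s in Ioi (0 : ℝ), s ^ a * Real.exp (-s ^ 2), ?_, fun g B h => ?_⟩
  · refine setIntegral_nonneg measurableSet_Ioi fun s hs => ?_
    exact mul_nonneg (Real.rpow_nonneg (le_of_lt hs) _) (Real.exp_pos _).le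
  · rw [mul_comm, ← integral_const_mul, ← Real.norm_eq_abs]
    refine norm_integral_le_of_norm_le ((int_Res0 ha).const_mul B) ?_
    exact (ae_restrict_iff' measurableSet_Ioi).2
      (Eventually.of_forall fun s hs => ptw_Res0 (h s hs))

lemma intg_Res0 {a B : ℝ} (ha : -1 < a) {g : ℝ → ℝ} (hg : ContinuousOn g (Ioi 0))
    (h : ∀ s, 0 < s → |s * g s| ≤ B * s ^ a) :
    IntegrableOn (fun s : ℝ => s * Real.exp (-s ^ 2) * g s) (Ioi 0) := by
  refine Integrable.mono' ((int_Res0 ha).const_mul B) ?_ ?_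
  · refine ContinuousOn.aestronglyMeasurable ?_ measurableSet_Ioi
    exact (Continuous.continuousOn (by fun_prop)).mul hg
  · exact (ae_restrict_iff' measurableSet_Ioi).2
      (Eventually.of_forall fun s hs => ptw_Res0 (h s hs))

lemma hol_Res0 {F : ℝ → ℝ} (hF : IntegrableOn F (Ioi 0)) {d A B : ℝ} (hd : 0 < d)
    (h1 : ∀ s, 0 < s → |F s| ≤ A * s ^ (-(1 / 2) : ℝ))
    (h2 : ∀ s, 0 < s → |F s| ≤ B * d * s ^ (-(3 / 2) : ℝ)) :
    |∫ s in Ioi (0 : ℝ), F s| ≤ (2 * A + 2 * B) * √d := by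
  have hsd : 0 < √d := Real.sqrt_pos.2 hd
  have hu : Ioi (0 : ℝ) = Ioc 0 d ∪ Ioi d := (Ioc_union_Ioi_eq_Ioi hd.le).symm
  have hsplit : ∫ s in Ioi (0 : ℝ), F s = (∫ s in Ioc 0 d, F s) + ∫ s in Ioi d, F s := by
    rw [hu]
    exact setIntegral_union (Ioc_disjoint_Ioi le_rfl) measurableSet_Ioi
      (hF.mono_set Ioc_subset_Ioi_self) (hF.mono_set (Ioi_subset_Ioi hd.le))
  have i1 : IntegrableOn (fun s : ℝ => s ^ (-(1 / 2) : ℝ)) (Ioc 0 d) :=
    (intervalIntegrable_iff_integrableOn_Ioc_of_le hd.le).1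
      (intervalIntegral.intervalIntegrable_rpow' (by norm_num))
  have v1 : ∫ s in Ioc (0 : ℝ) d, s ^ (-(1 / 2) : ℝ) = 2 * √d := by
    rw [← intervalIntegral.integral_of_le hd.le, integral_rpow (Or.inl (by norm_num)),
      show (-(1 / 2) + 1 : ℝ) = 1 / 2 by norm_num, Real.zero_rpow (by norm_num),
      ← Real.sqrt_eq_rpow]
    ring
  have i2 : IntegrableOn (fun s : ℝ => s ^ (-(3 / 2) : ℝ)) (Ioi d) :=
    integrableOn_Ioi_rpow_of_lt (by norm_num) hd
  have v2 : ∫ s in Ioi d, s ^ (-(3 / 2) : ℝ) = 2 * (√d)⁻¹ := by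
    rw [integral_Ioi_rpow_of_lt (by norm_num) hd,
      show (-(3 / 2) + 1 : ℝ) = -(1 / 2) by norm_num, rpA_Res0 hd]
    ring
  have b1 : |∫ s in Ioc (0 : ℝ) d, F s| ≤ A * (2 * √d) := by
    rw [← v1, ← integral_const_mul, ← Real.norm_eq_abs]
    refine norm_integral_le_of_norm_le (i1.const_mul A) ?_
    exact (ae_restrict_iff' measurableSet_Ioc).2
      (Eventually.of_forall fun s hs => h1 s hs.1)
  have b2 : |∫ s in Ioi d, F s| ≤ B * d * (2 * (√d)⁻¹) := by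
    rw [← v2, ← integral_const_mul, ← Real.norm_eq_abs]
    refine norm_integral_le_of_norm_le (i2.const_mul _) ?_
    exact (ae_restrict_iff' measurableSet_Ioi).2
      (Eventually.of_forall fun s hs => h2 s (hd.trans hs))
  have e : B * d * (2 * (√d)⁻¹) = 2 * B * √d := by
    have e1 : d = √d * √d := (Real.mul_self_sqrt hd.le).symm
    nth_rewrite 1 [e1]
    field_simp
  rw [hsplit]
  refine (abs_add_le _ _).trans ?_
  rw [e] at b2
  linarith

lemma exp_le_Res0 (s t : ℝ) : |s * Real.exp (-s ^ 2) * t| ≤ |s * t| := by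
  have e : s * Real.exp (-s ^ 2) * t = s * t * Real.exp (-s ^ 2) := by ring
  rw [e, abs_mul, abs_of_pos (Real.exp_pos _)]
  exact mul_le_of_le_one_right (abs_nonneg _)
    (Real.exp_le_one_iff.2 (neg_nonpos.2 (sq_nonneg s)))

theorem sRes0 (hSm : SmStmt) (hRes0a : Res0aStmt) : Res0Stmt := by
  intro N
  obtain ⟨C, hC, hS⟩ := hSm N
  obtain ⟨I0, hI0, h0⟩ := sup_Res0 (a := 1) (by norm_num)
  obtain ⟨I1, hI1, h1⟩ := sup_Res0 (a := 1 / 2) (by norm_num)
  obtain ⟨I2, hI2, h2⟩ := sup_Res0 (a := -(1 / 2)) (by norm_num)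
  have hN : (0 : ℝ) ≤ N := Nat.cast_nonneg N
  refine ⟨I0 + I1 * C + I2 * C + (4 + 2 * N) * C, by positivity, fun M f hf => ?_⟩
  obtain ⟨d0, d1, e1, e2⟩ := hRes0a N M f hf
  refine ⟨?_, e2⟩
  have hM : 0 ≤ M := hf.nonneg
  have p0 : 0 ≤ I0 * M := by positivity
  have p1 : 0 ≤ I1 * (C * M) := by positivity
  have p2 : 0 ≤ I2 * (C * M) := by positivity
  have p3 : 0 ≤ (4 + 2 * N) * (C * M) := by positivity
  have eC : (I0 + I1 * C + I2 * C + (4 + 2 * N) * C) * M =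
      I0 * M + I1 * (C * M) + I2 * (C * M) + (4 + 2 * N) * (C * M) := by ring
  have k2 : ∀ (i j : Fin N) (x : E N) (s : ℝ), 0 < s →
      |s * pd i (pd j (KS gk s f)) x| ≤ C * M * s ^ (-(1 / 2) : ℝ) := by
    intro i j x s hs
    have hq : 0 < √s := Real.sqrt_pos.2 hs
    have h := (hS M f hf s hs).2.2.2.2.2.2.1 i j x
    rw [abs_mul, abs_of_pos hs, rpA_Res0 hs]
    refine (mul_le_mul_of_nonneg_left h hs.le).trans (le_of_eq ?_)
    field_simp
  refine ⟨d0, fun x => ?_, fun i => ⟨d1 i, fun x => ?_, fun j => ⟨fun x => ?_, fun x y => ?_⟩⟩⟩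
  · have h : |Res f x| ≤ I0 * M := by
      refine h0 (fun s => KS gk s f x) M fun s hs => ?_
      rw [abs_mul, abs_of_pos hs, Real.rpow_one, mul_comm M]
      exact mul_le_mul_of_nonneg_left ((hS M f hf s hs).1.1 x) hs.le
    rw [eC]; linarith
  · have h : |pd i (Res f) x| ≤ I1 * (C * M) := by
      rw [e1]
      refine h1 (fun s => pd i (KS gk s f) x) (C * M) fun s hs => ?_
      have hq : 0 < √s := Real.sqrt_pos.2 hs
      have h := (hS M f hf s hs).2.2.2.2.2.1 i x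
      rw [abs_mul, abs_of_pos hs, ← Real.sqrt_eq_rpow]
      refine (mul_le_mul_of_nonneg_left h hs.le).trans (le_of_eq ?_)
      have e1 : s = √s * √s := (Real.mul_self_sqrt hs.le).symm
      nth_rewrite 1 [e1]
      field_simp
    rw [eC]; linarith
  · have h : |pd j (pd i (Res f)) x| ≤ I2 * (C * M) := by
      rw [e2]
      exact h2 (fun s => pd j (pd i (KS gk s f)) x) (C * M) (k2 j i x)
    rw [eC]; linarith
  · rcases (norm_nonneg (x - y)).eq_or_lt with hd | hd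
    · have hxy : x = y := sub_eq_zero.1 (norm_eq_zero.1 hd.symm)
      rw [hxy, sub_self, abs_zero]
      positivity
    have hc := (hS M f hf 1 one_pos).2.2.2.2.2.2.2.2.2.2 j i
    have ix := intg_Res0 (a := -(1 / 2)) (by norm_num) (hc x) (k2 j i x)
    have iy := intg_Res0 (a := -(1 / 2)) (by norm_num) (hc y) (k2 j i y)
    have h : |pd j (pd i (Res f)) x - pd j (pd i (Res f)) y| ≤
        (2 * (2 * (C * M)) + 2 * (N * (C * M))) * √‖x - y‖ := by
      rw [e2, e2, ← integral_sub ix iy]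
      refine hol_Res0 (ix.sub iy) hd (fun s hs => ?_) (fun s hs => ?_)
      · have a1 := (exp_le_Res0 s _).trans (k2 j i x s hs)
        have a2 := (exp_le_Res0 s _).trans (k2 j i y s hs)
        refine (abs_sub _ _).trans ?_
        linarith
      · have hq : 0 < √s := Real.sqrt_pos.2 hs
        obtain ⟨-, -, -, -, c2, -, -, c3, -⟩ := hS M f hf s hs
        have hl := lip_of_pd (c2 j i) (fun k z => c3 k j i z) x y
        rw [Pi.sub_apply, ← mul_sub]
        refine (exp_le_Res0 s _).trans ?_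
        rw [abs_mul, abs_of_pos hs, rpB_Res0 hs]
        refine (mul_le_mul_of_nonneg_left hl hs.le).trans (le_of_eq ?_)
        field_simp
    refine h.trans (mul_le_mul_of_nonneg_right ?_ (Real.sqrt_nonneg _))
    rw [eC]; linarith

end Pool.Agent.MP_5f4cdd_gt.CB
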