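import Pool.Agent.MP_5f4cdd_gt.CB.Api

set_option autoImplicit false
open MeasureTheory Matrix Set Filter Topology

namespace Pool.Agent.MP_5f4cdd_gt.CB

theorem dom_Res0a (A : ℝ) {p : ℝ} (hp : -2 < p) :
    IntegrableOn (fun s : ℝ => A * (s ^ (p + 1) * Real.exp (-1 * s ^ 2))) (Ioi 0) :=
  (integrableOn_rpow_mul_exp_neg_mul_sq one_pos (by linarith)).const_mul A

theorem bound_Res0a {A p s g : ℝ} (hs : 0 < s) (h : |g| ≤ A * s ^ p) :
    |s * Real.exp (-s ^ 2) * g| ≤ A * (s ^ (p + 1) * Real.exp (-1 * s ^ 2)) := by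
  rw [abs_mul, abs_of_pos (by positivity : 0 < s * Real.exp (-s ^ 2)), Real.rpow_add_one hs.ne',
    neg_one_mul]
  calc _ ≤ s * Real.exp (-s ^ 2) * (A * s ^ p) := by gcongr
    _ = _ := by ring

theorem int_Res0a {g : ℝ → ℝ} {A p : ℝ} (hp : -2 < p) (hc : ContinuousOn g (Ioi 0))
    (hb : ∀ s, 0 < s → |g s| ≤ A * s ^ p) :
    IntegrableOn (fun s => s * Real.exp (-s ^ 2) * g s) (Ioi 0) := by
  refine (dom_Res0a A hp).mono' (ContinuousOn.aestronglyMeasurable
    (ContinuousOn.mul (by fun_prop) hc) measurableSet_Ioi) ?_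
  filter_upwards [ae_restrict_mem measurableSet_Ioi] with s hs
  exact bound_Res0a hs (hb s hs)

theorem diff_Res0a {N : ℕ} (h : ℝ → E N → ℝ) {A B p q : ℝ} (hp : -2 < p) (hq : -2 < q)
    (hd : ∀ s, 0 < s → Differentiable ℝ (h s))
    (c0 : ∀ x, ContinuousOn (fun s => h s x) (Ioi 0))
    (c1 : ∀ i x, ContinuousOn (fun s => pd i (h s) x) (Ioi 0))
    (b0 : ∀ s, 0 < s → ∀ x, |h s x| ≤ A * s ^ p)
    (b1 : ∀ s, 0 < s → ∀ i x, |pd i (h s) x| ≤ B * s ^ q) :
    Differentiable ℝ (fun x => ∫ s in Ioi (0 : ℝ), s * Real.exp (-s ^ 2) * h s x) ∧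
      ∀ i x, pd i (fun x => ∫ s in Ioi (0 : ℝ), s * Real.exp (-s ^ 2) * h s x) x =
        ∫ s in Ioi (0 : ℝ), s * Real.exp (-s ^ 2) * pd i (h s) x := by
  let F' : E N → ℝ → E N →L[ℝ] ℝ := fun x s =>
    ∑ i, (s * Real.exp (-s ^ 2) * pd i (h s) x) • ContinuousLinearMap.proj i
  have i0 : ∀ x, IntegrableOn (fun s => s * Real.exp (-s ^ 2) * h s x) (Ioi 0) := fun x =>
    int_Res0a hp (c0 x) fun s hs => b0 s hs x
  have i1 : ∀ x, Integrable (F' x) (volume.restrict (Ioi 0)) := fun x => by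
    refine integrable_finsetSum (f := fun (i : Fin N) (s : ℝ) =>
      (s * Real.exp (-s ^ 2) * pd i (h s) x) • (ContinuousLinearMap.proj i : E N →L[ℝ] ℝ))
      Finset.univ fun i _ => ?_
    exact Integrable.smul_const (int_Res0a hq (c1 i x) fun s hs => b1 s hs i x) _
  have key : ∀ x, HasFDerivAt (fun x => ∫ s in Ioi (0 : ℝ), s * Real.exp (-s ^ 2) * h s x)
      (∫ s in Ioi (0 : ℝ), F' x s) x := fun x => by
    refine hasFDerivAt_integral_of_dominated_of_fderiv_le (s := univ)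
      (bound := fun s => N * (B * (s ^ (q + 1) * Real.exp (-1 * s ^ 2)))) univ_mem
      (Eventually.of_forall fun y => (i0 y).1) (i0 x) (i1 x).1 ?_
      ((dom_Res0a B hq).const_mul _) ?_
    · filter_upwards [ae_restrict_mem measurableSet_Ioi] with s hs y _
      refine (norm_sum_le _ _).trans ((Finset.sum_le_card_nsmul _ _ _ fun i _ => ?_).trans_eq
        (by rw [Finset.card_univ, Fintype.card_fin, nsmul_eq_mul]))
      have h1 : ‖(ContinuousLinearMap.proj i : E N →L[ℝ] ℝ)‖ ≤ 1 :=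
        ContinuousLinearMap.opNorm_le_bound _ zero_le_one fun v => by
          rw [one_mul]
          exact norm_le_pi_norm v i
      rw [norm_smul]
      exact (mul_le_of_le_one_right (norm_nonneg _) h1).trans (bound_Res0a hs (b1 s hs i y))
    · filter_upwards [ae_restrict_mem measurableSet_Ioi] with s hs y _
      refine ((hd s hs y).hasFDerivAt.const_mul (s * Real.exp (-s ^ 2))).congr_fderiv ?_
      ext v
      have h2 : fderiv ℝ (h s) y v = ∑ i, v i * pd i (h s) y := dd_eq_sum v (h s) y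
      simp only [F', _root_.smul_apply, h2, _root_.sum_apply,
        ContinuousLinearMap.proj_apply, smul_eq_mul, Finset.mul_sum]
      exact Finset.sum_congr rfl fun i _ => by ring
  refine ⟨fun x => (key x).differentiableAt, fun i x => ?_⟩
  rw [pd, dd, (key x).fderiv, ContinuousLinearMap.integral_apply (i1 x)]
  refine integral_congr_ae (Eventually.of_forall fun s => ?_)
  simp [F', Pi.single_apply]

theorem sRes0a (hSm : SmStmt) : Res0aStmt := by
  intro N M f hf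
  obtain ⟨C, -, h⟩ := hSm N
  have h := h M f hf
  have r1 : ∀ s : ℝ, 0 < s → C * M / √s = C * M * s ^ (-(1 / 2) : ℝ) := fun s hs => by
    rw [Real.rpow_neg hs.le, Real.sqrt_eq_rpow, div_eq_mul_inv]
  have r2 : ∀ s : ℝ, 0 < s → C * M / (s * √s) = C * M * s ^ (-(3 / 2) : ℝ) := fun s hs => by
    rw [Real.rpow_neg hs.le, Real.sqrt_eq_rpow, div_eq_mul_inv,
      show (3 / 2 : ℝ) = 1 + 1 / 2 by norm_num, Real.rpow_add hs, Real.rpow_one]
  obtain ⟨-, -, -, -, -, -, -, -, c0, c1, c2⟩ := h 1 one_pos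
  have b1 : ∀ s : ℝ, 0 < s → ∀ i x, |pd i (KS gk s f) x| ≤ C * M * s ^ (-(1 / 2) : ℝ) :=
    fun s hs i x => r1 s hs ▸ (h s hs).2.2.2.2.2.1 i x
  obtain ⟨d0, e0⟩ := diff_Res0a (fun s => KS gk s f) (A := M) (p := 0) (by norm_num)
    (by norm_num) (fun s hs => (h s hs).2.2.1) c0 c1
    (fun s hs x => by
      rw [Real.rpow_zero, mul_one]
      exact (h s hs).1.1 x) b1
  have e1 : ∀ j, pd j (Res f) =
      fun x => ∫ s in Ioi (0 : ℝ), s * Real.exp (-s ^ 2) * pd j (KS gk s f) x :=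
    fun j => funext (e0 j)
  have d1 := fun j => diff_Res0a (fun s => pd j (KS gk s f)) (q := -(3 / 2)) (by norm_num)
    (by norm_num) (fun s hs => (h s hs).2.2.2.1 j) (c1 j) (fun i => c2 i j)
    (fun s hs => b1 s hs j) fun s hs i x => r2 s hs ▸ (h s hs).2.2.2.2.2.2.1 i j x
  refine ⟨d0, fun i => ?_, e0, fun i j x => ?_⟩
  · rw [e1]
    exact (d1 i).1
  · rw [e1]
    exact (d1 j).2 i x

end Pool.Agent.MP_5f4cdd_gt.CB
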