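import Pool.Agent.MP_5f4cdd_gt.CB.Api
set_option autoImplicit false
open MeasureTheory Matrix Set Filter Topology
namespace Pool.Agent.MP_5f4cdd_gt.CB

theorem int_ResEq {k : ℝ → ℝ} (hk : ContinuousOn k (Ioi 0)) {p B : ℝ} (hp : -1 < p)
    (h : ∀ s, 0 < s → s * |k s| ≤ B * s ^ p) :
    IntegrableOn (fun s => s * Real.exp (-s ^ 2) * k s) (Ioi 0) := by
  refine ((integrableOn_rpow_mul_exp_neg_mul_sq one_pos hp).const_mul B).mono'
    (ContinuousOn.aestronglyMeasurable (ContinuousOn.mul (by fun_prop) hk) measurableSet_Ioi)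
    (ae_restrict_of_forall_mem measurableSet_Ioi fun s hs => ?_)
  rw [Real.norm_eq_abs, abs_mul, abs_of_pos (mul_pos hs (Real.exp_pos _)), neg_one_mul,
    mul_right_comm, ← mul_assoc]
  exact mul_le_mul_of_nonneg_right (h s hs) (Real.exp_pos _).le

theorem int0_ResEq {k : ℝ → ℝ} (hk : ContinuousOn k (Ioi 0)) {B : ℝ}
    (h : ∀ s, 0 < s → |k s| ≤ B) :
    IntegrableOn (fun s => s * Real.exp (-s ^ 2) * k s) (Ioi 0) :=
  int_ResEq hk (p := 1) (B := B) (by norm_num) fun s hs => by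
    rw [Real.rpow_one, mul_comm]
    exact mul_le_mul_of_nonneg_right (h s hs) hs.le

theorem lim0_ResEq {k : ℝ → ℝ} {a B : ℝ} (h : ∀ s, 0 < s → |k s - a| ≤ B * √s) :
    Tendsto k (𝓝[>] 0) (𝓝 a) := by
  refine tendsto_iff_norm_sub_tendsto_zero.2 (squeeze_zero' (Eventually.of_forall fun _ =>
    norm_nonneg _) (eventually_mem_nhdsWithin.mono fun s hs => h s hs) ?_)
  have : Continuous fun s : ℝ => B * √s := by fun_prop
  exact (this.tendsto' 0 0 (by simp)).mono_left nhdsWithin_le_nhds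

theorem one_ResEq (hGk : GkStmt) (hSm : SmStmt) (hHeat : HeatStmt) (hRes0 : Res0Stmt) {N : ℕ}
    {M : ℝ} {f : E N → ℝ} (hf : HB 1 M f) (x : E N) :
    op (fun _ => (1 : Mat N)) (Res f) x = -f x := by
  obtain ⟨C, -, hS⟩ := hSm N
  obtain ⟨C', -, hR⟩ := hRes0 N
  have h0 := hf.lower
  generalize (N + 2) * M = M0 at h0
  replace hS := hS M0 f h0
  have k0 : KS gk 0 f x = f x := by simp [KS, integral_const_mul, (hGk N).1]
  have k1 : ∀ s, 0 < s → |KS gk s f x| ≤ M0 := fun s hs => (hS s hs).1.bound x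
  have k2 := int0_ResEq ((hS 1 one_pos).2.2.2.2.2.2.2.2.1 x) k1
  have k3 : ∀ i, IntegrableOn (fun s => s * Real.exp (-s ^ 2) * pd i (pd i (KS gk s f)) x)
      (Ioi 0) := fun i =>
    int_ResEq ((hS 1 one_pos).2.2.2.2.2.2.2.2.2.2 i i x) (p := -(1 / 2)) (B := C * M0)
      (by norm_num) fun s hs => by
        refine (mul_le_mul_of_nonneg_left ((hS s hs).2.2.2.2.2.2.1 i i x) hs.le).trans_eq ?_
        have := Real.sqrt_pos.2 hs
        rw [Real.rpow_neg hs.le, ← Real.sqrt_eq_rpow]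
        field_simp
  have k4 := integrable_finsetSum Finset.univ fun i _ => k3 i
  have k5 := integral_Ioi_of_hasDerivAt_of_tendsto (a := 0) (m := 0)
    (f := fun s => Real.exp (-s ^ 2) * KS gk s f x)
    (f' := fun s => ∑ i, s * Real.exp (-s ^ 2) * pd i (pd i (KS gk s f)) x -
      2 * (s * Real.exp (-s ^ 2) * KS gk s f x))
    (ContinuousWithinAt.mul (by fun_prop) (continuousWithinAt_Ioi_iff_Ici.1 ?_))
    (fun s hs => ?_) (k4.sub (k2.const_mul 2)) ?_
  · rw [integral_sub k4 (k2.const_mul 2), integral_const_mul,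
      integral_finsetSum _ fun i _ => k3 i] at k5
    simp only [k0, ← (hR M0 f h0).2] at k5
    simpa [op, Matrix.trace, hess, Res] using k5
  · rw [ContinuousWithinAt, k0]
    exact lim0_ResEq fun s hs => (hS s hs).2.1 x
  · refine (((hasDerivAt_pow 2 s).fun_neg.exp).fun_mul ((hHeat N M f hf).2 s x hs)).congr_deriv ?_
    rw [← Finset.mul_sum]
    norm_num
    ring
  · refine squeeze_zero_norm' (a := fun s => Real.exp (-s ^ 2) * M0)
      ((eventually_gt_atTop 0).mono fun s hs => ?_) ?_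
    · rw [Real.norm_eq_abs, abs_mul, abs_of_pos (Real.exp_pos _)]
      exact mul_le_mul_of_nonneg_left (k1 s hs) (Real.exp_pos _).le
    · simpa using (Real.tendsto_exp_neg_atTop_nhds_zero.comp
        (tendsto_pow_atTop two_ne_zero)).mul_const M0

theorem lim_ResEq (hGk : GkStmt) (hSm : SmStmt) {N : ℕ} {M : ℝ} {g : ℕ → E N → ℝ} {f : E N → ℝ}
    (hg : ∀ n, HB 0 M (g n)) (hl : ∀ x, Tendsto (fun n => g n x) atTop (𝓝 (f x))) (x : E N) :
    Tendsto (fun n => Res (g n) x) atTop (𝓝 (Res f x)) := by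
  obtain ⟨C, -, hS⟩ := hSm N
  have k1 : Integrable (gk : E N → ℝ) := integrable_of_integral_eq_one (hGk N).1
  refine tendsto_integral_of_dominated_convergence (fun s => s * Real.exp (-s ^ 2) * M)
    (fun n => ContinuousOn.aestronglyMeasurable (ContinuousOn.mul (by fun_prop)
      ((hS M _ (hg n) 1 one_pos).2.2.2.2.2.2.2.2.1 x)) measurableSet_Ioi)
    (int0_ResEq continuousOn_const fun _ _ => le_rfl)
    (fun n => ae_restrict_of_forall_mem measurableSet_Ioi fun s hs => ?_)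
    (Eventually.of_forall fun s => Tendsto.const_mul _ ?_)
  · have := mul_pos hs (Real.exp_pos (-s ^ 2))
    rw [Real.norm_eq_abs, abs_mul, abs_of_pos this]
    exact mul_le_mul_of_nonneg_left ((hS M _ (hg n) s hs).1.bound x) this.le
  · refine tendsto_integral_of_dominated_convergence (fun z => M * gk z) (fun n => ?_)
      (k1.const_mul M) (fun n => Eventually.of_forall fun z => ?_)
      (Eventually.of_forall fun z => (hl _).mul_const _)
    · exact ((hg n).continuous.comp (by fun_prop)).aestronglyMeasurable.mul k1.1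
    · rw [Real.norm_eq_abs, abs_mul, abs_of_nonneg ((hGk N).2.1 z)]
      exact mul_le_mul_of_nonneg_right ((hg n).bound _) ((hGk N).2.1 z)

theorem sResEq (hGk : GkStmt) (hSm : SmStmt) (hHeat : HeatStmt) (hRes0 : Res0Stmt) :
    ResEqStmt := by
  intro N M f hf x
  obtain ⟨C, hC, hS⟩ := hSm N
  obtain ⟨C', -, hR⟩ := hRes0 N
  replace hS := hS M f hf
  have hM := hf.nonneg
  have h1 : ∀ n : ℕ, (0 : ℝ) < 1 / (n + 1) := fun n => Nat.one_div_pos_of_nat
  have h2 : ∀ n : ℕ, HB 0 M (KS gk (1 / (n + 1)) f) := fun n => (hS _ (h1 n)).1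
  have h3 : ∀ y, Tendsto (fun n : ℕ => KS gk (1 / (n + 1)) f y) atTop (𝓝 (f y)) := fun y =>
    (lim0_ResEq fun s hs => (hS s hs).2.1 y).comp (tendsto_nhdsWithin_iff.2
      ⟨tendsto_one_div_add_atTop_nhds_zero_nat, Eventually.of_forall h1⟩)
  have h4 : ∀ s, 0 < s → op (fun _ => (1 : Mat N)) (Res (KS gk s f)) x = -KS gk s f x := by
    intro s hs
    obtain ⟨k1, -, k2, k3, -, k4, k5, -⟩ := hS s hs
    refine one_ResEq hGk hSm hHeat hRes0
      (M := M + (2 * (C * M / √s) + N * (C * M / (s * √s)))) ⟨k2, fun y => ?_, fun i => ?_⟩ x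
    · exact (k1.bound y).trans (le_add_of_nonneg_right (by positivity))
    · exact (HB0_of_lip (k4 i) (by positivity)
        (lip_of_pd (k3 i) fun j y => k5 j i y)).mono (le_add_of_nonneg_left hM)
  have h5 := lim_ResEq hGk hSm h2 h3
  have h6 := HB_lim_hess (k := 0) (fun n => (hR M _ (h2 n)).1) h5 x
  refine tendsto_nhds_unique (f := fun n : ℕ => -KS gk (1 / (n + 1)) f x) (l := atTop) ?_
    (h3 x).neg
  simp only [← h4 _ (h1 _), op, one_mul]
  exact ((continuous_id.matrix_trace.tendsto _).comp h6).sub ((h5 x).const_mul 2)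

end Pool.Agent.MP_5f4cdd_gt.CB
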