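import Pool.Agent.MP_5f4cdd_gt.CB.Api

set_option autoImplicit false
open MeasureTheory Matrix Set Filter Topology

namespace Pool.Agent.MP_5f4cdd_gt.CB

theorem dot_Rho {N : ℕ} {W : Set (E N)} {b0 β y : E N} {A : Mat N} (hW : PC W b0) (hβ : β ∈ W)
    (hA : Nrm W y 0 A) (v : E N) :
    (β ⬝ᵥ v) ^ 2 ≤ N * (β ⬝ᵥ y) ^ 2 * ((Aᵀ *ᵥ v) ⬝ᵥ (Aᵀ *ᵥ v)) := by
  have ha : 0 ≤ y ⬝ᵥ β := by simpa using hA.nonneg β hβ
  have h1 : ‖A⁻¹ *ᵥ β‖ ≤ y ⬝ᵥ β := by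
    by_contra h
    have hd : 0 < ‖A⁻¹ *ᵥ β‖ - y ⬝ᵥ β := sub_pos.2 (not_le.1 h)
    have ht : 0 < 2 / (‖A⁻¹ *ᵥ β‖ - y ⬝ᵥ β) := by positivity
    have h2 := hA.outer _ (hW.smul β hβ _ ht.le)
    rw [sub_zero, Matrix.mulVec_smul, norm_smul, dotProduct_smul, Real.norm_eq_abs,
      abs_of_pos ht, smul_eq_mul] at h2
    have h3 := div_mul_cancel₀ (2 : ℝ) hd.ne'
    have h4 := mul_nonneg ht.le ha
    have h5 := h2.trans (max_le (le_add_of_nonneg_right h4) (le_add_of_nonneg_left zero_le_one))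
    linarith
  have e : β ⬝ᵥ v = (A⁻¹ *ᵥ β) ⬝ᵥ (Aᵀ *ᵥ v) := by
    rw [Matrix.dotProduct_mulVec, Matrix.vecMul_transpose, Matrix.mulVec_mulVec,
      Matrix.mul_nonsing_inv _ (isUnit_iff_ne_zero.2 hA.det), Matrix.one_mulVec]
  have h2 := qf_cs (Matrix.PosDef.one (n := Fin N) (R := ℝ)) (A⁻¹ *ᵥ β) (Aᵀ *ᵥ v)
  rw [qf_one, qf_one, qf_one, ← e] at h2
  refine h2.trans (mul_le_mul_of_nonneg_right ((dot_le_norm_sq _).trans ?_) (dot_self_nonneg' _))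
  rw [dotProduct_comm β y]
  gcongr

theorem sRho (hNorm : NormStmt) (hMom : MomStmt) : RhoStmt := by
  intro N
  obtain ⟨c, C, hc, -, hM⟩ := hMom N
  refine ⟨2 * (N / c + 1) + 1, by positivity, fun W b0 β y hW hβ hy v => ?_⟩
  have hm : MeasurableSet W := hW.closed.measurableSet
  have hy' := oV_subset_cV W hy
  obtain ⟨c0, hc0, hy0⟩ := id hy
  obtain ⟨A, hA⟩ := hNorm N W y 0 hW.closed hW.convex hW.int hW.zero_mem
    (fun η hη => by simpa using hy' η hη)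
    ((Metric.isBounded_closedBall (x := (0 : E N)) (r := 1 / c0)).subset fun η hη => by
      rw [mem_closedBall_zero_iff, le_div_iff₀ hc0]
      have h1 := hy0 η hη.1
      have h2 : y ⬝ᵥ η ≤ 1 := by simpa using hη.2
      linarith)
  have hr := hW.room hy
  have hΦ := hW.Phi_pos hy
  have ha : 0 ≤ β ⬝ᵥ y := by
    rw [dotProduct_comm]
    exact hy' β hβ.1
  have h1 : c * ((Aᵀ *ᵥ v) ⬝ᵥ (Aᵀ *ᵥ v)) ≤ sm W y v := by
    simpa only [sub_zero, sm] using (hM W y 0 A hm hA).2.2.2.2.2.2 v 0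
  have hs0 : 0 ≤ sm W y v := (mul_nonneg hc.le (dot_self_nonneg' _)).trans h1
  have h2 : (β ⬝ᵥ v) ^ 2 ≤ N / c * sm W y v * (β ⬝ᵥ y) ^ 2 := by
    refine (dot_Rho hW hβ.1 hA v).trans ?_
    have h3 : (Aᵀ *ᵥ v) ⬝ᵥ (Aᵀ *ᵥ v) ≤ sm W y v / c := by
      rw [le_div_iff₀ hc]
      linarith
    refine (mul_le_mul_of_nonneg_left h3 (by positivity)).trans_eq ?_
    ring
  have p1 : PolyW fun _ : E N => (1 : ℝ) := polyW_const 1
  have p2 : PolyW fun η : E N => v ⬝ᵥ η * 1 := (polyW_dot v).mul p1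
  have h3 : (LapW W (fun η => v ⬝ᵥ η * 1) y) ^ 2 ≤ sm W y v * Phi W y ^ 2 := by
    have h4 := Ey_cs hm hr (polyW_dot v) p1
    rw [Ey_const hm hr hW.int, one_pow, mul_one, Ey, div_pow, div_le_iff₀ (by positivity)] at h4
    exact h4
  have dl : ∀ z : E N, DifferentiableAt ℝ (fun z : E N => β ⬝ᵥ z) z := fun z => by
    unfold dotProduct
    fun_prop
  have cl : ContDiffAt ℝ 2 (fun z : E N => β ⬝ᵥ z) y := by
    unfold dotProduct
    fun_prop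
  have d1 : ∀ z, Room W z → dd v (fun z => β ⬝ᵥ z + Phi W z) z =
      β ⬝ᵥ v - LapW W (fun η => v ⬝ᵥ η * 1) z := fun z hz => by
    have h4 := dd_LapW hm hz p1 v
    rw [sub_eq_add_neg, ← h4.2, ← dd_dot β v z]
    exact dd_add (dl z) h4.1 v
  have cT : ContDiffAt ℝ 2 (fun z => β ⬝ᵥ z + Phi W z) y := cl.add (contDiffAt_LapW hm hr p1 2)
  have d2 : qf (hess (fun z => β ⬝ᵥ z + Phi W z) y) v v = sm W y v * Phi W y := by
    have h4 := dd_LapW hm hr p2 v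
    have ev : dd v (fun z => β ⬝ᵥ z + Phi W z) =ᶠ[𝓝 y]
        fun z => β ⬝ᵥ v - LapW W (fun η => v ⬝ᵥ η * 1) z := (hr.eventually hm).mono d1
    rw [← dd_dd_eq_qf cT, (dd_congr ev v).eq_of_nhds, dd_sub (differentiableAt_const _) h4.1,
      dd_const, h4.2, sm, Ey, div_mul_cancel₀ _ hΦ.ne']
    simp only [mul_one, sq, zero_sub, neg_neg]
  have hT : 0 < β ⬝ᵥ y + Phi W y := by positivity
  have e1 : dd v (rho W β) y = (β ⬝ᵥ y + Phi W y)⁻¹ *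
      (β ⬝ᵥ v - LapW W (fun η => v ⬝ᵥ η * 1) y) := by
    rw [← d1 y hr]
    exact dd_comp (u := fun z => β ⬝ᵥ z + Phi W z) (Real.hasDerivAt_log hT.ne')
      (cT.differentiableAt (by norm_num)) v
  have e2 : qf (hess (rho W β) y) v v = (β ⬝ᵥ y + Phi W y)⁻¹ * (sm W y v * Phi W y) -
      dd v (rho W β) y ^ 2 := by
    have h4 := qf_hess_comp (φ := Real.log) (φ1 := fun s => s⁻¹) cT
      ((eventually_ne_nhds hT.ne').mono fun s hs => Real.hasDerivAt_log hs)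
      (hasDerivAt_inv hT.ne') v v
    rw [d2, d1 y hr] at h4
    rw [e1]
    refine h4.trans ?_
    rw [← inv_pow]
    ring
  have b1 : dd v (rho W β) y ^ 2 ≤ 2 * (N / c + 1) * sm W y v := by
    rw [e1, mul_pow, inv_pow, inv_mul_le_iff₀ (by positivity)]
    have h4 : (β ⬝ᵥ y) ^ 2 ≤ (β ⬝ᵥ y + Phi W y) ^ 2 := by gcongr; linarith
    have h5 : Phi W y ^ 2 ≤ (β ⬝ᵥ y + Phi W y) ^ 2 := by gcongr; linarith
    have h6 := mul_le_mul_of_nonneg_left h4 (show 0 ≤ N / c * sm W y v by positivity)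
    have h7 := mul_le_mul_of_nonneg_left h5 hs0
    nlinarith [sq_nonneg (β ⬝ᵥ v + LapW W (fun η => v ⬝ᵥ η * 1) y)]
  have b2 : (β ⬝ᵥ y + Phi W y)⁻¹ * (sm W y v * Phi W y) ≤ sm W y v := by
    rw [inv_mul_le_iff₀ hT]
    nlinarith [mul_nonneg ha hs0]
  have b3 : 0 ≤ (β ⬝ᵥ y + Phi W y)⁻¹ * (sm W y v * Phi W y) := by positivity
  have b4 : 0 ≤ 2 * (N / c + 1) * sm W y v := by positivity
  refine ⟨by linarith, ?_⟩
  rw [e2, abs_le]
  constructor <;> linarith [sq_nonneg (dd v (rho W β) y)]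

end Pool.Agent.MP_5f4cdd_gt.CB
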