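import Pool.Agent.MP_5f4cdd_gt.CB.Api

set_option autoImplicit false
open MeasureTheory Matrix Set Filter Topology

namespace Pool.Agent.MP_5f4cdd_gt.CB

lemma dd_trace_Sch {N : ℕ} {a b : E N → Mat N} {x : E N}
    (ha : ∀ i l, DifferentiableAt ℝ (fun y => a y i l) x)
    (hb : ∀ i l, DifferentiableAt ℝ (fun y => b y i l) x) (v : E N) :
    DifferentiableAt ℝ (fun y => (a y * b y).trace) x ∧ dd v (fun y => (a y * b y).trace) x =
      ((Matrix.of fun i l => dd v (fun y => a y i l) x) * b x).trace +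
        (a x * Matrix.of fun i l => dd v (fun y => b y i l) x).trace := by
  have e : (fun y => (a y * b y).trace) = fun y => ∑ i, ∑ l, a y i l * b y l i := by
    funext y
    simp only [Matrix.trace, Matrix.diag, Matrix.mul_apply]
  have h1 : ∀ i, DifferentiableAt ℝ (fun y => ∑ l, a y i l * b y l i) x := fun i =>
    DifferentiableAt.fun_sum fun l _ => (ha i l).mul (hb l i)
  rw [e]
  refine ⟨DifferentiableAt.fun_sum fun i _ => h1 i, ?_⟩
  rw [dd_sum _ (fun i y => ∑ l, a y i l * b y l i) fun i _ => h1 i]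
  simp only [Matrix.trace, Matrix.diag, Matrix.mul_apply, Matrix.of_apply,
    ← Finset.sum_add_distrib]
  refine Finset.sum_congr rfl fun i _ => ?_
  rw [dd_sum _ (fun l y => a y i l * b y l i) fun l _ => (ha i l).mul (hb l i)]
  exact Finset.sum_congr rfl fun l _ => dd_mul (ha i l) (hb l i) v

lemma op_pd_Sch {N : ℕ} {a : E N → Mat N} {u : E N → ℝ}
    (ha : ∀ i l, Differentiable ℝ fun y => a y i l) (hu : ContDiff ℝ 3 u) (k : Fin N) :
    op a (pd k u) = fun x => pd k (op a u) x -
      ((Matrix.of fun i l => pd k (fun y => a y i l) x) * hess u x).trace := by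
  funext x
  have h3 : ContDiffAt ℝ 3 u x := hu.contDiffAt
  have hb : ∀ i l, DifferentiableAt ℝ (fun y => hess u y i l) x := fun i l =>
    (contDiffAt_hess (k := 1) h3 i l).differentiableAt (by norm_num)
  have hd : DifferentiableAt ℝ u x := h3.differentiableAt (by norm_num)
  obtain ⟨h1, h2⟩ := dd_trace_Sch (fun i l => ha i l x) hb (Pi.single k 1)
  have h4 : pd k (op a u) x = dd (Pi.single k 1) (fun y => (a y * hess u y).trace) x -
      dd (Pi.single k 1) (fun y => 2 * u y) x := dd_sub h1 (hd.const_mul 2) _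
  have h5 : hess (pd k u) x = Matrix.of fun i l =>
      dd (Pi.single k 1) (fun y => hess u y i l) x := hess_dd h3 _
  rw [h4, h2, dd_const_mul, op, h5]
  unfold pd
  ring

lemma step_Sch {j : ℕ} (ih : SchAt j) : SchAt (j + 1) := by
  intro N c K hc
  obtain ⟨C, hC, h⟩ := ih N c ((N + 2) * |K|) hc
  obtain ⟨Cm, hCm, hm⟩ := HBM_mul N j
  refine ⟨C * (N + 2) + C * (1 + Cm * |K| * (C * (N + 2))), by positivity,
    fun a u M he ha ⟨M', hu⟩ hf => ?_⟩
  have hM := hf.nonneg
  have ha1 : HBM (j + 1) |K| a := fun i l => (ha i l).mono (le_abs_self K)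
  have ha2 : HBM j ((N + 2) * |K|) a := fun i l => (ha1 i l).lower
  have hu' : HB (j + 2 + 1) M' u := hu
  have h1 := h a u _ he ha2 ⟨_, hu'.lower⟩ hf.lower
  have h3 : ContDiff ℝ 3 u := hu.contDiff.of_le (by exact_mod_cast (by omega : 3 ≤ j + 1 + 2))
  have h2 : ∀ k, HB (j + 2) (C * (M + Cm * |K| * (C * ((N + 2) * M)))) (pd k u) := fun k => by
    refine h a _ _ he ha2 ⟨_, hu'.pd k⟩ ?_
    rw [op_pd_Sch (fun i l => (ha i l).1) h3 k]
    exact (hf.pd k).sub (hm _ _ (fun x => Matrix.of fun i l => pd k (fun y => a y i l) x) (hess u)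
      (abs_nonneg K) h1.nonneg (fun i l => (ha1 i l).pd k) h1.hessM).2
  have p1 : 0 ≤ C * ((N + 2) * M) := h1.nonneg
  have p2 : 0 ≤ C * (M + Cm * |K| * (C * ((N + 2) * M))) := by positivity
  have e : (C * (N + 2) + C * (1 + Cm * |K| * (C * (N + 2)))) * M =
      C * ((N + 2) * M) + C * (M + Cm * |K| * (C * ((N + 2) * M))) := by ring
  rw [e]
  exact ⟨hu'.1, fun x => (h1.bound x).trans (le_add_of_nonneg_right p2),
    fun k => (h2 k).mono (le_add_of_nonneg_left p1)⟩

theorem sSch (hSch0 : Sch0Stmt) : SchStmt := by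
  intro j
  induction j with
  | zero => exact hSch0
  | succ j ih => exact step_Sch ih

end Pool.Agent.MP_5f4cdd_gt.CB
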