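import Pool.Agent.MP_5f4cdd_gt.CB.Api

set_option autoImplicit false
open MeasureTheory Matrix Set Filter Topology

namespace Pool.Agent.MP_5f4cdd_gt.CB

/-- agreement on a closed ball gives agreement near each point of the open ball -/
theorem ev_Sch0 {N : ℕ} {u w : E N → ℝ} {x0 y : E N} {r : ℝ}
    (h : ∀ x, ‖x - x0‖ ≤ r → w x = u x) (hy : ‖y - x0‖ < r) : w =ᶠ[𝓝 y] u := by
  have ho : IsOpen {x : E N | ‖x - x0‖ < r} :=
    isOpen_lt (continuous_id.sub continuous_const).norm continuous_const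
  filter_upwards [ho.mem_nhds hy] with x hx
  exact h x (le_of_lt hx)

/-- gluing of local bounds -/
theorem glue_Sch0 {N : ℕ} {u : E N → ℝ} {r L L₁ M' b : ℝ} (hr : 0 < r) (hu : HB 2 M' u)
    (hL : L₁ ≤ L)
    (hloc : ∀ x0 : E N, ∃ w : E N → ℝ, HB 2 L₁ w ∧ ∀ x, ‖x - x0‖ ≤ r → w x = u x)
    (hb : ∀ i j x, |pd i (pd j u) x| ≤ b) (hbL : 2 * b ≤ L * √r) : HB 2 L u := by
  have hL0 : 0 ≤ L := by
    obtain ⟨w, hw, -⟩ := hloc 0
    exact hw.nonneg.trans hL
  have h0 : ∀ x : E N, ‖x - x‖ < r := fun x => by simpa using hr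
  refine ⟨hu.1, fun x => ?_, fun i => ⟨(hu.2.2 i).1, fun x => ?_, fun j => ⟨fun x => ?_,
    fun x y => ?_⟩⟩⟩
  · obtain ⟨w, hw, he⟩ := hloc x
    rw [← he x (h0 x).le]
    exact (hw.bound x).trans hL
  · obtain ⟨w, hw, he⟩ := hloc x
    rw [← (pd_congr (ev_Sch0 he (h0 x)) i).eq_of_nhds]
    exact ((hw.pd i).bound x).trans hL
  · obtain ⟨w, hw, he⟩ := hloc x
    rw [← (pd_congr (pd_congr (ev_Sch0 he (h0 x)) i) j).eq_of_nhds]
    exact (((hw.pd i).pd j).bound x).trans hL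
  · by_cases hxy : ‖x - y‖ < r
    · obtain ⟨w, hw, he⟩ := hloc y
      rw [← (pd_congr (pd_congr (ev_Sch0 he hxy) i) j).eq_of_nhds,
        ← (pd_congr (pd_congr (ev_Sch0 he (h0 y)) i) j).eq_of_nhds]
      exact (((hw.pd i).pd j).2 x y).trans
        (mul_le_mul_of_nonneg_right hL (Real.sqrt_nonneg _))
    · have h1 : √r ≤ √‖x - y‖ := Real.sqrt_le_sqrt (not_lt.1 hxy)
      have h2 := abs_sub (pd j (pd i u) x) (pd j (pd i u) y)
      have h3 := mul_le_mul_of_nonneg_left h1 hL0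
      linarith [hb j i x, hb j i y]

theorem sSch0 (hFreeze : FreezeStmt) (hMP : MPStmt) : Sch0Stmt := by
  intro N c K hc
  obtain ⟨r, C₁, hr, hC₁, hF⟩ := hFreeze N c K (1 / 2) hc (by norm_num)
  have hs : 0 < √r := Real.sqrt_pos.2 hr
  obtain ⟨C₂, hC₂, hI⟩ := HB_interp N (η := √r / 4) (by positivity)
  have hC₀ : 0 ≤ C₁ + 2 * C₂ / √r := by positivity
  refine ⟨2 * (C₁ + 2 * C₂ / √r), by positivity, fun a u M ha hK hu hf => ?_⟩
  have hM : 0 ≤ M := hf.nonneg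
  have hsup : ∀ x, |u x| ≤ M := by
    obtain ⟨M', hM'⟩ := hu
    have hE : Ell 0 a := fun x => ⟨(ha x).1, fun v => by
      have := mul_nonneg hc.le (dot_self_nonneg' v)
      linarith [(ha x).2 v]⟩
    intro x
    have := hMP N a u K M M' hE (fun x i j => (hK i j).1 x) (by exact_mod_cast hM'.contDiff)
      hM'.bound hf.1 x
    linarith
  have hstep : ∀ M', HB 2 M' u → HB 2 (M' / 2 + (C₁ + 2 * C₂ / √r) * M) u := by
    intro M' hM'
    have h1 : 0 ≤ 2 * C₂ / √r * M := by positivity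
    have h2 : 0 ≤ C₁ * M * √r := by positivity
    refine glue_Sch0 hr hM' (by linarith) (hF a u M M' ha hK hM' hf hsup)
      (hI M' M u hM' hsup).2 ?_
    have e : (M' / 2 + (C₁ + 2 * C₂ / √r) * M) * √r =
        2 * (√r / 4 * M' + C₂ * M) + C₁ * M * √r := by
      field_simp
      ring
    rw [e]
    linarith
  refine HB_of_forall_add fun ε hε => ?_
  rw [mul_assoc]
  exact HB_absorb hu (mul_nonneg hC₀ hM) hstep hε

end Pool.Agent.MP_5f4cdd_gt.CB
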