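import Pool.Agent.MP_5f4cdd_gt.CB.Api

set_option autoImplicit false
open MeasureTheory Matrix Set Filter Topology

namespace Pool.Agent.MP_5f4cdd_gt.CB

variable {N : ℕ}

/-- integrable together with a half moment -/
def Nice_Sm (χ : E N → ℝ) : Prop :=
  Integrable χ ∧ Integrable fun z => √‖z‖ * |χ z|

noncomputable def cst_Sm (χ : E N → ℝ) : ℝ := ∫ z, √‖z‖ * |χ z|

theorem int_exp_Sm (N : ℕ) : Integrable fun z : E N => (1 + ‖z‖) * Real.exp (-‖z‖) := by
  have h := (integrable_one_add_norm (E := E N) (μ := volume) (r := (N + 1 : ℕ))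
    (by simp)).const_mul (Real.exp 1 * (N + 2).factorial)
  refine h.mono' (by fun_prop) (ae_of_all _ fun z => ?_)
  have h0 : 0 < 1 + ‖z‖ := by positivity
  have h1 := Real.pow_div_factorial_le_exp (1 + ‖z‖) h0.le (N + 2)
  rw [div_le_iff₀ (by positivity), Real.exp_add] at h1
  rw [Real.norm_of_nonneg (by positivity), Real.rpow_neg h0.le, Real.rpow_natCast, Real.exp_neg,
    ← div_eq_mul_inv, ← div_eq_mul_inv, div_le_div_iff₀ (by positivity) (by positivity)]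
  calc (1 + ‖z‖) * (1 + ‖z‖) ^ (N + 1) = (1 + ‖z‖) ^ (N + 2) := by ring
    _ ≤ _ := h1.trans (le_of_eq (by ring))

theorem nice_Sm {χ : E N → ℝ} (hc : Continuous χ) {C : ℝ}
    (h : ∀ z, |χ z| ≤ C * Real.exp (-‖z‖)) : Nice_Sm χ := by
  have hi := (int_exp_Sm N).const_mul C
  have key : ∀ (z : E N) (a : ℝ), 0 ≤ a → a ≤ 1 + ‖z‖ →
      a * |χ z| ≤ C * ((1 + ‖z‖) * Real.exp (-‖z‖)) := fun z a h0 h1 =>
    (mul_le_mul h1 (h z) (abs_nonneg _) (h0.trans h1)).trans (le_of_eq (by ring))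
  refine ⟨hi.mono' hc.aestronglyMeasurable (ae_of_all _ fun z => ?_),
    hi.mono' (by fun_prop) (ae_of_all _ fun z => ?_)⟩
  · have := key z 1 zero_le_one (by linarith [norm_nonneg z])
    rwa [one_mul] at this
  · rw [Real.norm_of_nonneg (by positivity)]
    refine key z _ (Real.sqrt_nonneg _) (Real.sqrt_le_iff.2 ⟨by positivity, ?_⟩)
    nlinarith [norm_nonneg z]

theorem Dec.nice_Sm {ψ : E N → ℝ} (h : Dec ψ) : Nice_Sm ψ := by
  obtain ⟨h1, C, h2⟩ := h
  exact CB.nice_Sm h1.continuous fun z => (h2 z).1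

theorem Dec.nice_pd_Sm {ψ : E N → ℝ} (h : Dec ψ) (i : Fin N) : Nice_Sm (pd i ψ) := by
  obtain ⟨h1, C, h2⟩ := h
  exact CB.nice_Sm (contDiff_pd (k := 0) h1 i).continuous fun z => (h2 z).2 i

theorem int_pd_Sm (hKer : KerStmt) {ψ : E N → ℝ} (h : Dec ψ) (i : Fin N) :
    ∫ z, pd i ψ z = 0 := by
  have h1 := (hKer N ψ (fun _ => 1) 1 1 h continuous_const (fun _ => by simp) one_pos).2 i 0
  have h2 : KS ψ 1 (fun _ => 1) = fun _ => ∫ z, 1 * ψ z := rfl
  rw [h2, pd, dd_const] at h1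
  simpa [KS] using h1

section

variable {χ f : E N → ℝ} {M : ℝ}

theorem integrable_KS_Sm (h : Nice_Sm χ) (hf : HB 0 M f) (s : ℝ) (x : E N) :
    Integrable fun z => f (x + s • z) * χ z := by
  have := hf.continuous
  exact h.1.bdd_mul (c := M) (by fun_prop) (ae_of_all _ fun z => hf.1 _)

theorem diff_Sm (h : Nice_Sm χ) (hf : HB 0 M f) {s : ℝ} (hs : 0 < s) (x : E N) {C : ℝ}
    (hC : cst_Sm χ ≤ C) : |KS χ s f x - f x * ∫ z, χ z| ≤ C * M * √s := by
  rw [KS, ← integral_const_mul, ← integral_sub (integrable_KS_Sm h hf s x) (h.1.const_mul _)]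
  have h1 := norm_integral_le_of_norm_le (μ := volume)
    (f := fun z => f (x + s • z) * χ z - f x * χ z) (h.2.const_mul (M * √s))
    (ae_of_all _ fun z => by
      have h2 := hf.2 (x + s • z) x
      rw [add_sub_cancel_left, norm_smul, Real.norm_of_nonneg hs.le, Real.sqrt_mul hs.le] at h2
      rw [← sub_mul, Real.norm_eq_abs, abs_mul]
      exact (mul_le_mul_of_nonneg_right h2 (abs_nonneg _)).trans (le_of_eq (by ring)))
  rw [integral_const_mul] at h1
  refine h1.trans ?_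
  have h2 := hf.nonneg
  calc M * √s * cst_Sm χ ≤ M * √s * C := by gcongr
    _ = _ := by ring

theorem cont_Sm (h : Nice_Sm χ) (hf : HB 0 M f) (x : E N) :
    Continuous fun t => KS χ t f x := by
  have := hf.continuous
  refine continuous_of_dominated (bound := fun z => M * ‖χ z‖)
    (fun t => (integrable_KS_Sm h hf t x).aestronglyMeasurable)
    (fun t => ae_of_all _ fun z => ?_) (h.1.norm.const_mul M) (ae_of_all _ fun z => by fun_prop)
  rw [norm_mul]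
  exact mul_le_mul_of_nonneg_right (hf.1 _) (norm_nonneg _)

theorem avg_Sm (h : Integrable χ) (h0 : ∀ z, 0 ≤ χ z) (h1 : ∫ z, χ z = 1) {g : E N → ℝ} {B : ℝ}
    (hg : ∀ z, |g z| ≤ B) : |∫ z, g z * χ z| ≤ B := by
  have h2 := norm_integral_le_of_norm_le (μ := volume) (f := fun z => g z * χ z) (h.const_mul B)
    (ae_of_all _ fun z => by
      rw [norm_mul, Real.norm_of_nonneg (h0 z)]
      exact mul_le_mul_of_nonneg_right (hg z) (h0 z))
  rwa [integral_const_mul, h1, mul_one] at h2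

theorem hb_Sm (h : Nice_Sm χ) (h0 : ∀ z, 0 ≤ χ z) (h1 : ∫ z, χ z = 1) (hf : HB 0 M f) (s : ℝ) :
    HB 0 M (KS χ s f) := by
  refine ⟨fun x => avg_Sm h.1 h0 h1 fun z => hf.1 _, fun x y => ?_⟩
  rw [KS, KS, ← integral_sub (integrable_KS_Sm h hf s x) (integrable_KS_Sm h hf s y)]
  simp only [← sub_mul]
  refine avg_Sm h.1 h0 h1 fun z => ?_
  have h2 := hf.2 (x + s • z) (y + s • z)
  rwa [add_sub_add_right_eq_sub] at h2

end

theorem step_Sm {s a B D : ℝ} (hs : 0 < s) (h : |a| ≤ B / D) : |-s⁻¹ * a| ≤ B / (s * D) := by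
  rw [abs_mul, abs_neg, abs_of_pos (inv_pos.2 hs), mul_comm s D, ← div_div, ← div_eq_inv_mul]
  exact div_le_div_of_nonneg_right h hs.le

theorem first_Sm {s a B : ℝ} (hs : 0 < s) (h : |a| ≤ B * √s) : |-s⁻¹ * a| ≤ B / √s := by
  have h1 : 0 < √s := Real.sqrt_pos.2 hs
  rw [abs_mul, abs_neg, abs_of_pos (inv_pos.2 hs), ← div_eq_inv_mul, div_le_div_iff₀ hs h1]
  calc |a| * √s ≤ B * √s * √s := by gcongr
    _ = B * s := by rw [mul_assoc, Real.mul_self_sqrt hs.le]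

theorem sSm (hGk : GkStmt) (hKer : KerStmt) : SmStmt := by
  intro N
  obtain ⟨g1, g0, d0, d1, d2⟩ := hGk N
  replace d1 := fun i => (d1 i).1
  obtain ⟨C1, c1⟩ := Finite.exists_le fun i : Fin N => cst_Sm (pd i gk)
  obtain ⟨C2, c2⟩ := Finite.exists_le fun p : Fin N × Fin N => cst_Sm (pd p.1 (pd p.2 gk))
  obtain ⟨C3, c3⟩ := Finite.exists_le fun p : Fin N × Fin N × Fin N =>
    cst_Sm (pd p.1 (pd p.2.1 (pd p.2.2 gk)))
  obtain ⟨C, c⟩ := Finite.exists_le ![0, cst_Sm (gk : E N → ℝ), C1, C2, C3]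
  refine ⟨C, c 0, fun M f hf => ?_⟩
  have ker := fun ψ s hψ hs => hKer N ψ f M s hψ hf.continuous hf.1 hs
  have e1 : ∀ s, 0 < s → ∀ i, pd i (KS gk s f) = fun x => -s⁻¹ * KS (pd i gk) s f x :=
    fun s hs i => funext ((ker _ s d0 hs).2 i)
  have e2 : ∀ s, 0 < s → ∀ i j, pd i (pd j (KS gk s f)) =
      fun x => -s⁻¹ * (-s⁻¹ * KS (pd i (pd j gk)) s f x) := fun s hs i j => funext fun x => by
    rw [e1 s hs, ← (ker _ s (d1 j) hs).2 i x]
    exact dd_const_mul ..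
  have bd : ∀ s, 0 < s → ∀ ψ, Dec ψ → ∀ i, cst_Sm (pd i ψ) ≤ C → ∀ x,
      |-s⁻¹ * KS (pd i ψ) s f x| ≤ C * M / √s := fun s hs ψ hψ i hc x => by
    have h1 := diff_Sm (hψ.nice_pd_Sm i) hf hs x hc
    rw [int_pd_Sm hKer hψ, mul_zero, sub_zero] at h1
    exact first_Sm hs h1
  have hinv : ContinuousOn (fun t : ℝ => -t⁻¹) (Ioi 0) :=
    (continuousOn_inv₀.mono fun t ht => ne_of_gt ht).neg
  intro s hs
  refine ⟨hb_Sm d0.nice_Sm g0 g1 hf s, fun x => ?_, (ker _ s d0 hs).1, fun i => ?_,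
    fun i j => ?_, fun i x => ?_, fun i j x => ?_, fun i j k x => ?_,
    fun x => (cont_Sm d0.nice_Sm hf x).continuousOn, fun i x => ?_, fun i j x => ?_⟩
  · have h1 := diff_Sm d0.nice_Sm hf hs x (c 1)
    rwa [g1, mul_one] at h1
  · rw [e1 s hs]
    exact (ker _ s (d1 i) hs).1.const_mul _
  · rw [e2 s hs]
    exact ((ker _ s (d2 i j) hs).1.const_mul _).const_mul _
  · rw [e1 s hs]
    exact bd s hs _ d0 i ((c1 i).trans (c 2)) x
  · rw [e2 s hs]
    exact step_Sm hs (bd s hs _ (d1 j) i ((c2 (i, j)).trans (c 3)) x)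
  · rw [e2 s hs, pd, dd_const_mul, dd_const_mul, ← pd, (ker _ s (d2 j k) hs).2 i x, sq,
      mul_assoc s s]
    exact step_Sm hs (step_Sm hs (bd s hs _ (d2 j k) i ((c3 (i, j, k)).trans (c 4)) x))
  · exact (hinv.mul (cont_Sm (d1 i).nice_Sm hf x).continuousOn).congr fun t ht =>
      congrFun (e1 t ht i) x
  · exact (hinv.mul (hinv.mul (cont_Sm (d2 i j).nice_Sm hf x).continuousOn)).congr fun t ht =>
      congrFun (e2 t ht i j) x

end Pool.Agent.MP_5f4cdd_gt.CB
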