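import Pool.Agent.MP_5f4cdd_gt.CB.Api

set_option autoImplicit false
open MeasureTheory Matrix Set Filter Topology

namespace Pool.Agent.MP_5f4cdd_gt.CB

variable {N : ℕ} {W : Set (E N)} {b0 : E N} {G : E N → ℝ}

theorem PP_lin_Stage1 (G : E N → ℝ) (b1 β1 b2 β2 y : E N) (t : ℝ) :
    PP G (b1 + t • b2) (β1 + t • β2) y = PP G b1 β1 y + t * PP G b2 β2 y := by
  simp only [PP, add_dotProduct, smul_dotProduct, smul_eq_mul]
  ring

theorem PP_smul_Stage1 (G : E N → ℝ) (b β y : E N) (t : ℝ) :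
    PP G (t • b) (t • β) y = t * PP G b β y := by
  simp only [PP, smul_dotProduct, smul_eq_mul]
  ring

theorem low_Stage1 (hGeo1 : Geo1Stmt) (hW : PC W b0) (hG : Bar W G) {y0 y : E N}
    (hy0 : y0 ∈ oV W) (hy : y ∈ oV W) : 2 * (N : ℝ) ≤ PP G y0 (eta G y0) y := by
  obtain ⟨-, -, -, h1, -, -, h2⟩ := hGeo1 N W b0 G hW hG y0 hy0
  obtain ⟨-, -, -, h3, -⟩ := hGeo1 N W b0 G hW hG y hy
  have h4 := h2 y hy
  have h5 : 0 ≤ y ⬝ᵥ eta G y0 := oV_subset_cV W hy _ h1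
  have h6 : 0 ≤ y0 ⬝ᵥ eta G y := oV_subset_cV W hy0 _ h3
  rw [PP, dotProduct_comm (eta G y0) y]
  refine le_of_sq_le_sq ?_ (add_nonneg h6 h5)
  nlinarith [sq_nonneg (y ⬝ᵥ eta G y0 - y0 ⬝ᵥ eta G y)]

theorem wt_int_Stage1 (hGeo3 : Geo3Stmt) (hN : 0 < N) (hW : PC W b0) (hG : Bar W G) {b β : E N}
    (hb : b ∈ oV W) (hβ : β ∈ iW W) : IntegrableOn (wt G b β) (oV W) := by
  have h := (hGeo3 N W b0 G hN hW hG b hb β hβ).2.2.1 (fun _ => 1) continuousOn_const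
    ⟨1, 0, fun _ _ => by simp⟩
  simpa only [one_mul] using h

theorem ex_low_Stage1 (hGeo3 : Geo3Stmt) (hN : 0 < N) (hW : PC W b0) (hG : Bar W G)
    {b β b2 β2 : E N} (hb : b ∈ oV W) (hβ : β ∈ iW W) (hb2 : b2 ∈ oV W) (hβ2 : β2 ∈ iW W)
    {c : ℝ} (hc : ∀ y ∈ oV W, c ≤ PP G b2 β2 y) : c ≤ Ex W G b β (PP G b2 β2) := by
  obtain ⟨h1, -, h2, h3, h4, -⟩ := hGeo3 N W b0 G hN hW hG b hb β hβ
  obtain ⟨C, hC⟩ := h4 b2 (oV_subset_cV W hb2) β2 hβ2.1
  have h5 := h2 (PP G b2 β2) (fun y hy =>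
    ((hGeo3 N W b0 G hN hW hG b2 hb2 β2 hβ2).1 y hy).2.continuousAt.continuousWithinAt)
    ⟨|C|, 1, fun y hy => by
      have h6 := (h1 y hy).1
      have h7 := mul_le_mul_of_nonneg_right (le_abs_self C) h6.le
      rw [abs_of_nonneg (hC y hy).1, pow_one, mul_add]
      linarith [(hC y hy).2, abs_nonneg C]⟩
  rw [Ex, le_div_iff₀ h3, ZZ, ← integral_const_mul]
  exact setIntegral_mono_on ((wt_int_Stage1 hGeo3 hN hW hG hb hβ).const_mul c) h5
    (isOpen_oV W).measurableSet fun y hy =>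
      mul_le_mul_of_nonneg_right (hc y hy) (Real.exp_nonneg _)

theorem num_Stage1 {n e e' v π s : ℝ} (hn : 0 < n) (he : 0 ≤ e) (hπ0 : 0 ≤ π) (hπ : π ≤ n * s)
    (h1 : e ^ 2 ≤ n * (e + 4 * π)) (h2 : e' ^ 2 ≤ v * (3 * e + 8 * π)) (h3 : 2 * n ≤ e') :
    (e / n) ^ 2 ≤ e / n + 4 * s ∧ (e' / n) ^ 2 ≤ v / n * (3 * (e / n) + 8 * s) := by
  have hv : 0 ≤ v := by
    by_contra hv
    have h4 : v * (3 * e + 8 * π) ≤ 0 :=
      mul_nonpos_of_nonpos_of_nonneg (not_le.1 hv).le (by positivity)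
    have h5 : 0 < e' ^ 2 := pow_pos (by linarith) 2
    linarith
  constructor
  · rw [div_pow, div_le_iff₀ (by positivity)]
    have e1 : (e / n + 4 * s) * n ^ 2 = n * (e + 4 * (n * s)) := by field_simp
    rw [e1]
    exact h1.trans (by gcongr)
  · rw [div_pow, div_le_iff₀ (by positivity)]
    have e1 : v / n * (3 * (e / n) + 8 * s) * n ^ 2 = v * (3 * e + 8 * (n * s)) := by field_simp
    rw [e1]
    exact h2.trans (by gcongr)

theorem sStage1 (hGeo1 : Geo1Stmt) (hGeo2 : Geo2Stmt) (hGeo3 : Geo3Stmt) (hVar : VarStmt)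
    (hDer : DerStmt) (hLapl : LaplStmt) : Stage1Stmt := by
  intro N W b0 G hN hW hG b hb β hβ hbβ y0 hy0 hP lam q hlam hq
  have hn : (0 : ℝ) < N := by exact_mod_cast hN
  have hη : eta G y0 ∈ iW W := (hGeo2 N W b0 G hN hW hG y0 hy0).2.2
  have hyη : y0 ⬝ᵥ eta G y0 = N := (hGeo1 N W b0 G hW hG y0 hy0).2.1
  have hb1 : lam • b ∈ oV W := oV_smul hb hlam
  have hβ1 : lam • β ∈ iW W := iW_smul hW hβ hlam
  refine hq (fun t => Real.log (ZZ W G (lam • b + t • y0) (lam • β + t • eta G y0)) / N)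
    (fun t => Ex W G (lam • b + t • y0) (lam • β + t • eta G y0) (PP G y0 (eta G y0)) / N)
    (fun t => (Ex W G (lam • b + t • y0) (lam • β + t • eta G y0)
        (fun y => PP G y0 (eta G y0) y ^ 2) -
      Ex W G (lam • b + t • y0) (lam • β + t • eta G y0) (PP G y0 (eta G y0)) ^ 2) / N)
    _ _ (fun t ht => ?_) (fun ε hε => ?_)
  · have hbt : lam • b + t • y0 ∈ oV W := oV_add hb1 (cV_smul (oV_subset_cV W hy0) ht.le)
    have hβt : lam • β + t • eta G y0 ∈ iW W := iW_add hW hβ1 (hW.smul _ hη.1 t ht.le)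
    obtain ⟨hd1, hd2⟩ := hDer N W b0 G hN hW hG _ (oV_subset_cV W hb1) _ hβ1.1 y0 hy0 _ hη t ht
    obtain ⟨hv1, hv2, hv3⟩ := hVar N W b0 G hN hW hG _ hbt _ hβt
    have hlow := ex_low_Stage1 hGeo3 hN hW hG hbt hβt hy0 hη
      fun y hy => low_Stage1 hGeo1 hW hG hy0 hy
    have hπ : (lam • b + t • y0) ⬝ᵥ (lam • β + t • eta G y0) ≤ N * (lam + t) ^ 2 := by
      have h1 := mul_le_mul_of_nonneg_left hP (mul_pos hlam ht).le
      rw [PP, dotProduct_comm β y0] at h1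
      simp only [add_dotProduct, dotProduct_add, smul_dotProduct, dotProduct_smul, smul_eq_mul,
        hbβ, hyη]
      nlinarith
    have hnum := num_Stage1 hn hv1 (oV_subset_cV W hbt _ hβt.1) hπ hv2
      (hv3 y0 (oV_subset_cV W hy0) _ hη.1) hlow
    refine ⟨?_, ?_, ?_, ?_, _, div_nonneg hv1 hn.le, hnum.1, hnum.2⟩
    · rw [← neg_div]
      exact hd1.div_const _
    · rw [← neg_div]
      exact hd2.div_const _
    · exact (le_div_iff₀ hn).2 hlow
    · refine div_le_div_of_nonneg_right (Real.log_le_log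
        (hGeo3 N W b0 G hN hW hG _ hbt _ hβt).2.2.2.1 ?_) hn.le
      refine setIntegral_mono_on (wt_int_Stage1 hGeo3 hN hW hG hbt hβt)
        (wt_int_Stage1 hGeo3 hN hW hG hb1 hβ1) (isOpen_oV W).measurableSet fun y hy => ?_
      refine Real.exp_le_exp.2 ?_
      have h1 := low_Stage1 hGeo1 hW hG hy0 hy
      have h2 : 0 ≤ t * PP G y0 (eta G y0) y := mul_nonneg ht.le (by linarith)
      rw [PP_lin_Stage1]
      linarith
  · filter_upwards [hLapl N W b0 G hN hW hG _ hb1 _ hβ1 y0 hy0 (ε * N) (by positivity)] with T hT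
    rw [PP_smul_Stage1] at hT
    refine le_of_mul_le_mul_right ?_ hn
    have e1 : (Real.log Real.pi / 2 - lam * (PP G b β y0 / N) - ε) * N =
        -(lam * PP G b β y0) + N / 2 * Real.log Real.pi - ε * N := by
      field_simp
      ring
    have e2 : ∀ z : ℝ, (z / N + 2 * T + Real.log T / 2) * N =
        z + 2 * T * N + N / 2 * Real.log T := fun z => by
      field_simp
    rw [e1, e2]
    exact hT

end Pool.Agent.MP_5f4cdd_gt.CB
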