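import Pool.Agent.MP_5f4cdd_gt.CB.Api

set_option autoImplicit false
open MeasureTheory Matrix Set Filter Topology

namespace Pool.Agent.MP_5f4cdd_gt.CB

theorem seq_Step {α : Type} (P : ℕ → α → Prop) (R : α → α → Prop) (h0 : ∃ a, P 0 a)
    (hs : ∀ n a, P n a → ∃ b, P (n + 1) b ∧ R a b) :
    ∃ f : ℕ → α, (∀ n, P n (f n)) ∧ ∀ n, R (f n) (f (n + 1)) := by
  obtain ⟨a0, ha0⟩ := h0
  choose nx hP hR using hs
  let F : (n : ℕ) → {a : α // P n a} := fun n =>
    Nat.rec (motive := fun n => {a : α // P n a}) ⟨a0, ha0⟩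
      (fun n s => ⟨nx n s.1 s.2, hP n s.1 s.2⟩) n
  exact ⟨fun n => (F n).1, fun n => (F n).2, fun n => hR n (F n).1 (F n).2⟩

theorem c2_Step {N : ℕ} {M : ℝ} {u : E N → ℝ} (h : HB 5 M u) (x : E N) : ContDiffAt ℝ 2 u x :=
  (h.contDiff.of_le (by norm_num)).contDiffAt

theorem op_add_Step {N : ℕ} (a : E N → Mat N) {u w : E N → ℝ} {x : E N}
    (hu : ContDiffAt ℝ 2 u x) (hw : ContDiffAt ℝ 2 w x) :
    op a (fun y => u y + w y) x = op a u x + op a w x := by
  simp only [op, hess_add hu hw, Matrix.mul_add, trace_add]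
  ring

theorem lim_Step {N : ℕ} (g : E N → Mat N) (h v : E N → ℝ) (f : ℕ → E N → ℝ) (x : E N)
    (h1 : Tendsto (fun n => f n x) atTop (𝓝 (v x)))
    (h2 : Tendsto (fun n => hess (f n) x) atTop (𝓝 (hess v x)))
    (he : ∀ n, op (fun y => (g y)⁻¹) (f (n + 1)) x = Tm g h (f n) x) :
    op (fun y => (g y)⁻¹) v x = Tm g h v x := by
  have c1 : Continuous fun p : ℝ × Mat N => ((g x)⁻¹ * p.2).trace - 2 * p.1 :=
    ((continuous_const.matrix_mul continuous_snd).matrix_trace).sub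
      (continuous_const.mul continuous_fst)
  have c2 : Continuous fun p : ℝ × Mat N => (Real.exp (2 * p.1 + h x) - 1 - 2 * p.1)
      - ((1 + (g x)⁻¹ * p.2).det - 1 - ((g x)⁻¹ * p.2).trace) := by
    refine Continuous.sub ?_ ?_
    · fun_prop
    · exact ((continuous_const.add (continuous_const.matrix_mul continuous_snd)).matrix_det.sub
        continuous_const).sub (continuous_const.matrix_mul continuous_snd).matrix_trace
  have h3 := h1.prodMk_nhds h2
  have t1 := ((c1.tendsto _).comp h3).comp (tendsto_add_atTop_nat 1)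
  have t2 := (c2.tendsto _).comp h3
  exact tendsto_nhds_unique (t1.congr fun n => he n) t2

theorem sStep (hStepA : StepAStmt) (hLin : LinStmt) : StepStmt := by
  intro N c K hc
  obtain ⟨C, r0, hC, hr0, hA⟩ := hStepA N c K hc
  obtain ⟨Ci, -, hInv⟩ := HBM_inv N 3 c K hc
  have hc' : 0 < 1 / ((N : ℝ) * |K| + 1) := by positivity
  obtain ⟨CL, hCL, hL⟩ := hLin N 3 (1 / ((N : ℝ) * |K| + 1)) Ci hc'
  have hC0 : 0 ≤ C := zero_le_one.trans hC
  have hT : 0 ≤ CL * C := mul_nonneg hCL hC0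
  obtain ⟨r, hr, hr1, hr2, hr3, hr4⟩ : ∃ r : ℝ, 0 < r ∧ r ≤ r0 ∧ r ≤ 1 ∧ CL * C * r ≤ 1 / 2 ∧
      N * r ≤ c / 2 := by
    refine ⟨min (min r0 1) (min (1 / (2 * (CL * C + 1))) (c / (2 * (N + 1)))), by positivity,
      (min_le_left _ _).trans (min_le_left _ _), (min_le_left _ _).trans (min_le_right _ _),
      ?_, ?_⟩
    · refine (mul_le_mul_of_nonneg_left ((min_le_right _ _).trans (min_le_left _ _)) hT).trans ?_
      rw [mul_one_div, div_le_iff₀ (by positivity)]
      linarith only []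
    · refine (mul_le_mul_of_nonneg_left ((min_le_right _ _).trans (min_le_right _ _))
        (Nat.cast_nonneg N)).trans ?_
      rw [← mul_div_assoc, div_le_iff₀ (by positivity)]
      linarith only [hc]
  have hδ : 0 < r / (2 * (CL * C + 1)) := by positivity
  have hδ1 : r / (2 * (CL * C + 1)) ≤ r := div_le_self hr.le (by linarith only [hT])
  have hδ2 : CL * (C * (r / (2 * (CL * C + 1)))) ≤ r / 2 * (1 / 2) ^ 0 := by
    rw [← mul_assoc, ← mul_div_assoc, div_le_iff₀ (by positivity), pow_zero]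
    linarith only [hr]
  refine ⟨r / (2 * (CL * C + 1)), hδ, fun g h hg hK hh => ?_⟩
  have hie := fun x => inv_ell (hg x).1 hc (hg x).2 fun i j => (hK i j).bound x
  have ha1 : Ell (1 / ((N : ℝ) * |K| + 1)) fun x => (g x)⁻¹ := fun x => ⟨(hie x).1, (hie x).2.1⟩
  have ha2 : HBM 3 Ci fun x => (g x)⁻¹ := (hInv g hK hg).1
  have hA0 := (hA g h _ hg hK (hδ1.trans hr1) hh).1
  have hA1 := (hA g h r hg hK hr1 (hh.mono hδ1)).2
  have hz : HB 5 (r * (1 - (1 / 2) ^ 0)) (fun _ : E N => (0 : ℝ)) :=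
    (HB_const 5 0).mono (by simp)
  obtain ⟨s, hs, hs'⟩ := seq_Step (α := (E N → ℝ) × (E N → ℝ))
    (fun n p => HB 5 (r * (1 - (1 / 2) ^ n)) p.1 ∧ HB 5 (r / 2 * (1 / 2) ^ n) p.2 ∧
      ∀ x, op (fun y => (g y)⁻¹) (fun y => p.1 y + p.2 y) x = Tm g h p.1 x)
    (fun p q => q.1 = fun y => p.1 y + p.2 y)
    (by
      obtain ⟨u, hu, he⟩ := hL _ _ _ ha1 ha2 hA0
      refine ⟨(fun _ => 0, u), hz, HB.mono (k := 5) hu hδ2, fun x => ?_⟩
      simpa only [zero_add] using he x)
    (by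
      rintro n ⟨v, d⟩ ⟨hv, hd, he⟩
      have hp : (0 : ℝ) < (1 / 2) ^ n := by positivity
      have hv' : HB 5 (r * (1 - (1 / 2) ^ (n + 1))) fun y => v y + d y :=
        (hv.add hd).mono (le_of_eq (by ring))
      have hle : ∀ m : ℕ, r * (1 - (1 / 2) ^ m) ≤ r := fun m =>
        mul_le_of_le_one_right hr.le (sub_le_self _ (by positivity))
      have hdd : HB 5 (r / 2 * (1 / 2) ^ n) fun x => (v x + d x) - v x := by
        simpa only [add_sub_cancel_left] using hd
      obtain ⟨u, hu, heu⟩ := hL _ _ _ ha1 ha2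
        (hA1 (fun y => v y + d y) v _ (hv'.mono (hle _)) (hv.mono (hle _)) hdd)
      have hu5 : HB 5 (r / 2 * (1 / 2) ^ (n + 1)) u := by
        refine HB.mono (k := 5) hu ?_
        have h5 : 0 ≤ r / 2 * (1 / 2) ^ n := by positivity
        calc CL * (C * r * (r / 2 * (1 / 2) ^ n)) = CL * C * r * (r / 2 * (1 / 2) ^ n) := by ring
          _ ≤ 1 / 2 * (r / 2 * (1 / 2) ^ n) := mul_le_mul_of_nonneg_right hr3 h5
          _ = r / 2 * (1 / 2) ^ (n + 1) := by ring
      refine ⟨(fun y => v y + d y, u), ⟨hv', hu5, fun x => ?_⟩, rfl⟩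
      have h6 := op_add_Step (fun y => (g y)⁻¹) (c2_Step hv' x) (c2_Step hu5 x)
      refine h6.trans ?_
      rw [heu x, he x]
      ring)
  obtain ⟨v, hv, hf, hlim⟩ := HB_cauchy (f := fun n => (s n).1) (a := r / 2) (hs 0).1 fun n => by
    simpa only [hs' n, add_sub_cancel_left] using (hs n).2.1
  have hrr : r * (1 - (1 / 2) ^ 0) + 2 * (r / 2) = r := by ring
  rw [hrr] at hv hf
  have heq : ∀ x, op (fun y => (g y)⁻¹) v x = Tm g h v x := fun x =>
    lim_Step g h v (fun n => (s n).1) x (hlim x) (HB_lim_hess (k := 3) hf hlim x) fun n => by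
      simpa only [hs' n] using (hs n).2.2 x
  refine ⟨v, hv.mono hr2, fun x => ⟨(hg x).1.add (hess_symm (c2_Step hv x)), fun z => ?_⟩,
    fun x => ?_⟩
  · have h1 := abs_qf_le_of_entry (fun i j => (HB.hessM (k := 3) hv i j).bound x) z
    have h2 := (hg x).2 z
    have h3 := mul_le_mul_of_nonneg_right hr4 (dot_self_nonneg' z)
    rw [qf_add]
    linarith only [h2, h3, (abs_le.1 h1).1]
  · have hdet : 0 < (g x).det := (pow_pos hc N).trans_le (hie x).2.2.2.2
    have h1 : (1 + (g x)⁻¹ * hess v x).det = Real.exp (2 * v x + h x) := by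
      have := heq x
      simp only [op, Tm] at this
      linarith only [this]
    have h2 : g x + hess v x = g x * (1 + (g x)⁻¹ * hess v x) := by
      rw [Matrix.mul_add, Matrix.mul_one, ← Matrix.mul_assoc,
        mul_nonsing_inv _ (isUnit_iff_ne_zero.2 hdet.ne'), Matrix.one_mul]
    rw [h2, det_mul, h1, Real.log_mul hdet.ne' (Real.exp_pos _).ne', Real.log_exp, add_assoc]

end Pool.Agent.MP_5f4cdd_gt.CB
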