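import Pool.Agent.MP_5f4cdd_gt.CB.Api

set_option autoImplicit false
open MeasureTheory Matrix Set Filter Topology

namespace Pool.Agent.MP_5f4cdd_gt.CB

variable {N : ℕ} {W : Set (E N)} {G : E N → ℝ} {b β : E N} {φ ψ : E N → ℝ}

/-- continuous functions of polynomial growth -/
def Gd_Var (W : Set (E N)) (G : E N → ℝ) (b β : E N) (φ : E N → ℝ) : Prop :=
  ContinuousOn φ (oV W) ∧ PolyP W G b β φ

/-- the standing facts on the weight -/
structure Ctx_Var (W : Set (E N)) (G : E N → ℝ) (b β : E N) : Prop where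
  pos : ∀ y ∈ oV W, 0 ≤ PP G b β y
  int : ∀ φ : E N → ℝ, ContinuousOn φ (oV W) → PolyP W G b β φ →
    IntegrableOn (fun y => φ y * wt G b β y) (oV W)
  zz : 0 < ZZ W G b β

theorem poly_const_Var (c : ℝ) : PolyP W G b β fun _ => c := ⟨|c|, 0, fun _ _ => by simp⟩

theorem poly_le_Var (h : PolyP W G b β ψ) (hle : ∀ y ∈ oV W, |φ y| ≤ ψ y) : PolyP W G b β φ := by
  obtain ⟨C, d, hC⟩ := h
  exact ⟨C, d, fun y hy => (hle y hy).trans ((le_abs_self _).trans (hC y hy))⟩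

theorem poly_congr_Var (h : PolyP W G b β ψ) (he : ∀ y ∈ oV W, φ y = ψ y) :
    PolyP W G b β φ := by
  obtain ⟨C, d, hC⟩ := h
  exact ⟨C, d, fun y hy => by rw [he y hy]; exact hC y hy⟩

theorem poly_mul_Var (h : PolyP W G b β φ) (h' : PolyP W G b β ψ) :
    PolyP W G b β fun y => φ y * ψ y := by
  obtain ⟨C, d, hC⟩ := h
  obtain ⟨C', d', hC'⟩ := h'
  refine ⟨C * C', d + d', fun y hy => ?_⟩
  rw [abs_mul, pow_add, mul_mul_mul_comm]
  exact mul_le_mul (hC y hy) (hC' y hy) (abs_nonneg _) ((abs_nonneg _).trans (hC y hy))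

theorem poly_add_Var (c : Ctx_Var W G b β) (h : PolyP W G b β φ) (h' : PolyP W G b β ψ) :
    PolyP W G b β fun y => φ y + ψ y := by
  obtain ⟨C, d, hC⟩ := h
  obtain ⟨C', d', hC'⟩ := h'
  refine ⟨|C| + |C'|, d + d', fun y hy => ?_⟩
  have h1 : 1 ≤ 1 + PP G b β y := by linarith [c.pos y hy]
  have k : ∀ (A : ℝ) (m : ℕ), m ≤ d + d' →
      A * (1 + PP G b β y) ^ m ≤ |A| * (1 + PP G b β y) ^ (d + d') := fun A m hm =>
    mul_le_mul (le_abs_self A) (pow_le_pow_right₀ h1 hm) (by positivity) (abs_nonneg A)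
  rw [add_mul]
  exact (abs_add_le _ _).trans (add_le_add ((hC y hy).trans (k C d (Nat.le_add_right _ _)))
    ((hC' y hy).trans (k C' d' (Nat.le_add_left _ _))))

theorem gd_const_Var (c : ℝ) : Gd_Var W G b β fun _ => c :=
  ⟨continuousOn_const, poly_const_Var c⟩

theorem gd_mul_Var (h : Gd_Var W G b β φ) (h' : Gd_Var W G b β ψ) :
    Gd_Var W G b β fun y => φ y * ψ y := ⟨h.1.mul h'.1, poly_mul_Var h.2 h'.2⟩

theorem gd_add_Var (c : Ctx_Var W G b β) (h : Gd_Var W G b β φ) (h' : Gd_Var W G b β ψ) :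
    Gd_Var W G b β fun y => φ y + ψ y := ⟨h.1.add h'.1, poly_add_Var c h.2 h'.2⟩

theorem gd_cmul_Var (t : ℝ) (h : Gd_Var W G b β φ) : Gd_Var W G b β fun y => t * φ y :=
  gd_mul_Var (gd_const_Var t) h

theorem gd_sub_Var (c : Ctx_Var W G b β) (h : Gd_Var W G b β φ) (h' : Gd_Var W G b β ψ) :
    Gd_Var W G b β fun y => φ y - ψ y := by
  simpa only [neg_one_mul, ← sub_eq_add_neg] using gd_add_Var c h (gd_cmul_Var (-1) h')

theorem Ex_congr_Var (he : ∀ y ∈ oV W, φ y = ψ y) : Ex W G b β φ = Ex W G b β ψ := by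
  unfold Ex
  rw [setIntegral_congr_fun (isOpen_oV W).measurableSet
    (g := fun y => ψ y * wt G b β y) fun y hy => by simp only [he y hy]]

theorem Ex_cmul_Var (t : ℝ) (φ : E N → ℝ) :
    Ex W G b β (fun y => t * φ y) = t * Ex W G b β φ := by
  simp only [Ex, mul_assoc, integral_const_mul, mul_div_assoc]

theorem Ex_const_Var (c : Ctx_Var W G b β) (t : ℝ) : Ex W G b β (fun _ => t) = t := by
  unfold Ex
  rw [integral_const_mul, mul_div_assoc]
  exact (congrArg _ (div_self c.zz.ne')).trans (mul_one t)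

theorem Ex_add_Var (c : Ctx_Var W G b β) (h : Gd_Var W G b β φ) (h' : Gd_Var W G b β ψ) :
    Ex W G b β (fun y => φ y + ψ y) = Ex W G b β φ + Ex W G b β ψ := by
  simp only [Ex, add_mul]
  rw [integral_add (c.int _ h.1 h.2) (c.int _ h'.1 h'.2), add_div]

theorem Ex_sub_Var (c : Ctx_Var W G b β) (h : Gd_Var W G b β φ) (h' : Gd_Var W G b β ψ) :
    Ex W G b β (fun y => φ y - ψ y) = Ex W G b β φ - Ex W G b β ψ := by
  simp only [Ex, sub_mul]
  rw [integral_sub (c.int _ h.1 h.2) (c.int _ h'.1 h'.2), sub_div]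

theorem Ex_nonneg_Var (c : Ctx_Var W G b β) (h : ∀ y ∈ oV W, 0 ≤ φ y) : 0 ≤ Ex W G b β φ :=
  div_nonneg (setIntegral_nonneg (isOpen_oV W).measurableSet fun y hy =>
    mul_nonneg (h y hy) (Real.exp_pos _).le) c.zz.le

theorem Ex_mono_Var (c : Ctx_Var W G b β) (h : Gd_Var W G b β φ) (h' : Gd_Var W G b β ψ)
    (hle : ∀ y ∈ oV W, φ y ≤ ψ y) : Ex W G b β φ ≤ Ex W G b β ψ := by
  rw [← sub_nonneg, ← Ex_sub_Var c h' h]
  exact Ex_nonneg_Var c fun y hy => sub_nonneg.2 (hle y hy)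

theorem Ex_cs_Var (c : Ctx_Var W G b β) (h : Gd_Var W G b β φ) (h' : Gd_Var W G b β ψ) :
    Ex W G b β (fun y => φ y * ψ y) ^ 2 ≤
      Ex W G b β (fun y => φ y * φ y) * Ex W G b β (fun y => ψ y * ψ y) := by
  have k := discrim_le_zero (a := Ex W G b β fun y => φ y * φ y)
    (b := 2 * Ex W G b β fun y => φ y * ψ y) (c := Ex W G b β fun y => ψ y * ψ y) fun t => by
      rw [mul_comm _ (t * t), mul_right_comm 2 _ t, ← Ex_cmul_Var, ← Ex_cmul_Var,
        ← Ex_add_Var c (gd_cmul_Var _ (gd_mul_Var h h)) (gd_cmul_Var _ (gd_mul_Var h h')),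
        ← Ex_add_Var c (gd_add_Var c (gd_cmul_Var _ (gd_mul_Var h h))
          (gd_cmul_Var _ (gd_mul_Var h h'))) (gd_mul_Var h' h')]
      exact Ex_nonneg_Var c fun y _ => by nlinarith [sq_nonneg (t * φ y + ψ y)]
  rw [discrim] at k
  linarith

theorem contDiffAt_PP_Var {y : E N} (h : ContDiffAt ℝ 4 G y) (b β : E N) :
    ContDiffAt ℝ 3 (PP G b β) y := by
  have e : PP G b β = fun z => -dd b G z + ∑ i, β i * z i := by
    funext z
    rw [PP, eta, dotProduct_neg, dd_eq_dot]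
    rfl
  rw [e]
  exact (contDiffAt_dd (k := 3) h b).neg.add (by fun_prop)

theorem ip_symm_Var {y : E N} (h : (hess G y).PosDef) (u v : E N → ℝ) :
    ip G u v y = ip G v u y := qf_symm (posDef_isSymm h.inv) _ _

theorem ip_one_Var (v : E N → ℝ) : ip G (fun _ => 1) v = fun _ => 0 := by
  funext y
  have e : grad (fun _ : E N => (1 : ℝ)) y = 0 := funext fun i => dd_const _ _ _
  rw [ip, e, qf, zero_dotProduct]

theorem gd_ip_Var (c : Ctx_Var W G b β) (hG : Bar W G) {u v : E N → ℝ}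
    (hu : ∀ y ∈ oV W, ContDiffAt ℝ 1 u y) (hv : ∀ y ∈ oV W, ContDiffAt ℝ 1 v y)
    (pu : PolyP W G b β (ip G u u)) (pv : PolyP W G b β (ip G v v)) :
    Gd_Var W G b β (ip G u v) := by
  refine ⟨fun y hy => ContinuousAt.continuousWithinAt ?_,
    poly_le_Var (poly_add_Var c pu pv) fun y hy => ?_⟩
  · exact continuous_qf.continuousAt.comp (f := fun z => ((hess G z)⁻¹, grad u z, grad v z))
      ((continuousAt_inv_hess ((hG.ma y hy).smooth.of_le (by norm_num)) (hG.ma y hy).pos).prodMk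
        ((continuousAt_grad (hu y hy)).prodMk (continuousAt_grad (hv y hy))))
  · have hp := (hG.ma y hy).pos.inv
    have h1 := qf_cs hp (grad u y) (grad v y)
    have h2 := qf_nonneg hp (grad u y)
    have h3 := qf_nonneg hp (grad v y)
    unfold ip
    exact abs_le_of_sq_le_sq (by nlinarith [mul_nonneg h2 h3]) (add_nonneg h2 h3)

theorem cont_LB_Var (hG : Bar W G) {v : E N → ℝ} (hv : ∀ y ∈ oV W, ContDiffAt ℝ 2 v y) :
    ContinuousOn (LB G v) (oV W) := by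
  refine fun y hy => ContinuousAt.continuousWithinAt ?_
  have e : LB G v = fun z => ((hess G z)⁻¹ * hess v z).trace + z ⬝ᵥ grad v z := by
    funext z
    rw [LB, Lop, dd_eq_dot]
  rw [e]
  have c1 : Continuous fun p : Mat N × Mat N => (p.1 * p.2).trace :=
    (continuous_fst.matrix_mul continuous_snd).matrix_trace
  have c2 : Continuous fun p : E N × E N => p.1 ⬝ᵥ p.2 := continuous_fst.dotProduct continuous_snd
  exact (c1.continuousAt.comp (f := fun z => ((hess G z)⁻¹, hess v z))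
    ((continuousAt_inv_hess ((hG.ma y hy).smooth.of_le (by norm_num)) (hG.ma y hy).pos).prodMk
      (continuousAt_hess (hv y hy)))).add (c2.continuousAt.comp (f := fun z => (z, grad v z))
    (continuousAt_id.prodMk (continuousAt_grad ((hv y hy).of_le (by norm_num)))))

theorem sVar (hGeo1 : Geo1Stmt) (hGeo2 : Geo2Stmt) (hGeo3 : Geo3Stmt) (hPt : PtStmt)
    (hIbp : IbpStmt) : VarStmt := by
  intro N W b0 G hN hW hG b hb β hβ
  obtain ⟨g1, -, g2, g3, g4, -⟩ := hGeo3 N W b0 G hN hW hG b hb β hβ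
  have c : Ctx_Var W G b β := ⟨fun y hy => (g1 y hy).1.le, g2, g3⟩
  have pt := hPt N W b0 G hW hG
  have ibp := hIbp N W b0 G hN hW hG b hb β hβ
  have dP : ∀ b2 β2, ∀ y ∈ oV W, ContDiffAt ℝ 3 (PP G b2 β2) y := fun b2 β2 y hy =>
    contDiffAt_PP_Var (hG.ma y hy).smooth b2 β2
  have dP1 : ∀ b2 β2, ∀ y ∈ oV W, ContDiffAt ℝ 1 (PP G b2 β2) y := fun b2 β2 y hy =>
    (dP b2 β2 y hy).of_le (by norm_num)
  have dP2 : ∀ b2 β2, ∀ y ∈ oV W, ContDiffAt ℝ 2 (PP G b2 β2) y := fun b2 β2 y hy =>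
    (dP b2 β2 y hy).of_le (by norm_num)
  have dq : ∀ b2 β2, ∀ y ∈ oV W, ContDiffAt ℝ 2 (QQ G b2 β2) y := fun b2 β2 y hy =>
    (pt b2 β2 y hy).2.2.2.2.2.1
  have dq1 : ∀ y ∈ oV W, ContDiffAt ℝ 1 (QQ G b β) y := fun y hy =>
    (dq b β y hy).of_le (by norm_num)
  have gP : ∀ b2 ∈ cV W, ∀ β2 ∈ W, Gd_Var W G b β (PP G b2 β2) := by
    intro b2 hb2 β2 hβ2
    obtain ⟨C, hC⟩ := g4 b2 hb2 β2 hβ2
    refine ⟨fun y hy => (dP b2 β2 y hy).continuousAt.continuousWithinAt, |C|, 1, fun y hy => ?_⟩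
    rw [abs_of_nonneg (hC y hy).1, pow_one]
    exact (hC y hy).2.trans (mul_le_mul (le_abs_self C) (by linarith) (c.pos y hy) (abs_nonneg C))
  have gq : ∀ b2 ∈ cV W, ∀ β2 ∈ W, Gd_Var W G b β (QQ G b2 β2) := by
    intro b2 hb2 β2 hβ2
    refine ⟨fun y hy => (dq b2 β2 y hy).continuousAt.continuousWithinAt,
      poly_le_Var (gd_mul_Var (gP b2 hb2 β2 hβ2) (gP b2 hb2 β2 hβ2)).2 fun y hy => ?_⟩
    obtain ⟨h1, h2, -⟩ := hGeo2 N W b0 G hN hW hG y hy
    have h3 := hb2 _ (hGeo1 N W b0 G hW hG y hy).2.2.2.1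
    have h4 := oV_subset_cV W hy _ hβ2
    rw [dotProduct_comm] at h4
    rw [abs_of_nonneg (pt b2 β2 y hy).2.2.2.2.2.2.1, QQ, PP]
    nlinarith [h1 b2 hb2, h2 β2 hβ2, mul_nonneg h3 h4]
  have pPP : ∀ b2 ∈ cV W, ∀ β2 ∈ W, PolyP W G b β (ip G (PP G b2 β2) (PP G b2 β2)) :=
    fun b2 hb2 β2 hβ2 => poly_congr_Var (gd_sub_Var c (gq b2 hb2 β2 hβ2) (gd_const_Var _)).2
      fun y hy => (pt b2 β2 y hy).2.2.2.1
  have pLB : ∀ b2 ∈ cV W, ∀ β2 ∈ W, PolyP W G b β (LB G (PP G b2 β2)) :=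
    fun b2 hb2 β2 hβ2 => poly_congr_Var (gP b2 hb2 β2 hβ2).2 fun y hy => (pt b2 β2 y hy).2.2.1
  have hb' := oV_subset_cV W hb
  have GP := gP b hb' β hβ.1
  have Gq := gq b hb' β hβ.1
  have pP := pPP b hb' β hβ.1
  have pq : PolyP W G b β (ip G (QQ G b β) (QQ G b β)) :=
    poly_le_Var (gd_cmul_Var 16 (gd_mul_Var Gq Gq)).2 fun y hy => by
      have h0 : 0 ≤ ip G (QQ G b β) (QQ G b β) y := qf_nonneg (hG.ma y hy).pos.inv _
      rw [abs_of_nonneg h0, ← sq]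
      exact (pt b β y hy).2.2.2.2.2.2.2.2.2
  have gL : Gd_Var W G b β (LB G (QQ G b β)) :=
    ⟨cont_LB_Var hG (dq b β), poly_le_Var (gd_cmul_Var 4 Gq).2 fun y hy => by
      rw [abs_of_nonneg (pt b β y hy).2.2.2.2.2.2.2.1]
      exact (pt b β y hy).2.2.2.2.2.2.2.2.1⟩
  have p11 : PolyP W G b β (ip G (fun _ => 1) fun _ => 1) := by
    rw [ip_one_Var]; exact poly_const_Var 0
  obtain ⟨h, hh⟩ : ∃ h : E N → ℝ, h = fun y => QQ G b β y - 2 * (b ⬝ᵥ β) - PP G b β y := ⟨_, rfl⟩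
  have Gh : Gd_Var W G b β h := hh ▸ gd_sub_Var c (gd_sub_Var c Gq (gd_const_Var _)) GP
  -- integration by parts against the potential
  have I1 : ∀ u : E N → ℝ, (∀ y ∈ oV W, ContDiffAt ℝ 1 u y) → PolyP W G b β u →
      PolyP W G b β (ip G u u) →
      Ex W G b β (fun y => u y * h y) = Ex W G b β (ip G u (PP G b β)) := by
    intro u hu p1 p2
    have k := ibp u (PP G b β) (fun y hy => ⟨hu y hy, dP2 b β y hy⟩) p1 p2 pP (pLB b hb' β hβ.1)
    rw [Ex_congr_Var (ψ := fun y => -1 * (u y * h y)) fun y hy => by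
      rw [(pt b β y hy).2.2.1, (pt b β y hy).2.2.2.1, hh]; ring, Ex_cmul_Var] at k
    linarith
  -- the mean of the Laplacian
  have I2 : ∀ v : E N → ℝ, (∀ y ∈ oV W, ContDiffAt ℝ 2 v y) → Gd_Var W G b β (LB G v) →
      PolyP W G b β (ip G v v) →
      Ex W G b β (LB G v) = Ex W G b β (ip G v (PP G b β)) := by
    intro v hv p1 p2
    have k := ibp (fun _ => 1) v (fun y hy => ⟨contDiffAt_const, hv y hy⟩) (poly_const_Var 1) p11
      p2 p1.2
    rw [ip_one_Var, Ex_const_Var c, Ex_congr_Var (ψ := fun y => LB G v y - ip G v (PP G b β) y)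
      fun y hy => by rw [one_mul, ip_symm_Var (hG.ma y hy).pos],
      Ex_sub_Var c p1 (gd_ip_Var c hG (fun y hy => (hv y hy).of_le (by norm_num)) (dP1 b β) p2 pP)]
      at k
    linarith
  have E0 : Ex W G b β h = 0 := by
    have k := I1 (fun _ => 1) (fun _ _ => contDiffAt_const) (poly_const_Var 1) p11
    rw [ip_one_Var, Ex_const_Var c] at k
    simpa only [one_mul] using k
  have Eq : Ex W G b β (QQ G b β) = Ex W G b β (PP G b β) + 2 * (b ⬝ᵥ β) := by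
    rw [hh, Ex_sub_Var c (gd_sub_Var c Gq (gd_const_Var _)) GP, Ex_sub_Var c Gq (gd_const_Var _),
      Ex_const_Var c] at E0
    linarith
  have E2 : Ex W G b β (fun y => h y * h y) ≤ 3 * Ex W G b β (PP G b β) + 8 * (b ⬝ᵥ β) := by
    have k1 := I1 _ dq1 Gq.2 pq
    have k2 := I1 _ (dP1 b β) GP.2 pP
    have k3 := I2 _ (dq b β) gL pq
    have k4 := Ex_mono_Var c gL (gd_cmul_Var 4 Gq) fun y hy => (pt b β y hy).2.2.2.2.2.2.2.2.1
    rw [Ex_cmul_Var] at k4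
    rw [Ex_congr_Var fun y hy => (pt b β y hy).2.2.2.1, Ex_sub_Var c Gq (gd_const_Var _),
      Ex_const_Var c] at k2
    rw [Ex_congr_Var (ψ := fun y => QQ G b β y * h y - 2 * (b ⬝ᵥ β) * h y - PP G b β y * h y)
      fun y _ => by rw [← sub_mul, ← sub_mul, hh],
      Ex_sub_Var c (gd_sub_Var c (gd_mul_Var Gq Gh) (gd_cmul_Var _ Gh)) (gd_mul_Var GP Gh),
      Ex_sub_Var c (gd_mul_Var Gq Gh) (gd_cmul_Var _ Gh), Ex_cmul_Var, E0]
    linarith
  refine ⟨Ex_nonneg_Var c c.pos, ?_, fun b2 hb2 β2 hβ2 => ?_⟩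
  · have k1 := Ex_cs_Var c GP (gd_const_Var 1)
    simp only [mul_one, Ex_const_Var c] at k1
    have k2 := Ex_mono_Var c (gd_mul_Var GP GP)
      (gd_cmul_Var (N : ℝ) (gd_add_Var c Gq (gd_const_Var (2 * (b ⬝ᵥ β))))) fun y hy => by
        rw [← sq]; exact (pt b β y hy).2.2.2.2.1
    rw [Ex_cmul_Var, Ex_add_Var c Gq (gd_const_Var _), Ex_const_Var c, Eq] at k2
    refine k1.trans (k2.trans_eq ?_)
    ring
  · have G2 := gP b2 hb2 β2 hβ2
    have k1 := I1 _ (dP1 b2 β2) G2.2 (pPP b2 hb2 β2 hβ2)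
    have k2 := I2 _ (dP2 b2 β2) ⟨cont_LB_Var hG (dP2 b2 β2), pLB b2 hb2 β2 hβ2⟩
      (pPP b2 hb2 β2 hβ2)
    rw [Ex_congr_Var fun y hy => (pt b2 β2 y hy).2.2.1, ← k1] at k2
    obtain ⟨m, hm⟩ : ∃ m, m = Ex W G b β (PP G b2 β2) := ⟨_, rfl⟩
    have Gm := gd_sub_Var c G2 (gd_const_Var m)
    have k3 := Ex_cs_Var c Gm Gh
    have k4 : Ex W G b β (fun y => (PP G b2 β2 y - m) * h y) = m := by
      simp only [sub_mul]
      rw [Ex_sub_Var c (gd_mul_Var G2 Gh) (gd_cmul_Var _ Gh), Ex_cmul_Var, E0, ← k2, ← hm]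
      ring
    have k5 : Ex W G b β (fun y => (PP G b2 β2 y - m) * (PP G b2 β2 y - m)) =
        Ex W G b β (fun y => PP G b2 β2 y ^ 2) - m ^ 2 := by
      rw [Ex_congr_Var (ψ := fun y => PP G b2 β2 y * PP G b2 β2 y - 2 * m * PP G b2 β2 y + m ^ 2)
        fun y _ => by ring,
        Ex_add_Var c (gd_sub_Var c (gd_mul_Var G2 G2) (gd_cmul_Var _ G2)) (gd_const_Var _),
        Ex_sub_Var c (gd_mul_Var G2 G2) (gd_cmul_Var _ G2), Ex_cmul_Var, Ex_const_Var c, ← hm]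
      simp only [sq]
      ring
    have k6 : 0 ≤ Ex W G b β (fun y => (PP G b2 β2 y - m) * (PP G b2 β2 y - m)) :=
      Ex_nonneg_Var c fun y _ => mul_self_nonneg _
    rw [k4] at k3
    rw [← hm, ← k5]
    exact k3.trans (mul_le_mul_of_nonneg_left E2 k6)

end Pool.Agent.MP_5f4cdd_gt.CB
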