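import Pool.Agent.MP_5f4cdd_gt.CB.SCum
import Pool.Agent.MP_5f4cdd_gt.CB.SNorm
import Pool.Agent.MP_5f4cdd_gt.CB.SMom1
import Pool.Agent.MP_5f4cdd_gt.CB.SMom2
import Pool.Agent.MP_5f4cdd_gt.CB.SMom3
import Pool.Agent.MP_5f4cdd_gt.CB.SKurt
import Pool.Agent.MP_5f4cdd_gt.CB.SEyHB
import Pool.Agent.MP_5f4cdd_gt.CB.SBg
import Pool.Agent.MP_5f4cdd_gt.CB.SBgV
import Pool.Agent.MP_5f4cdd_gt.CB.SDataA
import Pool.Agent.MP_5f4cdd_gt.CB.SRho
import Pool.Agent.MP_5f4cdd_gt.CB.SLd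
import Pool.Agent.MP_5f4cdd_gt.CB.SData
import Pool.Agent.MP_5f4cdd_gt.CB.SC0
import Pool.Agent.MP_5f4cdd_gt.CB.SC2
import Pool.Agent.MP_5f4cdd_gt.CB.SCal1a
import Pool.Agent.MP_5f4cdd_gt.CB.SCalAlg
import Pool.Agent.MP_5f4cdd_gt.CB.SCal1
import Pool.Agent.MP_5f4cdd_gt.CB.SCal
import Pool.Agent.MP_5f4cdd_gt.CB.SC3
import Pool.Agent.MP_5f4cdd_gt.CB.SGk
import Pool.Agent.MP_5f4cdd_gt.CB.SKer
import Pool.Agent.MP_5f4cdd_gt.CB.SSm
import Pool.Agent.MP_5f4cdd_gt.CB.SHeat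
import Pool.Agent.MP_5f4cdd_gt.CB.SRes0a
import Pool.Agent.MP_5f4cdd_gt.CB.SRes0
import Pool.Agent.MP_5f4cdd_gt.CB.SResEq
import Pool.Agent.MP_5f4cdd_gt.CB.SRes
import Pool.Agent.MP_5f4cdd_gt.CB.SMP
import Pool.Agent.MP_5f4cdd_gt.CB.SCC
import Pool.Agent.MP_5f4cdd_gt.CB.SFreeze
import Pool.Agent.MP_5f4cdd_gt.CB.SSch0
import Pool.Agent.MP_5f4cdd_gt.CB.SSch
import Pool.Agent.MP_5f4cdd_gt.CB.SBoot
import Pool.Agent.MP_5f4cdd_gt.CB.SApr
import Pool.Agent.MP_5f4cdd_gt.CB.SStepA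
import Pool.Agent.MP_5f4cdd_gt.CB.SLinA
import Pool.Agent.MP_5f4cdd_gt.CB.SLin
import Pool.Agent.MP_5f4cdd_gt.CB.SStep
import Pool.Agent.MP_5f4cdd_gt.CB.SEx
import Pool.Agent.MP_5f4cdd_gt.CB.SApx
import Pool.Agent.MP_5f4cdd_gt.CB.SCmp
import Pool.Agent.MP_5f4cdd_gt.CB.SPreA
import Pool.Agent.MP_5f4cdd_gt.CB.SLocCal
import Pool.Agent.MP_5f4cdd_gt.CB.SPreB
import Pool.Agent.MP_5f4cdd_gt.CB.SLocStep
import Pool.Agent.MP_5f4cdd_gt.CB.SLocSch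
import Pool.Agent.MP_5f4cdd_gt.CB.SPreC
import Pool.Agent.MP_5f4cdd_gt.CB.SPreBar
import Pool.Agent.MP_5f4cdd_gt.CB.SBar
import Pool.Agent.MP_5f4cdd_gt.CB.SGeo1
import Pool.Agent.MP_5f4cdd_gt.CB.SGeo3a
import Pool.Agent.MP_5f4cdd_gt.CB.SGeo3b
import Pool.Agent.MP_5f4cdd_gt.CB.SGeo2a
import Pool.Agent.MP_5f4cdd_gt.CB.SGeo2b
import Pool.Agent.MP_5f4cdd_gt.CB.SPt1
import Pool.Agent.MP_5f4cdd_gt.CB.SPt2
import Pool.Agent.MP_5f4cdd_gt.CB.SDiv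
import Pool.Agent.MP_5f4cdd_gt.CB.SIbp
import Pool.Agent.MP_5f4cdd_gt.CB.SVar
import Pool.Agent.MP_5f4cdd_gt.CB.SDer
import Pool.Agent.MP_5f4cdd_gt.CB.SLapl
import Pool.Agent.MP_5f4cdd_gt.CB.SStage1
import Pool.Agent.MP_5f4cdd_gt.CB.SNum1
import Pool.Agent.MP_5f4cdd_gt.CB.SNum2a
import Pool.Agent.MP_5f4cdd_gt.CB.SNum2b
import Pool.Agent.MP_5f4cdd_gt.CB.SCs
import Pool.Agent.MP_5f4cdd_gt.CB.SMain
import Pool.Agent.MP_5f4cdd_gt.CB.SRedA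
import Pool.Agent.MP_5f4cdd_gt.CB.SRedB
import Pool.Agent.MP_5f4cdd_gt.CB.SRedC
import Pool.Agent.MP_5f4cdd_gt.CB.SRedD
import Pool.Agent.MP_5f4cdd_gt.CB.SRed
import Pool.Agent.MP_5f4cdd_gt.CB.SOwn

set_option autoImplicit false
open MeasureTheory Matrix Set Filter Topology

namespace Pool.Agent.MP_5f4cdd_gt.CB

theorem red_final : RedStmt := by
  have hCum : CumStmt := sCum
  have hNorm : NormStmt := sNorm
  have hMom1 : Mom1Stmt := sMom1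
  have hMom2 : Mom2Stmt := sMom2 hMom1
  have hMom3 : Mom3Stmt := sMom3 hMom1
  have hMom : MomStmt := sMom hMom1 hMom2 hMom3
  have hKurt : KurtStmt := sKurt hNorm hMom
  have hEyHB : EyHBStmt := sEyHB
  have hBg : BgStmt := sBg hCum hKurt hEyHB
  have hBgV : BgVStmt := sBgV hNorm hMom hCum
  have hDataA : DataAStmt := sDataA hBg hBgV
  have hRho : RhoStmt := sRho hNorm hMom
  have hLd : LdStmt := sLd
  have hData : DataStmt := sData hDataA hRho hLd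
  have hC0 : C0Stmt := sC0
  have hC2 : C2Stmt := sC2 hC0
  have hCal1a : Cal1aStmt := sCal1a
  have hCalAlg : CalAlgStmt := sCalAlg
  have hCal1 : Cal1Stmt := sCal1 hCal1a hCalAlg
  have hCal : CalStmt := sCal hCal1
  have hC3 : C3Stmt := sC3 hCal
  have hGk : GkStmt := sGk
  have hKer : KerStmt := sKer
  have hSm : SmStmt := sSm hGk hKer
  have hHeat : HeatStmt := sHeat hGk hKer
  have hRes0a : Res0aStmt := sRes0a hSm
  have hRes0 : Res0Stmt := sRes0 hSm hRes0a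
  have hResEq : ResEqStmt := sResEq hGk hSm hHeat hRes0
  have hRes : ResStmt := sRes hGk hSm hHeat hRes0 hResEq
  have hMP : MPStmt := sMP
  have hCC : CCStmt := sCC hRes hMP
  have hFreeze : FreezeStmt := sFreeze hCC
  have hSch0 : Sch0Stmt := sSch0 hFreeze hMP
  have hSch : SchStmt := sSch hSch0
  have hBoot : BootStmt := sBoot hSch
  have hApr : AprStmt := sApr hC0 hC2 hC3 hBoot
  have hStepA : StepAStmt := sStepA
  have hLinA : LinAStmt := sLinA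
  have hLin : LinStmt := sLin hLinA hSch hRes
  have hStep : StepStmt := sStep hStepA hLin
  have hEx : ExStmt := sEx hApr hStep
  have hApx : ApxStmt := sApx hData hEx hC0 hC2
  have hCmp : CmpStmt := sCmp
  have hPreA : PreAStmt := sPreA hRho hCmp
  have hLocCal : LocCalStmt := sLocCal hCal
  have hPreB : PreBStmt := sPreB hRho hLocCal
  have hLocStep : LocStepStmt := sLocStep hSch
  have hLocSch : LocSchStmt := sLocSch hLocStep
  have hPreC : PreCStmt := sPreC hPreB hLocSch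
  have hPreBar : PreBarStmt := sPreBar hApx hPreA hPreB hPreC
  have hBar : BarStmt := sBar hPreBar hCmp hRho
  have hGeo1 : Geo1Stmt := sGeo1
  have hGeo3a : Geo3aStmt := sGeo3a hGeo1
  have hGeo3b : Geo3bStmt := sGeo3b hGeo1 hGeo3a
  have hGeo3 : Geo3Stmt := sGeo3 hGeo3a hGeo3b
  have hGeo2a : Geo2aStmt := sGeo2a hGeo1
  have hGeo2b : Geo2bStmt := sGeo2b hGeo1
  have hGeo2 : Geo2Stmt := sGeo2 hGeo2a hGeo2b
  have hPt1 : Pt1Stmt := sPt1 hGeo1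
  have hPt2 : Pt2Stmt := sPt2 hGeo1
  have hPt : PtStmt := sPt hPt1 hPt2
  have hDiv : DivStmt := sDiv hGeo1
  have hIbp : IbpStmt := sIbp hGeo1 hGeo2 hGeo3 hPt hDiv
  have hVar : VarStmt := sVar hGeo1 hGeo2 hGeo3 hPt hIbp
  have hDer : DerStmt := sDer hGeo1 hGeo3
  have hLapl : LaplStmt := sLapl hGeo1 hGeo2 hGeo3 hPt
  have hStage1 : Stage1Stmt := sStage1 hGeo1 hGeo2 hGeo3 hVar hDer hLapl
  have hNum1 : Num1Stmt := sNum1
  have hNum2a : Num2aStmt := sNum2a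
  have hNum2b : Num2bStmt := sNum2b
  have hNum2 : Num2Stmt := sNum2 hNum2a hNum2b
  have hCs : CsStmt := sCs hGeo1 hGeo3
  have hMain : MainStmt := sMain hBar hGeo1 hGeo3 hStage1 hNum1 hNum2 hVar hDer hCs
  have hRedA : RedAStmt := sRedA
  have hRedB : RedBStmt := sRedB
  have hRedC : RedCStmt := sRedC
  have hRedD : RedDStmt := sRedD
  have hRed : RedStmt := sRed hMain hRedA hRedB hRedC hRedD
  exact hRed

end Pool.Agent.MP_5f4cdd_gt.CB
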