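import Pool.Agent.MP_5f4cdd_gt.CB.Defs

set_option autoImplicit false
open MeasureTheory Matrix Set Filter Topology

namespace Pool.Agent.MP_5f4cdd_gt.CB

/-! ### Gaussian smoothing and the resolvent of the Laplacian -/

noncomputable def gk {N : ℕ} (z : E N) : ℝ :=
  ∏ i, (√(2 * Real.pi))⁻¹ * Real.exp (-(z i) ^ 2 / 2)
noncomputable def KS {N : ℕ} (ψ : E N → ℝ) (s : ℝ) (f : E N → ℝ) (x : E N) : ℝ :=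
  ∫ z, f (x + s • z) * ψ z
def Dec {N : ℕ} (ψ : E N → ℝ) : Prop :=
  ContDiff ℝ 1 ψ ∧ ∃ C : ℝ, ∀ z, |ψ z| ≤ C * Real.exp (-‖z‖) ∧
    ∀ i, |pd i ψ z| ≤ C * Real.exp (-‖z‖)
noncomputable def Res {N : ℕ} (f : E N → ℝ) (x : E N) : ℝ :=
  ∫ s in Ioi (0 : ℝ), s * Real.exp (-s ^ 2) * KS gk s f x

def GkStmt : Prop := ∀ N : ℕ, (∫ z : E N, gk z = 1) ∧ (∀ z : E N, 0 ≤ gk z) ∧ Dec (gk : E N → ℝ) ∧
  (∀ i : Fin N, Dec (pd i gk) ∧ ∀ z, pd i gk z = -(z i) * gk z) ∧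
  ∀ i j : Fin N, Dec (pd i (pd j gk))

def KerStmt : Prop := ∀ (N : ℕ) (ψ f : E N → ℝ) (M s : ℝ), Dec ψ → Continuous f →
  (∀ x, |f x| ≤ M) → 0 < s →
  Differentiable ℝ (KS ψ s f) ∧ ∀ i x, pd i (KS ψ s f) x = -s⁻¹ * KS (pd i ψ) s f x

/-- bounds for the smoothing of a Hoelder function -/
def SmStmt : Prop := ∀ N : ℕ, ∃ C : ℝ, 0 ≤ C ∧ ∀ (M : ℝ) (f : E N → ℝ), HB 0 M f → ∀ s : ℝ, 0 < s →
  HB 0 M (KS gk s f) ∧ (∀ x, |KS gk s f x - f x| ≤ C * M * √s) ∧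
  Differentiable ℝ (KS gk s f) ∧ (∀ i, Differentiable ℝ (pd i (KS gk s f))) ∧
  (∀ i j, Differentiable ℝ (pd i (pd j (KS gk s f)))) ∧
  (∀ i x, |pd i (KS gk s f) x| ≤ C * M / √s) ∧
  (∀ i j x, |pd i (pd j (KS gk s f)) x| ≤ C * M / (s * √s)) ∧
  (∀ i j k x, |pd i (pd j (pd k (KS gk s f))) x| ≤ C * M / (s ^ 2 * √s)) ∧
  (∀ x, ContinuousOn (fun t => KS gk t f x) (Ioi 0)) ∧
  (∀ i x, ContinuousOn (fun t => pd i (KS gk t f) x) (Ioi 0)) ∧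
  ∀ i j x, ContinuousOn (fun t => pd i (pd j (KS gk t f)) x) (Ioi 0)

/-- smoothing commutes with derivatives, and the heat equation in the variable s -/
def HeatStmt : Prop := ∀ (N : ℕ) (M : ℝ) (f : E N → ℝ), HB 1 M f →
  (∀ s : ℝ, Differentiable ℝ (KS gk s f) ∧ ∀ i x, pd i (KS gk s f) x = KS gk s (pd i f) x) ∧
  ∀ (s : ℝ) (x : E N), 0 < s →
    HasDerivAt (fun t => KS gk t f x) (s * ∑ i, pd i (pd i (KS gk s f)) x) s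

def Res0aStmt : Prop := ∀ (N : ℕ) (M : ℝ) (f : E N → ℝ), HB 0 M f →
  Differentiable ℝ (Res f) ∧ (∀ i, Differentiable ℝ (pd i (Res f))) ∧
  (∀ i x, pd i (Res f) x
    = ∫ s in Ioi (0 : ℝ), s * Real.exp (-s ^ 2) * pd i (KS gk s f) x) ∧
  ∀ i j x, pd i (pd j (Res f)) x
    = ∫ s in Ioi (0 : ℝ), s * Real.exp (-s ^ 2) * pd i (pd j (KS gk s f)) x

def Res0Stmt : Prop := ∀ N : ℕ, ∃ C : ℝ, 0 ≤ C ∧ ∀ (M : ℝ) (f : E N → ℝ), HB 0 M f →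
  HB 2 (C * M) (Res f) ∧ ∀ i j x, pd i (pd j (Res f)) x
    = ∫ s in Ioi (0 : ℝ), s * Real.exp (-s ^ 2) * pd i (pd j (KS gk s f)) x

def ResEqStmt : Prop := ∀ (N : ℕ) (M : ℝ) (f : E N → ℝ), HB 0 M f →
  ∀ x, op (fun _ => (1 : Mat N)) (Res f) x = -f x

def ResStmt : Prop := ∀ N k : ℕ, ∃ C : ℝ, 0 ≤ C ∧ ∀ (M : ℝ) (f : E N → ℝ), HB k M f →
  ∃ u, HB (k + 2) (C * M) u ∧ ∀ x, op (fun _ => (1 : Mat N)) u x = f x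

/-! ### Linear theory -/

def MPStmt : Prop := ∀ (N : ℕ) (a : E N → Mat N) (u : E N → ℝ) (K M B : ℝ), Ell 0 a →
  (∀ x i j, |a x i j| ≤ K) → ContDiff ℝ 2 u → (∀ x, |u x| ≤ B) → (∀ x, |op a u x| ≤ M) →
  ∀ x, |u x| ≤ M / 2

def CCStmt : Prop := ∀ (N : ℕ) (c K : ℝ), 0 < c → ∃ C : ℝ, 0 ≤ C ∧ ∀ (A : Mat N) (u : E N → ℝ)
  (M : ℝ), Ell c (fun _ => A) → (∀ i j, |A i j| ≤ K) → (∃ M', HB 2 M' u) →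
  HB 0 M (op (fun _ => A) u) → HB 2 (C * M) u

/-- freezing the coefficients near a point -/
def FreezeStmt : Prop := ∀ (N : ℕ) (c K η : ℝ), 0 < c → 0 < η → ∃ r C : ℝ, 0 < r ∧ 0 ≤ C ∧
  ∀ (a : E N → Mat N) (u : E N → ℝ) (M M' : ℝ), Ell c a → HBM 0 K a → HB 2 M' u →
  HB 0 M (op a u) → (∀ x, |u x| ≤ M) → ∀ x0 : E N,
  ∃ w : E N → ℝ, HB 2 (η * M' + C * M) w ∧ ∀ x, ‖x - x0‖ ≤ r → w x = u x

def SchAt (j : ℕ) : Prop := ∀ (N : ℕ) (c K : ℝ), 0 < c → ∃ C : ℝ, 0 ≤ C ∧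
  ∀ (a : E N → Mat N) (u : E N → ℝ) (M : ℝ), Ell c a → HBM j K a → (∃ M', HB (j + 2) M' u) →
  HB j M (op a u) → HB (j + 2) (C * M) u
def Sch0Stmt : Prop := SchAt 0
def SchStmt : Prop := ∀ j, SchAt j

/-- one step of the method of continuity -/
def LinAStmt : Prop := ∀ (N j : ℕ) (C0 K : ℝ), 0 ≤ C0 → ∃ δ : ℝ, 0 < δ ∧
  ∀ (a b : E N → Mat N) (θ : ℝ), HBM j K b → |θ| ≤ δ →
  (∀ (f : E N → ℝ) (M : ℝ), HB j M f → ∃ u, HB (j + 2) (C0 * M) u ∧ ∀ x, op a u x = f x) →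
  ∀ (f : E N → ℝ) (M : ℝ), HB j M f →
    ∃ (u : E N → ℝ) (M' : ℝ), HB (j + 2) M' u ∧ ∀ x, op (fun y => a y + θ • b y) u x = f x

def LinStmt : Prop := ∀ (N j : ℕ) (c K : ℝ), 0 < c → ∃ C : ℝ, 0 ≤ C ∧
  ∀ (a : E N → Mat N) (f : E N → ℝ) (M : ℝ), Ell c a → HBM j K a → HB j M f →
  ∃ u, HB (j + 2) (C * M) u ∧ ∀ x, op a u x = f x

/-! ### The truncated Monge-Ampere problem -/

/-- nonlinear remainder of the Monge-Ampere equation -/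
noncomputable def Tm {N : ℕ} (g : E N → Mat N) (h v : E N → ℝ) (x : E N) : ℝ :=
  (Real.exp (2 * v x + h x) - 1 - 2 * v x)
    - ((1 + (g x)⁻¹ * hess v x).det - 1 - ((g x)⁻¹ * hess v x).trace)

def StepAStmt : Prop := ∀ (N : ℕ) (c K : ℝ), 0 < c → ∃ C r0 : ℝ, 1 ≤ C ∧ 0 < r0 ∧
  ∀ (g : E N → Mat N) (h : E N → ℝ) (r : ℝ), Ell c g → HBM 3 K g → r ≤ r0 → HB 3 r h →
  HB 3 (C * r) (Tm g h (fun _ => 0)) ∧ ∀ (v v' : E N → ℝ) (m : ℝ), HB 5 r v → HB 5 r v' →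
    HB 5 m (fun x => v x - v' x) → HB 3 (C * r * m) (fun x => Tm g h v x - Tm g h v' x)

def StepStmt : Prop := ∀ (N : ℕ) (c K : ℝ), 0 < c → ∃ δ : ℝ, 0 < δ ∧
  ∀ (g : E N → Mat N) (h : E N → ℝ), Ell c g → HBM 3 K g → HB 3 δ h →
  ∃ v, HB 5 1 v ∧ Ell (c / 2) (fun x => g x + hess v x) ∧
    ∀ x, Real.log (g x + hess v x).det = Real.log (g x).det + 2 * v x + h x

def C0Stmt : Prop := ∀ (N : ℕ) (B ε K : ℝ) (Gt H u : E N → ℝ), 0 < ε → Bg B ε K Gt →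
  Rhs B K Gt H → Sol Gt H u → ∀ x, |u x| ≤ B / 2

def C2Stmt : Prop := ∀ (N : ℕ) (B : ℝ), ∃ C : ℝ, 0 < C ∧ ∀ (ε K : ℝ) (Gt H u : E N → ℝ), 0 < ε →
  Bg B ε K Gt → Rhs B K Gt H → Sol Gt H u → ∀ x v,
    qf (hess Gt x + hess u x) v v ≤ C * qf (hess Gt x) v v ∧
    qf (hess Gt x) v v ≤ C * qf (hess Gt x + hess u x) v v

/-- second variation of the Calabi test function along the line of direction e -/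
def Cal1aStmt : Prop := ∀ (N : ℕ) (G μ : E N → ℝ) (x e : E N), ContDiffAt ℝ 5 G 0 →
  hess G 0 = 1 → ContDiffAt ℝ 2 μ 0 →
  (∀ᶠ y in 𝓝 (0 : E N), ∀ v, cal G y v ≤ 4 * μ y * qf (hess G y) v v) →
  x ⬝ᵥ x = 1 → cal G 0 x = 4 * μ 0 →
  let X : Mat N := d3 G 0 x
  let A : Mat N := d3 G 0 e
  let Z : Mat N := -((1 / 2 : ℝ) • (A * X + X * A))
  let Y : Mat N := d4 G 0 e x - (1 / 2 : ℝ) • d3 G 0 (A *ᵥ x)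
  let U : Mat N := d5 G 0 e e x - d4 G 0 e (A *ᵥ x)
  let C : Mat N := d4 G 0 e e
  (4 * (Z * Y).trace - 2 * (Z * Z).trace - 4 * (A * Z * X).trace - 4 * (A * X * Z).trace
      - 2 * (A * X * A * X).trace) + 2 * (X * U).trace - 2 * (C * X * X).trace
    ≤ 4 * (qf (hess μ 0) e e + μ 0 * (qf C x x - 3 / 2 * ((A *ᵥ x) ⬝ᵥ (A *ᵥ x))))

/-- Calabi inequality at a touching point, normalised metric -/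
def Cal1Stmt : Prop := ∀ (N : ℕ) (G μ : E N → ℝ) (x : E N), ContDiffAt ℝ 5 G 0 → hess G 0 = 1 →
  ContDiffAt ℝ 2 μ 0 → (∀ᶠ y in 𝓝 (0 : E N), ∀ v, cal G y v ≤ 4 * μ y * qf (hess G y) v v) →
  x ⬝ᵥ x = 1 → cal G 0 x = 4 * μ 0 →
  8 * μ 0 ^ 2 ≤ 4 * (hess μ 0).trace + 4 * μ 0 * qf (hess (ldet G) 0) x x
    + 2 * (hess (ldet G) 0 * d3 G 0 x * d3 G 0 x).trace - 2 * (d3 (ldet G) 0 x * d3 G 0 x).trace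

/-- pure algebra behind the Calabi inequality -/
def CalAlgStmt : Prop := ∀ (N : ℕ) (A : Fin N → Fin N → Fin N → ℝ)
  (B : Fin N → Fin N → Fin N → ℝ) (X : Mat N),
  (∀ i j k, A i j k = A j i k) → (∀ i j k, A i j k = A i k j) →
  (∀ i j k, B i j k = B j i k) → (∀ i j k, B i j k = B i k j) → X.IsSymm →
  let Am : Fin N → Mat N := fun m => Matrix.of (A m)
  let Bm : Fin N → Mat N := fun m => Matrix.of (B m)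
  let AX : Fin N → Mat N := fun m => ∑ k, X m k • Am k
  let Zm : Fin N → Mat N := fun m => -((1 / 2 : ℝ) • (Am m * X + X * Am m))
  let Ym : Fin N → Mat N := fun m => Bm m - (1 / 2 : ℝ) • AX m
  0 ≤ ∑ m, (4 * (Zm m * Ym m).trace - 2 * (Zm m * Zm m).trace - 4 * (Am m * Zm m * X).trace
      - 4 * (Am m * X * Zm m).trace - 2 * (Am m * X * Am m * X).trace)
    - 2 * ∑ m, (AX m * AX m).trace + 4 * ∑ m, (Bm m * AX m).trace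
    - 2 * ∑ m, ((Am m * X * AX m).trace + (X * Am m * AX m).trace)

/-- Calabi inequality at a touching point -/
def CalStmt : Prop := ∀ (N : ℕ) (G H μ : E N → ℝ) (y x : E N) (K1 K2 : ℝ), 0 ≤ K1 → 0 ≤ K2 →
  ContDiffAt ℝ 5 G y → (hess G y).PosDef → ContDiffAt ℝ 3 H y → ContDiffAt ℝ 2 μ y →
  (∀ᶠ z in 𝓝 y, ldet G z = 2 * G z + H z) →
  (∀ᶠ z in 𝓝 y, ∀ v, cal G z v ≤ 4 * μ z * qf (hess G z) v v) →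
  qf (hess G y) x x = 1 → cal G y x = 4 * μ y →
  (∀ v, qf (hess H y) v v ≤ K1 * qf (hess G y) v v) →
  ((hess G y)⁻¹ * d3 H y x * (hess G y)⁻¹ * d3 H y x).trace ≤ K2 ^ 2 →
  2 * μ y ^ 2 - 2 * μ y ≤ Lop G μ y + 3 * K1 * μ y + K2 * √(μ y)

def C3Stmt : Prop := ∀ (N : ℕ) (c K : ℝ), 0 < c → ∃ C : ℝ, ∀ (B ε : ℝ) (Gt H u : E N → ℝ),
  Bg B ε K Gt → HB 3 K H → Sol Gt H u → Ell c (fun x => hess Gt x + hess u x) →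
  (∀ x i j, |(hess Gt x + hess u x) i j| ≤ K) → ∀ i j k x, |pd i (pd j (pd k u)) x| ≤ C

def BootStmt : Prop := ∀ (N : ℕ) (c K : ℝ), 0 < c → ∃ C : ℝ, ∀ (B ε : ℝ) (Gt H u : E N → ℝ),
  Bg B ε K Gt → HB 3 K H → Sol Gt H u → Ell c (fun x => hess Gt x + hess u x) →
  (∀ x, |u x| ≤ K) → (∀ i j x, |pd i (pd j u) x| ≤ K) →
  (∀ i j k x, |pd i (pd j (pd k u)) x| ≤ K) → HB 5 C u

def AprStmt : Prop := ∀ (N : ℕ) (B ε K : ℝ), 0 < ε → ∃ c C : ℝ, 0 < c ∧ ∀ (Gt H u : E N → ℝ),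
  Bg B ε K Gt → Rhs B K Gt H → Sol Gt H u →
  Ell c (fun x => hess Gt x + hess u x) ∧ HB 5 C u

def ExStmt : Prop := ∀ (N : ℕ) (B ε K : ℝ) (Gt H : E N → ℝ), 0 < ε → Bg B ε K Gt →
  Rhs B K Gt (ldet Gt) → Rhs B K Gt H → ∃ u, Sol Gt H u

/-! ### Background potentials -/

def NormStmt : Prop := ∀ (N : ℕ) (S : Set (E N)) (y η0 : E N), IsClosed S → Convex ℝ S →
  (interior S).Nonempty → η0 ∈ S → (∀ η ∈ S, 0 ≤ y ⬝ᵥ (η - η0)) →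
  Bornology.IsBounded {η | η ∈ S ∧ y ⬝ᵥ (η - η0) ≤ 1} → ∃ A : Mat N, Nrm S y η0 A

def Mom1Stmt : Prop := ∀ N : ℕ, ∃ c C : ℝ, 0 < c ∧ 0 < C ∧ ∀ (S : Set (E N)) (y η0 : E N)
  (A : Mat N), MeasurableSet S → Nrm S y η0 A →
  Room S y ∧ (interior S).Nonempty ∧
  c * |A.det| ≤ Phi S y * Real.exp (y ⬝ᵥ η0) ∧ Phi S y * Real.exp (y ⬝ᵥ η0) ≤ C * |A.det|

def Mom2Stmt : Prop := ∀ N : ℕ, ∃ C : ℝ, 0 < C ∧ ∀ (S : Set (E N)) (y η0 : E N)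
  (A : Mat N), MeasurableSet S → Nrm S y η0 A →
  (∀ v, Ey S (fun η => (v ⬝ᵥ (η - η0)) ^ 2) y ≤ C * ((Aᵀ *ᵥ v) ⬝ᵥ (Aᵀ *ᵥ v))) ∧
  (∀ v, Ey S (fun η => (v ⬝ᵥ (η - η0)) ^ 4) y ≤ C * ((Aᵀ *ᵥ v) ⬝ᵥ (Aᵀ *ᵥ v)) ^ 2)

def Mom3Stmt : Prop := ∀ N : ℕ, ∃ c : ℝ, 0 < c ∧ ∀ (S : Set (E N)) (y η0 : E N)
  (A : Mat N), MeasurableSet S → Nrm S y η0 A →
  ∀ (v : E N) (t : ℝ), c * ((Aᵀ *ᵥ v) ⬝ᵥ (Aᵀ *ᵥ v)) ≤ Ey S (fun η => (v ⬝ᵥ η - t) ^ 2) y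

def MomStmt : Prop := ∀ N : ℕ, ∃ c C : ℝ, 0 < c ∧ 0 < C ∧ ∀ (S : Set (E N)) (y η0 : E N)
  (A : Mat N), MeasurableSet S → Nrm S y η0 A →
  Room S y ∧ (interior S).Nonempty ∧
  c * |A.det| ≤ Phi S y * Real.exp (y ⬝ᵥ η0) ∧ Phi S y * Real.exp (y ⬝ᵥ η0) ≤ C * |A.det| ∧
  (∀ v, Ey S (fun η => (v ⬝ᵥ (η - η0)) ^ 2) y ≤ C * ((Aᵀ *ᵥ v) ⬝ᵥ (Aᵀ *ᵥ v))) ∧
  (∀ v, Ey S (fun η => (v ⬝ᵥ (η - η0)) ^ 4) y ≤ C * ((Aᵀ *ᵥ v) ⬝ᵥ (Aᵀ *ᵥ v)) ^ 2) ∧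
  ∀ (v : E N) (t : ℝ), c * ((Aᵀ *ᵥ v) ⬝ᵥ (Aᵀ *ᵥ v)) ≤ Ey S (fun η => (v ⬝ᵥ η - t) ^ 2) y

/-- centred linear form -/
noncomputable def cen {N : ℕ} (S : Set (E N)) (y v η : E N) : ℝ :=
  v ⬝ᵥ η - Ey S (fun ζ => v ⬝ᵥ ζ) y

def CumStmt : Prop := ∀ (N : ℕ) (S : Set (E N)) (y : E N), MeasurableSet S → Room S y →
  (interior S).Nonempty → ∀ u v w : E N,
  qf (hess (fun z => Real.log (Phi S z)) y) v w = Ey S (fun η => cen S y v η * cen S y w η) y ∧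
  qf (d3 (fun z => Real.log (Phi S z)) y u) v w
    = -Ey S (fun η => cen S y u η * cen S y v η * cen S y w η) y ∧
  qf (d4 (fun z => Real.log (Phi S z)) y v v) w w
    = Ey S (fun η => cen S y v η ^ 2 * cen S y w η ^ 2) y
      - Ey S (fun η => cen S y v η ^ 2) y * Ey S (fun η => cen S y w η ^ 2) y
      - 2 * Ey S (fun η => cen S y v η * cen S y w η) y ^ 2

def KurtStmt : Prop := ∀ N : ℕ, ∃ C : ℝ, 0 < C ∧ ∀ (Q : Set (E N)) (y v : E N), IsCompact Q →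
  Convex ℝ Q → (interior Q).Nonempty →
  Ey Q (fun η => cen Q y v η ^ 4) y ≤ C * Ey Q (fun η => cen Q y v η ^ 2) y ^ 2

def EyHBStmt : Prop := ∀ (N k : ℕ) (Q : Set (E N)) (p : E N → ℝ), IsCompact Q →
  (interior Q).Nonempty → PolyW p → ∃ K, HB k K (Ey Q p)

def BgStmt : Prop := ∀ N : ℕ, ∃ B : ℝ, 0 < B ∧ ∀ (Q : Set (E N)) (ε : ℝ), IsCompact Q →
  Convex ℝ Q → (interior Q).Nonempty → 0 < ε → ∃ K, Bg B ε K (bgF Q ε)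

/-- comparison of the truncated cone with the full cone -/
def BgVStmt : Prop := ∀ N : ℕ, ∃ B : ℝ, 0 < B ∧ ∀ (W : Set (E N)) (b0 y : E N) (c : ℝ), PC W b0 →
  y ∈ oV W → 0 < c → (∀ η ∈ W, y ⬝ᵥ η ≤ 1 → b0 ⬝ᵥ η ≤ c) →
  let Q : Set (E N) := {η | η ∈ W ∧ b0 ⬝ᵥ η ≤ c}
  let F : E N → ℝ := fun z => Real.log (Phi Q z)
  (∀ v, sm W y v ≤ B * qf (hess F y) v v ∧ qf (hess F y) v v ≤ B * sm W y v ∧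
    (dd v F y) ^ 2 ≤ B * sm W y v) ∧
  |F y - Real.log (Phi W y)| ≤ B ∧ (hess F y).PosDef ∧ |ldet F y - 2 * F y| ≤ B

def RhoStmt : Prop := ∀ N : ℕ, ∃ B : ℝ, 0 < B ∧ ∀ (W : Set (E N)) (b0 β y : E N), PC W b0 →
  β ∈ iW W → y ∈ oV W → ∀ v, (dd v (rho W β) y) ^ 2 ≤ B * sm W y v ∧
    |qf (hess (rho W β) y) v v| ≤ B * sm W y v

/-- the derivatives of log det of a background potential -/
def LdStmt : Prop := ∀ (N : ℕ) (B : ℝ), ∃ B' : ℝ, B ≤ B' ∧ 0 < B' ∧ ∀ (ε K : ℝ) (Gt : E N → ℝ),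
  0 < ε → Bg B ε K Gt → (∃ K', HB 3 K' (ldet Gt)) ∧ ∀ x v,
    (dd v (ldet Gt) x) ^ 2 ≤ B' * qf (hess Gt x) v v ∧
    |qf (hess (ldet Gt) x) v v| ≤ B' * qf (hess Gt x) v v

/-- background potential adapted to the piece rho at most R + 1 -/
def DataAStmt : Prop := ∀ (N : ℕ) (W : Set (E N)) (b0 β : E N), 0 < N → PC W b0 → β ∈ iW W →
  ∃ B : ℝ, 0 < B ∧ ∀ R : ℝ, ∃ (ε K : ℝ) (Gt : E N → ℝ), 0 < ε ∧ Bg B ε K Gt ∧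
    ∀ y ∈ oV W, rho W β y ≤ R + 1 →
      |Gt y - Real.log (Phi W y)| ≤ B ∧ |ldet Gt y - 2 * Gt y| ≤ B ∧
      ∀ v, sm W y v ≤ B * qf (hess Gt y) v v ∧ qf (hess Gt y) v v ≤ B * sm W y v ∧
        (dd v Gt y) ^ 2 ≤ B * qf (hess Gt y) v v

/-- data of the truncated problem -/
def DataStmt : Prop := ∀ (N : ℕ) (W : Set (E N)) (b0 β : E N), 0 < N → PC W b0 → β ∈ iW W →
  ∃ B : ℝ, 0 < B ∧ ∀ R : ℝ, ∃ (ε K : ℝ) (Gt H : E N → ℝ), 0 < ε ∧ Bg B ε K Gt ∧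
    Rhs B K Gt (ldet Gt) ∧ Rhs B K Gt H ∧ ∀ y ∈ oV W, rho W β y < R →
      H y = 2 * Gt y ∧ |Gt y - Real.log (Phi W y)| ≤ B ∧
      ∀ v, sm W y v ≤ B * qf (hess Gt y) v v ∧ qf (hess Gt y) v v ≤ B * sm W y v

def ApxStmt : Prop := ∀ (N : ℕ) (W : Set (E N)) (b0 β : E N), 0 < N → PC W b0 → β ∈ iW W →
  ∃ D B : ℝ, 0 < B ∧ ∀ R : ℝ, ∃ G, Apx W β D B R G

/-! ### Passing to the limit -/

def CmpStmt : Prop := ∀ (N : ℕ) (B : ℝ), ∃ δ : ℝ, 0 < δ ∧ ∀ (K : Set (E N)) (ρ G1 G2 : E N → ℝ)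
  (R D : ℝ), Exh K ρ R → (∀ y ∈ K, MAat 2 G1 y ∧ MAat 2 G2 y ∧ RhoB B G2 ρ y) →
  (∀ y ∈ K, G1 y - G2 y ≤ D) → 0 ≤ D → ∀ y ∈ K, G1 y - G2 y ≤ D * Real.exp (δ * (ρ y - R))

def LocCalStmt : Prop := ∀ (N : ℕ) (B : ℝ), ∃ A : ℝ, 0 < A ∧ ∀ (K : Set (E N)) (ρ G : E N → ℝ)
  (R : ℝ), Exh K ρ R → (∀ y ∈ K, MAat 5 G y ∧ RhoB B G ρ y) →
  ∀ y ∈ K, ρ y < R → ∀ v, cal G y v ≤ 4 * (1 + A / (R - ρ y) ^ 2) * qf (hess G y) v v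

/-- G agrees on a ball with a function that has Hoelder bounds -/
def LocHB {N : ℕ} (k : ℕ) (C : ℝ) (a : E N) (r : ℝ) (G : E N → ℝ) : Prop :=
  ∃ u : E N → ℝ, HB k C u ∧ ∀ x, ‖x - a‖ ≤ r → u x = G x

def LocStepStmt : Prop := ∀ (N j : ℕ) (r c K : ℝ), j ≤ 1 → 0 < r → 0 < c → ∃ C : ℝ,
  ∀ (a : E N) (G : E N → ℝ), ContDiff ℝ 5 G →
  (∀ x, ‖x - a‖ ≤ r → ldet G x = 2 * G x ∧ ∀ v, c * (v ⬝ᵥ v) ≤ qf (hess G x) v v) →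
  LocHB (j + 2) K a r G → LocHB (j + 3) C a (r / 8) G

def LocSchStmt : Prop := ∀ (N : ℕ) (r c K : ℝ), 0 < r → 0 < c → ∀ a : E N,
  ∃ (ζ : E N → ℝ) (C : ℝ), (∀ x, ‖x - a‖ ≤ r / 256 → ζ x = 1) ∧ (∀ x, r ≤ ‖x - a‖ → ζ x = 0) ∧
  ∀ G : E N → ℝ, ContDiff ℝ 5 G → (∀ x, ‖x - a‖ ≤ r → ldet G x = 2 * G x ∧ |G x| ≤ K ∧
    (∀ v, c * (v ⬝ᵥ v) ≤ qf (hess G x) v v) ∧ (∀ i j, |hess G x i j| ≤ K) ∧
    ∀ i j k, |pd i (pd j (pd k G)) x| ≤ K) → HB 4 C (fun x => ζ x * G x)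

def PreAStmt : Prop := ∀ (N : ℕ) (W : Set (E N)) (b0 β : E N) (D B : ℝ) (Gs : ℕ → E N → ℝ),
  0 < N → PC W b0 → β ∈ iW W → 0 < B → (∀ n : ℕ, Apx W β D B n (Gs n)) →
  ∀ y ∈ oV W, CauchySeq (fun n => Gs n y)

def PreBStmt : Prop := ∀ (N : ℕ) (W : Set (E N)) (b0 β : E N) (B : ℝ),
  0 < N → PC W b0 → β ∈ iW W → 0 < B → ∃ A : ℝ, 0 < A ∧ ∀ (D R : ℝ) (G : E N → ℝ),
  Apx W β D B R G → ∀ y ∈ oV W, rho W β y < R - 1 → ∀ v,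
    cal G y v ≤ 4 * (1 + A / (R - 1 - rho W β y) ^ 2) * qf (hess G y) v v

def PreCStmt : Prop := ∀ (N : ℕ) (W : Set (E N)) (b0 β : E N) (D B : ℝ),
  0 < N → PC W b0 → β ∈ iW W → 0 < B → ∀ a ∈ oV W, ∃ (r c C R0 : ℝ) (ζ : E N → ℝ),
  0 < r ∧ 0 < c ∧ (∀ x, ‖x - a‖ ≤ r → ζ x = 1) ∧ (∀ x, ζ x ≠ 0 → x ∈ oV W) ∧
  ∀ (R : ℝ) (G : E N → ℝ), R0 ≤ R → Apx W β D B R G →
    HB 4 C (fun x => ζ x * G x) ∧ ∀ v, c * (v ⬝ᵥ v) ≤ qf (hess G a) v v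

def PreBarStmt : Prop := ∀ (N : ℕ) (W : Set (E N)) (b0 : E N), 0 < N → PC W b0 →
  ∃ G, PreBar W G

def BarStmt : Prop := ∀ (N : ℕ) (W : Set (E N)) (b0 : E N), 0 < N → PC W b0 → ∃ G, Bar W G

/-! ### Geometry of the barrier -/

def Geo1Stmt : Prop := ∀ (N : ℕ) (W : Set (E N)) (b0 : E N) (G : E N → ℝ), PC W b0 → Bar W G →
  ∀ y ∈ oV W, hess G y *ᵥ y = eta G y ∧ y ⬝ᵥ eta G y = N ∧ d3 G y y = (-2 : ℝ) • hess G y ∧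
    eta G y ∈ W ∧ (∀ z ∈ oV W, G y - eta G y ⬝ᵥ (z - y) ≤ G z) ∧
    (∀ z ∈ oV W, eta G z = eta G y → z = y) ∧
    ∀ z ∈ oV W, (N : ℝ) ^ 2 ≤ (z ⬝ᵥ eta G y) * (y ⬝ᵥ eta G z)

def Geo2aStmt : Prop := ∀ (N : ℕ) (W : Set (E N)) (b0 : E N) (G : E N → ℝ), 0 < N → PC W b0 →
  Bar W G → ∀ y ∈ oV W, (∀ v ∈ cV W, qf (hess G y) v v ≤ (v ⬝ᵥ eta G y) ^ 2) ∧ eta G y ∈ iW W

/-- the Dikin ellipsoid lies in the cone -/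
def Geo2bStmt : Prop := ∀ (N : ℕ) (W : Set (E N)) (b0 : E N) (G : E N → ℝ), 0 < N → PC W b0 →
  Bar W G → ∀ y ∈ oV W, ∀ β ∈ W, qf (hess G y)⁻¹ β β ≤ (β ⬝ᵥ y) ^ 2

def Geo2Stmt : Prop := ∀ (N : ℕ) (W : Set (E N)) (b0 : E N) (G : E N → ℝ), 0 < N → PC W b0 →
  Bar W G → ∀ y ∈ oV W, (∀ v ∈ cV W, qf (hess G y) v v ≤ (v ⬝ᵥ eta G y) ^ 2) ∧
    (∀ β ∈ W, qf (hess G y)⁻¹ β β ≤ (β ⬝ᵥ y) ^ 2) ∧ eta G y ∈ iW W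

def Geo3aStmt : Prop := ∀ (N : ℕ) (W : Set (E N)) (b0 : E N) (G : E N → ℝ), 0 < N → PC W b0 →
  Bar W G → ∀ b ∈ oV W, ∀ β ∈ iW W,
    (∀ y ∈ oV W, 0 < PP G b β y ∧ ContDiffAt ℝ 3 (PP G b β) y) ∧
    (∀ r : ℝ, IsCompact {y | y ∈ oV W ∧ PP G b β y ≤ r}) ∧
    (b ⬝ᵥ β = N → ∃ y0 ∈ oV W, (∀ y ∈ oV W, PP G b β y0 ≤ PP G b β y) ∧ PP G b β y0 ≤ 2 * N)

def Geo3bStmt : Prop := ∀ (N : ℕ) (W : Set (E N)) (b0 : E N) (G : E N → ℝ), 0 < N → PC W b0 →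
  Bar W G → ∀ b ∈ oV W, ∀ β ∈ iW W,
    (∀ φ : E N → ℝ, ContinuousOn φ (oV W) → PolyP W G b β φ →
      IntegrableOn (fun y => φ y * wt G b β y) (oV W)) ∧
    0 < ZZ W G b β ∧
    (∀ b2 ∈ cV W, ∀ β2 ∈ W, ∃ C : ℝ, ∀ y ∈ oV W, 0 ≤ PP G b2 β2 y ∧ PP G b2 β2 y ≤ C * PP G b β y)

def Geo3Stmt : Prop := ∀ (N : ℕ) (W : Set (E N)) (b0 : E N) (G : E N → ℝ), 0 < N → PC W b0 →
  Bar W G → ∀ b ∈ oV W, ∀ β ∈ iW W,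
    (∀ y ∈ oV W, 0 < PP G b β y ∧ ContDiffAt ℝ 3 (PP G b β) y) ∧
    (∀ r : ℝ, IsCompact {y | y ∈ oV W ∧ PP G b β y ≤ r}) ∧
    (∀ φ : E N → ℝ, ContinuousOn φ (oV W) → PolyP W G b β φ →
      IntegrableOn (fun y => φ y * wt G b β y) (oV W)) ∧
    0 < ZZ W G b β ∧
    (∀ b2 ∈ cV W, ∀ β2 ∈ W, ∃ C : ℝ, ∀ y ∈ oV W, 0 ≤ PP G b2 β2 y ∧ PP G b2 β2 y ≤ C * PP G b β y) ∧
    (b ⬝ᵥ β = N → ∃ y0 ∈ oV W, (∀ y ∈ oV W, PP G b β y0 ≤ PP G b β y) ∧ PP G b β y0 ≤ 2 * N)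

def Pt1Stmt : Prop := ∀ (N : ℕ) (W : Set (E N)) (b0 : E N) (G : E N → ℝ), PC W b0 → Bar W G →
  ∀ (b β : E N), ∀ y ∈ oV W,
    grad (PP G b β) y = β - hess G y *ᵥ b ∧ hess (PP G b β) y = -d3 G y b ∧
    LB G (PP G b β) y = PP G b β y ∧
    ip G (PP G b β) (PP G b β) y = QQ G b β y - 2 * (b ⬝ᵥ β) ∧
    (PP G b β y) ^ 2 ≤ N * (QQ G b β y + 2 * (b ⬝ᵥ β))

def Pt2Stmt : Prop := ∀ (N : ℕ) (W : Set (E N)) (b0 : E N) (G : E N → ℝ), PC W b0 → Bar W G →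
  ∀ (b β : E N), ∀ y ∈ oV W,
    ContDiffAt ℝ 2 (QQ G b β) y ∧ 0 ≤ QQ G b β y ∧
    0 ≤ LB G (QQ G b β) y ∧ LB G (QQ G b β) y ≤ 4 * QQ G b β y ∧
    ip G (QQ G b β) (QQ G b β) y ≤ 16 * (QQ G b β y) ^ 2

/-- pointwise identities -/
def PtStmt : Prop := ∀ (N : ℕ) (W : Set (E N)) (b0 : E N) (G : E N → ℝ), PC W b0 → Bar W G →
  ∀ (b β : E N), ∀ y ∈ oV W,
    grad (PP G b β) y = β - hess G y *ᵥ b ∧ hess (PP G b β) y = -d3 G y b ∧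
    LB G (PP G b β) y = PP G b β y ∧
    ip G (PP G b β) (PP G b β) y = QQ G b β y - 2 * (b ⬝ᵥ β) ∧
    (PP G b β y) ^ 2 ≤ N * (QQ G b β y + 2 * (b ⬝ᵥ β)) ∧
    ContDiffAt ℝ 2 (QQ G b β) y ∧ 0 ≤ QQ G b β y ∧
    0 ≤ LB G (QQ G b β) y ∧ LB G (QQ G b β) y ≤ 4 * QQ G b β y ∧
    ip G (QQ G b β) (QQ G b β) y ≤ 16 * (QQ G b β y) ^ 2

/-- divergence form -/
def DivStmt : Prop := ∀ (N : ℕ) (W : Set (E N)) (b0 : E N) (G : E N → ℝ), PC W b0 → Bar W G →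
  ∀ (u v : E N → ℝ), ∀ y ∈ oV W, ContDiffAt ℝ 1 u y → ContDiffAt ℝ 2 v y →
    (∀ i, ContDiffAt ℝ 1 (fun z => u z * Real.exp (G z) * ((hess G z)⁻¹ *ᵥ grad v z) i) y) ∧
    ∑ i, pd i (fun z => u z * Real.exp (G z) * ((hess G z)⁻¹ *ᵥ grad v z) i) y
      = (u y * LB G v y + ip G u v y) * Real.exp (G y)

def IbpStmt : Prop := ∀ (N : ℕ) (W : Set (E N)) (b0 : E N) (G : E N → ℝ), 0 < N → PC W b0 →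
  Bar W G → ∀ b ∈ oV W, ∀ β ∈ iW W, ∀ u v : E N → ℝ,
    (∀ y ∈ oV W, ContDiffAt ℝ 1 u y ∧ ContDiffAt ℝ 2 v y) →
    PolyP W G b β u → PolyP W G b β (ip G u u) → PolyP W G b β (ip G v v) →
    PolyP W G b β (LB G v) →
    Ex W G b β (fun y => u y * (LB G v y - ip G (PP G b β) v y)) = -Ex W G b β (ip G u v)

def VarStmt : Prop := ∀ (N : ℕ) (W : Set (E N)) (b0 : E N) (G : E N → ℝ), 0 < N → PC W b0 →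
  Bar W G → ∀ b ∈ oV W, ∀ β ∈ iW W,
    0 ≤ Ex W G b β (PP G b β) ∧
    (Ex W G b β (PP G b β)) ^ 2 ≤ N * (Ex W G b β (PP G b β) + 4 * (b ⬝ᵥ β)) ∧
    ∀ b2 ∈ cV W, ∀ β2 ∈ W, (Ex W G b β (PP G b2 β2)) ^ 2
      ≤ (Ex W G b β (fun y => PP G b2 β2 y ^ 2) - Ex W G b β (PP G b2 β2) ^ 2)
        * (3 * Ex W G b β (PP G b β) + 8 * (b ⬝ᵥ β))

def DerStmt : Prop := ∀ (N : ℕ) (W : Set (E N)) (b0 : E N) (G : E N → ℝ), 0 < N → PC W b0 →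
  Bar W G → ∀ b1 ∈ cV W, ∀ β1 ∈ W, ∀ b2 ∈ oV W, ∀ β2 ∈ iW W, ∀ t : ℝ, 0 < t →
    HasDerivAt (fun s : ℝ => Real.log (ZZ W G (b1 + s • b2) (β1 + s • β2)))
      (-Ex W G (b1 + t • b2) (β1 + t • β2) (PP G b2 β2)) t ∧
    HasDerivAt (fun s : ℝ => Ex W G (b1 + s • b2) (β1 + s • β2) (PP G b2 β2))
      (-(Ex W G (b1 + t • b2) (β1 + t • β2) (fun y => PP G b2 β2 y ^ 2)
        - Ex W G (b1 + t • b2) (β1 + t • β2) (PP G b2 β2) ^ 2)) t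

def LaplStmt : Prop := ∀ (N : ℕ) (W : Set (E N)) (b0 : E N) (G : E N → ℝ), 0 < N → PC W b0 →
  Bar W G → ∀ b1 ∈ oV W, ∀ β1 ∈ iW W, ∀ y0 ∈ oV W, ∀ ε : ℝ, 0 < ε → ∀ᶠ T : ℝ in atTop,
    -PP G b1 β1 y0 + N / 2 * Real.log Real.pi - ε
      ≤ Real.log (ZZ W G (b1 + T • y0) (β1 + T • eta G y0)) + 2 * T * N + N / 2 * Real.log T

def CsStmt : Prop := ∀ (N : ℕ) (W : Set (E N)) (b0 : E N) (G : E N → ℝ), 0 < N → PC W b0 →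
  Bar W G → ∀ b ∈ oV W, ∀ β ∈ iW W, ENNReal.ofReal (ZZ W G b β ^ 2)
    ≤ (∫⁻ η in W, ENNReal.ofReal (Real.exp (-(((2 : ℝ) • b) ⬝ᵥ η))))
      * ∫⁻ y in oV W, ENNReal.ofReal (Real.exp (-(((2 : ℝ) • β) ⬝ᵥ y)))

/-! ### Numerics -/

def Num1At (lam q : ℝ) : Prop := ∀ (f M V : ℝ → ℝ) (c0 f0 : ℝ),
  (∀ t, 0 < t → HasDerivAt f (-M t) t ∧ HasDerivAt M (-V t) t ∧ 2 ≤ M t ∧ f t ≤ f0 ∧
    ∃ p : ℝ, 0 ≤ p ∧ p ^ 2 ≤ p + 4 * (lam + t) ^ 2 ∧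
      M t ^ 2 ≤ V t * (3 * p + 8 * (lam + t) ^ 2)) →
  (∀ ε : ℝ, 0 < ε → ∀ᶠ T : ℝ in atTop, c0 - ε ≤ f T + 2 * T + Real.log T / 2) → c0 + q ≤ f0
noncomputable def q1 (v lam : ℝ) : ℝ :=
  Real.log (8 * v / (v + 1) ^ 2) / 2 + 1 / (2 * v) - 4 / (v + 1) * (lam - (v - 1 / v) / 8)
def Num1Stmt : Prop := ∀ lam v : ℝ, 0 < lam → 0 < v → Num1At lam (q1 v lam)

noncomputable def alk (k : ℝ) : ℝ := k / (k ^ 4 - 1)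
noncomputable def Sk (k : ℝ) : ℝ := k ^ 2 / (k ^ 4 - 1) - Real.log ((k ^ 2 - 1) / (k ^ 2 + 1)) / 4

def Num2aStmt : Prop := ∀ (L M V : ℝ → ℝ) (μ : ℝ), 0 < μ →
  (∀ a, 0 < a → HasDerivAt L (-M a) a ∧ HasDerivAt M (-V a) a ∧ 2 * μ ≤ M a ∧
    M a ^ 2 ≤ V a * (3 * a * M a + 8 * a ^ 2)) →
  ∀ k1 k : ℝ, 1 < k1 → k1 ≤ k → L (μ * alk k1) + 2 * μ ^ 2 * (Sk k1 - Sk k) ≤ L (μ * alk k)

def Num2bStmt : Prop := ∀ μ : ℝ, 0 < μ → μ ≤ 1 →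
  Real.log (788 / 1000) ≤ 2 * (Real.log (2 * (1 / 3)) + (Real.log Real.pi / 2
    - 2 * μ * (1 / 3) + q1 3 (1 / 3))) ∨
  Real.log (788 / 1000) ≤ 2 * (Real.log (2 * (μ * alk (14 / 9))) + (Real.log Real.pi / 2
    - 2 * μ * (μ * alk (9 / 7)) + q1 6 (μ * alk (9 / 7)) + 2 * μ ^ 2 * (Sk (9 / 7) - Sk (14 / 9))))

def Num2Stmt : Prop := ∀ (L M V : ℝ → ℝ) (μ : ℝ), 0 < μ → μ ≤ 1 →
  (∀ a, 0 < a → HasDerivAt L (-M a) a ∧ HasDerivAt M (-V a) a ∧ 2 * μ ≤ M a ∧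
    M a ^ 2 ≤ V a * (3 * a * M a + 8 * a ^ 2)) →
  (∀ lam v : ℝ, 0 < lam → 0 < v → Real.log Real.pi / 2 - 2 * μ * lam + q1 v lam ≤ L lam) →
  ∃ a : ℝ, 0 < a ∧ Real.log (788 / 1000) ≤ 2 * (Real.log (2 * a) + L a)

/-- first stage: lower bound for the partition function of a general pair -/
def Stage1Stmt : Prop := ∀ (N : ℕ) (W : Set (E N)) (b0 : E N) (G : E N → ℝ), 0 < N → PC W b0 →
  Bar W G → ∀ b ∈ oV W, ∀ β ∈ iW W, b ⬝ᵥ β = N → ∀ y0 ∈ oV W, PP G b β y0 ≤ 2 * N →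
  ∀ lam q : ℝ, 0 < lam → Num1At lam q →
    Real.log Real.pi / 2 - lam * (PP G b β y0 / N) + q
      ≤ Real.log (ZZ W G (lam • b) (lam • β)) / N

def MainStmt : Prop := ∀ (N : ℕ) (W : Set (E N)) (b0 : E N), 0 < N → PC W b0 →
  ∀ b ∈ oV W, ∀ β ∈ iW W, b ⬝ᵥ β = N → ENNReal.ofReal ((788 / 1000 : ℝ) ^ N)
    ≤ (∫⁻ η in W, ENNReal.ofReal (Real.exp (-(b ⬝ᵥ η))))
      * ∫⁻ y in oV W, ENNReal.ofReal (Real.exp (-(β ⬝ᵥ y)))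

/-- the dual cone of the cone over K -/
def coneW {n : ℕ} (K : Set (Fin n → ℝ)) : Set (E (n + 1)) :=
  {ζ | ∀ x ∈ K, 0 ≤ ζ 0 + ∑ i, x i * ζ i.succ}

def RedAStmt : Prop := ∀ (n : ℕ) (K : Set (Fin n → ℝ)), IsCompact K → 0 ∈ interior K →
  (∃ b0, PC (coneW K) b0) ∧ (Pi.single 0 (n + 1 : ℝ) : E (n + 1)) ∈ oV (coneW K) ∧
    (Pi.single 0 (1 : ℝ) : E (n + 1)) ∈ iW (coneW K)

def RedBStmt : Prop := ∀ (n : ℕ) (K : Set (Fin n → ℝ)), IsCompact K → K.Nonempty →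
  ∫⁻ η in coneW K, ENNReal.ofReal (Real.exp (-((Pi.single 0 (n + 1 : ℝ) : E (n + 1)) ⬝ᵥ η)))
    = ENNReal.ofReal ((n + 1 : ℝ) ^ (n + 1))⁻¹ * ∫⁻ y : Fin n → ℝ, ENNReal.ofReal
        (Real.exp (-(sSup ((fun x : Fin n → ℝ => ∑ i, x i * y i) '' K))))

def RedCStmt : Prop := ∀ (n : ℕ) (K : Set (Fin n → ℝ)), Convex ℝ K → IsCompact K → K.Nonempty →
  ∫⁻ y in oV (coneW K), ENNReal.ofReal (Real.exp (-((Pi.single 0 (1 : ℝ) : E (n + 1)) ⬝ᵥ y)))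
    ≤ ENNReal.ofReal n.factorial * volume K

def RedDStmt : Prop := ∀ (n : ℕ) (K : Set (Fin n → ℝ)), Convex ℝ K → IsCompact K →
  (interior K).Nonempty → 0 ∉ interior K → ∫⁻ y : Fin n → ℝ, ENNReal.ofReal
    (Real.exp (-(sSup ((fun x : Fin n → ℝ => ∑ i, x i * y i) '' K)))) = ⊤

def RedStmt : Prop := ∀ (n : ℕ) (K : Set (Fin n → ℝ)), Convex ℝ K → IsCompact K →
  (interior K).Nonempty →
  ENNReal.ofReal ((788 / 1000 : ℝ) ^ (n + 1) * ((n + 1 : ℝ) ^ (n + 1) / n.factorial))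
    ≤ volume K * ∫⁻ y : Fin n → ℝ, ENNReal.ofReal
        (Real.exp (-(sSup ((fun x : Fin n → ℝ => ∑ i, x i * y i) '' K))))

end Pool.Agent.MP_5f4cdd_gt.CB
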