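import Pool.Agent.MP_5f4cdd_gt.CB.Api

set_option autoImplicit false
open MeasureTheory Matrix Set Filter Topology

namespace Pool.Agent.MP_5f4cdd_gt.CB

/-- second order jet at 0 -/
def Jet (f : ℝ → ℝ) (f0 f1 f2 : ℝ) : Prop :=
  f 0 = f0 ∧ ∃ f' : ℝ → ℝ, (∀ᶠ t in 𝓝 (0 : ℝ), HasDerivAt f (f' t) t) ∧ f' 0 = f1 ∧
    HasDerivAt f' f2 0

namespace Jet
variable {f g : ℝ → ℝ} {f0 f1 f2 g0 g1 g2 : ℝ}

theorem congr {a0 a1 a2 : ℝ} (h : Jet f f0 f1 f2) (h0 : f0 = a0) (h1 : f1 = a1) (h2 : f2 = a2) :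
    Jet f a0 a1 a2 := by subst h0 h1 h2; exact h

theorem const (c : ℝ) : Jet (fun _ => c) c 0 0 :=
  ⟨rfl, fun _ => 0, Eventually.of_forall fun t => hasDerivAt_const t c, rfl, hasDerivAt_const _ _⟩

theorem id' : Jet (fun t => t) 0 1 0 :=
  ⟨rfl, fun _ => 1, Eventually.of_forall fun t => hasDerivAt_id t, rfl, hasDerivAt_const _ _⟩

theorem add (hf : Jet f f0 f1 f2) (hg : Jet g g0 g1 g2) :
    Jet (fun t => f t + g t) (f0 + g0) (f1 + g1) (f2 + g2) := by
  obtain ⟨a0, f', a1, a2, a3⟩ := hf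
  obtain ⟨b0, g', b1, b2, b3⟩ := hg
  refine ⟨by simp [a0, b0], fun t => f' t + g' t, ?_, by simp [a2, b2], a3.add b3⟩
  filter_upwards [a1, b1] with t h1 h2 using h1.add h2

theorem mul (hf : Jet f f0 f1 f2) (hg : Jet g g0 g1 g2) :
    Jet (fun t => f t * g t) (f0 * g0) (f1 * g0 + f0 * g1) (f2 * g0 + 2 * (f1 * g1) + f0 * g2) := by
  obtain ⟨a0, f', a1, a2, a3⟩ := hf
  obtain ⟨b0, g', b1, b2, b3⟩ := hg
  refine ⟨by simp [a0, b0], fun t => f' t * g t + f t * g' t, ?_, by simp [a0, b0, a2, b2], ?_⟩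
  · filter_upwards [a1, b1] with t h1 h2 using h1.mul h2
  · have := (a3.mul b1.self_of_nhds).add (a1.self_of_nhds.mul b3)
    refine this.congr_deriv ?_
    rw [a0, b0, a2, b2]; ring

theorem const_mul (c : ℝ) (hf : Jet f f0 f1 f2) :
    Jet (fun t => c * f t) (c * f0) (c * f1) (c * f2) :=
  ((const c).mul hf).congr rfl (by ring) (by ring)

theorem sub (hf : Jet f f0 f1 f2) (hg : Jet g g0 g1 g2) :
    Jet (fun t => f t - g t) (f0 - g0) (f1 - g1) (f2 - g2) := by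
  have := hf.add (hg.const_mul (-1))
  simp only [neg_one_mul, ← sub_eq_add_neg] at this
  exact this

theorem sum {ι : Type} (s : Finset ι) {F : ι → ℝ → ℝ} {a0 a1 a2 : ι → ℝ}
    (h : ∀ i ∈ s, Jet (F i) (a0 i) (a1 i) (a2 i)) :
    Jet (fun t => ∑ i ∈ s, F i t) (∑ i ∈ s, a0 i) (∑ i ∈ s, a1 i) (∑ i ∈ s, a2 i) := by
  classical
  induction s using Finset.induction_on with
  | empty => simpa using const 0
  | insert a s ha ih =>
    simp only [Finset.sum_insert ha]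
    exact (h a (Finset.mem_insert_self _ _)).add
      (ih fun i hi => h i (Finset.mem_insert_of_mem hi))

theorem nonpos_of_max (hf : Jet f f0 f1 f2) (hm : IsLocalMax f 0) : f2 ≤ 0 := by
  obtain ⟨-, f', a1, -, a3⟩ := hf
  by_contra hpos
  push Not at hpos
  have h0 : f' 0 = 0 := hm.hasDerivAt_eq_zero a1.self_of_nhds
  have hs : ∀ᶠ t in 𝓝[>] (0 : ℝ), 0 < f' t := by
    have ht := (hasDerivAt_iff_tendsto_slope_zero.1 a3)
    have h2 : ∀ᶠ t in 𝓝[≠] (0 : ℝ), 0 < t⁻¹ • (f' (0 + t) - f' 0) :=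
      ht.eventually (lt_mem_nhds hpos)
    have h3 : ∀ᶠ t in 𝓝[>] (0 : ℝ), 0 < t⁻¹ • (f' (0 + t) - f' 0) :=
      h2.filter_mono (nhdsWithin_mono _ fun t ht => ne_of_gt ht)
    filter_upwards [h3, self_mem_nhdsWithin] with t h4 h5
    rw [zero_add, h0, sub_zero, smul_eq_mul] at h4
    exact (mul_pos_iff_of_pos_left (inv_pos.2 h5)).1 h4
  obtain ⟨ε, hε, hb⟩ := Metric.eventually_nhds_iff.1 (a1.and hm)
  obtain ⟨u, hu, hu2⟩ := (mem_nhdsGT_iff_exists_Ioo_subset).1 hs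
  have hu0 : 0 < u := hu
  set b := min ε u / 2 with hb'
  have hb0 : 0 < b := by positivity
  have hbε : b < ε := by have := min_le_left ε u; linarith [lt_min hε hu0]
  have hbu : b < u := by have := min_le_right ε u; linarith [lt_min hε hu0]
  have hd : ∀ t ∈ Icc 0 b, HasDerivAt f (f' t) t := fun t ht =>
    (hb (by rw [Real.dist_eq, sub_zero, abs_of_nonneg ht.1]; linarith [ht.2])).1
  obtain ⟨c, hc, hc2⟩ := exists_hasDerivAt_eq_slope f f' hb0
    (fun t ht => (hd t ht).continuousAt.continuousWithinAt)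
    (fun t ht => hd t ⟨ht.1.le, ht.2.le⟩)
  have h5 : 0 < f' c := hu2 ⟨hc.1, hc.2.trans hbu⟩
  have h6 : f b ≤ f 0 := (hb (by rw [Real.dist_eq, sub_zero, abs_of_pos hb0]; exact hbε)).2
  rw [hc2, sub_zero] at h5
  have := div_nonpos_of_nonpos_of_nonneg (sub_nonpos.2 h6) hb0.le
  linarith

end Jet

theorem jet_line {N : ℕ} {h : E N → ℝ} (hh : ContDiffAt ℝ 2 h 0) (e : E N) :
    Jet (fun t : ℝ => h (t • e)) (h 0) (dd e h 0) (dd e (dd e h) 0) := by
  have hc : Tendsto (fun t : ℝ => t • e) (𝓝 0) (𝓝 0) := by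
    have : Continuous (fun t : ℝ => t • e) := by fun_prop
    simpa using this.tendsto 0
  refine ⟨by simp, fun t => dd e h (t • e), ?_, by simp, ?_⟩
  · filter_upwards [hc.eventually (hh.eventually (by simp))] with t ht
    have := hasDerivAt_line (u := h) (x := 0) (v := e) (t := t)
      (by simpa using ht.differentiableAt (by norm_num))
    simpa using this
  · have h1 : ContDiffAt ℝ (1 : ℕ) (dd e h) 0 := contDiffAt_dd (k := 1) hh e
    have := hasDerivAt_line (u := dd e h) (x := 0) (v := e) (t := 0)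
      (by simpa using h1.differentiableAt (by norm_num))
    simpa using this

/-- entrywise jets of matrices -/
def JetM {N : ℕ} (a : ℝ → Mat N) (a0 a1 a2 : Mat N) : Prop :=
  ∀ i j, Jet (fun t => a t i j) (a0 i j) (a1 i j) (a2 i j)

namespace JetM
variable {N : ℕ} {a b : ℝ → Mat N} {a0 a1 a2 b0 b1 b2 : Mat N}

theorem congr {c0 c1 c2 : Mat N} (h : JetM a a0 a1 a2) (h0 : a0 = c0) (h1 : a1 = c1)
    (h2 : a2 = c2) : JetM a c0 c1 c2 := by subst h0 h1 h2; exact h

theorem const (c : Mat N) : JetM (fun _ => c) c 0 0 := fun i j => Jet.const (c i j)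

theorem add (ha : JetM a a0 a1 a2) (hb : JetM b b0 b1 b2) :
    JetM (fun t => a t + b t) (a0 + b0) (a1 + b1) (a2 + b2) := fun i j => (ha i j).add (hb i j)

theorem mul (ha : JetM a a0 a1 a2) (hb : JetM b b0 b1 b2) :
    JetM (fun t => a t * b t) (a0 * b0) (a1 * b0 + a0 * b1)
      (a2 * b0 + (2 : ℝ) • (a1 * b1) + a0 * b2) := by
  intro i j
  have := Jet.sum Finset.univ (fun k _ => (ha i k).mul (hb k j))
  simp only [Matrix.mul_apply, Matrix.add_apply, Matrix.smul_apply, smul_eq_mul]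
  refine this.congr rfl ?_ ?_
  · rw [Finset.sum_add_distrib]
  · rw [Finset.sum_add_distrib, Finset.sum_add_distrib, Finset.mul_sum]

theorem tsmul (c : ℝ) (ha : JetM a a0 a1 a2) :
    JetM (fun t => (c * t) • a t) 0 (c • a0) ((2 * c) • a1) := by
  intro i j
  have := (Jet.id'.const_mul c).mul (ha i j)
  simp only [Matrix.smul_apply, smul_eq_mul, Matrix.zero_apply]
  exact this.congr (by ring) (by ring) (by ring)

theorem trace (ha : JetM a a0 a1 a2) : Jet (fun t => (a t).trace) a0.trace a1.trace a2.trace :=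
  Jet.sum Finset.univ (fun k _ => ha k k)

theorem qf (ha : JetM a a0 a1 a2) (v w : E N) :
    Jet (fun t => qf (a t) v w) (qf a0 v w) (qf a1 v w) (qf a2 v w) := by
  simp only [qf_eq_sum]
  refine Jet.sum _ fun i _ => Jet.sum _ fun j _ => ?_
  have := ((ha i j).const_mul (v i)).mul (Jet.const (w j))
  exact this.congr rfl (by ring) (by ring)

end JetM

theorem jetM_hess {N : ℕ} {G : E N → ℝ} (hG : ContDiffAt ℝ 4 G 0) (e : E N) :
    JetM (fun t : ℝ => hess G (t • e)) (hess G 0) (d3 G 0 e) (d4 G 0 e e) :=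
  fun i j => jet_line (h := fun y => hess G y i j) (contDiffAt_hess (k := 2) hG i j) e

theorem jetM_d3 {N : ℕ} {G : E N → ℝ} (hG : ContDiffAt ℝ 5 G 0) (e v : E N) :
    JetM (fun t : ℝ => d3 G (t • e) v) (d3 G 0 v) (d4 G 0 e v) (d5 G 0 e e v) :=
  fun i j => jet_line (h := dd v (fun y => hess G y i j))
    (contDiffAt_dd (k := 2) (contDiffAt_hess (k := 3) hG i j) v) e

end Pool.Agent.MP_5f4cdd_gt.CB
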