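import Pool.Agent.MP_5f4cdd_gt.CB.Api

set_option autoImplicit false
open MeasureTheory Matrix Set Filter Topology

namespace Pool.Agent.MP_5f4cdd_gt.CB

variable {N : ℕ}

/-- `f` is differentiable at `z` with derivative `a` in the direction `v` -/
def D_Cum (v : E N) (f : E N → ℝ) (z : E N) (a : ℝ) : Prop :=
  DifferentiableAt ℝ f z ∧ dd v f z = a

section D

variable {v z : E N} {f g : E N → ℝ} {a b : ℝ}

theorem D_Cum.add (h : D_Cum v f z a) (k : D_Cum v g z b) :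
    D_Cum v (fun y => f y + g y) z (a + b) :=
  ⟨h.1.add k.1, by rw [dd_add h.1 k.1, h.2, k.2]⟩

theorem D_Cum.sub (h : D_Cum v f z a) (k : D_Cum v g z b) :
    D_Cum v (fun y => f y - g y) z (a - b) :=
  ⟨h.1.sub k.1, by rw [dd_sub h.1 k.1, h.2, k.2]⟩

theorem D_Cum.mul (h : D_Cum v f z a) (k : D_Cum v g z b) :
    D_Cum v (fun y => f y * g y) z (a * g z + f z * b) :=
  ⟨h.1.mul k.1, by rw [dd_mul h.1 k.1, h.2, k.2]⟩

theorem D_Cum.neg (h : D_Cum v f z a) : D_Cum v (fun y => -f y) z (-a) :=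
  ⟨h.1.neg, by rw [dd_neg, h.2]⟩

end D

/-- raw moments -/
noncomputable def m1_Cum (S : Set (E N)) (a : E N) : E N → ℝ := Ey S fun η => a ⬝ᵥ η
noncomputable def m2_Cum (S : Set (E N)) (a b : E N) : E N → ℝ :=
  Ey S fun η => a ⬝ᵥ η * (b ⬝ᵥ η)
noncomputable def m3_Cum (S : Set (E N)) (a b c : E N) : E N → ℝ :=
  Ey S fun η => a ⬝ᵥ η * (b ⬝ᵥ η * (c ⬝ᵥ η))
noncomputable def m4_Cum (S : Set (E N)) (a b c d : E N) : E N → ℝ :=
  Ey S fun η => a ⬝ᵥ η * (b ⬝ᵥ η * (c ⬝ᵥ η * (d ⬝ᵥ η)))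

/-- `p` is a weight with mean `a` -/
def M_Cum (S : Set (E N)) (y : E N) (p : E N → ℝ) (a : ℝ) : Prop := PolyW p ∧ Ey S p y = a

section Main

variable {S : Set (E N)} {y : E N} (hS : MeasurableSet S) (hi : (interior S).Nonempty)
  (h : Room S y)

include hS hi h

theorem dE_Cum {p : E N → ℝ} (hp : PolyW p) (v : E N) : D_Cum v (Ey S p) y
    (-Ey S (fun η => v ⬝ᵥ η * p η) y + m1_Cum S v y * Ey S p y) :=
  ⟨(contDiffAt_Ey hS h hi hp 1).differentiableAt (by norm_num), dd_Ey hS h hi hp v⟩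

theorem d1_Cum (v a : E N) :
    D_Cum v (m1_Cum S a) y (-m2_Cum S v a y + m1_Cum S v y * m1_Cum S a y) :=
  dE_Cum hS hi h (polyW_dot a) v

theorem d2_Cum (v a b : E N) :
    D_Cum v (m2_Cum S a b) y (-m3_Cum S v a b y + m1_Cum S v y * m2_Cum S a b y) :=
  dE_Cum hS hi h ((polyW_dot a).mul (polyW_dot b)) v

theorem d3_Cum (v a b c : E N) :
    D_Cum v (m3_Cum S a b c) y (-m4_Cum S v a b c y + m1_Cum S v y * m3_Cum S a b c y) :=
  dE_Cum hS hi h ((polyW_dot a).mul ((polyW_dot b).mul (polyW_dot c))) v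

theorem L2_Cum (v w : E N) : dd v (dd w fun z => Real.log (Phi S z)) y =
    m2_Cum S v w y - m1_Cum S v y * m1_Cum S w y := by
  have e : (dd w fun z => Real.log (Phi S z)) =ᶠ[𝓝 y] fun z => -m1_Cum S w z :=
    (h.eventually hS).mono fun z hz => dd_logPhi hS hz hi w
  rw [(dd_congr e v).self_of_nhds, (d1_Cum hS hi h v w).neg.2]
  ring

theorem L3_Cum (u v w : E N) : dd u (dd v (dd w fun z => Real.log (Phi S z))) y =
    -m3_Cum S u v w y + m1_Cum S u y * m2_Cum S v w y + m2_Cum S u v y * m1_Cum S w y +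
      m1_Cum S v y * m2_Cum S u w y - m1_Cum S u y * m1_Cum S v y * m1_Cum S w y -
      m1_Cum S u y * m1_Cum S v y * m1_Cum S w y := by
  have e : (dd v (dd w fun z => Real.log (Phi S z))) =ᶠ[𝓝 y]
      fun z => m2_Cum S v w z - m1_Cum S v z * m1_Cum S w z :=
    (h.eventually hS).mono fun z hz => L2_Cum hS hi hz v w
  rw [(dd_congr e u).self_of_nhds,
    ((d2_Cum hS hi h u v w).sub ((d1_Cum hS hi h u v).mul (d1_Cum hS hi h u w))).2]
  ring

theorem L4_Cum (v w : E N) : dd v (dd v (dd w (dd w fun z => Real.log (Phi S z)))) y =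
    m4_Cum S v v w w y - 2 * m1_Cum S v y * m3_Cum S v w w y -
      2 * m1_Cum S w y * m3_Cum S v v w y - m2_Cum S v v y * m2_Cum S w w y -
      2 * m2_Cum S v w y ^ 2 + 2 * m1_Cum S v y ^ 2 * m2_Cum S w w y +
      2 * m1_Cum S w y ^ 2 * m2_Cum S v v y + 8 * m1_Cum S v y * m1_Cum S w y * m2_Cum S v w y -
      6 * m1_Cum S v y ^ 2 * m1_Cum S w y ^ 2 := by
  have e : (dd v (dd w (dd w fun z => Real.log (Phi S z)))) =ᶠ[𝓝 y] fun z =>
      -m3_Cum S v w w z + m1_Cum S v z * m2_Cum S w w z + m2_Cum S v w z * m1_Cum S w z +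
        m1_Cum S w z * m2_Cum S v w z - m1_Cum S v z * m1_Cum S w z * m1_Cum S w z -
        m1_Cum S v z * m1_Cum S w z * m1_Cum S w z :=
    (h.eventually hS).mono fun z hz => L3_Cum hS hi hz v w w
  have a := d1_Cum hS hi h v v
  have b := d1_Cum hS hi h v w
  have c := d2_Cum hS hi h v v w
  rw [(dd_congr e v).self_of_nhds,
    ((((((d3_Cum hS hi h v v w w).neg.add (a.mul (d2_Cum hS hi h v w w))).add (c.mul b)).add
      (b.mul c)).sub ((a.mul b).mul b)).sub ((a.mul b).mul b)).2]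
  ring

theorem c0_Cum (c : ℝ) : M_Cum S y (fun _ => c) c := ⟨polyW_const c, Ey_const hS h hi c⟩

omit hi in
theorem lin_Cum {p q : E N → ℝ} {a b : ℝ} (hp : M_Cum S y p a) (c : ℝ) (hq : M_Cum S y q b) :
    M_Cum S y (fun η => p η + c * q η) (a + c * b) := by
  have k : PolyW fun η => c * q η := (polyW_const c).mul hq.1
  exact ⟨hp.1.add k, by rw [Ey_add hS h hp.1 k, Ey_const_mul, hp.2, hq.2]⟩

omit hS hi h in
theorem c1_Cum (a : E N) : M_Cum S y (fun η => a ⬝ᵥ η) (m1_Cum S a y) := ⟨polyW_dot a, rfl⟩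

omit hS hi h in
theorem c2_Cum (a b : E N) : M_Cum S y (fun η => a ⬝ᵥ η * (b ⬝ᵥ η)) (m2_Cum S a b y) :=
  ⟨(polyW_dot a).mul (polyW_dot b), rfl⟩

omit hS hi h in
theorem c3_Cum (a b c : E N) :
    M_Cum S y (fun η => a ⬝ᵥ η * (b ⬝ᵥ η * (c ⬝ᵥ η))) (m3_Cum S a b c y) :=
  ⟨(polyW_dot a).mul ((polyW_dot b).mul (polyW_dot c)), rfl⟩

omit hS hi h in
theorem c4_Cum (a b c d : E N) :
    M_Cum S y (fun η => a ⬝ᵥ η * (b ⬝ᵥ η * (c ⬝ᵥ η * (d ⬝ᵥ η)))) (m4_Cum S a b c d y) :=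
  ⟨(polyW_dot a).mul ((polyW_dot b).mul ((polyW_dot c).mul (polyW_dot d))), rfl⟩

omit hS hi h in
theorem fin_Cum {p q : E N → ℝ} {a : ℝ} (hp : M_Cum S y p a) (e : ∀ η, q η = p η) :
    Ey S q y = a := by
  rw [funext e]
  exact hp.2

omit hS hi h in
theorem cen_Cum (v η : E N) : cen S y v η = v ⬝ᵥ η - m1_Cum S v y := rfl

theorem E2_Cum (v w : E N) : Ey S (fun η => cen S y v η * cen S y w η) y =
    m2_Cum S v w y - m1_Cum S v y * m1_Cum S w y := by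
  have k := lin_Cum hS h (lin_Cum hS h (lin_Cum hS h (c2_Cum v w) (-m1_Cum S v y) (c1_Cum w))
    (-m1_Cum S w y) (c1_Cum v)) (m1_Cum S v y * m1_Cum S w y) (c0_Cum hS hi h 1)
  rw [fin_Cum k fun η => by simp only [cen_Cum]; ring]
  ring

theorem E3_Cum (u v w : E N) : Ey S (fun η => cen S y u η * cen S y v η * cen S y w η) y =
    m3_Cum S u v w y - m1_Cum S u y * m2_Cum S v w y - m2_Cum S u v y * m1_Cum S w y -
      m1_Cum S v y * m2_Cum S u w y + 2 * m1_Cum S u y * m1_Cum S v y * m1_Cum S w y := by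
  have k := lin_Cum hS h (lin_Cum hS h (lin_Cum hS h (lin_Cum hS h (lin_Cum hS h (lin_Cum hS h
    (lin_Cum hS h (c3_Cum u v w) (-m1_Cum S u y) (c2_Cum v w)) (-m1_Cum S v y) (c2_Cum u w))
    (-m1_Cum S w y) (c2_Cum u v)) (m1_Cum S u y * m1_Cum S v y) (c1_Cum w))
    (m1_Cum S u y * m1_Cum S w y) (c1_Cum v)) (m1_Cum S v y * m1_Cum S w y) (c1_Cum u))
    (-(m1_Cum S u y * m1_Cum S v y * m1_Cum S w y)) (c0_Cum hS hi h 1)
  rw [fin_Cum k fun η => by simp only [cen_Cum]; ring]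
  ring

theorem E4_Cum (v w : E N) : Ey S (fun η => cen S y v η ^ 2 * cen S y w η ^ 2) y =
    m4_Cum S v v w w y - 2 * m1_Cum S v y * m3_Cum S v w w y -
      2 * m1_Cum S w y * m3_Cum S v v w y + m1_Cum S v y ^ 2 * m2_Cum S w w y +
      m1_Cum S w y ^ 2 * m2_Cum S v v y + 4 * m1_Cum S v y * m1_Cum S w y * m2_Cum S v w y -
      3 * m1_Cum S v y ^ 2 * m1_Cum S w y ^ 2 := by
  have k := lin_Cum hS h (lin_Cum hS h (lin_Cum hS h (lin_Cum hS h (lin_Cum hS h (lin_Cum hS h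
    (lin_Cum hS h (lin_Cum hS h (c4_Cum v v w w) (-2 * m1_Cum S v y) (c3_Cum v w w))
    (-2 * m1_Cum S w y) (c3_Cum v v w)) (m1_Cum S v y ^ 2) (c2_Cum w w))
    (m1_Cum S w y ^ 2) (c2_Cum v v)) (4 * m1_Cum S v y * m1_Cum S w y) (c2_Cum v w))
    (-2 * m1_Cum S v y * m1_Cum S w y ^ 2) (c1_Cum v))
    (-2 * m1_Cum S v y ^ 2 * m1_Cum S w y) (c1_Cum w))
    (m1_Cum S v y ^ 2 * m1_Cum S w y ^ 2) (c0_Cum hS hi h 1)
  rw [fin_Cum k fun η => by simp only [cen_Cum]; ring]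
  ring

end Main

theorem sCum : CumStmt := by
  intro N S y hS h hi u v w
  have sm : ∀ k : ℕ, ContDiffAt ℝ k (fun z => Real.log (Phi S z)) y := fun k =>
    (contDiffAt_LapW hS h (polyW_const 1) k).log (Phi_pos hS h hi).ne'
  have sq : ∀ a : E N, Ey S (fun η => cen S y a η ^ 2) y =
      m2_Cum S a a y - m1_Cum S a y * m1_Cum S a y := fun a => by
    rw [← E2_Cum hS hi h a a]
    simp only [pow_two]
  refine ⟨?_, ?_, ?_⟩
  · rw [← dd_dd_eq_qf (sm 2), L2_Cum hS hi h, E2_Cum hS hi h]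
  · rw [qf_d3 (sm 3), L3_Cum hS hi h, E3_Cum hS hi h]
    ring
  · rw [qf_d4 (sm 4), L4_Cum hS hi h, E4_Cum hS hi h, E2_Cum hS hi h, sq, sq]
    ring

end Pool.Agent.MP_5f4cdd_gt.CB
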