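import Pool.Agent.MP_5f4cdd_gt.CB.Api

set_option autoImplicit false
open MeasureTheory Matrix Set Filter Topology

namespace Pool.Agent.MP_5f4cdd_gt.CB

variable {N : ℕ} {G v : E N → ℝ} {y : E N}

lemma cd_Div (h : ContDiffAt ℝ 3 G y) (hp : (hess G y).PosDef) (hv : ContDiffAt ℝ 2 v y)
    (i : Fin N) : ContDiffAt ℝ 1 (fun z => ((hess G z)⁻¹ *ᵥ grad v z) i) y :=
  ContDiffAt.sum (s := Finset.univ) (f := fun j z => (hess G z)⁻¹ i j * pd j v z) fun j _ =>
    (contDiffAt_inv_hess (k := 1) h hp i j).mul (contDiffAt_pd (k := 1) hv j)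

lemma div_Div (h : ContDiffAt ℝ 3 G y) (hp : (hess G y).PosDef) (hv : ContDiffAt ℝ 2 v y) :
    ∑ i, pd i (fun z => ((hess G z)⁻¹ *ᵥ grad v z) i) y =
      Lop G v y - dd ((hess G y)⁻¹ *ᵥ grad v y) (ldet G) y := by
  rw [dd_ldet h hp, Lop, trace, trace, ← Finset.sum_sub_distrib]
  refine Finset.sum_congr rfl fun i _ => ?_
  have d1 : ∀ j, DifferentiableAt ℝ (fun z => (hess G z)⁻¹ i j) y := fun j =>
    (contDiffAt_inv_hess (k := 1) h hp i j).differentiableAt (by simp)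
  have d2 : ∀ j, DifferentiableAt ℝ (pd j v) y := fun j =>
    (contDiffAt_pd (k := 1) hv j).differentiableAt (by simp)
  have e : ((hess G y)⁻¹ * d3 G y ((hess G y)⁻¹ *ᵥ grad v y)).diag i =
      (((hess G y)⁻¹ * d3 G y (Pi.single i 1) * (hess G y)⁻¹) *ᵥ grad v y) i := by
    rw [← mulVec_mulVec, ← mulVec_mulVec, d3_mulVec_swap h, mulVec_mulVec, mulVec_single_one]
    rfl
  rw [e, diag_apply, mul_apply, mulVec, dotProduct, ← Finset.sum_sub_distrib]
  refine (dd_sum Finset.univ (fun j z => (hess G z)⁻¹ i j * pd j v z)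
    (fun j _ => (d1 j).mul (d2 j)) (Pi.single i 1)).trans (Finset.sum_congr rfl fun j _ => ?_)
  rw [dd_mul (d1 j) (d2 j), dd_inv_hess h hp, (hess_symm hv).apply i j]
  simp only [hess, of_apply, grad, pd]
  ring

theorem sDiv (hGeo1 : Geo1Stmt) : DivStmt := by
  intro N W b0 G hW hG u v y hy hu hv
  have h : ContDiffAt ℝ 4 G y := (hG.ma y hy).smooth
  have hp := (hG.ma y hy).pos
  have h3 : ContDiffAt ℝ 3 G y := h.of_le (by norm_num)
  have h1 : ContDiffAt ℝ 1 G y := h.of_le (by norm_num)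
  have c := cd_Div h3 hp hv
  refine ⟨fun i => (hu.mul h1.exp).mul (c i), ?_⟩
  have du := hu.differentiableAt (by simp)
  have dG := h1.differentiableAt (by simp)
  have e : ∀ i, pd i (fun z => u z * Real.exp (G z) * ((hess G z)⁻¹ *ᵥ grad v z) i) y =
      Real.exp (G y) * (grad u y i * ((hess G y)⁻¹ *ᵥ grad v y) i) +
      u y * Real.exp (G y) * (((hess G y)⁻¹ *ᵥ grad v y) i * pd i G y) +
      u y * Real.exp (G y) * pd i (fun z => ((hess G z)⁻¹ *ᵥ grad v z) i) y := by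
    intro i
    rw [pd, dd_mul (u := fun z => u z * Real.exp (G z)) (du.mul dG.exp)
      ((c i).differentiableAt (by simp)), dd_mul du dG.exp,
      dd_comp (Real.hasDerivAt_exp (G y)) dG]
    simp only [grad, pd]
    ring
  have ev : ldet G =ᶠ[𝓝 y] fun z => 2 * G z := by
    filter_upwards [(isOpen_oV W).mem_nhds hy] with z hz using (hG.ma z hz).eqn
  have k : dd ((hess G y)⁻¹ *ᵥ grad v y) G y = -dd y v y := by
    have k1 : grad G y = -(hess G y *ᵥ y) := by
      rw [(hGeo1 N W b0 G hW hG y hy).1, eta, neg_neg]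
    rw [dd_eq_dot, dd_eq_dot, k1, dotProduct_neg, ← qf, qf_symm (posDef_isSymm hp), qf,
      mulVec_mulVec, mul_nonsing_inv _ hp.det_pos.ne'.isUnit, one_mulVec]
  simp only [e, Finset.sum_add_distrib, ← Finset.mul_sum]
  rw [div_Div h3 hp hv, (dd_congr ev _).eq_of_nhds, dd_const_mul, ← dd_eq_sum, k, LB, ip, qf,
    dotProduct]
  ring

end Pool.Agent.MP_5f4cdd_gt.CB
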