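import Pool.Agent.MP_5f4cdd_gt.CB.Api

set_option autoImplicit false
open MeasureTheory Matrix Set Filter Topology

namespace Pool.Agent.MP_5f4cdd_gt.CB

theorem intExp_Heat (N : ℕ) : Integrable fun z : E N => Real.exp (-‖z‖) := by
  have h := (integrable_one_add_norm (E := E N) (μ := volume) (r := (N + 1 : ℕ))
    (by simp)).const_mul (Real.exp 1 * ((N + 1).factorial : ℝ))
  refine h.mono' (by fun_prop) (Eventually.of_forall fun z => ?_)
  have h0 : 0 < 1 + ‖z‖ := by positivity
  have h1 := Real.pow_div_factorial_le_exp (1 + ‖z‖) h0.le (N + 1)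
  rw [div_le_iff₀ (by positivity), Real.exp_add] at h1
  rw [Real.norm_of_nonneg (Real.exp_pos _).le, Real.rpow_neg h0.le, Real.rpow_natCast,
    Real.exp_neg, ← div_eq_mul_inv, le_div_iff₀ (by positivity), inv_mul_le_iff₀ (Real.exp_pos _)]
  linarith

theorem decInt_Heat {N : ℕ} {ψ : E N → ℝ} (h : Dec ψ) : Integrable ψ := by
  obtain ⟨h1, C, h2⟩ := h
  exact ((intExp_Heat N).const_mul C).mono' h1.continuous.aestronglyMeasurable
    (Eventually.of_forall fun z => (h2 z).1)

theorem int_Heat {N : ℕ} {ψ g : E N → ℝ} {M : ℝ} (h : Integrable ψ) (hg : Continuous g)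
    (hM : ∀ x, |g x| ≤ M) (s : ℝ) (x : E N) : Integrable fun z => g (x + s • z) * ψ z :=
  h.bdd_mul (c := M) (hg.comp (by fun_prop)).aestronglyMeasurable
    (Eventually.of_forall fun _ => hM _)

theorem normF_Heat {N : ℕ} {M : ℝ} {f : E N → ℝ} (h : HB 1 M f) (y : E N) :
    ‖fderiv ℝ f y‖ ≤ N * M := by
  have hM := h.nonneg
  refine ContinuousLinearMap.opNorm_le_bound _ (by positivity) fun v => ?_
  rw [show fderiv ℝ f y v = dd v f y from rfl, dd_eq_sum, Real.norm_eq_abs]
  refine (Finset.abs_sum_le_sum_abs _ _).trans ((Finset.sum_le_card_nsmul _ _ (‖v‖ * M)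
    fun i _ => ?_).trans_eq ?_)
  · rw [abs_mul]
    exact mul_le_mul (norm_le_pi_norm v i) ((HB.pd (k := 0) h i).bound y) (abs_nonneg _)
      (norm_nonneg _)
  · rw [Finset.card_univ, Fintype.card_fin, nsmul_eq_mul]; ring

theorem one_Heat {N : ℕ} {M : ℝ} {f ψ : E N → ℝ} (h : HB 1 M f) (hψ : Integrable ψ) (s : ℝ) :
    Differentiable ℝ (KS ψ s f) ∧ ∀ i x, pd i (KS ψ s f) x = KS ψ s (pd i f) x := by
  have hc : Continuous (fderiv ℝ f) := h.contDiff.continuous_fderiv (by simp)
  have hm : ∀ x : E N, AEStronglyMeasurable (fun z => ψ z • fderiv ℝ f (x + s • z)) volume :=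
    fun x => hψ.1.smul (hc.comp (by fun_prop)).aestronglyMeasurable
  have hb : ∀ x z : E N, ‖ψ z • fderiv ℝ f (x + s • z)‖ ≤ ‖ψ z‖ * (N * M) := fun x z => by
    rw [norm_smul]
    exact mul_le_mul_of_nonneg_left (normF_Heat h _) (norm_nonneg _)
  have hd : ∀ x, HasFDerivAt (KS ψ s f) (∫ z, ψ z • fderiv ℝ f (x + s • z)) x := fun x =>
    hasFDerivAt_integral_of_dominated_of_fderiv_le (F := fun y z => f (y + s • z) * ψ z)
      (F' := fun y z => ψ z • fderiv ℝ f (y + s • z)) (bound := fun z => ‖ψ z‖ * (N * M))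
      (s := univ) univ_mem
      (Eventually.of_forall fun y => (int_Heat hψ h.continuous h.bound s y).1)
      (int_Heat hψ h.continuous h.bound s x) (hm x) (Eventually.of_forall fun z y _ => hb y z)
      (hψ.norm.mul_const _) (Eventually.of_forall fun z y _ =>
        ((hasFDerivAt_comp_add_right _).2 (h.1 _).hasFDerivAt).mul_const _)
  refine ⟨fun x => (hd x).differentiableAt, fun i x => ?_⟩
  rw [pd, dd, (hd x).fderiv, ContinuousLinearMap.integral_apply
    ((hψ.norm.mul_const _).mono' (hm x) (Eventually.of_forall (hb x))), KS]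
  exact integral_congr_ae (Eventually.of_forall fun z => mul_comm _ _)

theorem sHeat (hGk : GkStmt) (hKer : KerStmt) : HeatStmt := by
  intro N M f h
  obtain ⟨-, -, h1, h2, -⟩ := hGk N
  have hI := decInt_Heat h1
  have hp : ∀ i, HB 0 M (pd i f) := fun i => HB.pd (k := 0) h i
  have hi : ∀ (i : Fin N) (t : ℝ) (x : E N),
      Integrable fun z => -(pd i f (x + t • z) * pd i gk z) := fun i t x =>
    (int_Heat (decInt_Heat (h2 i).1) (hp i).continuous (hp i).bound t x).neg
  refine ⟨one_Heat h hI, fun s x hs => ?_⟩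
  have hd := (hasDerivAt_integral_of_dominated_loc_of_deriv_le (μ := volume) (x₀ := s)
    (F := fun t z => f (x + t • z) * gk z)
    (F' := fun t z => ∑ i, -(pd i f (x + t • z) * pd i gk z))
    (bound := fun z => ∑ i, M * ‖pd i (gk : E N → ℝ) z‖) (s := univ) univ_mem
    (Eventually.of_forall fun t => (int_Heat hI h.continuous h.bound t x).1)
    (int_Heat hI h.continuous h.bound s x)
    (integrable_finsetSum _ fun i _ => hi i s x).1
    (Eventually.of_forall fun z t _ => (norm_sum_le _ _).trans (Finset.sum_le_sum fun i _ => by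
      rw [norm_neg, norm_mul]
      exact mul_le_mul_of_nonneg_right ((hp i).bound _) (norm_nonneg _)))
    (integrable_finsetSum _ fun i _ => (decInt_Heat (h2 i).1).norm.const_mul M)
    (Eventually.of_forall fun z t _ =>
      ((hasDerivAt_line (h.1 (x + t • z))).mul_const (gk z)).congr_deriv (by
        rw [dd_eq_sum, Finset.sum_mul]
        exact Finset.sum_congr rfl fun i _ => by rw [(h2 i).2]; ring))).2
  refine hd.congr_deriv ?_
  rw [integral_finsetSum _ fun i _ => hi i s x, Finset.mul_sum]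
  refine Finset.sum_congr rfl fun i _ => ?_
  rw [funext ((one_Heat h hI s).2 i),
    (hKer N gk (pd i f) M s h1 (hp i).continuous (hp i).bound hs).2 i x, integral_neg, KS]
  field_simp

end Pool.Agent.MP_5f4cdd_gt.CB
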