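import Pool.Agent.MP_5f4cdd_gt.CB.Api

set_option autoImplicit false
open MeasureTheory Matrix Set Filter Topology

namespace Pool.Agent.MP_5f4cdd_gt.CB

theorem sLd : LdStmt := by
  intro N B
  have hB := abs_nonneg B
  have hB' := le_abs_self B
  have hN : (0 : ℝ) ≤ N * |B| := by positivity
  refine ⟨(N + 1) * |B| + 1, by linarith, by linarith, fun ε K Gt hε h => ⟨?_, fun x v => ?_⟩⟩
  · obtain ⟨C, -, hC⟩ := HBM_inv N 3 ε K hε
    exact ⟨C, (hC _ h.hb h.ell).2⟩
  · have hp : (hess Gt x).PosDef := posDef_of_ell (h.ell x).1 hε (h.ell x).2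
    have s3 : ContDiffAt ℝ 3 Gt x := (h.smooth.of_le (by norm_num)).contDiffAt
    have s4 : ContDiffAt ℝ 4 Gt x := (h.smooth.of_le (by norm_num)).contDiffAt
    have g0 := qf_nonneg hp v
    have c0 : 0 ≤ cal Gt x v := tq_nonneg hp (d3_symm s3 v)
    have c1 : cal Gt x v ≤ |B| * qf (hess Gt x) v v :=
      (h.three x v).trans (mul_le_mul_of_nonneg_right hB' g0)
    have g1 := mul_nonneg hB g0
    have f : ∀ w, |qf (d4 Gt x v v) w w| ≤ |B| * qf (hess Gt x) v v * qf (hess Gt x) w w :=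
      fun w => (h.four x v w).trans (mul_le_mul_of_nonneg_right
        (mul_le_mul_of_nonneg_right hB' g0) (qf_nonneg hp w))
    have t1 := trace_inv_mul_le hp fun w => (le_abs_self _).trans (f w)
    have t2 := trace_inv_mul_le (M := (-1 : ℝ) • d4 Gt x v v) hp fun w => by
      rw [qf_smul, neg_one_mul]
      exact (neg_le_abs _).trans (f w)
    rw [Matrix.mul_smul, trace_smul, smul_eq_mul] at t2
    constructor
    · have t3 : ((hess Gt x)⁻¹ * d3 Gt x v).trace ^ 2 ≤ N * cal Gt x v :=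
        tq_trace_sq hp (d3_symm s3 v)
      have t4 := mul_le_mul_of_nonneg_left c1 (Nat.cast_nonneg (α := ℝ) N)
      rw [dd_ldet s3 hp]
      linarith
    · have e : qf (hess (ldet Gt) x) v v = ((hess Gt x)⁻¹ * d4 Gt x v v).trace - cal Gt x v := by
        rw [← dd_dd_eq_qf (contDiffAt_ldet (k := 2) s4 hp), dd2_ldet s4 hp]
        rfl
      rw [e, abs_le]
      constructor <;> linarith

end Pool.Agent.MP_5f4cdd_gt.CB
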