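import Pool.Agent.MP_5f4cdd_gt.CB.Api

set_option autoImplicit false
open MeasureTheory Matrix Set Filter Topology

namespace Pool.Agent.MP_5f4cdd_gt.CB

variable {N : ℕ}

/-- all derivatives up to order k are bounded by M on S -/
def BO_LocSch : ℕ → ℝ → Set (E N) → (E N → ℝ) → Prop
  | 0, M, S, u => ∀ x ∈ S, |u x| ≤ M
  | k + 1, M, S, u => (∀ x ∈ S, |u x| ≤ M) ∧ ∀ i, BO_LocSch k M S (pd i u)

theorem bo_bound_LocSch {k : ℕ} {M : ℝ} {S : Set (E N)} {u : E N → ℝ} (h : BO_LocSch k M S u) :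
    ∀ x ∈ S, |u x| ≤ M := by
  cases k with
  | zero => exact h
  | succ k => exact h.1

theorem bo_lower_LocSch {M : ℝ} {S : Set (E N)} : ∀ {k : ℕ} {u : E N → ℝ},
    BO_LocSch (k + 1) M S u → BO_LocSch k M S u
  | 0, _, h => h.1
  | _ + 1, _, h => ⟨h.1, fun i => bo_lower_LocSch (h.2 i)⟩

theorem bo_of_HB_LocSch {M : ℝ} : ∀ {k : ℕ} {u : E N → ℝ}, HB k M u → BO_LocSch k M univ u
  | 0, _, h => fun x _ => h.bound x
  | _ + 1, _, h => ⟨fun x _ => h.bound x, fun i => bo_of_HB_LocSch (h.pd i)⟩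

theorem diff_LocSch {k : ℕ} {u : E N → ℝ} (h : ContDiff ℝ (k + 1 : ℕ) u) : Differentiable ℝ u :=
  h.differentiable (by exact_mod_cast Nat.succ_ne_zero k)

theorem lower_LocSch {k : ℕ} {u : E N → ℝ} (h : ContDiff ℝ (k + 1 : ℕ) u) : ContDiff ℝ k u :=
  h.of_le (by exact_mod_cast Nat.le_succ k)

theorem bo_add_LocSch {M M' : ℝ} {S : Set (E N)} : ∀ {k : ℕ} {u w : E N → ℝ}, ContDiff ℝ k u →
    ContDiff ℝ k w → BO_LocSch k M S u → BO_LocSch k M' S w →
    BO_LocSch k (M + M') S fun x => u x + w x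
  | 0, _, _, _, _, h, h' => fun x hx => (abs_add_le _ _).trans (add_le_add (h x hx) (h' x hx))
  | k + 1, u, w, hu, hw, h, h' => by
    refine ⟨fun x hx => (abs_add_le _ _).trans (add_le_add (h.1 x hx) (h'.1 x hx)), fun i => ?_⟩
    have e : pd i (fun x => u x + w x) = fun x => pd i u x + pd i w x :=
      funext fun x => dd_add (diff_LocSch hu x) (diff_LocSch hw x) _
    rw [e]
    exact bo_add_LocSch (contDiff_pd hu i) (contDiff_pd hw i) (h.2 i) (h'.2 i)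

theorem bo_mul_LocSch {M M' : ℝ} {S : Set (E N)} (hS : IsClosed S) (hM : 0 ≤ M) (hM' : 0 ≤ M') :
    ∀ {k : ℕ} {p h : E N → ℝ}, ContDiff ℝ k p → ContDiff ℝ k h → (∀ x, x ∉ S → p x = 0) →
    BO_LocSch k M univ p → BO_LocSch k M' S h →
    BO_LocSch k (2 ^ k * (M * M')) univ fun x => p x * h x := by
  have b0 : ∀ {k : ℕ} {p h : E N → ℝ}, (∀ x, x ∉ S → p x = 0) → BO_LocSch k M univ p →
      BO_LocSch k M' S h → ∀ x, |p x * h x| ≤ 2 ^ k * (M * M') := by
    intro k p h h0 h1 h2 x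
    refine le_trans ?_ (le_mul_of_one_le_left (mul_nonneg hM hM') (one_le_pow₀ one_le_two))
    by_cases hx : x ∈ S
    · rw [abs_mul]
      exact mul_le_mul (bo_bound_LocSch h1 x trivial) (bo_bound_LocSch h2 x hx) (abs_nonneg _) hM
    · rw [h0 x hx, zero_mul, abs_zero]
      exact mul_nonneg hM hM'
  intro k
  induction k with
  | zero => exact fun _ _ h0 h1 h2 x _ => b0 h0 h1 h2 x
  | succ k ih =>
    intro p h hp hh h0 h1 h2
    refine ⟨fun x _ => b0 h0 h1 h2 x, fun i => ?_⟩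
    have e : pd i (fun x => p x * h x) = fun x => pd i p x * h x + p x * pd i h x :=
      funext fun x => dd_mul (diff_LocSch hp x) (diff_LocSch hh x) _
    have h3 : ∀ x, x ∉ S → pd i p x = 0 := fun x hx => by
      have h4 : p =ᶠ[𝓝 x] fun _ => 0 := by
        filter_upwards [hS.isOpen_compl.mem_nhds hx] with y hy using h0 y hy
      exact (pd_congr h4 i).eq_of_nhds.trans (dd_const 0 _ x)
    rw [e, pow_succ, mul_right_comm, mul_two]
    exact bo_add_LocSch ((contDiff_pd hp i).mul (lower_LocSch hh))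
      ((lower_LocSch hp).mul (contDiff_pd hh i))
      (ih (contDiff_pd hp i) (lower_LocSch hh) h3 (h1.2 i) (bo_lower_LocSch h2))
      (ih (lower_LocSch hp) (contDiff_pd hh i) h0 (bo_lower_LocSch h1) (h2.2 i))

theorem HB_of_bo_LocSch {M : ℝ} (hM : 0 ≤ M) : ∀ {k : ℕ} {u : E N → ℝ},
    ContDiff ℝ (k + 1 : ℕ) u → BO_LocSch (k + 1) M univ u → HB k (2 * M + N * M) u
  | 0, _, hu, h => HB0_of_lip (fun x => h.1 x trivial) (by positivity)
      (lip_of_pd (diff_LocSch hu) fun i x => h.2 i x trivial)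
  | _ + 1, _, hu, h => ⟨diff_LocSch hu, fun x => (h.1 x trivial).trans
      (by linarith [mul_nonneg (Nat.cast_nonneg (α := ℝ) N) hM]),
      fun i => HB_of_bo_LocSch hM (contDiff_pd hu i) (h.2 i)⟩

theorem first_LocSch {G : E N → ℝ} (hG : ContDiff ℝ (1 + 1 : ℕ) G) {a : E N} {r K : ℝ}
    (hr : 0 < r) (h0 : ∀ x, ‖x - a‖ ≤ r → |G x| ≤ K)
    (h2 : ∀ x, ‖x - a‖ ≤ r → ∀ i, |pd i (pd i G) x| ≤ K) {x : E N} (hx : ‖x - a‖ ≤ r)
    (i : Fin N) : |pd i G x| ≤ 2 * K / r + K * r := by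
  have hxj : ∀ j, |x j - a j| ≤ r := fun j => (norm_le_pi_norm (x - a) j).trans hx
  obtain ⟨s, hs, hb⟩ : ∃ s : ℝ, |s| = 1 ∧ ∀ t, 0 ≤ t → t ≤ r → |x i + t * s - a i| ≤ r := by
    have h3 := abs_le.1 (hxj i)
    rcases le_total (x i) (a i) with h | h
    · exact ⟨1, abs_one, fun t t0 t1 => abs_le.2 ⟨by linarith, by linarith⟩⟩
    · exact ⟨-1, by simp, fun t t0 t1 => abs_le.2 ⟨by linarith, by linarith⟩⟩
  have hin : ∀ t : ℝ, 0 ≤ t → t ≤ r → ‖x + t • (s • Pi.single i (1 : ℝ) : E N) - a‖ ≤ r := by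
    intro t t0 t1
    refine (pi_norm_le_iff_of_nonneg hr.le).2 fun j => ?_
    by_cases hj : j = i
    · subst hj
      simpa using hb t t0 t1
    · simpa [hj] using hxj j
  have hd : ∀ {u : E N → ℝ}, Differentiable ℝ u → ∀ t : ℝ,
      HasDerivAt (fun t : ℝ => u (x + t • (s • Pi.single i (1 : ℝ) : E N)))
        (s * pd i u (x + t • (s • Pi.single i (1 : ℝ) : E N))) t := fun hu t => by
    have h3 := hasDerivAt_line (x := x) (v := (s • Pi.single i (1 : ℝ) : E N)) (t := t) (hu _)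
    rwa [dd_smul_vec] at h3
  have hd1 := hd (diff_LocSch hG)
  have hd2 := hd (diff_LocSch (k := 0) (contDiff_pd hG i))
  obtain ⟨τ, hτ, e1⟩ := exists_hasDerivAt_eq_slope _ _ hr
    (fun t _ => (hd1 t).continuousAt.continuousWithinAt) fun t _ => hd1 t
  obtain ⟨σ, hσ, e2⟩ := exists_hasDerivAt_eq_slope _ _ hτ.1
    (fun t _ => (hd2 t).continuousAt.continuousWithinAt) fun t _ => hd2 t
  rw [sub_zero, zero_smul, add_zero] at e1 e2
  have a1 := congrArg abs e1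
  have a2 := congrArg abs e2
  rw [abs_mul, hs, one_mul, abs_div] at a1 a2
  rw [abs_of_pos hr] at a1
  rw [abs_of_pos hτ.1, eq_div_iff hτ.1.ne'] at a2
  have b1 := h0 _ (hin r hr.le le_rfl)
  have b2 := h0 _ hx
  have b3 := h2 _ (hin σ hσ.1.le (hσ.2.trans hτ.2).le) i
  have b4 := mul_le_mul b3 hτ.2.le hτ.1.le ((abs_nonneg _).trans b3)
  have b5 : |pd i G (x + τ • (s • Pi.single i (1 : ℝ) : E N))| ≤ 2 * K / r := by
    rw [a1]
    exact div_le_div_of_nonneg_right ((abs_sub _ _).trans (by linarith)) hr.le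
  have b6 := abs_sub_abs_le_abs_sub (pd i G x) (pd i G (x + τ • (s • Pi.single i (1 : ℝ) : E N)))
  rw [abs_sub_comm] at b6
  linarith

theorem sLocSch (hLocStep : LocStepStmt) : LocSchStmt := by
  intro N r c K hr hc a
  obtain ⟨C1, hC1, hz1⟩ := exists_cutoff N 3 (half_pos hr)
  obtain ⟨z, z1, z2, -, z3, z4⟩ := hz1 a
  obtain ⟨C2, s2⟩ := hLocStep N 0 (r / 2) c (2 * (2 ^ 3 * (C1 * (K + (2 * K / r + K * r)))) +
    N * (2 ^ 3 * (C1 * (K + (2 * K / r + K * r))))) (by omega) (by positivity) hc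
  obtain ⟨C3, s3⟩ := hLocStep N 1 (r / 2 / 8) c C2 le_rfl (by positivity) hc
  obtain ⟨C4, -, hz4⟩ := exists_cutoff N 4 (by positivity : 0 < r / 256)
  obtain ⟨ζ, -, y2, -, y3, y4⟩ := hz4 a
  obtain ⟨C5, -, hm⟩ := HB_mul N 4
  refine ⟨ζ, C5 * C4 * C3, y3, fun x hx => y4 x (by linarith), fun G hG h => ?_⟩
  have hK : 0 ≤ K := (abs_nonneg _).trans (h a (by simpa using hr.le)).2.1
  have hK1 : 0 ≤ 2 * K / r + K * r := by positivity
  have hG3 : ContDiff ℝ (2 + 1 : ℕ) G := hG.of_le (by norm_num)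
  have hz3 : ContDiff ℝ (2 + 1 : ℕ) z := z1.of_le (by norm_num)
  have hS : IsClosed {x : E N | ‖x - a‖ ≤ r} := isClosed_le (by fun_prop) continuous_const
  have hB : BO_LocSch 3 (K + (2 * K / r + K * r)) {x : E N | ‖x - a‖ ≤ r} G := by
    refine ⟨fun x hx => by linarith [(h x hx).2.1], fun k => ⟨fun x hx => ?_, fun j =>
      ⟨fun x hx => ?_, fun i x hx => by linarith [(h x hx).2.2.2.2 i j k]⟩⟩⟩
    · linarith [first_LocSch (lower_LocSch hG3) hr (fun y hy => (h y hy).2.1)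
        (fun y hy i => (h y hy).2.2.2.1 i i) hx k]
    · have h1 : |pd j (pd k G) x| ≤ K := (h x hx).2.2.2.1 j k
      linarith
  have h1 := HB_of_bo_LocSch (by positivity) (hz3.mul hG3) (bo_mul_LocSch hS hC1 (by positivity)
    hz3 hG3 (fun x hx => z4 x (by linarith [not_le.1 (show ¬ ‖x - a‖ ≤ r from hx)])) (bo_of_HB_LocSch z2) hB)
  have h2 := s2 a G hG (fun x hx => ⟨(h x (by linarith)).1, (h x (by linarith)).2.2.1⟩)
    ⟨_, h1, fun x hx => by rw [z3 x hx, one_mul]⟩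
  obtain ⟨u, u1, u2⟩ := s3 a G hG
    (fun x hx => ⟨(h x (by linarith)).1, (h x (by linarith)).2.2.1⟩) h2
  have e : (fun x => ζ x * G x) = fun x => ζ x * u x := funext fun x => by
    rcases le_total ‖x - a‖ (r / 2 / 8 / 8) with hx | hx
    · rw [u2 x hx]
    · rw [y4 x (by linarith), zero_mul, zero_mul]
  rw [e]
  exact hm _ _ _ _ y2 u1

end Pool.Agent.MP_5f4cdd_gt.CB
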