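import Pool.Agent.MP_5f4cdd_gt.CB.Api

set_option autoImplicit false
open MeasureTheory Matrix Set Filter Topology

namespace Pool.Agent.MP_5f4cdd_gt.CB

theorem mem_RedA {n : ℕ} {K : Set (Fin n → ℝ)} {R : ℝ} (hR : ∀ x ∈ K, ‖x‖ ≤ R)
    {ζ : E (n + 1)} {t : ℝ} (h1 : ∀ i : Fin n, |ζ i.succ| ≤ t) (h2 : n * R * t ≤ ζ 0) :
    ζ ∈ coneW K := by
  intro x hx
  have h3 : ∀ i : Fin n, -(R * t) ≤ x i * ζ i.succ := by
    intro i
    have hx1 : |x i| ≤ R := (norm_le_pi_norm x i).trans (hR x hx)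
    have h4 : |x i * ζ i.succ| ≤ R * t := by
      rw [abs_mul]
      exact mul_le_mul hx1 (h1 i) (abs_nonneg _) ((abs_nonneg _).trans hx1)
    exact (abs_le.1 h4).1
  have h5 : ∑ _i : Fin n, -(R * t) ≤ ∑ i, x i * ζ i.succ := Finset.sum_le_sum fun i _ => h3 i
  rw [Finset.sum_const, Finset.card_univ, Fintype.card_fin, nsmul_eq_mul] at h5
  nlinarith

theorem bound_RedA {n : ℕ} {K : Set (Fin n → ℝ)} {ρ : ℝ} (hρ : 0 < ρ)
    (hb : Metric.closedBall (0 : Fin n → ℝ) ρ ⊆ K) {ζ : E (n + 1)} (hζ : ζ ∈ coneW K) :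
    0 ≤ ζ 0 ∧ ‖ζ‖ ≤ (1 + ρ⁻¹) * ζ 0 := by
  have h0 : 0 ≤ ζ 0 := by
    have := hζ 0 (hb (Metric.mem_closedBall_self hρ.le))
    simpa using this
  have hs : ∀ (i : Fin n) (s : ℝ), |s| ≤ ρ → 0 ≤ ζ 0 + s * ζ i.succ := by
    intro i s hs
    have hm : (Pi.single i s : Fin n → ℝ) ∈ K := by
      apply hb
      rw [mem_closedBall_zero_iff, Pi.norm_single]
      exact hs
    have := hζ _ hm
    rw [Finset.sum_eq_single i (fun j _ hj => by rw [Pi.single_eq_of_ne hj, zero_mul])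
      (fun h => absurd (Finset.mem_univ i) h), Pi.single_eq_same] at this
    exact this
  have hi : 0 < ρ⁻¹ := inv_pos.2 hρ
  refine ⟨h0, ?_⟩
  rw [pi_norm_le_iff_of_nonneg (by positivity)]
  intro i
  refine Fin.cases ?_ (fun j => ?_) i
  · rw [Real.norm_eq_abs, abs_of_nonneg h0]
    nlinarith [mul_nonneg hi.le h0]
  · have a1 := hs j ρ (by rw [abs_of_pos hρ])
    have a2 := hs j (-ρ) (by rw [abs_neg, abs_of_pos hρ])
    have a3 : ρ * |ζ j.succ| ≤ ζ 0 := by
      rcases abs_cases (ζ j.succ) with h | h <;> rw [h.1] <;> linarith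
    have a4 : |ζ j.succ| ≤ ρ⁻¹ * ζ 0 := by
      rw [inv_mul_eq_div, le_div_iff₀ hρ]
      linarith
    rw [Real.norm_eq_abs]
    linarith

theorem sRedA : RedAStmt := by
  intro n K hK h0
  obtain ⟨ρ, hρ, hb⟩ : ∃ ρ : ℝ, 0 < ρ ∧ Metric.closedBall (0 : Fin n → ℝ) ρ ⊆ K :=
    Metric.nhds_basis_closedBall.mem_iff.1 (mem_interior_iff_mem_nhds.1 h0)
  obtain ⟨R, hR0, hR⟩ : ∃ R : ℝ, 0 < R ∧ ∀ x ∈ K, ‖x‖ ≤ R := hK.isBounded.exists_pos_norm_le
  have hi : 0 < ρ⁻¹ := inv_pos.2 hρ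
  have hn : (0 : ℝ) ≤ n := Nat.cast_nonneg n
  have hnR : 0 ≤ (n : ℝ) * R := mul_nonneg hn hR0.le
  have he0 : (Pi.single 0 (1 : ℝ) : E (n + 1)) ∈ coneW K :=
    mem_RedA hR (t := 0) (fun i => by simp) (by simp)
  refine ⟨⟨Pi.single 0 (1 + ρ⁻¹), ?_, ?_, ?_, ?_, ?_, ?_⟩, ?_, he0, ?_⟩
  · have : coneW K = ⋂ x ∈ K, {ζ : E (n + 1) | 0 ≤ ζ 0 + ∑ i, x i * ζ i.succ} := by
      ext ζ
      simp [coneW]
    rw [this]
    exact isClosed_biInter fun x _ => isClosed_le continuous_const (by fun_prop)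
  · intro ζ hζ ξ hξ a b ha hb' _ x hx
    have h1 := mul_nonneg ha (hζ x hx)
    have h2 := mul_nonneg hb' (hξ x hx)
    have h3 : ∑ i, x i * (a • ζ + b • ξ) i.succ
        = a * ∑ i, x i * ζ i.succ + b * ∑ i, x i * ξ i.succ := by
      rw [Finset.mul_sum, Finset.mul_sum, ← Finset.sum_add_distrib]
      refine Finset.sum_congr rfl fun i _ => ?_
      simp only [Pi.add_apply, Pi.smul_apply, smul_eq_mul]
      ring
    rw [h3]
    simp only [Pi.add_apply, Pi.smul_apply, smul_eq_mul]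
    linarith
  · intro ζ hζ t ht x hx
    have h1 := mul_nonneg ht (hζ x hx)
    have h3 : ∑ i, x i * (t • ζ) i.succ = t * ∑ i, x i * ζ i.succ := by
      rw [Finset.mul_sum]
      refine Finset.sum_congr rfl fun i _ => ?_
      simp only [Pi.smul_apply, smul_eq_mul]
      ring
    rw [h3]
    simp only [Pi.smul_apply, smul_eq_mul]
    linarith
  · refine ⟨Pi.single 0 1, mem_interior_iff_mem_nhds.2 ?_⟩
    have hd : 0 < ((n : ℝ) * R + 1)⁻¹ := by positivity
    refine mem_of_superset (Metric.closedBall_mem_nhds _ hd) fun ζ hζ => ?_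
    rw [mem_closedBall_iff_norm] at hζ
    have hc : ∀ i, |ζ i - (Pi.single 0 (1 : ℝ) : E (n + 1)) i| ≤ ((n : ℝ) * R + 1)⁻¹ :=
      fun i => (norm_le_pi_norm (ζ - Pi.single 0 1) i).trans hζ
    refine mem_RedA hR (t := ((n : ℝ) * R + 1)⁻¹) (fun i => ?_) ?_
    · simpa using hc i.succ
    · have h1 := (abs_le.1 (hc 0)).1
      rw [Pi.single_eq_same] at h1
      have h2 : ((n : ℝ) * R + 1) * ((n : ℝ) * R + 1)⁻¹ = 1 := mul_inv_cancel₀ (by positivity)
      nlinarith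
  · intro η hη
    rw [single_dotProduct]
    exact (bound_RedA hρ hb hη).2
  · intro η hη x hx
    have := hη (Fin.cons 1 x) fun ζ hζ => by
      have h1 := hζ x hx
      simpa [dotProduct, Fin.sum_univ_succ] using h1
    simpa [dotProduct, Fin.sum_univ_succ] using this
  · refine ⟨(1 + ρ⁻¹)⁻¹, by positivity, fun η hη => ?_⟩
    obtain ⟨h1, h2⟩ := bound_RedA hρ hb hη
    rw [single_dotProduct, inv_mul_le_iff₀ (by positivity)]
    refine h2.trans (mul_le_mul_of_nonneg_left ?_ (by positivity))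
    nlinarith [mul_nonneg hn h1]
  · refine ⟨((n : ℝ) * R + 1)⁻¹, by positivity, fun y hy => ?_⟩
    have hy0 : 0 ≤ y 0 := by
      have := hy _ he0
      simpa using this
    rw [single_dotProduct, one_mul, inv_mul_le_iff₀ (by positivity),
      pi_norm_le_iff_of_nonneg (by positivity)]
    have ht : ∀ (j : Fin n) (s : ℝ), |s| ≤ 1 → 0 ≤ y 0 * (n * R) + y j.succ * s := by
      intro j s hs
      have hm : (Pi.single 0 ((n : ℝ) * R) + Pi.single j.succ s : E (n + 1)) ∈ coneW K := by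
        refine mem_RedA hR (t := 1) (fun i => ?_) ?_
        · by_cases h : i = j
          · subst h
            simpa using hs
          · have h' : i.succ ≠ j.succ := fun e => h (Fin.succ_injective _ e)
            simp [Pi.single_eq_of_ne h']
        · have h' : (0 : Fin (n + 1)) ≠ j.succ := (Fin.succ_ne_zero j).symm
          simp [Pi.single_eq_of_ne h']
      have := hy _ hm
      rwa [dotProduct_add, dotProduct_single, dotProduct_single] at this
    intro i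
    refine Fin.cases ?_ (fun j => ?_) i
    · rw [Real.norm_eq_abs, abs_of_nonneg hy0]
      nlinarith [mul_nonneg hnR hy0]
    · have a1 := ht j 1 (by simp)
      have a2 := ht j (-1) (by simp)
      rw [Real.norm_eq_abs, abs_le]
      constructor <;> nlinarith

end Pool.Agent.MP_5f4cdd_gt.CB
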