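import Pool.Agent.MP_5f4cdd_gt.CB.Api

set_option autoImplicit false
open MeasureTheory Matrix Set Filter Topology

namespace Pool.Agent.MP_5f4cdd_gt.CB

theorem c2_StepA {N : ℕ} {M : ℝ} {u : E N → ℝ} (h : HB 5 M u) (x : E N) :
    ContDiffAt ℝ 2 u x :=
  (h.contDiff.of_le (by exact_mod_cast (by norm_num : 2 ≤ 5))).contDiffAt

theorem z_StepA {N : ℕ} {r : ℝ} {v h : E N → ℝ} (hv : HB 5 r v) (hh : HB 3 r h) :
    HB 3 ((2 * ((N : ℝ) + 2) ^ 5 + 1) * r) (fun x => 2 * v x + h x) := by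
  refine (((hv.lower_le (j := 3) (by norm_num)).const_mul 2).add hh).mono (le_of_eq ?_)
  rw [abs_two]
  ring

theorem sStepA : StepAStmt := by
  intro N c K hc
  obtain ⟨Ci, hCi, hinv⟩ := HBM_inv N 3 c K hc
  obtain ⟨Cm, hCm, hmul⟩ := HBM_mul N 3
  obtain ⟨C1, hC1, hexp⟩ := HB_exp1 N 3
  obtain ⟨C2, hC2, hrem⟩ := HB_exp_rem N 3
  obtain ⟨C3, hC3, hdet⟩ := HBM_det_rem N 3
  set L : ℝ := ((N : ℝ) + 2) ^ 5 with hL
  have hL0 : 0 ≤ L := by positivity
  have hQ : 0 ≤ Cm * Ci := by positivity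
  have k1 : 0 ≤ C2 * (2 * L + 1) * (2 * L) := by positivity
  have k2 : 0 ≤ C3 * (Cm * Ci) * (Cm * Ci) := by positivity
  refine ⟨1 + C1 + C2 * (2 * L + 1) * (2 * L) + C3 * (Cm * Ci) * (Cm * Ci),
    min (1 / (2 * (2 * L + 1))) (1 / (Cm * Ci + 1)), by linarith, lt_min (by positivity)
      (by positivity), fun g h r hg hK hr hh => ?_⟩
  have hr0 := hh.nonneg
  have hr1 : (2 * L + 1) * r ≤ 1 / 2 := by
    have := hr.trans (min_le_left _ _)
    rw [le_div_iff₀ (by positivity)] at this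
    linarith
  have hr2 : Cm * Ci * r ≤ 1 := by
    have := hr.trans (min_le_right _ _)
    rw [le_div_iff₀ (by positivity)] at this
    linarith
  have hr3 : r ≤ 1 := by nlinarith
  have hgi := (hinv g hK hg).1
  refine ⟨?_, fun v v' m hv hv' hm => ?_⟩
  · have e : Tm g h (fun _ => 0) = fun x => Real.exp (h x) - 1 := by
      funext x
      simp [Tm, hess_const]
    rw [e]
    exact (hexp r h hr3 hh).1.mono (mul_le_mul_of_nonneg_right (by linarith) hr0)
  · have hm0 := hm.nonneg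
    have h1 : HB 3 (2 * L * m) (fun x => 2 * v x + h x - (2 * v' x + h x)) := by
      have e : (fun x => 2 * v x + h x - (2 * v' x + h x)) = fun x => 2 * (v x - v' x) := by
        funext x
        ring
      rw [e]
      refine ((hm.lower_le (j := 3) (by norm_num)).const_mul 2).mono (le_of_eq ?_)
      rw [abs_two]
      ring
    have h2 := hrem _ _ _ _ hr1 (z_StepA hv hh) (z_StepA hv' hh) h1
    have h3 : HBM 3 (Cm * Ci * m) (fun x => (g x)⁻¹ * hess v x - (g x)⁻¹ * hess v' x) := by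
      have e : (fun x => (g x)⁻¹ * hess v x - (g x)⁻¹ * hess v' x) =
          fun x => (g x)⁻¹ * hess (fun y => v y - v' y) x := by
        funext x
        rw [hess_sub (c2_StepA hv x) (c2_StepA hv' x), Matrix.mul_sub]
      rw [e]
      exact (hmul _ _ _ _ hCi hm0 hgi (HB.hessM (k := 3) hm)).1
    have h4 := hdet _ _ _ _ (by positivity) (by positivity) hr2
      (hmul _ _ _ _ hCi hr0 hgi (HB.hessM (k := 3) hv)).1
      (hmul _ _ _ _ hCi hr0 hgi (HB.hessM (k := 3) hv')).1 h3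
    have e : (fun x => Tm g h v x - Tm g h v' x) = fun x =>
        (Real.exp (2 * v x + h x) - Real.exp (2 * v' x + h x) -
          (2 * v x + h x - (2 * v' x + h x))) -
        (((1 + (g x)⁻¹ * hess v x).det - ((g x)⁻¹ * hess v x).trace) -
          ((1 + (g x)⁻¹ * hess v' x).det - ((g x)⁻¹ * hess v' x).trace)) := by
      funext x
      simp only [Tm]
      ring
    rw [e]
    refine (h2.sub h4).mono ?_
    have k3 : 0 ≤ (1 + C1) * (r * m) := by positivity
    nlinarith

end Pool.Agent.MP_5f4cdd_gt.CB
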